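import Pool.Agent.Lib.MP_00e05b_nt.Mont.BasA

/-!
# JOB NT0: Fourier inversion at `0`

`ck W` is continuous and integrable by `ck_bound` (`1/(1 + |t|)^3`). Fourier inversion at `0`:
`∫ ck W t dt = 2π W 0` (`MeasureTheory.Integrable.fourierInv_fourier_eq`, `Continuous.fourierInv_fourier_eq` or the Schwartz
version for the Schwartz function `W`; `𝓕 W ξ = ck W (2π ξ)`, because `W` is even).
-/

open Complex Set Filter Topology MeasureTheory
open scoped ContDiff FourierTransform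

namespace Pool.Agent.Lib.MP_00e05b_nt.Mont

private lemma nt0_fourier {W : ℝ → ℝ} {s : ℝ} (hW : ES W s) (ξ : ℝ) :
    𝓕 (fun u : ℝ => (W u : ℂ)) ξ = ((ck W (2 * Real.pi * ξ) : ℝ) : ℂ) := by
  rw [Real.fourier_real_eq_integral_exp_smul, ← ck_even, ← ck_cexp hW]
  refine integral_congr_ae (Eventually.of_forall fun u => ?_)
  simp only [smul_eq_mul]
  rw [mul_comm]
  congr 3
  push_cast
  ring

theorem int_ck {W : ℝ → ℝ} {s : ℝ} (hW : ES W s) (hs : s ≤ 3 / 4) :
    Integrable (ck W) ∧ ∫ t, ck W t = 2 * Real.pi * W 0 := by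
  obtain ⟨C, hC, hb⟩ := ck_bound hW hs
  have hint : Integrable (ck W) := by
    refine Integrable.mono' ((integrable_inv_one_add_sq).const_mul C)
      (ck_continuous hW).aestronglyMeasurable ?_
    filter_upwards with t
    rw [Real.norm_eq_abs]
    refine (hb t).trans ?_
    rw [div_eq_mul_inv]
    refine mul_le_mul_of_nonneg_left ?_ hC
    refine inv_anti₀ (by positivity) ?_
    have h0 := abs_nonneg t
    have h1 : t ^ 2 = |t| ^ 2 := (sq_abs t).symm
    rw [h1]
    nlinarith [pow_nonneg h0 2, pow_nonneg h0 3]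
  refine ⟨hint, ?_⟩
  have hpi : (0 : ℝ) < 2 * Real.pi := by positivity
  have hF : 𝓕 (fun u : ℝ => (W u : ℂ)) = fun ξ => ((ck W (2 * Real.pi * ξ) : ℝ) : ℂ) :=
    funext fun ξ => nt0_fourier hW ξ
  have hFi : Integrable (𝓕 (fun u : ℝ => (W u : ℂ))) := by
    rw [hF]
    exact (hint.comp_mul_left' hpi.ne').ofReal
  have hinv := congrFun (Continuous.fourierInv_fourier_eq (f := fun u : ℝ => (W u : ℂ))
    (Complex.continuous_ofReal.comp hW.continuous) hW.integrable.ofReal hFi) 0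
  rw [Real.fourierInv_eq'] at hinv
  simp only [inner_zero_right, mul_zero, Complex.ofReal_zero, zero_mul, Complex.exp_zero, one_smul] at hinv
  rw [hF] at hinv
  have h2 : ∫ ξ : ℝ, ((ck W (2 * Real.pi * ξ) : ℝ) : ℂ) = ((∫ ξ : ℝ, ck W (2 * Real.pi * ξ) : ℝ) : ℂ) :=
    integral_ofReal
  rw [h2] at hinv
  have h3 : ∫ ξ : ℝ, ck W (2 * Real.pi * ξ) = W 0 := by exact_mod_cast hinv
  rw [Measure.integral_comp_mul_left (ck W) (2 * Real.pi), abs_of_pos (inv_pos.2 hpi), smul_eq_mul] at h3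
  rw [← h3, ← mul_assoc, mul_inv_cancel₀ hpi.ne', one_mul]

end Pool.Agent.Lib.MP_00e05b_nt.Mont
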