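import Pool.Agent.Lib.MP_00e05b_nt.Mont.K3T

/-!
# JOB K3A: Fourier inversion and Parseval for the kernel `f3`

`f3` is the Fourier transform of `phi3` (`𝓕 phi3 x = ∫ phi3 α e^{-2πixα} dα = f3 x`, the sine part vanishes because `phi3` is even),
and `f3` is integrable (`f3_integrable`).
* `integral_f3`: Fourier inversion at `0` (`Continuous.fourierInv_fourier_eq` or
  `MeasureTheory.Integrable.fourierInv_fourier_eq`): `∫ f3 = phi3 0 = 2`.
* `tent_hat`: `∫ max 0 (1 - |β|) cos(2πxβ) dβ = (sin πx/(πx))²` for `x ≠ 0` (explicit integral: `2 ∫_0^1 (1 - β) cos(2πxβ) dβ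
  = (1 - cos 2πx)/(2π²x²)`).
* `f3_sinc`: Fubini with `tent_hat` (both `f3` and the tent function are integrable) and Fourier inversion at the point `β`:
  `∫ f3 x cos(2πxβ) dx = phi3 β`; or `VectorFourier.integral_fourierIntegral_smul_eq_flip` for `f3 = 𝓕 phi3` and the tent:
  `∫ 𝓕 phi3 · 𝓕 tent = ∫ phi3 · 𝓕 𝓕 tent = ∫ phi3 · tent` (`𝓕 tent` is integrable, tent is even and continuous).
-/

open Set Filter Topology MeasureTheory

namespace Pool.Agent.Lib.MP_00e05b_nt.Mont

private lemma K3A_fourier {f : ℝ → ℝ} (hf : Integrable f) (he : ∀ x, f (-x) = f x) (c w : ℝ) (hc : c = 2 * Real.pi * w ∨ c = -(2 * Real.pi * w)) :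
    ∫ v : ℝ, Complex.exp (((c * v : ℝ) : ℂ) * Complex.I) * (f v : ℂ) = ((∫ v : ℝ, f v * Real.cos (2 * Real.pi * w * v) : ℝ) : ℂ) := by
  have hcos : ∀ v : ℝ, Real.cos (c * v) = Real.cos (2 * Real.pi * w * v) := by
    intro v
    rcases hc with rfl | rfl
    · rfl
    · rw [neg_mul, Real.cos_neg]
  have h1 : Integrable (fun v : ℝ => f v * Real.cos (2 * Real.pi * w * v)) := by
    refine hf.mul_bdd (c := 1) (by fun_prop) (Filter.Eventually.of_forall fun v => ?_)
    rw [Real.norm_eq_abs]
    exact Real.abs_cos_le_one _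
  have h2 : Integrable (fun v : ℝ => f v * Real.sin (c * v)) := by
    refine hf.mul_bdd (c := 1) (by fun_prop) (Filter.Eventually.of_forall fun v => ?_)
    rw [Real.norm_eq_abs]
    exact Real.abs_sin_le_one _
  have h3 : ∫ v : ℝ, f v * Real.sin (c * v) = 0 := by
    have h := integral_neg_eq_self (fun v : ℝ => f v * Real.sin (c * v)) volume
    have h' : (fun v : ℝ => f (-v) * Real.sin (c * -v)) = fun v : ℝ => -(f v * Real.sin (c * v)) := by
      funext v
      rw [he, mul_neg, Real.sin_neg, mul_neg]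
    rw [h', integral_neg] at h
    linarith
  have h4 : (fun v : ℝ => Complex.exp (((c * v : ℝ) : ℂ) * Complex.I) * (f v : ℂ)) =
      fun v : ℝ => ((f v * Real.cos (2 * Real.pi * w * v) : ℝ) : ℂ) + ((f v * Real.sin (c * v) : ℝ) : ℂ) * Complex.I := by
    funext v
    rw [Complex.exp_mul_I, ← Complex.ofReal_cos, ← Complex.ofReal_sin, hcos]
    push_cast
    ring
  rw [h4, integral_add h1.ofReal (h2.ofReal.mul_const _), integral_mul_const, integral_complex_ofReal, integral_complex_ofReal, h3]
  simp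

private lemma K3A_phi_even (x : ℝ) : phi3 (-x) = phi3 x := by
  simp [phi3, abs_neg]

private lemma K3A_phi_int : Integrable phi3 := by
  refine phi3_continuous.integrable_of_hasCompactSupport ?_
  refine HasCompactSupport.intro (isCompact_Icc (a := (-1 : ℝ)) (b := 1)) fun x hx => phi3_zero x ?_
  by_contra h
  rw [not_le, abs_lt] at h
  exact hx ⟨h.1.le, h.2.le⟩

private lemma K3A_F : FourierTransform.fourier (fun x : ℝ => (phi3 x : ℂ)) = fun x : ℝ => (f3 x : ℂ) := by
  funext x
  rw [Real.fourier_real_eq_integral_exp_smul]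
  have h := K3A_fourier K3A_phi_int K3A_phi_even (-(2 * Real.pi * x)) x (Or.inr rfl)
  rw [f3, ← h]
  refine integral_congr_ae (Filter.Eventually.of_forall fun v => ?_)
  simp only [smul_eq_mul]
  congr 3
  push_cast
  ring

theorem f3_inv (β : ℝ) : ∫ x : ℝ, f3 x * Real.cos (2 * Real.pi * x * β) = phi3 β := by
  have hI : Integrable (fun x : ℝ => (phi3 x : ℂ)) := K3A_phi_int.ofReal
  have hc : Continuous (fun x : ℝ => (phi3 x : ℂ)) := Complex.continuous_ofReal.comp phi3_continuous
  have h1 := hc.fourierInv_fourier_eq hI (by rw [K3A_F]; exact f3_integrable.ofReal)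
  have h2 := congrFun h1 β
  rw [K3A_F, Real.fourierInv_eq'] at h2
  have h := K3A_fourier f3_integrable f3_even (2 * Real.pi * β) β (Or.inl rfl)
  have h3 : ∫ v : ℝ, Complex.exp (((2 * Real.pi * β * v : ℝ) : ℂ) * Complex.I) * (f3 v : ℂ) = (phi3 β : ℂ) := by
    rw [← h2]
    refine integral_congr_ae (Filter.Eventually.of_forall fun v => ?_)
    simp only [smul_eq_mul, RCLike.inner_apply, conj_trivial]
    congr 3
    push_cast
    ring
  rw [h3] at h
  have h4 := Complex.ofReal_injective h
  rw [h4]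
  refine integral_congr_ae (Filter.Eventually.of_forall fun v => ?_)
  simp only
  congr 2
  ring

theorem integral_f3 : ∫ x : ℝ, f3 x = phi3 0 := by
  rw [← f3_inv 0]
  simp

private lemma K3A_tent_cont : Continuous (fun β : ℝ => max 0 (1 - |β|)) := by fun_prop

private lemma K3A_tent_int : Integrable (fun β : ℝ => max 0 (1 - |β|)) := by
  refine K3A_tent_cont.integrable_of_hasCompactSupport ?_
  refine HasCompactSupport.intro (isCompact_Icc (a := (-1 : ℝ)) (b := 1)) fun x hx => ?_
  refine max_eq_left ?_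
  by_contra h
  rw [not_le, sub_pos, abs_lt] at h
  exact hx ⟨h.1.le, h.2.le⟩

theorem tent_hat (x : ℝ) (hx : x ≠ 0) :
    ∫ β : ℝ, max 0 (1 - |β|) * Real.cos (2 * Real.pi * x * β) = (Real.sin (Real.pi * x) / (Real.pi * x)) ^ 2 := by
  set s : ℝ := 2 * Real.pi * x with hs
  have hπ := Real.pi_pos
  have hs0 : s ≠ 0 := by positivity
  have h1 : ∫ β in (0 : ℝ)..1, (1 - β) * Real.cos (s * β) = (1 - Real.cos s) / s ^ 2 := by
    have hd : ∀ β ∈ uIcc (0 : ℝ) 1, HasDerivAt (fun β : ℝ => (1 - β) * (Real.sin (s * β) / s) - Real.cos (s * β) / s ^ 2)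
        ((1 - β) * Real.cos (s * β)) β := by
      intro β _
      have hl : HasDerivAt (fun β : ℝ => s * β) s β := by simpa using (hasDerivAt_id β).const_mul s
      have h1 : HasDerivAt (fun β : ℝ => 1 - β) (-1) β := by simpa using (hasDerivAt_id β).const_sub 1
      have h2 : HasDerivAt (fun β : ℝ => Real.sin (s * β) / s) (Real.cos (s * β) * s / s) β := hl.sin.div_const s
      have h3 : HasDerivAt (fun β : ℝ => Real.cos (s * β) / s ^ 2) (-Real.sin (s * β) * s / s ^ 2) β := hl.cos.div_const _
      have h4 := (h1.mul h2).sub h3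
      refine h4.congr_deriv ?_
      field_simp
      ring
    rw [intervalIntegral.integral_eq_sub_of_hasDerivAt hd (by apply Continuous.intervalIntegrable; fun_prop)]
    simp
    field_simp
    ring
  have h2 : ∫ β in (-1 : ℝ)..0, (1 + β) * Real.cos (s * β) = (1 - Real.cos s) / s ^ 2 := by
    rw [← h1]
    have := intervalIntegral.integral_comp_neg (a := 0) (b := 1) (fun β : ℝ => (1 + β) * Real.cos (s * β))
    rw [neg_zero] at this
    rw [← this]
    refine intervalIntegral.integral_congr fun β _ => ?_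
    simp only [mul_neg, Real.cos_neg]
    ring
  have h3 : ∫ β : ℝ, max 0 (1 - |β|) * Real.cos (s * β) = ∫ β in (-1 : ℝ)..1, max 0 (1 - |β|) * Real.cos (s * β) := by
    rw [intervalIntegral.integral_of_le (by norm_num), ← MeasureTheory.integral_Icc_eq_integral_Ioc]
    symm
    refine MeasureTheory.setIntegral_eq_integral_of_forall_compl_eq_zero fun β hβ => ?_
    have : 1 - |β| ≤ 0 := by
      by_contra h
      rw [not_le, sub_pos, abs_lt] at h
      exact hβ ⟨h.1.le, h.2.le⟩
    rw [max_eq_left this, zero_mul]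
  have hint : ∀ a b : ℝ, IntervalIntegrable (fun β : ℝ => max 0 (1 - |β|) * Real.cos (s * β)) volume a b := fun a b => by
    apply Continuous.intervalIntegrable
    fun_prop
  rw [h3, ← intervalIntegral.integral_add_adjacent_intervals (hint (-1) 0) (hint 0 1)]
  have h4 : ∫ β in (-1 : ℝ)..0, max 0 (1 - |β|) * Real.cos (s * β) = (1 - Real.cos s) / s ^ 2 := by
    rw [← h2]
    refine intervalIntegral.integral_congr fun β hβ => ?_
    rw [uIcc_of_le (by norm_num)] at hβ
    rw [abs_of_nonpos hβ.2, max_eq_right (by linarith [hβ.1])]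
    ring
  have h5 : ∫ β in (0 : ℝ)..1, max 0 (1 - |β|) * Real.cos (s * β) = (1 - Real.cos s) / s ^ 2 := by
    rw [← h1]
    refine intervalIntegral.integral_congr fun β hβ => ?_
    rw [uIcc_of_le (by norm_num)] at hβ
    rw [abs_of_nonneg hβ.1, max_eq_right (by linarith [hβ.2])]
  rw [h4, h5]
  have h6 : Real.cos s = 1 - 2 * Real.sin (Real.pi * x) ^ 2 := by
    rw [hs, show 2 * Real.pi * x = 2 * (Real.pi * x) by ring, Real.cos_two_mul, Real.cos_sq']
    ring
  rw [h6, hs]
  field_simp
  ring

theorem f3_sinc : ∫ x : ℝ, f3 x * (Real.sin (Real.pi * x) / (Real.pi * x)) ^ 2 =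
    ∫ α : ℝ, phi3 α * max 0 (1 - |α|) := by
  have h1 : ∫ x : ℝ, f3 x * (Real.sin (Real.pi * x) / (Real.pi * x)) ^ 2 =
      ∫ x : ℝ, ∫ β : ℝ, f3 x * max 0 (1 - |β|) * Real.cos (2 * Real.pi * x * β) := by
    refine integral_congr_ae ?_
    have h0 : ∀ᵐ x : ℝ, x ≠ 0 := by
      simp [ae_iff, measure_singleton]
    filter_upwards [h0] with x hx
    rw [← tent_hat x hx, ← integral_const_mul]
    refine integral_congr_ae (Filter.Eventually.of_forall fun v => ?_)
    simp only
    ring
  rw [h1, integral_integral_swap]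
  · refine integral_congr_ae (Filter.Eventually.of_forall fun β => ?_)
    simp only
    rw [← f3_inv β, ← integral_mul_const]
    refine integral_congr_ae (Filter.Eventually.of_forall fun v => ?_)
    simp only
    ring
  · have h := f3_integrable.mul_prod K3A_tent_int
    refine h.mul_bdd (c := 1) (by fun_prop) (Filter.Eventually.of_forall fun v => ?_)
    rw [Real.norm_eq_abs]
    exact Real.abs_cos_le_one _

end Pool.Agent.Lib.MP_00e05b_nt.Mont
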