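import Pool.Agent.Lib.MP_00e05b_nt.Mont.G0
import Pool.Agent.Lib.MP_00e05b_nt.Mont.K3A

/-!
# JOB G1: Fourier analysis for general kernels

Copy the proofs of K3A.lean (`integral_f3`, `f3_inv`, `tent_hat`, `f3_sinc`), which only use that `phi3` is continuous, even, with compact
support and that its transform `f3 = fT phi3` is integrable.
* `fT_int`, `fT_inv`: Fourier inversion (at `0`, at `β`).
* `fT_sinc`: Fubini with `tent_hat` and `fT_inv`.
* `LL_fT`: `LL (fT φ) = fT φ 0 + ∫ fT φ - ∫ fT φ (sin πx/(πx))² = ∫ φ + φ 0 - ∫ φ α max 0 (1 - |α|)` and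
  `1 - max 0 (1 - |α|) = min |α| 1`.
* `fT_smooth`: a smooth function with compact support is a Schwartz function, and so is its Fourier transform `𝓕 φ x = fT φ x` (evenness), which
  is therefore `O((1 + x²)^{-2})` (`SchwartzMap.decay`, or `SchwartzMap.one_add_le_sup_seminorm_apply`); it is also `C^∞`.
* `fT_tent`: `M x = π² (s x + (s (x - 1/2) + s (x + 1/2))/2)` with `s x = (sin πx/(πx))²` (`s 0 = 1`) is the transform of
  `ψ α = π² max 0 (1 - |α|) (1 + cos πα)`, because `cos (2π(x - 1/2)α) + cos (2π(x + 1/2)α) = 2 cos (2πxα) cos πα`. Moreover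
  `M x ≥ sin²(πx)/x² + (cos²(πx)/2)(1/(x-1/2)² + 1/(x+1/2)²) ≥ 1/(x² + 1/4) ≥ 1/(1 + x²)`, because
  `1/a + 1/b ≥ 4/(a + b)` (the cases `x = 0, ± 1/2` separately or by continuity of `fT ψ`, `fT_cont`).
-/

open Set Filter Topology MeasureTheory
open scoped ContDiff

namespace Pool.Agent.Lib.MP_00e05b_nt.Mont

theorem fT_zero (φ : ℝ → ℝ) : fT φ 0 = ∫ α, φ α := by
  simp [fT]

theorem fT_even (φ : ℝ → ℝ) (x : ℝ) : fT φ (-x) = fT φ x := by
  unfold fT
  refine integral_congr_ae (Filter.Eventually.of_forall fun v => ?_)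
  simp only
  rw [show 2 * Real.pi * -x * v = -(2 * Real.pi * x * v) by ring, Real.cos_neg]

private lemma G1_int {φ : ℝ → ℝ} (hc : Continuous φ) (hs : ∃ A : ℝ, ∀ α, A ≤ |α| → φ α = 0) : Integrable φ := by
  obtain ⟨A, hA⟩ := hs
  refine hc.integrable_of_hasCompactSupport ?_
  refine HasCompactSupport.intro (isCompact_Icc (a := (-A : ℝ)) (b := A)) fun x hx => hA x ?_
  by_contra h
  rw [not_le, abs_lt] at h
  exact hx ⟨h.1.le, h.2.le⟩

theorem fT_cont {φ : ℝ → ℝ} (hc : Continuous φ) (hs : ∃ A : ℝ, ∀ α, A ≤ |α| → φ α = 0) : Continuous (fT φ) := by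
  have hI := G1_int hc hs
  unfold fT
  refine continuous_of_dominated (bound := fun α => |φ α|) ?_ ?_ hI.abs ?_
  · intro x
    exact (by fun_prop : Continuous fun α => φ α * Real.cos (2 * Real.pi * x * α)).aestronglyMeasurable
  · intro x
    refine Filter.Eventually.of_forall fun α => ?_
    rw [Real.norm_eq_abs, abs_mul]
    exact mul_le_of_le_one_right (abs_nonneg _) (Real.abs_cos_le_one _)
  · refine Filter.Eventually.of_forall fun α => ?_
    fun_prop

private lemma G1_fourier {f : ℝ → ℝ} (hf : Integrable f) (he : ∀ x, f (-x) = f x) (c w : ℝ) (hc : c = 2 * Real.pi * w ∨ c = -(2 * Real.pi * w)) :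
    ∫ v : ℝ, Complex.exp (((c * v : ℝ) : ℂ) * Complex.I) * (f v : ℂ) = ((∫ v : ℝ, f v * Real.cos (2 * Real.pi * w * v) : ℝ) : ℂ) := by
  have hcos : ∀ v : ℝ, Real.cos (c * v) = Real.cos (2 * Real.pi * w * v) := by
    intro v
    rcases hc with rfl | rfl
    · rfl
    · rw [neg_mul, Real.cos_neg]
  have h1 : Integrable (fun v : ℝ => f v * Real.cos (2 * Real.pi * w * v)) := by
    refine hf.mul_bdd (c := 1) (by fun_prop) (Filter.Eventually.of_forall fun v => ?_)
    rw [Real.norm_eq_abs]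
    exact Real.abs_cos_le_one _
  have h2 : Integrable (fun v : ℝ => f v * Real.sin (c * v)) := by
    refine hf.mul_bdd (c := 1) (by fun_prop) (Filter.Eventually.of_forall fun v => ?_)
    rw [Real.norm_eq_abs]
    exact Real.abs_sin_le_one _
  have h3 : ∫ v : ℝ, f v * Real.sin (c * v) = 0 := by
    have h := integral_neg_eq_self (fun v : ℝ => f v * Real.sin (c * v)) volume
    have h' : (fun v : ℝ => f (-v) * Real.sin (c * -v)) = fun v : ℝ => -(f v * Real.sin (c * v)) := by
      funext v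
      rw [he, mul_neg, Real.sin_neg, mul_neg]
    rw [h', integral_neg] at h
    linarith
  have h4 : (fun v : ℝ => Complex.exp (((c * v : ℝ) : ℂ) * Complex.I) * (f v : ℂ)) =
      fun v : ℝ => ((f v * Real.cos (2 * Real.pi * w * v) : ℝ) : ℂ) + ((f v * Real.sin (c * v) : ℝ) : ℂ) * Complex.I := by
    funext v
    rw [Complex.exp_mul_I, ← Complex.ofReal_cos, ← Complex.ofReal_sin, hcos]
    push_cast
    ring
  rw [h4, integral_add h1.ofReal (h2.ofReal.mul_const _), integral_mul_const, integral_complex_ofReal, integral_complex_ofReal, h3]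
  simp

private lemma G1_F {φ : ℝ → ℝ} (hI : Integrable φ) (he : ∀ α, φ (-α) = φ α) :
    FourierTransform.fourier (fun x : ℝ => (φ x : ℂ)) = fun x : ℝ => (fT φ x : ℂ) := by
  funext x
  rw [Real.fourier_real_eq_integral_exp_smul]
  have h := G1_fourier hI he (-(2 * Real.pi * x)) x (Or.inr rfl)
  rw [fT, ← h]
  refine integral_congr_ae (Filter.Eventually.of_forall fun v => ?_)
  simp only [smul_eq_mul]
  congr 3
  push_cast
  ring

theorem fT_inv {φ : ℝ → ℝ} (h : CE φ) (β : ℝ) : ∫ x, fT φ x * Real.cos (2 * Real.pi * x * β) = φ β := by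
  have hφ := G1_int h.cont h.supp
  have hI : Integrable (fun x : ℝ => (φ x : ℂ)) := hφ.ofReal
  have hc : Continuous (fun x : ℝ => (φ x : ℂ)) := Complex.continuous_ofReal.comp h.cont
  have h1 := hc.fourierInv_fourier_eq hI (by rw [G1_F hφ h.even]; exact h.int.ofReal)
  have h2 := congrFun h1 β
  rw [G1_F hφ h.even, Real.fourierInv_eq'] at h2
  have h' := G1_fourier h.int (fT_even φ) (2 * Real.pi * β) β (Or.inl rfl)
  have h3 : ∫ v : ℝ, Complex.exp (((2 * Real.pi * β * v : ℝ) : ℂ) * Complex.I) * (fT φ v : ℂ) = (φ β : ℂ) := by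
    rw [← h2]
    refine integral_congr_ae (Filter.Eventually.of_forall fun v => ?_)
    simp only [smul_eq_mul, RCLike.inner_apply, conj_trivial]
    congr 3
    push_cast
    ring
  rw [h3] at h'
  have h4 := Complex.ofReal_injective h'
  rw [h4]
  refine integral_congr_ae (Filter.Eventually.of_forall fun v => ?_)
  simp only
  congr 2
  ring

theorem fT_int {φ : ℝ → ℝ} (h : CE φ) : ∫ x, fT φ x = φ 0 := by
  rw [← fT_inv h 0]
  simp

private lemma G1_tent_cont : Continuous (fun β : ℝ => max 0 (1 - |β|)) := by fun_prop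

private lemma G1_tent_int : Integrable (fun β : ℝ => max 0 (1 - |β|)) := by
  refine G1_tent_cont.integrable_of_hasCompactSupport ?_
  refine HasCompactSupport.intro (isCompact_Icc (a := (-1 : ℝ)) (b := 1)) fun x hx => ?_
  refine max_eq_left ?_
  by_contra h
  rw [not_le, sub_pos, abs_lt] at h
  exact hx ⟨h.1.le, h.2.le⟩

theorem fT_sinc {φ : ℝ → ℝ} (h : CE φ) :
    ∫ x, fT φ x * (Real.sin (Real.pi * x) / (Real.pi * x)) ^ 2 = ∫ α, φ α * max 0 (1 - |α|) := by
  have h1 : ∫ x : ℝ, fT φ x * (Real.sin (Real.pi * x) / (Real.pi * x)) ^ 2 =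
      ∫ x : ℝ, ∫ β : ℝ, fT φ x * max 0 (1 - |β|) * Real.cos (2 * Real.pi * x * β) := by
    refine integral_congr_ae ?_
    have h0 : ∀ᵐ x : ℝ, x ≠ 0 := by
      simp [ae_iff, measure_singleton]
    filter_upwards [h0] with x hx
    rw [← tent_hat x hx, ← integral_const_mul]
    refine integral_congr_ae (Filter.Eventually.of_forall fun v => ?_)
    simp only
    ring
  rw [h1, integral_integral_swap]
  · refine integral_congr_ae (Filter.Eventually.of_forall fun β => ?_)
    simp only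
    rw [← fT_inv h β, ← integral_mul_const]
    refine integral_congr_ae (Filter.Eventually.of_forall fun v => ?_)
    simp only
    ring
  · have h := h.int.mul_prod G1_tent_int
    refine h.mul_bdd (c := 1) (by fun_prop) (Filter.Eventually.of_forall fun v => ?_)
    rw [Real.norm_eq_abs]
    exact Real.abs_cos_le_one _

private lemma G1_sinc_le (x : ℝ) : |(Real.sin (Real.pi * x) / (Real.pi * x)) ^ 2| ≤ 1 := by
  rw [abs_of_nonneg (by positivity), div_pow]
  by_cases hx : Real.pi * x = 0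
  · rw [hx]; simp
  · rw [div_le_one (by positivity)]
    exact Real.sin_sq_le_sq

theorem LL_fT {φ : ℝ → ℝ} (h : CE φ) : LL (fT φ) = φ 0 + ∫ α, min |α| 1 * φ α := by
  have hφ := G1_int h.cont h.supp
  have h1 : Integrable (fun x => fT φ x * (Real.sin (Real.pi * x) / (Real.pi * x)) ^ 2) := by
    refine h.int.mul_bdd (c := 1) ?_ (Filter.Eventually.of_forall fun v => ?_)
    · have : Measurable fun x : ℝ => (Real.sin (Real.pi * x) / (Real.pi * x)) ^ 2 := by fun_prop
      exact this.aestronglyMeasurable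
    · rw [Real.norm_eq_abs]
      exact G1_sinc_le v
  have h2 : ∫ x, fT φ x * sc x = φ 0 - ∫ α, φ α * max 0 (1 - |α|) := by
    rw [← fT_int h, ← fT_sinc h, ← integral_sub h.int h1]
    refine integral_congr_ae (Filter.Eventually.of_forall fun v => ?_)
    simp only [sc]
    ring
  have h3 : Integrable (fun α => φ α * max 0 (1 - |α|)) := by
    refine G1_int (h.cont.mul G1_tent_cont) ?_
    obtain ⟨A, hA⟩ := h.supp
    exact ⟨A, fun α hα => by show φ α * max 0 (1 - |α|) = 0; rw [hA α hα, zero_mul]⟩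
  rw [LL, h2, fT_zero]
  have h4 : ∫ α, min |α| 1 * φ α = (∫ α, φ α) - ∫ α, φ α * max 0 (1 - |α|) := by
    rw [← integral_sub hφ h3]
    refine integral_congr_ae (Filter.Eventually.of_forall fun α => ?_)
    simp only
    have : min |α| 1 = 1 - max 0 (1 - |α|) := by
      rcases le_total |α| 1 with h5 | h5
      · rw [min_eq_left h5, max_eq_right (by linarith)]; ring
      · rw [min_eq_right h5, max_eq_left (by linarith)]; ring
    rw [this]
    ring
  rw [h4]
  ring

theorem fT_smooth {φ : ℝ → ℝ} (hφ : ContDiff ℝ ∞ φ) (he : ∀ α, φ (-α) = φ α)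
    (hs : ∃ A : ℝ, ∀ α, A ≤ |α| → φ α = 0) :
    CE φ ∧ ContDiff ℝ 1 (fT φ) ∧ ∃ C : ℝ, 0 ≤ C ∧ ∀ x, |fT φ x| ≤ C / (1 + x ^ 2) ^ 2 := by
  have hI := G1_int hφ.continuous hs
  have hsupp : HasCompactSupport (fun x : ℝ => (φ x : ℂ)) := by
    obtain ⟨A, hA⟩ := hs
    refine HasCompactSupport.intro (isCompact_Icc (a := (-A : ℝ)) (b := A)) fun x hx => ?_
    rw [hA x, Complex.ofReal_zero]
    by_contra h
    rw [not_le, abs_lt] at h
    exact hx ⟨h.1.le, h.2.le⟩
  have hsm : ContDiff ℝ ∞ (fun x : ℝ => (φ x : ℂ)) := Complex.ofRealCLM.contDiff.comp hφ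
  let Φ : SchwartzMap ℝ ℂ := hsupp.toSchwartzMap hsm
  have hΦ : (FourierTransform.fourier Φ : ℝ → ℂ) = fun x : ℝ => (fT φ x : ℂ) := by
    rw [SchwartzMap.fourier_coe, ← G1_F hI he]
    rfl
  have hre : fT φ = fun x => ((FourierTransform.fourier Φ : SchwartzMap ℝ ℂ) x).re := by
    funext x
    rw [congrFun hΦ x, Complex.ofReal_re]
  have hint : Integrable (fT φ) := by
    rw [hre]
    exact (FourierTransform.fourier Φ : SchwartzMap ℝ ℂ).integrable.re
  refine ⟨⟨hφ.continuous, he, hs, hint⟩, ?_, ?_⟩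
  · rw [hre]
    exact Complex.reCLM.contDiff.comp ((FourierTransform.fourier Φ : SchwartzMap ℝ ℂ).smooth 1)
  · obtain ⟨C0, hC0, h0⟩ := (FourierTransform.fourier Φ : SchwartzMap ℝ ℂ).decay 0 0
    obtain ⟨C4, hC4, h4⟩ := (FourierTransform.fourier Φ : SchwartzMap ℝ ℂ).decay 4 0
    refine ⟨2 * (C0 + C4), by positivity, fun x => ?_⟩
    have e0 := h0 x
    have e4 := h4 x
    rw [norm_iteratedFDeriv_zero, congrFun hΦ x, Complex.norm_real] at e0 e4
    rw [pow_zero, one_mul, Real.norm_eq_abs] at e0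
    rw [Real.norm_eq_abs, Real.norm_eq_abs] at e4
    have e5 : |x| ^ 4 = x ^ 4 := by rw [show |x| ^ 4 = (|x| ^ 2) ^ 2 by ring, sq_abs]; ring
    rw [e5] at e4
    rw [le_div_iff₀ (by positivity)]
    have hx2 : (1 + x ^ 2) ^ 2 ≤ 2 * (1 + x ^ 4) := by nlinarith [sq_nonneg (x ^ 2 - 1)]
    calc |fT φ x| * (1 + x ^ 2) ^ 2 ≤ |fT φ x| * (2 * (1 + x ^ 4)) := by gcongr
      _ = 2 * (|fT φ x| + x ^ 4 * |fT φ x|) := by ring
      _ ≤ 2 * (C0 + C4) := by gcongr

private lemma G1_T (x : ℝ) (hx : x ≠ 0) : fT (fun β => max 0 (1 - |β|)) x = (Real.sin (Real.pi * x) / (Real.pi * x)) ^ 2 := tent_hat x hx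

private lemma G1_T_nonneg (x : ℝ) : 0 ≤ fT (fun β => max 0 (1 - |β|)) x := by
  by_cases hx : x = 0
  · rw [hx, fT_zero]
    exact integral_nonneg fun β => le_max_left _ _
  · rw [G1_T x hx]
    positivity

theorem fT_tent : ∃ ψ : ℝ → ℝ, Continuous ψ ∧ (∀ α, ψ (-α) = ψ α) ∧ (∀ α, 1 ≤ |α| → ψ α = 0) ∧
    ∀ x, 1 / (1 + x ^ 2) ≤ fT ψ x := by
  have hπ := Real.pi_pos
  refine ⟨fun α => Real.pi ^ 2 * (max 0 (1 - |α|) * (1 + Real.cos (Real.pi * α))), by fun_prop, ?_, ?_, ?_⟩
  · intro α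
    simp only [abs_neg, mul_neg, Real.cos_neg]
  · intro α hα
    simp only
    rw [max_eq_left (by linarith), zero_mul, mul_zero]
  · intro x
    have hint : ∀ y : ℝ, Integrable fun β : ℝ => max 0 (1 - |β|) * Real.cos (2 * Real.pi * y * β) := fun y => by
      refine G1_tent_int.mul_bdd (c := 1) (by fun_prop) (Filter.Eventually.of_forall fun v => ?_)
      rw [Real.norm_eq_abs]
      exact Real.abs_cos_le_one _
    have key : fT (fun α => Real.pi ^ 2 * (max 0 (1 - |α|) * (1 + Real.cos (Real.pi * α)))) x =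
        Real.pi ^ 2 * (fT (fun β => max 0 (1 - |β|)) x + (fT (fun β => max 0 (1 - |β|)) (x - 1 / 2) +
          fT (fun β => max 0 (1 - |β|)) (x + 1 / 2)) / 2) := by
      unfold fT
      have i1 : Integrable fun v : ℝ => (max 0 (1 - |v|) * Real.cos (2 * Real.pi * (x - 1 / 2) * v) +
          max 0 (1 - |v|) * Real.cos (2 * Real.pi * (x + 1 / 2) * v)) / 2 := ((hint _).add (hint _)).div_const 2
      rw [← integral_add (hint (x - 1 / 2)) (hint (x + 1 / 2)), ← integral_div, ← integral_add (hint x) i1,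
        ← integral_const_mul]
      refine integral_congr_ae (Filter.Eventually.of_forall fun v => ?_)
      simp only
      have e1 : 2 * Real.pi * (x - 1 / 2) * v = 2 * Real.pi * x * v - Real.pi * v := by ring
      have e2 : 2 * Real.pi * (x + 1 / 2) * v = 2 * Real.pi * x * v + Real.pi * v := by ring
      rw [e1, e2, Real.cos_sub, Real.cos_add]
      ring
    rw [key]
    have hT := G1_T_nonneg
    by_cases h0 : x = 0
    · subst h0
      have e1 : fT (fun β => max 0 (1 - |β|)) (0 - 1 / 2) = 4 / Real.pi ^ 2 := by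
        rw [G1_T _ (by norm_num), show Real.pi * (0 - 1 / 2) = -(Real.pi / 2) by ring, Real.sin_neg, Real.sin_pi_div_two]
        field_simp
        norm_num
      have e2 : fT (fun β => max 0 (1 - |β|)) (0 + 1 / 2) = 4 / Real.pi ^ 2 := by
        rw [G1_T _ (by norm_num), show Real.pi * (0 + 1 / 2) = Real.pi / 2 by ring, Real.sin_pi_div_two]
        field_simp
        norm_num
      rw [e1, e2]
      have e3 : Real.pi ^ 2 * (fT (fun β => max 0 (1 - |β|)) 0 + (4 / Real.pi ^ 2 + 4 / Real.pi ^ 2) / 2) =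
          Real.pi ^ 2 * fT (fun β => max 0 (1 - |β|)) 0 + 4 := by
        field_simp
        ring
      rw [e3]
      have : 0 ≤ Real.pi ^ 2 * fT (fun β => max 0 (1 - |β|)) 0 := mul_nonneg (by positivity) (hT 0)
      norm_num
      linarith
    · by_cases h1 : x = 1 / 2 ∨ x = -(1 / 2)
      · have e1 : Real.pi ^ 2 * fT (fun β => max 0 (1 - |β|)) x = 4 := by
          rw [G1_T x h0]
          rcases h1 with h1 | h1
          · rw [h1, show Real.pi * (1 / 2) = Real.pi / 2 by ring, Real.sin_pi_div_two]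
            field_simp
            norm_num
          · rw [h1, show Real.pi * (-(1 / 2)) = -(Real.pi / 2) by ring, Real.sin_neg, Real.sin_pi_div_two]
            field_simp
            norm_num
        have e2 : 1 / (1 + x ^ 2) ≤ 1 := by
          rw [div_le_one (by positivity)]
          nlinarith [sq_nonneg x]
        have e3 : 0 ≤ Real.pi ^ 2 * ((fT (fun β => max 0 (1 - |β|)) (x - 1 / 2) + fT (fun β => max 0 (1 - |β|)) (x + 1 / 2)) / 2) := by
          have := hT (x - 1 / 2)
          have := hT (x + 1 / 2)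
          positivity
        rw [mul_add, e1]
        linarith
      · rw [not_or] at h1
        have ha : x - 1 / 2 ≠ 0 := sub_ne_zero.2 h1.1
        have hb : x + 1 / 2 ≠ 0 := fun h => h1.2 (by linarith)
        rw [G1_T x h0, G1_T _ ha, G1_T _ hb]
        have s1 : Real.sin (Real.pi * (x - 1 / 2)) = -Real.cos (Real.pi * x) := by
          rw [show Real.pi * (x - 1 / 2) = Real.pi * x - Real.pi / 2 by ring, Real.sin_sub_pi_div_two]
        have s2 : Real.sin (Real.pi * (x + 1 / 2)) = Real.cos (Real.pi * x) := by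
          rw [show Real.pi * (x + 1 / 2) = Real.pi * x + Real.pi / 2 by ring, Real.sin_add_pi_div_two]
        rw [s1, s2]
        have e1 : Real.pi ^ 2 * ((Real.sin (Real.pi * x) / (Real.pi * x)) ^ 2 +
            ((-Real.cos (Real.pi * x) / (Real.pi * (x - 1 / 2))) ^ 2 + (Real.cos (Real.pi * x) / (Real.pi * (x + 1 / 2))) ^ 2) / 2) =
            Real.sin (Real.pi * x) ^ 2 * (1 / x ^ 2) +
              Real.cos (Real.pi * x) ^ 2 * ((1 / (x - 1 / 2) ^ 2 + 1 / (x + 1 / 2) ^ 2) / 2) := by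
          rw [div_pow, div_pow, div_pow, mul_pow, mul_pow, mul_pow, neg_sq]
          field_simp
        rw [e1]
        have e2 : 1 / (x ^ 2 + 1 / 4) ≤ 1 / x ^ 2 := by
          apply one_div_le_one_div_of_le (by positivity)
          linarith
        have e3 : 1 / (x ^ 2 + 1 / 4) ≤ (1 / (x - 1 / 2) ^ 2 + 1 / (x + 1 / 2) ^ 2) / 2 := by
          have hp : 0 < (x - 1 / 2) ^ 2 := by positivity
          have hq : 0 < (x + 1 / 2) ^ 2 := by positivity
          have e4 : (1 / (x - 1 / 2) ^ 2 + 1 / (x + 1 / 2) ^ 2) / 2 = (x ^ 2 + 1 / 4) / ((x - 1 / 2) ^ 2 * (x + 1 / 2) ^ 2) := by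
            rw [div_add_div _ _ hp.ne' hq.ne', div_div, div_eq_div_iff (by positivity) (by positivity)]
            ring
          rw [e4, div_le_div_iff₀ (by positivity) (by positivity)]
          nlinarith [sq_nonneg x, sq_nonneg (x ^ 2 - 1 / 4), sq_nonneg (x ^ 2 + 1 / 4)]
        have e5 : 1 / (1 + x ^ 2) ≤ 1 / (x ^ 2 + 1 / 4) := by
          apply one_div_le_one_div_of_le (by positivity)
          linarith
        have e6 := Real.sin_sq_add_cos_sq (Real.pi * x)
        have hs2 := sq_nonneg (Real.sin (Real.pi * x))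
        have hc2 := sq_nonneg (Real.cos (Real.pi * x))
        calc 1 / (1 + x ^ 2) ≤ 1 / (x ^ 2 + 1 / 4) := e5
          _ = Real.sin (Real.pi * x) ^ 2 * (1 / (x ^ 2 + 1 / 4)) + Real.cos (Real.pi * x) ^ 2 * (1 / (x ^ 2 + 1 / 4)) := by
              rw [← add_mul, e6, one_mul]
          _ ≤ _ := add_le_add (mul_le_mul_of_nonneg_left e2 hs2) (mul_le_mul_of_nonneg_left e3 hc2)

end Pool.Agent.Lib.MP_00e05b_nt.Mont
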