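import Mathlib

/-!
# JOB MV: mean values of Dirichlet polynomials (elementary)

`mv1`: expand the square. The diagonal gives `T ∑ a_n²`. For `n ≠ m` the integral of `e^{-it(log n - log m)}` over `[0, T]` is at
most `2/|log (n/m)|` in absolute value and `|log (n/m)| ≥ |n - m|/max n m ≥ |n - m|/X` (`log x ≥ 1 - 1/x`). By
`2 |a_n a_m| ≤ a_n² + a_m²` the off-diagonal part is at most `∑_n a_n² ∑_{m ≠ n, m ≤ X} 2X/|n - m| ≤ 4 X (1 + log X) ∑ a_n²`
(`∑_{k ≤ X} 1/k ≤ 1 + log X`, `harmonic_le_one_add_log`).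
-/

open Complex Set Filter Topology MeasureTheory

namespace Pool.Agent.Lib.MP_00e05b_nt.Mont

/-- expanding the square -/
private lemma MV_expand (S : Finset ℕ) (a l : ℕ → ℝ) (t : ℝ) :
    ‖∑ n ∈ S, (a n : ℂ) * cexp (((-(t * l n) : ℝ) : ℂ) * I)‖ ^ 2 =
      ∑ n ∈ S, ∑ m ∈ S, a n * a m * Real.cos (t * (l n - l m)) := by
  have hre : (∑ n ∈ S, (a n : ℂ) * cexp (((-(t * l n) : ℝ) : ℂ) * I)).re =
      ∑ n ∈ S, a n * Real.cos (t * l n) := by
    rw [Complex.re_sum]
    refine Finset.sum_congr rfl fun n _ => ?_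
    rw [Complex.re_ofReal_mul, Complex.exp_ofReal_mul_I_re, Real.cos_neg]
  have him : (∑ n ∈ S, (a n : ℂ) * cexp (((-(t * l n) : ℝ) : ℂ) * I)).im =
      -∑ n ∈ S, a n * Real.sin (t * l n) := by
    rw [Complex.im_sum, ← Finset.sum_neg_distrib]
    refine Finset.sum_congr rfl fun n _ => ?_
    rw [Complex.im_ofReal_mul, Complex.exp_ofReal_mul_I_im, Real.sin_neg]
    ring
  rw [Complex.sq_norm, Complex.normSq_apply, hre, him, neg_mul_neg, Finset.sum_mul_sum,
    Finset.sum_mul_sum, ← Finset.sum_add_distrib]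
  refine Finset.sum_congr rfl fun n _ => ?_
  rw [← Finset.sum_add_distrib]
  refine Finset.sum_congr rfl fun m _ => ?_
  rw [mul_sub, Real.cos_sub]
  ring

/-- the integral of an off-diagonal term -/
private lemma MV_cos {T d : ℝ} (hd : d ≠ 0) : |∫ t in (0 : ℝ)..T, Real.cos (t * d)| ≤ |d|⁻¹ := by
  rw [intervalIntegral.integral_comp_mul_right (fun x => Real.cos x) hd, integral_cos, zero_mul,
    Real.sin_zero, sub_zero, smul_eq_mul, abs_mul, abs_inv]
  exact mul_le_of_le_one_right (by positivity) (Real.abs_sin_le_one _)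

private lemma MV_log' {n m : ℕ} (hm : 1 ≤ m) (hmn : m < n) {X : ℝ} (hX : (n : ℝ) ≤ X) :
    ((n : ℝ) - m) / X ≤ Real.log n - Real.log m := by
  have hm0 : (0 : ℝ) < m := by exact_mod_cast hm
  have hmn' : (m : ℝ) < n := by exact_mod_cast hmn
  have hn0 : (0 : ℝ) < n := by linarith
  have hX0 : 0 < X := by linarith
  have h1 := Real.one_sub_inv_le_log_of_pos (x := (n : ℝ) / m) (by positivity)
  rw [Real.log_div hn0.ne' hm0.ne', inv_div] at h1
  refine le_trans ?_ h1
  have h2 : 1 - (m : ℝ) / n = ((n : ℝ) - m) / n := by field_simp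
  rw [h2]
  exact div_le_div_of_nonneg_left (by linarith) hn0 hX

private lemma MV_log {n m : ℕ} (hm : 1 ≤ m) (hn : 1 ≤ n) (hmn : n ≠ m) {X : ℝ} (hX : (n : ℝ) ≤ X)
    (hX' : (m : ℝ) ≤ X) : |Real.log n - Real.log m|⁻¹ ≤ X * |(n : ℝ) - m|⁻¹ := by
  have hX0 : 0 < X := by
    have : (1 : ℝ) ≤ n := by exact_mod_cast hn
    linarith
  have key : |(n : ℝ) - m| / X ≤ |Real.log n - Real.log m| := by
    rcases lt_or_gt_of_ne hmn with h | h
    · have h1 := MV_log' hn h hX'
      have h2 : (n : ℝ) < m := by exact_mod_cast h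
      rw [abs_sub_comm, abs_of_pos (by linarith), abs_sub_comm]
      exact h1.trans (le_abs_self _)
    · have h1 := MV_log' hm h hX
      have h2 : (m : ℝ) < n := by exact_mod_cast h
      rw [abs_of_pos (by linarith)]
      exact h1.trans (le_abs_self _)
  have hpos : 0 < |(n : ℝ) - m| := by
    rw [abs_pos, sub_ne_zero]
    exact_mod_cast hmn
  have h3 : X * |(n : ℝ) - m|⁻¹ = (|(n : ℝ) - m| / X)⁻¹ := by
    rw [inv_div, div_eq_mul_inv]
  rw [h3]
  exact inv_anti₀ (by positivity) key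

private lemma MV_harm (A : Finset ℕ) (N : ℕ) (hA : A ⊆ Finset.Icc 1 N) :
    ∑ k ∈ A, ((k : ℝ))⁻¹ ≤ 1 + Real.log N := by
  refine le_trans (Finset.sum_le_sum_of_subset_of_nonneg hA fun _ _ _ => by positivity) ?_
  have h := harmonic_le_one_add_log N
  rw [harmonic_eq_sum_Icc] at h
  push_cast at h
  exact h

private lemma MV_sum (S : Finset ℕ) (X : ℝ) (hX : 1 ≤ X) (hS : ∀ n ∈ S, 1 ≤ n ∧ (n : ℝ) ≤ X)
    {n : ℕ} (hn : n ∈ S) : ∑ m ∈ S, (if n = m then (0 : ℝ) else |(n : ℝ) - m|⁻¹) ≤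
      2 * (1 + Real.log X) := by
  have hN : ∀ m ∈ S, m ≤ ⌊X⌋₊ := fun m hm => Nat.le_floor (hS m hm).2
  have hlog : Real.log (⌊X⌋₊ : ℝ) ≤ Real.log X := by
    have h1 : 0 < ⌊X⌋₊ := Nat.floor_pos.2 hX
    exact Real.log_le_log (by exact_mod_cast h1) (Nat.floor_le (by linarith))
  have h1 : ∑ m ∈ S, (if n = m then (0 : ℝ) else |(n : ℝ) - m|⁻¹) =
      ∑ m ∈ S.filter (· < n), ((n - m : ℕ) : ℝ)⁻¹ + ∑ m ∈ S.filter (n < ·), ((m - n : ℕ) : ℝ)⁻¹ := by
    rw [Finset.sum_filter, Finset.sum_filter, ← Finset.sum_add_distrib]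
    refine Finset.sum_congr rfl fun m _ => ?_
    rcases lt_trichotomy m n with h | h | h
    · have h' : (m : ℝ) < n := by exact_mod_cast h
      rw [if_neg h.ne', if_pos h, if_neg h.not_gt, add_zero, Nat.cast_sub h.le,
        abs_of_pos (by linarith)]
    · simp [h]
    · have h' : (n : ℝ) < m := by exact_mod_cast h
      rw [if_neg h.ne, if_neg h.not_gt, if_pos h, zero_add, Nat.cast_sub h.le, abs_sub_comm,
        abs_of_pos (by linarith)]
  have h2 : ∑ m ∈ S.filter (· < n), ((n - m : ℕ) : ℝ)⁻¹ ≤ 1 + Real.log (⌊X⌋₊ : ℝ) := by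
    have hinj : Set.InjOn (fun m => n - m) (S.filter (· < n) : Set ℕ) := by
      intro x hx y hy hxy
      simp only [Finset.coe_filter, Set.mem_ofPred_eq] at hx hy
      simp only at hxy
      omega
    rw [← Finset.sum_image (f := fun k : ℕ => ((k : ℝ))⁻¹) (g := fun m => n - m) hinj]
    refine MV_harm _ _ fun k hk => ?_
    obtain ⟨m, hm, rfl⟩ := Finset.mem_image.1 hk
    rw [Finset.mem_filter] at hm
    have := hN n hn
    rw [Finset.mem_Icc]
    omega
  have h3 : ∑ m ∈ S.filter (n < ·), ((m - n : ℕ) : ℝ)⁻¹ ≤ 1 + Real.log (⌊X⌋₊ : ℝ) := by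
    have hinj : Set.InjOn (fun m => m - n) (S.filter (n < ·) : Set ℕ) := by
      intro x hx y hy hxy
      simp only [Finset.coe_filter, Set.mem_ofPred_eq] at hx hy
      simp only at hxy
      omega
    rw [← Finset.sum_image (f := fun k : ℕ => ((k : ℝ))⁻¹) (g := fun m => m - n) hinj]
    refine MV_harm _ _ fun k hk => ?_
    obtain ⟨m, hm, rfl⟩ := Finset.mem_image.1 hk
    rw [Finset.mem_filter] at hm
    have := hN m hm.1
    rw [Finset.mem_Icc]
    omega
  rw [h1]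
  linarith

theorem mv1 (S : Finset ℕ) (a : ℕ → ℝ) (X T : ℝ) (hX : 1 ≤ X) (hT : 0 ≤ T)
    (hS : ∀ n ∈ S, 1 ≤ n ∧ (n : ℝ) ≤ X) :
    |(∫ t in (0 : ℝ)..T, ‖∑ n ∈ S, (a n : ℂ) * cexp (((-(t * Real.log n) : ℝ) : ℂ) * I)‖ ^ 2) -
      T * ∑ n ∈ S, a n ^ 2| ≤ 4 * X * (1 + Real.log X) * ∑ n ∈ S, a n ^ 2 := by
  have e1 : ∫ t in (0 : ℝ)..T, ‖∑ n ∈ S, (a n : ℂ) * cexp (((-(t * Real.log n) : ℝ) : ℂ) * I)‖ ^ 2 =
      ∑ n ∈ S, ∑ m ∈ S, a n * a m * ∫ t in (0 : ℝ)..T, Real.cos (t * (Real.log n - Real.log m)) := by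
    simp only [MV_expand S a (fun n => Real.log n)]
    rw [intervalIntegral.integral_finsetSum]
    · refine Finset.sum_congr rfl fun n _ => ?_
      rw [intervalIntegral.integral_finsetSum]
      · refine Finset.sum_congr rfl fun m _ => ?_
        rw [intervalIntegral.integral_const_mul]
      · intro m _
        apply Continuous.intervalIntegrable
        fun_prop
    · intro n _
      apply Continuous.intervalIntegrable
      fun_prop
  have e2 : T * ∑ n ∈ S, a n ^ 2 = ∑ n ∈ S, ∑ m ∈ S, (if n = m then T * a n ^ 2 else 0) := by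
    rw [Finset.mul_sum]
    refine Finset.sum_congr rfl fun n hn => ?_
    rw [Finset.sum_ite_eq, if_pos hn]
  rw [e1, e2, ← Finset.sum_sub_distrib]
  have hlogX : 0 ≤ Real.log X := Real.log_nonneg hX
  have hX0 : 0 ≤ X := by linarith
  -- each term
  have h1 : ∀ n ∈ S, ∀ m ∈ S, |a n * a m * (∫ t in (0 : ℝ)..T, Real.cos (t * (Real.log n - Real.log m))) -
      (if n = m then T * a n ^ 2 else 0)| ≤
      X * ((a n ^ 2 + a m ^ 2) / 2) * (if n = m then (0 : ℝ) else |(n : ℝ) - m|⁻¹) := by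
    intro n hn m hm
    by_cases h : n = m
    · subst h
      simp only [sub_self, mul_zero, Real.cos_zero, if_true]
      rw [intervalIntegral.integral_const]
      simp only [sub_zero, smul_eq_mul, mul_one]
      have : a n * a n * T - T * a n ^ 2 = 0 := by ring
      rw [this, abs_zero]
    · rw [if_neg h, if_neg h, sub_zero, abs_mul]
      have hn1 := hS n hn
      have hm1 := hS m hm
      have hd : Real.log n - Real.log m ≠ 0 := by
        intro h0
        rw [sub_eq_zero] at h0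
        have hn0 : (0 : ℝ) < n := by exact_mod_cast hn1.1
        have hm0 : (0 : ℝ) < m := by exact_mod_cast hm1.1
        have := Real.log_injOn_pos (Set.mem_Ioi.2 hn0) (Set.mem_Ioi.2 hm0) h0
        exact h (by exact_mod_cast this)
      have h2 := (MV_cos (T := T) hd).trans (MV_log hm1.1 hn1.1 h hn1.2 hm1.2)
      have h3 : |a n * a m| ≤ (a n ^ 2 + a m ^ 2) / 2 := by
        rw [abs_le]
        constructor <;> nlinarith [sq_nonneg (a n - a m), sq_nonneg (a n + a m)]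
      calc _ ≤ (a n ^ 2 + a m ^ 2) / 2 * (X * |(n : ℝ) - m|⁻¹) :=
            mul_le_mul h3 h2 (abs_nonneg _) (by positivity)
        _ = _ := by ring
  have hc : ∀ n m : ℕ, (if n = m then (0 : ℝ) else |(n : ℝ) - m|⁻¹) =
      (if m = n then (0 : ℝ) else |(m : ℝ) - n|⁻¹) := by
    intro n m
    by_cases h : n = m
    · simp [h]
    · rw [if_neg h, if_neg (Ne.symm h), abs_sub_comm]
  calc _ ≤ ∑ n ∈ S, ∑ m ∈ S, X * ((a n ^ 2 + a m ^ 2) / 2) *
        (if n = m then (0 : ℝ) else |(n : ℝ) - m|⁻¹) := by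
        refine (Finset.abs_sum_le_sum_abs _ _).trans (Finset.sum_le_sum fun n hn => ?_)
        rw [← Finset.sum_sub_distrib]
        exact (Finset.abs_sum_le_sum_abs _ _).trans (Finset.sum_le_sum fun m hm => h1 n hn m hm)
    _ = ∑ n ∈ S, X * a n ^ 2 * ∑ m ∈ S, (if n = m then (0 : ℝ) else |(n : ℝ) - m|⁻¹) := by
        have e3 : ∀ n ∈ S, ∑ m ∈ S, X * ((a n ^ 2 + a m ^ 2) / 2) *
            (if n = m then (0 : ℝ) else |(n : ℝ) - m|⁻¹) =
            (∑ m ∈ S, X / 2 * a n ^ 2 * (if n = m then (0 : ℝ) else |(n : ℝ) - m|⁻¹)) +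
            ∑ m ∈ S, X / 2 * a m ^ 2 * (if n = m then (0 : ℝ) else |(n : ℝ) - m|⁻¹) := by
          intro n _
          rw [← Finset.sum_add_distrib]
          exact Finset.sum_congr rfl fun m _ => by ring
        rw [Finset.sum_congr rfl e3, Finset.sum_add_distrib]
        have e4 : ∑ n ∈ S, ∑ m ∈ S, X / 2 * a m ^ 2 * (if n = m then (0 : ℝ) else |(n : ℝ) - m|⁻¹) =
            ∑ n ∈ S, ∑ m ∈ S, X / 2 * a n ^ 2 * (if n = m then (0 : ℝ) else |(n : ℝ) - m|⁻¹) := by
          rw [Finset.sum_comm]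
          refine Finset.sum_congr rfl fun n _ => Finset.sum_congr rfl fun m _ => ?_
          rw [hc m n]
        rw [e4, ← Finset.sum_add_distrib]
        refine Finset.sum_congr rfl fun n _ => ?_
        rw [← Finset.sum_add_distrib, Finset.mul_sum]
        exact Finset.sum_congr rfl fun m _ => by ring
    _ ≤ ∑ n ∈ S, X * a n ^ 2 * (2 * (1 + Real.log X)) := by
        refine Finset.sum_le_sum fun n hn => ?_
        exact mul_le_mul_of_nonneg_left (MV_sum S X hX hS hn) (by positivity)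
    _ = 2 * X * (1 + Real.log X) * ∑ n ∈ S, a n ^ 2 := by
        rw [Finset.mul_sum]
        exact Finset.sum_congr rfl fun n _ => by ring
    _ ≤ _ := by
        have h0 : 0 ≤ ∑ n ∈ S, a n ^ 2 := Finset.sum_nonneg fun _ _ => sq_nonneg _
        have h2 : 0 ≤ X * (1 + Real.log X) * ∑ n ∈ S, a n ^ 2 := by positivity
        linarith

end Pool.Agent.Lib.MP_00e05b_nt.Mont
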