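import Mathlib

/-!
# JOB Prime0: prime powers

`0 ≤ Λ(n) log n - Λ(n)^2`, which is nonzero only for `n = p^k` with `k ≥ 2`, where it is `≤ (log n)^2`, and
`∑_{n = p^k, k ≥ 2} (log n)^2 / n < ∞` (`∑_p ∑_{k ≥ 2} k² log² p / p^k`; simplest: the sum over the set of such `n` is at most
`∑_{b ≥ 2} ∑_{k ≥ 2} k² log² b / b^k < ∞`, e.g. because `log² b ≤ 16 √b`, `b^{-k} √b ≤ b^{-3/2} 2^{-(k-2)}`).
-/

open Filter Topology

namespace Pool.Agent.Lib.MP_00e05b_nt.Mont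

theorem pp_nonneg (n : ℕ) : 0 ≤ ArithmeticFunction.vonMangoldt n * Real.log n - ArithmeticFunction.vonMangoldt n ^ 2 := by
  have h1 : 0 ≤ ArithmeticFunction.vonMangoldt n := ArithmeticFunction.vonMangoldt_nonneg
  have h2 : ArithmeticFunction.vonMangoldt n ≤ Real.log n := ArithmeticFunction.vonMangoldt_le_log
  nlinarith

private lemma prime0_aux1 : Summable (fun k : ℕ => ((k + 2 : ℕ) : ℝ) ^ 2 * (1 / 2 : ℝ) ^ (k + 2)) := by
  have h := summable_pow_mul_geometric_of_norm_lt_one 2 (r := (1 / 2 : ℝ)) (by norm_num)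
  exact (summable_nat_add_iff 2).2 h

private lemma prime0_aux2 : Summable (fun b : ℕ => (1 : ℝ) / ((b + 2 : ℕ) : ℝ) ^ (3 / 2 : ℝ)) :=
  (summable_nat_add_iff 2).2 (Real.summable_one_div_nat_rpow.2 (by norm_num : (1 : ℝ) < 3 / 2))

private lemma prime0_bound (b k : ℕ) :
    Real.log (((b + 2) ^ (k + 2) : ℕ) : ℝ) ^ 2 / (((b + 2) ^ (k + 2) : ℕ) : ℝ) ≤
      64 * ((1 : ℝ) / ((b + 2 : ℕ) : ℝ) ^ (3 / 2 : ℝ) * (((k + 2 : ℕ) : ℝ) ^ 2 * (1 / 2 : ℝ) ^ (k + 2))) := by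
  have hx2 : (2 : ℝ) ≤ ((b + 2 : ℕ) : ℝ) := by push_cast; linarith [(Nat.cast_nonneg b : (0 : ℝ) ≤ b)]
  rw [Nat.cast_pow]
  generalize ((b + 2 : ℕ) : ℝ) = x at hx2 ⊢
  have hx0 : 0 < x := by linarith
  rw [Real.log_pow]
  have hm : (0 : ℝ) ≤ ((k + 2 : ℕ) : ℝ) := Nat.cast_nonneg _
  generalize ((k + 2 : ℕ) : ℝ) = m at hm ⊢
  have hl0 : 0 ≤ Real.log x := Real.log_nonneg (by linarith)
  have hl : Real.log x ≤ x ^ (1 / 4 : ℝ) / (1 / 4) := Real.log_le_rpow_div hx0.le (by norm_num)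
  have hl2 : Real.log x ^ 2 ≤ 16 * x ^ (1 / 2 : ℝ) := by
    calc Real.log x ^ 2 ≤ (x ^ (1 / 4 : ℝ) / (1 / 4)) ^ 2 := pow_le_pow_left₀ hl0 hl 2
      _ = 16 * (x ^ (1 / 4 : ℝ)) ^ 2 := by ring
      _ = 16 * x ^ (1 / 2 : ℝ) := by
          rw [← Real.rpow_natCast, ← Real.rpow_mul hx0.le]
          norm_num
  have hk : (2 : ℝ) ^ k ≤ x ^ k := pow_le_pow_left₀ (by norm_num) hx2 k
  have h2k : (0 : ℝ) < 2 ^ k := by positivity
  calc (m * Real.log x) ^ 2 / x ^ (k + 2) = m ^ 2 * Real.log x ^ 2 / (x ^ k * x ^ 2) := by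
        rw [mul_pow, pow_add]
    _ ≤ m ^ 2 * (16 * x ^ (1 / 2 : ℝ)) / (2 ^ k * x ^ 2) := by gcongr
    _ = 64 * (1 / x ^ (3 / 2 : ℝ) * (m ^ 2 * (1 / 2 : ℝ) ^ (k + 2))) := by
        have e1 : x ^ (2 : ℕ) = x ^ (1 / 2 : ℝ) * x ^ (3 / 2 : ℝ) := by
          rw [← Real.rpow_add hx0, ← Real.rpow_natCast]
          norm_num
        have e2 : (1 / 2 : ℝ) ^ (k + 2) = 1 / (4 * 2 ^ k) := by
          rw [pow_add, one_div_pow]
          ring
        rw [e1, e2]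
        have h1 : 0 < x ^ (1 / 2 : ℝ) := Real.rpow_pos_of_pos hx0 _
        have h3 : 0 < x ^ (3 / 2 : ℝ) := Real.rpow_pos_of_pos hx0 _
        field_simp
        ring

private lemma prime0_F : Summable (fun x : ℕ × ℕ =>
    Real.log (((x.1 + 2) ^ (x.2 + 2) : ℕ) : ℝ) ^ 2 / (((x.1 + 2) ^ (x.2 + 2) : ℕ) : ℝ)) := by
  have h : Summable (fun x : ℕ × ℕ => 64 * ((1 : ℝ) / ((x.1 + 2 : ℕ) : ℝ) ^ (3 / 2 : ℝ) *
      (((x.2 + 2 : ℕ) : ℝ) ^ 2 * (1 / 2 : ℝ) ^ (x.2 + 2)))) := by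
    apply Summable.mul_left
    exact prime0_aux2.mul_of_nonneg prime0_aux1 (fun b => by positivity) (fun k => by positivity)
  refine Summable.of_nonneg_of_le (fun x => by positivity) (fun x => ?_) h
  exact prime0_bound x.1 x.2

private lemma prime0_mem (n : ℕ)
    (h : ArithmeticFunction.vonMangoldt n * Real.log n - ArithmeticFunction.vonMangoldt n ^ 2 ≠ 0) :
    ∃ x : ℕ × ℕ, (x.1 + 2) ^ (x.2 + 2) = n := by
  have h1 : ArithmeticFunction.vonMangoldt n ≠ 0 := by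
    intro h0
    rw [h0] at h
    simp at h
  rw [ArithmeticFunction.vonMangoldt_ne_zero_iff] at h1
  obtain ⟨p, k, hp, hk, hpk⟩ := h1
  have hp' := hp.nat_prime
  have h2 : k ≠ 1 := by
    intro h1
    rw [h1, pow_one] at hpk
    rw [← hpk, ArithmeticFunction.vonMangoldt_apply_prime hp'] at h
    apply h
    ring
  have hp2 := hp'.two_le
  refine ⟨(p - 2, k - 2), ?_⟩
  have e1 : p - 2 + 2 = p := by omega
  have e2 : k - 2 + 2 = k := by omega
  show (p - 2 + 2) ^ (k - 2 + 2) = n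
  rw [e1, e2, hpk]

theorem pp_summable : Summable (fun n : ℕ =>
    (ArithmeticFunction.vonMangoldt n * Real.log n - ArithmeticFunction.vonMangoldt n ^ 2) / n) := by
  classical
  set φ : ℕ × ℕ → ℕ := fun x => (x.1 + 2) ^ (x.2 + 2) with hφ
  set g : ℕ → ℝ := fun n => Real.log (n : ℝ) ^ 2 / (n : ℝ) with hg
  have hF : Summable (fun x : ℕ × ℕ => g (φ x)) := prime0_F
  have hS : Summable (g ∘ ((↑) : Set.range φ → ℕ)) := by
    let r : Set.range φ → ℕ × ℕ := fun s => s.2.choose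
    have hr : ∀ s : Set.range φ, φ (r s) = s := fun s => s.2.choose_spec
    have hinj : Function.Injective r := by
      intro s t hst
      apply Subtype.ext
      rw [← hr s, ← hr t, hst]
    have h := hF.comp_injective hinj
    refine h.congr ?_
    intro s
    show g (φ (r s)) = g s
    rw [hr s]
  rw [summable_subtype_iff_indicator] at hS
  refine Summable.of_nonneg_of_le (fun n => div_nonneg (pp_nonneg n) (Nat.cast_nonneg n)) (fun n => ?_) hS
  by_cases h : ArithmeticFunction.vonMangoldt n * Real.log n - ArithmeticFunction.vonMangoldt n ^ 2 = 0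
  · rw [h, zero_div]
    apply Set.indicator_nonneg
    intro n _
    exact div_nonneg (sq_nonneg _) (Nat.cast_nonneg n)
  · have hmem : n ∈ Set.range φ := prime0_mem n h
    rw [Set.indicator_of_mem hmem]
    apply div_le_div_of_nonneg_right _ (Nat.cast_nonneg n)
    have h1 : 0 ≤ ArithmeticFunction.vonMangoldt n := ArithmeticFunction.vonMangoldt_nonneg
    have h2 : ArithmeticFunction.vonMangoldt n ≤ Real.log n := ArithmeticFunction.vonMangoldt_le_log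
    nlinarith

end Pool.Agent.Lib.MP_00e05b_nt.Mont
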