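import Pool.Agent.Lib.MP_00e05b_nt.Mont.Defs

/-!
# JOB BasA: bumps and cosine transforms

* `exists_EB`: use `ContDiffBump (0 : ℝ)` with radii `s / 2`, `s` (symmetric: `ContDiffBump.neg` or by
  `f (-x) = f x`), or the function `x ↦ Real.smoothTransition (2 - 2 * |x| / s)`-type formulas.
* `ck_bound`: `bump_of_smooth` (BumpF.lean; support `3/4 ≤ |u|`) and `osc_bound` (Osc.lean) with `θ = 0`, `y = 0`,
  `m = |t|` give `|∫ f(u) e^{itu}| ≤ 104 K / |t|^3` for `t ≠ 0`; also `|ck f t| ≤ 2 K`. So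
  `|ck f t| ≤ C / (1 + |t|)^3` with `C = 8 * 104 * K`.
* `ck_cexp`: for even `f` the sine part vanishes.
-/

open Complex Set Filter Topology MeasureTheory
open scoped ContDiff

namespace Pool.Agent.Lib.MP_00e05b_nt.Mont

theorem exists_EB (s : ℝ) (hs : 0 < s) : ∃ W : ℝ → ℝ, EB W s := by
  let f : ContDiffBump (0 : ℝ) := ⟨s / 2, s, by linarith, by linarith⟩
  refine ⟨f, f.contDiff, fun u => f.neg u, ?_, fun u => f.nonneg, fun u => f.le_one, ?_⟩
  · intro u hu
    apply f.zero_of_le_dist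
    rw [dist_zero_right, Real.norm_eq_abs]
    exact hu
  · intro u hu
    apply f.one_of_mem_closedBall
    rw [Metric.mem_closedBall, dist_zero_right, Real.norm_eq_abs]
    exact hu

theorem ES.continuous {f : ℝ → ℝ} {s : ℝ} (h : ES f s) : Continuous f := h.smooth.continuous

theorem ES.compact {f : ℝ → ℝ} {s : ℝ} (h : ES f s) : HasCompactSupport f := by
  apply HasCompactSupport.intro (isCompact_Icc (a := -s) (b := s))
  intro x hx
  apply h.supp
  by_contra hc
  push Not at hc
  rw [abs_lt] at hc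
  exact hx ⟨hc.1.le, hc.2.le⟩

theorem ES.integrable {f : ℝ → ℝ} {s : ℝ} (h : ES f s) : Integrable f :=
  h.continuous.integrable_of_hasCompactSupport h.compact

private lemma basA_cont {W W1 W2 W3 : ℝ → ℝ} {K : ℝ} (h : Bump W W1 W2 W3 K) : Continuous W :=
  continuous_iff_continuousAt.2 fun u => (h.d0 u).continuousAt

private lemma basA_compact {W W1 W2 W3 : ℝ → ℝ} {K : ℝ} (h : Bump W W1 W2 W3 K) :
    HasCompactSupport W := by
  apply HasCompactSupport.intro (isCompact_Icc (a := -1) (b := 1))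
  intro x hx
  apply (h.supp x _).1
  by_contra hc
  push Not at hc
  rw [abs_lt] at hc
  exact hx ⟨hc.1.le, hc.2.le⟩

/-- Quantitative form of `ck_bound` in terms of the `Bump` data. -/
private lemma basA_bump {f f1 f2 f3 : ℝ → ℝ} {K : ℝ} (h : Bump f f1 f2 f3 K) (t : ℝ) :
    |ck f t| ≤ 1000 * K / (1 + |t|) ^ 3 := by
  have hK : 0 ≤ K := (abs_nonneg _).trans (h.b0 0)
  have hcont := basA_cont h
  have hcs := basA_compact h
  have hz : ∀ u, u ∉ Set.Ioc (-1 : ℝ) 1 → f u = 0 := by
    intro u hu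
    apply (h.supp u _).1
    by_contra hc
    push Not at hc
    rw [abs_lt] at hc
    exact hu ⟨hc.1, hc.2.le⟩
  -- the complex integral
  have hint : Integrable (fun u : ℝ => (f u : ℂ) * ph t 0 u) := by
    apply Continuous.integrable_of_hasCompactSupport
    · have := continuous_ph t 0
      fun_prop
    · apply HasCompactSupport.mul_right
      exact hcs.comp_left (g := fun x : ℝ => (x : ℂ)) (by simp)
  have e1 : ck f t = (∫ u, (f u : ℂ) * ph t 0 u).re := by
    unfold ck
    have : (∫ u, (f u : ℂ) * ph t 0 u).re = ∫ u, ((f u : ℂ) * ph t 0 u).re :=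
      (integral_re hint).symm
    rw [this]
    congr 1
    ext u
    unfold ph
    rw [Complex.re_ofReal_mul, Complex.exp_ofReal_mul_I_re, zero_mul, sub_zero]
  have e2 : ∫ u, (f u : ℂ) * ph t 0 u = ∫ u in (0 - 1 : ℝ)..(0 + 1), (f (u - 0) : ℂ) * ph t 0 u := by
    rw [intervalIntegral.integral_of_le (by norm_num), ← integral_indicator measurableSet_Ioc]
    congr 1
    ext u
    by_cases hu : u ∈ Set.Ioc (0 - 1 : ℝ) (0 + 1)
    · rw [Set.indicator_of_mem hu, sub_zero]
    · rw [Set.indicator_of_notMem hu]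
      have : u ∉ Set.Ioc (-1 : ℝ) 1 := by
        simpa using hu
      rw [hz u this]
      simp
  have b1 : |ck f t| ≤ 2 * K := by
    rw [e1, e2]
    refine (Complex.abs_re_le_norm _).trans ?_
    have := intervalIntegral.norm_integral_le_of_norm_le_const (a := (0 - 1 : ℝ)) (b := 0 + 1)
      (C := K) (f := fun u : ℝ => (f (u - 0) : ℂ) * ph t 0 u) (fun u _ => by
        rw [norm_mul, norm_ph, mul_one, Complex.norm_real]
        exact h.b0 _)
    refine this.trans (le_of_eq ?_)
    norm_num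
    ring
  rcases eq_or_ne t 0 with h0 | h0
  · rw [h0, abs_zero, add_zero, one_pow, div_one, ← h0]
    linarith
  · have ht : 0 < |t| := abs_pos.2 h0
    have b2 : |ck f t| ≤ 104 * K / |t| ^ 3 := by
      rw [e1, e2]
      refine (Complex.abs_re_le_norm _).trans ?_
      apply osc_bound h 0 t 0 |t| ht
      intro u _
      simp
    rcases le_or_gt |t| 1 with h1 | h1
    · refine b1.trans ?_
      rw [le_div_iff₀ (by positivity)]
      have : (1 + |t|) ^ 3 ≤ (1 + 1) ^ 3 := by gcongr
      nlinarith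
    · refine b2.trans ?_
      rw [div_le_div_iff₀ (by positivity) (by positivity)]
      have : (1 + |t|) ^ 3 ≤ (|t| + |t|) ^ 3 := by gcongr
      have h3 : 0 < |t| ^ 3 := by positivity
      nlinarith

theorem ck_bound {f : ℝ → ℝ} {s : ℝ} (h : ES f s) (hs : s ≤ 3 / 4) :
    ∃ C : ℝ, 0 ≤ C ∧ ∀ t : ℝ, |ck f t| ≤ C / (1 + |t|) ^ 3 := by
  obtain ⟨K, hK⟩ := bump_of_smooth h.smooth (fun u hu => h.supp u (hs.trans hu))
  have hK0 : 0 ≤ K := (abs_nonneg _).trans (hK.b0 0)
  exact ⟨1000 * K, by positivity, fun t => basA_bump hK t⟩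

theorem ck_continuous {f : ℝ → ℝ} {s : ℝ} (h : ES f s) : Continuous (ck f) := by
  have hc := h.continuous
  unfold ck
  refine continuous_of_dominated (bound := fun u => |f u|) (fun t => ?_) (fun t => ?_)
    h.integrable.abs ?_
  · apply Continuous.aestronglyMeasurable
    fun_prop
  · refine Eventually.of_forall fun u => ?_
    rw [norm_mul, Real.norm_eq_abs, Real.norm_eq_abs]
    exact mul_le_of_le_one_right (abs_nonneg _) (Real.abs_cos_le_one _)
  · refine Eventually.of_forall fun u => ?_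
    fun_prop

theorem ck_even (f : ℝ → ℝ) (t : ℝ) : ck f (-t) = ck f t := by
  unfold ck
  congr 1
  ext u
  rw [neg_mul, Real.cos_neg]

theorem ck_cexp {f : ℝ → ℝ} {s : ℝ} (h : ES f s) (t : ℝ) :
    ∫ u, (f u : ℂ) * cexp (((t * u : ℝ) : ℂ) * I) = (ck f t : ℂ) := by
  have hc := h.continuous
  have i1 : Integrable (fun u : ℝ => f u * Real.cos (t * u)) := by
    apply Continuous.integrable_of_hasCompactSupport (by fun_prop)
    exact h.compact.mul_right
  have i2 : Integrable (fun u : ℝ => f u * Real.sin (t * u)) := by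
    apply Continuous.integrable_of_hasCompactSupport (by fun_prop)
    exact h.compact.mul_right
  have z : ∫ u : ℝ, f u * Real.sin (t * u) = 0 := by
    have h1 := integral_neg_eq_self (fun u : ℝ => f u * Real.sin (t * u)) volume
    have h2 : ∫ u : ℝ, f (-u) * Real.sin (t * -u) = -∫ u : ℝ, f u * Real.sin (t * u) := by
      rw [← integral_neg]
      congr 1
      ext u
      rw [h.even, mul_neg, Real.sin_neg]
      ring
    rw [h2] at h1
    linarith
  have e : ∀ u : ℝ, (f u : ℂ) * cexp (((t * u : ℝ) : ℂ) * I) =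
      ((f u * Real.cos (t * u) : ℝ) : ℂ) + ((f u * Real.sin (t * u) : ℝ) : ℂ) * I := by
    intro u
    rw [Complex.exp_mul_I, ← Complex.ofReal_cos, ← Complex.ofReal_sin]
    push_cast
    ring
  simp only [e]
  have i1' : Integrable (fun u : ℝ => ((f u * Real.cos (t * u) : ℝ) : ℂ)) := i1.ofReal
  have i2' : Integrable (fun u : ℝ => ((f u * Real.sin (t * u) : ℝ) : ℂ) * I) := i2.ofReal.mul_const I
  rw [integral_add i1' i2', integral_mul_const]
  have e1 : ∫ a : ℝ, ((f a * Real.cos (t * a) : ℝ) : ℂ) = ((∫ a : ℝ, f a * Real.cos (t * a) : ℝ) : ℂ) :=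
    integral_ofReal
  have e2 : ∫ a : ℝ, ((f a * Real.sin (t * a) : ℝ) : ℂ) = ((∫ a : ℝ, f a * Real.sin (t * a) : ℝ) : ℂ) :=
    integral_ofReal
  rw [e1, e2, z]
  unfold ck
  simp

/-- Quantitative form of `ck_bound` in terms of the `Bump` data. -/
theorem ck_le_of_bump {f f1 f2 f3 : ℝ → ℝ} {K : ℝ} (h : Bump f f1 f2 f3 K) (he : ∀ u, f (-u) = f u) (t : ℝ) :
    |ck f t| ≤ 1000 * K / (1 + |t|) ^ 3 := basA_bump h t

end Pool.Agent.Lib.MP_00e05b_nt.Mont
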