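import Pool.Agent.Lib.MP_00e05b_nt.Mont.Defs

/-!
# JOB BasB: elementary properties of `FF` and `SS`

* `FF_eq`: `pairF_eq` (MainBase.lean).
* `FF_cos`: real part of the definition of `pairF` (`T ^ (I α (γ - γ')) = exp (i α log T (γ - γ'))`).
* `FF_peak`: by `FF_eq` and the substitution `v ↦ v - x log T`; `|v + x log T| ≤ |v| + |x| log T`.
* `SS_neg`: `SS T (-v)` is the complex conjugate of `SS T v`.
-/

open Complex Set Filter Topology MeasureTheory
open scoped ContDiff

namespace Pool.Agent.Lib.MP_00e05b_nt.Mont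

theorem N0_pos {T : ℝ} (hT : 1 < T) : 0 < N0 T := by
  unfold N0
  have := Real.log_pos hT
  have := Real.pi_pos
  have : 0 < T := by linarith
  positivity

theorem FF_eq {T : ℝ} (hT : 0 < T) (α : ℝ) :
    FF α T = (N0 T)⁻¹ * ∫ v : ℝ, ‖SS T (α * Real.log T + v)‖ ^ 2 * Real.exp (-(2 * |v|)) := by
  unfold FF
  rw [pairF_eq hT, Complex.ofReal_re]
  rfl

theorem FF_cos {T : ℝ} (hT : 0 < T) (α : ℝ) :
    FF α T = (N0 T)⁻¹ * ∑ γ ∈ ordinates T, ∑ γ' ∈ ordinates T,
      (mult γ : ℝ) * (mult γ' : ℝ) * Real.cos (α * Real.log T * (γ - γ')) * weight (γ - γ') := by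
  unfold FF pairF
  have h0 : ((T / (2 * Real.pi) * Real.log T : ℂ)⁻¹) = (((N0 T)⁻¹ : ℝ) : ℂ) := by
    unfold N0
    push_cast
    rfl
  rw [h0, Complex.re_ofReal_mul, Complex.re_sum]
  congr 1
  refine Finset.sum_congr rfl fun γ _ => ?_
  rw [Complex.re_sum]
  refine Finset.sum_congr rfl fun γ' _ => ?_
  have hT' : (T : ℂ) ≠ 0 := by exact_mod_cast hT.ne'
  have h1 : (T : ℂ) ^ (I * α * (γ - γ')) =
      cexp (((α * Real.log T * (γ - γ') : ℝ) : ℂ) * I) := by
    rw [Complex.cpow_def_of_ne_zero hT', ← Complex.ofReal_log hT.le]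
    congr 1
    push_cast
    ring
  rw [h1]
  have h2 : (mult γ : ℂ) * (mult γ' : ℂ) * cexp (((α * Real.log T * (γ - γ') : ℝ) : ℂ) * I) *
      (weight (γ - γ') : ℂ) = (((mult γ : ℝ) * (mult γ' : ℝ) * weight (γ - γ') : ℝ) : ℂ) *
      cexp (((α * Real.log T * (γ - γ') : ℝ) : ℂ) * I) := by
    push_cast
    ring
  rw [h2, Complex.re_ofReal_mul, Complex.exp_ofReal_mul_I_re]
  ring

theorem FF_nonneg {T : ℝ} (hT : 1 < T) (α : ℝ) : 0 ≤ FF α T := by
  rw [FF_eq (by linarith)]
  apply mul_nonneg (inv_nonneg.2 (N0_pos hT).le)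
  apply integral_nonneg
  intro v
  positivity

theorem FF_continuous {T : ℝ} (hT : 0 < T) : Continuous (fun α => FF α T) := by
  simp only [FF_cos hT]
  fun_prop

theorem FF_even {T : ℝ} (hT : 0 < T) (α : ℝ) : FF (-α) T = FF α T := by
  rw [FF_cos hT, FF_cos hT]
  congr 1
  refine Finset.sum_congr rfl fun γ _ => Finset.sum_congr rfl fun γ' _ => ?_
  have : -α * Real.log T * (γ - γ') = -(α * Real.log T * (γ - γ')) := by ring
  rw [this, Real.cos_neg]

theorem FF_peak {T : ℝ} (hT : 1 < T) (α x : ℝ) :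
    Real.exp (-(2 * |x| * Real.log T)) * FF α T ≤ FF (α + x) T := by
  have hT0 : 0 < T := by linarith
  have hL : 0 < Real.log T := Real.log_pos hT
  rw [FF_eq hT0, FF_eq hT0]
  have h1 : ∫ v : ℝ, ‖SS T ((α + x) * Real.log T + v)‖ ^ 2 * Real.exp (-(2 * |v|)) =
      ∫ v : ℝ, ‖SS T (α * Real.log T + v)‖ ^ 2 * Real.exp (-(2 * |v - x * Real.log T|)) := by
    rw [← integral_sub_right_eq_self (fun v : ℝ => ‖SS T ((α + x) * Real.log T + v)‖ ^ 2 *
      Real.exp (-(2 * |v|))) (x * Real.log T)]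
    congr 1
    ext v
    have : (α + x) * Real.log T + (v - x * Real.log T) = α * Real.log T + v := by ring
    rw [this]
  have hi : Integrable (fun v : ℝ => ‖SS T (α * Real.log T + v)‖ ^ 2 *
      Real.exp (-(2 * |v - x * Real.log T|))) := by
    have := (ms_integrable T ((α + x) * Real.log T)).comp_sub_right (x * Real.log T)
    refine this.congr (Eventually.of_forall fun v => ?_)
    have : (α + x) * Real.log T + (v - x * Real.log T) = α * Real.log T + v := by ring
    simp only [this]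
  rw [h1, mul_left_comm]
  apply mul_le_mul_of_nonneg_left _ (inv_nonneg.2 (N0_pos hT).le)
  rw [← integral_const_mul]
  apply integral_mono ((ms_integrable T (α * Real.log T)).const_mul _) hi
  intro v
  simp only
  have h2 : Real.exp (-(2 * |x| * Real.log T)) * Real.exp (-(2 * |v|)) ≤
      Real.exp (-(2 * |v - x * Real.log T|)) := by
    rw [← Real.exp_add, Real.exp_le_exp]
    have : |v - x * Real.log T| ≤ |v| + |x| * Real.log T := by
      calc |v - x * Real.log T| ≤ |v| + |x * Real.log T| := abs_sub _ _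
        _ = |v| + |x| * Real.log T := by rw [abs_mul, abs_of_pos hL]
    linarith
  calc Real.exp (-(2 * |x| * Real.log T)) * (‖SS T (α * Real.log T + v)‖ ^ 2 *
        Real.exp (-(2 * |v|)))
      = ‖SS T (α * Real.log T + v)‖ ^ 2 *
        (Real.exp (-(2 * |x| * Real.log T)) * Real.exp (-(2 * |v|))) := by ring
    _ ≤ _ := mul_le_mul_of_nonneg_left h2 (by positivity)

theorem SS_neg (T v : ℝ) : ‖SS T (-v)‖ = ‖SS T v‖ := by
  have h : SS T (-v) = (starRingEnd ℂ) (SS T v) := by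
    unfold SS
    rw [map_sum]
    refine Finset.sum_congr rfl fun γ _ => ?_
    rw [map_mul, Complex.conj_natCast, ← Complex.exp_conj]
    congr 2
    simp
  rw [h, RCLike.norm_conj]

theorem SS_le (T v : ℝ) : ‖SS T v‖ ≤ NN T := SS_bound T v

end Pool.Agent.Lib.MP_00e05b_nt.Mont
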