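import Pool.Agent.Lib.MP_00e05b_nt.Mont.FMass

/-!
# JOB BaseF: Montgomery's theorem against continuous test functions

`∫_0^x FF → (1 + x²)/2` for `0 < x ≤ 1` by `FF_mass` and `FF_even`. `FF ≥ 0`. Given `ε`, choose a partition
`0 = x_0 < x_1 < ... < x_n = 1` (equal steps) with `|r x - r y| ≤ ε` on each `[x_{i-1}, x_i]` (uniform continuity). Then
`|∫_0^1 FF r - ∑_i r(x_{i-1}) ∫_{x_{i-1}}^{x_i} FF| ≤ ε ∫_0^1 FF ≤ 2ε` eventually, and
`∑_i r(x_{i-1}) ∫_{x_{i-1}}^{x_i} FF → r 0 (1 + x_1²)/2 + ∑_{i ≥ 2} r(x_{i-1}) (x_i² - x_{i-1}²)/2`, which differs from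
`r 0 / 2 + ∫_0^1 x r x dx` by at most `ε`.
-/

open Complex Set Filter Topology MeasureTheory

namespace Pool.Agent.Lib.MP_00e05b_nt.Mont

/-- replacing `r` by a constant on a short interval -/
private lemma baseF_step {G r : ℝ → ℝ} {x y c e : ℝ} (hxy : x ≤ y) (hG : ContinuousOn G (Icc x y))
    (hr : ContinuousOn r (Icc x y)) (h0 : ∀ a ∈ Icc x y, 0 ≤ G a) (he : ∀ a ∈ Icc x y, |r a - c| ≤ e) :
    |(∫ a in x..y, G a * r a) - c * ∫ a in x..y, G a| ≤ e * ∫ a in x..y, G a := by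
  have hu : uIcc x y = Icc x y := uIcc_of_le hxy
  have i1 : IntervalIntegrable (fun a => G a * r a) volume x y := by
    apply ContinuousOn.intervalIntegrable
    rw [hu]
    exact hG.mul hr
  have i2 : IntervalIntegrable G volume x y := by
    apply ContinuousOn.intervalIntegrable
    rw [hu]
    exact hG
  have e1 : (∫ a in x..y, G a * r a) - c * ∫ a in x..y, G a = ∫ a in x..y, G a * (r a - c) := by
    rw [← intervalIntegral.integral_const_mul, ← intervalIntegral.integral_sub i1 (i2.const_mul c)]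
    refine intervalIntegral.integral_congr fun a _ => ?_
    ring
  have i3 : IntervalIntegrable (fun a => G a * (r a - c)) volume x y := by
    apply ContinuousOn.intervalIntegrable
    rw [hu]
    exact hG.mul (hr.sub continuousOn_const)
  rw [e1, ← intervalIntegral.integral_const_mul]
  refine (intervalIntegral.abs_integral_le_integral_abs hxy).trans ?_
  apply intervalIntegral.integral_mono_on hxy i3.abs (i2.const_mul e)
  intro a ha
  rw [abs_mul, abs_of_nonneg (h0 a ha), mul_comm e]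
  exact mul_le_mul_of_nonneg_left (he a ha) (h0 a ha)

private lemma baseF_part {N : ℕ} (hN : 0 < N) {G r : ℝ → ℝ} {e : ℝ} (hG : ContinuousOn G (Icc 0 1))
    (hr : ContinuousOn r (Icc 0 1)) (h0 : ∀ a ∈ Icc (0 : ℝ) 1, 0 ≤ G a)
    (he : ∀ i < N, ∀ a ∈ Icc ((i : ℝ) / N) (((i + 1 : ℕ) : ℝ) / N), |r a - r ((i : ℝ) / N)| ≤ e) :
    |(∫ a in (0 : ℝ)..1, G a * r a) - ∑ i ∈ Finset.range N, r ((i : ℝ) / N) *
      ∫ a in ((i : ℝ) / N)..(((i + 1 : ℕ) : ℝ) / N), G a| ≤ e * ∫ a in (0 : ℝ)..1, G a := by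
  have hN' : (0 : ℝ) < N := by exact_mod_cast hN
  have hsub : ∀ i < N, Icc ((i : ℝ) / N) (((i + 1 : ℕ) : ℝ) / N) ⊆ Icc 0 1 := by
    intro i hi a ha
    refine ⟨le_trans (by positivity) ha.1, ha.2.trans ?_⟩
    rw [div_le_one hN']
    exact_mod_cast hi
  have hle : ∀ i : ℕ, (i : ℝ) / N ≤ ((i + 1 : ℕ) : ℝ) / N := by
    intro i
    apply div_le_div_of_nonneg_right _ hN'.le
    push_cast
    linarith
  have hint : ∀ (f : ℝ → ℝ), ContinuousOn f (Icc 0 1) → ∀ i < N,
      IntervalIntegrable f volume ((i : ℝ) / N) (((i + 1 : ℕ) : ℝ) / N) := by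
    intro f hf i hi
    apply ContinuousOn.intervalIntegrable
    rw [uIcc_of_le (hle i)]
    exact hf.mono (hsub i hi)
  have hsum : ∀ (f : ℝ → ℝ), ContinuousOn f (Icc 0 1) →
      ∑ i ∈ Finset.range N, ∫ a in ((i : ℝ) / N)..(((i + 1 : ℕ) : ℝ) / N), f a =
        ∫ a in (0 : ℝ)..1, f a := by
    intro f hf
    have h1 := intervalIntegral.sum_integral_adjacent_intervals (μ := volume) (f := f)
      (a := fun i : ℕ => (i : ℝ) / N) (n := N) (fun k hk => hint f hf k hk)
    rw [h1]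
    congr 1
    · simp
    · rw [div_self hN'.ne']
  rw [← hsum (fun a => G a * r a) (hG.mul hr), ← hsum G hG, ← Finset.sum_sub_distrib, Finset.mul_sum]
  refine (Finset.abs_sum_le_sum_abs _ _).trans (Finset.sum_le_sum fun i hi => ?_)
  rw [Finset.mem_range] at hi
  exact baseF_step (hle i) (hG.mono (hsub i hi)) (hr.mono (hsub i hi))
    (fun a ha => h0 a (hsub i hi ha)) (he i hi)

private lemma baseF_gen {F : ℝ → ℝ → ℝ} (hc : ∀ᶠ T in atTop, Continuous (F T))
    (h0 : ∀ᶠ T in atTop, ∀ x, 0 ≤ F T x)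
    (hM : ∀ x, 0 < x → x ≤ 1 →
      Tendsto (fun T => ∫ a in (0 : ℝ)..x, F T a) atTop (𝓝 ((1 + x ^ 2) / 2)))
    {r : ℝ → ℝ} (hr : ContinuousOn r (Icc 0 1)) :
    Tendsto (fun T => ∫ a in (0 : ℝ)..1, F T a * r a) atTop
      (𝓝 (r 0 / 2 + ∫ x in (0 : ℝ)..1, x * r x)) := by
  rw [Metric.tendsto_nhds]
  intro ε hε
  obtain ⟨e, he⟩ : ∃ e : ℝ, e = ε / 5 := ⟨_, rfl⟩
  have he0 : 0 < e := by rw [he]; positivity
  obtain ⟨δ, hδ, hu⟩ := Metric.uniformContinuousOn_iff.1
    (isCompact_Icc.uniformContinuousOn_of_continuous hr) e he0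
  obtain ⟨n, hn⟩ := exists_nat_one_div_lt hδ
  obtain ⟨N, hNn⟩ : ∃ N : ℕ, N = n + 1 := ⟨_, rfl⟩
  have hN : 0 < N := by omega
  have hN' : (0 : ℝ) < N := by exact_mod_cast hN
  have hstep : (1 : ℝ) / N < δ := by
    rw [hNn]
    push_cast
    exact hn
  have hosc : ∀ i < N, ∀ a ∈ Icc ((i : ℝ) / N) (((i + 1 : ℕ) : ℝ) / N),
      |r a - r ((i : ℝ) / N)| ≤ e := by
    intro i hi a ha
    have h1 : ((i + 1 : ℕ) : ℝ) / N = (i : ℝ) / N + 1 / N := by
      push_cast
      rw [add_div]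
    have h2 : ((i + 1 : ℕ) : ℝ) / N ≤ 1 := by
      rw [div_le_one hN']
      exact_mod_cast hi
    have h3 : (0 : ℝ) ≤ (i : ℝ) / N := by positivity
    have h4 : (i : ℝ) / N ≤ 1 := le_trans ha.1 (ha.2.trans h2)
    have h5 := hu a ⟨h3.trans ha.1, ha.2.trans h2⟩ ((i : ℝ) / N) ⟨h3, h4⟩ (by
      rw [Real.dist_eq, abs_of_nonneg (sub_nonneg.2 ha.1)]
      have := ha.2
      linarith)
    rw [Real.dist_eq] at h5
    exact h5.le
  -- limit of the integrals over the parts
  have hlim : ∀ i < N, Tendsto (fun T => ∫ a in ((i : ℝ) / N)..(((i + 1 : ℕ) : ℝ) / N), F T a) atTop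
      (𝓝 ((if i = 0 then 1 / 2 else 0) + ∫ a in ((i : ℝ) / N)..(((i + 1 : ℕ) : ℝ) / N), a)) := by
    intro i hi
    have h2 : ((i + 1 : ℕ) : ℝ) / N ≤ 1 := by
      rw [div_le_one hN']
      exact_mod_cast hi
    have hl1 := hM (((i + 1 : ℕ) : ℝ) / N) (by positivity) h2
    rw [integral_id]
    rcases Nat.eq_zero_or_pos i with h | h
    · subst h
      simp only [if_true]
      have e1 : ((0 : ℕ) : ℝ) / N = 0 := by simp
      rw [e1]
      have e2 : (1 : ℝ) / 2 + ((((0 + 1 : ℕ) : ℝ) / N) ^ 2 - 0 ^ 2) / 2 =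
          (1 + (((0 + 1 : ℕ) : ℝ) / N) ^ 2) / 2 := by ring
      rw [e2]
      exact hl1
    · rw [if_neg (by omega)]
      have h3 : (0 : ℝ) < (i : ℝ) / N := by
        have : (0 : ℝ) < i := by exact_mod_cast h
        positivity
      have h4 : (i : ℝ) / N ≤ 1 := by
        rw [div_le_one hN']
        exact_mod_cast hi.le
      have hl2 := hM ((i : ℝ) / N) h3 h4
      have hl3 := hl1.sub hl2
      have e2 : (0 : ℝ) + ((((i + 1 : ℕ) : ℝ) / N) ^ 2 - ((i : ℝ) / N) ^ 2) / 2 =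
          (1 + (((i + 1 : ℕ) : ℝ) / N) ^ 2) / 2 - (1 + ((i : ℝ) / N) ^ 2) / 2 := by ring
      rw [e2]
      refine hl3.congr' ?_
      filter_upwards [hc] with T hT
      exact intervalIntegral.integral_interval_sub_left (hT.intervalIntegrable _ _)
        (hT.intervalIntegrable _ _)
  have hS : Tendsto (fun T => ∑ i ∈ Finset.range N, r ((i : ℝ) / N) *
      ∫ a in ((i : ℝ) / N)..(((i + 1 : ℕ) : ℝ) / N), F T a) atTop
      (𝓝 (∑ i ∈ Finset.range N, r ((i : ℝ) / N) * ((if i = 0 then 1 / 2 else 0) +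
        ∫ a in ((i : ℝ) / N)..(((i + 1 : ℕ) : ℝ) / N), a))) :=
    tendsto_finsetSum _ fun i hi => (hlim i (Finset.mem_range.1 hi)).const_mul _
  have hSe : ∑ i ∈ Finset.range N, r ((i : ℝ) / N) * ((if i = 0 then 1 / 2 else 0) +
        ∫ a in ((i : ℝ) / N)..(((i + 1 : ℕ) : ℝ) / N), a) =
      r 0 / 2 + ∑ i ∈ Finset.range N, r ((i : ℝ) / N) *
        ∫ a in ((i : ℝ) / N)..(((i + 1 : ℕ) : ℝ) / N), a := by
    simp only [mul_add, Finset.sum_add_distrib, mul_ite, mul_zero]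
    congr 1
    rw [Finset.sum_ite_eq' _ _ _, if_pos (Finset.mem_range.2 hN)]
    simp
    ring
  rw [hSe] at hS
  have h1 := Metric.tendsto_nhds.1 hS e he0
  have h2 := (hM 1 one_pos le_rfl).eventually (gt_mem_nhds (show ((1 + (1 : ℝ) ^ 2) / 2) < 2 by norm_num))
  have hid := baseF_part hN (G := fun a => a) continuousOn_id hr (fun a ha => ha.1) hosc
  rw [integral_id, show e * ((1 ^ 2 - 0 ^ 2) / 2) = e / 2 by ring] at hid
  filter_upwards [h1, h2, hc, h0] with T g1 g2 g3 g4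
  have g5 := baseF_part hN (G := F T) g3.continuousOn hr (fun a _ => g4 a) hosc
  rw [Real.dist_eq] at g1 ⊢
  have g6 : e * ∫ a in (0 : ℝ)..1, F T a ≤ e * 2 := mul_le_mul_of_nonneg_left g2.le he0.le
  have g7 := (abs_le.1 (g5.trans g6))
  have g8 := abs_lt.1 g1
  have g9 := abs_le.1 hid
  rw [abs_lt]
  have e5 : ε = 5 * e := by rw [he]; ring
  constructor
  · linarith [g7.1, g7.2, g8.1, g8.2, g9.1, g9.2]
  · linarith [g7.1, g7.2, g8.1, g8.2, g9.1, g9.2]

private lemma baseF_half {g : ℝ → ℝ} (hg : Continuous g) (he : ∀ a, g (-a) = g a) (x : ℝ) :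
    ∫ a in (-x)..x, g a = 2 * ∫ a in (0 : ℝ)..x, g a := by
  rw [← intervalIntegral.integral_add_adjacent_intervals (hg.intervalIntegrable (-x) 0)
    (hg.intervalIntegrable 0 x)]
  have h1 : ∫ a in (-x)..0, g a = ∫ a in (0 : ℝ)..x, g a := by
    have h2 := intervalIntegral.integral_comp_neg (a := 0) (b := x) g
    rw [neg_zero] at h2
    rw [← h2]
    exact intervalIntegral.integral_congr fun a _ => he a
  rw [h1]
  ring

private lemma baseF_sym {g r : ℝ → ℝ} (hg : Continuous g) (he : ∀ a, g (-a) = g a)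
    (hr : Continuous r) (h0 : ∀ x, 1 ≤ |x| → r x = 0) :
    ∫ a, g a * r a = ∫ a in (0 : ℝ)..1, g a * (r a + r (-a)) := by
  have hc : Continuous fun a => g a * r a := hg.mul hr
  have h1 : ∫ a, g a * r a = ∫ a in (-1 : ℝ)..1, g a * r a := by
    rw [intervalIntegral.integral_of_le (by norm_num), setIntegral_eq_integral_of_forall_compl_eq_zero]
    intro a ha
    rw [h0 a, mul_zero]
    by_contra hcon
    rw [not_le, abs_lt] at hcon
    exact ha ⟨hcon.1, hcon.2.le⟩
  rw [h1, ← intervalIntegral.integral_add_adjacent_intervals (hc.intervalIntegrable (-1) 0)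
    (hc.intervalIntegrable 0 1)]
  have h2 : ∫ a in (-1 : ℝ)..0, g a * r a = ∫ a in (0 : ℝ)..1, g a * r (-a) := by
    have h3 := intervalIntegral.integral_comp_neg (a := 0) (b := 1) (fun a => g a * r a)
    rw [neg_zero] at h3
    rw [← h3]
    refine intervalIntegral.integral_congr fun a _ => ?_
    simp only [he a]
  have hc2 : Continuous fun a => g a * r (-a) := hg.mul (hr.comp continuous_neg)
  have h3 := intervalIntegral.integral_add (μ := volume) (hc.intervalIntegrable 0 1)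
    (hc2.intervalIntegrable 0 1)
  rw [h2, add_comm]
  refine h3.symm.trans ?_
  refine intervalIntegral.integral_congr fun a _ => ?_
  simp only [mul_add]

theorem base (hRH : RiemannHypothesis) {r : ℝ → ℝ} (hr : ContinuousOn r (Icc 0 1)) :
    Tendsto (fun T : ℝ => ∫ α in (0 : ℝ)..1, FF α T * r α) atTop
      (𝓝 (r 0 / 2 + ∫ x in (0 : ℝ)..1, x * r x)) := by
  apply baseF_gen (F := fun T α => FF α T)
  · filter_upwards [eventually_gt_atTop 1] with T hT
    exact FF_continuous (lt_trans one_pos hT)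
  · filter_upwards [eventually_gt_atTop 1] with T hT x
    exact FF_nonneg hT x
  · intro x hx0 hx1
    have h1 := (FF_mass hRH hx0 hx1).div_const 2
    refine h1.congr' ?_
    filter_upwards [eventually_gt_atTop 1] with T hT
    rw [baseF_half (FF_continuous (lt_trans one_pos hT)) (FF_even (lt_trans one_pos hT)) x]
    ring
  · exact hr

/-- The same for functions on `ℝ` vanishing off `[-1, 1]`: put `r α + r (-α)` into `base` (`FF_even`). -/
theorem base_sym (hRH : RiemannHypothesis) {r : ℝ → ℝ} (hr : Continuous r) (h0 : ∀ x, 1 ≤ |x| → r x = 0) :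
    Tendsto (fun T : ℝ => ∫ α : ℝ, FF α T * r α) atTop (𝓝 (r 0 + ∫ x : ℝ, |x| * r x)) := by
  have h1 := base hRH (r := fun a => r a + r (-a)) (hr.add (hr.comp continuous_neg)).continuousOn
  have h2 : r 0 + ∫ x : ℝ, |x| * r x = (r 0 + r (-0)) / 2 + ∫ x in (0 : ℝ)..1, x * (r x + r (-x)) := by
    rw [baseF_sym continuous_abs abs_neg hr h0, neg_zero]
    congr 1
    · ring
    · refine intervalIntegral.integral_congr fun a ha => ?_
      rw [uIcc_of_le zero_le_one] at ha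
      simp only [abs_of_nonneg ha.1]
  rw [h2]
  refine h1.congr' ?_
  filter_upwards [eventually_gt_atTop 1] with T hT
  exact (baseF_sym (FF_continuous (lt_trans one_pos hT)) (FF_even (lt_trans one_pos hT)) hr h0).symm

end Pool.Agent.Lib.MP_00e05b_nt.Mont
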