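import Pool.Agent.Lib.MP_00e05b_nt.Mont.K3T
import Pool.Agent.Lib.MP_00e05b_nt.Mont.BasB

/-!
# JOB C3: the counting inequality for the kernel `f3`

* `pair_sum`: by `FF_cos`, `∫ FF α phi3 α dα = N0⁻¹ ∑∑ m m' f3 (log T (γ - γ')/(2π)) weight(γ - γ')`.
* `count_ineq`: the diagonal pairs give `f3 0 * Nstar`. By evenness the others give `2 ∑_{γ > γ'}`. For `x = log T (γ - γ')/(2π) > 0`:
  `f3 x ≥ 0` (`f3_nonneg`), and `f3 x ≥ f3 x - f3 B = ∫_x^B g3` if `x ≤ B` (`hasDeriv_f3`). For `x ≤ B` the weight is at least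
  `4/(4 + (2πB/log T)²)`. So `∑_{γ > γ'} m m' f3 weight ≥ (4/(4 + (2πB/log T)²)) ∫_0^B g3 β NP(T, β) dβ`
  (`NP(T, β) = ∑_{γ > γ', x ≤ β} m m'`; exchange the finite sum and the integral).
* `NP_mono`: monotone in `β`; `NP` is a step function of `β`, so measurable.
-/

open Complex Set Filter Topology MeasureTheory

namespace Pool.Agent.Lib.MP_00e05b_nt.Mont

theorem NP_mono {T : ℝ} (hT : 1 < T) : Monotone (fun β => NP T β) := by
  intro β β' hβ
  have hL : 0 < Real.log T := Real.log_pos hT
  have h1 : 2 * Real.pi * β / Real.log T ≤ 2 * Real.pi * β' / Real.log T := by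
    have : 0 ≤ 2 * Real.pi := by positivity
    exact div_le_div_of_nonneg_right (mul_le_mul_of_nonneg_left hβ this) hL.le
  show NP T β ≤ NP T β'
  unfold NP
  refine Finset.sum_le_sum fun γ _ => Finset.sum_le_sum fun γ' _ => ?_
  have h0 : (0 : ℝ) ≤ (mult γ : ℝ) * (mult γ' : ℝ) := by positivity
  split_ifs with h2 h3 h3
  · exact le_rfl
  · exact absurd ⟨h2.1, h2.2.trans h1⟩ h3
  · exact h0
  · exact le_rfl

theorem NP_nonneg (T β : ℝ) : 0 ≤ NP T β := by
  unfold NP
  refine Finset.sum_nonneg fun γ _ => Finset.sum_nonneg fun γ' _ => ?_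
  split_ifs
  · positivity
  · exact le_rfl

private lemma C3_phi3_compact : HasCompactSupport phi3 := by
  refine HasCompactSupport.intro (K := Set.Icc (-1) 1) isCompact_Icc fun x hx => ?_
  apply phi3_zero
  by_contra hcon
  exact hx (abs_le.1 (not_le.1 hcon).le)

private lemma C3_integrable (a : ℝ) : Integrable (fun α : ℝ => Real.cos (a * α) * phi3 α) := by
  refine Continuous.integrable_of_hasCompactSupport ?_ ?_
  · exact (Real.continuous_cos.comp (continuous_const.mul continuous_id)).mul phi3_continuous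
  · exact C3_phi3_compact.mul_left

theorem pair_sum {T : ℝ} (hT : 1 < T) :
    ∫ α : ℝ, FF α T * phi3 α = (N0 T)⁻¹ * ∑ γ ∈ ordinates T, ∑ γ' ∈ ordinates T,
      (mult γ : ℝ) * (mult γ' : ℝ) * f3 (Real.log T * (γ - γ') / (2 * Real.pi)) * weight (γ - γ') := by
  have h1 : ∀ α : ℝ, FF α T * phi3 α = (N0 T)⁻¹ * ∑ γ ∈ ordinates T, ∑ γ' ∈ ordinates T,
      (mult γ : ℝ) * (mult γ' : ℝ) * weight (γ - γ') *
        (Real.cos (Real.log T * (γ - γ') * α) * phi3 α) := by
    intro α
    rw [FF_cos (by linarith) α, mul_assoc, Finset.sum_mul]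
    congr 1
    refine Finset.sum_congr rfl fun γ _ => ?_
    rw [Finset.sum_mul]
    refine Finset.sum_congr rfl fun γ' _ => ?_
    have : α * Real.log T * (γ - γ') = Real.log T * (γ - γ') * α := by ring
    rw [this]
    ring
  simp_rw [h1]
  rw [integral_const_mul]
  congr 1
  rw [integral_finsetSum]
  · refine Finset.sum_congr rfl fun γ _ => ?_
    rw [integral_finsetSum]
    · refine Finset.sum_congr rfl fun γ' _ => ?_
      rw [integral_const_mul]
      have h2 : ∫ α : ℝ, Real.cos (Real.log T * (γ - γ') * α) * phi3 α =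
          f3 (Real.log T * (γ - γ') / (2 * Real.pi)) := by
        unfold f3
        apply integral_congr_ae
        refine Filter.Eventually.of_forall fun α => ?_
        have : 2 * Real.pi * (Real.log T * (γ - γ') / (2 * Real.pi)) * α =
            Real.log T * (γ - γ') * α := by
          have := Real.pi_ne_zero
          field_simp
        show Real.cos (Real.log T * (γ - γ') * α) * phi3 α =
          phi3 α * Real.cos (2 * Real.pi * (Real.log T * (γ - γ') / (2 * Real.pi)) * α)
        rw [this, mul_comm]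
      rw [h2]
      ring
    · intro γ' _
      exact (C3_integrable _).const_mul _
  · intro γ _
    exact integrable_finsetSum _ fun γ' _ => (C3_integrable _).const_mul _

private lemma C3_g3_nonneg {t : ℝ} (ht : 0 < t) : 0 ≤ g3 t := by
  unfold g3
  have : 0 ≤ Real.sin (Real.pi * t / 2) ^ 4 := Even.pow_nonneg (by decide) _
  positivity

private lemma C3_g3_cont {a b : ℝ} (ha : 0 < a) : ContinuousOn g3 (Set.Icc a b) := by
  unfold g3
  apply ContinuousOn.div
  · fun_prop
  · fun_prop
  · intro t ht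
    have : 0 < t := ha.trans_le ht.1
    positivity

private lemma C3_int {x B : ℝ} (hx : 0 < x) (hB : 0 < B) :
    IntervalIntegrable (fun β => if x ≤ β then g3 β else 0) volume 0 B ∧
    0 ≤ (∫ β in (0 : ℝ)..B, if x ≤ β then g3 β else 0) ∧
    (∫ β in (0 : ℝ)..B, if x ≤ β then g3 β else 0) ≤ f3 x ∧
    (B < x → (∫ β in (0 : ℝ)..B, if x ≤ β then g3 β else 0) = 0) := by
  have hfun : (fun β => if x ≤ β then g3 β else 0) = (Set.Ici x).indicator g3 := by
    funext β
    by_cases h : x ≤ β
    · simp [h, Set.indicator]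
    · simp [h, Set.indicator]
  have hnn : 0 ≤ (∫ β in (0 : ℝ)..B, if x ≤ β then g3 β else 0) := by
    apply intervalIntegral.integral_nonneg hB.le
    intro u _
    split_ifs with h
    · exact C3_g3_nonneg (hx.trans_le h)
    · exact le_rfl
  rcases le_or_gt x B with hxB | hxB
  · have hset : Set.Ici x ∩ Set.Ioc 0 B = Set.Icc x B := by
      ext u
      simp only [Set.mem_inter_iff, Set.mem_Ici, Set.mem_Ioc, Set.mem_Icc]
      constructor
      · rintro ⟨h1, h2, h3⟩
        exact ⟨h1, h3⟩
      · rintro ⟨h1, h2⟩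
        exact ⟨h1, hx.trans_le h1, h2⟩
    have hion : IntegrableOn g3 (Set.Icc x B) := (C3_g3_cont hx).integrableOn_Icc
    have hval : (∫ β in (0 : ℝ)..B, if x ≤ β then g3 β else 0) = f3 x - f3 B := by
      rw [intervalIntegral.integral_of_le hB.le, hfun, integral_indicator measurableSet_Ici,
        Measure.restrict_restrict measurableSet_Ici, hset, integral_Icc_eq_integral_Ioc,
        ← intervalIntegral.integral_of_le hxB]
      have h2 := intervalIntegral.integral_eq_sub_of_hasDerivAt (a := x) (b := B)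
        (f := -f3) (f' := g3) (fun t ht => by
          rw [Set.uIcc_of_le hxB] at ht
          have := (hasDeriv_f3 t (hx.trans_le ht.1)).neg
          rw [neg_neg] at this
          exact this) (by
          rw [intervalIntegrable_iff_integrableOn_Icc_of_le hxB]
          exact hion)
      rw [h2, Pi.neg_apply, Pi.neg_apply]
      ring
    refine ⟨?_, hnn, ?_, fun h => absurd hxB (not_le.2 h)⟩
    · rw [intervalIntegrable_iff_integrableOn_Ioc_of_le hB.le, hfun]
      unfold IntegrableOn
      rw [integrable_indicator_iff measurableSet_Ici]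
      unfold IntegrableOn
      rw [Measure.restrict_restrict measurableSet_Ici, hset]
      exact hion
    · rw [hval]
      linarith [f3_nonneg B]
  · have hz : ∀ u ∈ Set.uIoc 0 B, (if x ≤ u then g3 u else 0) = 0 := by
      intro u hu
      rw [Set.uIoc_of_le hB.le] at hu
      rw [if_neg]
      exact not_le.2 (hu.2.trans_lt hxB)
    have hval : (∫ β in (0 : ℝ)..B, if x ≤ β then g3 β else 0) = 0 := by
      rw [intervalIntegral.integral_congr_ae (g := fun _ => (0 : ℝ))]
      · simp
      · exact Filter.Eventually.of_forall hz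
    refine ⟨?_, hnn, ?_, fun _ => hval⟩
    · refine (intervalIntegrable_const (c := (0 : ℝ))).congr ?_
      intro u hu
      exact (hz u hu).symm
    · rw [hval]
      exact f3_nonneg x

/-- the integral attached to a difference of ordinates -/
private noncomputable def C3_J (L B d : ℝ) : ℝ :=
  ∫ β in (0 : ℝ)..B, if 0 < d then (if L * d / (2 * Real.pi) ≤ β then g3 β else 0) else 0

private lemma C3_J_int {L B : ℝ} (hL : 0 < L) (hB : 0 < B) (d : ℝ) :
    IntervalIntegrable (fun β => if 0 < d then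
      (if L * d / (2 * Real.pi) ≤ β then g3 β else 0) else 0) volume 0 B := by
  by_cases hd : 0 < d
  · simp only [hd, if_true]
    exact (C3_int (by positivity) hB).1
  · simp only [hd, if_false]
    exact intervalIntegrable_const

private lemma C3_J_neg (L B : ℝ) {d : ℝ} (hd : d ≤ 0) : C3_J L B d = 0 := by
  unfold C3_J
  simp only [not_lt.2 hd, if_false]
  simp

private lemma C3_pair {L B : ℝ} (hL : 0 < L) (hB : 0 < B) {d : ℝ} (hd : 0 < d) :
    4 / (4 + (2 * Real.pi * B / L) ^ 2) * C3_J L B d ≤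
      f3 (L * d / (2 * Real.pi)) * weight d := by
  have hx : 0 < L * d / (2 * Real.pi) := by positivity
  obtain ⟨-, h0, h1, h2⟩ := C3_int hx hB
  have hJ : C3_J L B d = ∫ β in (0 : ℝ)..B, if L * d / (2 * Real.pi) ≤ β then g3 β else 0 := by
    unfold C3_J
    simp only [hd, if_true]
  rw [← hJ] at h0 h1 h2
  have hw : 0 < weight d := by
    unfold weight
    positivity
  rcases le_or_gt (L * d / (2 * Real.pi)) B with hxB | hxB
  · have hd2 : d ≤ 2 * Real.pi * B / L := by
      rw [le_div_iff₀ hL]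
      rw [div_le_iff₀ (by positivity)] at hxB
      linarith
    have hk : 4 / (4 + (2 * Real.pi * B / L) ^ 2) ≤ weight d := by
      unfold weight
      apply div_le_div_of_nonneg_left (by norm_num) (by positivity)
      have := pow_le_pow_left₀ hd.le hd2 2
      linarith
    calc 4 / (4 + (2 * Real.pi * B / L) ^ 2) * C3_J L B d ≤ weight d * C3_J L B d :=
          mul_le_mul_of_nonneg_right hk h0
      _ ≤ weight d * f3 (L * d / (2 * Real.pi)) := mul_le_mul_of_nonneg_left h1 hw.le
      _ = _ := mul_comm _ _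
  · rw [h2 hxB, mul_zero]
    exact mul_nonneg (f3_nonneg _) hw.le

private lemma C3_NP {T B : ℝ} (hT : 1 < T) (hB : 0 < B) :
    ∫ β in (0 : ℝ)..B, g3 β * NP T β = ∑ γ ∈ ordinates T, ∑ γ' ∈ ordinates T,
      (mult γ : ℝ) * (mult γ' : ℝ) * C3_J (Real.log T) B (γ - γ') := by
  have hL : 0 < Real.log T := Real.log_pos hT
  have h1 : ∀ β : ℝ, g3 β * NP T β = ∑ γ ∈ ordinates T, ∑ γ' ∈ ordinates T,
      (mult γ : ℝ) * (mult γ' : ℝ) * (if 0 < γ - γ' then
        (if Real.log T * (γ - γ') / (2 * Real.pi) ≤ β then g3 β else 0) else 0) := by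
    intro β
    unfold NP
    rw [Finset.mul_sum]
    refine Finset.sum_congr rfl fun γ _ => ?_
    rw [Finset.mul_sum]
    refine Finset.sum_congr rfl fun γ' _ => ?_
    have hiff : γ - γ' ≤ 2 * Real.pi * β / Real.log T ↔
        Real.log T * (γ - γ') / (2 * Real.pi) ≤ β := by
      rw [le_div_iff₀ hL, div_le_iff₀ (by positivity)]
      constructor <;> intro h <;> linarith
    by_cases hd : 0 < γ - γ'
    · by_cases hx : Real.log T * (γ - γ') / (2 * Real.pi) ≤ β
      · rw [if_pos ⟨hd, hiff.2 hx⟩, if_pos hd, if_pos hx]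
        ring
      · rw [if_neg (fun h => hx (hiff.1 h.2)), if_pos hd, if_neg hx]
        ring
    · rw [if_neg (fun h => hd h.1), if_neg hd]
      ring
  simp_rw [h1]
  rw [intervalIntegral.integral_finsetSum]
  · refine Finset.sum_congr rfl fun γ _ => ?_
    rw [intervalIntegral.integral_finsetSum]
    · refine Finset.sum_congr rfl fun γ' _ => ?_
      rw [intervalIntegral.integral_const_mul]
      rfl
    · intro γ' _
      exact (C3_J_int hL hB _).const_mul _
  · intro γ _
    have h2 := IntervalIntegrable.sum (ordinates T) (f := fun γ' β =>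
      (mult γ : ℝ) * (mult γ' : ℝ) * (if 0 < γ - γ' then
        (if Real.log T * (γ - γ') / (2 * Real.pi) ≤ β then g3 β else 0) else 0))
      fun γ' _ => (C3_J_int hL hB (γ - γ')).const_mul _
    refine h2.congr ?_
    intro β _
    exact Finset.sum_apply β (ordinates T) _

theorem count_ineq {T B : ℝ} (hT : 1 < T) (hB : 0 < B) :
    f3 0 * (Nstar T / N0 T) + 2 * (4 / (4 + (2 * Real.pi * B / Real.log T) ^ 2)) *
      ∫ β in (0 : ℝ)..B, g3 β * (NP T β / N0 T) ≤ ∫ α : ℝ, FF α T * phi3 α := by
  have hL : 0 < Real.log T := Real.log_pos hT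
  have hN : 0 < N0 T := N0_pos hT
  set κ := 4 / (4 + (2 * Real.pi * B / Real.log T) ^ 2) with hκ
  have e1 : ∫ β in (0 : ℝ)..B, g3 β * (NP T β / N0 T) =
      (N0 T)⁻¹ * ∫ β in (0 : ℝ)..B, g3 β * NP T β := by
    rw [← intervalIntegral.integral_const_mul]
    apply intervalIntegral.integral_congr
    intro β _
    show g3 β * (NP T β / N0 T) = (N0 T)⁻¹ * (g3 β * NP T β)
    ring
  rw [pair_sum hT, e1, C3_NP hT hB]
  set S := ∑ γ ∈ ordinates T, ∑ γ' ∈ ordinates T,
      (mult γ : ℝ) * (mult γ' : ℝ) * C3_J (Real.log T) B (γ - γ') with hS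
  have hpt : ∀ γ γ' : ℝ, (if γ = γ' then (mult γ : ℝ) * (mult γ' : ℝ) * f3 0 else 0) +
      κ * ((mult γ : ℝ) * (mult γ' : ℝ) * C3_J (Real.log T) B (γ - γ')) +
      κ * ((mult γ' : ℝ) * (mult γ : ℝ) * C3_J (Real.log T) B (γ' - γ)) ≤
      (mult γ : ℝ) * (mult γ' : ℝ) * f3 (Real.log T * (γ - γ') / (2 * Real.pi)) *
        weight (γ - γ') := by
    intro γ γ'
    have hc : (0 : ℝ) ≤ (mult γ : ℝ) * (mult γ' : ℝ) := by positivity
    rcases lt_trichotomy γ γ' with h | h | h
    · rw [if_neg h.ne, C3_J_neg _ _ (by linarith : γ - γ' ≤ 0)]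
      have h1 := C3_pair hL hB (d := γ' - γ) (by linarith)
      have h2 : f3 (Real.log T * (γ - γ') / (2 * Real.pi)) =
          f3 (Real.log T * (γ' - γ) / (2 * Real.pi)) := by
        rw [← f3_even]
        congr 1
        ring
      have h3 : weight (γ - γ') = weight (γ' - γ) := by
        unfold weight
        congr 2
        ring
      rw [h2, h3]
      have h4 := mul_le_mul_of_nonneg_left h1 hc
      linarith
    · subst h
      rw [if_pos rfl, sub_self, C3_J_neg _ _ le_rfl]
      have h3 : weight (0 : ℝ) = 1 := by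
        unfold weight
        norm_num
      have h4 : Real.log T * 0 / (2 * Real.pi) = 0 := by ring
      rw [h3, h4]
      linarith
    · rw [if_neg h.ne', C3_J_neg _ _ (by linarith : γ' - γ ≤ 0)]
      have h1 := C3_pair hL hB (d := γ - γ') (by linarith)
      have h4 := mul_le_mul_of_nonneg_left h1 hc
      linarith
  have hsum := Finset.sum_le_sum (s := ordinates T) fun γ _ =>
    Finset.sum_le_sum (s := ordinates T) fun γ' _ => hpt γ γ'
  simp only [Finset.sum_add_distrib] at hsum
  have hd : ∑ γ ∈ ordinates T, ∑ γ' ∈ ordinates T,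
      (if γ = γ' then (mult γ : ℝ) * (mult γ' : ℝ) * f3 0 else 0) = f3 0 * Nstar T := by
    unfold Nstar
    rw [Finset.mul_sum]
    refine Finset.sum_congr rfl fun γ hγ => ?_
    rw [Finset.sum_ite_eq, if_pos hγ]
    ring
  have hs1 : ∑ γ ∈ ordinates T, ∑ γ' ∈ ordinates T,
      κ * ((mult γ : ℝ) * (mult γ' : ℝ) * C3_J (Real.log T) B (γ - γ')) = κ * S := by
    rw [hS, Finset.mul_sum]
    exact Finset.sum_congr rfl fun γ _ => by rw [Finset.mul_sum]
  have hs2 : ∑ γ ∈ ordinates T, ∑ γ' ∈ ordinates T,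
      κ * ((mult γ' : ℝ) * (mult γ : ℝ) * C3_J (Real.log T) B (γ' - γ)) = κ * S := by
    rw [Finset.sum_comm]
    exact hs1
  rw [hd, hs1, hs2] at hsum
  have hfin := mul_le_mul_of_nonneg_left hsum (inv_pos.2 hN).le
  have e2 : f3 0 * (Nstar T / N0 T) + 2 * κ * ((N0 T)⁻¹ * S) =
      (N0 T)⁻¹ * (f3 0 * Nstar T + κ * S + κ * S) := by
    ring
  rw [e2]
  exact hfin

end Pool.Agent.Lib.MP_00e05b_nt.Mont
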