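import Pool.Agent.Lib.MP_00e05b_nt.Mont.BasA

/-!
# JOB ConvH: a positive definite bump

Let `ψ` be an `EB ψ (1/4)` and `h x = ∫ ψ y * ψ (x - y) dy` (so `h` is smooth, even, supported in `(-1/2, 1/2)`;
`ContDiff` of a convolution: `HasCompactSupport.contDiff_convolution_left/right`, or differentiate under the integral). By Fubini and
the addition theorem `ck h t = (ck ψ t) ^ 2 ≥ 0` (the sine terms vanish because `ψ` is even). For `|t| ≤ 1`
`cos (t u) ≥ cos (1/4) ≥ 1/2` on the support of `ψ`, so `ck ψ t ≥ (1/2) ∫ ψ ≥ (1/2) * (1/4)` (`ψ = 1` on `[-1/8, 1/8]`) and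
`ck h t ≥ 1/64`.
-/

open Complex Set Filter Topology MeasureTheory
open scoped ContDiff

namespace Pool.Agent.Lib.MP_00e05b_nt.Mont

/-- the convolution square -/
private noncomputable def cvh (ψ : ℝ → ℝ) (x : ℝ) : ℝ := ∫ y, ψ y * ψ (x - y)

private lemma cvh_es {ψ : ℝ → ℝ} (hψ : EB ψ (1 / 4)) : ES (cvh ψ) (1 / 2) := by
  have hes := hψ.es
  refine ⟨?_, ?_, ?_⟩
  · have h1 : cvh ψ = convolution ψ ψ (ContinuousLinearMap.mul ℝ ℝ) volume := by
      funext x
      unfold cvh convolution
      simp only [ContinuousLinearMap.mul_apply']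
    rw [h1]
    exact HasCompactSupport.contDiff_convolution_right (n := ⊤) (ContinuousLinearMap.mul ℝ ℝ)
      hes.compact hes.integrable.locallyIntegrable hψ.smooth
  · intro u
    unfold cvh
    rw [← integral_neg_eq_self]
    refine integral_congr_ae (Eventually.of_forall fun y => ?_)
    simp only
    rw [hψ.even y, show -u - -y = -(u - y) by ring, hψ.even (u - y)]
  · intro u hu
    unfold cvh
    rw [← integral_zero ℝ ℝ (μ := volume)]
    refine integral_congr_ae (Eventually.of_forall fun y => ?_)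
    simp only
    by_cases hy : 1 / 4 ≤ |y|
    · rw [hψ.supp y hy, zero_mul]
    · have h2 : 1 / 4 ≤ |u - y| := by
        have h3 : |u| ≤ |u - y| + |y| := by
          calc |u| = |(u - y) + y| := by rw [sub_add_cancel]
            _ ≤ |u - y| + |y| := abs_add_le _ _
        push Not at hy
        linarith
      rw [hψ.supp (u - y) h2, mul_zero]

private lemma cvh_ck {ψ : ℝ → ℝ} (hψ : EB ψ (1 / 4)) (t : ℝ) : ck (cvh ψ) t = (ck ψ t) ^ 2 := by
  have hes := hψ.es
  set F : ℝ → ℂ := fun u => (ψ u : ℂ) * cexp (((t * u : ℝ) : ℂ) * I) with hF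
  have hFint : Integrable F := by
    apply Continuous.integrable_of_hasCompactSupport
    · rw [hF]
      have := hes.continuous
      fun_prop
    · apply HasCompactSupport.mul_right
      exact hes.compact.comp_left (g := fun x : ℝ => (x : ℂ)) Complex.ofReal_zero
  have h1 := integral_convolution (ContinuousLinearMap.mul ℝ ℂ) (μ := volume) (ν := volume)
    hFint hFint
  have h2 : ∀ x, (convolution F F (ContinuousLinearMap.mul ℝ ℂ) volume) x =
      (cvh ψ x : ℂ) * cexp (((t * x : ℝ) : ℂ) * I) := by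
    intro x
    unfold convolution cvh
    rw [← integral_complex_ofReal, ← integral_mul_const]
    refine integral_congr_ae (Eventually.of_forall fun y => ?_)
    simp only [ContinuousLinearMap.mul_apply', hF]
    have h3 : cexp (((t * x : ℝ) : ℂ) * I) = cexp (((t * y : ℝ) : ℂ) * I) *
        cexp (((t * (x - y) : ℝ) : ℂ) * I) := by
      rw [← Complex.exp_add]
      congr 1
      push_cast
      ring
    rw [h3]
    push_cast
    ring
  rw [integral_congr_ae (Eventually.of_forall h2), ck_cexp (cvh_es hψ) t] at h1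
  simp only [ContinuousLinearMap.mul_apply', hF] at h1
  rw [ck_cexp hes t] at h1
  have h4 : ((ck (cvh ψ) t : ℝ) : ℂ) = ((ck ψ t ^ 2 : ℝ) : ℂ) := by
    rw [h1]
    push_cast
    ring
  exact_mod_cast h4

private lemma cvh_int {ψ : ℝ → ℝ} (hψ : EB ψ (1 / 4)) : 1 / 4 ≤ ∫ u, ψ u := by
  have hes := hψ.es
  have h1 : ∫ u, (Icc (-(1 / 8 : ℝ)) (1 / 8)).indicator (fun _ => (1 : ℝ)) u ≤ ∫ u, ψ u := by
    apply integral_mono
    · rw [integrable_indicator_iff measurableSet_Icc]
      exact integrableOn_const (by simp)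
    · exact hes.integrable
    · intro u
      by_cases hu : u ∈ Icc (-(1 / 8 : ℝ)) (1 / 8)
      · rw [indicator_of_mem hu, hψ.one u]
        rw [abs_le]
        constructor <;> linarith [hu.1, hu.2]
      · rw [indicator_of_notMem hu]
        exact hψ.nonneg u
  have h2 : ∫ u, (Icc (-(1 / 8 : ℝ)) (1 / 8)).indicator (fun _ => (1 : ℝ)) u = 1 / 4 := by
    rw [integral_indicator measurableSet_Icc, setIntegral_const]
    simp only [Measure.real, Real.volume_Icc, smul_eq_mul, mul_one]
    rw [ENNReal.toReal_ofReal (by norm_num)]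
    norm_num
  linarith

private lemma cvh_low {ψ : ℝ → ℝ} (hψ : EB ψ (1 / 4)) (t : ℝ) (ht : |t| ≤ 1) : 1 / 8 ≤ ck ψ t := by
  have hes := hψ.es
  have h1 : ∫ u, ψ u * (1 / 2) ≤ ∫ u, ψ u * Real.cos (t * u) := by
    apply integral_mono
    · exact hes.integrable.mul_const _
    · apply Continuous.integrable_of_hasCompactSupport
      · have := hes.continuous
        fun_prop
      · exact hes.compact.mul_right
    · intro u
      by_cases hu : 1 / 4 ≤ |u|
      · simp only [hψ.supp u hu, zero_mul, le_refl]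
      · push Not at hu
        apply mul_le_mul_of_nonneg_left _ (hψ.nonneg u)
        have h2 := Real.one_sub_sq_div_two_le_cos (x := t * u)
        have h3 : |t * u| ≤ 1 / 4 := by
          rw [abs_mul]
          calc |t| * |u| ≤ 1 * (1 / 4) := by gcongr
            _ = 1 / 4 := one_mul _
        have h4 : (t * u) ^ 2 ≤ (1 / 4) ^ 2 := sq_le_sq' (by linarith [(abs_le.1 h3).1])
          (abs_le.1 h3).2
        linarith
  rw [integral_mul_const] at h1
  have h2 := cvh_int hψ
  unfold ck
  linarith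

theorem exists_posdef : ∃ (h : ℝ → ℝ) (c : ℝ), ES h (1 / 2) ∧ 0 < c ∧ (∀ t, 0 ≤ ck h t) ∧
    ∀ t, |t| ≤ 1 → c ≤ ck h t := by
  obtain ⟨ψ, hψ⟩ := exists_EB (1 / 4) (by norm_num)
  refine ⟨cvh ψ, 1 / 64, cvh_es hψ, by norm_num, ?_, ?_⟩
  · intro t
    rw [cvh_ck hψ]
    positivity
  · intro t ht
    rw [cvh_ck hψ]
    have := cvh_low hψ t ht
    nlinarith

end Pool.Agent.Lib.MP_00e05b_nt.Mont
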