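import Pool.Agent.Lib.MP_00e05b_nt.Mont.Defs

/-!
# JOB Crude: crude counting of zeros

`mx a ≠ 0` implies `xi a = 0`, hence `0 < a.re < 1` (`xi_zero_re`) and `‖a‖ ≤ 1 + |a.im|`. By `xi_growth` and
`count_bound` (Count.lean): `∑_{a ∈ S} mx a ≤ K (1 + r)^2` for finite sets `S` of zeros with `‖a‖ ≤ r`.

* `crude`: a finite sum over a set `S` of zeros is split by `‖a‖ ≤ 4 R` (terms `≤ mx a`, total `≤ K (1 + 4R)^2 ≤ 25 K R^2`)
  and `2^j R < ‖a‖ ≤ 2^(j+1) R`, `j ≥ 2` (then `|a.im - t| ≥ ‖a‖ - 1 - R ≥ 2^j R / 2`, so the term is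
  `≤ 8 * 2^(-3j) mx a`, total `≤ 8 * 2^(-3j) * K * (1 + 2^(j+1) R)^2 ≤ 72 K R^2 2^(-j)`). Then `summable_of_sum_le`.
  (Any other way is fine, e.g. comparing with `(1 + ‖a‖/R)^3` and an Abel summation.)
* `summable_cube`: `crude` with `R = 1 + |t|` (compare `(1 + |a.im - t|/R)^3 ≤ (1 + |a.im - t|)^3`).
-/

open Complex Set Filter Topology MeasureTheory
open scoped ContDiff

namespace Pool.Agent.Lib.MP_00e05b_nt.Mont

/-- dyadic decomposition at scale `R` -/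
private lemma crude_scale {C : ℝ} {f : ℂ → ℂ} (hf : Growth f C) : ∃ K : ℝ, 0 ≤ K ∧ ∀ R : ℝ, 1 ≤ R →
    ∀ S : Finset ℂ, ∑ a ∈ S, (analyticOrderNatAt f a : ℝ) / (1 + ‖a‖ / R) ^ 3 ≤ 18 * K * R ^ 2 := by
  obtain ⟨K, hK, hcount⟩ := count_bound hf
  refine ⟨K, hK, fun R hR S => ?_⟩
  have hR0 : 0 < R := by linarith
  -- restrict to zeros
  classical
  set S' := S.filter (fun a => f a = 0) with hS'
  have h1 : ∑ a ∈ S, (analyticOrderNatAt f a : ℝ) / (1 + ‖a‖ / R) ^ 3 =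
      ∑ a ∈ S', (analyticOrderNatAt f a : ℝ) / (1 + ‖a‖ / R) ^ 3 := by
    rw [hS', Finset.sum_filter]
    apply Finset.sum_congr rfl
    intro a _
    split_ifs with h
    · rfl
    · rw [order_eq_zero hf.diff h]; simp
  rw [h1]
  set jj : ℂ → ℕ := fun a => Nat.log 2 (⌊‖a‖ / R⌋₊ + 1) with hjj
  have hfib : ∑ a ∈ S', (analyticOrderNatAt f a : ℝ) / (1 + ‖a‖ / R) ^ 3 =
      ∑ j ∈ S'.image jj, ∑ a ∈ S' with jj a = j,
        (analyticOrderNatAt f a : ℝ) / (1 + ‖a‖ / R) ^ 3 :=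
    (Finset.sum_fiberwise_of_maps_to (fun a ha => Finset.mem_image_of_mem jj ha) _).symm
  rw [hfib]
  have hterm : ∀ j ∈ S'.image jj, ∑ a ∈ S' with jj a = j,
        (analyticOrderNatAt f a : ℝ) / (1 + ‖a‖ / R) ^ 3 ≤ 9 * K * R ^ 2 * (1 / 2 : ℝ) ^ j := by
    intro j _
    have hj : ∀ a ∈ S'.filter (fun a => jj a = j), (2 : ℝ) ^ j ≤ 1 + ‖a‖ / R ∧
        ‖a‖ ≤ R * 2 ^ (j + 1) := by
      intro a ha
      rw [Finset.mem_filter] at ha
      have h2 := ha.2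
      rw [hjj] at h2
      simp only at h2
      have h3 : 2 ^ j ≤ ⌊‖a‖ / R⌋₊ + 1 := by
        rw [← h2]; exact Nat.pow_log_le_self 2 (by omega)
      have h4 : ⌊‖a‖ / R⌋₊ + 1 < 2 ^ (j + 1) := by
        rw [← h2]; exact Nat.lt_pow_succ_log_self (by norm_num) _
      have h5 : (⌊‖a‖ / R⌋₊ : ℝ) ≤ ‖a‖ / R := Nat.floor_le (by positivity)
      have h6 : ‖a‖ / R < ⌊‖a‖ / R⌋₊ + 1 := Nat.lt_floor_add_one _
      have h3' : (2 : ℝ) ^ j ≤ ⌊‖a‖ / R⌋₊ + 1 := by exact_mod_cast h3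
      have h4' : ((⌊‖a‖ / R⌋₊ : ℝ) + 1) < 2 ^ (j + 1) := by exact_mod_cast h4
      constructor
      · linarith
      · have h7 : ‖a‖ / R ≤ 2 ^ (j + 1) := by linarith
        rw [div_le_iff₀ hR0] at h7
        linarith
    calc ∑ a ∈ S' with jj a = j, (analyticOrderNatAt f a : ℝ) / (1 + ‖a‖ / R) ^ 3
        ≤ ∑ a ∈ S' with jj a = j, (analyticOrderNatAt f a : ℝ) / ((2 : ℝ) ^ j) ^ 3 := by
          apply Finset.sum_le_sum
          intro a ha
          have := (hj a ha).1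
          gcongr
      _ = (∑ a ∈ S' with jj a = j, (analyticOrderNatAt f a : ℝ)) / ((2 : ℝ) ^ j) ^ 3 := by
          rw [Finset.sum_div]
      _ ≤ (K * (1 + R * 2 ^ (j + 1)) ^ 2) / ((2 : ℝ) ^ j) ^ 3 := by
          gcongr
          apply hcount _ (by positivity)
          intro a ha
          refine ⟨?_, (hj a ha).2⟩
          rw [Finset.mem_filter, hS', Finset.mem_filter] at ha
          exact ha.1.2
      _ ≤ 9 * K * R ^ 2 * (1 / 2 : ℝ) ^ j := by
          have e1 : (1 : ℝ) ≤ 2 ^ j := one_le_pow₀ (by norm_num)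
          have e2 : (2 : ℝ) ^ (j + 1) = 2 * 2 ^ j := by ring
          rw [e2, div_le_iff₀ (by positivity)]
          have e3 : (1 / 2 : ℝ) ^ j * ((2 : ℝ) ^ j) ^ 3 = (2 ^ j) ^ 2 := by
            have : (1 / 2 : ℝ) ^ j * 2 ^ j = 1 := by rw [← mul_pow]; norm_num
            calc _ = ((1 / 2 : ℝ) ^ j * 2 ^ j) * (2 ^ j) ^ 2 := by ring
              _ = _ := by rw [this, one_mul]
          have e4 : (1 + R * (2 * (2 : ℝ) ^ j)) ^ 2 ≤ 9 * (R * 2 ^ j) ^ 2 := by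
            have e5 : 1 ≤ R * 2 ^ j := by nlinarith
            nlinarith
          calc K * (1 + R * (2 * 2 ^ j)) ^ 2 ≤ K * (9 * (R * 2 ^ j) ^ 2) := by gcongr
            _ = 9 * K * R ^ 2 * (1 / 2) ^ j * (2 ^ j) ^ 3 := by
                rw [mul_assoc (9 * K * R ^ 2), e3]; ring
  refine (Finset.sum_le_sum hterm).trans ?_
  have hsum : Summable (fun j : ℕ => 9 * K * R ^ 2 * (1 / 2 : ℝ) ^ j) :=
    (summable_geometric_of_lt_one (by norm_num) (by norm_num)).mul_left _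
  refine (hsum.sum_le_tsum _ (fun j _ => by positivity)).trans ?_
  rw [tsum_mul_left, tsum_geometric_of_lt_one (by norm_num) (by norm_num)]
  apply le_of_eq
  ring

theorem crude : ∃ C : ℝ, 0 ≤ C ∧ ∀ R t : ℝ, 1 ≤ R → |t| ≤ R →
    Summable (fun a : ℂ => (mx a : ℝ) / (1 + |a.im - t| / R) ^ 3) ∧
    ∑' a : ℂ, (mx a : ℝ) / (1 + |a.im - t| / R) ^ 3 ≤ C * R ^ 2 := by
  obtain ⟨Cx, hCx⟩ := xi_growth
  obtain ⟨K, hK, hsc⟩ := crude_scale hCx
  refine ⟨27 * (18 * K), by positivity, fun R t hR ht => ?_⟩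
  have hR0 : 0 < R := by linarith
  have key : ∀ a : ℂ, (mx a : ℝ) / (1 + |a.im - t| / R) ^ 3 ≤
      27 * ((analyticOrderNatAt xi a : ℝ) / (1 + ‖a‖ / R) ^ 3) := by
    intro a
    by_cases ha : xi a = 0
    · obtain ⟨h0, h1⟩ := xi_zero_re ha
      have hn : ‖a‖ ≤ 1 + |a.im| := by
        have := Complex.norm_le_abs_re_add_abs_im a
        rw [abs_of_pos h0] at this
        linarith
      have h2 : |a.im| ≤ |a.im - t| + R := by
        have := abs_sub_abs_le_abs_sub a.im t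
        linarith
      have h3 : 1 + ‖a‖ / R ≤ 3 * (1 + |a.im - t| / R) := by
        have e1 : ‖a‖ / R ≤ 2 + |a.im - t| / R := by
          rw [div_le_iff₀ hR0, add_mul, div_mul_cancel₀ _ hR0.ne']
          linarith
        have e2 : 0 ≤ |a.im - t| / R := by positivity
        linarith
      have hm : (mx a : ℝ) = (analyticOrderNatAt xi a : ℝ) := rfl
      rw [← hm, div_le_iff₀ (by positivity)]
      have e3 : 0 < 1 + ‖a‖ / R := by positivity
      have h4 : (1 + ‖a‖ / R) ^ 3 ≤ 27 * (1 + |a.im - t| / R) ^ 3 := by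
        calc (1 + ‖a‖ / R) ^ 3 ≤ (3 * (1 + |a.im - t| / R)) ^ 3 := by gcongr
          _ = _ := by ring
      calc (mx a : ℝ) = (mx a : ℝ) / (1 + ‖a‖ / R) ^ 3 * (1 + ‖a‖ / R) ^ 3 := by
            field_simp
        _ ≤ (mx a : ℝ) / (1 + ‖a‖ / R) ^ 3 * (27 * (1 + |a.im - t| / R) ^ 3) := by gcongr
        _ = _ := by ring
    · have hm : (mx a : ℝ) = 0 := by
        unfold mx
        rw [order_eq_zero hCx.diff ha]
        simp
      rw [hm, zero_div]
      positivity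
  have hb : ∀ S : Finset ℂ, ∑ a ∈ S, (mx a : ℝ) / (1 + |a.im - t| / R) ^ 3 ≤
      27 * (18 * K) * R ^ 2 := by
    intro S
    refine (Finset.sum_le_sum fun a _ => key a).trans ?_
    rw [← Finset.mul_sum]
    have := hsc R hR S
    linarith
  have hnn : ∀ a : ℂ, 0 ≤ (mx a : ℝ) / (1 + |a.im - t| / R) ^ 3 := fun a => by positivity
  have hs := summable_of_sum_le hnn hb
  exact ⟨hs, hs.tsum_le_of_sum_le hb⟩

theorem summable_cube (t : ℝ) : Summable (fun a : ℂ => (mx a : ℝ) / (1 + |a.im - t|) ^ 3) := by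
  obtain ⟨C, -, h⟩ := crude
  have hR : (1 : ℝ) ≤ 1 + |t| := by
    have := abs_nonneg t
    linarith
  have hs := (h (1 + |t|) t hR (by linarith)).1
  refine Summable.of_nonneg_of_le (fun a => by positivity) (fun a => ?_) hs
  have e1 : |a.im - t| / (1 + |t|) ≤ |a.im - t| := div_le_self (abs_nonneg _) hR
  gcongr

end Pool.Agent.Lib.MP_00e05b_nt.Mont
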