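import Pool.Agent.Lib.MP_00e05b_nt.MainBase
import Pool.Agent.Lib.MP_00e05b_nt.Explicit2
import Pool.Agent.Lib.MP_00e05b_nt.Zeros
import Pool.Agent.Lib.MP_00e05b_nt.BumpF

/-!
# Integrated Montgomery theorem (pair correlation): definitions

Conventions of the library: `mx a` is the multiplicity of `a` as a zero of `xi` (the zeros of `xi` are the nontrivial
zeros of zeta), `ordinates T` the finite set of ordinates in `(0, T]`, `mult γ` their multiplicities,
`SS T v = ∑_{γ ≤ T} mult γ e^{iγv}`.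
-/

open Complex Set Filter Topology MeasureTheory
open scoped ContDiff

namespace Pool.Agent.Lib.MP_00e05b_nt.Mont

/-- `N₀ = T log T / 2π`. -/
noncomputable def N0 (T : ℝ) : ℝ := T / (2 * Real.pi) * Real.log T

/-- `F(α, T)` as a real number. -/
noncomputable def FF (α T : ℝ) : ℝ := (pairF α T).re

/-- Smooth even functions supported in `(-s, s)`. -/
structure ES (f : ℝ → ℝ) (s : ℝ) : Prop where
  smooth : ContDiff ℝ ∞ f
  even : ∀ u, f (-u) = f u
  supp : ∀ u, s ≤ |u| → f u = 0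

/-- Smooth even bumps: equal to `1` on `[-s/2, s/2]` and supported in `[-s, s]`. -/
structure EB (W : ℝ → ℝ) (s : ℝ) : Prop where
  smooth : ContDiff ℝ ∞ W
  even : ∀ u, W (-u) = W u
  supp : ∀ u, s ≤ |u| → W u = 0
  nonneg : ∀ u, 0 ≤ W u
  le_one : ∀ u, W u ≤ 1
  one : ∀ u, |u| ≤ s / 2 → W u = 1

lemma EB.es {W : ℝ → ℝ} {s : ℝ} (h : EB W s) : ES W s := ⟨h.smooth, h.even, h.supp⟩

/-- Cosine transform. -/
noncomputable def ck (f : ℝ → ℝ) (t : ℝ) : ℝ := ∫ u, f u * Real.cos (t * u)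

/-- The sum `∑_γ m_γ e^{iγy} ck W (t - γ)` over all nontrivial zeros. -/
noncomputable def AA (W : ℝ → ℝ) (t y : ℝ) : ℂ :=
  ∑' a : ℂ, (mx a : ℂ) * (cexp (((a.im * y : ℝ) : ℂ) * I) * (ck W (t - a.im) : ℂ))

/-- The same sum over the ordinates in `(0, T]`. -/
noncomputable def BB (W : ℝ → ℝ) (T t y : ℝ) : ℂ :=
  ∑ γ ∈ ordinates T, (mult γ : ℂ) * (cexp (((γ * y : ℝ) : ℂ) * I) * (ck W (t - γ) : ℂ))

/-- The prime sum `∑ Λ(n) n^{-1/2 - it} W(log n - y)`. -/
noncomputable def PP (W : ℝ → ℝ) (t y : ℝ) : ℂ :=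
  ∑' n : ℕ, ((ArithmeticFunction.vonMangoldt n * Real.exp (-(Real.log n / 2)) * W (Real.log n - y) : ℝ) : ℂ) *
    cexp (((-(t * Real.log n) : ℝ) : ℂ) * I)

/-- `N*(T) = ∑ m²` over the distinct ordinates in `(0, T]`. -/
noncomputable def Nstar (T : ℝ) : ℝ := ∑ γ ∈ ordinates T, (mult γ : ℝ) ^ 2

/-- `N(T) = ∑ m` over the distinct ordinates in `(0, T]`. -/
noncomputable def NN (T : ℝ) : ℝ := ∑ γ ∈ ordinates T, (mult γ : ℝ)

/-- The number of pairs of zeros `0 < γ - γ' ≤ 2πβ / log T`, with multiplicities. -/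
noncomputable def NP (T β : ℝ) : ℝ := by
  classical
  exact ∑ γ ∈ ordinates T, ∑ γ' ∈ ordinates T,
    if 0 < γ - γ' ∧ γ - γ' ≤ 2 * Real.pi * β / Real.log T then (mult γ : ℝ) * (mult γ' : ℝ) else 0

/-- The pair correlation function of the Gaussian unitary ensemble, integrated over `(0, β]`. -/
noncomputable def gue (β : ℝ) : ℝ := ∫ u in (0 : ℝ)..β, (1 - (Real.sin (Real.pi * u) / (Real.pi * u)) ^ 2)

end Pool.Agent.Lib.MP_00e05b_nt.Mont
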