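import Pool.Agent.Lib.MP_00e05b_nt.Mont.Defs

/-!
# JOB LocalP: the prime sum is a finite Dirichlet polynomial

`PP W t y = ∑_{n ∈ S} a_n e^{-it log n}` with `a_n = Λ(n) e^{-(log n)/2} W(log n - y)` and `S = Finset.Icc 1 ⌊e^{y + s}⌋`: the terms with
`log n > y + s` vanish, and `Λ 0 = 0`.
-/

open Complex Set Filter Topology MeasureTheory
open scoped ContDiff

namespace Pool.Agent.Lib.MP_00e05b_nt.Mont

theorem PP_finite {W : ℝ → ℝ} {s : ℝ} (hW : ES W s) (y : ℝ) :
    ∃ S : Finset ℕ, (∀ n ∈ S, 1 ≤ n ∧ (n : ℝ) ≤ Real.exp (y + s)) ∧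
      (∀ t : ℝ, PP W t y = ∑ n ∈ S, ((ArithmeticFunction.vonMangoldt n * Real.exp (-(Real.log n / 2)) *
        W (Real.log n - y) : ℝ) : ℂ) * cexp (((-(t * Real.log n) : ℝ) : ℂ) * I)) ∧
      ∑' n : ℕ, (ArithmeticFunction.vonMangoldt n * Real.exp (-(Real.log n / 2)) * W (Real.log n - y)) ^ 2 =
        ∑ n ∈ S, (ArithmeticFunction.vonMangoldt n * Real.exp (-(Real.log n / 2)) * W (Real.log n - y)) ^ 2 := by
  have hz : ∀ n : ℕ, n ∉ Finset.Icc 1 ⌊Real.exp (y + s)⌋₊ →
      ArithmeticFunction.vonMangoldt n * Real.exp (-(Real.log n / 2)) * W (Real.log n - y) = 0 := by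
    intro n hn
    rcases Nat.eq_zero_or_pos n with rfl | hn0
    · simp
    · have h1 : ¬ n ≤ ⌊Real.exp (y + s)⌋₊ := fun h => hn (Finset.mem_Icc.2 ⟨hn0, h⟩)
      rw [Nat.le_floor_iff (Real.exp_pos _).le, not_le] at h1
      have h2 : y + s < Real.log n := by
        rw [Real.lt_log_iff_exp_lt (by exact_mod_cast hn0)]
        exact h1
      have h3 : W (Real.log n - y) = 0 := by
        apply hW.supp
        have : s < Real.log n - y := by linarith
        exact this.le.trans (le_abs_self _)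
      rw [h3, mul_zero]
  refine ⟨Finset.Icc 1 ⌊Real.exp (y + s)⌋₊, ?_, ?_, ?_⟩
  · intro n hn
    rw [Finset.mem_Icc] at hn
    exact ⟨hn.1, (Nat.le_floor_iff (Real.exp_pos _).le).1 hn.2⟩
  · intro t
    unfold PP
    refine tsum_eq_sum fun n hn => ?_
    rw [hz n hn]
    simp
  · refine tsum_eq_sum fun n hn => ?_
    rw [hz n hn]
    simp

theorem PP_continuous {W : ℝ → ℝ} {s : ℝ} (hW : ES W s) (y : ℝ) : Continuous (fun t => PP W t y) := by
  obtain ⟨S, _, h, _⟩ := PP_finite hW y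
  have : (fun t => PP W t y) = fun t => ∑ n ∈ S, ((ArithmeticFunction.vonMangoldt n *
      Real.exp (-(Real.log n / 2)) * W (Real.log n - y) : ℝ) : ℂ) * cexp (((-(t * Real.log n) : ℝ) : ℂ) * I) := by
    funext t
    exact h t
  rw [this]
  refine continuous_finsetSum _ fun n _ => ?_
  fun_prop

end Pool.Agent.Lib.MP_00e05b_nt.Mont
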