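import Pool.Agent.Lib.MP_00e05b_nt.Mont.Trunc0
import Pool.Agent.Lib.MP_00e05b_nt.Mont.LocalP

/-!
# JOB EF: the explicit formula away from `0`, in mean square

`explicit_formula` (Explicit2.lean) for the `Test` function `g u = W (u - y) e^{-u/2} e^{-itu}`, supported in
`[y - s, y + s] ⊂ (0, ∞)`. Under RH (`re_of_RH`, `mx_eq_zero`)
`∫ g e^{au} du = e^{i(γ - t)y} ck W (t - γ)` for `a = 1/2 + iγ`, so the left side is `e^{-ity} AA W t y`
(`HasSum.tsum_eq`), and `∑ Λ(n) g(log n) = PP W t y`. Hence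
`AA W t y + e^{ity} PP W t y = e^{ity} (A t - B t)`, `A t = ∫ W(u - y) e^{u/2} e^{-itu} du`,
`B t = ∫ W(u - y) e^{-u/2} rt u e^{-itu} du`. By `plancherel_cs`
`∫_ℝ |A|² = 2π ∫ W(u-y)² e^u du ≤ 4π s e^{y + s}` and `∫_ℝ |B|² = 2π ∫ W(u-y)² e^{-u} (rt u)² du ≤ C(u0 - s)`
(`rt` is decreasing on `(0, ∞)`), and `e^y ≥ 1`.
-/

open Complex Set Filter Topology MeasureTheory
open scoped ContDiff

namespace Pool.Agent.Lib.MP_00e05b_nt.Mont

/-- the weight -/
private noncomputable def EFF (W : ℝ → ℝ) (y u : ℝ) : ℝ :=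
  W (u - y) * (Real.exp (u / 2) - Real.exp (-(u / 2)) * rt u)

private theorem EF_rt_pos {u : ℝ} (hu : 0 < u) : 0 < 1 - Real.exp (-(2 * u)) := by
  have : Real.exp (-(2 * u)) < 1 := by rw [Real.exp_lt_one_iff]; linarith
  linarith

private theorem EF_rt_nonneg {u : ℝ} (hu : 0 < u) : 0 ≤ rt u := by
  unfold rt
  exact div_nonneg (Real.exp_pos _).le (EF_rt_pos hu).le

private theorem EF_rt_anti {u v : ℝ} (hu : 0 < u) (huv : u ≤ v) : rt v ≤ rt u := by
  unfold rt
  have h1 : Real.exp (-(2 * v)) ≤ Real.exp (-(2 * u)) := Real.exp_le_exp.2 (by linarith)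
  have h2 := EF_rt_pos hu
  gcongr

private theorem EF_zero {W : ℝ → ℝ} {s : ℝ} (hW : EB W s) {y u : ℝ} (hu : s ≤ |u - y|) : EFF W y u = 0 := by
  unfold EFF
  rw [hW.supp _ hu, zero_mul]

private theorem EF_smooth {W : ℝ → ℝ} {s : ℝ} (hW : EB W s) {y : ℝ} (hy : s < y) :
    ContDiff ℝ ∞ (fun u => EFF W y u) := by
  rw [contDiff_iff_contDiffAt]
  intro x
  have hWs : ContDiff ℝ ∞ (fun u => W (u - y)) := hW.smooth.comp (contDiff_id.sub contDiff_const)
  by_cases hx : 0 < x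
  · unfold EFF
    refine hWs.contDiffAt.mul (ContDiffAt.sub ?_ (ContDiffAt.mul ?_ ?_))
    · exact (Real.contDiff_exp.comp (contDiff_id.div_const 2)).contDiffAt
    · exact (Real.contDiff_exp.comp (contDiff_id.div_const 2).neg).contDiffAt
    · unfold rt
      have h1 : ContDiffAt ℝ ∞ (fun u : ℝ => Real.exp (-(2 * u))) x :=
        (Real.contDiff_exp.comp (contDiff_const.mul contDiff_id).neg).contDiffAt
      exact h1.div (contDiffAt_const.sub h1) (EF_rt_pos hx).ne'
  · have hev : (fun u => EFF W y u) =ᶠ[𝓝 x] fun _ => 0 := by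
      have : Iio (y - s) ∈ 𝓝 x := Iio_mem_nhds (by linarith)
      filter_upwards [this] with u hu
      rw [mem_Iio] at hu
      apply EF_zero hW
      rw [abs_sub_comm]
      exact le_trans (by linarith) (le_abs_self _)
    exact contDiffAt_const.congr_of_eventuallyEq hev

private theorem EF_cpt {W : ℝ → ℝ} {s : ℝ} (hW : EB W s) (y : ℝ) : HasCompactSupport (fun u => ((EFF W y u : ℝ) : ℂ)) := by
  apply HasCompactSupport.of_support_subset_isCompact (isCompact_Icc (a := y - s) (b := y + s))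
  intro u hu
  by_contra hcon
  apply hu
  have : s ≤ |u - y| := by
    rw [mem_Icc, not_and_or, not_le, not_le] at hcon
    rcases hcon with h | h
    · rw [abs_sub_comm]
      exact le_trans (by linarith) (le_abs_self _)
    · exact le_trans (by linarith) (le_abs_self _)
  simp only
  rw [EF_zero hW this, Complex.ofReal_zero]

/-- the test function -/
private noncomputable def EFg (W : ℝ → ℝ) (t y u : ℝ) : ℂ :=
  ((W (u - y) * Real.exp (-(u / 2)) : ℝ) : ℂ) * cexp (((-(t * u) : ℝ) : ℂ) * I)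

private theorem EFg_zero {W : ℝ → ℝ} {s : ℝ} (hW : EB W s) {t y u : ℝ} (hu : s ≤ |u - y|) : EFg W t y u = 0 := by
  unfold EFg
  rw [hW.supp _ hu, zero_mul, Complex.ofReal_zero, zero_mul]

private theorem EFg_supp {W : ℝ → ℝ} {s : ℝ} (hW : EB W s) (t y : ℝ) :
    Function.support (EFg W t y) ⊆ Icc (y - s) (y + s) := by
  intro u hu
  by_contra hcon
  apply hu
  apply EFg_zero hW
  rw [mem_Icc, not_and_or, not_le, not_le] at hcon
  rcases hcon with h | h
  · rw [abs_sub_comm]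
    exact le_trans (by linarith) (le_abs_self _)
  · exact le_trans (by linarith) (le_abs_self _)

private theorem EFg_test {W : ℝ → ℝ} {s : ℝ} (hW : EB W s) {y : ℝ} (hy : s < y) (t : ℝ) : Test (EFg W t y) := by
  refine ⟨?_, ?_, ?_⟩
  · have hWs : ContDiff ℝ ∞ (fun u => W (u - y)) := hW.smooth.comp (contDiff_id.sub contDiff_const)
    have h1 : ContDiff ℝ ∞ (fun u : ℝ => W (u - y) * Real.exp (-(u / 2))) :=
      hWs.mul (Real.contDiff_exp.comp (contDiff_id.div_const 2).neg)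
    have h2 : ContDiff ℝ ∞ (fun u : ℝ => ((W (u - y) * Real.exp (-(u / 2)) : ℝ) : ℂ)) :=
      Complex.ofRealCLM.contDiff.comp h1
    have h3 : ContDiff ℝ ∞ (fun u : ℝ => (((-(t * u) : ℝ) : ℂ) * I)) :=
      (Complex.ofRealCLM.contDiff.comp (contDiff_const.mul contDiff_id).neg).mul contDiff_const
    exact h2.mul (Complex.contDiff_exp.comp h3)
  · exact HasCompactSupport.of_support_subset_isCompact isCompact_Icc (EFg_supp hW t y)
  · have h1 : tsupport (EFg W t y) ⊆ Icc (y - s) (y + s) := closure_minimal (EFg_supp hW t y) isClosed_Icc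
    intro u hu
    have := (h1 hu).1
    rw [mem_Ioi]
    linarith

/-- the local transform at a zero -/
private theorem EFg_zero_int {W : ℝ → ℝ} {s : ℝ} (hW : EB W s) (t y γ : ℝ) :
    ∫ u : ℝ, EFg W t y u * cexp ((1 / 2 + γ * I) * u) =
      cexp (((-(t * y) : ℝ) : ℂ) * I) * (cexp (((γ * y : ℝ) : ℂ) * I) * (ck W (t - γ) : ℂ)) := by
  have h1 : (fun u : ℝ => EFg W t y u * cexp ((1 / 2 + γ * I) * u)) =
      fun u : ℝ => (fun v : ℝ => cexp ((((γ - t) * y : ℝ) : ℂ) * I) * ((W v : ℂ) * cexp ((((γ - t) * v : ℝ) : ℂ) * I))) (u - y) := by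
    funext u
    unfold EFg
    simp only
    push_cast
    have e1 : cexp (-(↑t * ↑u) * I) * cexp ((1 / 2 + ↑γ * I) * ↑u) = cexp (↑u / 2) * (cexp ((↑γ - ↑t) * ↑y * I) * cexp ((↑γ - ↑t) * (↑u - ↑y) * I)) := by
      rw [← Complex.exp_add, ← Complex.exp_add, ← Complex.exp_add]
      congr 1
      ring
    have e2 : cexp (-(↑u / 2)) * cexp (↑u / 2) = 1 := by
      rw [← Complex.exp_add, neg_add_cancel, Complex.exp_zero]
    calc (W (u - y) : ℂ) * cexp (-(↑u / 2)) * cexp (-(↑t * ↑u) * I) * cexp ((1 / 2 + ↑γ * I) * ↑u)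
        = (W (u - y) : ℂ) * cexp (-(↑u / 2)) * (cexp (-(↑t * ↑u) * I) * cexp ((1 / 2 + ↑γ * I) * ↑u)) := by ring
      _ = (W (u - y) : ℂ) * (cexp (-(↑u / 2)) * cexp (↑u / 2)) * (cexp ((↑γ - ↑t) * ↑y * I) * cexp ((↑γ - ↑t) * (↑u - ↑y) * I)) := by
          rw [e1]; ring
      _ = cexp ((↑γ - ↑t) * ↑y * I) * ((W (u - y) : ℂ) * cexp ((↑γ - ↑t) * (↑u - ↑y) * I)) := by
          rw [e2]; ring
  rw [h1, integral_sub_right_eq_self (fun v : ℝ => cexp ((((γ - t) * y : ℝ) : ℂ) * I) * ((W v : ℂ) * cexp ((((γ - t) * v : ℝ) : ℂ) * I))) y,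
    integral_const_mul, ck_cexp hW.es]
  have h2 : ck W (γ - t) = ck W (t - γ) := by
    rw [← ck_even]
    congr 1
    ring
  rw [h2]
  have h3 : cexp ((((γ - t) * y : ℝ) : ℂ) * I) = cexp (((-(t * y) : ℝ) : ℂ) * I) * cexp (((γ * y : ℝ) : ℂ) * I) := by
    rw [← Complex.exp_add]
    congr 1
    push_cast
    ring
  rw [h3]
  ring

private theorem EF_identity (hRH : RiemannHypothesis) {W : ℝ → ℝ} {s : ℝ} (hW : EB W s) {y : ℝ} (hy : s < y) (t : ℝ) :
    AA W t y + cexp (((t * y : ℝ) : ℂ) * I) * PP W t y =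
      cexp (((t * y : ℝ) : ℂ) * I) * ∫ u, ((EFF W y u : ℝ) : ℂ) * cexp (((-(t * u) : ℝ) : ℂ) * I) := by
  have hT := EFg_test hW hy t
  have hsum := explicit_formula hT
  have hterm : ∀ a : ℂ, (mx a : ℂ) * ∫ u : ℝ, EFg W t y u * cexp (a * u) =
      cexp (((-(t * y) : ℝ) : ℂ) * I) * ((mx a : ℂ) * (cexp (((a.im * y : ℝ) : ℂ) * I) * (ck W (t - a.im) : ℂ))) := by
    intro a
    by_cases ha : xi a = 0
    · have h1 := re_of_RH hRH ha
      have h2 : ∫ u : ℝ, EFg W t y u * cexp (a * u) = ∫ u : ℝ, EFg W t y u * cexp ((1 / 2 + a.im * I) * u) := by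
        rw [← h1]
      rw [h2, EFg_zero_int hW]
      ring
    · rw [mx_eq_zero ha]
      simp
  have h1 : ∑' a : ℂ, (mx a : ℂ) * ∫ u : ℝ, EFg W t y u * cexp (a * u) = cexp (((-(t * y) : ℝ) : ℂ) * I) * AA W t y := by
    unfold AA
    rw [← tsum_mul_left]
    exact tsum_congr hterm
  have h2 := hsum.tsum_eq
  rw [h1] at h2
  have h3 : ∑' n : ℕ, ((ArithmeticFunction.vonMangoldt n : ℝ) : ℂ) * EFg W t y (Real.log n) = PP W t y := by
    unfold PP
    refine tsum_congr fun n => ?_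
    unfold EFg
    push_cast
    ring
  rw [h3] at h2
  -- the two main terms
  have hi1 : Integrable (fun u : ℝ => EFg W t y u * cexp u) := by
    apply Continuous.integrable_of_hasCompactSupport
    · have := hT.smooth.continuous
      fun_prop
    · exact hT.cpt.mul_right
  have hcF : Continuous (fun u => ((EFF W y u : ℝ) : ℂ)) := Complex.continuous_ofReal.comp (EF_smooth hW hy).continuous
  have hi3 : Integrable (fun u : ℝ => ((EFF W y u : ℝ) : ℂ) * cexp (((-(t * u) : ℝ) : ℂ) * I)) := by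
    apply Continuous.integrable_of_hasCompactSupport
    · fun_prop
    · exact (EF_cpt hW y).mul_right
  have hpt : ∀ u : ℝ, EFg W t y u * (rt u : ℂ) = EFg W t y u * cexp u - ((EFF W y u : ℝ) : ℂ) * cexp (((-(t * u) : ℝ) : ℂ) * I) := by
    intro u
    unfold EFg EFF
    push_cast
    have e2 : cexp (-(↑u / 2)) * cexp ↑u = cexp (↑u / 2) := by
      rw [← Complex.exp_add]
      congr 1
      ring
    rw [← e2]
    ring
  have h4 : (∫ u : ℝ, EFg W t y u * cexp u) - ∫ u : ℝ, EFg W t y u * (rt u : ℂ) =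
      ∫ u, ((EFF W y u : ℝ) : ℂ) * cexp (((-(t * u) : ℝ) : ℂ) * I) := by
    have h5 : ∫ u : ℝ, EFg W t y u * (rt u : ℂ) = (∫ u : ℝ, EFg W t y u * cexp u) -
        ∫ u, ((EFF W y u : ℝ) : ℂ) * cexp (((-(t * u) : ℝ) : ℂ) * I) := by
      rw [← integral_sub hi1 hi3]
      exact integral_congr_ae (Eventually.of_forall hpt)
    rw [h5]
    ring
  rw [h4] at h2
  have h6 : AA W t y = cexp (((t * y : ℝ) : ℂ) * I) * (cexp (((-(t * y) : ℝ) : ℂ) * I) * AA W t y) := by
    rw [← mul_assoc, ← Complex.exp_add]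
    have : ((t * y : ℝ) : ℂ) * I + ((-(t * y) : ℝ) : ℂ) * I = 0 := by
      push_cast
      ring
    rw [this, Complex.exp_zero, one_mul]
  rw [h6, h2]
  ring

theorem ef (hRH : RiemannHypothesis) {W : ℝ → ℝ} {s : ℝ} (hW : EB W s) (hs0 : 0 < s) (hs : s ≤ 3 / 4)
    {u0 : ℝ} (hu0 : s < u0) :
    ∃ C : ℝ, 0 ≤ C ∧ ∀ T y : ℝ, 0 ≤ T → u0 ≤ y →
      ∫ t in (0 : ℝ)..T, ‖AA W t y + cexp (((t * y : ℝ) : ℂ) * I) * PP W t y‖ ^ 2 ≤ C * Real.exp y := by
  set ρ : ℝ := rt (u0 - s) with hρ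
  have hρ0 : 0 ≤ ρ := EF_rt_nonneg (by linarith)
  refine ⟨2 * Real.pi * (2 * s * ((1 + ρ) ^ 2 * Real.exp s)), by positivity, fun T y hT hy => ?_⟩
  have hy' : s < y := by linarith
  obtain ⟨hint, hpl⟩ := plancherel_cs (f := fun u => ((EFF W y u : ℝ) : ℂ))
    (Complex.ofRealCLM.contDiff.comp (EF_smooth hW hy')) (EF_cpt hW y)
  have h1 : ∫ t in (0 : ℝ)..T, ‖AA W t y + cexp (((t * y : ℝ) : ℂ) * I) * PP W t y‖ ^ 2 =
      ∫ t in (0 : ℝ)..T, ‖∫ u, ((EFF W y u : ℝ) : ℂ) * cexp (((-(t * u) : ℝ) : ℂ) * I)‖ ^ 2 := by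
    congr 1
    funext t
    rw [EF_identity hRH hW hy' t, norm_mul, Complex.norm_exp_ofReal_mul_I, one_mul]
  have h2 : ∫ t in (0 : ℝ)..T, ‖∫ u, ((EFF W y u : ℝ) : ℂ) * cexp (((-(t * u) : ℝ) : ℂ) * I)‖ ^ 2 ≤
      ∫ t : ℝ, ‖∫ u, ((EFF W y u : ℝ) : ℂ) * cexp (((-(t * u) : ℝ) : ℂ) * I)‖ ^ 2 := by
    rw [intervalIntegral.integral_of_le hT]
    exact setIntegral_le_integral hint (Eventually.of_forall fun t => by positivity)
  have h3 : ∫ u, ‖((EFF W y u : ℝ) : ℂ)‖ ^ 2 ≤ 2 * s * ((1 + ρ) ^ 2 * Real.exp s) * Real.exp y := by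
    have hz : ∀ u, u ∉ Icc (y - s) (y + s) → ‖((EFF W y u : ℝ) : ℂ)‖ ^ 2 = 0 := by
      intro u hu
      have : s ≤ |u - y| := by
        rw [mem_Icc, not_and_or, not_le, not_le] at hu
        rcases hu with h | h
        · rw [abs_sub_comm]
          exact le_trans (by linarith) (le_abs_self _)
        · exact le_trans (by linarith) (le_abs_self _)
      rw [EF_zero hW this]
      simp
    rw [← setIntegral_eq_integral_of_forall_compl_eq_zero hz]
    have hcF : Continuous (fun u => ((EFF W y u : ℝ) : ℂ)) := Complex.continuous_ofReal.comp (EF_smooth hW hy').continuous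
    calc ∫ u in Icc (y - s) (y + s), ‖((EFF W y u : ℝ) : ℂ)‖ ^ 2
        ≤ ∫ _u in Icc (y - s) (y + s), (1 + ρ) ^ 2 * Real.exp (y + s) := by
          refine setIntegral_mono_on (hcF.norm.pow 2).integrableOn_Icc continuous_const.integrableOn_Icc measurableSet_Icc fun u hu => ?_
          have hu0' : 0 < u := by linarith [hu.1]
          have h4 : 0 ≤ rt u := EF_rt_nonneg hu0'
          have h5 : rt u ≤ ρ := EF_rt_anti (by linarith) (by linarith [hu.1])
          have h6 : Real.exp (-(u / 2)) ≤ 1 := Real.exp_le_one_iff.2 (by linarith)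
          have h7 : 1 ≤ Real.exp (u / 2) := Real.one_le_exp (by linarith)
          have h8 : 0 ≤ Real.exp (-(u / 2)) * rt u := by positivity
          have h9 : Real.exp (-(u / 2)) * rt u ≤ ρ := by
            calc Real.exp (-(u / 2)) * rt u ≤ 1 * ρ := by gcongr
              _ = ρ := one_mul _
          have h10 : |Real.exp (u / 2) - Real.exp (-(u / 2)) * rt u| ≤ (1 + ρ) * Real.exp (u / 2) := by
            rw [abs_le]
            constructor <;> nlinarith
          have h11 : |EFF W y u| ≤ (1 + ρ) * Real.exp (u / 2) := by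
            unfold EFF
            rw [abs_mul, abs_of_nonneg (hW.nonneg _)]
            calc W (u - y) * |Real.exp (u / 2) - Real.exp (-(u / 2)) * rt u| ≤ 1 * ((1 + ρ) * Real.exp (u / 2)) := by
                  gcongr
                  exact hW.le_one _
              _ = (1 + ρ) * Real.exp (u / 2) := one_mul _
          rw [Complex.norm_real, Real.norm_eq_abs]
          calc |EFF W y u| ^ 2 ≤ ((1 + ρ) * Real.exp (u / 2)) ^ 2 := by gcongr
            _ = (1 + ρ) ^ 2 * Real.exp u := by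
                rw [mul_pow, ← Real.exp_nat_mul]
                congr 2
                push_cast
                ring
            _ ≤ (1 + ρ) ^ 2 * Real.exp (y + s) := by
                gcongr
                exact hu.2
      _ = 2 * s * ((1 + ρ) ^ 2 * Real.exp s) * Real.exp y := by
          rw [setIntegral_const, smul_eq_mul, Real.volume_real_Icc_of_le (by linarith), Real.exp_add]
          ring
  rw [h1]
  refine h2.trans ?_
  rw [hpl]
  calc 2 * Real.pi * ∫ u, ‖((EFF W y u : ℝ) : ℂ)‖ ^ 2 ≤ 2 * Real.pi * (2 * s * ((1 + ρ) ^ 2 * Real.exp s) * Real.exp y) := by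
        gcongr
    _ = 2 * Real.pi * (2 * s * ((1 + ρ) ^ 2 * Real.exp s)) * Real.exp y := by ring

end Pool.Agent.Lib.MP_00e05b_nt.Mont
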