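import Pool.Agent.Lib.MP_00e05b_nt.Mont.LocalU
import Pool.Agent.Lib.MP_00e05b_nt.Mont.NT
import Pool.Agent.Lib.MP_00e05b_nt.Mont.BasB

/-!
# JOB Tail: the mass of `‖SS T u‖²` near and beyond `u = L = log T`

Let `W` be an `EB W (1/2)`; since `W = 1` on `[-1/4, 1/4]`, `local_upper` gives for `1 ≤ z ≤ 2L`
`∫_{z-1/4}^{z+1/4} ‖SS T u‖² du ≤ C (T + e^z) (1 + L)`. Cover `[(1-δ)L, L]` by at most `2δL + 2` windows: total
`≤ (2δL + 2) * 2C T (1 + L)`, which divided by `N0 T * L = T L²/(2π)` is `≤ C' δ` for large `T`. For `z ∈ [L, 2L]` the weight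
`e^{-2(u - L)}` times `e^z = T e^{z - L}` is summable over the windows: total `O(T L)`, divided by `N0 T * L`: `→ 0`. For `u ≥ 2L`:
`‖SS T u‖ ≤ NN T ≤ C T L` (`SS_le`, `count_asymp`) and `∫_{2L}^∞ e^{-2(u-L)} du = T^{-2}/2`: total `O(L²)`, divided by
`N0 T * L`: `→ 0`. For `u < 0` use `SS_neg`.
-/

open Complex Set Filter Topology MeasureTheory
open scoped ContDiff

namespace Pool.Agent.Lib.MP_00e05b_nt.Mont

private theorem tl_geom (K : ℕ) : ∑ i ∈ Finset.range K, ((2 : ℝ) / 3) ^ i ≤ 3 := by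
  have h : ∀ K : ℕ, ∑ i ∈ Finset.range K, ((2 : ℝ) / 3) ^ i = 3 - 3 * (2 / 3) ^ K := by
    intro K
    induction K with
    | zero => simp
    | succ n ih =>
      rw [Finset.sum_range_succ, ih, pow_succ]
      ring
  rw [h]
  have : (0 : ℝ) ≤ 3 * (2 / 3) ^ K := by positivity
  linarith

private theorem tl_weights (s : ℝ) (hs : 0 ≤ s) (K : ℕ) :
    ∑ k ∈ Finset.range K, Real.exp (-(max ((k : ℝ) / 2 - s) 0)) ≤ 2 * s + 4 := by
  set m : ℕ := ⌊2 * s⌋₊ + 1 with hm
  have hm1 : (m : ℝ) ≤ 2 * s + 1 := by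
    rw [hm]
    push_cast
    linarith [Nat.floor_le (show 0 ≤ 2 * s by linarith)]
  have hm2 : 2 * s ≤ m := by
    rw [hm]
    push_cast
    exact (Nat.lt_floor_add_one _).le
  have h1 : ∑ k ∈ Finset.range K, Real.exp (-(max ((k : ℝ) / 2 - s) 0)) ≤
      ∑ k ∈ Finset.range (m + K), Real.exp (-(max ((k : ℝ) / 2 - s) 0)) := by
    apply Finset.sum_le_sum_of_subset_of_nonneg
    · intro k hk
      rw [Finset.mem_range] at hk ⊢
      omega
    · intro k _ _
      exact (Real.exp_pos _).le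
  refine h1.trans ?_
  rw [Finset.sum_range_add]
  have h2 : ∑ k ∈ Finset.range m, Real.exp (-(max ((k : ℝ) / 2 - s) 0)) ≤ m := by
    calc _ ≤ ∑ k ∈ Finset.range m, (1 : ℝ) := by
          apply Finset.sum_le_sum
          intro k _
          rw [Real.exp_le_one_iff]
          linarith [le_max_right ((k : ℝ) / 2 - s) 0]
      _ = m := by simp
  have hr : Real.exp (-(1 / 2)) ≤ 2 / 3 := by
    rw [Real.exp_neg]
    have : (3 : ℝ) / 2 ≤ Real.exp (1 / 2) := by
      have := Real.add_one_le_exp ((1 : ℝ) / 2)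
      linarith
    calc (Real.exp (1 / 2))⁻¹ ≤ (3 / 2 : ℝ)⁻¹ := inv_anti₀ (by norm_num) this
      _ = 2 / 3 := by norm_num
  have h3 : ∑ i ∈ Finset.range K, Real.exp (-(max (((m + i : ℕ) : ℝ) / 2 - s) 0)) ≤ 3 := by
    refine le_trans (Finset.sum_le_sum fun i _ => ?_) (tl_geom K)
    calc Real.exp (-(max (((m + i : ℕ) : ℝ) / 2 - s) 0)) ≤ Real.exp ((i : ℝ) * (-(1 / 2))) := by
          apply Real.exp_le_exp.2
          have := le_max_left (((m + i : ℕ) : ℝ) / 2 - s) 0
          push_cast at this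
          push_cast
          linarith
      _ = Real.exp (-(1 / 2)) ^ i := by rw [Real.exp_nat_mul]
      _ ≤ (2 / 3) ^ i := pow_le_pow_left₀ (Real.exp_pos _).le hr i
  linarith

private theorem tl_window {W : ℝ → ℝ} (hW : EB W (1 / 2)) (T y : ℝ) :
    ∫ u in (y - 1 / 4)..(y + 1 / 4), ‖SS T u‖ ^ 2 ≤ ∫ u, W (u - y) ^ 2 * ‖SS T u‖ ^ 2 := by
  have hWc : Continuous W := hW.smooth.continuous
  have hSc := continuous_SS T
  have hcont : Continuous (fun u => W (u - y) ^ 2 * ‖SS T u‖ ^ 2) := by fun_prop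
  have hcomp : HasCompactSupport (fun u => W (u - y) ^ 2 * ‖SS T u‖ ^ 2) := by
    apply HasCompactSupport.of_support_subset_isCompact (isCompact_Icc (a := y - 1 / 2) (b := y + 1 / 2))
    intro u hu
    rw [Function.mem_support] at hu
    by_contra hc
    apply hu
    have : 1 / 2 ≤ |u - y| := by
      rw [mem_Icc, not_and_or, not_le, not_le] at hc
      rcases hc with hc | hc
      · rw [abs_of_neg (by linarith)]; linarith
      · rw [abs_of_pos (by linarith)]; linarith
    rw [hW.supp _ this]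
    simp
  have hint : Integrable (fun u => W (u - y) ^ 2 * ‖SS T u‖ ^ 2) :=
    hcont.integrable_of_hasCompactSupport hcomp
  rw [intervalIntegral.integral_of_le (by linarith)]
  calc ∫ u in Ioc (y - 1 / 4) (y + 1 / 4), ‖SS T u‖ ^ 2
      = ∫ u in Ioc (y - 1 / 4) (y + 1 / 4), W (u - y) ^ 2 * ‖SS T u‖ ^ 2 := by
        apply setIntegral_congr_fun measurableSet_Ioc
        intro u hu
        have : |u - y| ≤ 1 / 2 / 2 := by
          rw [abs_le]
          constructor <;> linarith [hu.1, hu.2]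
        simp only
        rw [hW.one _ this]
        ring
    _ ≤ _ := setIntegral_le_integral hint (Eventually.of_forall fun u => by positivity)

private noncomputable def tlφ (T u : ℝ) : ℝ := ‖SS T u‖ ^ 2 * Real.exp (-(2 * max (|u| - Real.log T) 0))

private theorem tlφ_cont (T : ℝ) : Continuous (tlφ T) := by
  unfold tlφ
  have hSc := continuous_SS T
  fun_prop

private theorem tlφ_nonneg (T u : ℝ) : 0 ≤ tlφ T u := by
  unfold tlφ
  positivity

private theorem tlφ_le (T u : ℝ) : tlφ T u ≤ NN T ^ 2 * Real.exp (2 * Real.log T) * Real.exp (-2 * u) := by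
  unfold tlφ
  rw [mul_assoc, ← Real.exp_add]
  have h1 : ‖SS T u‖ ^ 2 ≤ NN T ^ 2 := pow_le_pow_left₀ (norm_nonneg _) (SS_le T u) 2
  apply mul_le_mul h1 _ (Real.exp_pos _).le (by positivity)
  apply Real.exp_le_exp.2
  have := le_max_left (|u| - Real.log T) 0
  have h2 := le_abs_self u
  linarith

private theorem tlφ_intOn (T c : ℝ) : IntegrableOn (tlφ T) (Ioi c) := by
  have h := (integrableOn_exp_mul_Ioi (a := -2) (by norm_num) c).const_mul (NN T ^ 2 * Real.exp (2 * Real.log T))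
  refine Integrable.mono' h (tlφ_cont T).aestronglyMeasurable (Eventually.of_forall fun u => ?_)
  rw [Real.norm_eq_abs, abs_of_nonneg (tlφ_nonneg T u)]
  exact tlφ_le T u

private theorem tlφ_far (T c : ℝ) :
    ∫ u in Ioi c, tlφ T u ≤ NN T ^ 2 * Real.exp (2 * Real.log T) * (Real.exp (-2 * c) / 2) := by
  have h := (integrableOn_exp_mul_Ioi (a := -2) (by norm_num) c).const_mul (NN T ^ 2 * Real.exp (2 * Real.log T))
  calc ∫ u in Ioi c, tlφ T u ≤ ∫ u in Ioi c, NN T ^ 2 * Real.exp (2 * Real.log T) * Real.exp (-2 * u) :=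
        setIntegral_mono (tlφ_intOn T c) h (fun u => tlφ_le T u)
    _ = _ := by
        rw [integral_const_mul, integral_exp_mul_Ioi (by norm_num)]
        ring

private theorem tl_near {C T a0 : ℝ} (hC : 0 ≤ C) (hT : 2 ≤ T) (ha0 : 1 ≤ a0) (haL : a0 ≤ Real.log T)
    (hloc : ∀ y : ℝ, 1 ≤ y → y ≤ 2 * Real.log T →
      ∫ u in (y - 1 / 4)..(y + 1 / 4), ‖SS T u‖ ^ 2 ≤ C * (T + Real.exp y) * (1 + Real.log T))
    (K : ℕ) (hK : a0 + (K : ℝ) / 2 ≤ 2 * Real.log T) :
    ∫ u in a0..(a0 + (K : ℝ) / 2), tlφ T u ≤ 3 * C * (1 + Real.log T) * T * (2 * (Real.log T - a0) + 4) := by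
  set L : ℝ := Real.log T with hL
  have hT0 : 0 < T := by linarith
  have hexpL : Real.exp L = T := Real.exp_log hT0
  have hSc := continuous_SS T
  have hsum := intervalIntegral.sum_integral_adjacent_intervals (f := tlφ T) (μ := volume)
    (a := fun k : ℕ => a0 + (k : ℝ) / 2) (n := K) (fun k _ => (tlφ_cont T).intervalIntegrable _ _)
  simp only [Nat.cast_zero, zero_div, add_zero] at hsum
  rw [← hsum]
  have hone : ∀ k ∈ Finset.range K, ∫ u in (a0 + (k : ℝ) / 2)..(a0 + ((k + 1 : ℕ) : ℝ) / 2), tlφ T u ≤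
      3 * C * (1 + L) * T * Real.exp (-(max ((k : ℝ) / 2 - (L - a0)) 0)) := by
    intro k hk
    rw [Finset.mem_range] at hk
    have hk1 : ((k : ℝ) + 1) ≤ K := by exact_mod_cast hk
    set ak : ℝ := a0 + (k : ℝ) / 2 with hak
    have hk0 : (0 : ℝ) ≤ k := Nat.cast_nonneg k
    have hak1 : 1 ≤ ak := by rw [hak]; linarith
    have e1 : a0 + ((k + 1 : ℕ) : ℝ) / 2 = ak + 1 / 2 := by rw [hak]; push_cast; ring
    rw [e1]
    set xp : ℝ := max ((k : ℝ) / 2 - (L - a0)) 0 with hxp
    have hxp' : xp = max (ak - L) 0 := by rw [hxp, hak]; congr 1; ring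
    have hxp0 : 0 ≤ xp := le_max_right _ _
    have hl := hloc (ak + 1 / 4) (by linarith) (by rw [hak]; linarith)
    have e2 : ak + 1 / 4 - 1 / 4 = ak := by ring
    have e3 : ak + 1 / 4 + 1 / 4 = ak + 1 / 2 := by ring
    rw [e2, e3] at hl
    have hstep : ∫ u in ak..(ak + 1 / 2), tlφ T u ≤
        ∫ u in ak..(ak + 1 / 2), Real.exp (-(2 * xp)) * ‖SS T u‖ ^ 2 := by
      apply intervalIntegral.integral_mono_on (by linarith) ((tlφ_cont T).intervalIntegrable _ _)
      · apply Continuous.intervalIntegrable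
        fun_prop
      · intro u hu
        unfold tlφ
        rw [mul_comm]
        apply mul_le_mul_of_nonneg_right _ (by positivity)
        apply Real.exp_le_exp.2
        have : xp ≤ max (|u| - L) 0 := by
          rw [hxp']
          apply max_le_max _ le_rfl
          linarith [hu.1, le_abs_self u]
        linarith
    rw [intervalIntegral.integral_const_mul] at hstep
    refine hstep.trans ?_
    have h14 : Real.exp (1 / 4) ≤ 2 := by
      have h1 := Real.add_one_le_exp (-(1 / 4) : ℝ)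
      have h2 : Real.exp (1 / 4) * Real.exp (-(1 / 4)) = 1 := by rw [← Real.exp_add]; norm_num
      have h3 := Real.exp_pos (1 / 4)
      nlinarith
    have hexp : Real.exp (ak + 1 / 4) ≤ 2 * (T * Real.exp xp) := by
      have h1 : ak + 1 / 4 ≤ L + xp + 1 / 4 := by
        have := le_max_left (ak - L) 0
        rw [hxp']
        linarith
      calc Real.exp (ak + 1 / 4) ≤ Real.exp (L + xp + 1 / 4) := Real.exp_le_exp.2 h1
        _ = T * Real.exp xp * Real.exp (1 / 4) := by rw [Real.exp_add, Real.exp_add, hexpL]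
        _ ≤ T * Real.exp xp * 2 := mul_le_mul_of_nonneg_left h14 (by positivity)
        _ = _ := by ring
    have hL0 : 0 ≤ 1 + L := by linarith
    have hE1 : Real.exp (-(2 * xp)) ≤ Real.exp (-xp) := Real.exp_le_exp.2 (by linarith)
    have hE2 : Real.exp (-(2 * xp)) * Real.exp xp = Real.exp (-xp) := by
      rw [← Real.exp_add]; congr 1; ring
    calc Real.exp (-(2 * xp)) * ∫ u in ak..(ak + 1 / 2), ‖SS T u‖ ^ 2
        ≤ Real.exp (-(2 * xp)) * (C * (T + Real.exp (ak + 1 / 4)) * (1 + L)) :=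
          mul_le_mul_of_nonneg_left hl (Real.exp_pos _).le
      _ ≤ Real.exp (-(2 * xp)) * (C * (T + 2 * (T * Real.exp xp)) * (1 + L)) := by
          apply mul_le_mul_of_nonneg_left _ (Real.exp_pos _).le
          apply mul_le_mul_of_nonneg_right _ hL0
          exact mul_le_mul_of_nonneg_left (by linarith) hC
      _ = C * (1 + L) * T * (Real.exp (-(2 * xp)) + 2 * (Real.exp (-(2 * xp)) * Real.exp xp)) := by ring
      _ ≤ C * (1 + L) * T * (Real.exp (-xp) + 2 * Real.exp (-xp)) := by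
          rw [hE2]
          apply mul_le_mul_of_nonneg_left _ (by positivity)
          linarith
      _ = _ := by ring
  refine (Finset.sum_le_sum hone).trans ?_
  rw [← Finset.mul_sum]
  apply mul_le_mul_of_nonneg_left _ (by
    have : 0 ≤ 1 + L := by linarith
    positivity)
  exact tl_weights (L - a0) (by linarith) K

theorem tail (hRH : RiemannHypothesis) :
    ∃ C : ℝ, 0 ≤ C ∧ ∀ δ : ℝ, 0 < δ → δ ≤ 1 / 2 → ∀ᶠ T : ℝ in atTop,
      (N0 T * Real.log T)⁻¹ * ∫ u in {u : ℝ | (1 - δ) * Real.log T ≤ |u|},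
        ‖SS T u‖ ^ 2 * Real.exp (-(2 * max (|u| - Real.log T) 0)) ≤ C * δ := by
  obtain ⟨W, hW⟩ := exists_EB (1 / 2) (by norm_num)
  obtain ⟨C, hC, hloc⟩ := local_upper hRH hW (by norm_num) (by norm_num) (u0 := 1) (by norm_num)
  obtain ⟨C', hC', hcount⟩ := count_asymp hRH
  refine ⟨4 * Real.pi * (18 * C + 1), by positivity, fun δ hδ hδ2 => ?_⟩
  have hlogev : Tendsto Real.log atTop atTop := Real.tendsto_log_atTop
  filter_upwards [hlogev.eventually_ge_atTop 2, hlogev.eventually_ge_atTop (4 / δ), eventually_ge_atTop 2,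
    eventually_ge_atTop (2 * (1 + C') ^ 2 / δ)] with T hL2 hLδ hT2 hTδ
  set L : ℝ := Real.log T with hL
  have hT0 : 0 < T := by linarith
  have hL0 : 0 < L := by linarith
  have hexpL : Real.exp L = T := Real.exp_log hT0
  set b : ℝ := (1 - δ) * L with hb
  have hb1 : 1 ≤ b := by rw [hb]; nlinarith
  have hbL : b ≤ L := by rw [hb]; nlinarith
  -- reduction to the half line
  have hset : {u : ℝ | b ≤ |u|} = Ici b ∪ Iic (-b) := by
    ext u
    show b ≤ |u| ↔ (b ≤ u ∨ u ≤ -b)
    rw [le_abs]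
    constructor
    · rintro (h | h)
      · exact Or.inl h
      · exact Or.inr (by linarith)
    · rintro (h | h)
      · exact Or.inl h
      · exact Or.inr (by linarith)
  have heven : ∀ u, tlφ T (-u) = tlφ T u := by
    intro u
    unfold tlφ
    rw [SS_neg, abs_neg]
  have hI1 : ∫ u in Ici b, tlφ T u = ∫ u in Ioi b, tlφ T u := integral_Ici_eq_integral_Ioi
  have hI2 : ∫ u in Iic (-b), tlφ T u = ∫ u in Ioi b, tlφ T u := by
    have := integral_comp_neg_Iic (-b) (tlφ T)
    rw [neg_neg] at this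
    rw [← this]
    simp only [heven]
  have hint1 : IntegrableOn (tlφ T) (Ici b) := by
    rw [integrableOn_Ici_iff_integrableOn_Ioi]
    exact tlφ_intOn T b
  have hint2 : IntegrableOn (tlφ T) (Iic (-b)) := by
    have h1 : IntegrableOn (tlφ T) (Ici b) := hint1
    have h2 := h1.comp_neg
    rw [Set.neg_Ici] at h2
    refine h2.congr (Eventually.of_forall fun u => ?_)
    exact heven u
  have hdisj : Disjoint (Ici b) (Iic (-b)) := by
    rw [Set.disjoint_left]
    intro u h1 h2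
    have h1' : b ≤ u := h1
    have h2' : u ≤ -b := h2
    linarith
  have hA : ∫ u in {u : ℝ | b ≤ |u|}, tlφ T u = 2 * ∫ u in Ioi b, tlφ T u := by
    rw [hset, setIntegral_union hdisj measurableSet_Iic hint1 hint2, hI1, hI2]
    ring
  -- the windows
  set K : ℕ := ⌊2 * (2 * L - b)⌋₊ with hK
  have hpos : 0 ≤ 2 * (2 * L - b) := by linarith
  have hK1 : (K : ℝ) ≤ 2 * (2 * L - b) := Nat.floor_le hpos
  have hK2 : 2 * (2 * L - b) < K + 1 := Nat.lt_floor_add_one _
  have hnear := tl_near hC hT2 hb1 hbL (fun y h1 h2 => (tl_window hW T y).trans (hloc T y hT2 h1 h2)) K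
    (by linarith)
  have hbe : b ≤ b + (K : ℝ) / 2 := by linarith [(Nat.cast_nonneg K : (0 : ℝ) ≤ K)]
  have hsplit : ∫ u in Ioi b, tlφ T u = (∫ u in b..(b + (K : ℝ) / 2), tlφ T u) +
      ∫ u in Ioi (b + (K : ℝ) / 2), tlφ T u := by
    rw [intervalIntegral.integral_of_le hbe, ← setIntegral_union (Ioc_disjoint_Ioi le_rfl) measurableSet_Ioi
      ((tlφ_intOn T b).mono_set Ioc_subset_Ioi_self) (tlφ_intOn T _), Ioc_union_Ioi_eq_Ioi hbe]
  have hfar := tlφ_far T (b + (K : ℝ) / 2)
  have hNN0 : 0 ≤ NN T := by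
    unfold NN
    exact Finset.sum_nonneg fun _ _ => Nat.cast_nonneg _
  have hNN : NN T ≤ T * L * (1 + C') := by
    have h1 := (abs_le.1 (hcount T hT2)).2
    have h2 : N0 T ≤ T * L := by
      unfold N0
      have h3 : T / (2 * Real.pi) ≤ T := by
        apply div_le_self hT0.le
        linarith [Real.pi_gt_three]
      exact mul_le_mul_of_nonneg_right h3 hL0.le
    have h4 : C' * T ≤ T * L * C' := by
      have : T * C' * 1 ≤ T * C' * L := mul_le_mul_of_nonneg_left (by linarith) (by positivity)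
      nlinarith
    nlinarith
  have hfar2 : ∫ u in Ioi (b + (K : ℝ) / 2), tlφ T u ≤ 2 * L ^ 2 * (1 + C') ^ 2 := by
    refine hfar.trans ?_
    have h1 : Real.exp (-2 * (b + (K : ℝ) / 2)) ≤ Real.exp (1 - 4 * L) := by
      apply Real.exp_le_exp.2
      linarith
    have h2 : Real.exp (2 * L) * Real.exp (1 - 4 * L) = Real.exp 1 * (Real.exp L ^ 2)⁻¹ := by
      rw [← Real.exp_add, ← Real.exp_nat_mul, ← Real.exp_neg, ← Real.exp_add]
      congr 1
      push_cast
      ring
    have h3 : Real.exp 1 ≤ 4 := by linarith [Real.exp_one_lt_d9]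
    calc NN T ^ 2 * Real.exp (2 * Real.log T) * (Real.exp (-2 * (b + (K : ℝ) / 2)) / 2)
        ≤ NN T ^ 2 * Real.exp (2 * L) * (Real.exp (1 - 4 * L) / 2) := by
          apply mul_le_mul_of_nonneg_left _ (by positivity)
          linarith
      _ = NN T ^ 2 * (Real.exp (2 * L) * Real.exp (1 - 4 * L)) / 2 := by ring
      _ = NN T ^ 2 * (Real.exp 1 * (T ^ 2)⁻¹) / 2 := by rw [h2, hexpL]
      _ ≤ (T * L * (1 + C')) ^ 2 * (4 * (T ^ 2)⁻¹) / 2 := by
          apply div_le_div_of_nonneg_right _ (by norm_num)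
          apply mul_le_mul (pow_le_pow_left₀ hNN0 hNN 2) _ (by positivity) (by positivity)
          exact mul_le_mul_of_nonneg_right h3 (by positivity)
      _ = _ := by
          field_simp
          ring
  have hgoal : (N0 T * L)⁻¹ * ∫ u in {u : ℝ | b ≤ |u|}, tlφ T u ≤ 4 * Real.pi * (18 * C + 1) * δ := by
    rw [hA, hsplit]
    have hN : N0 T * L = T * L ^ 2 / (2 * Real.pi) := by
      unfold N0
      rw [← hL]
      ring
    have hpi := Real.pi_pos
    have h1 : 2 * ((∫ u in b..(b + (K : ℝ) / 2), tlφ T u) + ∫ u in Ioi (b + (K : ℝ) / 2), tlφ T u) ≤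
        2 * (3 * C * (1 + L) * T * (2 * (L - b) + 4) + 2 * L ^ 2 * (1 + C') ^ 2) := by linarith
    have h2 : 3 * C * (1 + L) * T * (2 * (L - b) + 4) ≤ 18 * C * δ * (T * L ^ 2) := by
      have g1 : L - b = δ * L := by rw [hb]; ring
      have g2 : 4 ≤ δ * L := by
        rw [div_le_iff₀ hδ] at hLδ
        linarith
      have g3 : 2 * (L - b) + 4 ≤ 3 * (δ * L) := by rw [g1]; linarith
      have g4 : 1 + L ≤ 2 * L := by linarith
      calc 3 * C * (1 + L) * T * (2 * (L - b) + 4) ≤ 3 * C * (1 + L) * T * (3 * (δ * L)) :=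
            mul_le_mul_of_nonneg_left g3 (by positivity)
        _ = 9 * C * T * δ * L * (1 + L) := by ring
        _ ≤ 9 * C * T * δ * L * (2 * L) := mul_le_mul_of_nonneg_left g4 (by positivity)
        _ = _ := by ring
    have h3 : 2 * L ^ 2 * (1 + C') ^ 2 ≤ δ * (T * L ^ 2) := by
      have g1 : 2 * (1 + C') ^ 2 ≤ T * δ := by
        rw [div_le_iff₀ hδ] at hTδ
        exact hTδ
      have : 2 * (1 + C') ^ 2 * L ^ 2 ≤ T * δ * L ^ 2 := mul_le_mul_of_nonneg_right g1 (by positivity)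
      linarith
    have h4 : 2 * ((∫ u in b..(b + (K : ℝ) / 2), tlφ T u) + ∫ u in Ioi (b + (K : ℝ) / 2), tlφ T u) ≤
        2 * (18 * C + 1) * δ * (T * L ^ 2) := by
      refine h1.trans ?_
      nlinarith
    rw [hN]
    calc (T * L ^ 2 / (2 * Real.pi))⁻¹ *
        (2 * ((∫ u in b..(b + (K : ℝ) / 2), tlφ T u) + ∫ u in Ioi (b + (K : ℝ) / 2), tlφ T u))
        ≤ (T * L ^ 2 / (2 * Real.pi))⁻¹ * (2 * (18 * C + 1) * δ * (T * L ^ 2)) :=
          mul_le_mul_of_nonneg_left h4 (by positivity)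
      _ = _ := by
          field_simp
          ring
  exact hgoal

end Pool.Agent.Lib.MP_00e05b_nt.Mont
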