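import Pool.Agent.Lib.MP_00e05b_nt.Mont.Mass
import Pool.Agent.Lib.MP_00e05b_nt.Mont.Tail

/-!
# JOB FMass: the mass function of `F(α, T)` on `[-1, 1]` (Montgomery's theorem, integrated)

By `FF_eq` and Fubini, with `L = log T`,
`∫_{-x}^{x} FF α T dα = (N0 T * L)⁻¹ ∫ ‖SS T u‖² K u du`, `K u = ∫_{-xL}^{xL} e^{-2|u - w|} dw`, `0 ≤ K ≤ 1`, and for `η > 0`
`K u ≥ 1 - e^{-2ηL}` for `|u| ≤ (x - η) L`, `K u ≤ e^{-2(|u| - xL)}` for `|u| ≥ x L`.
* Lower bound (all `x ≤ 1`): `≥ (1 - e^{-2ηL}) m([-(x-η)L, (x-η)L]) → 1 + (x-η)²` (`mass_main`).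
* Upper bound, `x < 1`: `≤ m([-(x+η)L, (x+η)L]) + (rest)`, where for `|u| ≥ (x+η)L` we have
  `e^{-2(|u| - xL)} ≤ e^{-2ηL}` if `|u| ≤ L` (mass bounded by `mass_main` and `tail`) and `≤ e^{-2(|u| - L)} e^{-2(1-x)L}` if
  `|u| ≥ L` (`tail`).
* Upper bound, `x = 1`: `≤ m([-(1-δ)L, (1-δ)L]) + C δ` by `mass_main`, `tail`; let `δ → 0`.
-/

open Complex Set Filter Topology MeasureTheory
open scoped ContDiff

namespace Pool.Agent.Lib.MP_00e05b_nt.Mont

private lemma fm_k1 {p q u : ℝ} (hpq : p ≤ q) (hq : q ≤ u) :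
    ∫ w in p..q, Real.exp (-(2 * |u - w|)) = (Real.exp (-(2 * (u - q))) - Real.exp (-(2 * (u - p)))) / 2 := by
  have h1 : ∫ w in p..q, Real.exp (-(2 * |u - w|)) = ∫ w in p..q, Real.exp (-(2 * (u - w))) := by
    apply intervalIntegral.integral_congr
    intro w hw
    rw [Set.uIcc_of_le hpq] at hw
    have : 0 ≤ u - w := by linarith [hw.2]
    simp only [abs_of_nonneg this]
  rw [h1]
  have hF : ∀ w ∈ Set.uIcc p q, HasDerivAt (fun w => Real.exp (-(2 * (u - w))) / 2) (Real.exp (-(2 * (u - w)))) w := by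
    intro w _
    have h2 : HasDerivAt (fun w : ℝ => -(2 * (u - w))) 2 w := by
      have h : HasDerivAt (fun w : ℝ => -(2 * (u - w))) (-(2 * (-1))) w := (((hasDerivAt_id w).const_sub u).const_mul 2).neg
      rw [show (-(2 * (-1 : ℝ))) = 2 by norm_num] at h
      exact h
    have h3 := h2.exp.div_const 2
    have h4 : Real.exp (-(2 * (u - w))) * 2 / 2 = Real.exp (-(2 * (u - w))) := by ring
    rw [h4] at h3
    exact h3
  rw [intervalIntegral.integral_eq_sub_of_hasDerivAt hF (Continuous.intervalIntegrable (by fun_prop) _ _)]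
  ring

private lemma fm_k2 {p q u : ℝ} (hpq : p ≤ q) (hp : u ≤ p) :
    ∫ w in p..q, Real.exp (-(2 * |u - w|)) = (Real.exp (-(2 * (p - u))) - Real.exp (-(2 * (q - u)))) / 2 := by
  have h1 : ∫ w in p..q, Real.exp (-(2 * |u - w|)) = ∫ w in p..q, Real.exp (-(2 * (w - u))) := by
    apply intervalIntegral.integral_congr
    intro w hw
    rw [Set.uIcc_of_le hpq] at hw
    have h0 : u - w ≤ 0 := by linarith [hw.1]
    have h2 : |u - w| = w - u := by rw [abs_of_nonpos h0]; ring
    simp only [h2]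
  rw [h1]
  have hF : ∀ w ∈ Set.uIcc p q, HasDerivAt (fun w => -(Real.exp (-(2 * (w - u))) / 2)) (Real.exp (-(2 * (w - u)))) w := by
    intro w _
    have h2 : HasDerivAt (fun w : ℝ => -(2 * (w - u))) (-2) w := by
      have h : HasDerivAt (fun w : ℝ => -(2 * (w - u))) (-(2 * 1)) w := (((hasDerivAt_id w).sub_const u).const_mul 2).neg
      rw [show (-(2 * (1 : ℝ))) = -2 by norm_num] at h
      exact h
    have h3 := (h2.exp.div_const 2).neg
    have h4 : -(Real.exp (-(2 * (w - u))) * (-2) / 2) = Real.exp (-(2 * (w - u))) := by ring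
    rw [h4] at h3
    exact h3
  rw [intervalIntegral.integral_eq_sub_of_hasDerivAt hF (Continuous.intervalIntegrable (by fun_prop) _ _)]
  ring

/-- The kernel `K`. -/
private noncomputable def fmK (a u : ℝ) : ℝ := ∫ w in (-a)..a, Real.exp (-(2 * |u - w|))

private lemma fmK_mid {a u : ℝ} (h : |u| ≤ a) :
    fmK a u = 1 - (Real.exp (-(2 * (a - u))) + Real.exp (-(2 * (a + u)))) / 2 := by
  obtain ⟨h1, h2⟩ := abs_le.mp h
  unfold fmK
  have hI : ∀ p q : ℝ, IntervalIntegrable (fun w => Real.exp (-(2 * |u - w|))) volume p q :=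
    fun p q => Continuous.intervalIntegrable (by fun_prop) _ _
  rw [← intervalIntegral.integral_add_adjacent_intervals (hI (-a) u) (hI u a), fm_k1 h1 le_rfl, fm_k2 h2 le_rfl]
  simp only [sub_self, mul_zero, neg_zero, Real.exp_zero]
  rw [show u - -a = a + u by ring]
  ring

private lemma fmK_right {a u : ℝ} (ha : 0 ≤ a) (h : a ≤ u) :
    fmK a u = (Real.exp (-(2 * (u - a))) - Real.exp (-(2 * (u + a)))) / 2 := by
  unfold fmK
  rw [fm_k1 (by linarith) h, show u - -a = u + a by ring]

private lemma fmK_left {a u : ℝ} (ha : 0 ≤ a) (h : u ≤ -a) :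
    fmK a u = (Real.exp (-(2 * (-a - u))) - Real.exp (-(2 * (a - u)))) / 2 := by
  unfold fmK
  rw [fm_k2 (by linarith) h]

private lemma fmK_nonneg {a : ℝ} (ha : 0 ≤ a) (u : ℝ) : 0 ≤ fmK a u := by
  unfold fmK
  exact intervalIntegral.integral_nonneg (by linarith) fun w _ => (Real.exp_pos _).le

private lemma fmK_le {a : ℝ} (ha : 0 ≤ a) (u : ℝ) : fmK a u ≤ Real.exp (-(2 * max (|u| - a) 0)) := by
  rcases le_total |u| a with h | h
  · rw [fmK_mid h, max_eq_right (by linarith), mul_zero, neg_zero, Real.exp_zero]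
    have h1 := Real.exp_pos (-(2 * (a - u)))
    have h2 := Real.exp_pos (-(2 * (a + u)))
    linarith
  · rw [max_eq_left (by linarith)]
    rcases le_total 0 u with hu | hu
    · rw [abs_of_nonneg hu] at h ⊢
      rw [fmK_right ha h]
      have h1 := Real.exp_pos (-(2 * (u - a)))
      have h2 := Real.exp_pos (-(2 * (u + a)))
      linarith
    · rw [abs_of_nonpos hu] at h ⊢
      rw [fmK_left ha (by linarith)]
      have h1 := Real.exp_pos (-(2 * (-a - u)))
      have h2 := Real.exp_pos (-(2 * (a - u)))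
      rw [show -u - a = -a - u by ring]
      linarith

private lemma fmK_ge {a t u : ℝ} (ht : 0 ≤ t) (h : |u| ≤ a - t) : 1 - Real.exp (-(2 * t)) ≤ fmK a u := by
  rw [fmK_mid (by linarith)]
  obtain ⟨h1, h2⟩ := abs_le.mp h
  have h3 : Real.exp (-(2 * (a - u))) ≤ Real.exp (-(2 * t)) := Real.exp_le_exp.mpr (by linarith)
  have h4 : Real.exp (-(2 * (a + u))) ≤ Real.exp (-(2 * t)) := Real.exp_le_exp.mpr (by linarith)
  linarith

private lemma fmK_continuous (a : ℝ) : Continuous (fmK a) := by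
  unfold fmK
  apply intervalIntegral.continuous_parametric_intervalIntegral_of_continuous'
  fun_prop

private lemma fm_expmax_integrable (a : ℝ) : Integrable (fun u : ℝ => Real.exp (-(2 * max (|u| - a) 0))) := by
  have h1 : Integrable (fun u : ℝ => Real.exp (2 * a) * Real.exp (-(2 * |u|))) := exp_abs_integrable.const_mul _
  refine h1.mono' (Continuous.aestronglyMeasurable (by fun_prop)) (Eventually.of_forall fun u => ?_)
  rw [Real.norm_eq_abs, Real.abs_exp, ← Real.exp_add]
  apply Real.exp_le_exp.mpr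
  have := le_max_left (|u| - a) 0
  linarith

private lemma fm_SE_integrable (T : ℝ) {k : ℝ → ℝ} (hk : Continuous k) (a : ℝ) (hk0 : ∀ u, 0 ≤ k u)
    (hka : ∀ u, k u ≤ Real.exp (-(2 * max (|u| - a) 0))) : Integrable (fun u => ‖SS T u‖ ^ 2 * k u) := by
  have h1 : Integrable (fun u : ℝ => (∑ γ ∈ ordinates T, (mult γ : ℝ)) ^ 2 * Real.exp (-(2 * max (|u| - a) 0))) :=
    (fm_expmax_integrable a).const_mul _
  have hc := continuous_SS T
  refine h1.mono' (Continuous.aestronglyMeasurable (by fun_prop)) (Eventually.of_forall fun u => ?_)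
  rw [Real.norm_eq_abs, abs_of_nonneg (mul_nonneg (by positivity) (hk0 u))]
  have h2 : ‖SS T u‖ ^ 2 ≤ (∑ γ ∈ ordinates T, (mult γ : ℝ)) ^ 2 :=
    pow_le_pow_left₀ (norm_nonneg _) (SS_bound T u) 2
  exact mul_le_mul h2 (hka u) (hk0 u) (by positivity)

/-- The integral of `FF` in terms of the kernel. -/
private lemma fm_formula {T x : ℝ} (hT : 1 < T) (hx : 0 ≤ x) :
    ∫ α in (-x)..x, FF α T = (N0 T * Real.log T)⁻¹ * ∫ u, ‖SS T u‖ ^ 2 * fmK (x * Real.log T) u := by
  have hL : 0 < Real.log T := Real.log_pos hT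
  have hc := continuous_SS T
  set L := Real.log T with hLdef
  have h1 : ∀ α : ℝ, FF α T = (N0 T)⁻¹ * ∫ u : ℝ, ‖SS T u‖ ^ 2 * Real.exp (-(2 * |u - α * L|)) := by
    intro α
    rw [FF_eq (by linarith) α]
    congr 1
    rw [← integral_add_left_eq_self (fun u : ℝ => ‖SS T u‖ ^ 2 * Real.exp (-(2 * |u - α * L|))) (α * L)]
    congr 1
    funext v
    rw [add_sub_cancel_left]
  have h2 : ∫ α in (-x)..x, FF α T = (N0 T)⁻¹ * ∫ α in Ioc (-x) x, ∫ u : ℝ, ‖SS T u‖ ^ 2 * Real.exp (-(2 * |u - α * L|)) := by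
    rw [intervalIntegral.integral_of_le (by linarith), ← integral_const_mul]
    simp only [h1]
  have hint : Integrable (Function.uncurry fun (α u : ℝ) => ‖SS T u‖ ^ 2 * Real.exp (-(2 * |u - α * L|)))
      ((volume.restrict (Ioc (-x) x)).prod volume) := by
    have h3 : Integrable (fun p : ℝ × ℝ => (fun _ : ℝ => (∑ γ ∈ ordinates T, (mult γ : ℝ)) ^ 2 * Real.exp (2 * (x * L))) p.1 *
        (fun u : ℝ => Real.exp (-(2 * |u|))) p.2) ((volume.restrict (Ioc (-x) x)).prod volume) :=
      Integrable.mul_prod (integrable_const _) exp_abs_integrable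
    refine Integrable.mono' h3 (Continuous.aestronglyMeasurable (by fun_prop)) ?_
    have hset : ∀ᵐ p ∂((volume.restrict (Ioc (-x) x)).prod (volume : Measure ℝ)), p.1 ∈ Ioc (-x) x := by
      have h4 : ∀ᵐ α ∂(volume.restrict (Ioc (-x) x)), α ∈ Ioc (-x) x := ae_restrict_mem measurableSet_Ioc
      exact Measure.quasiMeasurePreserving_fst.ae h4
    filter_upwards [hset] with p hp
    simp only [Function.uncurry]
    rw [Real.norm_eq_abs, abs_of_nonneg (by positivity), mul_assoc, ← Real.exp_add]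
    have h5 : ‖SS T p.2‖ ^ 2 ≤ (∑ γ ∈ ordinates T, (mult γ : ℝ)) ^ 2 :=
      pow_le_pow_left₀ (norm_nonneg _) (SS_bound T p.2) 2
    have h6 : Real.exp (-(2 * |p.2 - p.1 * L|)) ≤ Real.exp (2 * (x * L) + -(2 * |p.2|)) := by
      apply Real.exp_le_exp.mpr
      have h7 : |p.1| ≤ x := abs_le.mpr ⟨hp.1.le, hp.2⟩
      have h8 : |p.2| ≤ |p.2 - p.1 * L| + |p.1 * L| := by
        calc |p.2| = |(p.2 - p.1 * L) + p.1 * L| := by congr 1; ring
          _ ≤ _ := abs_add_le _ _
      have h9 : |p.1 * L| ≤ x * L := by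
        rw [abs_mul, abs_of_pos hL]
        exact mul_le_mul_of_nonneg_right h7 hL.le
      linarith
    exact mul_le_mul h5 h6 (Real.exp_pos _).le (by positivity)
  rw [h2, integral_integral_swap hint]
  have h3 : ∀ u : ℝ, ∫ α in Ioc (-x) x, ‖SS T u‖ ^ 2 * Real.exp (-(2 * |u - α * L|)) = L⁻¹ * (‖SS T u‖ ^ 2 * fmK (x * L) u) := by
    intro u
    rw [integral_const_mul, ← intervalIntegral.integral_of_le (by linarith)]
    have h4 := intervalIntegral.integral_comp_mul_right (a := -x) (b := x) (fun w => Real.exp (-(2 * |u - w|))) hL.ne'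
    rw [h4, smul_eq_mul, fmK, neg_mul]
    ring
  simp only [h3]
  rw [integral_const_mul, mul_inv]
  ring

/-- Splitting an integral at `|u| = b`, upper bound. -/
private lemma fm_split {S k E : ℝ → ℝ} {b c : ℝ} (hb : 0 ≤ b) (hS : ∀ u, 0 ≤ S u) (hSc : Continuous S)
    (hk1 : ∀ u, k u ≤ 1) (hkE : ∀ u, b ≤ |u| → k u ≤ c * E u) (hSk : Integrable (fun u => S u * k u))
    (hSE : Integrable (fun u => S u * E u)) :
    ∫ u, S u * k u ≤ (∫ u in (-b)..b, S u) + c * ∫ u in {u : ℝ | b ≤ |u|}, S u * E u := by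
  have hms : MeasurableSet {u : ℝ | b ≤ |u|} := measurableSet_le measurable_const (by fun_prop)
  rw [← integral_add_compl hms hSk, add_comm]
  refine add_le_add ?_ ?_
  · have hcompl : {u : ℝ | b ≤ |u|}ᶜ = Ioo (-b) b := by
      ext u
      rw [Set.mem_compl_iff, Set.mem_ofPred_eq, not_le, abs_lt, Set.mem_Ioo]
    rw [hcompl, intervalIntegral.integral_of_le (by linarith), integral_Ioc_eq_integral_Ioo]
    refine setIntegral_mono_on hSk.integrableOn ?_ measurableSet_Ioo fun u _ => ?_
    · exact (hSc.integrableOn_Icc (a := -b) (b := b)).mono_set Ioo_subset_Icc_self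
    · calc S u * k u ≤ S u * 1 := mul_le_mul_of_nonneg_left (hk1 u) (hS u)
        _ = S u := mul_one _
  · rw [← integral_const_mul]
    refine setIntegral_mono_on hSk.integrableOn (hSE.const_mul c).integrableOn hms fun u hu => ?_
    calc S u * k u ≤ S u * (c * E u) := mul_le_mul_of_nonneg_left (hkE u hu) (hS u)
      _ = c * (S u * E u) := by ring

/-- Lower bound. -/
private lemma fm_low {S k : ℝ → ℝ} {b e : ℝ} (hb : 0 ≤ b) (hS : ∀ u, 0 ≤ S u) (hSc : Continuous S)
    (hk0 : ∀ u, 0 ≤ k u) (hk : ∀ u, |u| ≤ b → e ≤ k u) (hSk : Integrable (fun u => S u * k u)) :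
    e * (∫ u in (-b)..b, S u) ≤ ∫ u, S u * k u := by
  have h1 : ∫ u in Ioc (-b) b, S u * k u ≤ ∫ u, S u * k u :=
    setIntegral_le_integral hSk (Eventually.of_forall fun u => mul_nonneg (hS u) (hk0 u))
  refine le_trans ?_ h1
  rw [intervalIntegral.integral_of_le (by linarith), ← integral_const_mul]
  have hI : IntegrableOn S (Ioc (-b) b) := (hSc.integrableOn_Icc (a := -b) (b := b)).mono_set Ioc_subset_Icc_self
  refine setIntegral_mono_on (hI.const_mul e) hSk.integrableOn measurableSet_Ioc fun u hu => ?_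
  rw [mul_comm e]
  exact mul_le_mul_of_nonneg_left (hk u (abs_le.mpr ⟨hu.1.le, hu.2⟩)) (hS u)

private lemma fm_N0L_pos {T : ℝ} (hT : 1 < T) : 0 < (N0 T * Real.log T)⁻¹ :=
  inv_pos.mpr (mul_pos (N0_pos hT) (Real.log_pos hT))

private lemma fm_Q (hRH : RiemannHypothesis) : ∃ A : ℝ, 0 ≤ A ∧ ∀ᶠ T : ℝ in atTop,
    (N0 T * Real.log T)⁻¹ * ∫ u, ‖SS T u‖ ^ 2 * Real.exp (-(2 * max (|u| - Real.log T) 0)) ≤ A := by
  obtain ⟨C, hC, htail⟩ := tail hRH
  refine ⟨2 + C, by linarith, ?_⟩
  have h1 := mass_main hRH (x := 1 / 2) (by norm_num) (by norm_num)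
  have h2 := (tendsto_order.1 h1).2 2 (by norm_num)
  filter_upwards [h2, htail (1 / 2) (by norm_num) le_rfl, eventually_gt_atTop 1] with T hm ht hT
  have hL : 0 < Real.log T := Real.log_pos hT
  have hc := continuous_SS T
  have hE : Continuous (fun u : ℝ => Real.exp (-(2 * max (|u| - Real.log T) 0))) := by fun_prop
  have hSE := fm_SE_integrable T hE (Real.log T) (fun u => (Real.exp_pos _).le) (fun u => le_rfl)
  have h3 := fm_split (S := fun u => ‖SS T u‖ ^ 2) (k := fun u => Real.exp (-(2 * max (|u| - Real.log T) 0)))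
    (E := fun u => Real.exp (-(2 * max (|u| - Real.log T) 0))) (b := 1 / 2 * Real.log T) (c := 1)
    (by positivity) (fun u => by positivity) (by fun_prop)
    (fun u => by
      rw [Real.exp_le_one_iff]
      have := le_max_right (|u| - Real.log T) 0
      linarith) (fun u _ => by rw [one_mul]) hSE hSE
  have h4 := mul_le_mul_of_nonneg_left h3 (fm_N0L_pos hT).le
  rw [mul_add, one_mul] at h4
  rw [show (1 : ℝ) - 1 / 2 = 1 / 2 by norm_num] at ht
  linarith

theorem FF_mass (hRH : RiemannHypothesis) {x : ℝ} (hx0 : 0 < x) (hx1 : x ≤ 1) :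
    Tendsto (fun T : ℝ => ∫ α in (-x)..x, FF α T) atTop (𝓝 (1 + x ^ 2)) := by
  have hlog : Tendsto Real.log atTop atTop := Real.tendsto_log_atTop
  have hexp0 : ∀ t : ℝ, 0 < t → Tendsto (fun T : ℝ => Real.exp (-(2 * (t * Real.log T)))) atTop (𝓝 0) := by
    intro t ht
    apply Real.tendsto_exp_neg_atTop_nhds_zero.comp
    exact Tendsto.const_mul_atTop (by norm_num) (Tendsto.const_mul_atTop ht hlog)
  rw [tendsto_order]
  constructor
  · intro a ha
    obtain ⟨η, hη0, hηx, hηa⟩ : ∃ η : ℝ, 0 < η ∧ η < x ∧ a < 1 + (x - η) ^ 2 := by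
      have h1 : Tendsto (fun η : ℝ => 1 + (x - η) ^ 2) (𝓝[>] 0) (𝓝 (1 + x ^ 2)) := by
        have : Continuous (fun η : ℝ => 1 + (x - η) ^ 2) := by fun_prop
        have h2 := this.tendsto 0
        rw [sub_zero] at h2
        exact h2.mono_left nhdsWithin_le_nhds
      have h3 := (tendsto_order.1 h1).1 a ha
      have h4 : ∀ᶠ η : ℝ in 𝓝[>] 0, η ∈ Ioo 0 x := Ioo_mem_nhdsGT hx0
      obtain ⟨η, h5, h6⟩ := (h3.and h4).exists
      exact ⟨η, h6.1, h6.2, h5⟩
    have hm := mass_main hRH (x := x - η) (by linarith) (by linarith)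
    have h1 : Tendsto (fun T : ℝ => (1 - Real.exp (-(2 * (η * Real.log T)))) *
        ((N0 T * Real.log T)⁻¹ * ∫ u in (-((x - η) * Real.log T))..((x - η) * Real.log T), ‖SS T u‖ ^ 2)) atTop
        (𝓝 ((1 - 0) * (1 + (x - η) ^ 2))) := (tendsto_const_nhds.sub (hexp0 η hη0)).mul hm
    rw [sub_zero, one_mul] at h1
    filter_upwards [(tendsto_order.1 h1).1 a hηa, eventually_gt_atTop 1] with T h2 hT
    have hL : 0 < Real.log T := Real.log_pos hT
    have hc := continuous_SS T
    rw [fm_formula hT hx0.le]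
    have hSk := fm_SE_integrable T (fmK_continuous (x * Real.log T)) (x * Real.log T) (fmK_nonneg (by positivity))
      (fmK_le (by positivity))
    have h3 := fm_low (S := fun u => ‖SS T u‖ ^ 2) (k := fmK (x * Real.log T)) (b := (x - η) * Real.log T)
      (e := 1 - Real.exp (-(2 * (η * Real.log T)))) (mul_nonneg (by linarith) hL.le) (fun u => by positivity)
      (by fun_prop) (fmK_nonneg (by positivity))
      (fun u hu => fmK_ge (by positivity) (hu.trans (le_of_eq (by ring)))) hSk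
    have h4 := mul_le_mul_of_nonneg_left h3 (fm_N0L_pos hT).le
    calc a < _ := h2
      _ = (N0 T * Real.log T)⁻¹ * ((1 - Real.exp (-(2 * (η * Real.log T)))) *
          ∫ u in (-((x - η) * Real.log T))..((x - η) * Real.log T), ‖SS T u‖ ^ 2) := by ring
      _ ≤ _ := h4
  · intro a ha
    rcases lt_or_eq_of_le hx1 with hx1 | rfl
    · obtain ⟨y, hxy, hy1, hya⟩ : ∃ y : ℝ, x < y ∧ y < 1 ∧ 1 + y ^ 2 < a := by
        have h1 : Tendsto (fun y : ℝ => 1 + y ^ 2) (𝓝[>] x) (𝓝 (1 + x ^ 2)) := by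
          have : Continuous (fun y : ℝ => 1 + y ^ 2) := by fun_prop
          exact (this.tendsto x).mono_left nhdsWithin_le_nhds
        have h3 := (tendsto_order.1 h1).2 a ha
        have h4 : ∀ᶠ y : ℝ in 𝓝[>] x, y ∈ Ioo x 1 := Ioo_mem_nhdsGT hx1
        obtain ⟨y, h5, h6⟩ := (h3.and h4).exists
        exact ⟨y, h6.1, h6.2, h5⟩
      obtain ⟨A, hA, hQ⟩ := fm_Q hRH
      have hm := mass_main hRH (x := y) (by linarith) hy1
      have h1 : Tendsto (fun T : ℝ => ((N0 T * Real.log T)⁻¹ * ∫ u in (-(y * Real.log T))..(y * Real.log T), ‖SS T u‖ ^ 2) +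
          Real.exp (-(2 * ((y - x) * Real.log T))) * A) atTop (𝓝 ((1 + y ^ 2) + 0 * A)) :=
        hm.add ((hexp0 (y - x) (by linarith)).mul_const A)
      rw [zero_mul, add_zero] at h1
      filter_upwards [(tendsto_order.1 h1).2 a hya, eventually_gt_atTop 1, hQ] with T h2 hT hQT
      have hL : 0 < Real.log T := Real.log_pos hT
      have hc := continuous_SS T
      rw [fm_formula hT hx0.le]
      have hSk := fm_SE_integrable T (fmK_continuous (x * Real.log T)) (x * Real.log T) (fmK_nonneg (by positivity))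
        (fmK_le (by positivity))
      have hE : Continuous (fun u : ℝ => Real.exp (-(2 * max (|u| - Real.log T) 0))) := by fun_prop
      have hSE := fm_SE_integrable T hE (Real.log T) (fun u => (Real.exp_pos _).le) (fun u => le_rfl)
      have h3 := fm_split (S := fun u => ‖SS T u‖ ^ 2) (k := fmK (x * Real.log T))
        (E := fun u => Real.exp (-(2 * max (|u| - Real.log T) 0))) (b := y * Real.log T)
        (c := Real.exp (-(2 * ((y - x) * Real.log T))))
        (mul_nonneg (by linarith) hL.le) (fun u => by positivity) (by fun_prop)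
        (fun u => by
          refine (fmK_le (by positivity) u).trans ?_
          rw [Real.exp_le_one_iff]
          have := le_max_right (|u| - x * Real.log T) 0
          linarith)
        (fun u hu => by
          refine (fmK_le (by positivity) u).trans ?_
          rw [← Real.exp_add]
          apply Real.exp_le_exp.mpr
          have h5 : (y - x) * Real.log T + max (|u| - Real.log T) 0 ≤ max (|u| - x * Real.log T) 0 := by
            refine le_trans ?_ (le_max_left _ _)
            rcases le_total (|u| - Real.log T) 0 with h6 | h6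
            · rw [max_eq_right h6]; nlinarith
            · rw [max_eq_left h6]
              have : (y - x) * Real.log T ≤ (1 - x) * Real.log T := mul_le_mul_of_nonneg_right (by linarith) hL.le
              nlinarith
          linarith) hSk hSE
      have h6 : ∫ u in {u : ℝ | y * Real.log T ≤ |u|}, ‖SS T u‖ ^ 2 * Real.exp (-(2 * max (|u| - Real.log T) 0)) ≤
          ∫ u, ‖SS T u‖ ^ 2 * Real.exp (-(2 * max (|u| - Real.log T) 0)) :=
        setIntegral_le_integral hSE (Eventually.of_forall fun u => by positivity)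
      have hN := fm_N0L_pos hT
      have hex := Real.exp_pos (-(2 * ((y - x) * Real.log T)))
      have h4 := mul_le_mul_of_nonneg_left h3 hN.le
      have h7 : (N0 T * Real.log T)⁻¹ * (Real.exp (-(2 * ((y - x) * Real.log T))) *
          ∫ u in {u : ℝ | y * Real.log T ≤ |u|}, ‖SS T u‖ ^ 2 * Real.exp (-(2 * max (|u| - Real.log T) 0))) ≤
          Real.exp (-(2 * ((y - x) * Real.log T))) * A := by
        calc (N0 T * Real.log T)⁻¹ * (Real.exp (-(2 * ((y - x) * Real.log T))) *
          ∫ u in {u : ℝ | y * Real.log T ≤ |u|}, ‖SS T u‖ ^ 2 * Real.exp (-(2 * max (|u| - Real.log T) 0)))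
            = Real.exp (-(2 * ((y - x) * Real.log T))) * ((N0 T * Real.log T)⁻¹ *
          ∫ u in {u : ℝ | y * Real.log T ≤ |u|}, ‖SS T u‖ ^ 2 * Real.exp (-(2 * max (|u| - Real.log T) 0))) := by ring
          _ ≤ Real.exp (-(2 * ((y - x) * Real.log T))) * ((N0 T * Real.log T)⁻¹ *
          ∫ u, ‖SS T u‖ ^ 2 * Real.exp (-(2 * max (|u| - Real.log T) 0))) :=
            mul_le_mul_of_nonneg_left (mul_le_mul_of_nonneg_left h6 hN.le) hex.le
          _ ≤ Real.exp (-(2 * ((y - x) * Real.log T))) * A := mul_le_mul_of_nonneg_left hQT hex.le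
      rw [mul_add] at h4
      linarith
    · obtain ⟨C, hC, htail⟩ := tail hRH
      obtain ⟨δ, hδ0, hδ1, hδa⟩ : ∃ δ : ℝ, 0 < δ ∧ δ < 1 / 2 ∧ 1 + (1 - δ) ^ 2 + C * δ < a := by
        have h1 : Tendsto (fun δ : ℝ => 1 + (1 - δ) ^ 2 + C * δ) (𝓝[>] 0) (𝓝 (1 + 1 ^ 2)) := by
          have : Continuous (fun δ : ℝ => 1 + (1 - δ) ^ 2 + C * δ) := by fun_prop
          have h2 := this.tendsto 0
          rw [sub_zero, mul_zero, add_zero] at h2
          exact h2.mono_left nhdsWithin_le_nhds
        have h3 := (tendsto_order.1 h1).2 a ha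
        have h4 : ∀ᶠ δ : ℝ in 𝓝[>] 0, δ ∈ Ioo (0 : ℝ) (1 / 2) := Ioo_mem_nhdsGT (by norm_num)
        obtain ⟨δ, h5, h6⟩ := (h3.and h4).exists
        exact ⟨δ, h6.1, h6.2, h5⟩
      have hm := mass_main hRH (x := 1 - δ) (by linarith) (by linarith)
      have hlt : 1 + (1 - δ) ^ 2 < a - C * δ := by linarith
      filter_upwards [(tendsto_order.1 hm).2 _ hlt, eventually_gt_atTop 1, htail δ hδ0 hδ1.le] with T h2 hT hQT
      have hL : 0 < Real.log T := Real.log_pos hT
      have hc := continuous_SS T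
      rw [fm_formula hT zero_le_one]
      have hSk := fm_SE_integrable T (fmK_continuous (1 * Real.log T)) (1 * Real.log T) (fmK_nonneg (by positivity))
        (fmK_le (by positivity))
      have hE : Continuous (fun u : ℝ => Real.exp (-(2 * max (|u| - Real.log T) 0))) := by fun_prop
      have hSE := fm_SE_integrable T hE (Real.log T) (fun u => (Real.exp_pos _).le) (fun u => le_rfl)
      have h3 := fm_split (S := fun u => ‖SS T u‖ ^ 2) (k := fmK (1 * Real.log T))
        (E := fun u => Real.exp (-(2 * max (|u| - Real.log T) 0))) (b := (1 - δ) * Real.log T)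
        (c := 1)
        (mul_nonneg (by linarith) hL.le) (fun u => by positivity) (by fun_prop)
        (fun u => by
          refine (fmK_le (by positivity) u).trans ?_
          rw [Real.exp_le_one_iff]
          have := le_max_right (|u| - 1 * Real.log T) 0
          linarith)
        (fun u hu => by
          refine (fmK_le (by positivity) u).trans ?_
          rw [one_mul, one_mul]) hSk hSE
      have hN := fm_N0L_pos hT
      have h4 := mul_le_mul_of_nonneg_left h3 hN.le
      rw [mul_add] at h4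
      simp only [one_mul] at h4 ⊢
      linarith

end Pool.Agent.Lib.MP_00e05b_nt.Mont
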