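import Pool.Agent.Lib.MP_00e05b_nt.Mont.BasB

/-!
# JOB Fejer: the Fejer kernel inequality

By `FF_cos` and `∫_0^A (1 - α/A) cos (α b) dα = (1 - cos (A b))/(A b²) ≥ 0` for `b ≠ 0`, `= A/2` for `b = 0`: every pair contributes
a nonnegative amount (`weight ≥ 0`) and the diagonal pairs contribute `(A/2) mult γ ^ 2 * weight 0 = (A/2) mult γ ^ 2`
(`weight 0 = 1`).
-/

open Complex Set Filter Topology MeasureTheory

namespace Pool.Agent.Lib.MP_00e05b_nt.Mont

private theorem fejer_int {A : ℝ} (hA : 0 < A) (b : ℝ) :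
    0 ≤ ∫ α in (0 : ℝ)..A, Real.cos (α * b) * (1 - α / A) := by
  by_cases hb : b = 0
  · subst hb
    apply intervalIntegral.integral_nonneg hA.le
    intro α hα
    rw [mul_zero, Real.cos_zero, one_mul, sub_nonneg, div_le_one hA]
    exact hα.2
  · have hF : ∀ α ∈ uIcc 0 A, HasDerivAt (fun α : ℝ => (1 - α / A) * (Real.sin (α * b) / b) - Real.cos (α * b) / (A * b ^ 2))
        (Real.cos (α * b) * (1 - α / A)) α := by
      intro α _
      have h1 : HasDerivAt (fun α : ℝ => α * b) b α := by simpa using (hasDerivAt_id α).mul_const b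
      have h2 : HasDerivAt (fun α : ℝ => 1 - α / A) (-(1 / A)) α := by
        simpa using ((hasDerivAt_id α).div_const A).const_sub 1
      have h3 := (h2.mul (h1.sin.div_const b)).sub (h1.cos.div_const (A * b ^ 2))
      have e : -(1 / A) * (Real.sin (α * b) / b) + (1 - α / A) * (Real.cos (α * b) * b / b) -
          -Real.sin (α * b) * b / (A * b ^ 2) = Real.cos (α * b) * (1 - α / A) := by
        field_simp
        ring
      rw [← e]
      exact h3
    rw [intervalIntegral.integral_eq_sub_of_hasDerivAt hF]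
    · have e : (1 - A / A) * (Real.sin (A * b) / b) - Real.cos (A * b) / (A * b ^ 2) -
          ((1 - 0 / A) * (Real.sin (0 * b) / b) - Real.cos (0 * b) / (A * b ^ 2)) =
          (1 - Real.cos (A * b)) / (A * b ^ 2) := by
        rw [zero_mul, Real.sin_zero, Real.cos_zero, div_self hA.ne']
        ring
      rw [e]
      apply div_nonneg
      · linarith [Real.cos_le_one (A * b)]
      · positivity
    · apply Continuous.intervalIntegrable
      exact (Real.continuous_cos.comp (continuous_id.mul continuous_const)).mul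
        (continuous_const.sub (continuous_id.div_const A))

private theorem fejer_int0 {A : ℝ} (hA : 0 < A) :
    ∫ α in (0 : ℝ)..A, (1 - α / A) = A / 2 := by
  have hF : ∀ α ∈ uIcc 0 A, HasDerivAt (fun α : ℝ => α - α ^ 2 / (2 * A)) (1 - α / A) α := by
    intro α _
    have h1 := (hasDerivAt_id α).sub ((hasDerivAt_pow 2 α).div_const (2 * A))
    have e : (1 : ℝ) - ((2 : ℕ) : ℝ) * α ^ (2 - 1) / (2 * A) = 1 - α / A := by
      norm_num
      field_simp
    rw [e] at h1
    exact h1
  rw [intervalIntegral.integral_eq_sub_of_hasDerivAt hF]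
  · field_simp
    ring
  · exact (continuous_const.sub (continuous_id.div_const A)).intervalIntegrable _ _

theorem fejer {T A : ℝ} (hT : 1 < T) (hA : 0 < A) :
    A / 2 * (Nstar T / N0 T) ≤ ∫ α in (0 : ℝ)..A, FF α T * (1 - α / A) := by
  have hN := N0_pos hT
  have hT0 : 0 < T := by linarith
  set L := Real.log T with hL
  have hterm : ∀ γ γ' : ℝ, Continuous fun α : ℝ => (mult γ : ℝ) * (mult γ' : ℝ) * Real.cos (α * L * (γ - γ')) *
      weight (γ - γ') * (1 - α / A) := by
    intro γ γ'
    exact ((continuous_const.mul (Real.continuous_cos.comp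
      ((continuous_id.mul continuous_const).mul continuous_const))).mul continuous_const).mul
        (continuous_const.sub (continuous_id.div_const A))
  have e1 : ∀ α : ℝ, FF α T * (1 - α / A) = (N0 T)⁻¹ * ∑ γ ∈ ordinates T, ∑ γ' ∈ ordinates T,
      (mult γ : ℝ) * (mult γ' : ℝ) * Real.cos (α * L * (γ - γ')) * weight (γ - γ') * (1 - α / A) := by
    intro α
    rw [FF_cos hT0, mul_assoc, Finset.sum_mul]
    simp_rw [Finset.sum_mul]
    rfl
  simp_rw [e1]
  rw [intervalIntegral.integral_const_mul, intervalIntegral.integral_finsetSum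
    (fun γ _ => (continuous_finsetSum _ fun γ' _ => hterm γ γ').intervalIntegrable _ _)]
  have e2 : A / 2 * (Nstar T / N0 T) = (N0 T)⁻¹ * ∑ γ ∈ ordinates T, A / 2 * (mult γ : ℝ) ^ 2 := by
    rw [← Finset.mul_sum, Nstar]
    ring
  rw [e2]
  apply mul_le_mul_of_nonneg_left _ (inv_nonneg.mpr hN.le)
  refine Finset.sum_le_sum fun γ hγ => ?_
  rw [intervalIntegral.integral_finsetSum (fun γ' _ => (hterm γ γ').intervalIntegrable _ _)]
  have hval : ∀ γ' : ℝ, ∫ α in (0 : ℝ)..A, (mult γ : ℝ) * (mult γ' : ℝ) * Real.cos (α * L * (γ - γ')) *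
      weight (γ - γ') * (1 - α / A) = (mult γ : ℝ) * (mult γ' : ℝ) * weight (γ - γ') *
        ∫ α in (0 : ℝ)..A, Real.cos (α * (L * (γ - γ'))) * (1 - α / A) := by
    intro γ'
    rw [← intervalIntegral.integral_const_mul]
    apply intervalIntegral.integral_congr
    intro α _
    simp only
    rw [mul_assoc α L]
    ring
  simp_rw [hval]
  have hw : ∀ u : ℝ, 0 ≤ weight u := fun u => by unfold weight; positivity
  have hdiag : A / 2 * (mult γ : ℝ) ^ 2 = (mult γ : ℝ) * (mult γ : ℝ) * weight (γ - γ) *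
        ∫ α in (0 : ℝ)..A, Real.cos (α * (L * (γ - γ))) * (1 - α / A) := by
    have e3 : ∫ α in (0 : ℝ)..A, Real.cos (α * (L * (γ - γ))) * (1 - α / A) = A / 2 := by
      rw [← fejer_int0 hA]
      apply intervalIntegral.integral_congr
      intro α _
      simp only [sub_self, mul_zero, Real.cos_zero, one_mul]
    rw [e3]
    unfold weight
    rw [sub_self]
    norm_num
    ring
  rw [hdiag]
  exact Finset.single_le_sum (f := fun γ' : ℝ => (mult γ : ℝ) * (mult γ' : ℝ) * weight (γ - γ') *
        ∫ α in (0 : ℝ)..A, Real.cos (α * (L * (γ - γ'))) * (1 - α / A))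
    (fun γ' _ => mul_nonneg (mul_nonneg (by positivity) (hw _)) (fejer_int hA _)) hγ

theorem NN_le_Nstar (T : ℝ) : NN T ≤ Nstar T := by
  unfold NN Nstar
  refine Finset.sum_le_sum fun γ _ => ?_
  rcases Nat.eq_zero_or_pos (mult γ) with h | h
  · rw [h]; simp
  · have h1 : (1 : ℝ) ≤ (mult γ : ℝ) := by exact_mod_cast h
    nlinarith

end Pool.Agent.Lib.MP_00e05b_nt.Mont
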