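import Pool.Agent.Lib.MP_00e05b_nt.Mont.Defs

/-!
# JOB Frul: a Frullani integral

Let `τ = 2 + |t|` and split the integral at `1/τ ≤ 1/2`.

* `0 < u ≤ 1/τ`: the integrand vanishes for `u ≤ 1/(4R)` (`Φ = 1` on `[-1/4, 1/4]`); `|h u cos (t u) - h 0| ≤ M τ u` with `M` a bound
  of `|h|`, `|h'|` (times 2), so replacing `h u cos (t u)` by `h 0` costs at most `M`; and
  `∫_0^{1/τ} (1 - Φ(Ru)) du/u = ∫_0^{R/τ} (1 - Φ x) dx/x = ∫_{1/4}^{1} (1 - Φ x) dx/x + log (R/τ)` because `R/τ ≥ 8` and
  `Φ x = 0` for `x ≥ 1/2`; the first integral is between `0` and `log 4`.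
* `1/τ ≤ u ≤ 1`: here `R u ≥ 8`, so `Φ (R u) = 0`. If `|t| ≤ 1`: `|∫| ≤ M log 3`. If `|t| ≥ 1` integrate by parts:
  `∫_{1/τ}^1 (h u / u) cos (t u) du = [(h u / u) sin (t u) / t] - (1/t) ∫ (h u / u)' sin (t u) du`, bounded by
  `2 M τ/|t| + (1/|t|) (M log τ + M τ) ≤ 10 M`, since `|(h u / u)'| ≤ M/u + M/u^2` and `τ ≤ 3 |t|`, `log τ ≤ τ`.
-/

open Complex Set Filter Topology MeasureTheory
open scoped ContDiff

namespace Pool.Agent.Lib.MP_00e05b_nt.Mont

private theorem frul_cont {Φ : ℝ → ℝ} (hΦ : EB Φ (1 / 2)) {R : ℝ} (hR : 0 < R) :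
    Continuous fun u : ℝ => (1 - Φ (R * u)) / u := by
  rw [continuous_iff_continuousAt]
  intro u
  by_cases hu : u = 0
  · subst hu
    have hev : (fun u : ℝ => (1 - Φ (R * u)) / u) =ᶠ[𝓝 0] fun _ => 0 := by
      have : ∀ᶠ u : ℝ in 𝓝 0, |u| < 1 / (4 * R) := by
        have h1 : Tendsto (fun u : ℝ => |u|) (𝓝 0) (𝓝 0) := by
          have := (continuous_abs (G := ℝ)).tendsto 0
          simpa using this
        exact h1.eventually (gt_mem_nhds (by positivity))
      filter_upwards [this] with u hu
      have h2 : |R * u| ≤ 1 / 2 / 2 := by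
        rw [abs_mul, abs_of_pos hR]
        rw [lt_div_iff₀ (by positivity)] at hu
        linarith
      rw [hΦ.one _ h2, sub_self, zero_div]
    exact (continuousAt_const.congr hev.symm)
  · apply ContinuousAt.div _ continuousAt_id hu
    exact (continuous_const.sub (hΦ.smooth.continuous.comp (continuous_const.mul continuous_id))).continuousAt

private theorem frul_J {Φ : ℝ → ℝ} (hΦ : EB Φ (1 / 2)) {R τ : ℝ} (hτ : 2 ≤ τ) (hR : 8 * τ ≤ R) :
    |(∫ u in (0 : ℝ)..(1 / τ), (1 - Φ (R * u)) / u) - (Real.log R - Real.log τ)| ≤ 2 := by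
  have hR0 : 0 < R := by linarith
  have hτ0 : 0 < τ := by linarith
  set g : ℝ → ℝ := fun u => (1 - Φ (R * u)) / u with hg
  have hgc : Continuous g := frul_cont hΦ hR0
  have hgi : ∀ a b : ℝ, IntervalIntegrable g volume a b := fun a b => hgc.intervalIntegrable a b
  have h1 : (0 : ℝ) < 1 / (4 * R) := by positivity
  have h2 : 1 / (4 * R) ≤ 1 / (2 * R) := one_div_le_one_div_of_le (by positivity) (by linarith)
  have h2' : (0 : ℝ) < 1 / (2 * R) := by positivity
  have h3 : 1 / (2 * R) ≤ 1 / τ := one_div_le_one_div_of_le (by positivity) (by linarith)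
  have hsplit : ∫ u in (0 : ℝ)..(1 / τ), g u = (∫ u in (0 : ℝ)..(1 / (4 * R)), g u) +
      (∫ u in (1 / (4 * R))..(1 / (2 * R)), g u) + ∫ u in (1 / (2 * R))..(1 / τ), g u := by
    rw [intervalIntegral.integral_add_adjacent_intervals (hgi _ _) (hgi _ _),
      intervalIntegral.integral_add_adjacent_intervals (hgi _ _) (hgi _ _)]
  have hz : ∫ u in (0 : ℝ)..(1 / (4 * R)), g u = 0 := by
    rw [intervalIntegral.integral_congr (g := fun _ => (0 : ℝ))]
    · simp
    · intro u hu
      rw [uIcc_of_le h1.le] at hu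
      have h4 : |R * u| ≤ 1 / 2 / 2 := by
        rw [abs_mul, abs_of_pos hR0, abs_of_nonneg hu.1]
        have := hu.2
        rw [le_div_iff₀ (by positivity)] at this
        linarith
      simp only [hg]
      rw [hΦ.one _ h4, sub_self, zero_div]
  have hlast : ∫ u in (1 / (2 * R))..(1 / τ), g u = Real.log 2 + (Real.log R - Real.log τ) := by
    rw [intervalIntegral.integral_congr (g := fun u => 1 / u)]
    · rw [integral_one_div_of_pos h2' (by positivity)]
      have : 1 / τ / (1 / (2 * R)) = 2 * (R / τ) := by field_simp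
      rw [this, Real.log_mul two_ne_zero (by positivity), Real.log_div hR0.ne' hτ0.ne']
    · intro u hu
      rw [uIcc_of_le h3] at hu
      have hu0 : 0 < u := h2'.trans_le hu.1
      have h4 : 1 / 2 ≤ |R * u| := by
        rw [abs_mul, abs_of_pos hR0, abs_of_pos hu0]
        have := hu.1
        rw [div_le_iff₀ (by positivity)] at this
        linarith
      simp only [hg]
      rw [hΦ.supp _ h4, sub_zero]
  have hmid0 : 0 ≤ ∫ u in (1 / (4 * R))..(1 / (2 * R)), g u := by
    apply intervalIntegral.integral_nonneg h2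
    intro u hu
    exact div_nonneg (sub_nonneg.mpr (hΦ.le_one _)) (h1.le.trans hu.1)
  have hmid1 : ∫ u in (1 / (4 * R))..(1 / (2 * R)), g u ≤ Real.log 2 := by
    have h5 : ∫ u in (1 / (4 * R))..(1 / (2 * R)), g u ≤ ∫ u in (1 / (4 * R))..(1 / (2 * R)), 1 / u := by
      apply intervalIntegral.integral_mono_on h2 (hgi _ _)
      · apply ContinuousOn.intervalIntegrable
        rw [uIcc_of_le h2]
        intro u hu
        exact (continuousAt_const.div continuousAt_id (h1.trans_le hu.1).ne').continuousWithinAt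
      · intro u hu
        have hu0 : 0 < u := h1.trans_le hu.1
        simp only [hg]
        apply div_le_div_of_nonneg_right _ hu0.le
        linarith [hΦ.nonneg (R * u)]
    refine h5.trans (le_of_eq ?_)
    rw [integral_one_div_of_pos h1 h2']
    congr 1
    field_simp
    norm_num
  have hlog2 : Real.log 2 ≤ 1 := by
    have := Real.log_le_sub_one_of_pos (x := 2) two_pos
    linarith
  have hlog20 : 0 ≤ Real.log 2 := Real.log_nonneg one_le_two
  rw [hsplit, hz, hlast, abs_le]
  constructor <;> linarith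

private theorem frul_K {h : ℝ → ℝ} (hh : ES h (5 / 8)) {M0 M1 : ℝ} (hM0 : ∀ u ∈ Icc (0 : ℝ) 1, |h u| ≤ M0)
    (hM1 : ∀ u ∈ Icc (0 : ℝ) 1, |deriv h u| ≤ M1) (t : ℝ) :
    |∫ u in (1 / (2 + |t|))..1, h u / u * Real.cos (t * u)| ≤ 9 * (M0 + M1) := by
  have hM00 : 0 ≤ M0 := (abs_nonneg _).trans (hM0 0 (by simp))
  have hM10 : 0 ≤ M1 := (abs_nonneg _).trans (hM1 0 (by simp))
  set τ := 2 + |t| with hτ
  have hτ2 : 2 ≤ τ := by rw [hτ]; linarith [abs_nonneg t]
  have hτ0 : 0 < τ := by linarith
  have ha0 : 0 < 1 / τ := by positivity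
  have ha1 : 1 / τ ≤ 1 := by rw [div_le_one hτ0]; linarith
  by_cases ht : |t| ≤ 1
  · -- trivial bound
    have hτ3 : τ ≤ 3 := by rw [hτ]; linarith
    have hb : ‖∫ u in (1 / τ)..1, h u / u * Real.cos (t * u)‖ ≤ (3 * M0) * |1 - 1 / τ| := by
      apply intervalIntegral.norm_integral_le_of_norm_le_const
      intro u hu
      rw [uIoc_of_le ha1] at hu
      have hu0 : 0 < u := ha0.trans hu.1
      rw [Real.norm_eq_abs, abs_mul, abs_div, abs_of_pos hu0]
      have h1 : |h u| / u ≤ 3 * M0 := by
        rw [div_le_iff₀ hu0]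
        have h2 := hM0 u ⟨hu0.le, hu.2⟩
        have h3 : 1 / 3 ≤ u := by
          have : 1 / 3 ≤ 1 / τ := one_div_le_one_div_of_le hτ0 hτ3
          linarith [hu.1]
        nlinarith
      have h4 := Real.abs_cos_le_one (t * u)
      have h5 : 0 ≤ |h u| / u := by positivity
      nlinarith [abs_nonneg (Real.cos (t * u))]
    rw [Real.norm_eq_abs] at hb
    have h6 : |1 - 1 / τ| ≤ 1 := by
      rw [abs_le]; constructor <;> linarith
    have h7 : 3 * M0 * |1 - 1 / τ| ≤ 3 * M0 := by nlinarith [abs_nonneg (1 - 1 / τ)]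
    linarith
  · push Not at ht
    have ht0 : t ≠ 0 := by rintro rfl; simp at ht; linarith
    have htp : 0 < |t| := by linarith
    have hτt : τ ≤ 3 * |t| := by rw [hτ]; linarith
    have hhd : ∀ u, HasDerivAt h (deriv h u) u := fun u =>
      (hh.smooth.differentiable (by simp)).differentiableAt.hasDerivAt
    have hdc : Continuous (deriv h) := hh.smooth.continuous_deriv (by simp)
    have hder : ∀ u ∈ uIcc (1 / τ) 1, HasDerivAt (fun u => h u / u * (Real.sin (t * u) / t))
        ((deriv h u * u - h u * 1) / u ^ 2 * (Real.sin (t * u) / t) + h u / u * (Real.cos (t * u))) u := by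
      intro u hu
      rw [uIcc_of_le ha1] at hu
      have hu0 : u ≠ 0 := (ha0.trans_le hu.1).ne'
      have h1 : HasDerivAt (fun u => h u / u) ((deriv h u * u - h u * 1) / u ^ 2) u :=
        (hhd u).div (hasDerivAt_id u) hu0
      have h2 : HasDerivAt (fun u => Real.sin (t * u) / t) (Real.cos (t * u)) u := by
        have h3 : HasDerivAt (fun u => t * u) t u := by
          simpa using (hasDerivAt_id u).const_mul t
        have h4 := (h3.sin).div_const t
        have e : Real.cos (t * u) * t / t = Real.cos (t * u) := by field_simp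
        rwa [e] at h4
      exact h1.mul h2
    have hc1 : ContinuousOn (fun u => (deriv h u * u - h u * 1) / u ^ 2 * (Real.sin (t * u) / t)) (uIcc (1 / τ) 1) := by
      rw [uIcc_of_le ha1]
      intro u hu
      have hu0 : u ≠ 0 := (ha0.trans_le hu.1).ne'
      apply ContinuousAt.continuousWithinAt
      apply ContinuousAt.mul
      · apply ContinuousAt.div
        · exact ((hdc.mul continuous_id).sub (hh.smooth.continuous.mul continuous_const)).continuousAt
        · exact (continuous_pow 2).continuousAt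
        · exact pow_ne_zero 2 hu0
      · exact ((Real.continuous_sin.comp (continuous_const.mul continuous_id)).div_const t).continuousAt
    have hc2 : ContinuousOn (fun u => h u / u * (Real.cos (t * u))) (uIcc (1 / τ) 1) := by
      rw [uIcc_of_le ha1]
      intro u hu
      have hu0 : u ≠ 0 := (ha0.trans_le hu.1).ne'
      apply ContinuousAt.continuousWithinAt
      apply ContinuousAt.mul
      · exact hh.smooth.continuous.continuousAt.div continuousAt_id hu0
      · exact (Real.continuous_cos.comp (continuous_const.mul continuous_id)).continuousAt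
    have hFTC := intervalIntegral.integral_eq_sub_of_hasDerivAt hder
      ((hc1.add hc2).intervalIntegrable)
    rw [intervalIntegral.integral_add hc1.intervalIntegrable hc2.intervalIntegrable] at hFTC
    have hh1 : h 1 = 0 := hh.supp 1 (by norm_num)
    rw [hh1, zero_div, zero_mul, zero_sub] at hFTC
    -- bounds of the two terms
    have hb1 : |h (1 / τ) / (1 / τ) * (Real.sin (t * (1 / τ)) / t)| ≤ 3 * M0 := by
      rw [abs_mul, abs_div (h (1 / τ)) (1 / τ), abs_of_pos ha0, abs_div (Real.sin (t * (1 / τ))) t]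
      have h1 := hM0 (1 / τ) ⟨ha0.le, ha1⟩
      have h2 := Real.abs_sin_le_one (t * (1 / τ))
      have e : |h (1 / τ)| / (1 / τ) = |h (1 / τ)| * τ := by field_simp
      rw [e]
      have h3 : |Real.sin (t * (1 / τ))| / |t| ≤ 1 / |t| := div_le_div_of_nonneg_right h2 htp.le
      calc |h (1 / τ)| * τ * (|Real.sin (t * (1 / τ))| / |t|) ≤ M0 * (3 * |t|) * (1 / |t|) := by
            apply mul_le_mul _ h3 (by positivity) (by positivity)
            exact mul_le_mul h1 hτt hτ0.le hM00
        _ = 3 * M0 := by field_simp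
    have hb2 : |∫ u in (1 / τ)..1, (deriv h u * u - h u * 1) / u ^ 2 * (Real.sin (t * u) / t)| ≤ 6 * (M0 + M1) := by
      have h1 : |∫ u in (1 / τ)..1, (deriv h u * u - h u * 1) / u ^ 2 * (Real.sin (t * u) / t)| ≤
          ∫ u in (1 / τ)..1, (M0 + M1) / |t| * (1 / u ^ 2) := by
        rw [← Real.norm_eq_abs]
        apply intervalIntegral.norm_integral_le_of_norm_le ha1
        · refine Filter.Eventually.of_forall fun u hu => ?_
          have hu0 : 0 < u := ha0.trans hu.1
          have hu1 := hu.2
          rw [Real.norm_eq_abs, abs_mul, abs_div, abs_div, abs_of_pos (pow_pos hu0 2)]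
          have h2 := hM0 u ⟨hu0.le, hu1⟩
          have h3 := hM1 u ⟨hu0.le, hu1⟩
          have h4 : |deriv h u * u - h u * 1| ≤ M0 + M1 := by
            have h5 : |deriv h u * u| ≤ M1 := by
              rw [abs_mul, abs_of_pos hu0]
              nlinarith [abs_nonneg (deriv h u)]
            have h6 := abs_sub (deriv h u * u) (h u * 1)
            rw [mul_one] at h6 ⊢
            linarith
          have h7 := Real.abs_sin_le_one (t * u)
          calc |deriv h u * u - h u * 1| / u ^ 2 * (|Real.sin (t * u)| / |t|)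
              ≤ (M0 + M1) / u ^ 2 * (1 / |t|) := by
                apply mul_le_mul _ _ (by positivity) (by positivity)
                · exact div_le_div_of_nonneg_right h4 (by positivity)
                · exact div_le_div_of_nonneg_right h7 htp.le
            _ = (M0 + M1) / |t| * (1 / u ^ 2) := by ring
        · apply ContinuousOn.intervalIntegrable
          rw [uIcc_of_le ha1]
          intro u hu
          have hu0 : u ≠ 0 := (ha0.trans_le hu.1).ne'
          apply ContinuousAt.continuousWithinAt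
          exact continuousAt_const.mul (continuousAt_const.div (continuous_pow 2).continuousAt (pow_ne_zero 2 hu0))
      have h2 : ∫ u in (1 / τ)..1, (M0 + M1) / |t| * (1 / u ^ 2) = (M0 + M1) / |t| * (τ - 1) := by
        have hF : ∀ u ∈ uIcc (1 / τ) 1, HasDerivAt (fun u : ℝ => (M0 + M1) / |t| * (-u⁻¹)) ((M0 + M1) / |t| * (1 / u ^ 2)) u := by
          intro u hu
          rw [uIcc_of_le ha1] at hu
          have hu0 : u ≠ 0 := (ha0.trans_le hu.1).ne'
          have := ((hasDerivAt_inv hu0).neg).const_mul ((M0 + M1) / |t|)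
          rw [neg_neg] at this
          rw [one_div]
          exact this
        rw [intervalIntegral.integral_eq_sub_of_hasDerivAt hF]
        · have e : (1 / τ)⁻¹ = τ := by rw [one_div, inv_inv]
          rw [e]
          ring
        · apply ContinuousOn.intervalIntegrable
          rw [uIcc_of_le ha1]
          intro u hu
          have hu0 : u ≠ 0 := (ha0.trans_le hu.1).ne'
          apply ContinuousAt.continuousWithinAt
          exact continuousAt_const.mul (continuousAt_const.div (continuous_pow 2).continuousAt (pow_ne_zero 2 hu0))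
      rw [h2] at h1
      refine h1.trans ?_
      rw [div_mul_eq_mul_div, div_le_iff₀ htp]
      nlinarith [mul_nonneg (add_nonneg hM00 hM10) htp.le]
    have e2 : ∫ u in (1 / τ)..1, h u / u * Real.cos (t * u) =
        -(h (1 / τ) / (1 / τ) * (Real.sin (t * (1 / τ)) / t)) -
          ∫ u in (1 / τ)..1, (deriv h u * u - h u * 1) / u ^ 2 * (Real.sin (t * u) / t) := by
      linarith [hFTC]
    rw [e2]
    have h8 := abs_sub (-(h (1 / τ) / (1 / τ) * (Real.sin (t * (1 / τ)) / t)))
      (∫ u in (1 / τ)..1, (deriv h u * u - h u * 1) / u ^ 2 * (Real.sin (t * u) / t))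
    rw [abs_neg] at h8
    linarith

theorem frullani {Φ : ℝ → ℝ} (hΦ : EB Φ (1 / 2)) {h : ℝ → ℝ} (hh : ES h (5 / 8)) :
    ∃ C : ℝ, 0 ≤ C ∧ ∀ t R : ℝ, 8 * (2 + |t|) ≤ R →
      |(∫ u in (0 : ℝ)..1, h u * (1 - Φ (R * u)) * Real.cos (t * u) / u) -
        h 0 * (Real.log R - Real.log (2 + |t|))| ≤ C := by
  have hc : Continuous h := hh.smooth.continuous
  have hdc : Continuous (deriv h) := hh.smooth.continuous_deriv (by simp)
  obtain ⟨M0, hM0⟩ := isCompact_Icc.exists_bound_of_continuousOn (s := Icc (0 : ℝ) 1) hc.continuousOn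
  obtain ⟨M1, hM1⟩ := isCompact_Icc.exists_bound_of_continuousOn (s := Icc (0 : ℝ) 1) hdc.continuousOn
  simp only [Real.norm_eq_abs] at hM0 hM1
  have hM00 : 0 ≤ M0 := (abs_nonneg _).trans (hM0 0 (by simp))
  have hM10 : 0 ≤ M1 := (abs_nonneg _).trans (hM1 0 (by simp))
  refine ⟨12 * (M0 + M1), by positivity, fun t R hR => ?_⟩
  set τ := 2 + |t| with hτ
  have hτ2 : 2 ≤ τ := by rw [hτ]; linarith [abs_nonneg t]
  have hτ0 : 0 < τ := by linarith
  have hR0 : 0 < R := by linarith
  have ha0 : 0 < 1 / τ := by positivity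
  have ha1 : 1 / τ ≤ 1 := by rw [div_le_one hτ0]; linarith
  set g : ℝ → ℝ := fun u => (1 - Φ (R * u)) / u with hg
  have hgc : Continuous g := frul_cont hΦ hR0
  have hcos : Continuous fun u : ℝ => Real.cos (t * u) := Real.continuous_cos.comp (continuous_const.mul continuous_id)
  have hI : (fun u => h u * (1 - Φ (R * u)) * Real.cos (t * u) / u) = fun u => h u * Real.cos (t * u) * g u := by
    funext u
    simp only [hg]
    ring
  rw [hI]
  have hIc : Continuous fun u => h u * Real.cos (t * u) * g u := (hc.mul hcos).mul hgc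
  rw [← intervalIntegral.integral_add_adjacent_intervals (hIc.intervalIntegrable 0 (1 / τ))
    (hIc.intervalIntegrable (1 / τ) 1)]
  have hJ := frul_J hΦ hτ2 hR
  have hK := frul_K hh hM0 hM1 t
  rw [← hτ] at hK
  have e1 : ∫ u in (1 / τ)..1, h u * Real.cos (t * u) * g u = ∫ u in (1 / τ)..1, h u / u * Real.cos (t * u) := by
    apply intervalIntegral.integral_congr
    intro u hu
    rw [uIcc_of_le ha1] at hu
    have hu0 : 0 < u := ha0.trans_le hu.1
    have h4 : 1 / 2 ≤ |R * u| := by
      rw [abs_mul, abs_of_pos hR0, abs_of_pos hu0]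
      have := hu.1
      rw [div_le_iff₀ hτ0] at this
      nlinarith
    simp only [hg]
    rw [hΦ.supp _ h4]
    ring
  have e2 : ∫ u in (0 : ℝ)..(1 / τ), h u * Real.cos (t * u) * g u =
      (∫ u in (0 : ℝ)..(1 / τ), (h u * Real.cos (t * u) - h 0) * g u) + h 0 * ∫ u in (0 : ℝ)..(1 / τ), g u := by
    rw [← intervalIntegral.integral_const_mul, ← intervalIntegral.integral_add]
    · apply intervalIntegral.integral_congr
      intro u _
      simp only
      ring
    · exact (((hc.mul hcos).sub continuous_const).mul hgc).intervalIntegrable _ _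
    · exact (continuous_const.mul hgc).intervalIntegrable _ _
  have hA : |∫ u in (0 : ℝ)..(1 / τ), (h u * Real.cos (t * u) - h 0) * g u| ≤ M0 + M1 := by
    have h1 : ‖∫ u in (0 : ℝ)..(1 / τ), (h u * Real.cos (t * u) - h 0) * g u‖ ≤ ((M0 + M1) * τ) * |1 / τ - 0| := by
      apply intervalIntegral.norm_integral_le_of_norm_le_const
      intro u hu
      rw [uIoc_of_le ha0.le] at hu
      have hu0 := hu.1
      have hu1 : u ≤ 1 := hu.2.trans ha1
      rw [Real.norm_eq_abs, abs_mul]
      have h2 : |h u - h 0| ≤ M1 * u := by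
        have h3 := Convex.norm_image_sub_le_of_norm_deriv_le (f := h) (C := M1) (s := Icc (0 : ℝ) 1) (x := 0) (y := u)
          (fun x _ => (hh.smooth.differentiable (by simp)).differentiableAt) (fun x hx => hM1 x hx)
          (convex_Icc 0 1) (by simp) ⟨hu0.le, hu1⟩
        simpa [abs_of_pos hu0] using h3
      have h4 : |Real.cos (t * u) - 1| ≤ |t| * u := by
        have h5 : |Real.cos (t * u) - Real.cos 0| ≤ |t * u - 0| := by
          have := Convex.norm_image_sub_le_of_norm_deriv_le (f := Real.cos) (C := 1) (s := univ) (x := 0) (y := t * u)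
            (fun x _ => Real.differentiable_cos.differentiableAt)
            (fun x _ => by rw [Real.deriv_cos, norm_neg]; exact Real.abs_sin_le_one x)
            convex_univ (mem_univ _) (mem_univ _)
          simpa using this
        rw [Real.cos_zero, sub_zero, abs_mul, abs_of_pos hu0] at h5
        exact h5
      have h6 : |h u * Real.cos (t * u) - h 0| ≤ (M0 + M1) * τ * u := by
        have e : h u * Real.cos (t * u) - h 0 = (h u - h 0) + h u * (Real.cos (t * u) - 1) := by ring
        rw [e]
        refine (abs_add_le _ _).trans ?_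
        rw [abs_mul]
        have h7 := hM0 u ⟨hu0.le, hu1⟩
        have h8 : |h u| * |Real.cos (t * u) - 1| ≤ M0 * (|t| * u) :=
          mul_le_mul h7 h4 (abs_nonneg _) hM00
        have h9 : (M0 + M1) * τ * u = M1 * u + M0 * (|t| * u) + (M0 * 2 + M1 * (1 + |t|)) * u := by
          rw [hτ]; ring
        have h10 : 0 ≤ (M0 * 2 + M1 * (1 + |t|)) * u := by positivity
        linarith
      have h11 : |g u| ≤ 1 / u := by
        simp only [hg]
        rw [abs_div, abs_of_pos hu0]
        apply div_le_div_of_nonneg_right _ hu0.le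
        rw [abs_le]
        constructor <;> linarith [hΦ.nonneg (R * u), hΦ.le_one (R * u)]
      calc |h u * Real.cos (t * u) - h 0| * |g u| ≤ ((M0 + M1) * τ * u) * (1 / u) :=
            mul_le_mul h6 h11 (abs_nonneg _) (by positivity)
        _ = (M0 + M1) * τ := by field_simp
    rw [Real.norm_eq_abs, sub_zero, abs_of_pos ha0] at h1
    have e : (M0 + M1) * τ * (1 / τ) = M0 + M1 := by field_simp
    rwa [e] at h1
  rw [e1, e2]
  have hh0 : |h 0| ≤ M0 := hM0 0 (by simp)
  have h12 : |h 0 * ((∫ u in (0 : ℝ)..(1 / τ), g u) - (Real.log R - Real.log τ))| ≤ M0 * 2 := by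
    rw [abs_mul]
    exact mul_le_mul hh0 hJ (abs_nonneg _) hM00
  have e3 : ((∫ u in (0 : ℝ)..(1 / τ), (h u * Real.cos (t * u) - h 0) * g u) + h 0 * ∫ u in (0 : ℝ)..(1 / τ), g u) +
      (∫ u in (1 / τ)..1, h u / u * Real.cos (t * u)) - h 0 * (Real.log R - Real.log τ) =
      (∫ u in (0 : ℝ)..(1 / τ), (h u * Real.cos (t * u) - h 0) * g u) +
      (h 0 * ((∫ u in (0 : ℝ)..(1 / τ), g u) - (Real.log R - Real.log τ))) +
      (∫ u in (1 / τ)..1, h u / u * Real.cos (t * u)) := by ring
  rw [e3]
  refine (abs_add_le _ _).trans ?_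
  have h13 := abs_add_le (∫ u in (0 : ℝ)..(1 / τ), (h u * Real.cos (t * u) - h 0) * g u)
    (h 0 * ((∫ u in (0 : ℝ)..(1 / τ), g u) - (Real.log R - Real.log τ)))
  linarith

end Pool.Agent.Lib.MP_00e05b_nt.Mont
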