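import Pool.Agent.Lib.MP_00e05b_nt.Mont.Defs

/-!
# Equivalence of one-sided and two-sided pair correlation: definitions
-/

open Set Filter Topology MeasureTheory

namespace Pool.Agent.Lib.MP_00e05b_nt.Mont

/-- Cosine transform in the variable `2πxα`. -/
noncomputable def fT (φ : ℝ → ℝ) (x : ℝ) : ℝ := ∫ α : ℝ, φ α * Real.cos (2 * Real.pi * x * α)

/-- Continuous even functions with compact support and integrable Fourier transform. -/
structure CE (φ : ℝ → ℝ) : Prop where
  cont : Continuous φ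
  even : ∀ α, φ (-α) = φ α
  supp : ∃ A : ℝ, ∀ α, A ≤ |α| → φ α = 0
  int : Integrable (fT φ)

/-- The weighted sum of `f` over the normalised differences of pairs of ordinates. -/
noncomputable def PS (T : ℝ) (f : ℝ → ℝ) : ℝ :=
  (N0 T)⁻¹ * ∑ γ ∈ ordinates T, ∑ γ' ∈ ordinates T,
    (mult γ : ℝ) * (mult γ' : ℝ) * f (Real.log T * (γ - γ') / (2 * Real.pi)) * weight (γ - γ')

/-- The density `1 - (sin πx/(πx))²`. -/
noncomputable def sc (x : ℝ) : ℝ := 1 - (Real.sin (Real.pi * x) / (Real.pi * x)) ^ 2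

/-- The conjectural limit of `PS T f`. -/
noncomputable def LL (f : ℝ → ℝ) : ℝ := f 0 + ∫ x, f x * sc x

end Pool.Agent.Lib.MP_00e05b_nt.Mont
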