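import Pool.Agent.Lib.MP_00e05b_nt.Mont.G1
import Pool.Agent.Lib.MP_00e05b_nt.Mont.BaseF

/-!
# JOB G2: the pair sums `PS T f`

* `PS_FF`: as `pair_sum` of C3.lean: `FF_cos`, exchange of the finite sums and the integral.
* `PS_split`: the diagonal pairs give `f 0 * weight 0 * mult γ ^ 2` (`weight 0 = 1`); the others come in symmetric pairs (`f`, `weight` even).
* `PS_bound`: with `ψ` of `fT_tent`: `|PS T e| ≤ κ PS T (fT ψ) = κ ∫ FF ψ` and by `base_sym` the integral tends to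
  `ψ 0 + ∫ |x| ψ x`. (All terms `mult`, `weight`, `N0` are nonnegative.) Take `C = 1 + |ψ 0 + ∫ |x| ψ x|`.
* `LL_bound`: `|sc x| ≤ 1`, `∫ 1/(1 + x²) = π` (`integral_univ_inv_one_add_sq`), `norm_integral_le_of_norm_le`.
* `LL_sub`: additivity of the integral.
-/

open Set Filter Topology MeasureTheory

namespace Pool.Agent.Lib.MP_00e05b_nt.Mont

private lemma G2_quot_abs (x : ℝ) : |Real.sin (Real.pi * x) / (Real.pi * x)| ≤ 1 := by
  rw [abs_div]
  exact div_le_one_of_le₀ Real.abs_sin_le_abs (abs_nonneg _)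

private lemma G2_quot_sq (x : ℝ) : (Real.sin (Real.pi * x) / (Real.pi * x)) ^ 2 ≤ 1 := by
  rw [← sq_abs]
  exact pow_le_one₀ (abs_nonneg _) (G2_quot_abs x)

theorem sc_nonneg (x : ℝ) : 0 ≤ sc x := by
  unfold sc
  linarith [G2_quot_sq x]

theorem sc_le_one (x : ℝ) : sc x ≤ 1 := by
  unfold sc
  linarith [sq_nonneg (Real.sin (Real.pi * x) / (Real.pi * x))]

theorem sc_measurable : Measurable sc := by
  unfold sc
  have h1 : Measurable fun x : ℝ => Real.sin (Real.pi * x) :=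
    Real.measurable_sin.comp (measurable_const.mul measurable_id)
  have h2 : Measurable fun x : ℝ => Real.pi * x := measurable_const.mul measurable_id
  exact measurable_const.sub ((h1.div h2).pow_const 2)

private lemma G2_sc_even (x : ℝ) : sc (-x) = sc x := by
  unfold sc
  rw [mul_neg, Real.sin_neg, neg_div_neg_eq]

private lemma G2_sc_abs (x : ℝ) : |sc x| ≤ 1 := by
  rw [abs_of_nonneg (sc_nonneg x)]
  exact sc_le_one x

private lemma G2_sc_ii (a b : ℝ) : IntervalIntegrable sc volume a b := by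
  refine (intervalIntegrable_const (c := (1 : ℝ))).mono_fun sc_measurable.aestronglyMeasurable ?_
  refine Filter.Eventually.of_forall fun x => ?_
  show ‖sc x‖ ≤ ‖(1 : ℝ)‖
  rw [norm_one]
  exact G2_sc_abs x

theorem sc_gue {β : ℝ} (hβ : 0 ≤ β) : ∫ x in (-β)..β, sc x = 2 * gue β := by
  have h0 : ∫ x in (0 : ℝ)..β, sc x = gue β := rfl
  have h1 : ∫ x in (-β)..0, sc x = ∫ x in (0 : ℝ)..β, sc x := by
    have h2 := intervalIntegral.integral_comp_neg (a := 0) (b := β) sc
    rw [neg_zero] at h2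
    rw [← h2]
    exact intervalIntegral.integral_congr fun a _ => G2_sc_even a
  rw [← intervalIntegral.integral_add_adjacent_intervals (G2_sc_ii (-β) 0) (G2_sc_ii 0 β), h1, h0]
  ring

private lemma G2_compact {φ : ℝ → ℝ} (hs : ∃ A : ℝ, ∀ α, A ≤ |α| → φ α = 0) : HasCompactSupport φ := by
  obtain ⟨A, hA⟩ := hs
  refine HasCompactSupport.intro (K := Set.Icc (-A) A) isCompact_Icc fun x hx => ?_
  apply hA
  by_contra hcon
  exact hx (abs_le.1 (not_le.1 hcon).le)

private lemma G2_integrable {φ : ℝ → ℝ} (hc : Continuous φ) (hs : ∃ A : ℝ, ∀ α, A ≤ |α| → φ α = 0) (a : ℝ) :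
    Integrable (fun α : ℝ => Real.cos (a * α) * φ α) := by
  refine Continuous.integrable_of_hasCompactSupport ?_ ?_
  · exact (Real.continuous_cos.comp (continuous_const.mul continuous_id)).mul hc
  · exact (G2_compact hs).mul_left

theorem PS_FF {T : ℝ} (hT : 1 < T) {φ : ℝ → ℝ} (hc : Continuous φ) (hs : ∃ A : ℝ, ∀ α, A ≤ |α| → φ α = 0) :
    ∫ α : ℝ, FF α T * φ α = PS T (fT φ) := by
  unfold PS
  have h1 : ∀ α : ℝ, FF α T * φ α = (N0 T)⁻¹ * ∑ γ ∈ ordinates T, ∑ γ' ∈ ordinates T,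
      (mult γ : ℝ) * (mult γ' : ℝ) * weight (γ - γ') *
        (Real.cos (Real.log T * (γ - γ') * α) * φ α) := by
    intro α
    rw [FF_cos (by linarith) α, mul_assoc, Finset.sum_mul]
    congr 1
    refine Finset.sum_congr rfl fun γ _ => ?_
    rw [Finset.sum_mul]
    refine Finset.sum_congr rfl fun γ' _ => ?_
    have : α * Real.log T * (γ - γ') = Real.log T * (γ - γ') * α := by ring
    rw [this]
    ring
  simp_rw [h1]
  rw [integral_const_mul]
  congr 1
  rw [integral_finsetSum]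
  · refine Finset.sum_congr rfl fun γ _ => ?_
    rw [integral_finsetSum]
    · refine Finset.sum_congr rfl fun γ' _ => ?_
      rw [integral_const_mul]
      have h2 : ∫ α : ℝ, Real.cos (Real.log T * (γ - γ') * α) * φ α =
          fT φ (Real.log T * (γ - γ') / (2 * Real.pi)) := by
        unfold fT
        apply integral_congr_ae
        refine Filter.Eventually.of_forall fun α => ?_
        have : 2 * Real.pi * (Real.log T * (γ - γ') / (2 * Real.pi)) * α =
            Real.log T * (γ - γ') * α := by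
          have := Real.pi_ne_zero
          field_simp
        show Real.cos (Real.log T * (γ - γ') * α) * φ α =
          φ α * Real.cos (2 * Real.pi * (Real.log T * (γ - γ') / (2 * Real.pi)) * α)
        rw [this, mul_comm]
      rw [h2]
      ring
    · intro γ' _
      exact (G2_integrable hc hs _).const_mul _
  · intro γ _
    exact integrable_finsetSum _ fun γ' _ => (G2_integrable hc hs _).const_mul _

private lemma G2_weight_even (u : ℝ) : weight (-u) = weight u := by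
  unfold weight
  rw [neg_sq]

private lemma G2_weight_zero : weight 0 = 1 := by
  unfold weight
  norm_num

private lemma G2_weight_nonneg (u : ℝ) : 0 ≤ weight u := by
  unfold weight
  positivity

theorem PS_split {T : ℝ} (hT : 1 < T) {f : ℝ → ℝ} (he : ∀ x, f (-x) = f x) :
    PS T f = f 0 * (Nstar T / N0 T) + 2 * ((N0 T)⁻¹ * ∑ γ ∈ ordinates T, ∑ γ' ∈ ordinates T,
      if 0 < γ - γ' then (mult γ : ℝ) * (mult γ' : ℝ) * f (Real.log T * (γ - γ') / (2 * Real.pi)) * weight (γ - γ')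
      else 0) := by
  obtain ⟨g, hg⟩ : ∃ g : ℝ → ℝ → ℝ, g = fun γ γ' =>
    (mult γ : ℝ) * (mult γ' : ℝ) * f (Real.log T * (γ - γ') / (2 * Real.pi)) * weight (γ - γ') := ⟨_, rfl⟩
  have hsym : ∀ γ γ', g γ γ' = g γ' γ := by
    intro γ γ'
    rw [hg]
    show (mult γ : ℝ) * (mult γ' : ℝ) * f (Real.log T * (γ - γ') / (2 * Real.pi)) * weight (γ - γ') =
      (mult γ' : ℝ) * (mult γ : ℝ) * f (Real.log T * (γ' - γ) / (2 * Real.pi)) * weight (γ' - γ)
    have e1 : Real.log T * (γ - γ') / (2 * Real.pi) = -(Real.log T * (γ' - γ) / (2 * Real.pi)) := by ring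
    have e2 : γ - γ' = -(γ' - γ) := by ring
    rw [e1, he, e2, G2_weight_even]
    ring
  have hdiag : ∀ γ, g γ γ = f 0 * (mult γ : ℝ) ^ 2 := by
    intro γ
    rw [hg]
    show (mult γ : ℝ) * (mult γ : ℝ) * f (Real.log T * (γ - γ) / (2 * Real.pi)) * weight (γ - γ) = _
    have e1 : Real.log T * (γ - γ) / (2 * Real.pi) = 0 := by rw [sub_self, mul_zero, zero_div]
    rw [e1, sub_self, G2_weight_zero]
    ring
  have hpt : ∀ γ γ', g γ γ' = (if γ = γ' then g γ γ' else 0) + (if 0 < γ - γ' then g γ γ' else 0) +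
      (if 0 < γ' - γ then g γ' γ else 0) := by
    intro γ γ'
    rcases lt_trichotomy γ γ' with h | h | h
    · rw [if_neg h.ne, if_neg (by linarith), if_pos (by linarith), hsym]
      ring
    · subst h
      rw [if_pos rfl, sub_self, if_neg (lt_irrefl _)]
      ring
    · rw [if_neg h.ne', if_pos (by linarith), if_neg (by linarith)]
      ring
  have hsum : ∑ γ ∈ ordinates T, ∑ γ' ∈ ordinates T, g γ γ' = f 0 * Nstar T +
      2 * ∑ γ ∈ ordinates T, ∑ γ' ∈ ordinates T, (if 0 < γ - γ' then g γ γ' else 0) := by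
    have h1 : ∑ γ ∈ ordinates T, ∑ γ' ∈ ordinates T, g γ γ' =
        ∑ γ ∈ ordinates T, ∑ γ' ∈ ordinates T, ((if γ = γ' then g γ γ' else 0) +
          (if 0 < γ - γ' then g γ γ' else 0) + (if 0 < γ' - γ then g γ' γ else 0)) :=
      Finset.sum_congr rfl fun γ _ => Finset.sum_congr rfl fun γ' _ => hpt γ γ'
    rw [h1]
    simp only [Finset.sum_add_distrib]
    have h2 : ∑ γ ∈ ordinates T, ∑ γ' ∈ ordinates T, (if γ = γ' then g γ γ' else 0) = f 0 * Nstar T := by
      unfold Nstar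
      rw [Finset.mul_sum]
      refine Finset.sum_congr rfl fun γ hγ => ?_
      rw [Finset.sum_ite_eq, if_pos hγ]
      exact hdiag γ
    have h3 : ∑ γ ∈ ordinates T, ∑ γ' ∈ ordinates T, (if 0 < γ' - γ then g γ' γ else 0) =
        ∑ γ ∈ ordinates T, ∑ γ' ∈ ordinates T, (if 0 < γ - γ' then g γ γ' else 0) := Finset.sum_comm
    rw [h2, h3]
    ring
  have e1 : PS T f = (N0 T)⁻¹ * ∑ γ ∈ ordinates T, ∑ γ' ∈ ordinates T, g γ γ' := by
    unfold PS
    rw [hg]
  have e2 : (∑ γ ∈ ordinates T, ∑ γ' ∈ ordinates T,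
      if 0 < γ - γ' then (mult γ : ℝ) * (mult γ' : ℝ) * f (Real.log T * (γ - γ') / (2 * Real.pi)) * weight (γ - γ')
      else 0) = ∑ γ ∈ ordinates T, ∑ γ' ∈ ordinates T, (if 0 < γ - γ' then g γ γ' else 0) := by
    rw [hg]
  rw [e1, e2, hsum]
  ring

theorem PS_sub (T : ℝ) (f g : ℝ → ℝ) : PS T (fun x => f x - g x) = PS T f - PS T g := by
  unfold PS
  rw [← mul_sub, ← Finset.sum_sub_distrib]
  congr 1
  refine Finset.sum_congr rfl fun γ _ => ?_
  rw [← Finset.sum_sub_distrib]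
  refine Finset.sum_congr rfl fun γ' _ => ?_
  ring

private lemma G2_abs_le {T κ : ℝ} (hT : 1 < T) {e f : ℝ → ℝ} (h : ∀ x, |e x| ≤ κ * f x) :
    |PS T e| ≤ κ * PS T f := by
  have hN : 0 ≤ (N0 T)⁻¹ := (inv_pos.2 (N0_pos hT)).le
  unfold PS
  rw [abs_mul, abs_of_nonneg hN]
  have h1 : |∑ γ ∈ ordinates T, ∑ γ' ∈ ordinates T,
      (mult γ : ℝ) * (mult γ' : ℝ) * e (Real.log T * (γ - γ') / (2 * Real.pi)) * weight (γ - γ')| ≤
      κ * ∑ γ ∈ ordinates T, ∑ γ' ∈ ordinates T,
      (mult γ : ℝ) * (mult γ' : ℝ) * f (Real.log T * (γ - γ') / (2 * Real.pi)) * weight (γ - γ') := by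
    rw [Finset.mul_sum]
    refine (Finset.abs_sum_le_sum_abs _ _).trans (Finset.sum_le_sum fun γ _ => ?_)
    rw [Finset.mul_sum]
    refine (Finset.abs_sum_le_sum_abs _ _).trans (Finset.sum_le_sum fun γ' _ => ?_)
    have hm : (0 : ℝ) ≤ (mult γ : ℝ) * (mult γ' : ℝ) := by positivity
    rw [abs_mul, abs_mul, abs_of_nonneg hm, abs_of_nonneg (G2_weight_nonneg _)]
    have h2 := mul_le_mul_of_nonneg_right (mul_le_mul_of_nonneg_left
      (h (Real.log T * (γ - γ') / (2 * Real.pi))) hm) (G2_weight_nonneg (γ - γ'))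
    refine h2.trans (le_of_eq ?_)
    ring
  refine (mul_le_mul_of_nonneg_left h1 hN).trans (le_of_eq ?_)
  ring

theorem PS_bound (hRH : RiemannHypothesis) : ∃ C : ℝ, 0 ≤ C ∧ ∀ᶠ T : ℝ in atTop, ∀ (κ : ℝ) (e : ℝ → ℝ),
    (∀ x, |e x| ≤ κ / (1 + x ^ 2)) → |PS T e| ≤ C * κ := by
  obtain ⟨ψ, hc, -, h0, hψ⟩ := fT_tent
  obtain ⟨l, hl⟩ : ∃ l : ℝ, l = ψ 0 + ∫ x : ℝ, |x| * ψ x := ⟨_, rfl⟩
  have hlim := base_sym hRH hc h0
  rw [← hl] at hlim
  refine ⟨1 + |l|, by positivity, ?_⟩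
  have h1 := hlim.eventually (gt_mem_nhds (show l < 1 + |l| by linarith [le_abs_self l]))
  filter_upwards [h1, eventually_gt_atTop 1] with T g1 g2 κ e he
  have hκ : 0 ≤ κ := by
    have := (abs_nonneg _).trans (he 0)
    simpa using this
  have h2 : ∀ x, |e x| ≤ κ * fT ψ x := by
    intro x
    refine (he x).trans ?_
    rw [div_eq_mul_one_div]
    exact mul_le_mul_of_nonneg_left (hψ x) hκ
  have h3 := G2_abs_le g2 h2
  rw [← PS_FF g2 hc ⟨1, h0⟩] at h3
  refine h3.trans ?_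
  rw [mul_comm (1 + |l|) κ]
  exact mul_le_mul_of_nonneg_left g1.le hκ

theorem LL_bound {κ : ℝ} {e : ℝ → ℝ} (h : ∀ x, |e x| ≤ κ / (1 + x ^ 2)) : |LL e| ≤ 5 * κ := by
  have h0 : |e 0| ≤ κ := by
    have := h 0
    simpa using this
  have hκ : 0 ≤ κ := (abs_nonneg _).trans h0
  have h1 : ‖∫ x, e x * sc x‖ ≤ ∫ x : ℝ, κ * (1 + x ^ 2)⁻¹ := by
    refine norm_integral_le_of_norm_le (integrable_inv_one_add_sq.const_mul κ) ?_
    refine Filter.Eventually.of_forall fun x => ?_
    rw [Real.norm_eq_abs, abs_mul, ← div_eq_mul_inv]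
    calc |e x| * |sc x| ≤ |e x| * 1 := mul_le_mul_of_nonneg_left (G2_sc_abs x) (abs_nonneg _)
      _ = |e x| := mul_one _
      _ ≤ _ := h x
  rw [integral_const_mul, integral_univ_inv_one_add_sq, Real.norm_eq_abs] at h1
  unfold LL
  have h2 := abs_add_le (e 0) (∫ x, e x * sc x)
  have h3 : κ * Real.pi ≤ κ * 4 := mul_le_mul_of_nonneg_left Real.pi_le_four hκ
  linarith

private lemma G2_mul_sc {f : ℝ → ℝ} (hf : Integrable f) : Integrable fun x => f x * sc x := by
  refine hf.mul_bdd (c := 1) sc_measurable.aestronglyMeasurable ?_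
  refine Filter.Eventually.of_forall fun x => ?_
  rw [Real.norm_eq_abs]
  exact G2_sc_abs x

theorem LL_sub {f g : ℝ → ℝ} (hf : Integrable f) (hg : Integrable g) :
    LL (fun x => f x - g x) = LL f - LL g := by
  unfold LL
  have h1 : ∫ x, (f x - g x) * sc x = (∫ x, f x * sc x) - ∫ x, g x * sc x := by
    rw [← integral_sub (G2_mul_sc hf) (G2_mul_sc hg)]
    refine integral_congr_ae (Filter.Eventually.of_forall fun x => ?_)
    show (f x - g x) * sc x = f x * sc x - g x * sc x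
    ring
  rw [h1]
  ring

end Pool.Agent.Lib.MP_00e05b_nt.Mont
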