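import Pool.Agent.Lib.MP_00e05b_nt.Mont.G1

/-!
# JOB G3: approximation by functions with compactly supported Fourier transform

Let `ψ` be a smooth even bump supported in `[-2, 2]` with `ψ 0 = 1` and `k = fT ψ`, so `∫ k = 1` (`fT_int`) and `|k u| ≤ C/(1 + u²)²`
(`fT_smooth`). For `Δ ≥ 1` put `φ α = fT f α * ψ (α/Δ)`. By Fubini and `cos a cos b = (cos (a - b) + cos (a + b))/2` and the evenness of `f`,
`fT φ x = ∫ f y Δ k (Δ (x - y)) dy = ∫ f (x - u/Δ) k u du` (`G3_conv`, `G3_scale`, `G3_shift`). Pointwise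
`|f x - f (x - u/Δ)| ≤ K (1 + u²)/(Δ (1 + x²))` (`G3_point`), so `|f x - fT φ x| ≤ K C π/(Δ (1 + x²))`.
-/

open Set Filter Topology MeasureTheory

namespace Pool.Agent.Lib.MP_00e05b_nt.Mont

private lemma G3_bump : ∃ ψ : ℝ → ℝ, ContDiff ℝ (⊤ : ℕ∞) ψ ∧ (∀ α, ψ (-α) = ψ α) ∧ (∀ α, 2 ≤ |α| → ψ α = 0) ∧ ψ 0 = 1 := by
  let b : ContDiffBump (0 : ℝ) := ⟨1, 2, one_pos, one_lt_two⟩
  refine ⟨b, b.contDiff, fun α => b.neg α, fun α h => ?_, ?_⟩
  · apply b.zero_of_le_dist
    rw [Real.dist_eq, sub_zero]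
    exact h
  · apply b.one_of_mem_closedBall
    exact Metric.mem_closedBall_self zero_le_one

private lemma G3_cs {f : ℝ → ℝ} (hf : Continuous f) {A : ℝ} (hs : ∀ α, A ≤ |α| → f α = 0) : Integrable f := by
  refine hf.integrable_of_hasCompactSupport ?_
  refine HasCompactSupport.intro (isCompact_Icc (a := -A) (b := A)) fun x hx => hs x ?_
  by_contra h
  rw [not_le, abs_lt] at h
  exact hx ⟨h.1.le, h.2.le⟩

private lemma G3_bdd (ψ : ℝ → ℝ) (hψ : Integrable ψ) (x : ℝ) : |fT ψ x| ≤ ∫ α, |ψ α| := by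
  unfold fT
  refine (abs_integral_le_integral_abs).trans ?_
  apply integral_mono_of_nonneg (Filter.Eventually.of_forall fun _ => abs_nonneg _) hψ.abs
  refine Filter.Eventually.of_forall fun α => ?_
  simp only
  rw [abs_mul]
  calc |ψ α| * |Real.cos (2 * Real.pi * x * α)| ≤ |ψ α| * 1 :=
        mul_le_mul_of_nonneg_left (Real.abs_cos_le_one _) (abs_nonneg _)
    _ = |ψ α| := mul_one _

private lemma G3_conv {f ψ : ℝ → ℝ} (hf : Integrable f) (hfe : ∀ x, f (-x) = f x)
    (hψ : Integrable ψ) (hψc : Continuous (fT ψ)) (x : ℝ) :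
    fT (fun α => fT f α * ψ α) x = ∫ y, f y * fT ψ (x - y) := by
  have h1 : fT (fun α => fT f α * ψ α) x =
      ∫ α : ℝ, ∫ y : ℝ, f y * ψ α * (Real.cos (2 * Real.pi * α * y) * Real.cos (2 * Real.pi * x * α)) := by
    unfold fT
    refine integral_congr_ae (Filter.Eventually.of_forall fun α => ?_)
    simp only
    rw [← integral_mul_const, ← integral_mul_const]
    refine integral_congr_ae (Filter.Eventually.of_forall fun y => ?_)
    simp only
    ring
  have h2 : Integrable (Function.uncurry fun (α y : ℝ) =>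
      f y * ψ α * (Real.cos (2 * Real.pi * α * y) * Real.cos (2 * Real.pi * x * α))) (volume.prod volume) := by
    have h := hψ.mul_prod hf
    have h' : Integrable (fun z : ℝ × ℝ => f z.2 * ψ z.1) (volume.prod volume) := by
      refine h.congr (Filter.Eventually.of_forall fun z => ?_)
      simp only
      ring
    refine h'.mul_bdd (c := 1) (by fun_prop) (Filter.Eventually.of_forall fun v => ?_)
    rw [Real.norm_eq_abs, abs_mul]
    exact mul_le_one₀ (Real.abs_cos_le_one _) (abs_nonneg _) (Real.abs_cos_le_one _)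
  rw [h1, integral_integral_swap h2]
  have hcc : ∀ w : ℝ, Integrable (fun α : ℝ => ψ α * Real.cos (2 * Real.pi * w * α)) := by
    intro w
    refine hψ.mul_bdd (c := 1) (by fun_prop) (Filter.Eventually.of_forall fun v => ?_)
    rw [Real.norm_eq_abs]
    exact Real.abs_cos_le_one _
  have h3 : ∀ y : ℝ, ∫ α : ℝ, f y * ψ α * (Real.cos (2 * Real.pi * α * y) * Real.cos (2 * Real.pi * x * α)) =
      (f y * fT ψ (x - y) + f y * fT ψ (x + y)) / 2 := by
    intro y
    have e1 : ∀ α : ℝ, f y * ψ α * (Real.cos (2 * Real.pi * α * y) * Real.cos (2 * Real.pi * x * α)) =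
        (f y / 2) * (ψ α * Real.cos (2 * Real.pi * (x - y) * α)) +
          (f y / 2) * (ψ α * Real.cos (2 * Real.pi * (x + y) * α)) := by
      intro α
      have e2 : Real.cos (2 * Real.pi * (x - y) * α) = Real.cos (2 * Real.pi * x * α - 2 * Real.pi * α * y) := by
        congr 1
        ring
      have e3 : Real.cos (2 * Real.pi * (x + y) * α) = Real.cos (2 * Real.pi * x * α + 2 * Real.pi * α * y) := by
        congr 1
        ring
      rw [e2, e3, Real.cos_sub, Real.cos_add]
      ring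
    simp only [e1]
    rw [integral_add ((hcc _).const_mul _) ((hcc _).const_mul _), integral_const_mul, integral_const_mul]
    unfold fT
    ring
  simp only [h3]
  have i1 : Integrable (fun y => f y * fT ψ (x - y)) := by
    refine hf.mul_bdd (c := ∫ α, |ψ α|) ?_ (Filter.Eventually.of_forall fun v => G3_bdd ψ hψ _)
    exact (hψc.comp (continuous_const.sub continuous_id)).aestronglyMeasurable
  have i2 : Integrable (fun y => f y * fT ψ (x + y)) := by
    refine hf.mul_bdd (c := ∫ α, |ψ α|) ?_ (Filter.Eventually.of_forall fun v => G3_bdd ψ hψ _)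
    exact (hψc.comp (continuous_const.add continuous_id)).aestronglyMeasurable
  have h4 : ∫ y, f y * fT ψ (x + y) = ∫ y, f y * fT ψ (x - y) := by
    rw [← integral_neg_eq_self (fun y => f y * fT ψ (x + y)) volume]
    refine integral_congr_ae (Filter.Eventually.of_forall fun v => ?_)
    simp only [hfe]
    rw [← sub_eq_add_neg]
  rw [integral_div, integral_add i1 i2, h4]
  ring

private lemma G3_scale (ψ : ℝ → ℝ) {D : ℝ} (hD : 0 < D) (x : ℝ) :
    fT (fun α => ψ (α / D)) x = D * fT ψ (D * x) := by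
  unfold fT
  have h := Measure.integral_comp_div (fun β : ℝ => ψ β * Real.cos (2 * Real.pi * (D * x) * β)) D
  rw [abs_of_pos hD, smul_eq_mul] at h
  rw [← h]
  refine integral_congr_ae (Filter.Eventually.of_forall fun α => ?_)
  simp only
  congr 2
  field_simp

private lemma G3_shift (f k : ℝ → ℝ) {D : ℝ} (hD : 0 < D) (x : ℝ) :
    ∫ y, f y * (D * k (D * (x - y))) = ∫ u, f (x - u / D) * k u := by
  have h1 := integral_sub_left_eq_self (fun y : ℝ => f y * (D * k (D * (x - y)))) volume x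
  rw [← h1]
  have h2 := Measure.integral_comp_mul_left (fun u : ℝ => f (x - u / D) * k u) D
  rw [abs_of_pos (inv_pos.2 hD), smul_eq_mul] at h2
  have h3 : ∫ u, f (x - u / D) * k u = D * ∫ u, f (x - D * u / D) * k (D * u) := by
    rw [h2, ← mul_assoc, mul_inv_cancel₀ hD.ne', one_mul]
  rw [h3, ← integral_const_mul]
  refine integral_congr_ae (Filter.Eventually.of_forall fun u => ?_)
  simp only
  rw [mul_div_cancel_left₀ _ hD.ne', sub_sub_cancel]
  ring

private lemma G3_point {f : ℝ → ℝ} {L B : ℝ} (hL0 : 0 ≤ L) (hB : 1 ≤ B) (hL : ∀ x y, |f x - f y| ≤ L * |x - y|)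
    (hs : ∀ x, B ≤ |x| → f x = 0) {D : ℝ} (hD : 1 ≤ D) (x u : ℝ) :
    |f x - f (x - u / D)| ≤ ((1 + 4 * B ^ 2) * L + 8 * (2 * L * B)) * (1 + u ^ 2) / D / (1 + x ^ 2) := by
  have hD0 : 0 < D := by linarith
  have hx : 0 < 1 + x ^ 2 := by positivity
  obtain ⟨v, hv⟩ : ∃ v : ℝ, v = u / D := ⟨_, rfl⟩
  rw [← hv]
  have huv : u = D * v := by rw [hv]; field_simp
  have hau : |v| ≤ (1 + u ^ 2) / D := by
    rw [le_div_iff₀ hD0]
    have e1 : |v| * D = |u| := by rw [huv, abs_mul, abs_of_pos hD0, mul_comm]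
    rw [e1]
    nlinarith [sq_abs u, sq_nonneg (|u| - 1), abs_nonneg u]
  rw [le_div_iff₀ hx]
  rcases le_total (2 * B) |x| with h | h
  · have hfx : f x = 0 := hs x (by linarith)
    rw [hfx, zero_sub, abs_neg]
    rcases le_total B |x - v| with h' | h'
    · rw [hs _ h', abs_zero, zero_mul]
      positivity
    · have hv1 : |x| / 2 ≤ |v| := by
        have := abs_sub_abs_le_abs_sub x (x - v)
        have e1 : x - (x - v) = v := by ring
        rw [e1] at this
        linarith
      have hv2 : 1 ≤ |v| := by linarith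
      have hM : |f (x - v)| ≤ 2 * L * B := by
        have h1 := hL (x - v) B
        rw [hs B (le_abs_self B), sub_zero] at h1
        refine h1.trans ?_
        have h2 : |x - v - B| ≤ 2 * B := by
          refine (abs_sub _ _).trans ?_
          rw [abs_of_nonneg (show (0 : ℝ) ≤ B by linarith)]
          linarith
        nlinarith
      have hx2 : 1 + x ^ 2 ≤ 8 * v ^ 2 := by
        have h3 : 1 ≤ v ^ 2 := by
          rw [← sq_abs]
          nlinarith
        have h4 : x ^ 2 ≤ 4 * v ^ 2 := by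
          rw [← sq_abs x, ← sq_abs v]
          nlinarith [abs_nonneg x, abs_nonneg v]
        linarith
      have hv3 : v ^ 2 ≤ (1 + u ^ 2) / D := by
        rw [le_div_iff₀ hD0, huv]
        nlinarith [sq_nonneg v, mul_nonneg (sq_nonneg v) hD0.le]
      calc |f (x - v)| * (1 + x ^ 2) ≤ (2 * L * B) * (8 * v ^ 2) := by
            apply mul_le_mul hM hx2 hx.le (by positivity)
        _ = (8 * (2 * L * B)) * v ^ 2 := by ring
        _ ≤ (8 * (2 * L * B)) * ((1 + u ^ 2) / D) := mul_le_mul_of_nonneg_left hv3 (by positivity)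
        _ ≤ ((1 + 4 * B ^ 2) * L + 8 * (2 * L * B)) * (1 + u ^ 2) / D := by
            rw [mul_div_assoc]
            apply mul_le_mul_of_nonneg_right _ (by positivity)
            have : 0 ≤ (1 + 4 * B ^ 2) * L := by positivity
            linarith
  · have h1 := hL x (x - v)
    rw [sub_sub_cancel] at h1
    have hx2 : 1 + x ^ 2 ≤ 1 + 4 * B ^ 2 := by
      have : x ^ 2 ≤ (2 * B) ^ 2 := by
        rw [← sq_abs x]
        exact pow_le_pow_left₀ (abs_nonneg _) h 2
      linarith [this, show (2 * B) ^ 2 = 4 * B ^ 2 by ring]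
    calc |f x - f (x - v)| * (1 + x ^ 2) ≤ (L * |v|) * (1 + 4 * B ^ 2) := by
          apply mul_le_mul h1 hx2 hx.le (by positivity)
      _ = ((1 + 4 * B ^ 2) * L) * |v| := by ring
      _ ≤ ((1 + 4 * B ^ 2) * L) * ((1 + u ^ 2) / D) := mul_le_mul_of_nonneg_left hau (by positivity)
      _ ≤ ((1 + 4 * B ^ 2) * L + 8 * (2 * L * B)) * (1 + u ^ 2) / D := by
          rw [mul_div_assoc]
          apply mul_le_mul_of_nonneg_right _ (by positivity)
          have : 0 ≤ 8 * (2 * L * B) := by positivity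
          linarith

theorem band_approx {f : ℝ → ℝ} (he : ∀ x, f (-x) = f x) (hL : ∃ K : ℝ, ∀ x y, |f x - f y| ≤ K * |x - y|)
    (hs : ∃ B : ℝ, ∀ x, B ≤ |x| → f x = 0) {κ : ℝ} (hκ : 0 < κ) :
    ∃ φ : ℝ → ℝ, CE φ ∧ ∀ x, |f x - fT φ x| ≤ κ / (1 + x ^ 2) := by
  obtain ⟨L₀, hL₀⟩ := hL
  obtain ⟨B₀, hB₀⟩ := hs
  obtain ⟨L, hLe⟩ : ∃ L : ℝ, L = max L₀ 0 := ⟨_, rfl⟩
  obtain ⟨B, hBe⟩ : ∃ B : ℝ, B = max B₀ 1 := ⟨_, rfl⟩
  have hL0 : 0 ≤ L := by rw [hLe]; exact le_max_right _ _
  have hB1 : 1 ≤ B := by rw [hBe]; exact le_max_right _ _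
  have hL : ∀ x y, |f x - f y| ≤ L * |x - y| := fun x y =>
    (hL₀ x y).trans (mul_le_mul_of_nonneg_right (by rw [hLe]; exact le_max_left _ _) (abs_nonneg _))
  have hs : ∀ x, B ≤ |x| → f x = 0 := fun x hx => hB₀ x (le_trans (by rw [hBe]; exact le_max_left _ _) hx)
  have hfc : Continuous f := by
    have hlip : LipschitzWith L.toNNReal f := by
      apply LipschitzWith.of_dist_le_mul
      intro x y
      rw [Real.dist_eq, Real.dist_eq, Real.coe_toNNReal _ hL0]
      exact hL x y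
    exact hlip.continuous
  have hfi : Integrable f := G3_cs hfc hs
  obtain ⟨ψ, hψs, hψe, hψ0, hψ1⟩ := G3_bump
  obtain ⟨hCE, -, C, hC0, hC⟩ := fT_smooth hψs hψe ⟨2, hψ0⟩
  have hki : Integrable (fT ψ) := hCE.int
  have hk1 : ∫ x, fT ψ x = 1 := by rw [fT_int hCE, hψ1]
  obtain ⟨K, hK⟩ : ∃ K : ℝ, K = (1 + 4 * B ^ 2) * L + 8 * (2 * L * B) := ⟨_, rfl⟩
  have hK0 : 0 ≤ K := by rw [hK]; positivity
  obtain ⟨D, hDe⟩ : ∃ D : ℝ, D = max 1 (K * C * Real.pi / κ) := ⟨_, rfl⟩
  have hD1 : 1 ≤ D := by rw [hDe]; exact le_max_left _ _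
  have hD0 : 0 < D := by linarith
  have hD2 : K * C * Real.pi / D ≤ κ := by
    rw [div_le_iff₀ hD0, mul_comm κ, ← div_le_iff₀ hκ, hDe]
    exact le_max_right _ _
  have hψc : Continuous ψ := hCE.cont
  have hψDc : Continuous (fun α : ℝ => ψ (α / D)) := hψc.comp (continuous_id.div_const _)
  have hψD0 : ∀ α, 2 * D ≤ |α| → ψ (α / D) = 0 := by
    intro α h
    apply hψ0
    rw [abs_div, abs_of_pos hD0, le_div_iff₀ hD0]
    exact h
  have hψDi : Integrable (fun α : ℝ => ψ (α / D)) := G3_cs hψDc hψD0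
  have hφc : Continuous (fun α : ℝ => fT f α * ψ (α / D)) := (fT_cont hfc ⟨B, hs⟩).mul hψDc
  have hφ0 : ∀ α, 2 * D ≤ |α| → fT f α * ψ (α / D) = 0 := fun α h => by rw [hψD0 α h, mul_zero]
  have hmain : ∀ x, |f x - fT (fun α : ℝ => fT f α * ψ (α / D)) x| ≤ κ / (1 + x ^ 2) := by
    intro x
    have hx : 0 < 1 + x ^ 2 := by positivity
    have e1 : fT (fun α : ℝ => fT f α * ψ (α / D)) x = ∫ u, f (x - u / D) * fT ψ u := by
      rw [G3_conv hfi he hψDi (fT_cont hψDc ⟨2 * D, hψD0⟩) x, ← G3_shift f (fT ψ) hD0 x]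
      refine integral_congr_ae (Filter.Eventually.of_forall fun y => ?_)
      simp only
      rw [G3_scale ψ hD0]
    have e2 : f x = ∫ u, f x * fT ψ u := by
      rw [integral_const_mul, hk1, mul_one]
    have hfb : ∀ z, ‖f z‖ ≤ 2 * L * B := by
      intro z
      rw [Real.norm_eq_abs]
      rcases le_total B |z| with h | h
      · rw [hs z h, abs_zero]
        positivity
      · have h1 := hL z B
        rw [hs B (le_abs_self B), sub_zero] at h1
        refine h1.trans ?_
        have h2 : |z - B| ≤ 2 * B := by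
          refine (abs_sub _ _).trans ?_
          rw [abs_of_nonneg (show (0 : ℝ) ≤ B by linarith)]
          linarith
        nlinarith
    have i1 : Integrable (fun u => f (x - u / D) * fT ψ u) := by
      refine hki.bdd_mul (c := 2 * L * B) ?_ (Filter.Eventually.of_forall fun v => hfb _)
      exact (hfc.comp (continuous_const.sub (continuous_id.div_const _))).aestronglyMeasurable
    have e3 : f x - fT (fun α : ℝ => fT f α * ψ (α / D)) x = ∫ u, (f x - f (x - u / D)) * fT ψ u := by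
      rw [e1]
      nth_rewrite 1 [e2]
      rw [← integral_sub (hki.const_mul _) i1]
      refine integral_congr_ae (Filter.Eventually.of_forall fun y => ?_)
      simp only
      ring
    rw [e3]
    refine abs_integral_le_integral_abs.trans ?_
    have i2 : Integrable (fun u : ℝ => (K * C / D / (1 + x ^ 2)) * (1 + u ^ 2)⁻¹) :=
      integrable_inv_one_add_sq.const_mul _
    have h5 : ∫ u, |(f x - f (x - u / D)) * fT ψ u| ≤ ∫ u : ℝ, (K * C / D / (1 + x ^ 2)) * (1 + u ^ 2)⁻¹ := by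
      apply integral_mono_of_nonneg (Filter.Eventually.of_forall fun _ => abs_nonneg _) i2
      refine Filter.Eventually.of_forall fun u => ?_
      simp only
      rw [abs_mul]
      have h6 := G3_point hL0 hB1 hL hs hD1 x u
      rw [← hK] at h6
      have h7 := hC u
      have hu : 0 < 1 + u ^ 2 := by positivity
      calc |f x - f (x - u / D)| * |fT ψ u| ≤ (K * (1 + u ^ 2) / D / (1 + x ^ 2)) * (C / (1 + u ^ 2) ^ 2) :=
            mul_le_mul h6 h7 (abs_nonneg _) (by positivity)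
        _ = (K * C / D / (1 + x ^ 2)) * (1 + u ^ 2)⁻¹ := by
            field_simp
    refine h5.trans ?_
    rw [integral_const_mul, integral_univ_inv_one_add_sq]
    calc K * C / D / (1 + x ^ 2) * Real.pi = (K * C * Real.pi / D) / (1 + x ^ 2) := by ring
      _ ≤ κ / (1 + x ^ 2) := div_le_div_of_nonneg_right hD2 hx.le
  refine ⟨fun α : ℝ => fT f α * ψ (α / D), ⟨hφc, ?_, ⟨2 * D, hφ0⟩, ?_⟩, hmain⟩
  · intro α
    rw [fT_even, neg_div, hψe]
  · have i3 : Integrable (fun x : ℝ => |f x| + κ * (1 + x ^ 2)⁻¹) :=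
      hfi.abs.add (integrable_inv_one_add_sq.const_mul _)
    refine i3.mono' (fT_cont hφc ⟨2 * D, hφ0⟩).aestronglyMeasurable (Filter.Eventually.of_forall fun x => ?_)
    rw [Real.norm_eq_abs]
    have h8 := hmain x
    rw [abs_sub_comm] at h8
    have h9 := abs_sub_abs_le_abs_sub (fT (fun α : ℝ => fT f α * ψ (α / D)) x) (f x)
    rw [div_eq_mul_inv] at h8
    linarith

end Pool.Agent.Lib.MP_00e05b_nt.Mont
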