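import Pool.Agent.Lib.MP_00e05b_nt.Mont.G0
import Pool.Agent.Lib.MP_00e05b_nt.Mont.BaseF

/-!
# JOB G4A: averaged asymptotics imply convergence against test functions

By `FF_even` and evenness of `φ`: `∫ FF φ = 2 ∫_0^A FF φ` (`φ = 0` for `|α| ≥ A`, `A > 1`). The integral over `[0, 1]` tends to
`φ 0/2 + ∫_0^1 x φ x` by `base`. On `[1, A]` (as in the proof of `base`): partition `1 = x_0 < ... < x_n = A` with oscillation of `φ` at most `ε`;
`|∫_1^A FF φ - ∑ φ(x_{i-1}) ∫_{x_{i-1}}^{x_i} FF| ≤ ε ∫_1^A FF ≤ ε A` eventually, and `∫_{x_{i-1}}^{x_i} FF → x_i - x_{i-1}`.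
So `∫_1^A FF φ → ∫_1^A φ`, and `2 (φ 0/2 + ∫_0^1 x φ x + ∫_1^A φ) = φ 0 + ∫ min |α| 1 * φ α`.
-/

open Set Filter Topology MeasureTheory

namespace Pool.Agent.Lib.MP_00e05b_nt.Mont

/-- replacing `r` by a constant on a short interval -/
private lemma G4A_step {G r : ℝ → ℝ} {x y c e : ℝ} (hxy : x ≤ y) (hG : Continuous G)
    (hr : Continuous r) (h0 : ∀ a, 0 ≤ G a) (he : ∀ a ∈ Icc x y, |r a - c| ≤ e) :
    |(∫ a in x..y, G a * r a) - c * ∫ a in x..y, G a| ≤ e * ∫ a in x..y, G a := by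
  have i1 : IntervalIntegrable (fun a => G a * r a) volume x y := (hG.mul hr).intervalIntegrable _ _
  have i2 : IntervalIntegrable G volume x y := hG.intervalIntegrable _ _
  have e1 : (∫ a in x..y, G a * r a) - c * ∫ a in x..y, G a = ∫ a in x..y, G a * (r a - c) := by
    rw [← intervalIntegral.integral_const_mul, ← intervalIntegral.integral_sub i1 (i2.const_mul c)]
    refine intervalIntegral.integral_congr fun a _ => ?_
    ring
  have i3 : IntervalIntegrable (fun a => G a * (r a - c)) volume x y :=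
    (hG.mul (hr.sub continuous_const)).intervalIntegrable _ _
  rw [e1, ← intervalIntegral.integral_const_mul]
  refine (intervalIntegral.abs_integral_le_integral_abs hxy).trans ?_
  apply intervalIntegral.integral_mono_on hxy i3.abs (i2.const_mul e)
  intro a ha
  rw [abs_mul, abs_of_nonneg (h0 a), mul_comm e]
  exact mul_le_mul_of_nonneg_left (he a ha) (h0 a)

private lemma G4A_part {p : ℕ → ℝ} (hp : Monotone p) (N : ℕ) {G r : ℝ → ℝ} {e : ℝ} (hG : Continuous G)
    (hr : Continuous r) (h0 : ∀ a, 0 ≤ G a)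
    (he : ∀ i < N, ∀ a ∈ Icc (p i) (p (i + 1)), |r a - r (p i)| ≤ e) :
    |(∫ a in (p 0)..(p N), G a * r a) - ∑ i ∈ Finset.range N, r (p i) *
      ∫ a in (p i)..(p (i + 1)), G a| ≤ e * ∫ a in (p 0)..(p N), G a := by
  have hsum : ∀ (f : ℝ → ℝ), Continuous f →
      ∑ i ∈ Finset.range N, ∫ a in (p i)..(p (i + 1)), f a = ∫ a in (p 0)..(p N), f a := by
    intro f hf
    exact intervalIntegral.sum_integral_adjacent_intervals (fun k _ => hf.intervalIntegrable _ _)
  rw [← hsum (fun a => G a * r a) (hG.mul hr), ← hsum G hG, ← Finset.sum_sub_distrib, Finset.mul_sum]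
  refine (Finset.abs_sum_le_sum_abs _ _).trans (Finset.sum_le_sum fun i hi => ?_)
  rw [Finset.mem_range] at hi
  exact G4A_step (hp (Nat.le_succ i)) hG hr h0 (he i hi)

private lemma G4A_gen {F : ℝ → ℝ → ℝ} (hc : ∀ᶠ T in atTop, Continuous (F T))
    (h0 : ∀ᶠ T in atTop, ∀ x, 0 ≤ F T x)
    (hM : ∀ x y, 1 ≤ x → x < y → Tendsto (fun T => ∫ a in x..y, F T a) atTop (𝓝 (y - x)))
    {r : ℝ → ℝ} (hr : Continuous r) {A : ℝ} (hA : 1 < A) :
    Tendsto (fun T => ∫ a in (1 : ℝ)..A, F T a * r a) atTop (𝓝 (∫ x in (1 : ℝ)..A, r x)) := by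
  rw [Metric.tendsto_nhds]
  intro ε hε
  have hAp : 0 < A - 1 := sub_pos.2 hA
  obtain ⟨e, he⟩ : ∃ e : ℝ, e = ε / (2 * (A - 1) + 3) := ⟨_, rfl⟩
  have he0 : 0 < e := by rw [he]; positivity
  obtain ⟨δ, hδ, hu⟩ := Metric.uniformContinuousOn_iff.1
    ((isCompact_Icc (a := (1 : ℝ)) (b := A)).uniformContinuousOn_of_continuous hr.continuousOn) e he0
  obtain ⟨n, hn⟩ := exists_nat_one_div_lt (show 0 < δ / (A - 1) by positivity)
  obtain ⟨N, hNn⟩ : ∃ N : ℕ, N = n + 1 := ⟨_, rfl⟩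
  have hN : 0 < N := by omega
  have hN' : (0 : ℝ) < N := by exact_mod_cast hN
  have hstep : (A - 1) * ((1 : ℝ) / N) < δ := by
    rw [hNn]
    push_cast
    rw [lt_div_iff₀ hAp] at hn
    linarith
  obtain ⟨p, hp⟩ : ∃ p : ℕ → ℝ, ∀ i, p i = 1 + (A - 1) * ((i : ℝ) / N) := ⟨_, fun _ => rfl⟩
  have hp0 : p 0 = 1 := by rw [hp]; simp
  have hpN : p N = A := by rw [hp, div_self hN'.ne']; ring
  have hps : ∀ i, p (i + 1) = p i + (A - 1) * (1 / N) := by
    intro i
    rw [hp, hp]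
    push_cast
    ring
  have hplt : ∀ i, p i < p (i + 1) := by
    intro i
    rw [hps]
    have : 0 < (A - 1) * (1 / (N : ℝ)) := by positivity
    linarith
  have hpm : Monotone p := (strictMono_nat_of_lt_succ hplt).monotone
  have hp1 : ∀ i, 1 ≤ p i := by
    intro i
    rw [← hp0]
    exact hpm (Nat.zero_le i)
  have hosc : ∀ i < N, ∀ a ∈ Icc (p i) (p (i + 1)), |r a - r (p i)| ≤ e := by
    intro i hi a ha
    have h2 : p (i + 1) ≤ A := by
      rw [← hpN]
      exact hpm hi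
    have h4 : p i ≤ A := (hplt i).le.trans h2
    have h5 := hu a ⟨(hp1 i).trans ha.1, ha.2.trans h2⟩ (p i) ⟨hp1 i, h4⟩ (by
      rw [Real.dist_eq, abs_of_nonneg (sub_nonneg.2 ha.1)]
      have := ha.2
      rw [hps] at this
      linarith)
    rw [Real.dist_eq] at h5
    exact h5.le
  have hS : Tendsto (fun T => ∑ i ∈ Finset.range N, r (p i) * ∫ a in (p i)..(p (i + 1)), F T a) atTop
      (𝓝 (∑ i ∈ Finset.range N, r (p i) * (p (i + 1) - p i))) :=
    tendsto_finsetSum _ fun i _ => (hM (p i) (p (i + 1)) (hp1 i) (hplt i)).const_mul _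
  have h1 := Metric.tendsto_nhds.1 hS e he0
  have h2 := (hM 1 A le_rfl hA).eventually (gt_mem_nhds (show A - 1 < A - 1 + 1 by linarith))
  have hid := G4A_part hpm N (G := fun _ => 1) continuous_const hr (fun _ => zero_le_one) hosc
  rw [hp0, hpN] at hid
  simp only [intervalIntegral.integral_const, smul_eq_mul, mul_one, one_mul] at hid
  filter_upwards [h1, h2, hc, h0] with T g1 g2 g3 g4
  have g5 := G4A_part hpm N (G := F T) g3 hr g4 hosc
  rw [hp0, hpN] at g5
  rw [Real.dist_eq] at g1 ⊢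
  have g6 : e * ∫ a in (1 : ℝ)..A, F T a ≤ e * (A - 1 + 1) := mul_le_mul_of_nonneg_left g2.le he0.le
  have g7 := (abs_le.1 (g5.trans g6))
  have g8 := abs_lt.1 g1
  have g9 := abs_le.1 hid
  rw [abs_lt]
  have e5 : ε = e * (A - 1 + 1) + e + e * (A - 1) + e := by
    rw [he]
    field_simp
    ring
  constructor
  · linarith [g7.1, g7.2, g8.1, g8.2, g9.1, g9.2]
  · linarith [g7.1, g7.2, g8.1, g8.2, g9.1, g9.2]

private lemma G4A_sym {g : ℝ → ℝ} (hg : Continuous g) (he : ∀ a, g (-a) = g a) {A : ℝ} (hA : 0 ≤ A)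
    (h0 : ∀ x, A ≤ |x| → g x = 0) : ∫ a, g a = 2 * ∫ a in (0 : ℝ)..A, g a := by
  have h1 : ∫ a, g a = ∫ a in (-A)..A, g a := by
    rw [intervalIntegral.integral_of_le (by linarith), setIntegral_eq_integral_of_forall_compl_eq_zero]
    intro a ha
    apply h0 a
    by_contra hcon
    rw [not_le, abs_lt] at hcon
    exact ha ⟨hcon.1, hcon.2.le⟩
  rw [h1, ← intervalIntegral.integral_add_adjacent_intervals (hg.intervalIntegrable (-A) 0)
    (hg.intervalIntegrable 0 A)]
  have h2 : ∫ a in (-A)..0, g a = ∫ a in (0 : ℝ)..A, g a := by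
    have h3 := intervalIntegral.integral_comp_neg (a := 0) (b := A) g
    rw [neg_zero] at h3
    rw [← h3]
    exact intervalIntegral.integral_congr fun a _ => he a
  rw [h2]
  ring

theorem test_of_avg (hRH : RiemannHypothesis)
    (ha : ∀ a b : ℝ, 1 ≤ a → a < b → Tendsto (fun T : ℝ => ∫ α in a..b, FF α T) atTop (𝓝 (b - a)))
    {φ : ℝ → ℝ} (hc : Continuous φ) (he : ∀ α, φ (-α) = φ α) (hs : ∃ A : ℝ, ∀ α, A ≤ |α| → φ α = 0) :
    Tendsto (fun T : ℝ => ∫ α : ℝ, FF α T * φ α) atTop (𝓝 (φ 0 + ∫ α : ℝ, min |α| 1 * φ α)) := by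
  obtain ⟨A₀, hA₀⟩ := hs
  obtain ⟨A, hA⟩ : ∃ A : ℝ, A = max A₀ 1 + 1 := ⟨_, rfl⟩
  have hA1 : 1 < A := by
    have := le_max_right A₀ 1
    linarith
  have hA2 : A₀ ≤ A := by
    have := le_max_left A₀ 1
    linarith
  have hA3 : 0 ≤ A := by linarith
  have hs : ∀ α, A ≤ |α| → φ α = 0 := fun α h => hA₀ α (hA2.trans h)
  have h1 := base hRH (r := φ) hc.continuousOn
  have h2 : Tendsto (fun T : ℝ => ∫ α in (1 : ℝ)..A, FF α T * φ α) atTop (𝓝 (∫ α in (1 : ℝ)..A, φ α)) := by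
    apply G4A_gen (F := fun T α => FF α T)
    · filter_upwards [eventually_gt_atTop 1] with T hT
      exact FF_continuous (lt_trans one_pos hT)
    · filter_upwards [eventually_gt_atTop 1] with T hT x
      exact FF_nonneg hT x
    · exact ha
    · exact hc
    · exact hA1
  have h3 := ((h1.add h2).const_mul 2)
  have e1 : φ 0 + ∫ α : ℝ, min |α| 1 * φ α =
      2 * (φ 0 / 2 + (∫ x in (0 : ℝ)..1, x * φ x) + ∫ α in (1 : ℝ)..A, φ α) := by
    have hcm : Continuous fun α : ℝ => min |α| 1 * φ α := by fun_prop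
    rw [G4A_sym hcm (fun a => by simp only [abs_neg, he]) hA3 (fun x hx => by rw [hs x hx, mul_zero]),
      ← intervalIntegral.integral_add_adjacent_intervals (hcm.intervalIntegrable 0 1)
        (hcm.intervalIntegrable 1 A)]
    have e2 : ∫ α in (0 : ℝ)..1, min |α| 1 * φ α = ∫ x in (0 : ℝ)..1, x * φ x := by
      refine intervalIntegral.integral_congr fun a h => ?_
      rw [uIcc_of_le zero_le_one] at h
      simp only [abs_of_nonneg h.1, min_eq_left h.2]
    have e3 : ∫ α in (1 : ℝ)..A, min |α| 1 * φ α = ∫ α in (1 : ℝ)..A, φ α := by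
      refine intervalIntegral.integral_congr fun a h => ?_
      rw [uIcc_of_le hA1.le] at h
      simp only [min_eq_right (h.1.trans (le_abs_self a)), one_mul]
    rw [e2, e3]
    ring
  rw [e1]
  refine h3.congr' ?_
  filter_upwards [eventually_gt_atTop 1] with T hT
  have hFc := FF_continuous (lt_trans one_pos hT)
  have hcm : Continuous fun α : ℝ => FF α T * φ α := hFc.mul hc
  rw [G4A_sym hcm (fun a => by rw [FF_even (lt_trans one_pos hT), he]) hA3
    (fun x hx => by rw [hs x hx, mul_zero]),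
    ← intervalIntegral.integral_add_adjacent_intervals (hcm.intervalIntegrable 0 1)
        (hcm.intervalIntegrable 1 A)]

end Pool.Agent.Lib.MP_00e05b_nt.Mont
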