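import Pool.Agent.Lib.MP_00e05b_nt.Mont.Defs

/-!
# JOB Gue: elementary properties of the integrated pair correlation function

The integrand `1 - (sin πu/(πu))²` is between `0` and `1` and continuous off `0` (bounded and measurable, so interval integrable;
it equals `1 - sinc² (πu)` off `0`).
-/

open Set Filter Topology MeasureTheory

namespace Pool.Agent.Lib.MP_00e05b_nt.Mont

private noncomputable def Gue_g (u : ℝ) : ℝ := 1 - (Real.sinc (Real.pi * u)) ^ 2

private lemma Gue_cont : Continuous Gue_g := by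
  unfold Gue_g
  exact continuous_const.sub ((Real.continuous_sinc.comp (continuous_const.mul continuous_id)).pow 2)

private lemma Gue_nonneg (u : ℝ) : 0 ≤ Gue_g u := by
  unfold Gue_g
  have h := Real.abs_sinc_le_one (Real.pi * u)
  have h2 : (Real.sinc (Real.pi * u)) ^ 2 ≤ 1 := by
    rw [← sq_abs]
    nlinarith [abs_nonneg (Real.sinc (Real.pi * u))]
  linarith

private lemma Gue_le (u : ℝ) : Gue_g u ≤ 1 := by
  unfold Gue_g
  nlinarith [sq_nonneg (Real.sinc (Real.pi * u))]

private lemma Gue_of_ne (u : ℝ) (hu : u ≠ 0) :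
    1 - (Real.sin (Real.pi * u) / (Real.pi * u)) ^ 2 = Gue_g u := by
  unfold Gue_g
  rw [Real.sinc_of_ne_zero (mul_ne_zero Real.pi_ne_zero hu)]

private lemma Gue_eq (β : ℝ) : gue β = ∫ u in (0 : ℝ)..β, Gue_g u := by
  unfold gue
  refine intervalIntegral.integral_congr_ae ?_
  have h : ∀ᵐ u : ℝ ∂volume, u ≠ 0 := by
    rw [ae_iff]
    simp
  filter_upwards [h] with u hu _
  exact Gue_of_ne u hu

private lemma Gue_fun : gue = fun β => ∫ u in (0 : ℝ)..β, Gue_g u := funext Gue_eq

theorem gue_hasDeriv (β : ℝ) (hβ : 0 < β) :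
    HasDerivAt gue (1 - (Real.sin (Real.pi * β) / (Real.pi * β)) ^ 2) β := by
  rw [Gue_fun, Gue_of_ne β hβ.ne']
  exact intervalIntegral.integral_hasDerivAt_right (Gue_cont.intervalIntegrable _ _)
    (Gue_cont.stronglyMeasurableAtFilter _ _) Gue_cont.continuousAt

theorem gue_continuous : Continuous gue := by
  rw [Gue_fun]
  exact intervalIntegral.continuous_primitive (fun a b => Gue_cont.intervalIntegrable a b) 0

theorem gue_mono : MonotoneOn gue (Ici 0) := by
  intro a _ b _ hab
  rw [Gue_eq, Gue_eq]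
  have h := intervalIntegral.integral_add_adjacent_intervals (Gue_cont.intervalIntegrable (μ := volume) 0 a)
    (Gue_cont.intervalIntegrable (μ := volume) a b)
  have h2 : 0 ≤ ∫ u in a..b, Gue_g u := intervalIntegral.integral_nonneg hab (fun u _ => Gue_nonneg u)
  linarith

theorem gue_nonneg (β : ℝ) (hβ : 0 ≤ β) : 0 ≤ gue β := by
  rw [Gue_eq]
  exact intervalIntegral.integral_nonneg hβ (fun u _ => Gue_nonneg u)

theorem gue_le (β : ℝ) (hβ : 0 ≤ β) : gue β ≤ β := by
  rw [Gue_eq]
  have h : ∫ u in (0 : ℝ)..β, Gue_g u ≤ ∫ u in (0 : ℝ)..β, (1 : ℝ) :=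
    intervalIntegral.integral_mono_on hβ (Gue_cont.intervalIntegrable _ _) intervalIntegrable_const
      (fun u _ => Gue_le u)
  simpa using h

end Pool.Agent.Lib.MP_00e05b_nt.Mont
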