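import Pool.Agent.Lib.MP_00e05b_nt.Mont.G2
import Pool.Agent.Lib.MP_00e05b_nt.Mont.G3
import Pool.Agent.Lib.MP_00e05b_nt.Mont.G4A
import Pool.Agent.Lib.MP_00e05b_nt.Mont.Gue

/-!
# JOB G4: averaged asymptotics imply the counting form (lower half)

* `PS_of_avg`: `band_approx` gives `φ` with `|f - fT φ| ≤ κ/(1 + x²)`. `PS T (fT φ) = ∫ FF φ → φ 0 + ∫ min |α| 1 φ = LL (fT φ)`
  (`PS_FF`, `test_of_avg`, `LL_fT`); `|PS T f - PS T (fT φ)| ≤ C κ` eventually (`PS_bound`, `PS_sub`), `|LL f - LL (fT φ)| ≤ 5 κ`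
  (`LL_bound`, `LL_sub`). Let `κ → 0`.
* `count_lower_of_avg`: for `0 < κ < β` let `f x = max 0 (min 1 ((β - |x|)/κ))`: even, Lipschitz, `0 ≤ f ≤ 1`, `f = 0` for `|x| ≥ β`, `f = 1` for
  `|x| ≤ β - κ`. By `PS_split` and `0 ≤ weight ≤ 1`: `PS T f ≤ Nstar/N0 + 2 NP(T, β)/N0`. By `PS_of_avg`, `hN` and
  `LL f ≥ 1 + ∫_{|x| ≤ β - κ} sc = 1 + 2 gue (β - κ) ≥ 1 + 2 gue β - 2κ` (`sc_gue`, `0 ≤ sc ≤ 1`) the claim follows, with `κ` small.
-/

open Set Filter Topology MeasureTheory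

namespace Pool.Agent.Lib.MP_00e05b_nt.Mont

private lemma g4_cont {f : ℝ → ℝ} (hL : ∃ K : ℝ, ∀ x y, |f x - f y| ≤ K * |x - y|) : Continuous f := by
  obtain ⟨K, hK⟩ := hL
  have h0 : 0 ≤ K := by
    have h1 := (abs_nonneg _).trans (hK 1 0)
    simpa using h1
  have h1 : LipschitzWith ⟨K, h0⟩ f := by
    refine LipschitzWith.of_dist_le_mul fun x y => ?_
    rw [Real.dist_eq, Real.dist_eq]
    exact hK x y
  exact h1.continuous

private lemma g4_int {f : ℝ → ℝ} (hL : ∃ K : ℝ, ∀ x y, |f x - f y| ≤ K * |x - y|)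
    (hs : ∃ B : ℝ, ∀ x, B ≤ |x| → f x = 0) : Integrable f := by
  obtain ⟨B, hB⟩ := hs
  refine (g4_cont hL).integrable_of_hasCompactSupport ?_
  refine HasCompactSupport.intro (K := Icc (-B) B) isCompact_Icc fun x hx => hB x ?_
  by_contra h1
  push Not at h1
  exact hx (abs_le.1 h1.le)

theorem PS_of_avg (hRH : RiemannHypothesis)
    (ha : ∀ a b : ℝ, 1 ≤ a → a < b → Tendsto (fun T : ℝ => ∫ α in a..b, FF α T) atTop (𝓝 (b - a)))
    {f : ℝ → ℝ} (he : ∀ x, f (-x) = f x) (hL : ∃ K : ℝ, ∀ x y, |f x - f y| ≤ K * |x - y|)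
    (hs : ∃ B : ℝ, ∀ x, B ≤ |x| → f x = 0) :
    Tendsto (fun T : ℝ => PS T f) atTop (𝓝 (LL f)) := by
  obtain ⟨C, hC, hb⟩ := PS_bound hRH
  rw [Metric.tendsto_nhds]
  intro ε hε
  have hC6 : (0 : ℝ) < 2 * (C + 6) := by linarith
  obtain ⟨κ, hκd⟩ : ∃ κ : ℝ, κ = ε / (2 * (C + 6)) := ⟨_, rfl⟩
  have hκ : 0 < κ := by rw [hκd]; positivity
  have hκε : (C + 6) * κ = ε / 2 := by
    rw [hκd]
    field_simp
  obtain ⟨φ, hφ, hφ2⟩ := band_approx he hL hs hκ
  have h1 : Tendsto (fun T : ℝ => PS T (fT φ)) atTop (𝓝 (LL (fT φ))) := by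
    rw [LL_fT hφ]
    refine (test_of_avg hRH ha hφ.cont hφ.even hφ.supp).congr' ?_
    filter_upwards [eventually_gt_atTop 1] with T hT
    exact PS_FF hT hφ.cont hφ.supp
  have h2 : |LL f - LL (fT φ)| ≤ 5 * κ := by
    rw [← LL_sub (g4_int hL hs) hφ.int]
    exact LL_bound hφ2
  filter_upwards [hb, (Metric.tendsto_nhds.1 h1) (ε / 2) (by positivity)] with T hT1 hT2
  have h3 : |PS T f - PS T (fT φ)| ≤ C * κ := by
    rw [← PS_sub]
    exact hT1 κ _ hφ2
  rw [Real.dist_eq] at hT2 ⊢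
  have h4 : PS T f - LL f = (PS T f - PS T (fT φ)) + (PS T (fT φ) - LL (fT φ)) - (LL f - LL (fT φ)) := by
    ring
  rw [h4]
  calc |(PS T f - PS T (fT φ)) + (PS T (fT φ) - LL (fT φ)) - (LL f - LL (fT φ))|
      ≤ |(PS T f - PS T (fT φ)) + (PS T (fT φ) - LL (fT φ))| + |LL f - LL (fT φ)| := abs_sub _ _
    _ ≤ |PS T f - PS T (fT φ)| + |PS T (fT φ) - LL (fT φ)| + |LL f - LL (fT φ)| := by
        gcongr
        exact abs_add_le _ _
    _ < C * κ + ε / 2 + 5 * κ := by linarith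
    _ ≤ ε := by nlinarith

/-- the trapezoid -/
private noncomputable def g4f (β κ x : ℝ) : ℝ := max 0 (min 1 ((β - |x|) / κ))

private lemma g4f_even (β κ x : ℝ) : g4f β κ (-x) = g4f β κ x := by rw [g4f, g4f, abs_neg]

private lemma g4f_nonneg (β κ x : ℝ) : 0 ≤ g4f β κ x := le_max_left _ _

private lemma g4f_le_one (β κ x : ℝ) : g4f β κ x ≤ 1 := max_le zero_le_one (min_le_left _ _)

private lemma g4f_zero {β κ : ℝ} (hκ : 0 < κ) {x : ℝ} (hx : β ≤ |x|) : g4f β κ x = 0 := by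
  rw [g4f]
  refine max_eq_left ((min_le_right _ _).trans ?_)
  exact div_nonpos_of_nonpos_of_nonneg (by linarith) hκ.le

private lemma g4f_one {β κ : ℝ} (hκ : 0 < κ) {x : ℝ} (hx : |x| ≤ β - κ) : g4f β κ x = 1 := by
  have h1 : 1 ≤ (β - |x|) / κ := by rw [le_div_iff₀ hκ]; linarith
  rw [g4f, min_eq_left h1]
  exact max_eq_right zero_le_one

private lemma g4f_lip {β κ : ℝ} (hκ : 0 < κ) (x y : ℝ) : |g4f β κ x - g4f β κ y| ≤ κ⁻¹ * |x - y| := by
  have h1 : |g4f β κ x - g4f β κ y| ≤ |(β - |x|) / κ - (β - |y|) / κ| := by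
    rw [g4f, g4f]
    refine (abs_max_sub_max_le_max _ _ _ _).trans ?_
    rw [sub_self, abs_zero]
    refine max_le (abs_nonneg _) ((abs_min_sub_min_le_max _ _ _ _).trans ?_)
    rw [sub_self, abs_zero]
    exact max_le (abs_nonneg _) le_rfl
  refine h1.trans ?_
  rw [← sub_div, abs_div, abs_of_pos hκ, div_eq_inv_mul]
  refine mul_le_mul_of_nonneg_left ?_ (inv_pos.2 hκ).le
  have h2 : β - |x| - (β - |y|) = |y| - |x| := by ring
  rw [h2, abs_sub_comm x y]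
  exact abs_abs_sub_abs_le_abs_sub _ _

private lemma g4_gue {β κ : ℝ} (hκ : 0 < κ) (hβ : κ < β) : gue β - κ ≤ gue (β - κ) := by
  have hlt : β - κ < β := by linarith
  obtain ⟨c, hc, h1⟩ := exists_hasDerivAt_eq_slope gue
    (fun x => 1 - (Real.sin (Real.pi * x) / (Real.pi * x)) ^ 2) hlt gue_continuous.continuousOn
    (fun x hx => gue_hasDeriv x (by linarith [hx.1]))
  have h2 : (gue β - gue (β - κ)) / (β - (β - κ)) ≤ 1 := by
    rw [← h1]
    have := sq_nonneg (Real.sin (Real.pi * c) / (Real.pi * c))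
    linarith
  rw [div_le_one (by linarith)] at h2
  linarith

private lemma g4_LL {β κ : ℝ} (hκ : 0 < κ) (hβ : κ < β) : 1 + 2 * gue β - 2 * κ ≤ LL (g4f β κ) := by
  have hL : ∃ K : ℝ, ∀ x y, |g4f β κ x - g4f β κ y| ≤ K * |x - y| := ⟨_, g4f_lip hκ⟩
  have hs : ∃ B : ℝ, ∀ x, B ≤ |x| → g4f β κ x = 0 := ⟨β, fun x hx => g4f_zero hκ hx⟩
  have hint : Integrable (fun x => g4f β κ x * sc x) := by
    refine (g4_int hL hs).mono' ((g4_cont hL).aestronglyMeasurable.mul sc_measurable.aestronglyMeasurable) ?_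
    refine Eventually.of_forall fun x => ?_
    rw [Real.norm_eq_abs, abs_mul, abs_of_nonneg (g4f_nonneg _ _ _), abs_of_nonneg (sc_nonneg x)]
    exact mul_le_of_le_one_right (g4f_nonneg _ _ _) (sc_le_one x)
  have h0 : g4f β κ 0 = 1 := g4f_one hκ (by rw [abs_zero]; linarith)
  have h1 : 2 * gue (β - κ) ≤ ∫ x, g4f β κ x * sc x := by
    rw [← sc_gue (by linarith), intervalIntegral.integral_of_le (by linarith)]
    have h2 : ∫ x in Ioc (-(β - κ)) (β - κ), sc x = ∫ x in Ioc (-(β - κ)) (β - κ), g4f β κ x * sc x := by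
      refine setIntegral_congr_fun measurableSet_Ioc fun x hx => ?_
      rw [g4f_one hκ (abs_le.2 ⟨hx.1.le, hx.2⟩), one_mul]
    rw [h2]
    exact setIntegral_le_integral hint (Eventually.of_forall fun x => mul_nonneg (g4f_nonneg _ _ _) (sc_nonneg x))
  have h2 := g4_gue hκ hβ
  rw [LL, h0]
  linarith

private lemma g4_split {T β κ : ℝ} (hT : 1 < T) (hκ : 0 < κ) (hβ : κ < β) :
    PS T (g4f β κ) ≤ Nstar T / N0 T + 2 * (NP T β / N0 T) := by
  have h0 : g4f β κ 0 = 1 := g4f_one hκ (by rw [abs_zero]; linarith)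
  have hN0 := N0_pos hT
  have hlog : 0 < Real.log T := Real.log_pos hT
  have hpi := Real.pi_pos
  rw [PS_split hT (g4f_even β κ), h0, one_mul]
  have h1 : (∑ γ ∈ ordinates T, ∑ γ' ∈ ordinates T,
      if 0 < γ - γ' then (mult γ : ℝ) * (mult γ' : ℝ) *
        g4f β κ (Real.log T * (γ - γ') / (2 * Real.pi)) * weight (γ - γ') else 0) ≤ NP T β := by
    classical
    unfold NP
    refine Finset.sum_le_sum fun γ _ => Finset.sum_le_sum fun γ' _ => ?_
    have hm : (0 : ℝ) ≤ (mult γ : ℝ) * (mult γ' : ℝ) := by positivity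
    have hw0 : 0 ≤ weight (γ - γ') := by
      unfold weight
      positivity
    have hw1 : weight (γ - γ') ≤ 1 := by
      unfold weight
      rw [div_le_one (by positivity)]
      nlinarith [sq_nonneg (γ - γ')]
    by_cases hpos : 0 < γ - γ'
    · rw [if_pos hpos]
      by_cases h2 : γ - γ' ≤ 2 * Real.pi * β / Real.log T
      · rw [if_pos ⟨hpos, h2⟩]
        calc (mult γ : ℝ) * (mult γ' : ℝ) * g4f β κ (Real.log T * (γ - γ') / (2 * Real.pi)) * weight (γ - γ')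
            ≤ (mult γ : ℝ) * (mult γ' : ℝ) * 1 * 1 := by
              refine mul_le_mul (mul_le_mul_of_nonneg_left (g4f_le_one _ _ _) hm) hw1 hw0 (by linarith)
          _ = _ := by ring
      · rw [if_neg (fun h => h2 h.2)]
        have h3 : β ≤ |Real.log T * (γ - γ') / (2 * Real.pi)| := by
          push Not at h2
          rw [div_lt_iff₀ hlog] at h2
          refine le_trans ?_ (le_abs_self _)
          rw [le_div_iff₀ (by positivity)]
          linarith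
        rw [g4f_zero hκ h3]
        simp
    · rw [if_neg hpos, if_neg (fun h => hpos h.1)]
  have h2 : (N0 T)⁻¹ * (∑ γ ∈ ordinates T, ∑ γ' ∈ ordinates T,
      if 0 < γ - γ' then (mult γ : ℝ) * (mult γ' : ℝ) *
        g4f β κ (Real.log T * (γ - γ') / (2 * Real.pi)) * weight (γ - γ') else 0) ≤ NP T β / N0 T := by
    rw [div_eq_inv_mul]
    exact mul_le_mul_of_nonneg_left h1 (inv_pos.2 hN0).le
  linarith


theorem count_lower_of_avg (hRH : RiemannHypothesis)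
    (ha : ∀ a b : ℝ, 1 ≤ a → a < b → Tendsto (fun T : ℝ => ∫ α in a..b, FF α T) atTop (𝓝 (b - a)))
    (hN : Tendsto (fun T : ℝ => Nstar T / N0 T) atTop (𝓝 1)) :
    ∀ β > 0, ∀ ε > 0, ∀ᶠ T : ℝ in atTop, gue β - ε ≤ NP T β / N0 T := by
  intro β hβ ε hε
  obtain ⟨κ, hκd⟩ : ∃ κ : ℝ, κ = min (β / 2) (ε / 2) := ⟨_, rfl⟩
  have hκ : 0 < κ := by rw [hκd]; exact lt_min (by linarith) (by linarith)
  have hκβ : κ < β := by rw [hκd]; exact (min_le_left _ _).trans_lt (by linarith)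
  have hκε : κ ≤ ε / 2 := by rw [hκd]; exact min_le_right _ _
  have h1 := PS_of_avg hRH ha (f := g4f β κ) (g4f_even β κ) ⟨_, g4f_lip hκ⟩
    ⟨β, fun x hx => g4f_zero hκ hx⟩
  have h2 := g4_LL hκ hκβ
  filter_upwards [(Metric.tendsto_nhds.1 h1) (ε / 4) (by positivity),
    (Metric.tendsto_nhds.1 hN) (ε / 4) (by positivity), eventually_gt_atTop 1] with T hT1 hT2 hT
  rw [Real.dist_eq] at hT1 hT2
  have h3 := g4_split hT hκ hκβ
  have h4 := (abs_lt.1 hT1).1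
  have h5 := (abs_lt.1 hT2).2
  linarith

end Pool.Agent.Lib.MP_00e05b_nt.Mont
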