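import Pool.Agent.Lib.MP_00e05b_nt.Mont.G5A
import Pool.Agent.Lib.MP_00e05b_nt.Mont.BasA
import Pool.Agent.Lib.MP_00e05b_nt.Mont.BasB

/-!
# JOB G5: the counting form implies the averaged form (upper half)

* `PS_of_count_decay`: let `χ` be a smooth even function, `χ = 1` on `[-1, 1]`, `χ = 0` for `|x| ≥ 2`, `0 ≤ χ ≤ 1` (`exists_EB 2` of BasA.lean:
  import it). For `B ≥ 1` let `g x = f x * χ (x/B)` and `e = f - g`; `|e x| ≤ C/(1 + x²)² 1_{|x| ≥ B} ≤ (C/(1 + B²))/(1 + x²)`. By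
  `PS_of_count` `PS T g → LL g`; `PS_bound`, `PS_sub`, `LL_bound`, `LL_sub` and `B → ∞` give the claim.
* `avg_upper_of_count`: for `δ` small let `φ` be smooth, even, `0 ≤ φ ≤ 1`, `φ = 1` for `a ≤ |α| ≤ b`, `φ = 0` unless
  `a - δ ≤ |α| ≤ b + δ` (`δ < 1/2`; e.g. a product of `Real.smoothTransition`s of `α²`). By `fT_smooth`, `PS_FF`,
  `PS_of_count_decay`, `LL_fT`: `∫ FF φ → φ 0 + ∫ min |α| 1 φ ≤ ∫ φ ≤ 2 (b - a) + 4 δ` (`φ 0 = 0`), and `2 ∫_a^b FF ≤ ∫ FF φ`
  (`FF_nonneg`, `FF_even`, `FF_continuous`).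
-/

open Set Filter Topology MeasureTheory
open scoped ContDiff

namespace Pool.Agent.Lib.MP_00e05b_nt.Mont

/-- the cut-off of a decaying function -/
private lemma G5_cut {f : ℝ → ℝ} {C B : ℝ} (hC : 0 ≤ C) (hd : ∀ x, |f x| ≤ C / (1 + x ^ 2) ^ 2)
    (hB : 1 ≤ B) {χ : ℝ → ℝ} (hχ : EB χ 2) (x : ℝ) :
    |f x - f x * χ (x / B)| ≤ (C / (1 + B ^ 2)) / (1 + x ^ 2) := by
  have hB0 : 0 < B := by linarith
  have h1 : f x - f x * χ (x / B) = f x * (1 - χ (x / B)) := by ring
  have h2 : 0 ≤ 1 - χ (x / B) := by linarith [hχ.le_one (x / B)]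
  have h3 : 1 - χ (x / B) ≤ 1 := by linarith [hχ.nonneg (x / B)]
  have hx0 : 0 < 1 + x ^ 2 := by positivity
  have hB2 : 0 < 1 + B ^ 2 := by positivity
  rw [h1, abs_mul, abs_of_nonneg h2]
  rcases le_or_gt |x| B with h | h
  · have h4 : |x / B| ≤ 2 / 2 := by
      rw [abs_div, abs_of_pos hB0, div_self two_ne_zero, div_le_one hB0]
      exact h
    rw [hχ.one _ h4]
    simp only [sub_self, mul_zero]
    positivity
  · have h5 : B ^ 2 ≤ x ^ 2 := by
      rw [← sq_abs x]
      exact pow_le_pow_left₀ hB0.le h.le 2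
    calc |f x| * (1 - χ (x / B)) ≤ |f x| * 1 := mul_le_mul_of_nonneg_left h3 (abs_nonneg _)
      _ = |f x| := mul_one _
      _ ≤ C / (1 + x ^ 2) ^ 2 := hd x
      _ = (C / (1 + x ^ 2)) / (1 + x ^ 2) := by rw [sq (1 + x ^ 2), div_div]
      _ ≤ (C / (1 + B ^ 2)) / (1 + x ^ 2) := by
        apply div_le_div_of_nonneg_right _ hx0.le
        apply div_le_div_of_nonneg_left hC hB2
        linarith

private lemma G5_integrable {f : ℝ → ℝ} {C : ℝ} (hf : Continuous f) (hC : 0 ≤ C)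
    (hd : ∀ x, |f x| ≤ C / (1 + x ^ 2) ^ 2) : Integrable f := by
  refine Integrable.mono' (integrable_inv_one_add_sq.const_mul C) hf.aestronglyMeasurable
    (Filter.Eventually.of_forall fun x => ?_)
  rw [Real.norm_eq_abs]
  refine (hd x).trans ?_
  rw [← div_eq_mul_inv]
  apply div_le_div_of_nonneg_left hC (by positivity)
  nlinarith [sq_nonneg x, sq_nonneg (x ^ 2)]

theorem PS_of_count_decay (hRH : RiemannHypothesis)
    (hc : ∀ β > 0, Tendsto (fun T : ℝ => NP T β / N0 T) atTop (𝓝 (gue β)))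
    (hN : Tendsto (fun T : ℝ => Nstar T / N0 T) atTop (𝓝 1))
    {f : ℝ → ℝ} (hf : ContDiff ℝ 1 f) (he : ∀ x, f (-x) = f x)
    (hd : ∃ C : ℝ, 0 ≤ C ∧ ∀ x, |f x| ≤ C / (1 + x ^ 2) ^ 2) :
    Tendsto (fun T : ℝ => PS T f) atTop (𝓝 (LL f)) := by
  obtain ⟨C, hC, hd⟩ := hd
  obtain ⟨C0, hC0, hb⟩ := PS_bound hRH
  obtain ⟨χ, hχ⟩ := exists_EB 2 two_pos
  have hfi : Integrable f := G5_integrable hf.continuous hC hd
  rw [Metric.tendsto_atTop']
  intro ε hε
  obtain ⟨B, hBd⟩ : ∃ B : ℝ, B = 1 + 4 * ((C0 + 5) * C) / ε := ⟨_, rfl⟩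
  have hB1 : 1 ≤ B := by
    rw [hBd]
    have : 0 ≤ 4 * ((C0 + 5) * C) / ε := by positivity
    linarith
  have hB0 : 0 < B := by linarith
  obtain ⟨κ, hκ⟩ : ∃ κ : ℝ, κ = C / (1 + B ^ 2) := ⟨_, rfl⟩
  have hκ1 : (C0 + 5) * κ ≤ ε / 4 := by
    have h1 : 4 * ((C0 + 5) * C) / ε ≤ 1 + B ^ 2 := by
      have h2 : B ≤ B ^ 2 := by nlinarith
      linarith
    rw [div_le_iff₀ hε] at h1
    rw [hκ, ← mul_div_assoc, div_le_iff₀ (by positivity)]
    linarith
  have hg : ContDiff ℝ 1 (fun x => f x * χ (x / B)) :=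
    hf.mul ((hχ.smooth.of_le (by exact_mod_cast le_top)).comp (contDiff_id.div_const B))
  have hge : ∀ x, f (-x) * χ (-x / B) = f x * χ (x / B) := by
    intro x
    rw [he, neg_div, hχ.even]
  have hgs : ∃ B' : ℝ, ∀ x, B' ≤ |x| → f x * χ (x / B) = 0 := by
    refine ⟨2 * B, fun x hx => ?_⟩
    rw [hχ.supp, mul_zero]
    rw [abs_div, abs_of_pos hB0, le_div_iff₀ hB0]
    exact hx
  have hgd : ∀ x, |f x * χ (x / B)| ≤ C / (1 + x ^ 2) ^ 2 := by
    intro x
    rw [abs_mul, abs_of_nonneg (hχ.nonneg _)]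
    exact (mul_le_of_le_one_right (abs_nonneg _) (hχ.le_one _)).trans (hd x)
  have hgi : Integrable (fun x => f x * χ (x / B)) := G5_integrable hg.continuous hC hgd
  have hcut : ∀ x, |f x - f x * χ (x / B)| ≤ κ / (1 + x ^ 2) := by
    intro x
    rw [hκ]
    exact G5_cut hC hd hB1 hχ x
  have hlim := PS_of_count hc hN hg hge hgs
  rw [Metric.tendsto_atTop'] at hlim
  obtain ⟨T1, hT1⟩ := hlim (ε / 4) (by positivity)
  obtain ⟨T2, hT2⟩ := Filter.eventually_atTop.1 hb
  refine ⟨max T1 T2, fun T hT => ?_⟩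
  have hTa : T1 < T := lt_of_le_of_lt (le_max_left _ _) hT
  have hTb : T2 ≤ T := (lt_of_le_of_lt (le_max_right _ _) hT).le
  have i1 := hT1 T hTa
  have i2 := hT2 T hTb κ (fun x => f x - f x * χ (x / B)) hcut
  have i3 := LL_bound hcut
  rw [PS_sub] at i2
  rw [LL_sub hfi hgi] at i3
  rw [Real.dist_eq] at i1 ⊢
  rw [abs_le] at i2 i3
  rw [abs_lt] at i1 ⊢
  constructor <;> nlinarith [i1.1, i1.2, i2.1, i2.2, i3.1, i3.2]

/-- a smooth even function, `1` for `a ≤ |α| ≤ b`, `0` unless `a - δ < |α| < b + δ` -/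
private lemma G5_bump {a b δ : ℝ} (ha : 1 ≤ a) (hab : a < b) (hδ0 : 0 < δ) (hδ1 : δ ≤ 1 / 4) :
    ∃ φ : ℝ → ℝ, ContDiff ℝ ∞ φ ∧ (∀ α, φ (-α) = φ α) ∧ (∀ α, 0 ≤ φ α) ∧ (∀ α, φ α ≤ 1) ∧
      (∀ α, a ≤ |α| → |α| ≤ b → φ α = 1) ∧ (∀ α, |α| ≤ a - δ ∨ b + δ ≤ |α| → φ α = 0) := by
  have h1 : 0 < a ^ 2 - (a - δ) ^ 2 := by nlinarith
  have h2 : 0 < (b + δ) ^ 2 - b ^ 2 := by nlinarith
  refine ⟨fun α => Real.smoothTransition ((α ^ 2 - (a - δ) ^ 2) / (a ^ 2 - (a - δ) ^ 2)) *
    Real.smoothTransition (((b + δ) ^ 2 - α ^ 2) / ((b + δ) ^ 2 - b ^ 2)), ?_, ?_, ?_, ?_, ?_, ?_⟩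
  · have c1 : ContDiff ℝ ∞ (fun α : ℝ => (α ^ 2 - (a - δ) ^ 2) / (a ^ 2 - (a - δ) ^ 2)) :=
      ((contDiff_id.pow 2).sub contDiff_const).div_const _
    have c2 : ContDiff ℝ ∞ (fun α : ℝ => ((b + δ) ^ 2 - α ^ 2) / ((b + δ) ^ 2 - b ^ 2)) :=
      (contDiff_const.sub (contDiff_id.pow 2)).div_const _
    exact (Real.smoothTransition.contDiff.comp c1).mul (Real.smoothTransition.contDiff.comp c2)
  · intro α
    simp only [neg_sq]
  · intro α
    exact mul_nonneg (Real.smoothTransition.nonneg _) (Real.smoothTransition.nonneg _)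
  · intro α
    exact mul_le_one₀ (Real.smoothTransition.le_one _) (Real.smoothTransition.nonneg _)
      (Real.smoothTransition.le_one _)
  · intro α h3 h4
    have h5 : a ^ 2 ≤ α ^ 2 := by
      rw [← sq_abs α]
      exact pow_le_pow_left₀ (by linarith) h3 2
    have h6 : α ^ 2 ≤ b ^ 2 := by
      rw [← sq_abs α]
      exact pow_le_pow_left₀ (abs_nonneg _) h4 2
    simp only
    rw [Real.smoothTransition.one_of_one_le, Real.smoothTransition.one_of_one_le, one_mul]
    · rw [le_div_iff₀ h2]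
      linarith
    · rw [le_div_iff₀ h1]
      linarith
  · intro α h3
    simp only
    rcases h3 with h3 | h3
    · have h5 : α ^ 2 ≤ (a - δ) ^ 2 := by
        rw [← sq_abs α]
        exact pow_le_pow_left₀ (abs_nonneg _) h3 2
      rw [Real.smoothTransition.zero_of_nonpos, zero_mul]
      exact div_nonpos_of_nonpos_of_nonneg (by linarith) h1.le
    · have h5 : (b + δ) ^ 2 ≤ α ^ 2 := by
        rw [← sq_abs α]
        exact pow_le_pow_left₀ (by linarith) h3 2
      rw [Real.smoothTransition.zero_of_nonpos (x := ((b + δ) ^ 2 - α ^ 2) / ((b + δ) ^ 2 - b ^ 2)),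
        mul_zero]
      exact div_nonpos_of_nonpos_of_nonneg (by linarith) h2.le

theorem avg_upper_of_count (hRH : RiemannHypothesis)
    (hc : ∀ β > 0, Tendsto (fun T : ℝ => NP T β / N0 T) atTop (𝓝 (gue β)))
    (hN : Tendsto (fun T : ℝ => Nstar T / N0 T) atTop (𝓝 1)) :
    ∀ a b : ℝ, 1 ≤ a → a < b → ∀ ε > 0, ∀ᶠ T : ℝ in atTop, ∫ α in a..b, FF α T ≤ b - a + ε := by
  intro a b ha hab ε hε
  obtain ⟨δ, hδ0, hδ1, hδ2⟩ : ∃ δ : ℝ, 0 < δ ∧ δ ≤ 1 / 4 ∧ δ ≤ ε / 4 :=
    ⟨min (1 / 4) (ε / 4), lt_min (by norm_num) (by linarith), min_le_left _ _, min_le_right _ _⟩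
  obtain ⟨φ, hφs, hφe, hφ0, hφ1, hφone, hφz⟩ := G5_bump ha hab hδ0 hδ1
  have hsupp : ∃ A : ℝ, ∀ α, A ≤ |α| → φ α = 0 := ⟨b + δ, fun α h => hφz α (Or.inr h)⟩
  obtain ⟨hCE, hf1, hfd⟩ := fT_smooth hφs hφe hsupp
  have hlim := PS_of_count_decay hRH hc hN hf1 (fT_even φ) hfd
  rw [LL_fT hCE] at hlim
  have hφc : Continuous φ := hCE.cont
  have hφcs : HasCompactSupport φ := by
    apply HasCompactSupport.intro (isCompact_Icc (a := -(b + δ)) (b := b + δ))
    intro x hx
    apply hφz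
    right
    by_contra h
    push Not at h
    exact hx ⟨(abs_lt.1 h).1.le, (abs_lt.1 h).2.le⟩
  have h00 : φ 0 = 0 := hφz 0 (Or.inl (by rw [abs_zero]; linarith))
  have hup : φ 0 + ∫ α : ℝ, min |α| 1 * φ α ≤ 2 * (b - a) + 4 * δ := by
    rw [h00, zero_add]
    have h1 : ∫ α : ℝ, min |α| 1 * φ α ≤
        ∫ α : ℝ, (Icc (a - δ) (b + δ)).indicator (fun _ => (1 : ℝ)) α
          + (Icc (-(b + δ)) (-(a - δ))).indicator (fun _ => (1 : ℝ)) α := by
      apply integral_mono_of_nonneg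
      · exact Filter.Eventually.of_forall fun α => mul_nonneg (le_min (abs_nonneg _) zero_le_one) (hφ0 α)
      · exact (((integrable_indicator_iff measurableSet_Icc).2 (by simp)).add
          ((integrable_indicator_iff measurableSet_Icc).2 (by simp)))
      · refine Filter.Eventually.of_forall fun α => ?_
        show min |α| 1 * φ α ≤ (Icc (a - δ) (b + δ)).indicator (fun _ => (1 : ℝ)) α
          + (Icc (-(b + δ)) (-(a - δ))).indicator (fun _ => (1 : ℝ)) α
        have n1 : 0 ≤ (Icc (a - δ) (b + δ)).indicator (fun _ => (1 : ℝ)) α :=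
          indicator_nonneg (fun _ _ => zero_le_one) α
        have n2 : 0 ≤ (Icc (-(b + δ)) (-(a - δ))).indicator (fun _ => (1 : ℝ)) α :=
          indicator_nonneg (fun _ _ => zero_le_one) α
        have n3 : min |α| 1 * φ α ≤ 1 := by
          have := mul_le_mul (min_le_right |α| 1) (hφ1 α) (hφ0 α) zero_le_one
          linarith
        by_cases h : |α| ≤ a - δ ∨ b + δ ≤ |α|
        · rw [hφz α h, mul_zero]
          exact add_nonneg n1 n2
        · push Not at h
          rcases le_or_gt 0 α with hα | hα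
          · rw [abs_of_nonneg hα] at h
            have : α ∈ Icc (a - δ) (b + δ) := ⟨h.1.le, h.2.le⟩
            rw [indicator_of_mem this] 
            linarith
          · rw [abs_of_neg hα] at h
            have : α ∈ Icc (-(b + δ)) (-(a - δ)) := ⟨by linarith [h.2], by linarith [h.1]⟩
            rw [indicator_of_mem this (fun _ => (1 : ℝ))]
            linarith
    refine h1.trans (le_of_eq ?_)
    rw [integral_add ((integrable_indicator_iff measurableSet_Icc).2 (by simp))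
      ((integrable_indicator_iff measurableSet_Icc).2 (by simp)),
      integral_indicator measurableSet_Icc, integral_indicator measurableSet_Icc]
    simp only [integral_const, MeasurableSet.univ, measureReal_restrict_apply, univ_inter, smul_eq_mul, mul_one,
      Real.volume_real_Icc]
    rw [max_eq_left (by linarith), max_eq_left (by linarith)]
    ring
  filter_upwards [hlim.eventually (gt_mem_nhds (by linarith : φ 0 + ∫ α : ℝ, min |α| 1 * φ α <
    2 * (b - a) + 4 * δ + ε)), eventually_gt_atTop (1 : ℝ)] with T h1 hT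
  have hT0 : (0 : ℝ) < T := by linarith
  rw [← PS_FF hT hφc hsupp] at h1
  have hF : Continuous (fun α => FF α T) := FF_continuous hT0
  have h2 : 2 * ∫ α in a..b, FF α T ≤ ∫ α : ℝ, FF α T * φ α := by
    have e1 : ∫ α in (-b)..(-a), FF α T = ∫ α in a..b, FF α T := by
      rw [← intervalIntegral.integral_comp_neg (fun α => FF α T)]
      exact intervalIntegral.integral_congr fun α _ => FF_even hT0 α
    have e2 : 2 * ∫ α in a..b, FF α T = ∫ α : ℝ, (Icc a b).indicator (fun α => FF α T) α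
        + (Icc (-b) (-a)).indicator (fun α => FF α T) α := by
      rw [integral_add ((integrable_indicator_iff measurableSet_Icc).2
          (hF.continuousOn.integrableOn_Icc))
        ((integrable_indicator_iff measurableSet_Icc).2 (hF.continuousOn.integrableOn_Icc)),
        integral_indicator measurableSet_Icc, integral_indicator measurableSet_Icc,
        integral_Icc_eq_integral_Ioc, integral_Icc_eq_integral_Ioc,
        ← intervalIntegral.integral_of_le hab.le, ← intervalIntegral.integral_of_le (by linarith), e1]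
      ring
    rw [e2]
    apply integral_mono_of_nonneg
    · exact Filter.Eventually.of_forall fun α => add_nonneg
        (indicator_nonneg (fun _ _ => FF_nonneg hT _) α) (indicator_nonneg (fun _ _ => FF_nonneg hT _) α)
    · exact (hF.mul hφc).integrable_of_hasCompactSupport hφcs.mul_left
    · refine Filter.Eventually.of_forall fun α => ?_
      show (Icc a b).indicator (fun α => FF α T) α + (Icc (-b) (-a)).indicator (fun α => FF α T) α
        ≤ FF α T * φ α
      have hn := FF_nonneg hT α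
      by_cases h3 : α ∈ Icc a b
      · have h4 : α ∉ Icc (-b) (-a) := fun h => by
          have := h3.1
          have := h.2
          linarith
        rw [indicator_of_mem h3, indicator_of_notMem h4, hφone α (by rw [abs_of_nonneg (by linarith [h3.1])]; exact h3.1)
          (by rw [abs_of_nonneg (by linarith [h3.1])]; exact h3.2)]
        linarith
      · by_cases h4 : α ∈ Icc (-b) (-a)
        · rw [indicator_of_notMem h3, indicator_of_mem h4, hφone α
            (by rw [abs_of_nonpos (by linarith [h4.2])]; linarith [h4.2])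
            (by rw [abs_of_nonpos (by linarith [h4.2])]; linarith [h4.1])]
          linarith
        · rw [indicator_of_notMem h3, indicator_of_notMem h4, add_zero]
          exact mul_nonneg hn (hφ0 α)
  linarith

end Pool.Agent.Lib.MP_00e05b_nt.Mont
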