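import Pool.Agent.Lib.MP_00e05b_nt.Mont.G2
import Pool.Agent.Lib.MP_00e05b_nt.Mont.Gue
import Pool.Agent.Lib.MP_00e05b_nt.Mont.C3

/-!
# JOB G5A: the counting form implies convergence of the pair sums

`f` is `C^1`, even, `= 0` for `|x| ≥ B`. By `PS_split` `PS T f = f 0 * Nstar/N0 + 2 S`, where `S = (N0)⁻¹ ∑_{0 < x} m m' f x weight`,
`x = log T (γ - γ')/(2π)`. For `0 < x ≤ B` the weight is in `[1 - (πB/log T)², 1]`, so `S` differs from
`S' = (N0)⁻¹ ∑_{0 < x ≤ B} m m' f x` by at most `sup|f| (πB/log T)² NP(T, B)/N0 → 0`. For `0 < x ≤ B`: `f x = - ∫_x^B f'`, so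
`S' = - ∫_0^B f' β * (NP(T, β)/N0) dβ` (exchange of finite sum and integral; `NP_mono`, `NP_nonneg` of C3.lean). Dominated convergence
(`NP(T, β)/N0 ≤ NP(T, B)/N0 ≤ gue B + 1` eventually): `S' → - ∫_0^B f' gue = ∫_0^B f sc` (integration by parts, `gue 0 = 0`,
`gue_hasDeriv`, `f B = 0`). So `PS T f → f 0 + 2 ∫_0^B f sc = LL f` (`sc` and `f` are even).
-/

open Set Filter Topology MeasureTheory

namespace Pool.Agent.Lib.MP_00e05b_nt.Mont

private lemma G5A_weight {d b : ℝ} (hd : 0 < d) (hb : d ≤ b) : |weight d - 1| ≤ b ^ 2 / 4 := by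
  have h1 : weight d - 1 = -(d ^ 2 / (4 + d ^ 2)) := by
    unfold weight
    field_simp
    ring
  rw [h1, abs_neg, abs_of_nonneg (by positivity)]
  have h2 : d ^ 2 / (4 + d ^ 2) ≤ d ^ 2 / 4 := by
    apply div_le_div_of_nonneg_left (by positivity) (by norm_num)
    nlinarith [sq_nonneg d]
  have h3 : d ^ 2 ≤ b ^ 2 := pow_le_pow_left₀ hd.le hb 2
  linarith

private lemma G5A_err {T B M : ℝ} {f : ℝ → ℝ} (hT : 1 < T) (hM : ∀ x, |f x| ≤ M)
    (hB : ∀ x, B ≤ |x| → f x = 0) :
    |((N0 T)⁻¹ * ∑ γ ∈ ordinates T, ∑ γ' ∈ ordinates T,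
      if 0 < γ - γ' then (mult γ : ℝ) * (mult γ' : ℝ) * f (Real.log T * (γ - γ') / (2 * Real.pi)) * weight (γ - γ')
      else 0) - ((N0 T)⁻¹ * ∑ γ ∈ ordinates T, ∑ γ' ∈ ordinates T,
      if 0 < γ - γ' then (mult γ : ℝ) * (mult γ' : ℝ) * f (Real.log T * (γ - γ') / (2 * Real.pi))
      else 0)| ≤ M * ((2 * Real.pi * B / Real.log T) ^ 2 / 4) * (NP T B / N0 T) := by
  have hL : 0 < Real.log T := Real.log_pos hT
  have hN : 0 < N0 T := N0_pos hT
  have hM0 : 0 ≤ M := (abs_nonneg _).trans (hM 0)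
  rw [← mul_sub, abs_mul, abs_of_pos (inv_pos.2 hN)]
  have h1 : |(∑ γ ∈ ordinates T, ∑ γ' ∈ ordinates T,
      if 0 < γ - γ' then (mult γ : ℝ) * (mult γ' : ℝ) * f (Real.log T * (γ - γ') / (2 * Real.pi)) * weight (γ - γ')
      else 0) - (∑ γ ∈ ordinates T, ∑ γ' ∈ ordinates T,
      if 0 < γ - γ' then (mult γ : ℝ) * (mult γ' : ℝ) * f (Real.log T * (γ - γ') / (2 * Real.pi))
      else 0)| ≤ M * ((2 * Real.pi * B / Real.log T) ^ 2 / 4) * NP T B := by
    unfold NP
    rw [← Finset.sum_sub_distrib, Finset.mul_sum]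
    refine (Finset.abs_sum_le_sum_abs _ _).trans (Finset.sum_le_sum fun γ _ => ?_)
    rw [← Finset.sum_sub_distrib, Finset.mul_sum]
    refine (Finset.abs_sum_le_sum_abs _ _).trans (Finset.sum_le_sum fun γ' _ => ?_)
    have hc : (0 : ℝ) ≤ (mult γ : ℝ) * (mult γ' : ℝ) := by positivity
    by_cases hd : 0 < γ - γ'
    · rw [if_pos hd, if_pos hd]
      by_cases hx : γ - γ' ≤ 2 * Real.pi * B / Real.log T
      · rw [if_pos ⟨hd, hx⟩]
        have h2 := G5A_weight hd hx
        have h3 : (mult γ : ℝ) * (mult γ' : ℝ) * f (Real.log T * (γ - γ') / (2 * Real.pi)) * weight (γ - γ') -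
            (mult γ : ℝ) * (mult γ' : ℝ) * f (Real.log T * (γ - γ') / (2 * Real.pi)) =
            (f (Real.log T * (γ - γ') / (2 * Real.pi)) * (weight (γ - γ') - 1)) *
              ((mult γ : ℝ) * (mult γ' : ℝ)) := by ring
        rw [h3, abs_mul, abs_of_nonneg hc, abs_mul]
        exact mul_le_mul_of_nonneg_right (mul_le_mul (hM _) h2 (abs_nonneg _) hM0) hc
      · rw [if_neg (fun h => hx h.2)]
        have h4 : f (Real.log T * (γ - γ') / (2 * Real.pi)) = 0 := by
          apply hB
          rw [not_le, div_lt_iff₀ hL] at hx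
          rw [abs_of_pos (by positivity), le_div_iff₀ (by positivity)]
          linarith
        rw [h4]
        simp
    · rw [if_neg hd, if_neg hd, if_neg (fun h => hd h.1)]
      simp
  have h2 := mul_le_mul_of_nonneg_left h1 (inv_pos.2 hN).le
  refine h2.trans (le_of_eq ?_)
  ring

/-- the integral attached to a difference of ordinates -/
private noncomputable def G5A_J (g : ℝ → ℝ) (L B d : ℝ) : ℝ :=
  ∫ β in (0 : ℝ)..B, if 0 < d then (if L * d / (2 * Real.pi) ≤ β then g β else 0) else 0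

private lemma G5A_int {g : ℝ → ℝ} (hg : Continuous g) {B : ℝ} (hB : 0 < B) (x : ℝ) :
    IntervalIntegrable (fun β => if x ≤ β then g β else 0) volume 0 B := by
  have hfun : (fun β => if x ≤ β then g β else 0) = (Set.Ici x).indicator g := by
    funext β
    by_cases h : x ≤ β
    · simp [h, Set.indicator]
    · simp [h, Set.indicator]
  rw [hfun, intervalIntegrable_iff_integrableOn_Ioc_of_le hB.le]
  exact (hg.integrableOn_Ioc).indicator measurableSet_Ici

private lemma G5A_val {f : ℝ → ℝ} (hf : ContDiff ℝ 1 f) {B : ℝ} (hB0 : 0 < B)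
    (hB : ∀ x, B ≤ |x| → f x = 0) {x : ℝ} (hx : 0 < x) :
    (∫ β in (0 : ℝ)..B, if x ≤ β then deriv f β else 0) = -f x := by
  have hg : Continuous (deriv f) := hf.continuous_deriv le_rfl
  have hfB : f B = 0 := hB B (le_abs_self B)
  have hfun : (fun β => if x ≤ β then deriv f β else 0) = (Set.Ici x).indicator (deriv f) := by
    funext β
    by_cases h : x ≤ β
    · simp [h, Set.indicator]
    · simp [h, Set.indicator]
  rcases le_or_gt x B with hxB | hxB
  · have hset : Set.Ici x ∩ Set.Ioc 0 B = Set.Icc x B := by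
      ext u
      simp only [Set.mem_inter_iff, Set.mem_Ici, Set.mem_Ioc, Set.mem_Icc]
      constructor
      · rintro ⟨h1, h2, h3⟩
        exact ⟨h1, h3⟩
      · rintro ⟨h1, h2⟩
        exact ⟨h1, hx.trans_le h1, h2⟩
    rw [intervalIntegral.integral_of_le hB0.le, hfun, integral_indicator measurableSet_Ici,
      Measure.restrict_restrict measurableSet_Ici, hset, integral_Icc_eq_integral_Ioc,
      ← intervalIntegral.integral_of_le hxB]
    rw [intervalIntegral.integral_deriv_eq_sub (fun t _ => (hf.differentiable one_ne_zero) t)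
      (hg.intervalIntegrable _ _), hfB]
    ring
  · have hz : ∀ u ∈ Set.uIoc 0 B, (if x ≤ u then deriv f u else 0) = 0 := by
      intro u hu
      rw [Set.uIoc_of_le hB0.le] at hu
      rw [if_neg]
      exact not_le.2 (hu.2.trans_lt hxB)
    rw [intervalIntegral.integral_congr_ae (g := fun _ => (0 : ℝ)) (Filter.Eventually.of_forall hz)]
    rw [hB x (hxB.le.trans (le_abs_self x))]
    simp

private lemma G5A_NP {f : ℝ → ℝ} (hf : ContDiff ℝ 1 f) {T B : ℝ} (hT : 1 < T) (hB0 : 0 < B)
    (hB : ∀ x, B ≤ |x| → f x = 0) :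
    ∫ β in (0 : ℝ)..B, deriv f β * NP T β = -∑ γ ∈ ordinates T, ∑ γ' ∈ ordinates T,
      if 0 < γ - γ' then (mult γ : ℝ) * (mult γ' : ℝ) * f (Real.log T * (γ - γ') / (2 * Real.pi))
      else 0 := by
  have hL : 0 < Real.log T := Real.log_pos hT
  have hg : Continuous (deriv f) := hf.continuous_deriv le_rfl
  have h1 : ∀ β : ℝ, deriv f β * NP T β = ∑ γ ∈ ordinates T, ∑ γ' ∈ ordinates T,
      (mult γ : ℝ) * (mult γ' : ℝ) * (if 0 < γ - γ' then
        (if Real.log T * (γ - γ') / (2 * Real.pi) ≤ β then deriv f β else 0) else 0) := by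
    intro β
    unfold NP
    rw [Finset.mul_sum]
    refine Finset.sum_congr rfl fun γ _ => ?_
    rw [Finset.mul_sum]
    refine Finset.sum_congr rfl fun γ' _ => ?_
    have hiff : γ - γ' ≤ 2 * Real.pi * β / Real.log T ↔
        Real.log T * (γ - γ') / (2 * Real.pi) ≤ β := by
      rw [le_div_iff₀ hL, div_le_iff₀ (by positivity)]
      constructor <;> intro h <;> linarith
    by_cases hd : 0 < γ - γ'
    · by_cases hx : Real.log T * (γ - γ') / (2 * Real.pi) ≤ β
      · rw [if_pos ⟨hd, hiff.2 hx⟩, if_pos hd, if_pos hx]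
        ring
      · rw [if_neg (fun h => hx (hiff.1 h.2)), if_pos hd, if_neg hx]
        ring
    · rw [if_neg (fun h => hd h.1), if_neg hd]
      ring
  have hJ : ∀ d : ℝ, IntervalIntegrable (fun β => if 0 < d then
      (if Real.log T * d / (2 * Real.pi) ≤ β then deriv f β else 0) else 0) volume 0 B := by
    intro d
    by_cases hd : 0 < d
    · simp only [hd, if_true]
      exact G5A_int hg hB0 _
    · simp only [hd, if_false]
      exact intervalIntegrable_const
  have hJv : ∀ d : ℝ, (∫ β in (0 : ℝ)..B, if 0 < d then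
      (if Real.log T * d / (2 * Real.pi) ≤ β then deriv f β else 0) else 0) =
      if 0 < d then -f (Real.log T * d / (2 * Real.pi)) else 0 := by
    intro d
    by_cases hd : 0 < d
    · simp only [hd, if_true]
      exact G5A_val hf hB0 hB (by positivity)
    · simp only [hd, if_false]
      simp
  simp_rw [h1]
  rw [intervalIntegral.integral_finsetSum]
  · rw [← Finset.sum_neg_distrib]
    refine Finset.sum_congr rfl fun γ _ => ?_
    rw [intervalIntegral.integral_finsetSum]
    · rw [← Finset.sum_neg_distrib]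
      refine Finset.sum_congr rfl fun γ' _ => ?_
      rw [intervalIntegral.integral_const_mul, hJv]
      by_cases hd : 0 < γ - γ'
      · rw [if_pos hd, if_pos hd]
        ring
      · rw [if_neg hd, if_neg hd]
        ring
    · intro γ' _
      exact (hJ _).const_mul _
  · intro γ _
    have h2 := IntervalIntegrable.sum (ordinates T) (f := fun γ' β =>
      (mult γ : ℝ) * (mult γ' : ℝ) * (if 0 < γ - γ' then
        (if Real.log T * (γ - γ') / (2 * Real.pi) ≤ β then deriv f β else 0) else 0))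
      fun γ' _ => (hJ (γ - γ')).const_mul _
    refine h2.congr ?_
    intro β _
    exact Finset.sum_apply β (ordinates T) _

private lemma G5A_sc_even (x : ℝ) : sc (-x) = sc x := by
  unfold sc
  have h1 : Real.pi * -x = -(Real.pi * x) := by ring
  rw [h1, Real.sin_neg, neg_div_neg_eq]

private lemma G5A_sc_int {f : ℝ → ℝ} (hf : Continuous f) (a b : ℝ) :
    IntervalIntegrable (fun x => f x * sc x) volume a b := by
  have h1 : IntervalIntegrable sc volume a b := by
    refine (intervalIntegrable_const (c := (1 : ℝ))).mono_fun' sc_measurable.aestronglyMeasurable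
      (Filter.Eventually.of_forall fun x => ?_)
    show ‖sc x‖ ≤ 1
    rw [Real.norm_of_nonneg (sc_nonneg x)]
    exact sc_le_one x
  exact h1.continuousOn_mul hf.continuousOn

private lemma G5A_LL {f : ℝ → ℝ} (_hf : ContDiff ℝ 1 f) (he : ∀ x, f (-x) = f x) {B : ℝ}
    (hB0 : 0 < B) (hB : ∀ x, B ≤ |x| → f x = 0) :
    LL f = f 0 + 2 * ∫ x in (0 : ℝ)..B, f x * sc x := by
  unfold LL
  congr 1
  have h1 : ∀ x : ℝ, f x * sc x = (fun y => f y * sc y) |x| := by
    intro x
    show f x * sc x = f |x| * sc |x|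
    rcases abs_choice x with h | h
    · rw [h]
    · rw [h, he, G5A_sc_even]
  rw [integral_congr_ae (Filter.Eventually.of_forall h1),
    integral_comp_abs (f := fun y => f y * sc y)]
  congr 1
  rw [intervalIntegral.integral_of_le hB0.le]
  apply setIntegral_eq_of_subset_of_forall_sdiff_eq_zero measurableSet_Ioi
  · exact fun x hx => hx.1
  · intro x hx
    have h2 : B < x := by
      by_contra hcon
      exact hx.2 ⟨hx.1, not_lt.1 hcon⟩
    rw [hB x (h2.le.trans (le_abs_self x)), zero_mul]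

private lemma G5A_parts {f : ℝ → ℝ} (hf : ContDiff ℝ 1 f) {B : ℝ}
    (hB0 : 0 < B) (hB : ∀ x, B ≤ |x| → f x = 0) :
    ∫ β in (0 : ℝ)..B, deriv f β * gue β = -∫ x in (0 : ℝ)..B, f x * sc x := by
  have hg : Continuous (deriv f) := hf.continuous_deriv le_rfl
  have hfB : f B = 0 := hB B (le_abs_self B)
  have h0 : gue 0 = 0 := by
    unfold gue
    simp
  have i1 : IntervalIntegrable (fun x => deriv f x * gue x) volume 0 B :=
    (hg.mul gue_continuous).intervalIntegrable _ _
  have i2 : IntervalIntegrable (fun x => f x * sc x) volume 0 B := G5A_sc_int hf.continuous 0 B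
  have h1 := intervalIntegral.integral_eq_sub_of_hasDerivAt_of_le (f := fun x => f x * gue x)
    (f' := fun x => deriv f x * gue x + f x * sc x) hB0.le
    (hf.continuous.mul gue_continuous).continuousOn
    (fun x hx => ((hf.differentiable one_ne_zero) x).hasDerivAt.mul (gue_hasDeriv x hx.1))
    (i1.add i2)
  rw [intervalIntegral.integral_add i1 i2, hfB, h0] at h1
  linarith

theorem PS_of_count (hc : ∀ β > 0, Tendsto (fun T : ℝ => NP T β / N0 T) atTop (𝓝 (gue β)))
    (hN : Tendsto (fun T : ℝ => Nstar T / N0 T) atTop (𝓝 1))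
    {f : ℝ → ℝ} (hf : ContDiff ℝ 1 f) (he : ∀ x, f (-x) = f x) (hs : ∃ B : ℝ, ∀ x, B ≤ |x| → f x = 0) :
    Tendsto (fun T : ℝ => PS T f) atTop (𝓝 (LL f)) := by
  obtain ⟨B1, hB1⟩ := hs
  obtain ⟨B, hBdef⟩ : ∃ B, B = max B1 1 := ⟨_, rfl⟩
  have hB0 : 0 < B := by rw [hBdef]; exact lt_of_lt_of_le one_pos (le_max_right _ _)
  have hB : ∀ x, B ≤ |x| → f x = 0 := fun x hx => hB1 x ((le_max_left _ _).trans (hBdef ▸ hx))
  have hg : Continuous (deriv f) := hf.continuous_deriv le_rfl
  have hcomp : HasCompactSupport f := by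
    refine HasCompactSupport.intro (K := Set.Icc (-B) B) isCompact_Icc fun x hx => ?_
    apply hB
    by_contra hcon
    exact hx (abs_le.1 (not_le.1 hcon).le)
  obtain ⟨M, hM⟩ := hf.continuous.bounded_above_of_compact_support hcomp
  obtain ⟨M', hM'⟩ := hg.bounded_above_of_compact_support hcomp.deriv
  have hM0 : 0 ≤ M' := (norm_nonneg _).trans (hM' 0)
  -- the error of the weight
  obtain ⟨S, hS⟩ : ∃ S : ℝ → ℝ, S = fun T => ((N0 T)⁻¹ * ∑ γ ∈ ordinates T, ∑ γ' ∈ ordinates T,
      if 0 < γ - γ' then (mult γ : ℝ) * (mult γ' : ℝ) * f (Real.log T * (γ - γ') / (2 * Real.pi)) * weight (γ - γ')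
      else 0) := ⟨_, rfl⟩
  obtain ⟨S', hS'⟩ : ∃ S' : ℝ → ℝ, S' = fun T => ((N0 T)⁻¹ * ∑ γ ∈ ordinates T, ∑ γ' ∈ ordinates T,
      if 0 < γ - γ' then (mult γ : ℝ) * (mult γ' : ℝ) * f (Real.log T * (γ - γ') / (2 * Real.pi))
      else 0) := ⟨_, rfl⟩
  have herr : Tendsto (fun T => S T - S' T) atTop (𝓝 0) := by
    have h1 : Tendsto (fun T : ℝ => M * ((2 * Real.pi * B / Real.log T) ^ 2 / 4) * (NP T B / N0 T))
        atTop (𝓝 (M * (0 ^ 2 / 4) * gue B)) := by
      refine Tendsto.mul (Tendsto.const_mul M (Tendsto.div_const (Tendsto.pow ?_ 2) 4)) (hc B hB0)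
      exact Tendsto.div_atTop tendsto_const_nhds Real.tendsto_log_atTop
    have h2 : M * (0 ^ 2 / 4) * gue B = 0 := by ring
    rw [h2] at h1
    apply squeeze_zero_norm' _ h1
    filter_upwards [eventually_gt_atTop (1 : ℝ)] with T hT
    rw [Real.norm_eq_abs, hS, hS']
    exact G5A_err hT (fun x => by simpa using hM x) hB
  have hS'int : ∀ T : ℝ, 1 < T → S' T = -∫ β in (0 : ℝ)..B, deriv f β * (NP T β / N0 T) := by
    intro T hT
    have h1 : (fun β => deriv f β * (NP T β / N0 T)) = fun β => (N0 T)⁻¹ * (deriv f β * NP T β) := by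
      funext β
      ring
    rw [h1, intervalIntegral.integral_const_mul, G5A_NP hf hT hB0 hB, hS']
    ring
  have hlim : Tendsto (fun T : ℝ => ∫ β in (0 : ℝ)..B, deriv f β * (NP T β / N0 T)) atTop
      (𝓝 (∫ β in (0 : ℝ)..B, deriv f β * gue β)) := by
    apply intervalIntegral.tendsto_integral_filter_of_dominated_convergence
      (fun _ => M' * (gue B + 1))
    · filter_upwards [eventually_gt_atTop (1 : ℝ)] with T hT
      have h1 : Measurable (fun β => NP T β) := (NP_mono hT).measurable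
      exact (hg.measurable.mul (h1.div_const _)).aestronglyMeasurable
    · have h2 : ∀ᶠ T : ℝ in atTop, NP T B / N0 T < gue B + 1 :=
        (hc B hB0).eventually_lt_const (by linarith)
      filter_upwards [eventually_gt_atTop (1 : ℝ), h2] with T hT h3
      refine Filter.Eventually.of_forall fun β hβ => ?_
      rw [Set.uIoc_of_le hB0.le] at hβ
      have hN0 : 0 < N0 T := N0_pos hT
      have h4 : NP T β / N0 T ≤ NP T B / N0 T :=
        div_le_div_of_nonneg_right (NP_mono hT hβ.2) hN0.le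
      have h5 : 0 ≤ NP T β / N0 T := div_nonneg (NP_nonneg T β) hN0.le
      rw [norm_mul, Real.norm_of_nonneg h5]
      exact mul_le_mul (hM' β) (by linarith) h5 hM0
    · exact intervalIntegrable_const
    · refine Filter.Eventually.of_forall fun β hβ => ?_
      rw [Set.uIoc_of_le hB0.le] at hβ
      exact (hc β hβ.1).const_mul _
  have hS'lim : Tendsto S' atTop (𝓝 (∫ x in (0 : ℝ)..B, f x * sc x)) := by
    have h1 : Tendsto (fun T : ℝ => -∫ β in (0 : ℝ)..B, deriv f β * (NP T β / N0 T)) atTop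
        (𝓝 (∫ x in (0 : ℝ)..B, f x * sc x)) := by
      have h2 := hlim.neg
      rw [G5A_parts hf hB0 hB, neg_neg] at h2
      exact h2
    refine h1.congr' ?_
    filter_upwards [eventually_gt_atTop (1 : ℝ)] with T hT
    exact (hS'int T hT).symm
  have hfin : Tendsto (fun T : ℝ => f 0 * (Nstar T / N0 T) + 2 * ((S T - S' T) + S' T)) atTop
      (𝓝 (f 0 * 1 + 2 * (0 + ∫ x in (0 : ℝ)..B, f x * sc x))) :=
    (hN.const_mul _).add ((herr.add hS'lim).const_mul 2)
  rw [G5A_LL hf he hB0 hB]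
  rw [mul_one, zero_add] at hfin
  refine hfin.congr' ?_
  filter_upwards [eventually_gt_atTop (1 : ℝ)] with T hT
  rw [PS_split hT he, sub_add_cancel, hS]

end Pool.Agent.Lib.MP_00e05b_nt.Mont
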