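import Pool.Agent.Lib.MP_00e05b_nt.Mont.G2
import Pool.Agent.Lib.MP_00e05b_nt.Mont.C3

/-!
# Halves, file A: monotonicity of `PS`, comparison with the counting function of pairs, and two tail bounds
-/

open Set Filter Topology MeasureTheory

namespace Pool.Agent.Lib.MP_00e05b_nt.Mont

private lemma hvA_weight_nonneg (u : ℝ) : 0 ≤ weight u := by
  unfold weight
  positivity

private lemma hvA_weight_le (u : ℝ) : weight u ≤ 1 := by
  unfold weight
  rw [div_le_one (by positivity)]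
  nlinarith [sq_nonneg u]

theorem PS_mono {T : ℝ} (hT : 1 < T) {e f : ℝ → ℝ} (h : ∀ x, e x ≤ f x) : PS T e ≤ PS T f := by
  have hN : 0 ≤ (N0 T)⁻¹ := (inv_pos.2 (N0_pos hT)).le
  unfold PS
  refine mul_le_mul_of_nonneg_left (Finset.sum_le_sum fun γ _ => Finset.sum_le_sum fun γ' _ => ?_) hN
  have hm : (0 : ℝ) ≤ (mult γ : ℝ) * (mult γ' : ℝ) := by positivity
  exact mul_le_mul_of_nonneg_right (mul_le_mul_of_nonneg_left (h _) hm) (hvA_weight_nonneg _)

theorem PS_const_mul (T c : ℝ) (f : ℝ → ℝ) : PS T (fun x => c * f x) = c * PS T f := by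
  unfold PS
  rw [mul_left_comm c, Finset.mul_sum _ _ c]
  refine congrArg _ (Finset.sum_congr rfl fun γ _ => ?_)
  rw [Finset.mul_sum]
  refine Finset.sum_congr rfl fun γ' _ => ?_
  ring

/-- The part of `PS T f` over the pairs `γ > γ'`. -/
noncomputable def PO (T : ℝ) (f : ℝ → ℝ) : ℝ :=
  (N0 T)⁻¹ * ∑ γ ∈ ordinates T, ∑ γ' ∈ ordinates T,
    if 0 < γ - γ' then (mult γ : ℝ) * (mult γ' : ℝ) * f (Real.log T * (γ - γ') / (2 * Real.pi)) * weight (γ - γ')
      else 0

theorem PS_eq_PO {T : ℝ} (hT : 1 < T) {f : ℝ → ℝ} (he : ∀ x, f (-x) = f x) :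
    PS T f = f 0 * (Nstar T / N0 T) + 2 * PO T f := PS_split hT he

theorem PO_mono {T : ℝ} (hT : 1 < T) {e f : ℝ → ℝ} (h : ∀ x, 0 < x → e x ≤ f x) : PO T e ≤ PO T f := by
  have hN : 0 ≤ (N0 T)⁻¹ := (inv_pos.2 (N0_pos hT)).le
  have hL : 0 < Real.log T := Real.log_pos hT
  have hpi := Real.pi_pos
  unfold PO
  refine mul_le_mul_of_nonneg_left (Finset.sum_le_sum fun γ _ => Finset.sum_le_sum fun γ' _ => ?_) hN
  have hm : (0 : ℝ) ≤ (mult γ : ℝ) * (mult γ' : ℝ) := by positivity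
  split_ifs with h0
  · exact mul_le_mul_of_nonneg_right (mul_le_mul_of_nonneg_left (h _ (by positivity)) hm) (hvA_weight_nonneg _)
  · exact le_rfl

theorem PO_add (T : ℝ) (f g : ℝ → ℝ) : PO T (fun x => f x + g x) = PO T f + PO T g := by
  unfold PO
  rw [← mul_add, ← Finset.sum_add_distrib]
  congr 1
  refine Finset.sum_congr rfl fun γ _ => ?_
  rw [← Finset.sum_add_distrib]
  refine Finset.sum_congr rfl fun γ' _ => ?_
  split_ifs
  · ring
  · ring

theorem PO_const_mul (T c : ℝ) (f : ℝ → ℝ) : PO T (fun x => c * f x) = c * PO T f := by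
  unfold PO
  rw [mul_left_comm c, Finset.mul_sum _ _ c]
  refine congrArg _ (Finset.sum_congr rfl fun γ _ => ?_)
  rw [Finset.mul_sum]
  refine Finset.sum_congr rfl fun γ' _ => ?_
  split_ifs
  · ring
  · ring

theorem PO_sum (T : ℝ) (K : ℕ) (f : ℕ → ℝ → ℝ) :
    PO T (fun x => ∑ k ∈ Finset.range K, f k x) = ∑ k ∈ Finset.range K, PO T (f k) := by
  induction K with
  | zero =>
    simp only [Finset.range_zero, Finset.sum_empty]
    unfold PO
    simp
  | succ n ih =>
    simp only [Finset.sum_range_succ]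
    rw [PO_add, ih]

theorem PO_nonneg {T : ℝ} (hT : 1 < T) {f : ℝ → ℝ} (h : ∀ x, 0 < x → 0 ≤ f x) : 0 ≤ PO T f := by
  have h1 := PO_mono hT (e := fun _ => 0) (f := f) h
  have h2 : PO T (fun _ => 0) = 0 := by
    unfold PO
    simp
  rwa [h2] at h1

/-- The indicator function of `(0, b]` counts pairs. -/
theorem PO_ind {T : ℝ} (hT : 1 < T) (b : ℝ) :
    PO T (fun x => if x ≤ b then 1 else 0) ≤ NP T b / N0 T := by
  have hN0 := N0_pos hT
  have hlog : 0 < Real.log T := Real.log_pos hT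
  have hpi := Real.pi_pos
  classical
  unfold PO NP
  rw [div_eq_inv_mul]
  refine mul_le_mul_of_nonneg_left ?_ (inv_pos.2 hN0).le
  refine Finset.sum_le_sum fun γ _ => Finset.sum_le_sum fun γ' _ => ?_
  have hm : (0 : ℝ) ≤ (mult γ : ℝ) * (mult γ' : ℝ) := by positivity
  by_cases hpos : 0 < γ - γ'
  · rw [if_pos hpos]
    by_cases h2 : γ - γ' ≤ 2 * Real.pi * b / Real.log T
    · rw [if_pos ⟨hpos, h2⟩]
      have h3 : Real.log T * (γ - γ') / (2 * Real.pi) ≤ b := by
        rw [le_div_iff₀ hlog] at h2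
        rw [div_le_iff₀ (by positivity)]
        linarith
      simp only
      rw [if_pos h3, mul_one]
      exact mul_le_of_le_one_right hm (hvA_weight_le _)
    · rw [if_neg (fun h => h2 h.2)]
      have h3 : ¬ Real.log T * (γ - γ') / (2 * Real.pi) ≤ b := by
        intro h4
        apply h2
        rw [div_le_iff₀ (by positivity)] at h4
        rw [le_div_iff₀ hlog]
        linarith
      simp only
      rw [if_neg h3, mul_zero, zero_mul]
  · rw [if_neg hpos, if_neg (fun h => hpos h.1)]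

/-- The same from below, with the loss of the weight. -/
theorem PO_ind_ge {T : ℝ} (hT : 1 < T) (b : ℝ) :
    (4 / (4 + (2 * Real.pi * b / Real.log T) ^ 2)) * (NP T b / N0 T) ≤ PO T (fun x => if x ≤ b then 1 else 0) := by
  have hN0 := N0_pos hT
  have hlog : 0 < Real.log T := Real.log_pos hT
  have hpi := Real.pi_pos
  classical
  unfold PO NP
  rw [div_eq_inv_mul (∑ γ ∈ ordinates T, _) (N0 T), mul_left_comm, Finset.mul_sum]
  refine mul_le_mul_of_nonneg_left ?_ (inv_pos.2 hN0).le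
  refine Finset.sum_le_sum fun γ _ => ?_
  rw [Finset.mul_sum]
  refine Finset.sum_le_sum fun γ' _ => ?_
  have hm : (0 : ℝ) ≤ (mult γ : ℝ) * (mult γ' : ℝ) := by positivity
  by_cases hpos : 0 < γ - γ'
  · rw [if_pos hpos]
    by_cases h2 : γ - γ' ≤ 2 * Real.pi * b / Real.log T
    · rw [if_pos ⟨hpos, h2⟩]
      have h3 : Real.log T * (γ - γ') / (2 * Real.pi) ≤ b := by
        rw [le_div_iff₀ hlog] at h2
        rw [div_le_iff₀ (by positivity)]
        linarith
      simp only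
      rw [if_pos h3, mul_one, mul_comm]
      refine mul_le_mul_of_nonneg_left ?_ hm
      unfold weight
      gcongr
    · rw [if_neg (fun h => h2 h.2), mul_zero]
      refine mul_nonneg (mul_nonneg hm ?_) (hvA_weight_nonneg _)
      simp only
      split_ifs <;> norm_num
  · rw [if_neg hpos, if_neg (fun h => hpos h.1), mul_zero]

/-- A function of `x > 0` bounded by a combination of indicators and a tail. -/
theorem PO_le_of {T : ℝ} (hT : 1 < T) {f t : ℝ → ℝ} (K : ℕ) (c b : ℕ → ℝ) (hc : ∀ k, 0 ≤ c k)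
    (h : ∀ x, 0 < x → f x ≤ (∑ k ∈ Finset.range K, c k * (if x ≤ b k then 1 else 0)) + t x) :
    PO T f ≤ (∑ k ∈ Finset.range K, c k * (NP T (b k) / N0 T)) + PO T t := by
  refine (PO_mono hT h).trans ?_
  rw [PO_add, PO_sum]
  gcongr with k _
  rw [PO_const_mul]
  exact mul_le_mul_of_nonneg_left (PO_ind hT _) (hc k)

/-- `PO` of a tail, crude version. -/
theorem PO_bound (hRH : RiemannHypothesis) : ∃ C : ℝ, 0 ≤ C ∧ ∀ᶠ T : ℝ in atTop, ∀ (κ : ℝ) (t : ℝ → ℝ),
    0 ≤ κ → (∀ x, 0 < x → t x ≤ κ / (1 + x ^ 2)) → PO T t ≤ C * κ := by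
  obtain ⟨C, hC, h⟩ := PS_bound hRH
  refine ⟨C, hC, ?_⟩
  filter_upwards [h, eventually_gt_atTop 1] with T h1 hT κ t hκ ht
  have h2 := h1 κ (fun x => κ / (1 + x ^ 2)) (fun x => by rw [abs_of_nonneg (by positivity)])
  rw [PS_eq_PO hT (fun x => by rw [neg_sq])] at h2
  have h3 : 0 ≤ PO T (fun x => κ / (1 + x ^ 2)) := PO_nonneg hT fun x _ => by positivity
  have h4 : 0 ≤ κ / (1 + (0 : ℝ) ^ 2) * (Nstar T / N0 T) := by
    have := N0_pos hT
    have h5 : 0 ≤ Nstar T := by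
      unfold Nstar
      positivity
    positivity
  have h6 := (abs_le.1 h2).2
  have h7 := PO_mono hT ht
  linarith

private lemma hvA_scale (ψ : ℝ → ℝ) {B : ℝ} (hB : 0 < B) (x : ℝ) :
    fT (fun α => B * ψ (B * α)) x = fT ψ (x / B) := by
  unfold fT
  have h := Measure.integral_comp_mul_left (fun β : ℝ => ψ β * Real.cos (2 * Real.pi * (x / B) * β)) B
  rw [abs_of_pos (inv_pos.2 hB), smul_eq_mul] at h
  have h2 : ∫ β : ℝ, ψ β * Real.cos (2 * Real.pi * (x / B) * β) =
      B * ∫ α : ℝ, ψ (B * α) * Real.cos (2 * Real.pi * (x / B) * (B * α)) := by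
    rw [h, ← mul_assoc, mul_inv_cancel₀ hB.ne', one_mul]
  rw [h2, ← integral_const_mul]
  refine integral_congr_ae (Filter.Eventually.of_forall fun α => ?_)
  simp only
  have e : 2 * Real.pi * (x / B) * (B * α) = 2 * Real.pi * x * α := by
    field_simp
  rw [e]
  ring

/-- The number of pairs at large distance, weighted by `1/x²`, is `O(1/B)`. -/
theorem PO_tail (hRH : RiemannHypothesis) : ∃ C : ℝ, 0 ≤ C ∧ ∀ B : ℝ, 1 ≤ B → ∀ᶠ T : ℝ in atTop, ∀ t : ℝ → ℝ,
    (∀ x, 0 < x → t x ≤ (if B ≤ x then 1 / x ^ 2 else 0)) → PO T t ≤ C / B := by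
  obtain ⟨ψ, hc, -, h0, hψ⟩ := fT_tent
  obtain ⟨J, hJ⟩ : ∃ J : ℝ, J = ∫ u : ℝ, |u| * ψ u := ⟨_, rfl⟩
  refine ⟨2 * (|ψ 0| + |J| + 1), by positivity, fun B hB => ?_⟩
  have hB0 : 0 < B := by linarith
  have hrc : Continuous fun α => B * ψ (B * α) := continuous_const.mul (hc.comp (continuous_const.mul continuous_id))
  have hr0 : ∀ x : ℝ, 1 ≤ |x| → B * ψ (B * x) = 0 := by
    intro x hx
    rw [h0, mul_zero]
    rw [abs_mul, abs_of_pos hB0]
    nlinarith
  have hlim := base_sym hRH hrc hr0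
  have hval : ∫ x : ℝ, |x| * (B * ψ (B * x)) = B⁻¹ * J := by
    have h := Measure.integral_comp_mul_left (fun u : ℝ => |u| * ψ u) B
    rw [abs_of_pos (inv_pos.2 hB0), smul_eq_mul, ← hJ] at h
    rw [← h]
    refine integral_congr_ae (Filter.Eventually.of_forall fun x => ?_)
    simp only
    rw [abs_mul, abs_of_pos hB0]
    ring
  simp only [mul_zero] at hlim
  rw [hval] at hlim
  have hlt : B * ψ 0 + B⁻¹ * J < B * (|ψ 0| + |J| + 1) := by
    have h1 : B * ψ 0 ≤ B * |ψ 0| := mul_le_mul_of_nonneg_left (le_abs_self _) hB0.le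
    have h2 : B⁻¹ * J ≤ B * |J| := by
      have h3 : B⁻¹ ≤ 1 := inv_le_one_of_one_le₀ hB
      calc B⁻¹ * J ≤ B⁻¹ * |J| := mul_le_mul_of_nonneg_left (le_abs_self _) (inv_pos.2 hB0).le
        _ ≤ B * |J| := mul_le_mul_of_nonneg_right (h3.trans hB) (abs_nonneg _)
    nlinarith
  filter_upwards [hlim.eventually (gt_mem_nhds hlt), eventually_gt_atTop 1] with T h1 hT t ht
  have h2 : ∫ α : ℝ, FF α T * (B * ψ (B * α)) = PS T (fT (fun α => B * ψ (B * α))) :=
    PS_FF hT hrc ⟨1, hr0⟩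
  rw [h2] at h1
  have hpos : ∀ x, 0 ≤ fT ψ x := fun x => (by positivity : (0 : ℝ) ≤ 1 / (1 + x ^ 2)).trans (hψ x)
  have hfTe : ∀ x, fT (fun α => B * ψ (B * α)) (-x) = fT (fun α => B * ψ (B * α)) x := by
    intro x
    unfold fT
    refine integral_congr_ae (Filter.Eventually.of_forall fun α => ?_)
    simp only
    rw [show 2 * Real.pi * -x * α = -(2 * Real.pi * x * α) by ring, Real.cos_neg]
  rw [PS_eq_PO hT hfTe] at h1
  have h3 : 0 ≤ fT (fun α => B * ψ (B * α)) 0 * (Nstar T / N0 T) := by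
    rw [hvA_scale ψ hB0]
    have := N0_pos hT
    have h5 : 0 ≤ Nstar T := by
      unfold Nstar
      positivity
    have := hpos (0 / B)
    positivity
  have h4 : PO T t ≤ PO T (fun x => (2 / B ^ 2) * fT (fun α => B * ψ (B * α)) x) := by
    refine PO_mono hT fun x hx => (ht x hx).trans ?_
    rw [hvA_scale ψ hB0]
    split_ifs with h
    · have h5 : 1 / x ^ 2 ≤ (2 / B ^ 2) * (1 / (1 + (x / B) ^ 2)) := by
        rw [div_mul_div_comm, mul_one, div_le_div_iff₀ (by positivity) (by positivity)]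
        have e : B ^ 2 * (1 + (x / B) ^ 2) = B ^ 2 + x ^ 2 := by
          field_simp
        rw [e]
        nlinarith
      exact h5.trans (mul_le_mul_of_nonneg_left (hψ _) (by positivity))
    · exact mul_nonneg (by positivity) (hpos _)
  rw [PO_const_mul] at h4
  have h6 : PO T (fT fun α => B * ψ (B * α)) ≤ B * (|ψ 0| + |J| + 1) := by
    have h7 : 0 ≤ PO T (fT fun α => B * ψ (B * α)) := PO_nonneg hT fun x _ => by
      rw [hvA_scale ψ hB0]
      exact hpos _
    linarith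
  calc PO T t ≤ 2 / B ^ 2 * PO T (fT fun α => B * ψ (B * α)) := h4
    _ ≤ 2 / B ^ 2 * (B * (|ψ 0| + |J| + 1)) := mul_le_mul_of_nonneg_left h6 (by positivity)
    _ = 2 * (|ψ 0| + |J| + 1) / B := by
      field_simp

end Pool.Agent.Lib.MP_00e05b_nt.Mont
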