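import Pool.Agent.Lib.MP_00e05b_nt.Mont.BaseF
import Pool.Agent.Lib.MP_00e05b_nt.Mont.Fejer
import Pool.Agent.Lib.MP_00e05b_nt.Mont.NT

/-!
# JOB T1: one-sided bounds for `F`

* `key_lower`: `fejer` with `A > 1`, split the integral at `1`; `base` with `r x = 1 - x/A`:
  `∫_0^1 FF (1 - α/A) → 1/2 + ∫_0^1 x (1 - x/A) dx = 1 - 1/(3A)`. And `∫_1^A (1 - α/A) dα = A/2 - 1 + 1/(2A)`. So
  `∫_1^A (FF - 1)(1 - α/A) ≥ (A/2) Nstar/N0 - 1 + 1/(3A) - o(1) - (A/2 - 1 + 1/(2A))
    = (A/2)(Nstar/N0 - 1) - 1/(6A) - o(1)`.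
* `one_sided`: `|x| = 2 max x 0 - x`. If `FF ≤ 1 + ε` on `[1, A]` then
  `∫_1^A |FF - 1| (1 - α/A) ≤ 2 ε A - ∫_1^A (FF - 1)(1 - α/A) ≤ 2 ε A + 1/(6A) + o(1)` because
  `Nstar/N0 ≥ NN/N0 → 1` (`NN_le_Nstar`, `count_tendsto`); and `(A/2)(Nstar/N0 - 1) ≤ 1/(6A) + ε A + o(1)`.
-/

open Complex Set Filter Topology MeasureTheory

namespace Pool.Agent.Lib.MP_00e05b_nt.Mont

private theorem T1_int1 {A : ℝ} (hA : 1 < A) : ∫ α in (1 : ℝ)..A, (1 - α / A) = A / 2 - 1 + 1 / (2 * A) := by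
  have hA0 : A ≠ 0 := by positivity
  have h1 : IntervalIntegrable (fun _ : ℝ => (1 : ℝ)) volume 1 A := Continuous.intervalIntegrable (by fun_prop) _ _
  have h2 : IntervalIntegrable (fun α : ℝ => α / A) volume 1 A := Continuous.intervalIntegrable (by fun_prop) _ _
  rw [intervalIntegral.integral_sub h1 h2,
    intervalIntegral.integral_const, intervalIntegral.integral_div, integral_id, smul_eq_mul]
  field_simp
  ring

private theorem T1_int2 {A : ℝ} (hA : 1 < A) : ∫ x in (0 : ℝ)..1, x * (1 - x / A) = 1 / 2 - 1 / (3 * A) := by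
  have hA0 : A ≠ 0 := by positivity
  have e : (fun x : ℝ => x * (1 - x / A)) = fun x : ℝ => x - x ^ 2 / A := by
    funext x
    ring
  have h1 : IntervalIntegrable (fun x : ℝ => x) volume 0 1 := Continuous.intervalIntegrable (by fun_prop) _ _
  have h2 : IntervalIntegrable (fun x : ℝ => x ^ 2 / A) volume 0 1 := Continuous.intervalIntegrable (by fun_prop) _ _
  rw [e, intervalIntegral.integral_sub h1 h2, integral_id, intervalIntegral.integral_div, integral_pow]
  field_simp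
  norm_num
  ring

theorem key_lower (hRH : RiemannHypothesis) {A : ℝ} (hA : 1 < A) (ε : ℝ) (hε : 0 < ε) :
    ∀ᶠ T : ℝ in atTop, A / 2 * (Nstar T / N0 T - 1) - 1 / (6 * A) - ε ≤
      ∫ α in (1 : ℝ)..A, (FF α T - 1) * (1 - α / A) := by
  have hA0 : 0 < A := by positivity
  have hlim := base hRH (r := fun x => 1 - x / A) (by fun_prop)
  have hval : (fun x : ℝ => 1 - x / A) 0 / 2 + ∫ x in (0 : ℝ)..1, x * (fun x : ℝ => 1 - x / A) x = 1 - 1 / (3 * A) := by
    simp only
    rw [T1_int2 hA]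
    ring
  rw [hval] at hlim
  filter_upwards [hlim.eventually (ge_mem_nhds (show 1 - 1 / (3 * A) < 1 - 1 / (3 * A) + ε by linarith)),
    eventually_gt_atTop (1 : ℝ)] with T h1 hT
  have hT0 : 0 < T := by linarith
  have hc : Continuous (fun α => FF α T) := FF_continuous hT0
  have hc2 : Continuous (fun α : ℝ => FF α T * (1 - α / A)) := hc.mul (by fun_prop)
  have hf := fejer hT hA0
  have hsplit := intervalIntegral.integral_add_adjacent_intervals (hc2.intervalIntegrable (μ := volume) 0 1)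
    (hc2.intervalIntegrable (μ := volume) 1 A)
  have hI : ∫ α in (1 : ℝ)..A, (FF α T - 1) * (1 - α / A) =
      (∫ α in (1 : ℝ)..A, FF α T * (1 - α / A)) - (A / 2 - 1 + 1 / (2 * A)) := by
    rw [← T1_int1 hA, ← intervalIntegral.integral_sub (hc2.intervalIntegrable _ _)
      ((by fun_prop : Continuous (fun α : ℝ => 1 - α / A)).intervalIntegrable _ _)]
    congr 1
    funext α
    ring
  rw [hI]
  have h1' : ∫ α in (0 : ℝ)..1, FF α T * (1 - α / A) ≤ 1 - 1 / (3 * A) + ε := h1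
  have e1 : 1 / (6 * A) = 1 / (2 * A) - 1 / (3 * A) := by field_simp; norm_num
  rw [e1]
  have e2 : A / 2 * (Nstar T / N0 T - 1) = A / 2 * (Nstar T / N0 T) - A / 2 := by ring
  rw [e2]
  linarith

theorem one_sided (hRH : RiemannHypothesis) {A : ℝ} (hA : 1 < A)
    (h : ∀ ε > 0, ∀ᶠ T : ℝ in atTop, ∀ α ∈ Icc 1 A, FF α T ≤ 1 + ε) (ε : ℝ) (hε : 0 < ε) :
    ∀ᶠ T : ℝ in atTop, ∫ α in (1 : ℝ)..A, |FF α T - 1| * (1 - α / A) ≤ 1 / (6 * A) + ε ∧
      Nstar T ≤ (1 + 1 / (3 * A ^ 2) + ε) * NN T := by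
  have hA0 : 0 < A := by positivity
  obtain ⟨δ, hδ, hδ1, hδ2⟩ : ∃ δ : ℝ, 0 < δ ∧ δ * (3 * A + 6 + ε) ≤ ε ∧ δ < 1 := by
    refine ⟨ε / (3 * A + 6 + ε), by positivity, ?_, ?_⟩
    · rw [div_mul_cancel₀ _ (by positivity)]
    · rw [div_lt_one (by positivity)]
      linarith
  have hcnt := count_tendsto hRH
  filter_upwards [key_lower hRH hA δ hδ, h δ hδ, hcnt.eventually (le_mem_nhds (show 1 - δ < 1 by linarith)),
    eventually_gt_atTop (1 : ℝ)] with T h1 h2 h3 hT
  have hT0 : 0 < T := by linarith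
  have hN0 : 0 < N0 T := N0_pos hT
  have hc : Continuous (fun α => FF α T) := FF_continuous hT0
  have hle : NN T ≤ Nstar T := NN_le_Nstar T
  have h4 : NN T / N0 T ≤ Nstar T / N0 T := by gcongr
  have hcw : Continuous (fun α : ℝ => 1 - α / A) := by fun_prop
  have hw : ∀ α ∈ Icc 1 A, 0 ≤ 1 - α / A := by
    intro α hα
    rw [sub_nonneg, div_le_one hA0]
    exact hα.2
  have hI0 : ∫ α in (1 : ℝ)..A, (1 - α / A) ≤ A := by
    rw [T1_int1 hA]
    have : 1 / (2 * A) ≤ 1 := by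
      rw [div_le_one (by positivity)]
      linarith
    linarith
  -- upper bound for the signed integral
  have hup : ∫ α in (1 : ℝ)..A, (FF α T - 1) * (1 - α / A) ≤ δ * A := by
    calc ∫ α in (1 : ℝ)..A, (FF α T - 1) * (1 - α / A) ≤ ∫ α in (1 : ℝ)..A, δ * (1 - α / A) := by
          refine intervalIntegral.integral_mono_on hA.le (((hc.sub continuous_const).mul hcw).intervalIntegrable _ _)
            ((continuous_const.mul hcw).intervalIntegrable _ _) fun α hα => ?_
          have h5 := h2 α hα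
          exact mul_le_mul_of_nonneg_right (by linarith) (hw α hα)
      _ = δ * ∫ α in (1 : ℝ)..A, (1 - α / A) := intervalIntegral.integral_const_mul _ _
      _ ≤ δ * A := by gcongr
  constructor
  · have habs : ∫ α in (1 : ℝ)..A, |FF α T - 1| * (1 - α / A) ≤
        2 * δ * A - ∫ α in (1 : ℝ)..A, (FF α T - 1) * (1 - α / A) := by
      calc ∫ α in (1 : ℝ)..A, |FF α T - 1| * (1 - α / A) ≤
            ∫ α in (1 : ℝ)..A, (2 * δ * (1 - α / A) - (FF α T - 1) * (1 - α / A)) := by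
            refine intervalIntegral.integral_mono_on hA.le (((hc.sub continuous_const).abs.mul hcw).intervalIntegrable _ _)
              (((continuous_const.mul hcw).sub ((hc.sub continuous_const).mul hcw)).intervalIntegrable _ _) fun α hα => ?_
            have h5 := h2 α hα
            have h6 : |FF α T - 1| ≤ 2 * δ - (FF α T - 1) := by
              rw [abs_le]
              constructor <;> linarith
            calc |FF α T - 1| * (1 - α / A) ≤ (2 * δ - (FF α T - 1)) * (1 - α / A) :=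
                  mul_le_mul_of_nonneg_right h6 (hw α hα)
              _ = 2 * δ * (1 - α / A) - (FF α T - 1) * (1 - α / A) := by ring
        _ = 2 * δ * (∫ α in (1 : ℝ)..A, (1 - α / A)) - ∫ α in (1 : ℝ)..A, (FF α T - 1) * (1 - α / A) := by
            have i1 : IntervalIntegrable (fun α : ℝ => 2 * δ * (1 - α / A)) volume 1 A :=
              Continuous.intervalIntegrable (by fun_prop) _ _
            have i2 : IntervalIntegrable (fun α : ℝ => (FF α T - 1) * (1 - α / A)) volume 1 A :=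
              ((hc.sub continuous_const).mul hcw).intervalIntegrable _ _
            rw [intervalIntegral.integral_sub i1 i2, intervalIntegral.integral_const_mul]
        _ ≤ 2 * δ * A - ∫ α in (1 : ℝ)..A, (FF α T - 1) * (1 - α / A) := by gcongr
    have h7 : -δ ≤ Nstar T / N0 T - 1 := by linarith
    have h8 : A / 2 * (-δ) ≤ A / 2 * (Nstar T / N0 T - 1) := by gcongr
    nlinarith
  · -- the number of pairs
    have h9 : A / 2 * (Nstar T / N0 T - 1) ≤ 1 / (6 * A) + δ + δ * A := by linarith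
    have h10 : Nstar T / N0 T ≤ 1 + 1 / (3 * A ^ 2) + 4 * δ := by
      have h11 : Nstar T / N0 T - 1 ≤ (1 / (6 * A) + δ + δ * A) * (2 / A) := by
        have h12 : Nstar T / N0 T - 1 = (A / 2 * (Nstar T / N0 T - 1)) * (2 / A) := by field_simp
        rw [h12]
        gcongr
      have h13 : (1 / (6 * A) + δ + δ * A) * (2 / A) = 1 / (3 * A ^ 2) + 2 * δ / A + 2 * δ := by
        field_simp
        ring
      have h14 : 2 * δ / A ≤ 2 * δ := div_le_self (by positivity) hA.le
      linarith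
    have h15 : N0 T * (1 - δ) ≤ NN T := by
      rw [le_div_iff₀ hN0] at h3
      linarith
    have h16 : Nstar T ≤ (1 + 1 / (3 * A ^ 2) + 4 * δ) * N0 T := by
      rwa [div_le_iff₀ hN0] at h10
    have hA2 : 1 / (3 * A ^ 2) ≤ 1 := by
      rw [div_le_one (by positivity)]
      nlinarith
    have hA3 : 0 < 1 / (3 * A ^ 2) := by positivity
    have h17 : (1 + 1 / (3 * A ^ 2) + 4 * δ) ≤ (1 + 1 / (3 * A ^ 2) + ε) * (1 - δ) := by nlinarith
    calc Nstar T ≤ (1 + 1 / (3 * A ^ 2) + 4 * δ) * N0 T := h16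
      _ ≤ (1 + 1 / (3 * A ^ 2) + ε) * (1 - δ) * N0 T := by gcongr
      _ = (1 + 1 / (3 * A ^ 2) + ε) * (N0 T * (1 - δ)) := by ring
      _ ≤ (1 + 1 / (3 * A ^ 2) + ε) * NN T := by gcongr

end Pool.Agent.Lib.MP_00e05b_nt.Mont
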