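import Pool.Agent.Lib.MP_00e05b_nt.Mont.HvA
import Pool.Agent.Lib.MP_00e05b_nt.Mont.T1

/-!
# Halves, file B: the Fejér kernel from both sides

`2 ∫_0^A F(α)(1 - α/A) dα = A Nstar/N0 + 2 PO T (fejk A)` with `fejk A x = A (sin πAx/(πAx))²`.
-/

open Set Filter Topology MeasureTheory

namespace Pool.Agent.Lib.MP_00e05b_nt.Mont

/-- Tent function of width `A`. -/
noncomputable def tentA (A α : ℝ) : ℝ := max 0 (1 - |α / A|)

/-- The Fejér kernel. -/
noncomputable def fejk (A x : ℝ) : ℝ := if x = 0 then A else A * (Real.sin (Real.pi * (A * x)) / (Real.pi * (A * x))) ^ 2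

lemma tentA_cont (A : ℝ) : Continuous (tentA A) := by
  unfold tentA
  fun_prop

lemma tentA_zero {A : ℝ} (hA : 0 < A) (α : ℝ) (h : A ≤ |α|) : tentA A α = 0 := by
  unfold tentA
  rw [max_eq_left]
  rw [abs_div, abs_of_pos hA, sub_nonpos, le_div_iff₀ hA]
  linarith

lemma tentA_even (A α : ℝ) : tentA A (-α) = tentA A α := by
  unfold tentA
  rw [neg_div, abs_neg]

lemma hvB_scale (ψ : ℝ → ℝ) {D : ℝ} (hD : 0 < D) (x : ℝ) :
    fT (fun α => ψ (α / D)) x = D * fT ψ (D * x) := by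
  unfold fT
  have h := Measure.integral_comp_div (fun β : ℝ => ψ β * Real.cos (2 * Real.pi * (D * x) * β)) D
  rw [abs_of_pos hD, smul_eq_mul] at h
  rw [← h]
  refine integral_congr_ae (Filter.Eventually.of_forall fun α => ?_)
  simp only
  congr 2
  field_simp

lemma fT_tent_zero : fT (fun β : ℝ => max 0 (1 - |β|)) 0 = 1 := by
  rw [fT_zero]
  have hc : Continuous (fun β : ℝ => max 0 (1 - |β|)) := by fun_prop
  have h1 : ∫ β : ℝ, max 0 (1 - |β|) = ∫ β in (-1 : ℝ)..1, max 0 (1 - |β|) := by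
    rw [intervalIntegral.integral_of_le (by norm_num), setIntegral_eq_integral_of_forall_compl_eq_zero]
    intro a ha
    apply max_eq_left
    by_contra hcon
    rw [not_le, sub_pos, abs_lt] at hcon
    exact ha ⟨hcon.1, hcon.2.le⟩
  rw [h1, ← intervalIntegral.integral_add_adjacent_intervals (hc.intervalIntegrable (-1) 0)
    (hc.intervalIntegrable 0 1)]
  have h2 : ∫ β in (-1 : ℝ)..0, max 0 (1 - |β|) = ∫ β in (-1 : ℝ)..0, (1 + β) := by
    refine intervalIntegral.integral_congr fun a ha => ?_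
    rw [uIcc_of_le (by norm_num)] at ha
    rw [abs_of_nonpos ha.2, max_eq_right (by linarith [ha.1])]
    ring
  have h3 : ∫ β in (0 : ℝ)..1, max 0 (1 - |β|) = ∫ β in (0 : ℝ)..1, (1 - β) := by
    refine intervalIntegral.integral_congr fun a ha => ?_
    rw [uIcc_of_le (by norm_num)] at ha
    rw [abs_of_nonneg ha.1, max_eq_right (by linarith [ha.2])]
  have i1 : Continuous (fun _ : ℝ => (1 : ℝ)) := continuous_const
  have i2 : Continuous (fun x : ℝ => x) := continuous_id
  rw [h2, h3, intervalIntegral.integral_add (i1.intervalIntegrable _ _) (i2.intervalIntegrable _ _),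
    intervalIntegral.integral_sub (i1.intervalIntegrable _ _) (i2.intervalIntegrable _ _), integral_id, integral_id]
  norm_num

lemma fT_tentA {A : ℝ} (hA : 0 < A) (x : ℝ) : fT (tentA A) x = fejk A x := by
  have h := hvB_scale (fun β => max 0 (1 - |β|)) hA x
  have h' : fT (tentA A) x = A * fT (fun β : ℝ => max 0 (1 - |β|)) (A * x) := h
  rw [h']
  unfold fejk
  split_ifs with hx
  · rw [hx, mul_zero, fT_tent_zero, mul_one]
  · have h2 : fT (fun β : ℝ => max 0 (1 - |β|)) (A * x) =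
        (Real.sin (Real.pi * (A * x)) / (Real.pi * (A * x))) ^ 2 := tent_hat (A * x) (mul_ne_zero hA.ne' hx)
    rw [h2]

lemma fejk_even (A x : ℝ) : fejk A (-x) = fejk A x := by
  unfold fejk
  by_cases h : x = 0
  · rw [h, neg_zero]
  · rw [if_neg (neg_ne_zero.2 h), if_neg h]
    have e : Real.pi * (A * -x) = -(Real.pi * (A * x)) := by ring
    rw [e, Real.sin_neg, neg_div_neg_eq]

lemma fejk_zero (A : ℝ) : fejk A 0 = A := by
  unfold fejk
  rw [if_pos rfl]

lemma fejk_nonneg {A : ℝ} (hA : 0 < A) (x : ℝ) : 0 ≤ fejk A x := by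
  unfold fejk
  split_ifs
  · exact hA.le
  · positivity

lemma fejk_le {A : ℝ} (hA : 0 < A) (x : ℝ) : fejk A x ≤ A := by
  unfold fejk
  split_ifs
  · exact le_rfl
  · have h1 : |Real.sin (Real.pi * (A * x)) / (Real.pi * (A * x))| ≤ 1 := by
      rw [abs_div]
      exact div_le_one_of_le₀ (Real.abs_sin_le_abs) (abs_nonneg _)
    have h2 : (Real.sin (Real.pi * (A * x)) / (Real.pi * (A * x))) ^ 2 ≤ 1 := by
      rw [← sq_abs]
      nlinarith [abs_nonneg (Real.sin (Real.pi * (A * x)) / (Real.pi * (A * x)))]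
    nlinarith

lemma fejk_le' {A : ℝ} (hA : 0 < A) {x : ℝ} (hx : 0 < x) : fejk A x ≤ 1 / (Real.pi ^ 2 * A * x ^ 2) := by
  have hpi := Real.pi_pos
  unfold fejk
  rw [if_neg hx.ne', div_pow]
  have h1 : Real.sin (Real.pi * (A * x)) ^ 2 ≤ 1 := Real.sin_sq_le_one _
  calc A * (Real.sin (Real.pi * (A * x)) ^ 2 / (Real.pi * (A * x)) ^ 2)
      ≤ A * (1 / (Real.pi * (A * x)) ^ 2) := by gcongr
    _ = 1 / (Real.pi ^ 2 * A * x ^ 2) := by
        field_simp

/-- lower bound near the origin -/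
lemma fejk_ge {A : ℝ} (hA : 0 < A) {x : ℝ} (hx : 0 < x) (hx2 : x ≤ 1 / (2 * A)) : 4 / Real.pi ^ 2 * A ≤ fejk A x := by
  have hpi := Real.pi_pos
  unfold fejk
  rw [if_neg hx.ne']
  have h1 : 0 < Real.pi * (A * x) := by positivity
  have h2 : Real.pi * (A * x) ≤ Real.pi / 2 := by
    rw [le_div_iff₀ (by positivity)] at hx2
    nlinarith
  have h3 := Real.mul_le_sin h1.le h2
  have h4 : 2 / Real.pi ≤ Real.sin (Real.pi * (A * x)) / (Real.pi * (A * x)) := by
    rw [le_div_iff₀ h1]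
    exact h3
  have h5 : (2 / Real.pi) ^ 2 ≤ (Real.sin (Real.pi * (A * x)) / (Real.pi * (A * x))) ^ 2 := by gcongr
  have e : (2 / Real.pi) ^ 2 = 4 / Real.pi ^ 2 := by
    rw [div_pow]
    norm_num
  rw [e] at h5
  rw [mul_comm]
  gcongr

private lemma hvB_sym {g : ℝ → ℝ} (hg : Continuous g) (he : ∀ a, g (-a) = g a) {A : ℝ} (hA : 0 ≤ A)
    (h0 : ∀ x, A ≤ |x| → g x = 0) : ∫ a, g a = 2 * ∫ a in (0 : ℝ)..A, g a := by
  have h1 : ∫ a, g a = ∫ a in (-A)..A, g a := by
    rw [intervalIntegral.integral_of_le (by linarith), setIntegral_eq_integral_of_forall_compl_eq_zero]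
    intro a ha
    apply h0 a
    by_contra hcon
    rw [not_le, abs_lt] at hcon
    exact ha ⟨hcon.1, hcon.2.le⟩
  rw [h1, ← intervalIntegral.integral_add_adjacent_intervals (hg.intervalIntegrable (-A) 0)
    (hg.intervalIntegrable 0 A)]
  have h2 : ∫ a in (-A)..0, g a = ∫ a in (0 : ℝ)..A, g a := by
    have h3 := intervalIntegral.integral_comp_neg (a := 0) (b := A) g
    rw [neg_zero] at h3
    rw [← h3]
    exact intervalIntegral.integral_congr fun a _ => he a
  rw [h2]
  ring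

/-- The sum rule. -/
theorem fejer_eq {T A : ℝ} (hT : 1 < T) (hA : 0 < A) :
    ∫ α in (0 : ℝ)..A, FF α T * (1 - α / A) = A / 2 * (Nstar T / N0 T) + PO T (fejk A) := by
  have hT0 : 0 < T := by linarith
  have hFc := FF_continuous hT0
  have h1 := PS_FF hT (tentA_cont A) ⟨A, tentA_zero hA⟩
  have e : fT (tentA A) = fejk A := funext fun x => fT_tentA hA x
  have h3 : ∫ a, FF a T * tentA A a = 2 * ∫ a in (0 : ℝ)..A, FF a T * tentA A a :=
    hvB_sym (g := fun a => FF a T * tentA A a) (hFc.mul (tentA_cont A))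
      (fun a => by rw [FF_even hT0, tentA_even]) hA.le (fun x hx => by rw [tentA_zero hA x hx, mul_zero])
  rw [e, PS_eq_PO hT (fejk_even A), fejk_zero, h3] at h1
  have h2 : ∫ α in (0 : ℝ)..A, FF α T * (1 - α / A) = ∫ a in (0 : ℝ)..A, FF a T * tentA A a := by
    refine intervalIntegral.integral_congr fun a ha => ?_
    rw [uIcc_of_le hA.le] at ha
    unfold tentA
    rw [abs_of_nonneg (div_nonneg ha.1 hA.le), max_eq_right]
    rw [sub_nonneg, div_le_one hA]
    exact ha.2
  rw [h2]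
  linarith

/-- pointwise dyadic bound for the Fejér kernel -/
private lemma hvB_dyadic {A x : ℝ} (hA : 0 < A) (hx : 0 < x) (K : ℕ) :
    fejk A x ≤ (∑ k ∈ Finset.range (K + 1), (A * (1 / 4) ^ k) * (if x ≤ 2 ^ k / A then 1 else 0)) +
      (if 2 ^ K / A < x then 1 / (Real.pi ^ 2 * A * x ^ 2) else 0) := by
  have hpi := Real.pi_pos
  have hnn : ∀ k ∈ Finset.range (K + 1), 0 ≤ (A * (1 / 4 : ℝ) ^ k) * (if x ≤ 2 ^ k / A then 1 else 0) := by
    intro k _
    refine mul_nonneg (by positivity) ?_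
    split_ifs <;> norm_num
  by_cases h : 2 ^ K / A < x
  · rw [if_pos h]
    have := Finset.sum_nonneg hnn
    have := fejk_le' hA hx
    linarith
  · rw [if_neg h, add_zero]
    rw [not_lt] at h
    -- the least `k` with `x ≤ 2^k/A`
    classical
    have hex : ∃ k : ℕ, x ≤ 2 ^ k / A := ⟨K, h⟩
    obtain ⟨k, hk⟩ : ∃ k, k = Nat.find hex := ⟨_, rfl⟩
    have hk1 : x ≤ 2 ^ k / A := by
      rw [hk]
      exact Nat.find_spec hex
    have hkK : k ≤ K := by
      rw [hk]
      exact Nat.find_min' hex h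
    have h2 : (A * (1 / 4 : ℝ) ^ k) * (if x ≤ 2 ^ k / A then 1 else 0) ≤
        ∑ k ∈ Finset.range (K + 1), (A * (1 / 4 : ℝ) ^ k) * (if x ≤ 2 ^ k / A then 1 else 0) :=
      Finset.single_le_sum (f := fun k => (A * (1 / 4 : ℝ) ^ k) * (if x ≤ 2 ^ k / A then 1 else 0)) hnn
        (Finset.mem_range.2 (by omega))
    rw [if_pos hk1, mul_one] at h2
    refine le_trans ?_ h2
    rcases Nat.eq_zero_or_pos k with h0 | h0
    · rw [h0, pow_zero, mul_one]
      exact fejk_le hA x
    · have h3 : ¬ x ≤ 2 ^ (k - 1) / A := by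
        rw [hk]
        apply Nat.find_min hex
        rw [← hk]
        omega
      rw [not_le, div_lt_iff₀ hA] at h3
      obtain ⟨j, hj⟩ : ∃ j, k = j + 1 := ⟨k - 1, by omega⟩
      rw [hj] at h3 ⊢
      simp only [Nat.add_sub_cancel] at h3
      refine (fejk_le' hA hx).trans ?_
      have h4 : (2 ^ j) ^ 2 ≤ (x * A) ^ 2 := by gcongr
      have h5 : (4 : ℝ) ^ j ≤ (x * A) ^ 2 := by
        have e : ((2 : ℝ) ^ j) ^ 2 = 4 ^ j := by
          rw [← pow_mul, mul_comm, pow_mul]
          norm_num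
        rwa [e] at h4
      have h6 : (4 : ℝ) ≤ Real.pi ^ 2 := by nlinarith [Real.pi_gt_three]
      have e4 : A * (1 / 4 : ℝ) ^ (j + 1) = A / (4 * 4 ^ j) := by
        rw [one_div, inv_pow, pow_succ]
        field_simp
      rw [e4, div_le_div_iff₀ (by positivity) (by positivity), one_mul]
      calc (4 : ℝ) * 4 ^ j ≤ Real.pi ^ 2 * (x * A) ^ 2 := by gcongr
        _ = A * (Real.pi ^ 2 * A * x ^ 2) := by ring

/-- The off-diagonal part is small if there are few close pairs. -/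
theorem fejer_off (hRH : RiemannHypothesis) : ∃ C : ℝ, 0 ≤ C ∧ ∀ ε b0 : ℝ, 0 < ε → 0 < b0 →
    (∀ β, 0 < β → β ≤ b0 → ∀ᶠ T : ℝ in atTop, NP T β / N0 T ≤ ε * β) →
    ∀ K : ℕ, ∀ᶠ T : ℝ in atTop, PO T (fejk (2 ^ K / b0)) ≤ 2 * ε + C * (1 + 1 / b0 ^ 2) / (2 ^ K / b0) := by
  obtain ⟨C, hC, hb⟩ := PO_bound hRH
  refine ⟨C, hC, fun ε b0 hε hb0 h K => ?_⟩
  have hpi := Real.pi_pos
  obtain ⟨A, hA⟩ : ∃ A : ℝ, A = 2 ^ K / b0 := ⟨_, rfl⟩
  have hA0 : 0 < A := by rw [hA]; positivity
  have hKA : 2 ^ K / A = b0 := by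
    rw [hA]
    field_simp
  rw [← hA]
  have hgrid : ∀ᶠ T : ℝ in atTop, ∀ k ∈ Finset.range (K + 1), NP T (2 ^ k / A) / N0 T ≤ ε * (2 ^ k / A) := by
    rw [eventually_all_finset]
    intro k hk
    refine h _ (by positivity) ?_
    rw [← hKA]
    gcongr
    · norm_num
    · exact Nat.lt_succ_iff.1 (Finset.mem_range.1 hk)
  filter_upwards [hgrid, hb, eventually_gt_atTop 1] with T h1 h2 hT
  have h3 := PO_le_of hT (f := fejk A) (t := fun x => if 2 ^ K / A < x then 1 / (Real.pi ^ 2 * A * x ^ 2) else 0)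
    (K + 1) (fun k => A * (1 / 4) ^ k) (fun k => 2 ^ k / A) (fun k => by positivity) (fun x hx => hvB_dyadic hA0 hx K)
  have h4 := h2 ((1 + 1 / b0 ^ 2) / A) (fun x => if 2 ^ K / A < x then 1 / (Real.pi ^ 2 * A * x ^ 2) else 0)
    (by positivity) (by
      intro x hx
      split_ifs with h5
      · rw [hKA] at h5
        have h6 : 1 + x ^ 2 ≤ (1 + 1 / b0 ^ 2) * x ^ 2 := by
          have h7 : 1 ≤ 1 / b0 ^ 2 * x ^ 2 := by
            rw [one_div_mul_eq_div, le_div_iff₀ (by positivity), one_mul]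
            gcongr
          linarith
        have h8 : (1 : ℝ) ≤ Real.pi ^ 2 := by nlinarith [Real.pi_gt_three]
        rw [div_div, div_le_div_iff₀ (by positivity) (by positivity), one_mul]
        calc A * (1 + x ^ 2) ≤ A * ((1 + 1 / b0 ^ 2) * x ^ 2) := by gcongr
          _ = (1 + 1 / b0 ^ 2) * (1 * A * x ^ 2) := by ring
          _ ≤ (1 + 1 / b0 ^ 2) * (Real.pi ^ 2 * A * x ^ 2) := by gcongr
      · positivity)
  have h5 : ∑ k ∈ Finset.range (K + 1), A * (1 / 4) ^ k * (NP T (2 ^ k / A) / N0 T) ≤ 2 * ε := by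
    calc ∑ k ∈ Finset.range (K + 1), A * (1 / 4) ^ k * (NP T (2 ^ k / A) / N0 T)
        ≤ ∑ k ∈ Finset.range (K + 1), A * (1 / 4) ^ k * (ε * (2 ^ k / A)) :=
          Finset.sum_le_sum fun k hk => mul_le_mul_of_nonneg_left (h1 k hk) (by positivity)
      _ = ε * ∑ k ∈ Finset.range (K + 1), (1 / 2 : ℝ) ^ k := by
          rw [Finset.mul_sum]
          refine Finset.sum_congr rfl fun k _ => ?_
          have e : (1 / 4 : ℝ) ^ k * 2 ^ k = (1 / 2) ^ k := by
            rw [← mul_pow]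
            norm_num
          rw [← e]
          field_simp
      _ ≤ ε * 2 := by
          gcongr
          have hg := Summable.sum_le_tsum (Finset.range (K + 1)) (fun k _ => by positivity) summable_geometric_two
          rw [tsum_geometric_two] at hg
          exact hg
      _ = 2 * ε := mul_comm _ _
  have h6 : C * ((1 + 1 / b0 ^ 2) / A) = C * (1 + 1 / b0 ^ 2) / A := by ring
  rw [h6] at h4
  linarith

private theorem hvB_int1 {A : ℝ} (hA : 1 < A) : ∫ α in (1 : ℝ)..A, (1 - α / A) = A / 2 - 1 + 1 / (2 * A) := by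
  have hA0 : A ≠ 0 := by positivity
  have h1 : IntervalIntegrable (fun _ : ℝ => (1 : ℝ)) volume 1 A := Continuous.intervalIntegrable (by fun_prop) _ _
  have h2 : IntervalIntegrable (fun α : ℝ => α / A) volume 1 A := Continuous.intervalIntegrable (by fun_prop) _ _
  rw [intervalIntegral.integral_sub h1 h2,
    intervalIntegral.integral_const, intervalIntegral.integral_div, integral_id, smul_eq_mul]
  field_simp
  ring

private theorem hvB_int2 {A : ℝ} (hA : 1 < A) : ∫ x in (0 : ℝ)..1, x * (1 - x / A) = 1 / 2 - 1 / (3 * A) := by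
  have hA0 : A ≠ 0 := by positivity
  have e : (fun x : ℝ => x * (1 - x / A)) = fun x : ℝ => x - x ^ 2 / A := by
    funext x
    ring
  have h1 : IntervalIntegrable (fun x : ℝ => x) volume 0 1 := Continuous.intervalIntegrable (by fun_prop) _ _
  have h2 : IntervalIntegrable (fun x : ℝ => x ^ 2 / A) volume 0 1 := Continuous.intervalIntegrable (by fun_prop) _ _
  rw [e, intervalIntegral.integral_sub h1 h2, integral_id, intervalIntegral.integral_div, integral_pow]
  field_simp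
  norm_num
  ring

/-- The sum rule with Montgomery's theorem inserted. -/
theorem fejer_rule (hRH : RiemannHypothesis) {A : ℝ} (hA : 1 < A) (ε : ℝ) (hε : 0 < ε) :
    ∀ᶠ T : ℝ in atTop, |(∫ α in (1 : ℝ)..A, (FF α T - 1) * (1 - α / A)) -
      (A / 2 * (Nstar T / N0 T - 1) + PO T (fejk A) - 1 / (6 * A))| ≤ ε := by
  have hA0 : 0 < A := by positivity
  have hlim := base hRH (r := fun x => 1 - x / A) (by fun_prop)
  have hval : (fun x : ℝ => 1 - x / A) 0 / 2 + ∫ x in (0 : ℝ)..1, x * (fun x : ℝ => 1 - x / A) x = 1 - 1 / (3 * A) := by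
    simp only
    rw [hvB_int2 hA]
    ring
  rw [hval] at hlim
  filter_upwards [(Metric.tendsto_nhds.1 hlim) ε hε, eventually_gt_atTop (1 : ℝ)] with T h1 hT
  rw [Real.dist_eq] at h1
  have hT0 : 0 < T := by linarith
  have hc : Continuous (fun α => FF α T) := FF_continuous hT0
  have hc2 : Continuous (fun α : ℝ => FF α T * (1 - α / A)) := hc.mul (by fun_prop)
  have hf := fejer_eq hT hA0
  have hsplit := intervalIntegral.integral_add_adjacent_intervals (hc2.intervalIntegrable (μ := volume) 0 1)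
    (hc2.intervalIntegrable (μ := volume) 1 A)
  have hI : ∫ α in (1 : ℝ)..A, (FF α T - 1) * (1 - α / A) =
      (∫ α in (1 : ℝ)..A, FF α T * (1 - α / A)) - (A / 2 - 1 + 1 / (2 * A)) := by
    rw [← hvB_int1 hA, ← intervalIntegral.integral_sub (hc2.intervalIntegrable _ _)
      ((by fun_prop : Continuous (fun α : ℝ => 1 - α / A)).intervalIntegrable _ _)]
    congr 1
    funext α
    ring
  rw [hI]
  have e1 : 1 / (6 * A) = 1 / (2 * A) - 1 / (3 * A) := by field_simp; norm_num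
  rw [e1]
  have e2 : (∫ α in (1 : ℝ)..A, FF α T * (1 - α / A)) - (A / 2 - 1 + 1 / (2 * A)) -
      (A / 2 * (Nstar T / N0 T - 1) + PO T (fejk A) - (1 / (2 * A) - 1 / (3 * A))) =
      -((∫ α in (0 : ℝ)..1, FF α T * (1 - α / A)) - (1 - 1 / (3 * A))) := by
    linarith
  rw [e2, abs_neg]
  exact h1.le

end Pool.Agent.Lib.MP_00e05b_nt.Mont
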