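import Pool.Agent.Lib.MP_00e05b_nt.Mont.HvB

/-!
# Halves, file C: the Fejér mean of `F - 1`, simple zeros and weak repulsion
-/

open Set Filter Topology MeasureTheory

namespace Pool.Agent.Lib.MP_00e05b_nt.Mont

/-- `Nstar/N0 ≥ 1 - o(1)`. -/
theorem Nstar_lower (hRH : RiemannHypothesis) {δ : ℝ} (hδ : 0 < δ) :
    ∀ᶠ T : ℝ in atTop, 1 - δ ≤ Nstar T / N0 T := by
  filter_upwards [(count_tendsto hRH).eventually (le_mem_nhds (show 1 - δ < 1 by linarith)),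
    eventually_gt_atTop (1 : ℝ)] with T h1 hT
  have hN0 : 0 < N0 T := N0_pos hT
  have h2 : NN T / N0 T ≤ Nstar T / N0 T := by
    have := NN_le_Nstar T
    gcongr
  linarith

/-- Simple zeros (in the mean) and weak repulsion make the Fejér mean of `F - 1` small. -/
theorem fej_small (hRH : RiemannHypothesis)
    (hN : Tendsto (fun T : ℝ => Nstar T / N0 T) atTop (𝓝 1))
    (hW : ∀ ε > 0, ∃ b0 > 0, ∀ β, 0 < β → β ≤ b0 → ∀ᶠ T : ℝ in atTop, NP T β / N0 T ≤ ε * β) :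
    ∀ ε > 0, ∃ A0 : ℝ, 1 < A0 ∧ ∀ A, A0 ≤ A → ∀ᶠ T : ℝ in atTop,
      |∫ α in (1 : ℝ)..A, (FF α T - 1) * (1 - α / A)| ≤ ε := by
  obtain ⟨C, hC, hoff⟩ := fejer_off hRH
  intro ε hε
  obtain ⟨b0, hb0, hW'⟩ := hW (ε / 8) (by positivity)
  obtain ⟨A0, hA0⟩ : ∃ A0 : ℝ, A0 = 2 + 1 / b0 + 8 * C * (1 + 4 / b0 ^ 2) / ε + 2 / ε := ⟨_, rfl⟩
  have p1 : 0 < 1 / b0 := by positivity
  have p2 : 0 ≤ 8 * C * (1 + 4 / b0 ^ 2) / ε := by positivity
  have p3 : 0 < 2 / ε := by positivity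
  refine ⟨A0, by linarith, fun A hA => ?_⟩
  have hA1 : 1 < A := by linarith
  have hApos : 0 < A := by linarith
  -- the scale
  obtain ⟨K, hK1, hK2⟩ : ∃ K : ℕ, 2 ^ K / A ≤ b0 ∧ b0 / 2 < 2 ^ K / A := by
    have h1 : 1 ≤ A * b0 := by
      have : 1 / b0 ≤ A := by linarith
      rwa [div_le_iff₀ hb0] at this
    obtain ⟨K, hK, hK'⟩ := exists_nat_pow_near h1 (one_lt_two)
    refine ⟨K, ?_, ?_⟩
    · rw [div_le_iff₀ hApos]
      linarith
    · rw [lt_div_iff₀ hApos]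
      rw [pow_succ] at hK'
      linarith
  obtain ⟨b1, hb1⟩ : ∃ b1 : ℝ, b1 = 2 ^ K / A := ⟨_, rfl⟩
  rw [← hb1] at hK1 hK2
  have hb1p : 0 < b1 := by rw [hb1]; positivity
  have hAb : 2 ^ K / b1 = A := by
    rw [hb1]
    field_simp
  have h2 := hoff (ε / 8) b1 (by positivity) hb1p (fun β h1 h2 => hW' β h1 (h2.trans hK1)) K
  rw [hAb] at h2
  have h3 : C * (1 + 1 / b1 ^ 2) / A ≤ ε / 8 := by
    have h4 : 1 / b1 ^ 2 ≤ 4 / b0 ^ 2 := by
      rw [div_le_div_iff₀ (by positivity) (by positivity)]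
      nlinarith
    rw [div_le_iff₀ hApos]
    have h5 : 8 * C * (1 + 4 / b0 ^ 2) / ε ≤ A := by linarith
    rw [div_le_iff₀ hε] at h5
    have h6 : C * (1 + 1 / b1 ^ 2) ≤ C * (1 + 4 / b0 ^ 2) := by gcongr
    linarith
  have h7 : 1 / (6 * A) ≤ ε / 8 := by
    have h8 : 2 / ε ≤ A := by linarith
    rw [div_le_iff₀ hε] at h8
    rw [div_le_div_iff₀ (by positivity) (by norm_num)]
    nlinarith
  have h7' : 0 < 1 / (6 * A) := by positivity
  filter_upwards [h2, fejer_rule hRH hA1 (ε / 8) (by positivity),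
    (Metric.tendsto_nhds.1 hN) (ε / (4 * A)) (by positivity), eventually_gt_atTop 1] with T g1 g2 g3 hT
  rw [Real.dist_eq] at g3
  have g4 : |A / 2 * (Nstar T / N0 T - 1)| ≤ ε / 8 := by
    rw [abs_mul, abs_of_pos (by positivity : 0 < A / 2)]
    have : A / 2 * |Nstar T / N0 T - 1| ≤ A / 2 * (ε / (4 * A)) := mul_le_mul_of_nonneg_left g3.le (by positivity)
    refine this.trans (le_of_eq ?_)
    field_simp
    norm_num
  have g5 : 0 ≤ PO T (fejk A) := PO_nonneg hT fun x _ => fejk_nonneg hApos x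
  have g6 := abs_le.1 g2
  have g7 := abs_le.1 g4
  rw [abs_le]
  constructor
  · linarith [g6.1, g7.1]
  · linarith [g6.2, g7.2]

/-- Conversely, if the Fejér mean of `F - 1` is small then almost all zeros are simple (in the mean). -/
theorem Nstar_of_fej (hRH : RiemannHypothesis)
    (hF : ∀ ε > 0, ∃ A0 : ℝ, 1 < A0 ∧ ∀ A, A0 ≤ A → ∀ᶠ T : ℝ in atTop,
      |∫ α in (1 : ℝ)..A, (FF α T - 1) * (1 - α / A)| ≤ ε) :
    Tendsto (fun T : ℝ => Nstar T / N0 T) atTop (𝓝 1) := by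
  rw [Metric.tendsto_nhds]
  intro η hη
  obtain ⟨A0, hA01, hA0⟩ := hF 1 one_pos
  obtain ⟨A, hA⟩ : ∃ A : ℝ, A = A0 + 6 / η := ⟨_, rfl⟩
  have p : 0 < 6 / η := by positivity
  have hA1 : 1 < A := by linarith
  have hApos : 0 < A := by linarith
  have hAη : 6 ≤ A * η := by
    have : 6 / η ≤ A := by linarith
    rwa [div_le_iff₀ hη] at this
  filter_upwards [hA0 A (by linarith), fejer_rule hRH hA1 (1 / 2) (by norm_num), Nstar_lower hRH (half_pos hη),
    eventually_gt_atTop 1] with T g1 g2 g3 hT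
  have g5 : 0 ≤ PO T (fejk A) := PO_nonneg hT fun x _ => fejk_nonneg hApos x
  have g6 := abs_le.1 g2
  have g7 := abs_le.1 g1
  rw [Real.dist_eq, abs_lt]
  constructor
  · linarith
  · by_contra hcon
    rw [not_lt] at hcon
    have h1 : A / 2 * η ≤ A / 2 * (Nstar T / N0 T - 1) := mul_le_mul_of_nonneg_left hcon (by positivity)
    have h2 : 1 / (6 * A) ≤ 1 := by
      rw [div_le_one (by positivity)]
      linarith
    linarith [g6.1, g7.2]

/-- and the zeros repel each other weakly. -/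
theorem weak_of_fej (hRH : RiemannHypothesis)
    (hF : ∀ ε > 0, ∃ A0 : ℝ, 1 < A0 ∧ ∀ A, A0 ≤ A → ∀ᶠ T : ℝ in atTop,
      |∫ α in (1 : ℝ)..A, (FF α T - 1) * (1 - α / A)| ≤ ε) :
    ∀ ε > 0, ∃ b0 > 0, ∀ β, 0 < β → β ≤ b0 → ∀ᶠ T : ℝ in atTop, NP T β / N0 T ≤ ε * β := by
  intro ε hε
  have hpi := Real.pi_pos
  obtain ⟨e, he⟩ : ∃ e : ℝ, e = ε / 40 := ⟨_, rfl⟩
  have hep : 0 < e := by rw [he]; positivity
  obtain ⟨A0, hA01, hA0⟩ := hF e hep
  obtain ⟨A1, hA1⟩ : ∃ A1 : ℝ, A1 = A0 + 1 / e := ⟨_, rfl⟩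
  have p : 0 < 1 / e := by positivity
  have hA1p : 0 < A1 := by linarith
  refine ⟨1 / (2 * A1), by positivity, fun β hβ hβ1 => ?_⟩
  obtain ⟨A, hA⟩ : ∃ A : ℝ, A = 1 / (2 * β) := ⟨_, rfl⟩
  have hAA : A1 ≤ A := by
    rw [hA, le_div_iff₀ (by positivity)]
    rw [le_div_iff₀ (by linarith)] at hβ1
    linarith
  have hAp : 1 < A := by linarith
  have hApos : 0 < A := by linarith
  have hβA : 1 / (2 * A) = β := by
    rw [hA]
    field_simp
  have hAβ : A * β = 1 / 2 := by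
    rw [hA]
    field_simp
  have hAe : 1 ≤ A * e := by
    have : 1 / e ≤ A := by linarith
    rwa [div_le_iff₀ hep] at this
  have hsmall : 1 / (6 * A) ≤ e := by
    rw [div_le_iff₀ (by positivity)]
    nlinarith
  have hw : Tendsto (fun T : ℝ => 4 / (4 + (2 * Real.pi * β / Real.log T) ^ 2)) atTop (𝓝 1) := by
    have h1 : Tendsto (fun T : ℝ => 2 * Real.pi * β / Real.log T) atTop (𝓝 0) :=
      Real.tendsto_log_atTop.const_div_atTop _
    have h2 : Tendsto (fun T : ℝ => 4 / (4 + (2 * Real.pi * β / Real.log T) ^ 2)) atTop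
        (𝓝 (4 / (4 + 0 ^ 2))) := Tendsto.div tendsto_const_nhds (tendsto_const_nhds.add (h1.pow 2)) (by norm_num)
    have e1 : (4 : ℝ) / (4 + 0 ^ 2) = 1 := by norm_num
    rwa [e1] at h2
  filter_upwards [hA0 A (by linarith), fejer_rule hRH hAp e hep, Nstar_lower hRH (show 0 < 2 * e / A by positivity),
    hw.eventually (le_mem_nhds (show (1 / 2 : ℝ) < 1 by norm_num)), eventually_gt_atTop 1] with T g1 g2 g3 g4 hT
  have g6 := abs_le.1 g2
  have g7 := abs_le.1 g1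
  have hN0 := N0_pos hT
  have hNP : 0 ≤ NP T β / N0 T := div_nonneg (NP_nonneg _ _) hN0.le
  have h1 : PO T (fejk A) ≤ 4 * e := by
    have h2 : A / 2 * (-(2 * e / A)) ≤ A / 2 * (Nstar T / N0 T - 1) :=
      mul_le_mul_of_nonneg_left (by linarith) (by positivity)
    have h3 : A / 2 * (-(2 * e / A)) = -e := by
      field_simp
    linarith [g6.1, g7.2]
  have h2 : 4 / Real.pi ^ 2 * A * PO T (fun x => if x ≤ β then 1 else 0) ≤ PO T (fejk A) := by
    rw [← PO_const_mul]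
    refine PO_mono hT fun x hx => ?_
    split_ifs with h
    · rw [mul_one]
      exact fejk_ge hApos hx (by rw [hβA]; exact h)
    · rw [mul_zero]
      exact fejk_nonneg hApos x
  have h3 := PO_ind_ge hT β
  have h4 : 1 / 2 * (NP T β / N0 T) ≤ PO T (fun x => if x ≤ β then 1 else 0) :=
    (mul_le_mul_of_nonneg_right g4 hNP).trans h3
  have h5 : 4 / Real.pi ^ 2 * A * (1 / 2 * (NP T β / N0 T)) ≤ 4 * e :=
    ((mul_le_mul_of_nonneg_left h4 (by positivity)).trans h2).trans h1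
  have h6 : Real.pi ^ 2 ≤ 10 := by nlinarith [Real.pi_lt_d2, Real.pi_gt_three]
  have h7 : NP T β / N0 T * (1 / β) ≤ 4 * e * Real.pi ^ 2 := by
    have e1 : 4 / Real.pi ^ 2 * A * (1 / 2 * (NP T β / N0 T)) = NP T β / N0 T * (1 / β) / Real.pi ^ 2 := by
      rw [hA]
      field_simp
      norm_num
    rw [e1, div_le_iff₀ (by positivity)] at h5
    exact h5
  have h8 : NP T β / N0 T ≤ 4 * e * Real.pi ^ 2 * β := by
    rw [mul_one_div, div_le_iff₀ hβ] at h7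
    exact h7
  calc NP T β / N0 T ≤ 4 * e * Real.pi ^ 2 * β := h8
    _ ≤ 4 * e * 10 * β := by gcongr
    _ = ε * β := by rw [he]; ring

end Pool.Agent.Lib.MP_00e05b_nt.Mont
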