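import Pool.Agent.Lib.MP_00e05b_nt.Mont.HvC

/-!
# Halves, file D: the lower half of the averaged conjecture and the Fejér mean

If `liminf ∫_a^b F ≥ b - a` for all `1 ≤ a < b`, and the Fejér mean of `F - 1` tends to `0`, then `∫_a^b F → b - a`.
-/

open Set Filter Topology MeasureTheory

namespace Pool.Agent.Lib.MP_00e05b_nt.Mont

/-- uniform lower bounds from a grid -/
private theorem hvD_unif (h : ∀ a b : ℝ, 1 ≤ a → a < b → ∀ ε > 0, ∀ᶠ T : ℝ in atTop, b - a - ε ≤ ∫ α in a..b, FF α T)
    {a A : ℝ} (ha : 1 ≤ a) {ε : ℝ} (hε : 0 < ε) :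
    ∀ᶠ T : ℝ in atTop, ∀ y ∈ Icc a A, y - a - ε ≤ ∫ α in a..y, FF α T := by
  set δ : ℝ := ε / 2 with hδ
  have hδ0 : 0 < δ := by positivity
  set N : ℕ := ⌊(A - a) / δ⌋₊ with hN
  have hgrid : ∀ᶠ T : ℝ in atTop, ∀ j ∈ Finset.range (N + 1),
      (j : ℝ) * δ - δ ≤ ∫ α in a..(a + (j : ℝ) * δ), FF α T := by
    rw [eventually_all_finset]
    intro j _
    rcases Nat.eq_zero_or_pos j with h0 | h0
    · refine Eventually.of_forall fun T => ?_
      rw [h0]
      simp only [Nat.cast_zero, zero_mul, add_zero, intervalIntegral.integral_same]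
      linarith
    · have hj : (0 : ℝ) < j := by exact_mod_cast h0
      have h1 := h a (a + (j : ℝ) * δ) ha (by have : 0 < (j : ℝ) * δ := by positivity
                                              linarith) δ hδ0
      filter_upwards [h1] with T hT
      linarith
  filter_upwards [hgrid, eventually_gt_atTop (1 : ℝ)] with T hT hT1 y hy
  have hT0 : 0 < T := by linarith
  have hc : Continuous (fun α => FF α T) := FF_continuous hT0
  set j : ℕ := ⌊(y - a) / δ⌋₊ with hj
  have hya : 0 ≤ (y - a) / δ := div_nonneg (by linarith [hy.1]) hδ0.le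
  have hjN : j ≤ N := Nat.floor_le_floor (by gcongr; exact hy.2)
  have hj1 : (j : ℝ) ≤ (y - a) / δ := Nat.floor_le hya
  have hj2 : (y - a) / δ < (j : ℝ) + 1 := Nat.lt_floor_add_one _
  have hj3 : (j : ℝ) * δ ≤ y - a := by rwa [le_div_iff₀ hδ0] at hj1
  have hj4 : y - a < ((j : ℝ) + 1) * δ := by rwa [div_lt_iff₀ hδ0] at hj2
  have h2 := hT j (Finset.mem_range.2 (by omega))
  have h3 : ∫ α in a..(a + (j : ℝ) * δ), FF α T ≤ ∫ α in a..y, FF α T := by
    rw [← intervalIntegral.integral_add_adjacent_intervals (hc.intervalIntegrable (μ := volume) a (a + (j : ℝ) * δ))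
      (hc.intervalIntegrable (μ := volume) (a + (j : ℝ) * δ) y)]
    have h4 : 0 ≤ ∫ α in (a + (j : ℝ) * δ)..y, FF α T :=
      intervalIntegral.integral_nonneg (by linarith) fun α _ => FF_nonneg hT1 α
    linarith
  have h5 : ((j : ℝ) + 1) * δ = (j : ℝ) * δ + δ := by ring
  linarith

/-- integration by parts -/
theorem hvD_parts {T A : ℝ} (hT : 0 < T) (hA : 1 < A) :
    ∫ y in (1 : ℝ)..A, ∫ α in (1 : ℝ)..y, (FF α T - 1) = A * ∫ α in (1 : ℝ)..A, (FF α T - 1) * (1 - α / A) := by
  have hc : Continuous (fun α => FF α T - 1) := (FF_continuous hT).sub continuous_const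
  have hA0 : A ≠ 0 := by positivity
  have h1 := intervalIntegral.integral_mul_deriv_eq_deriv_mul (a := 1) (b := A)
    (u := fun y : ℝ => 1 - y / A) (u' := fun _ => -(1 / A))
    (v := fun y => ∫ α in (1 : ℝ)..y, (FF α T - 1)) (v' := fun y => FF y T - 1)
    (fun x _ => by
      have := ((hasDerivAt_id x).div_const A).const_sub 1
      simpa using this)
    (fun x _ => (hc.integral_hasStrictDerivAt 1 x).hasDerivAt)
    (continuous_const.intervalIntegrable _ _) (hc.intervalIntegrable _ _)
  simp only [div_self hA0, sub_self, zero_mul, intervalIntegral.integral_same, mul_zero, zero_sub, neg_mul,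
    intervalIntegral.integral_neg, neg_neg, intervalIntegral.integral_const_mul] at h1
  have h2 : ∫ α in (1 : ℝ)..A, (FF α T - 1) * (1 - α / A) = ∫ α in (1 : ℝ)..A, (1 - α / A) * (FF α T - 1) := by
    congr 1
    funext α
    ring
  rw [h2, h1, ← mul_assoc, mul_one_div, div_self hA0, one_mul]

theorem hvD_sub {T a y : ℝ} (hT : 0 < T) :
    ∫ α in a..y, (FF α T - 1) = (∫ α in a..y, FF α T) - (y - a) := by
  rw [intervalIntegral.integral_sub ((FF_continuous hT).intervalIntegrable _ _) (by simp),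
    intervalIntegral.integral_const, smul_eq_mul, mul_one]

/-- The lower half and the Fejér mean. -/
theorem avg_of_lower
    (h : ∀ a b : ℝ, 1 ≤ a → a < b → ∀ ε > 0, ∀ᶠ T : ℝ in atTop, b - a - ε ≤ ∫ α in a..b, FF α T)
    (hF : ∀ ε > 0, ∃ A0 : ℝ, 1 < A0 ∧ ∀ A, A0 ≤ A → ∀ᶠ T : ℝ in atTop,
      |∫ α in (1 : ℝ)..A, (FF α T - 1) * (1 - α / A)| ≤ ε) :
    ∀ a b : ℝ, 1 ≤ a → a < b → Tendsto (fun T : ℝ => ∫ α in a..b, FF α T) atTop (𝓝 (b - a)) := by
  -- upper bound for the primitive
  have hΨ : ∀ b : ℝ, 1 ≤ b → ∀ η : ℝ, 0 < η → ∀ᶠ T : ℝ in atTop, ∫ α in (1 : ℝ)..b, (FF α T - 1) ≤ η := by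
    intro b hb η hη
    obtain ⟨A0, hA01, hA0⟩ := hF (η / 8) (by positivity)
    obtain ⟨A, hA⟩ : ∃ A : ℝ, A = A0 + 2 * b := ⟨_, rfl⟩
    have hA1 : 1 < A := by linarith
    filter_upwards [hA0 A (by linarith), hvD_unif h (a := 1) (A := A) le_rfl (show 0 < η / 8 by positivity),
      hvD_unif h (a := b) (A := A) hb (show 0 < η / 8 by positivity), eventually_gt_atTop (1 : ℝ)] with T h1 h3 h4 hT
    have hT0 : 0 < T := by linarith
    have hc : Continuous (fun α => FF α T - 1) := (FF_continuous hT0).sub continuous_const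
    have hcΨ : Continuous (fun y => ∫ α in (1 : ℝ)..y, (FF α T - 1)) :=
      intervalIntegral.continuous_primitive (fun a b => hc.intervalIntegrable a b) 1
    set P : ℝ := ∫ α in (1 : ℝ)..b, (FF α T - 1) with hP
    have h5 : (b - 1) * (-(η / 8)) ≤ ∫ y in (1 : ℝ)..b, (∫ α in (1 : ℝ)..y, (FF α T - 1)) := by
      calc (b - 1) * (-(η / 8)) = ∫ _y in (1 : ℝ)..b, (-(η / 8) : ℝ) := by
            rw [intervalIntegral.integral_const, smul_eq_mul]
        _ ≤ ∫ y in (1 : ℝ)..b, (∫ α in (1 : ℝ)..y, (FF α T - 1)) := by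
            refine intervalIntegral.integral_mono_on hb (by simp) (hcΨ.intervalIntegrable _ _) fun y hy => ?_
            have := h3 y ⟨hy.1, by linarith [hy.2]⟩
            rw [hvD_sub hT0]
            linarith
    have h6 : (A - b) * (P - η / 8) ≤ ∫ y in b..A, (∫ α in (1 : ℝ)..y, (FF α T - 1)) := by
      calc (A - b) * (P - η / 8) = ∫ _y in b..A, (P - η / 8) := by
            rw [intervalIntegral.integral_const, smul_eq_mul]
        _ ≤ ∫ y in b..A, (∫ α in (1 : ℝ)..y, (FF α T - 1)) := by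
            refine intervalIntegral.integral_mono_on (by linarith) (by simp) (hcΨ.intervalIntegrable _ _) fun y hy => ?_
            have h7 := h4 y hy
            have h8 := intervalIntegral.integral_add_adjacent_intervals (hc.intervalIntegrable (μ := volume) 1 b)
              (hc.intervalIntegrable (μ := volume) b y)
            rw [hvD_sub (a := b) hT0] at h8
            linarith
    have h9 := intervalIntegral.integral_add_adjacent_intervals (hcΨ.intervalIntegrable (μ := volume) 1 b)
      (hcΨ.intervalIntegrable (μ := volume) b A)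
    rw [hvD_parts hT0 hA1] at h9
    have h10 : A * (∫ α in (1 : ℝ)..A, (FF α T - 1) * (1 - α / A)) ≤ A * (η / 8) :=
      mul_le_mul_of_nonneg_left (abs_le.1 h1).2 (by linarith)
    by_contra hcon
    push Not at hcon
    have h14 : (A - b) * (η - η / 8) ≤ (A - b) * (P - η / 8) :=
      mul_le_mul_of_nonneg_left (by linarith) (by linarith)
    nlinarith
  have hΨlim : ∀ b : ℝ, 1 ≤ b → Tendsto (fun T : ℝ => ∫ α in (1 : ℝ)..b, (FF α T - 1)) atTop (𝓝 0) := by
    intro b hb
    rw [Metric.tendsto_nhds]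
    intro η hη
    filter_upwards [hvD_unif h (a := 1) (A := b) le_rfl (half_pos hη), hΨ b hb (η / 2) (half_pos hη),
      eventually_gt_atTop (1 : ℝ)] with T h1 h2 hT
    have h3 := h1 b ⟨hb, le_rfl⟩
    rw [Real.dist_eq, sub_zero, abs_lt]
    rw [hvD_sub (by linarith)] at h2 ⊢
    constructor <;> linarith
  intro a b ha hab
  have h1 := ((hΨlim b (by linarith)).sub (hΨlim a ha)).add_const (b - a)
  rw [sub_zero, zero_add] at h1
  refine h1.congr' ?_
  filter_upwards [eventually_gt_atTop (1 : ℝ)] with T hT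
  have hT0 : 0 < T := by linarith
  have hc : Continuous (fun α => FF α T) := FF_continuous hT0
  rw [hvD_sub hT0, hvD_sub hT0]
  have h8 := intervalIntegral.integral_add_adjacent_intervals (hc.intervalIntegrable (μ := volume) 1 a)
    (hc.intervalIntegrable (μ := volume) a b)
  linarith

end Pool.Agent.Lib.MP_00e05b_nt.Mont
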