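import Pool.Agent.Lib.MP_00e05b_nt.Mont.K3A
import Pool.Agent.Lib.MP_00e05b_nt.Mont.Gue

/-!
# JOB K3B: the Gaussian unitary ensemble side for the kernel `f3`

`0 ≤ g3 t ≤ C min (t, 1/t³)` for `t > 0` (`|sin x| ≤ min 1 |x|`), so `g3` and `g3 * gue` (`0 ≤ gue β ≤ β`) are integrable on `(0, ∞)`.
Integration by parts on `(0, ∞)` (`f3' = - g3`, `gue' u = 1 - sinc² u`, `f3 x * gue x ≤ f3 x * x → 0` at `0` and at `∞` by `f3_bound`):
`∫_0^∞ g3 β gue β dβ = ∫_0^∞ f3 u (1 - (sin πu/(πu))²) du`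
(`MeasureTheory.integral_Ioi_mul_deriv_eq_deriv_mul` or the interval version and a limit). By evenness twice this is
`∫_ℝ f3 - ∫_ℝ f3 (sin πu/(πu))² du = phi3 0 - ∫ phi3 α max 0 (1 - |α|) dα` (`integral_f3`, `f3_sinc`)
`= phi3 0 - f3 0 + ∫ |α| phi3 α dα`, because `f3 0 = ∫ phi3` and `phi3` is supported in `[-1, 1]` (`phi3_zero`).
-/

open Set Filter Topology MeasureTheory

namespace Pool.Agent.Lib.MP_00e05b_nt.Mont

private lemma K3B_int {f : ℝ → ℝ} (hf : ContinuousOn f (Ioi 0)) {C : ℝ} (h1 : ∀ t ∈ Ioc (0 : ℝ) 1, |f t| ≤ C)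
    (h2 : ∀ t ∈ Ioi (1 : ℝ), |f t| ≤ C * t ^ (-2 : ℝ)) : IntegrableOn f (Ioi 0) := by
  rw [← Ioc_union_Ioi_eq_Ioi (zero_le_one (α := ℝ)), integrableOn_union]
  have hm : AEStronglyMeasurable f (volume.restrict (Ioi 0)) := hf.aestronglyMeasurable measurableSet_Ioi
  constructor
  · refine Integrable.mono' (g := fun _ => C) (by simp) (hm.mono_set Ioc_subset_Ioi_self) ?_
    exact (ae_restrict_mem measurableSet_Ioc).mono fun t ht => h1 t ht
  · refine Integrable.mono' (g := fun t => C * t ^ (-2 : ℝ)) ((integrableOn_Ioi_rpow_of_lt (by norm_num) one_pos).const_mul C)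
      (hm.mono_set (Ioi_subset_Ioi zero_le_one)) ?_
    exact (ae_restrict_mem measurableSet_Ioi).mono fun t ht => h2 t ht

private lemma K3B_g3_nonneg {t : ℝ} (ht : 0 < t) : 0 ≤ g3 t := by
  unfold g3
  positivity

private lemma K3B_g3_small {t : ℝ} (ht : 0 < t) : g3 t ≤ Real.pi ^ 2 / 2 * t := by
  have hπ := Real.pi_pos
  have h1 : Real.sin (Real.pi * t / 2) ^ 4 ≤ (Real.pi * t / 2) ^ 4 := by
    have h := Real.abs_sin_le_abs (x := Real.pi * t / 2)
    have h' : |Real.sin (Real.pi * t / 2)| ^ 4 ≤ |Real.pi * t / 2| ^ 4 := pow_le_pow_left₀ (abs_nonneg _) h 4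
    rwa [Even.pow_abs (by decide), Even.pow_abs (by decide)] at h'
  calc g3 t = 8 / Real.pi ^ 2 * Real.sin (Real.pi * t / 2) ^ 4 / t ^ 3 := rfl
    _ ≤ 8 / Real.pi ^ 2 * (Real.pi * t / 2) ^ 4 / t ^ 3 := by gcongr
    _ = Real.pi ^ 2 / 2 * t := by
        field_simp
        ring

private lemma K3B_g3_large {t : ℝ} (ht : 0 < t) : g3 t ≤ 8 / t ^ 3 := by
  have hπ : 1 ≤ Real.pi ^ 2 := by nlinarith [Real.pi_gt_three]
  have h1 : Real.sin (Real.pi * t / 2) ^ 4 ≤ 1 := by
    have h := Real.sin_sq_le_one (Real.pi * t / 2)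
    have h0 := sq_nonneg (Real.sin (Real.pi * t / 2))
    nlinarith
  have h2 : 8 / Real.pi ^ 2 ≤ 8 := div_le_self (by norm_num) hπ
  have h3 : 8 / Real.pi ^ 2 * Real.sin (Real.pi * t / 2) ^ 4 ≤ 8 := by
    have h0 : 0 ≤ Real.sin (Real.pi * t / 2) ^ 4 := by positivity
    nlinarith
  unfold g3
  gcongr

private lemma K3B_g3_cont : ContinuousOn g3 (Ioi 0) := by
  unfold g3
  refine ContinuousOn.div (by fun_prop) (by fun_prop) fun t ht => ?_
  have : (0 : ℝ) < t := ht
  positivity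

private lemma K3B_pi_sq_le : Real.pi ^ 2 / 2 ≤ 8 := by
  have h1 := Real.pi_lt_d2
  have h2 := Real.pi_pos
  nlinarith

theorem g3_integrable : IntegrableOn (fun β : ℝ => g3 β) (Ioi 0) := by
  refine K3B_int (C := 8) K3B_g3_cont (fun t ht => ?_) (fun t ht => ?_)
  · rw [abs_of_nonneg (K3B_g3_nonneg ht.1)]
    have h := K3B_g3_small ht.1
    have h2 := K3B_pi_sq_le
    have h3 := ht.2
    have h4 := ht.1
    have h5 : Real.pi ^ 2 / 2 * t ≤ 8 * 1 := mul_le_mul h2 h3 h4.le (by norm_num)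
    linarith
  · have ht1 : (1 : ℝ) < t := ht
    have ht0 : 0 < t := by linarith
    rw [abs_of_nonneg (K3B_g3_nonneg ht0), Real.rpow_neg ht0.le]
    have h := K3B_g3_large ht0
    refine h.trans ?_
    rw [div_eq_mul_inv]
    have h2 : t ^ (2 : ℝ) = t ^ 2 := by exact_mod_cast Real.rpow_natCast t 2
    rw [h2]
    have h3 : t ^ 2 ≤ t ^ 3 := pow_le_pow_right₀ ht1.le (by norm_num)
    gcongr

theorem g3_gue_integrable : IntegrableOn (fun β : ℝ => g3 β * gue β) (Ioi 0) := by
  refine K3B_int (C := 8) (K3B_g3_cont.mul gue_continuous.continuousOn) (fun t ht => ?_) (fun t ht => ?_)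
  · rw [abs_of_nonneg (mul_nonneg (K3B_g3_nonneg ht.1) (gue_nonneg t ht.1.le))]
    have h := K3B_g3_small ht.1
    have h2 := K3B_pi_sq_le
    have h3 := ht.2
    have h4 := ht.1
    have h5 : Real.pi ^ 2 / 2 * t ≤ 8 * 1 := mul_le_mul h2 h3 h4.le (by norm_num)
    have h6 := gue_le t ht.1.le
    have h7 := gue_nonneg t ht.1.le
    have h8 := K3B_g3_nonneg ht.1
    calc g3 t * gue t ≤ 8 * 1 := mul_le_mul (by linarith) (by linarith) h7 (by norm_num)
      _ = 8 := by norm_num
  · have ht1 : (1 : ℝ) < t := ht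
    have ht0 : 0 < t := by linarith
    rw [abs_of_nonneg (mul_nonneg (K3B_g3_nonneg ht0) (gue_nonneg t ht0.le)), Real.rpow_neg ht0.le]
    have h := K3B_g3_large ht0
    have h6 := gue_le t ht0.le
    have h7 := gue_nonneg t ht0.le
    have h2 : t ^ (2 : ℝ) = t ^ 2 := by exact_mod_cast Real.rpow_natCast t 2
    rw [h2]
    calc g3 t * gue t ≤ 8 / t ^ 3 * t := mul_le_mul h h6 h7 (by positivity)
      _ = 8 * (t ^ 2)⁻¹ := by
          field_simp

private lemma K3B_sinc_bound (x : ℝ) : (Real.sin (Real.pi * x) / (Real.pi * x)) ^ 2 ≤ 1 := by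
  rcases eq_or_ne (Real.pi * x) 0 with h | h
  · simp [h]
  · rw [div_pow, div_le_one (by positivity), sq_le_sq]
    exact Real.abs_sin_le_abs

theorem gue_identity : phi3 0 + ∫ x : ℝ, |x| * phi3 x = f3 0 + 2 * ∫ β in Ioi (0 : ℝ), g3 β * gue β := by
  have hπ := Real.pi_pos
  have hmeas : Measurable fun x : ℝ => (Real.sin (Real.pi * x) / (Real.pi * x)) ^ 2 := by fun_prop
  have hS : Integrable (fun x : ℝ => f3 x * (Real.sin (Real.pi * x) / (Real.pi * x)) ^ 2) := by
    refine f3_integrable.mul_bdd (c := 1) hmeas.aestronglyMeasurable (Filter.Eventually.of_forall fun x => ?_)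
    rw [Real.norm_eq_abs, abs_of_nonneg (sq_nonneg _)]
    exact K3B_sinc_bound x
  have hg0 : gue 0 = 0 := le_antisymm (by simpa using gue_le 0 le_rfl) (gue_nonneg 0 le_rfl)
  have hparts : ∫ x in Ioi (0 : ℝ), gue x * g3 x = 0 - 0 -
      ∫ x in Ioi (0 : ℝ), (1 - (Real.sin (Real.pi * x) / (Real.pi * x)) ^ 2) * (-(f3 x)) := by
    refine integral_Ioi_mul_deriv_eq_deriv_mul (u := gue) (v := fun x => -(f3 x)) (v' := g3)
      (u' := fun x => 1 - (Real.sin (Real.pi * x) / (Real.pi * x)) ^ 2) (fun x hx => gue_hasDeriv x hx)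
      (fun x hx => by
        have h := (hasDeriv_f3 x hx).neg
        rw [neg_neg] at h
        exact h) ?_ ?_ ?_ ?_
    · refine g3_gue_integrable.congr_fun (fun x _ => ?_) measurableSet_Ioi
      simp only [Pi.mul_apply]
      ring
    · have h1 : Integrable (fun x : ℝ => -(f3 x) + f3 x * (Real.sin (Real.pi * x) / (Real.pi * x)) ^ 2) :=
        f3_integrable.neg.add hS
      refine h1.integrableOn.congr_fun (fun x _ => ?_) measurableSet_Ioi
      simp only [Pi.mul_apply]
      ring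
    · have hc : Continuous (gue * fun x => -(f3 x)) := gue_continuous.mul f3_continuous.neg
      have h := hc.tendsto 0
      have h0 : (gue * fun x => -(f3 x)) 0 = 0 := by simp [hg0]
      rw [h0] at h
      exact h.mono_left nhdsWithin_le_nhds
    · have h1 : Tendsto (fun x : ℝ => 4 / Real.pi ^ 2 * x⁻¹) atTop (𝓝 0) := by
        have h := (tendsto_inv_atTop_zero (𝕜 := ℝ)).const_mul (4 / Real.pi ^ 2)
        rwa [mul_zero] at h
      refine squeeze_zero_norm' ?_ h1
      filter_upwards [eventually_gt_atTop (0 : ℝ)] with x hx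
      have h2 := f3_bound x hx
      have h3 := f3_nonneg x
      have h4 := gue_le x hx.le
      have h5 := gue_nonneg x hx.le
      rw [Pi.mul_apply, Real.norm_eq_abs, mul_neg, abs_neg, abs_of_nonneg (mul_nonneg h5 h3)]
      calc gue x * f3 x ≤ x * (4 / (Real.pi ^ 2 * x ^ 2)) := mul_le_mul h4 h2 h3 hx.le
        _ = 4 / Real.pi ^ 2 * x⁻¹ := by
            field_simp
  have he1 : ∫ x : ℝ, f3 x = 2 * ∫ x in Ioi (0 : ℝ), f3 x := by
    rw [← integral_comp_abs]
    refine integral_congr_ae (Filter.Eventually.of_forall fun x => ?_)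
    rcases abs_choice x with h | h <;> simp only [h, f3_even]
  have he2 : ∫ x : ℝ, f3 x * (Real.sin (Real.pi * x) / (Real.pi * x)) ^ 2 =
      2 * ∫ x in Ioi (0 : ℝ), f3 x * (Real.sin (Real.pi * x) / (Real.pi * x)) ^ 2 := by
    rw [← integral_comp_abs (f := fun x => f3 x * (Real.sin (Real.pi * x) / (Real.pi * x)) ^ 2)]
    refine integral_congr_ae (Filter.Eventually.of_forall fun x => ?_)
    rcases abs_choice x with h | h
    · simp only [h]
    · simp only [h, f3_even, mul_neg, Real.sin_neg, neg_div_neg_eq]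
  have h3 : ∫ β in Ioi (0 : ℝ), g3 β * gue β = (∫ x in Ioi (0 : ℝ), f3 x) -
      ∫ x in Ioi (0 : ℝ), f3 x * (Real.sin (Real.pi * x) / (Real.pi * x)) ^ 2 := by
    rw [← integral_sub f3_integrable.integrableOn hS.integrableOn]
    have h : ∫ β in Ioi (0 : ℝ), g3 β * gue β = ∫ x in Ioi (0 : ℝ), gue x * g3 x :=
      integral_congr_ae (Filter.Eventually.of_forall fun x => mul_comm _ _)
    rw [h, hparts, sub_zero, zero_sub, ← integral_neg]
    refine integral_congr_ae (Filter.Eventually.of_forall fun x => ?_)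
    simp only
    ring
  have hphi : Integrable phi3 := by
    refine phi3_continuous.integrable_of_hasCompactSupport ?_
    refine HasCompactSupport.intro (isCompact_Icc (a := (-1 : ℝ)) (b := 1)) fun x hx => phi3_zero x ?_
    by_contra h
    rw [not_le, abs_lt] at h
    exact hx ⟨h.1.le, h.2.le⟩
  have hxphi : Integrable fun x : ℝ => |x| * phi3 x := by
    refine (continuous_abs.mul phi3_continuous).integrable_of_hasCompactSupport ?_
    refine HasCompactSupport.intro (isCompact_Icc (a := (-1 : ℝ)) (b := 1)) fun x hx => ?_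
    have : phi3 x = 0 := by
      refine phi3_zero x ?_
      by_contra h
      rw [not_le, abs_lt] at h
      exact hx ⟨h.1.le, h.2.le⟩
    rw [Pi.mul_apply, this, mul_zero]
  have hf0 : f3 0 = ∫ x : ℝ, phi3 x := by
    unfold f3
    simp
  have h4 : ∫ α : ℝ, phi3 α * max 0 (1 - |α|) = f3 0 - ∫ x : ℝ, |x| * phi3 x := by
    rw [hf0, ← integral_sub hphi hxphi]
    refine integral_congr_ae (Filter.Eventually.of_forall fun x => ?_)
    simp only
    rcases le_or_gt 1 |x| with h | h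
    · rw [phi3_zero x h]
      simp
    · rw [max_eq_right (by linarith)]
      ring
  have h5 := f3_sinc
  have h6 := integral_f3
  rw [h4] at h5
  rw [h3]
  linarith

end Pool.Agent.Lib.MP_00e05b_nt.Mont
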