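import Pool.Agent.Lib.MP_00e05b_nt.Mont.C3
import Pool.Agent.Lib.MP_00e05b_nt.Mont.K3B
import Pool.Agent.Lib.MP_00e05b_nt.Mont.NT
import Pool.Agent.Lib.MP_00e05b_nt.Mont.BaseF
import Pool.Agent.Lib.MP_00e05b_nt.Mont.Fejer

/-!
# JOB T3: one-sided pair correlation implies two-sided

Hypothesis `h`: for every `β > 0`, `liminf NP(T, β)/N0 ≥ gue β`. Let `D_T β = NP(T, β)/N0 T ≥ 0`, nondecreasing in `β`.
`base_sym` with `phi3`: `∫ FF phi3 → M := phi3 0 + ∫ |x| phi3 x = f3 0 + 2 ∫_0^∞ g3 gue` (`gue_identity`). `count_ineq`: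
`f3 0 * Nstar/N0 + 2 (1 - o(1)) ∫_0^B g3 D_T ≤ M + o(1)` for every `B > 0`; `Nstar/N0 ≥ NN/N0 → 1`.
* `Nstar`: suppose `Nstar/N0 ≥ 1 + 2η` along a sequence `T_k → ∞`. Fatou along the sequence:
  `liminf ∫_0^B g3 D_{T_k} ≥ ∫_0^B g3 gue`, so `f3 0 (1 + 2η) + 2 ∫_0^B g3 gue ≤ M` for all `B`; let `B → ∞`:
  `f3 0 * 2η ≤ 0`, contradiction with `f3_zero_pos`. With `Nstar/N0 ≥ NN/N0 → 1` we get `Nstar/N0 → 1`.
* counts: suppose `D_{T_k} β0 ≥ gue β0 + 2η` along a sequence, `β0 > 0`. Choose `κ > 0` with `gue β ≤ gue β0 + η` on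
  `[β0, β0 + κ]` (`gue_continuous`). There `D_{T_k} β ≥ D_{T_k} β0 ≥ gue β + η`. Fatou with the functions
  `D_{T_k} β` off `[β0, β0+κ]`, and the lower bound `gue β + η` on it: `liminf ∫_0^B g3 D_{T_k} ≥ ∫_0^B g3 gue + η ∫_{β0}^{β0+κ} g3`,
  and the last integral is positive (`g3 > 0` except at the even integers). As before (`B → ∞`) this contradicts
  `f3 0 + 2 liminf ∫_0^B g3 D_{T_k} ≤ M`.
-/

open Complex Set Filter Topology MeasureTheory

namespace Pool.Agent.Lib.MP_00e05b_nt.Mont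

private lemma T3_g3_nonneg {t : ℝ} (ht : 0 < t) : 0 ≤ g3 t := by
  unfold g3
  have : 0 ≤ Real.sin (Real.pi * t / 2) ^ 4 := by positivity
  positivity

private lemma T3_g3_cont {a b : ℝ} (ha : 0 < a) : ContinuousOn g3 (Icc a b) := by
  unfold g3
  refine ContinuousOn.div (by fun_prop) (by fun_prop) fun x hx => ?_
  have : 0 < x := lt_of_lt_of_le ha hx.1
  positivity

private lemma T3_g3_pos {t : ℝ} (ht : 0 < t) (hs : Real.sin (Real.pi * t / 2) ≠ 0) : 0 < g3 t := by
  unfold g3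
  have : 0 < Real.sin (Real.pi * t / 2) ^ 4 := by positivity
  positivity

private lemma T3_int_pos {b κ : ℝ} (hb : 0 < b) (hκ : 0 < κ) (hκ1 : κ ≤ 1) :
    0 < ∫ t in b..(b + κ), g3 t := by
  refine intervalIntegral.integral_pos (by linarith) (T3_g3_cont hb)
    (fun x hx => T3_g3_nonneg (hb.trans hx.1)) ?_
  by_cases hs : Real.sin (Real.pi * b / 2) = 0
  · refine ⟨b + κ, ⟨by linarith, le_rfl⟩, T3_g3_pos (by linarith) ?_⟩
    have e : Real.pi * (b + κ) / 2 = Real.pi * b / 2 + Real.pi * κ / 2 := by ring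
    rw [e, Real.sin_add, hs, zero_mul, zero_add]
    refine mul_ne_zero ?_ ?_
    · intro hc
      have := Real.sin_sq_add_cos_sq (Real.pi * b / 2)
      rw [hs, hc] at this
      norm_num at this
    · have hpi := Real.pi_pos
      refine (Real.sin_pos_of_pos_of_lt_pi (by positivity) ?_).ne'
      nlinarith
  · exact ⟨b, ⟨le_rfl, by linarith⟩, T3_g3_pos hb hs⟩

/-- uniform version of the hypothesis -/
private lemma T3_unif (h : ∀ β > 0, ∀ ε > 0, ∀ᶠ T : ℝ in atTop, gue β - ε ≤ NP T β / N0 T)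
    {B ε : ℝ} (hB : 0 < B) (hε : 0 < ε) :
    ∀ᶠ T : ℝ in atTop, ∀ β ∈ Icc 0 B, gue β - ε ≤ NP T β / N0 T := by
  have huc := isCompact_Icc.uniformContinuousOn_of_continuous
    (gue_continuous.continuousOn (s := Icc 0 B))
  rw [Metric.uniformContinuousOn_iff] at huc
  obtain ⟨δ, hδ, hd⟩ := huc (ε / 2) (by linarith)
  obtain ⟨n, hn⟩ := exists_nat_gt (B / δ)
  have hn0 : (0 : ℝ) < n := lt_of_le_of_lt (by positivity) hn
  have hBn : B / n < δ := by
    rw [div_lt_iff₀ hn0]
    rw [div_lt_iff₀ hδ] at hn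
    linarith
  have hev : ∀ᶠ T : ℝ in atTop, ∀ i ∈ Finset.range (n + 1),
      i ≠ 0 → gue (i * (B / n)) - ε / 2 ≤ NP T (i * (B / n)) / N0 T := by
    rw [Finset.eventually_all]
    intro i _
    by_cases hi : i = 0
    · exact Eventually.of_forall fun T h0 => (h0 hi).elim
    · have hi0 : (0 : ℝ) < i := by exact_mod_cast Nat.pos_of_ne_zero hi
      filter_upwards [h (i * (B / n)) (by positivity) (ε / 2) (by linarith)] with T hT _ using hT
  filter_upwards [hev, eventually_gt_atTop 1] with T hT h1 β hβ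
  have hN := N0_pos h1
  set i := ⌊β / (B / n)⌋₊ with hi
  have hBn0 : 0 < B / n := by positivity
  have hi1 : (i : ℝ) * (B / n) ≤ β := by
    have := Nat.floor_le (div_nonneg hβ.1 hBn0.le)
    rw [le_div_iff₀ hBn0] at this
    exact this
  have hi2 : β < (i : ℝ) * (B / n) + B / n := by
    have := Nat.lt_floor_add_one (β / (B / n))
    rw [div_lt_iff₀ hBn0, add_mul, one_mul, ← hi] at this
    exact this
  have hi3 : i ∈ Finset.range (n + 1) := by
    rw [Finset.mem_range, Nat.lt_succ_iff]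
    have h3 : (i : ℝ) * (B / n) ≤ n * (B / n) := by
      rw [mul_div_cancel₀ B hn0.ne']
      exact hi1.trans hβ.2
    exact_mod_cast le_of_mul_le_mul_right h3 hBn0
  have hi4 : (i : ℝ) * (B / n) ∈ Icc 0 B := ⟨by positivity, hi1.trans hβ.2⟩
  have h4 := hd β hβ _ hi4 (by
    rw [Real.dist_eq, abs_of_nonneg (by linarith)]
    linarith)
  rw [Real.dist_eq, abs_lt] at h4
  have h5 : NP T ((i : ℝ) * (B / n)) / N0 T ≤ NP T β / N0 T :=
    div_le_div_of_nonneg_right (NP_mono h1 hi1) hN.le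
  by_cases hi0 : i = 0
  · have h6 : gue ((i : ℝ) * (B / n)) = 0 := by
      rw [hi0]
      simp [gue]
    have h7 : 0 ≤ NP T β / N0 T := div_nonneg (NP_nonneg _ _) hN.le
    rw [h6] at h4
    linarith [h4.2]
  · have := hT i hi3 hi0
    linarith [h4.2]

private lemma T3_int {T B ε θ a b : ℝ} (hT : 1 < T) (ha : 0 ≤ a) (hab : a ≤ b) (hbB : b ≤ B)
    (h1 : ∀ β ∈ Icc 0 B, gue β - ε ≤ NP T β / N0 T)
    (h2 : ∀ β ∈ Ioc a b, gue β - ε + θ ≤ NP T β / N0 T) :
    (∫ β in (0 : ℝ)..B, g3 β * gue β) - ε * (∫ β in (0 : ℝ)..B, g3 β) +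
      θ * (∫ β in a..b, g3 β) ≤ ∫ β in (0 : ℝ)..B, g3 β * (NP T β / N0 T) := by
  have hB : 0 ≤ B := ha.trans (hab.trans hbB)
  have hN := N0_pos hT
  rw [intervalIntegral.integral_of_le hB, intervalIntegral.integral_of_le hB,
    intervalIntegral.integral_of_le hab, intervalIntegral.integral_of_le hB]
  have i1 : IntegrableOn (fun β : ℝ => g3 β * gue β) (Ioc 0 B) :=
    g3_gue_integrable.mono_set Ioc_subset_Ioi_self
  have i2 : IntegrableOn (fun β : ℝ => g3 β) (Ioc 0 B) :=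
    g3_integrable.mono_set Ioc_subset_Ioi_self
  have i3 : IntegrableOn (fun β : ℝ => (Ioc a b).indicator (fun β => g3 β) β) (Ioc 0 B) :=
    i2.indicator measurableSet_Ioc
  have hmono : Monotone (fun β => NP T β / N0 T) := fun x y hxy =>
    div_le_div_of_nonneg_right (NP_mono hT hxy) hN.le
  have i4 : IntegrableOn (fun β : ℝ => g3 β * (NP T β / N0 T)) (Ioc 0 B) := by
    refine Integrable.mul_bdd (c := NP T B / N0 T) i2 hmono.measurable.aestronglyMeasurable ?_
    refine (ae_restrict_iff' measurableSet_Ioc).2 (Eventually.of_forall fun β hβ => ?_)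
    rw [Real.norm_of_nonneg (div_nonneg (NP_nonneg _ _) hN.le)]
    exact hmono hβ.2
  have e1 : ∫ β in Ioc a b, g3 β = ∫ β in Ioc 0 B, (Ioc a b).indicator (fun β => g3 β) β := by
    rw [setIntegral_indicator measurableSet_Ioc, inter_eq_self_of_subset_right]
    exact Ioc_subset_Ioc ha hbB
  have i12 : IntegrableOn (fun β : ℝ => g3 β * gue β - ε * g3 β) (Ioc 0 B) :=
    i1.sub (i2.const_mul ε)
  rw [e1, ← integral_const_mul, ← integral_const_mul, ← integral_sub i1 (i2.const_mul ε),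
    ← integral_add i12 (i3.const_mul θ)]
  refine setIntegral_mono_on (i12.add (i3.const_mul θ)) i4
    measurableSet_Ioc fun β hβ => ?_
  have hg := T3_g3_nonneg hβ.1
  by_cases hm : β ∈ Ioc a b
  · rw [indicator_of_mem hm]
    have := mul_le_mul_of_nonneg_left (h2 β hm) hg
    linarith
  · rw [indicator_of_notMem hm]
    have := mul_le_mul_of_nonneg_left (h1 β ⟨hβ.1.le, hβ.2⟩) hg
    linarith

/-- the weight tends to one -/
private lemma T3_weight (B : ℝ) :
    Tendsto (fun T : ℝ => 2 * (4 / (4 + (2 * Real.pi * B / Real.log T) ^ 2))) atTop (𝓝 2) := by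
  have h1 : Tendsto (fun T : ℝ => 2 * Real.pi * B / Real.log T) atTop (𝓝 0) :=
    Real.tendsto_log_atTop.const_div_atTop _
  have h2 : Tendsto (fun T : ℝ => 2 * (4 / (4 + (2 * Real.pi * B / Real.log T) ^ 2))) atTop
      (𝓝 (2 * (4 / (4 + 0 ^ 2)))) := by
    refine Tendsto.const_mul _ (Tendsto.div tendsto_const_nhds ?_ (by norm_num))
    exact tendsto_const_nhds.add (h1.pow 2)
  convert h2 using 2
  norm_num

/-- the basic inequality with a gain -/
private lemma T3_key (hRH : RiemannHypothesis)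
    (h : ∀ β > 0, ∀ ε > 0, ∀ᶠ T : ℝ in atTop, gue β - ε ≤ NP T β / N0 T)
    {a b θ ε : ℝ} (ha : 0 ≤ a) (hab : a ≤ b) (hε : 0 < ε) :
    ∀ᶠ T : ℝ in atTop, (∀ β ∈ Ioc a b, gue β + θ ≤ NP T β / N0 T) →
      f3 0 * (Nstar T / N0 T) + 2 * θ * (∫ β in a..b, g3 β) ≤ f3 0 + ε := by
  set G := ∫ β in Ioi (0 : ℝ), g3 β with hG
  set I := ∫ β in Ioi (0 : ℝ), g3 β * gue β with hI
  set δ := ∫ β in a..b, g3 β with hδ
  have hG0 : 0 ≤ G := setIntegral_nonneg measurableSet_Ioi fun t ht => T3_g3_nonneg ht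
  set e := ε / (4 + 2 * G) with he
  have he0 : 0 < e := by positivity
  have hee : e * (4 + 2 * G) = ε := div_mul_cancel₀ _ (by positivity)
  -- choose B
  have htI : Tendsto (fun B : ℝ => ∫ β in (0 : ℝ)..B, g3 β * gue β) atTop (𝓝 I) :=
    intervalIntegral_tendsto_integral_Ioi 0 g3_gue_integrable tendsto_id
  have hev : ∀ᶠ B : ℝ in atTop, I - e < ∫ β in (0 : ℝ)..B, g3 β * gue β :=
    htI.eventually (lt_mem_nhds (by linarith))
  obtain ⟨B, hB1, hB2, hB3⟩ := (hev.and ((eventually_ge_atTop b).and (eventually_gt_atTop 0))).exists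
  have hGB : ∫ β in (0 : ℝ)..B, g3 β ≤ G := by
    rw [intervalIntegral.integral_of_le hB3.le]
    exact setIntegral_mono_set g3_integrable
      ((ae_restrict_iff' measurableSet_Ioi).2 (Eventually.of_forall fun t ht => T3_g3_nonneg ht))
      (HasSubset.Subset.eventuallyLE Ioc_subset_Ioi_self)
  have hM := base_sym hRH phi3_continuous phi3_zero
  rw [gue_identity, ← hI] at hM
  have h1 : ∀ᶠ T : ℝ in atTop, ∫ α : ℝ, FF α T * phi3 α < f3 0 + 2 * I + e :=
    hM.eventually (gt_mem_nhds (by linarith))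
  have h2 : ∀ᶠ T : ℝ in atTop, 2 * (I - e - e * G + θ * δ) - e <
      2 * (4 / (4 + (2 * Real.pi * B / Real.log T) ^ 2)) * (I - e - e * G + θ * δ) :=
    ((T3_weight B).mul_const _).eventually (lt_mem_nhds (by linarith))
  filter_upwards [h1, h2, T3_unif h hB3 he0, eventually_gt_atTop 1] with T t1 t2 t3 t4 t5
  have t6 := count_ineq t4 hB3
  have t7 := T3_int (ε := e) (θ := θ) t4 ha hab hB2 t3 (fun β hβ => by
    have := t5 β hβ
    linarith)
  rw [← hδ] at t7
  have t8 : I - e - e * G + θ * δ ≤ ∫ β in (0 : ℝ)..B, g3 β * (NP T β / N0 T) := by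
    have := mul_le_mul_of_nonneg_left hGB he0.le
    linarith
  have t9 : 0 ≤ 2 * (4 / (4 + (2 * Real.pi * B / Real.log T) ^ 2)) := by positivity
  have t10 := mul_le_mul_of_nonneg_left t8 t9
  linarith

private lemma T3_Nstar_ge (hRH : RiemannHypothesis) {ε : ℝ} (hε : 0 < ε) :
    ∀ᶠ T : ℝ in atTop, 1 - ε < Nstar T / N0 T := by
  filter_upwards [(count_tendsto hRH).eventually (lt_mem_nhds (by linarith : 1 - ε < 1)),
    eventually_gt_atTop 1] with T h1 h2
  exact h1.trans_le (div_le_div_of_nonneg_right (NN_le_Nstar T) (N0_pos h2).le)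

theorem counting (hRH : RiemannHypothesis)
    (h : ∀ β > 0, ∀ ε > 0, ∀ᶠ T : ℝ in atTop, gue β - ε ≤ NP T β / N0 T) :
    (∀ β > 0, Tendsto (fun T : ℝ => NP T β / N0 T) atTop (𝓝 (gue β))) ∧
    Tendsto (fun T : ℝ => Nstar T / N0 T) atTop (𝓝 1) := by
  have hf := f3_zero_pos
  constructor
  · intro β₀ hβ₀
    rw [Metric.tendsto_nhds]
    intro η hη
    -- choose κ
    have hc : ∀ᶠ β in 𝓝 β₀, gue β < gue β₀ + η / 4 :=
      gue_continuous.continuousAt.eventually (gt_mem_nhds (by linarith))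
    rw [Metric.eventually_nhds_iff] at hc
    obtain ⟨κ₀, hκ₀, hκ⟩ := hc
    set κ := min (κ₀ / 2) 1 with hκd
    have hκpos : 0 < κ := lt_min (by linarith) one_pos
    have hκ1 : κ ≤ 1 := min_le_right _ _
    have hκ2 : κ < κ₀ := (min_le_left _ _).trans_lt (by linarith)
    have hδ := T3_int_pos hβ₀ hκpos hκ1
    set δ := ∫ t in β₀..(β₀ + κ), g3 t with hδd
    have hev1 := T3_key hRH h (a := β₀) (b := β₀ + κ) (θ := η / 4) (ε := η * δ / 8) hβ₀.le
      (by linarith) (by positivity)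
    have hev2 := T3_Nstar_ge hRH (ε := η * δ / 8 / f3 0) (by positivity)
    have hev3 := h β₀ hβ₀ (η / 2) (by linarith)
    filter_upwards [hev1, hev2, hev3, eventually_gt_atTop 1] with T h1 h2 h3 h4
    have hN := N0_pos h4
    rw [Real.dist_eq, abs_lt]
    constructor
    · linarith
    · by_contra hcon
      rw [not_lt] at hcon
      have h5 : ∀ β ∈ Ioc β₀ (β₀ + κ), gue β + η / 4 ≤ NP T β / N0 T := by
        intro β hβ
        have h6 : gue β < gue β₀ + η / 4 := hκ (by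
          rw [Real.dist_eq, abs_of_pos (by linarith [hβ.1])]
          linarith [hβ.2])
        have h7 : NP T β₀ / N0 T ≤ NP T β / N0 T :=
          div_le_div_of_nonneg_right (NP_mono h4 hβ.1.le) hN.le
        linarith
      have h8 := h1 h5
      have h9 : f3 0 - η * δ / 8 < f3 0 * (Nstar T / N0 T) := by
        have := mul_lt_mul_of_pos_left h2 hf
        rw [mul_sub, mul_one, mul_div_cancel₀ _ hf.ne'] at this
        exact this
      have h10 : 0 < η * δ := by positivity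
      linarith
  · rw [Metric.tendsto_nhds]
    intro η hη
    have hev1 := T3_key hRH h (a := 1) (b := 1) (θ := 0) (ε := f3 0 * η / 2) zero_le_one
      le_rfl (by positivity)
    have hev2 := T3_Nstar_ge hRH (ε := η) hη
    filter_upwards [hev1, hev2] with T h1 h2
    have h3 := h1 (fun β hβ => by
      rw [Ioc_self] at hβ
      exact hβ.elim)
    rw [intervalIntegral.integral_same, mul_zero, add_zero] at h3
    rw [Real.dist_eq, abs_lt]
    constructor
    · linarith
    · by_contra hcon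
      rw [not_lt] at hcon
      have h4 : f3 0 * (1 + η) ≤ f3 0 * (Nstar T / N0 T) :=
        mul_le_mul_of_nonneg_left (by linarith) hf.le
      have h5 : 0 < f3 0 * η := by positivity
      linarith

end Pool.Agent.Lib.MP_00e05b_nt.Mont
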