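import Pool.Agent.Lib.MP_00e05b_nt.Mont.HvC
import Pool.Agent.Lib.MP_00e05b_nt.Mont.T3

/-!
# Halves, file E: the upper half of the counting form

If `limsup NP(T, β)/N0 ≤ gue β` for every `β > 0` and `Nstar/N0 → 1` then `NP(T, β)/N0 → gue β`.
-/

open Set Filter Topology MeasureTheory

namespace Pool.Agent.Lib.MP_00e05b_nt.Mont

private lemma hvE_g3_nonneg {t : ℝ} (ht : 0 < t) : 0 ≤ g3 t := by
  unfold g3
  have : 0 ≤ Real.sin (Real.pi * t / 2) ^ 4 := Even.pow_nonneg (by decide) _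
  positivity

private lemma hvE_g3_cont {a b : ℝ} (ha : 0 < a) : ContinuousOn g3 (Set.Icc a b) := by
  unfold g3
  apply ContinuousOn.div
  · fun_prop
  · fun_prop
  · intro t ht
    have : 0 < t := ha.trans_le ht.1
    positivity

private lemma hvE_g3_pos {t : ℝ} (ht : 0 < t) (hs : Real.sin (Real.pi * t / 2) ≠ 0) : 0 < g3 t := by
  unfold g3
  have : 0 < Real.sin (Real.pi * t / 2) ^ 4 := by positivity
  positivity

private lemma hvE_int_pos {b κ : ℝ} (hb : 0 < b) (hκ : 0 < κ) (hκ1 : κ ≤ 1) :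
    0 < ∫ t in b..(b + κ), g3 t := by
  refine intervalIntegral.integral_pos (by linarith) (hvE_g3_cont hb)
    (fun x hx => hvE_g3_nonneg (hb.trans hx.1)) ?_
  by_cases hs : Real.sin (Real.pi * b / 2) = 0
  · refine ⟨b + κ, ⟨by linarith, le_rfl⟩, hvE_g3_pos (by linarith) ?_⟩
    have e : Real.pi * (b + κ) / 2 = Real.pi * b / 2 + Real.pi * κ / 2 := by ring
    rw [e, Real.sin_add, hs, zero_mul, zero_add]
    refine mul_ne_zero ?_ ?_
    · intro hc
      have := Real.sin_sq_add_cos_sq (Real.pi * b / 2)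
      rw [hs, hc] at this
      norm_num at this
    · have hpi := Real.pi_pos
      refine (Real.sin_pos_of_pos_of_lt_pi (by positivity) ?_).ne'
      nlinarith
  · exact ⟨b, ⟨le_rfl, by linarith⟩, hvE_g3_pos hb hs⟩

private lemma hvE_int {x B : ℝ} (hx : 0 < x) (hB : 0 < B) :
    IntervalIntegrable (fun β => if x ≤ β then g3 β else 0) volume 0 B ∧
    0 ≤ (∫ β in (0 : ℝ)..B, if x ≤ β then g3 β else 0) ∧
    (x ≤ B → (∫ β in (0 : ℝ)..B, if x ≤ β then g3 β else 0) = f3 x - f3 B) := by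
  have hfun : (fun β => if x ≤ β then g3 β else 0) = (Set.Ici x).indicator g3 := by
    funext β
    by_cases h : x ≤ β
    · simp [h, Set.indicator]
    · simp [h, Set.indicator]
  have hnn : 0 ≤ (∫ β in (0 : ℝ)..B, if x ≤ β then g3 β else 0) := by
    apply intervalIntegral.integral_nonneg hB.le
    intro u _
    split_ifs with h
    · exact hvE_g3_nonneg (hx.trans_le h)
    · exact le_rfl
  rcases le_or_gt x B with hxB | hxB
  · have hset : Set.Ici x ∩ Set.Ioc 0 B = Set.Icc x B := by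
      ext u
      simp only [Set.mem_inter_iff, Set.mem_Ici, Set.mem_Ioc, Set.mem_Icc]
      constructor
      · rintro ⟨h1, h2, h3⟩
        exact ⟨h1, h3⟩
      · rintro ⟨h1, h2⟩
        exact ⟨h1, hx.trans_le h1, h2⟩
    have hion : IntegrableOn g3 (Set.Icc x B) := (hvE_g3_cont hx).integrableOn_Icc
    have hval : (∫ β in (0 : ℝ)..B, if x ≤ β then g3 β else 0) = f3 x - f3 B := by
      rw [intervalIntegral.integral_of_le hB.le, hfun, integral_indicator measurableSet_Ici,
        Measure.restrict_restrict measurableSet_Ici, hset, integral_Icc_eq_integral_Ioc,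
        ← intervalIntegral.integral_of_le hxB]
      have h2 := intervalIntegral.integral_eq_sub_of_hasDerivAt (a := x) (b := B)
        (f := -f3) (f' := g3) (fun t ht => by
          rw [Set.uIcc_of_le hxB] at ht
          have := (hasDeriv_f3 t (hx.trans_le ht.1)).neg
          rw [neg_neg] at this
          exact this) (by
          rw [intervalIntegrable_iff_integrableOn_Icc_of_le hxB]
          exact hion)
      rw [h2, Pi.neg_apply, Pi.neg_apply]
      ring
    refine ⟨?_, hnn, fun _ => hval⟩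
    rw [intervalIntegrable_iff_integrableOn_Ioc_of_le hB.le, hfun]
    unfold IntegrableOn
    rw [integrable_indicator_iff measurableSet_Ici]
    unfold IntegrableOn
    rw [Measure.restrict_restrict measurableSet_Ici, hset]
    exact hion
  · have hz : ∀ u ∈ Set.uIoc 0 B, (if x ≤ u then g3 u else 0) = 0 := by
      intro u hu
      rw [Set.uIoc_of_le hB.le] at hu
      rw [if_neg]
      exact not_le.2 (hu.2.trans_lt hxB)
    refine ⟨?_, hnn, fun h => absurd h (not_le.2 hxB)⟩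
    refine (intervalIntegrable_const (c := (0 : ℝ))).congr ?_
    intro u hu
    exact (hz u hu).symm

/-- the integral attached to a difference of ordinates -/
private noncomputable def hvE_J (L B d : ℝ) : ℝ :=
  ∫ β in (0 : ℝ)..B, if 0 < d then (if L * d / (2 * Real.pi) ≤ β then g3 β else 0) else 0

private lemma hvE_J_int {L B : ℝ} (hL : 0 < L) (hB : 0 < B) (d : ℝ) :
    IntervalIntegrable (fun β => if 0 < d then
      (if L * d / (2 * Real.pi) ≤ β then g3 β else 0) else 0) volume 0 B := by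
  by_cases hd : 0 < d
  · simp only [hd, if_true]
    exact (hvE_int (by positivity) hB).1
  · simp only [hd, if_false]
    exact intervalIntegrable_const

private lemma hvE_NP {T B : ℝ} (hT : 1 < T) (hB : 0 < B) :
    ∫ β in (0 : ℝ)..B, g3 β * NP T β = ∑ γ ∈ ordinates T, ∑ γ' ∈ ordinates T,
      (mult γ : ℝ) * (mult γ' : ℝ) * hvE_J (Real.log T) B (γ - γ') := by
  have hL : 0 < Real.log T := Real.log_pos hT
  have h1 : ∀ β : ℝ, g3 β * NP T β = ∑ γ ∈ ordinates T, ∑ γ' ∈ ordinates T,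
      (mult γ : ℝ) * (mult γ' : ℝ) * (if 0 < γ - γ' then
        (if Real.log T * (γ - γ') / (2 * Real.pi) ≤ β then g3 β else 0) else 0) := by
    intro β
    unfold NP
    rw [Finset.mul_sum]
    refine Finset.sum_congr rfl fun γ _ => ?_
    rw [Finset.mul_sum]
    refine Finset.sum_congr rfl fun γ' _ => ?_
    have hiff : γ - γ' ≤ 2 * Real.pi * β / Real.log T ↔
        Real.log T * (γ - γ') / (2 * Real.pi) ≤ β := by
      rw [le_div_iff₀ hL, div_le_iff₀ (by positivity)]
      constructor <;> intro h <;> linarith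
    by_cases hd : 0 < γ - γ'
    · by_cases hx : Real.log T * (γ - γ') / (2 * Real.pi) ≤ β
      · rw [if_pos ⟨hd, hiff.2 hx⟩, if_pos hd, if_pos hx]
        ring
      · rw [if_neg (fun h => hx (hiff.1 h.2)), if_pos hd, if_neg hx]
        ring
    · rw [if_neg (fun h => hd h.1), if_neg hd]
      ring
  simp_rw [h1]
  rw [intervalIntegral.integral_finsetSum]
  · refine Finset.sum_congr rfl fun γ _ => ?_
    rw [intervalIntegral.integral_finsetSum]
    · refine Finset.sum_congr rfl fun γ' _ => ?_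
      rw [intervalIntegral.integral_const_mul]
      rfl
    · intro γ' _
      exact (hvE_J_int hL hB _).const_mul _
  · intro γ _
    have h2 := IntervalIntegrable.sum (ordinates T) (f := fun γ' β =>
      (mult γ : ℝ) * (mult γ' : ℝ) * (if 0 < γ - γ' then
        (if Real.log T * (γ - γ') / (2 * Real.pi) ≤ β then g3 β else 0) else 0))
      fun γ' _ => (hvE_J_int hL hB (γ - γ')).const_mul _
    refine h2.congr ?_
    intro β _
    exact Finset.sum_apply β (ordinates T) _

private lemma hvE_PO_int {T B : ℝ} (hT : 1 < T) (hB : 0 < B) :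
    PO T (fun x => ∫ β in (0 : ℝ)..B, if x ≤ β then g3 β else 0) ≤ ∫ β in (0 : ℝ)..B, g3 β * (NP T β / N0 T) := by
  have hL : 0 < Real.log T := Real.log_pos hT
  have hN : 0 < N0 T := N0_pos hT
  have e1 : ∫ β in (0 : ℝ)..B, g3 β * (NP T β / N0 T) =
      (N0 T)⁻¹ * ∫ β in (0 : ℝ)..B, g3 β * NP T β := by
    rw [← intervalIntegral.integral_const_mul]
    apply intervalIntegral.integral_congr
    intro β _
    show g3 β * (NP T β / N0 T) = (N0 T)⁻¹ * (g3 β * NP T β)
    ring
  rw [e1, hvE_NP hT hB]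
  unfold PO
  refine mul_le_mul_of_nonneg_left (Finset.sum_le_sum fun γ _ => Finset.sum_le_sum fun γ' _ => ?_) (inv_pos.2 hN).le
  have hm : (0 : ℝ) ≤ (mult γ : ℝ) * (mult γ' : ℝ) := by positivity
  by_cases hd : 0 < γ - γ'
  · rw [if_pos hd]
    have hx : 0 < Real.log T * (γ - γ') / (2 * Real.pi) := by positivity
    have hJ : hvE_J (Real.log T) B (γ - γ') =
        ∫ β in (0 : ℝ)..B, if Real.log T * (γ - γ') / (2 * Real.pi) ≤ β then g3 β else 0 := by
      unfold hvE_J
      simp only [hd, if_true]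
    rw [hJ]
    have h0 := (hvE_int hx hB).2.1
    have hw : weight (γ - γ') ≤ 1 := by
      unfold weight
      rw [div_le_one (by positivity)]
      nlinarith [sq_nonneg (γ - γ')]
    exact mul_le_of_le_one_right (mul_nonneg hm h0) hw
  · rw [if_neg hd]
    have hJ : hvE_J (Real.log T) B (γ - γ') = 0 := by
      unfold hvE_J
      simp only [hd, if_false]
      simp
    rw [hJ, mul_zero]

/-- The counting inequality from above. -/
theorem count_upper (hRH : RiemannHypothesis) : ∃ C : ℝ, 0 ≤ C ∧ ∀ B : ℝ, 1 ≤ B → ∀ᶠ T : ℝ in atTop,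
    ∫ α : ℝ, FF α T * phi3 α ≤ f3 0 * (Nstar T / N0 T) + 2 * (∫ β in (0 : ℝ)..B, g3 β * (NP T β / N0 T)) +
      2 * (f3 B * (NP T B / N0 T)) + C / B := by
  obtain ⟨C, hC, htail⟩ := PO_tail hRH
  refine ⟨2 * C, by positivity, fun B hB => ?_⟩
  have hB0 : 0 < B := by linarith
  have hpi := Real.pi_pos
  filter_upwards [htail B hB, eventually_gt_atTop 1] with T h1 hT
  have e1 : ∫ α : ℝ, FF α T * phi3 α = PS T f3 := PS_FF hT phi3_continuous ⟨1, phi3_zero⟩
  rw [e1, PS_eq_PO hT f3_even]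
  have h2 : PO T f3 ≤ PO T (fun x => (∫ β in (0 : ℝ)..B, if x ≤ β then g3 β else 0) +
      (f3 B * (if x ≤ B then 1 else 0) + (if B ≤ x then 1 / x ^ 2 else 0))) := by
    refine PO_mono hT fun x hx => ?_
    obtain ⟨-, hi0, hi1⟩ := hvE_int hx hB0
    have hfB := f3_nonneg B
    by_cases hxB : x ≤ B
    · rw [hi1 hxB, if_pos hxB, mul_one]
      have : 0 ≤ (if B ≤ x then 1 / x ^ 2 else 0) := by split_ifs <;> positivity
      linarith
    · rw [if_neg hxB, mul_zero, if_pos (not_le.1 hxB).le]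
      have h3 := f3_bound x hx
      have h4 : 4 / (Real.pi ^ 2 * x ^ 2) ≤ 1 / x ^ 2 := by
        have h6 : (4 : ℝ) ≤ Real.pi ^ 2 := by nlinarith [Real.pi_gt_three]
        rw [div_le_div_iff₀ (by positivity) (by positivity)]
        nlinarith [sq_nonneg x]
      linarith
  rw [PO_add, PO_add, PO_const_mul] at h2
  have h3 := hvE_PO_int hT hB0
  have h4 := mul_le_mul_of_nonneg_left (PO_ind hT B) (f3_nonneg B)
  have h5 := h1 (fun x => if B ≤ x then 1 / x ^ 2 else 0) (fun x _ => le_rfl)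
  have e2 : 2 * C / B = 2 * (C / B) := by ring
  rw [e2]
  linarith

/-- uniform version of the hypothesis -/
private lemma hvE_unif (h : ∀ β > 0, ∀ ε > 0, ∀ᶠ T : ℝ in atTop, NP T β / N0 T ≤ gue β + ε)
    {B ε : ℝ} (hB : 0 < B) (hε : 0 < ε) :
    ∀ᶠ T : ℝ in atTop, ∀ β ∈ Ioc 0 B, NP T β / N0 T ≤ gue β + ε := by
  have huc := isCompact_Icc.uniformContinuousOn_of_continuous
    (gue_continuous.continuousOn (s := Icc 0 B))
  rw [Metric.uniformContinuousOn_iff] at huc
  obtain ⟨δ, hδ, hd⟩ := huc (ε / 2) (by linarith)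
  obtain ⟨n, hn⟩ := exists_nat_gt (B / δ)
  have hn0 : (0 : ℝ) < n := lt_of_le_of_lt (by positivity) hn
  have hBn : B / n < δ := by
    rw [div_lt_iff₀ hn0]
    rw [div_lt_iff₀ hδ] at hn
    linarith
  have hBn0 : 0 < B / n := by positivity
  have hev : ∀ᶠ T : ℝ in atTop, ∀ i ∈ Finset.range (n + 1),
      i ≠ 0 → NP T (i * (B / n)) / N0 T ≤ gue (i * (B / n)) + ε / 2 := by
    rw [Finset.eventually_all]
    intro i _
    by_cases hi : i = 0
    · exact Eventually.of_forall fun T h0 => (h0 hi).elim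
    · have hi0 : (0 : ℝ) < i := by exact_mod_cast Nat.pos_of_ne_zero hi
      filter_upwards [h (i * (B / n)) (by positivity) (ε / 2) (by linarith)] with T hT _ using hT
  filter_upwards [hev, eventually_gt_atTop 1] with T hT h1 β hβ
  have hN := N0_pos h1
  obtain ⟨i, hi⟩ : ∃ i, i = ⌈β / (B / n)⌉₊ := ⟨_, rfl⟩
  have hq0 : 0 < β / (B / n) := div_pos hβ.1 hBn0
  have hi1 : β ≤ (i : ℝ) * (B / n) := by
    have := Nat.le_ceil (β / (B / n))
    rw [div_le_iff₀ hBn0, ← hi] at this
    exact this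
  have hi2 : (i : ℝ) * (B / n) < β + B / n := by
    have := Nat.ceil_lt_add_one hq0.le
    rw [← hi] at this
    have h2 := mul_lt_mul_of_pos_right this hBn0
    rw [add_mul, one_mul, div_mul_cancel₀ _ hBn0.ne'] at h2
    exact h2
  have hi0 : i ≠ 0 := by
    rw [hi]
    exact (Nat.ceil_pos.2 hq0).ne'
  have hin : i ≤ n := by
    rw [hi, Nat.ceil_le, div_le_iff₀ hBn0, mul_div_cancel₀ B hn0.ne']
    exact hβ.2
  have hi4 : (i : ℝ) * (B / n) ∈ Icc 0 B := by
    refine ⟨by positivity, ?_⟩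
    have h3 : (i : ℝ) * (B / n) ≤ n * (B / n) := by
      have : (i : ℝ) ≤ n := by exact_mod_cast hin
      gcongr
    rwa [mul_div_cancel₀ B hn0.ne'] at h3
  have h4 := hd _ hi4 β ⟨hβ.1.le, hβ.2⟩ (by
    rw [Real.dist_eq, abs_of_nonneg (by linarith)]
    linarith)
  rw [Real.dist_eq, abs_lt] at h4
  have h5 : NP T β / N0 T ≤ NP T ((i : ℝ) * (B / n)) / N0 T :=
    div_le_div_of_nonneg_right (NP_mono h1 hi1) hN.le
  have := hT i (Finset.mem_range.2 (by omega)) hi0
  linarith [h4.2]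

private lemma hvE_int2 {T B ε θ a b : ℝ} (hT : 1 < T) (ha : 0 ≤ a) (hab : a ≤ b) (hbB : b ≤ B)
    (h1 : ∀ β ∈ Ioc 0 B, NP T β / N0 T ≤ gue β + ε)
    (h2 : ∀ β ∈ Ioc a b, NP T β / N0 T ≤ gue β + ε - θ) :
    ∫ β in (0 : ℝ)..B, g3 β * (NP T β / N0 T) ≤
      (∫ β in (0 : ℝ)..B, g3 β * gue β) + ε * (∫ β in (0 : ℝ)..B, g3 β) - θ * (∫ β in a..b, g3 β) := by
  have hB : 0 ≤ B := ha.trans (hab.trans hbB)
  have hN := N0_pos hT
  rw [intervalIntegral.integral_of_le hB, intervalIntegral.integral_of_le hB,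
    intervalIntegral.integral_of_le hab, intervalIntegral.integral_of_le hB]
  have i1 : IntegrableOn (fun β : ℝ => g3 β * gue β) (Ioc 0 B) :=
    g3_gue_integrable.mono_set Ioc_subset_Ioi_self
  have i2 : IntegrableOn (fun β : ℝ => g3 β) (Ioc 0 B) :=
    g3_integrable.mono_set Ioc_subset_Ioi_self
  have i3 : IntegrableOn (fun β : ℝ => (Ioc a b).indicator (fun β => g3 β) β) (Ioc 0 B) :=
    i2.indicator measurableSet_Ioc
  have hmono : Monotone (fun β => NP T β / N0 T) := fun x y hxy =>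
    div_le_div_of_nonneg_right (NP_mono hT hxy) hN.le
  have i4 : IntegrableOn (fun β : ℝ => g3 β * (NP T β / N0 T)) (Ioc 0 B) := by
    refine Integrable.mul_bdd (c := NP T B / N0 T) i2 hmono.measurable.aestronglyMeasurable ?_
    refine (ae_restrict_iff' measurableSet_Ioc).2 (Eventually.of_forall fun β hβ => ?_)
    rw [Real.norm_of_nonneg (div_nonneg (NP_nonneg _ _) hN.le)]
    exact hmono hβ.2
  have e1 : ∫ β in Ioc a b, g3 β = ∫ β in Ioc 0 B, (Ioc a b).indicator (fun β => g3 β) β := by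
    rw [setIntegral_indicator measurableSet_Ioc, inter_eq_self_of_subset_right]
    exact Ioc_subset_Ioc ha hbB
  have i12 : IntegrableOn (fun β : ℝ => g3 β * gue β + ε * g3 β) (Ioc 0 B) :=
    i1.add (i2.const_mul ε)
  rw [e1, ← integral_const_mul, ← integral_const_mul, ← integral_add i1 (i2.const_mul ε),
    ← integral_sub i12 (i3.const_mul θ)]
  refine setIntegral_mono_on i4 (i12.sub (i3.const_mul θ))
    measurableSet_Ioc fun β hβ => ?_
  have hg := hvE_g3_nonneg hβ.1
  by_cases hm : β ∈ Ioc a b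
  · rw [indicator_of_mem hm]
    have := mul_le_mul_of_nonneg_left (h2 β hm) hg
    linarith
  · rw [indicator_of_notMem hm]
    have := mul_le_mul_of_nonneg_left (h1 β hβ) hg
    linarith

/-- the basic inequality with a loss -/
private lemma hvE_key (hRH : RiemannHypothesis)
    (h : ∀ β > 0, ∀ ε > 0, ∀ᶠ T : ℝ in atTop, NP T β / N0 T ≤ gue β + ε)
    (hN : Tendsto (fun T : ℝ => Nstar T / N0 T) atTop (𝓝 1))
    {a b θ ε : ℝ} (ha : 0 ≤ a) (hab : a ≤ b) (hε : 0 < ε) :
    ∀ᶠ T : ℝ in atTop, (∀ β ∈ Ioc a b, NP T β / N0 T ≤ gue β - θ) →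
      2 * θ * (∫ β in a..b, g3 β) ≤ ε := by
  obtain ⟨C, hC, hcu⟩ := count_upper hRH
  set G := ∫ β in Ioi (0 : ℝ), g3 β with hG
  set I := ∫ β in Ioi (0 : ℝ), g3 β * gue β with hI
  set δ := ∫ β in a..b, g3 β with hδ
  have hpi := Real.pi_pos
  have hf := f3_zero_pos
  have hG0 : 0 ≤ G := setIntegral_nonneg measurableSet_Ioi fun t ht => hvE_g3_nonneg ht
  obtain ⟨e, he⟩ : ∃ e : ℝ, e = ε / (4 * (1 + G + f3 0)) := ⟨_, rfl⟩
  have he0 : 0 < e := by rw [he]; positivity
  have hee : e * (1 + G + f3 0) = ε / 4 := by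
    rw [he]
    field_simp
  -- choose B
  obtain ⟨B, hBd⟩ : ∃ B : ℝ, B = 1 + b + 4 * (C + 4 + 4 * e) / ε := ⟨_, rfl⟩
  have pb : 0 ≤ 4 * (C + 4 + 4 * e) / ε := by positivity
  have hB1 : 1 ≤ B := by linarith
  have hB0 : 0 < B := by linarith
  have hBb : b ≤ B := by linarith
  have hBe : (C + 4 + 4 * e) / B ≤ ε / 4 := by
    rw [div_le_iff₀ hB0]
    have : 4 * (C + 4 + 4 * e) / ε ≤ B := by linarith
    rw [div_le_iff₀ hε] at this
    linarith
  have hGB : ∫ β in (0 : ℝ)..B, g3 β ≤ G := by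
    rw [intervalIntegral.integral_of_le hB0.le]
    exact setIntegral_mono_set g3_integrable
      ((ae_restrict_iff' measurableSet_Ioi).2 (Eventually.of_forall fun t ht => hvE_g3_nonneg ht))
      (HasSubset.Subset.eventuallyLE Ioc_subset_Ioi_self)
  have hIB : ∫ β in (0 : ℝ)..B, g3 β * gue β ≤ I := by
    rw [intervalIntegral.integral_of_le hB0.le]
    exact setIntegral_mono_set g3_gue_integrable
      ((ae_restrict_iff' measurableSet_Ioi).2 (Eventually.of_forall fun t ht =>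
        mul_nonneg (hvE_g3_nonneg ht) (gue_nonneg t (le_of_lt ht))))
      (HasSubset.Subset.eventuallyLE Ioc_subset_Ioi_self)
  have hM := base_sym hRH phi3_continuous phi3_zero
  rw [gue_identity, ← hI] at hM
  have h1 : ∀ᶠ T : ℝ in atTop, f3 0 + 2 * I - e < ∫ α : ℝ, FF α T * phi3 α :=
    hM.eventually (lt_mem_nhds (by linarith))
  have h2 : ∀ᶠ T : ℝ in atTop, Nstar T / N0 T < 1 + e := hN.eventually (gt_mem_nhds (by linarith))
  filter_upwards [h1, h2, hvE_unif h hB0 he0, hcu B hB1, eventually_gt_atTop 1] with T t1 t2 t3 t6 t4 t5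
  have t7 := hvE_int2 (ε := e) (θ := θ) t4 ha hab hBb t3 (fun β hβ => by
    have := t5 β hβ
    linarith)
  rw [← hδ] at t7
  have t8 : e * (∫ β in (0 : ℝ)..B, g3 β) ≤ e * G := mul_le_mul_of_nonneg_left hGB he0.le
  have t9 : f3 0 * (Nstar T / N0 T) ≤ f3 0 * (1 + e) := mul_le_mul_of_nonneg_left t2.le hf.le
  have t10 : f3 B * (NP T B / N0 T) ≤ (2 + 2 * e) / B := by
    have s1 : NP T B / N0 T ≤ B + e := by
      have := t3 B ⟨hB0, le_rfl⟩
      have := gue_le B hB0.le
      linarith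
    have s2 := f3_bound B hB0
    have s3 : 4 / (Real.pi ^ 2 * B ^ 2) ≤ 1 / B ^ 2 := by
      have h6 : (4 : ℝ) ≤ Real.pi ^ 2 := by nlinarith [Real.pi_gt_three]
      rw [div_le_div_iff₀ (by positivity) (by positivity)]
      nlinarith [sq_nonneg B]
    have s4 : 0 ≤ NP T B / N0 T := div_nonneg (NP_nonneg _ _) (N0_pos t4).le
    calc f3 B * (NP T B / N0 T) ≤ 1 / B ^ 2 * (B + e) :=
          mul_le_mul (s2.trans s3) s1 s4 (by positivity)
      _ ≤ 1 / B ^ 2 * (B * (2 + 2 * e)) := by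
          refine mul_le_mul_of_nonneg_left ?_ (by positivity)
          nlinarith
      _ = (2 + 2 * e) / B := by
          field_simp
  have e5 : (C + 4 + 4 * e) / B = C / B + 2 * ((2 + 2 * e) / B) := by
    field_simp
    ring
  rw [e5] at hBe
  nlinarith

theorem counting_upper (hRH : RiemannHypothesis)
    (h : ∀ β > 0, ∀ ε > 0, ∀ᶠ T : ℝ in atTop, NP T β / N0 T ≤ gue β + ε)
    (hN : Tendsto (fun T : ℝ => Nstar T / N0 T) atTop (𝓝 1)) :
    ∀ β > 0, Tendsto (fun T : ℝ => NP T β / N0 T) atTop (𝓝 (gue β)) := by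
  intro β₀ hβ₀
  rw [Metric.tendsto_nhds]
  intro η hη
  -- choose κ
  have hc : ∀ᶠ β in 𝓝 β₀, gue β₀ - η / 4 < gue β :=
    gue_continuous.continuousAt.eventually (lt_mem_nhds (by linarith))
  rw [Metric.eventually_nhds_iff] at hc
  obtain ⟨κ₀, hκ₀, hκ⟩ := hc
  obtain ⟨κ, hκd⟩ : ∃ κ, κ = min (min (κ₀ / 2) 1) (β₀ / 2) := ⟨_, rfl⟩
  have hκpos : 0 < κ := by
    rw [hκd]
    exact lt_min (lt_min (by linarith) one_pos) (by linarith)
  have hκ1 : κ ≤ 1 := by
    rw [hκd]
    exact (min_le_left _ _).trans (min_le_right _ _)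
  have hκ2 : κ < κ₀ := by
    rw [hκd]
    exact ((min_le_left _ _).trans (min_le_left _ _)).trans_lt (by linarith)
  have hκ3 : κ ≤ β₀ / 2 := by
    rw [hκd]
    exact min_le_right _ _
  have hδ := hvE_int_pos (b := β₀ - κ) (by linarith) hκpos hκ1
  rw [sub_add_cancel] at hδ
  set δ := ∫ t in (β₀ - κ)..β₀, g3 t with hδd
  have hev1 := hvE_key hRH h hN (a := β₀ - κ) (b := β₀) (θ := η / 4) (ε := η * δ / 8) (by linarith)
    (by linarith) (by positivity)
  have hev3 := h β₀ hβ₀ (η / 2) (by linarith)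
  filter_upwards [hev1, hev3, eventually_gt_atTop 1] with T h1 h3 h4
  have hN := N0_pos h4
  rw [Real.dist_eq, abs_lt]
  constructor
  · by_contra hcon
    rw [not_lt] at hcon
    have h5 : ∀ β ∈ Ioc (β₀ - κ) β₀, NP T β / N0 T ≤ gue β - η / 4 := by
      intro β hβ
      have h6 : gue β₀ - η / 4 < gue β := hκ (by
        rw [Real.dist_eq, abs_of_nonpos (by linarith [hβ.2])]
        linarith [hβ.1])
      have h7 : NP T β / N0 T ≤ NP T β₀ / N0 T :=
        div_le_div_of_nonneg_right (NP_mono h4 hβ.2) hN.le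
      linarith
    have h8 := h1 h5
    rw [← hδd] at h8
    have h10 : 0 < η * δ := by positivity
    linarith
  · linarith

/-- `gue` vanishes to first order at `0`. -/
theorem weak_of_gue (h : ∀ β > 0, ∀ ε > 0, ∀ᶠ T : ℝ in atTop, NP T β / N0 T ≤ gue β + ε) :
    ∀ ε > 0, ∃ b0 > 0, ∀ β, 0 < β → β ≤ b0 → ∀ᶠ T : ℝ in atTop, NP T β / N0 T ≤ ε * β := by
  intro ε hε
  -- `gue β ≤ (ε/2) β` for small `β`
  have hcs : Continuous fun u : ℝ => 1 - (Real.sinc (Real.pi * u)) ^ 2 :=
    continuous_const.sub ((Real.continuous_sinc.comp (continuous_const.mul continuous_id)).pow 2)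
  have h0 : ∀ᶠ u in 𝓝 (0 : ℝ), 1 - (Real.sinc (Real.pi * u)) ^ 2 < ε / 2 := by
    apply hcs.continuousAt.eventually (gt_mem_nhds _)
    show 1 - (Real.sinc (Real.pi * 0)) ^ 2 < ε / 2
    rw [mul_zero, Real.sinc_zero]
    linarith
  rw [Metric.eventually_nhds_iff] at h0
  obtain ⟨δ, hδ, hd⟩ := h0
  refine ⟨δ / 2, by positivity, fun β hβ hβ1 => ?_⟩
  have hg : gue β ≤ ε / 2 * β := by
    have h1 : gue β = ∫ u in (0 : ℝ)..β, (1 - (Real.sinc (Real.pi * u)) ^ 2) := by
      unfold gue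
      refine intervalIntegral.integral_congr_ae ?_
      have h : ∀ᵐ u : ℝ ∂volume, u ≠ 0 := by
        rw [ae_iff]
        simp
      filter_upwards [h] with u hu _
      rw [Real.sinc_of_ne_zero (mul_ne_zero Real.pi_ne_zero hu)]
    rw [h1]
    have h2 : ∫ u in (0 : ℝ)..β, (1 - (Real.sinc (Real.pi * u)) ^ 2) ≤ ∫ _u in (0 : ℝ)..β, (ε / 2 : ℝ) := by
      refine intervalIntegral.integral_mono_on hβ.le (hcs.intervalIntegrable _ _) (by simp) fun u hu => ?_
      refine (hd ?_).le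
      rw [Real.dist_eq, sub_zero, abs_of_nonneg hu.1]
      linarith [hu.2]
    rw [intervalIntegral.integral_const, smul_eq_mul, sub_zero] at h2
    linarith
  filter_upwards [h β hβ (ε / 2 * β) (by positivity)] with T hT
  linarith

end Pool.Agent.Lib.MP_00e05b_nt.Mont
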