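import Pool.Agent.Lib.MP_00e05b_nt.Mont.T1

/-!
# The deficit of `F` below `1` is controlled by its excess above `1`
-/

open Complex Set Filter Topology MeasureTheory

namespace Pool.Agent.Lib.MP_00e05b_nt.Mont

/-- `Nstar/N0 ≤ 2` eventually. -/
theorem Nstar_le_two (hRH : RiemannHypothesis) : ∀ᶠ T : ℝ in atTop, Nstar T / N0 T ≤ 2 := by
  have hr : ContinuousOn (fun x : ℝ => 1 - x / 1) (Icc 0 1) := by fun_prop
  have h1 := base hRH hr
  have h2 : (1 - (0 : ℝ) / 1) / 2 + ∫ x in (0 : ℝ)..1, x * (1 - x / 1) = 2 / 3 := by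
    have : ∫ x in (0 : ℝ)..1, x * (1 - x / 1) = ∫ x in (0 : ℝ)..1, (x - x ^ 2) :=
      intervalIntegral.integral_congr fun x _ => by ring
    have i1 : Continuous (fun x : ℝ => x) := by fun_prop
    have i2 : Continuous (fun x : ℝ => x ^ 2) := by fun_prop
    rw [this, intervalIntegral.integral_sub (i1.intervalIntegrable _ _) (i2.intervalIntegrable _ _),
      integral_id, integral_pow]
    norm_num
  rw [h2] at h1
  filter_upwards [h1.eventually (eventually_lt_nhds (show (2 / 3 : ℝ) < 1 by norm_num)), eventually_gt_atTop 1]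
    with T hT hT1
  have h3 := fejer hT1 (show (0 : ℝ) < 1 by norm_num)
  linarith

theorem quant (hRH : RiemannHypothesis) {A : ℝ} (hA : 1 < A) (ε : ℝ) (hε : 0 < ε) :
    ∀ᶠ T : ℝ in atTop, (∫ α in (1 : ℝ)..A, max (1 - FF α T) 0 * (1 - α / A)) + A / 2 * (Nstar T / NN T - 1) ≤
      (∫ α in (1 : ℝ)..A, max (FF α T - 1) 0 * (1 - α / A)) + 1 / (6 * A) + ε := by
  have hA0 : 0 < A := by linarith
  -- `N0/NN → 1`
  have hinv : Tendsto (fun T : ℝ => N0 T / NN T) atTop (𝓝 1) := by
    have := (count_tendsto hRH).inv₀ one_ne_zero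
    rw [inv_one] at this
    refine this.congr fun T => ?_
    rw [inv_div]
  have hsmall : ∀ᶠ T : ℝ in atTop, |N0 T / NN T - 1| ≤ ε / (4 * A) := by
    have := (Metric.tendsto_nhds.mp hinv) (ε / (4 * A)) (by positivity)
    filter_upwards [this] with T hT
    rw [Real.dist_eq] at hT
    exact hT.le
  filter_upwards [key_lower hRH hA (ε / 2) (by positivity), Nstar_le_two hRH, hsmall,
    (count_tendsto hRH).eventually (eventually_gt_nhds (show (0 : ℝ) < 1 by norm_num)), eventually_gt_atTop 1]
    with T h1 h2 h3 h4 hT1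
  have h0 := N0_pos hT1
  have hNN : 0 < NN T := by
    by_contra hneg
    have : NN T / N0 T ≤ 0 := div_nonpos_of_nonpos_of_nonneg (not_lt.mp hneg) h0.le
    linarith
  have hst0 : 0 ≤ Nstar T / N0 T := by
    unfold Nstar
    positivity
  have hst : Nstar T / NN T ≤ Nstar T / N0 T + ε / (2 * A) := by
    have e1 : Nstar T / NN T = Nstar T / N0 T * (N0 T / NN T) := by
      field_simp
    rw [e1]
    have h5 := (abs_le.mp h3).2
    have h6 : N0 T / NN T ≤ 1 + ε / (4 * A) := by linarith
    calc Nstar T / N0 T * (N0 T / NN T) ≤ Nstar T / N0 T * (1 + ε / (4 * A)) :=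
          mul_le_mul_of_nonneg_left h6 hst0
      _ = Nstar T / N0 T + Nstar T / N0 T * (ε / (4 * A)) := by ring
      _ ≤ Nstar T / N0 T + 2 * (ε / (4 * A)) := by
          have : 0 ≤ ε / (4 * A) := by positivity
          gcongr
      _ = Nstar T / N0 T + ε / (2 * A) := by
          field_simp
          ring
  have hc : Continuous (fun α : ℝ => FF α T) := FF_continuous (by linarith)
  have hc1 : Continuous (fun α : ℝ => max (1 - FF α T) 0 * (1 - α / A)) := by fun_prop
  have hc2 : Continuous (fun α : ℝ => max (FF α T - 1) 0 * (1 - α / A)) := by fun_prop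
  have hid : ∫ α in (1 : ℝ)..A, (FF α T - 1) * (1 - α / A) =
      (∫ α in (1 : ℝ)..A, max (FF α T - 1) 0 * (1 - α / A)) -
      ∫ α in (1 : ℝ)..A, max (1 - FF α T) 0 * (1 - α / A) := by
    rw [← intervalIntegral.integral_sub (hc2.intervalIntegrable _ _) (hc1.intervalIntegrable _ _)]
    refine intervalIntegral.integral_congr fun α _ => ?_
    have : FF α T - 1 = max (FF α T - 1) 0 - max (1 - FF α T) 0 := by
      rcases le_total (FF α T) 1 with h | h
      · rw [max_eq_right (by linarith), max_eq_left (by linarith)]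
        ring
      · rw [max_eq_left (by linarith), max_eq_right (by linarith)]
        ring
    rw [← sub_mul, ← this]
  rw [hid] at h1
  have h7 : A / 2 * (Nstar T / NN T - 1) ≤ A / 2 * (Nstar T / N0 T - 1) + ε / 4 := by
    have : A / 2 * (Nstar T / NN T - 1) ≤ A / 2 * (Nstar T / N0 T + ε / (2 * A) - 1) := by
      have hA2 : 0 ≤ A / 2 := by positivity
      refine mul_le_mul_of_nonneg_left (by linarith) hA2
    calc _ ≤ _ := this
      _ = A / 2 * (Nstar T / N0 T - 1) + ε / 4 := by
          field_simp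
          ring
  linarith

end Pool.Agent.Lib.MP_00e05b_nt.Mont
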