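import Pool.Agent.Lib.MP_00e05b_nt.Mont.T1

/-!
# JOB T1B: averaged one-sided bounds for `F`

If for all `1 ≤ a < b` `limsup ∫_a^b FF ≤ b - a` then for all `1 ≤ a < b` `∫_a^b FF → b - a` and `Nstar/NN → 1`.
Let `Ψ_T y = ∫_1^y (FF - 1)`. Integration by parts: `∫_1^A (FF - 1)(1 - α/A) dα = (1/A) ∫_1^A Ψ_T y dy`, so
`(1/A) ∫_1^A Ψ_T ≥ (A/2)(Nstar/N0 - 1) - 1/(6A) - o(1) ≥ -1/(6A) - o(1)` for every fixed `A > 1` (`key_lower`, `NN_le_Nstar`,
`count_tendsto`). Fix `b ≥ 1`, `A > b`. By the hypothesis on a finite grid of `[1, A]` and `FF ≥ 0`: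
`Ψ_T y - Ψ_T x ≤ ε` for all `1 ≤ x ≤ y ≤ A` and large `T`. So for `y ∈ [b, A]`
`Ψ_T y ≤ Ψ_T b + ε` and for `y ≤ b` `Ψ_T y ≤ ε`, hence `-1/6 - o(1) ≤ ∫_1^A Ψ_T ≤ (A - b) Ψ_T b + A ε` and
`Ψ_T b ≥ -(1/6 + o(1) + A ε)/(A - b)`. Let `T → ∞`, `ε → 0`, then `A → ∞`: `liminf Ψ_T b ≥ 0`; with `limsup Ψ_T b ≤ 0` we
get `Ψ_T b → 0`. For `Nstar`: `key_lower` gives `(A/2)(Nstar/N0 - 1) ≤ (1/A)∫_1^A Ψ_T + 1/(6A) + o(1) ≤ 1/(6A) + o(1)`.
-/

open Complex Set Filter Topology MeasureTheory

namespace Pool.Agent.Lib.MP_00e05b_nt.Mont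

/-- uniform upper bounds from a grid -/
private theorem T1B_unif (h : ∀ a b : ℝ, 1 ≤ a → a < b → ∀ ε > 0, ∀ᶠ T : ℝ in atTop, ∫ α in a..b, FF α T ≤ b - a + ε)
    {a A : ℝ} (ha : 1 ≤ a) {ε : ℝ} (hε : 0 < ε) :
    ∀ᶠ T : ℝ in atTop, ∀ y ∈ Icc a A, ∫ α in a..y, FF α T ≤ y - a + ε := by
  set δ : ℝ := ε / 2 with hδ
  have hδ0 : 0 < δ := by positivity
  set N : ℕ := ⌊(A - a) / δ⌋₊ with hN
  have hgrid : ∀ᶠ T : ℝ in atTop, ∀ j ∈ Finset.range (N + 1),
      ∫ α in a..(a + ((j : ℝ) + 1) * δ), FF α T ≤ ((j : ℝ) + 1) * δ + δ := by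
    rw [eventually_all_finset]
    intro j _
    have h1 := h a (a + ((j : ℝ) + 1) * δ) ha (by have : 0 < ((j : ℝ) + 1) * δ := by positivity
                                                  linarith) δ hδ0
    filter_upwards [h1] with T hT
    linarith
  filter_upwards [hgrid, eventually_gt_atTop (1 : ℝ)] with T hT hT1 y hy
  have hT0 : 0 < T := by linarith
  have hc : Continuous (fun α => FF α T) := FF_continuous hT0
  set j : ℕ := ⌊(y - a) / δ⌋₊ with hj
  have hya : 0 ≤ (y - a) / δ := div_nonneg (by linarith [hy.1]) hδ0.le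
  have hjN : j ≤ N := Nat.floor_le_floor (by gcongr; exact hy.2)
  have hj1 : (j : ℝ) ≤ (y - a) / δ := Nat.floor_le hya
  have hj2 : (y - a) / δ < (j : ℝ) + 1 := Nat.lt_floor_add_one _
  have hj3 : (j : ℝ) * δ ≤ y - a := by rwa [le_div_iff₀ hδ0] at hj1
  have hj4 : y - a < ((j : ℝ) + 1) * δ := by rwa [div_lt_iff₀ hδ0] at hj2
  have h2 := hT j (Finset.mem_range.2 (by omega))
  have h3 : ∫ α in a..y, FF α T ≤ ∫ α in a..(a + ((j : ℝ) + 1) * δ), FF α T := by
    rw [← intervalIntegral.integral_add_adjacent_intervals (hc.intervalIntegrable (μ := volume) a y)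
      (hc.intervalIntegrable (μ := volume) y (a + ((j : ℝ) + 1) * δ))]
    have h4 : 0 ≤ ∫ α in y..(a + ((j : ℝ) + 1) * δ), FF α T :=
      intervalIntegral.integral_nonneg (by linarith) fun α _ => FF_nonneg hT1 α
    linarith
  have h5 : ((j : ℝ) + 1) * δ + δ = (j : ℝ) * δ + ε := by rw [hδ]; ring
  linarith

/-- integration by parts -/
private theorem T1B_parts {T A : ℝ} (hT : 0 < T) (hA : 1 < A) :
    ∫ α in (1 : ℝ)..A, (FF α T - 1) * (1 - α / A) = (1 / A) * ∫ y in (1 : ℝ)..A, ∫ α in (1 : ℝ)..y, (FF α T - 1) := by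
  have hc : Continuous (fun α => FF α T - 1) := (FF_continuous hT).sub continuous_const
  have hA0 : A ≠ 0 := by positivity
  have h1 := intervalIntegral.integral_mul_deriv_eq_deriv_mul (a := 1) (b := A)
    (u := fun y : ℝ => 1 - y / A) (u' := fun _ => -(1 / A))
    (v := fun y => ∫ α in (1 : ℝ)..y, (FF α T - 1)) (v' := fun y => FF y T - 1)
    (fun x _ => by
      have := ((hasDerivAt_id x).div_const A).const_sub 1
      simpa using this)
    (fun x _ => (hc.integral_hasStrictDerivAt 1 x).hasDerivAt)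
    (continuous_const.intervalIntegrable _ _) (hc.intervalIntegrable _ _)
  simp only [div_self hA0, sub_self, zero_mul, intervalIntegral.integral_same, mul_zero, zero_sub, neg_mul,
    intervalIntegral.integral_neg, neg_neg, intervalIntegral.integral_const_mul] at h1
  rw [← h1]
  congr 1
  funext α
  ring

/-- the mean of the primitive is almost nonnegative -/
private theorem T1B_mean (hRH : RiemannHypothesis) {A : ℝ} (hA : 1 < A) {ε : ℝ} (hε : 0 < ε) :
    ∀ᶠ T : ℝ in atTop, A * (A / 2 * (Nstar T / N0 T - 1)) - 1 / 6 - A * ε ≤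
      ∫ y in (1 : ℝ)..A, ∫ α in (1 : ℝ)..y, (FF α T - 1) := by
  have hA0 : 0 < A := by positivity
  filter_upwards [key_lower hRH hA ε hε, eventually_gt_atTop (1 : ℝ)] with T h1 hT
  rw [T1B_parts (by linarith) hA, one_div_mul_eq_div, le_div_iff₀ hA0] at h1
  have e : (A / 2 * (Nstar T / N0 T - 1) - 1 / (6 * A) - ε) * A = A * (A / 2 * (Nstar T / N0 T - 1)) - 1 / 6 - A * ε := by
    field_simp
  linarith

private theorem T1B_sub {T a y : ℝ} (hT : 0 < T) :
    ∫ α in a..y, (FF α T - 1) = (∫ α in a..y, FF α T) - (y - a) := by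
  rw [intervalIntegral.integral_sub ((FF_continuous hT).intervalIntegrable _ _) (by simp),
    intervalIntegral.integral_const, smul_eq_mul, mul_one]

theorem averaged (hRH : RiemannHypothesis)
    (h : ∀ a b : ℝ, 1 ≤ a → a < b → ∀ ε > 0, ∀ᶠ T : ℝ in atTop, ∫ α in a..b, FF α T ≤ b - a + ε) :
    (∀ a b : ℝ, 1 ≤ a → a < b → Tendsto (fun T : ℝ => ∫ α in a..b, FF α T) atTop (𝓝 (b - a))) ∧
    Tendsto (fun T : ℝ => Nstar T / NN T) atTop (𝓝 1) := by
  have hcnt := count_tendsto hRH
  -- the ratio `Nstar/N0` is at least `1 - ε`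
  have hlow : ∀ ε : ℝ, 0 < ε → ∀ᶠ T : ℝ in atTop, 1 - ε ≤ Nstar T / N0 T := by
    intro ε hε
    filter_upwards [hcnt.eventually (le_mem_nhds (show 1 - ε < 1 by linarith)), eventually_gt_atTop (1 : ℝ)] with T h1 hT
    have hN0 : 0 < N0 T := N0_pos hT
    have h2 : NN T / N0 T ≤ Nstar T / N0 T := by
      have := NN_le_Nstar T
      gcongr
    linarith
  -- lower bound for the primitive
  have hΨ : ∀ b : ℝ, 1 ≤ b → ∀ η : ℝ, 0 < η → ∀ᶠ T : ℝ in atTop, -η ≤ ∫ α in (1 : ℝ)..b, (FF α T - 1) := by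
    intro b hb η hη
    set A : ℝ := b + 1 / (3 * η) with hA
    have hAb : 0 < A - b := by rw [hA]; simp only [add_sub_cancel_left]; positivity
    have hA1 : 1 < A := by linarith
    have hA0 : 0 < A := by linarith
    obtain ⟨ε, hε, hε1⟩ : ∃ ε : ℝ, 0 < ε ∧ ε * (A ^ 2 / 2 + 2 * A) ≤ 1 / 6 := by
      refine ⟨1 / 6 / (A ^ 2 / 2 + 2 * A), by positivity, ?_⟩
      rw [div_mul_cancel₀ _ (by positivity)]
    filter_upwards [T1B_mean hRH hA1 hε, hlow ε hε, T1B_unif h (a := 1) (A := A) le_rfl hε,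
      T1B_unif h (a := b) (A := A) hb hε, eventually_gt_atTop (1 : ℝ)] with T h1 h2 h3 h4 hT
    have hT0 : 0 < T := by linarith
    have hc : Continuous (fun α => FF α T - 1) := (FF_continuous hT0).sub continuous_const
    have hcΨ : Continuous (fun y => ∫ α in (1 : ℝ)..y, (FF α T - 1)) :=
      intervalIntegral.continuous_primitive (fun a b => hc.intervalIntegrable a b) 1
    set P : ℝ := ∫ α in (1 : ℝ)..b, (FF α T - 1) with hP
    have h5 : ∫ y in (1 : ℝ)..b, (∫ α in (1 : ℝ)..y, (FF α T - 1)) ≤ (b - 1) * ε := by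
      calc ∫ y in (1 : ℝ)..b, (∫ α in (1 : ℝ)..y, (FF α T - 1)) ≤ ∫ _y in (1 : ℝ)..b, ε := by
            refine intervalIntegral.integral_mono_on hb (hcΨ.intervalIntegrable _ _) (by simp) fun y hy => ?_
            have := h3 y ⟨hy.1, by linarith [hy.2]⟩
            rw [T1B_sub hT0]
            linarith
        _ = (b - 1) * ε := by rw [intervalIntegral.integral_const, smul_eq_mul]
    have h6 : ∫ y in b..A, (∫ α in (1 : ℝ)..y, (FF α T - 1)) ≤ (A - b) * (P + ε) := by
      calc ∫ y in b..A, (∫ α in (1 : ℝ)..y, (FF α T - 1)) ≤ ∫ _y in b..A, (P + ε) := by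
            refine intervalIntegral.integral_mono_on (by linarith) (hcΨ.intervalIntegrable _ _) (by simp) fun y hy => ?_
            have h7 := h4 y hy
            have h8 := intervalIntegral.integral_add_adjacent_intervals (hc.intervalIntegrable (μ := volume) 1 b)
              (hc.intervalIntegrable (μ := volume) b y)
            rw [T1B_sub (a := b) hT0] at h8
            linarith
        _ = (A - b) * (P + ε) := by rw [intervalIntegral.integral_const, smul_eq_mul]
    have h9 := intervalIntegral.integral_add_adjacent_intervals (hcΨ.intervalIntegrable (μ := volume) 1 b)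
      (hcΨ.intervalIntegrable (μ := volume) b A)
    have h10 : A * (A / 2 * (-ε)) ≤ A * (A / 2 * (Nstar T / N0 T - 1)) := by
      have : -ε ≤ Nstar T / N0 T - 1 := by linarith
      gcongr
    have h11 : -(1 / 6) - ε * (A ^ 2 / 2 + 2 * A) ≤ (A - b) * P := by nlinarith
    have h12 : -(1 / 3) ≤ (A - b) * P := by linarith
    have h13 : (A - b) * η = 1 / 3 := by
      rw [hA]
      simp only [add_sub_cancel_left]
      field_simp
    by_contra hcon
    push Not at hcon
    have h14 : (A - b) * P < (A - b) * (-η) := mul_lt_mul_of_pos_left hcon hAb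
    linarith
  have hΨlim : ∀ b : ℝ, 1 ≤ b → Tendsto (fun T : ℝ => ∫ α in (1 : ℝ)..b, (FF α T - 1)) atTop (𝓝 0) := by
    intro b hb
    rw [Metric.tendsto_atTop']
    intro η hη
    have hup : ∀ᶠ T : ℝ in atTop, ∫ α in (1 : ℝ)..b, (FF α T - 1) ≤ η / 2 := by
      filter_upwards [T1B_unif h (a := 1) (A := b) le_rfl (half_pos hη), eventually_gt_atTop (1 : ℝ)] with T h1 hT
      rw [T1B_sub (by linarith)]
      have := h1 b ⟨hb, le_rfl⟩
      linarith
    obtain ⟨N, hN⟩ := eventually_atTop.1 ((hΨ b hb (η / 2) (half_pos hη)).and hup)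
    refine ⟨N, fun T hT => ?_⟩
    obtain ⟨h1, h2⟩ := hN T hT.le
    rw [Real.dist_eq, sub_zero, abs_lt]
    constructor <;> linarith
  refine ⟨?_, ?_⟩
  · intro a b ha hab
    have h1 := ((hΨlim b (by linarith)).sub (hΨlim a ha)).add_const (b - a)
    rw [sub_zero, zero_add] at h1
    refine h1.congr' ?_
    filter_upwards [eventually_gt_atTop (1 : ℝ)] with T hT
    have hT0 : 0 < T := by linarith
    have hc : Continuous (fun α => FF α T) := FF_continuous hT0
    rw [T1B_sub hT0, T1B_sub hT0]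
    have h8 := intervalIntegral.integral_add_adjacent_intervals (hc.intervalIntegrable (μ := volume) 1 a)
      (hc.intervalIntegrable (μ := volume) a b)
    linarith
  · have hNs : Tendsto (fun T : ℝ => Nstar T / N0 T) atTop (𝓝 1) := by
      rw [Metric.tendsto_atTop']
      intro η hη
      have hup : ∀ᶠ T : ℝ in atTop, Nstar T / N0 T - 1 ≤ η / 2 := by
        -- choose a large `A` and a small `ε`
        set A : ℝ := 2 + 4 / η with hA
        have hA0 : 0 < A := by positivity
        have hA1 : 1 < A := by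
          have : 0 < 4 / η := by positivity
          linarith
        have hAη : 4 ≤ A * η := by
          rw [hA, add_mul, div_mul_cancel₀ _ hη.ne']
          nlinarith
        filter_upwards [T1B_mean hRH hA1 (ε := 1 / 24) (by norm_num), T1B_unif h (a := 1) (A := A) le_rfl (ε := 1 / 24) (by norm_num),
          eventually_gt_atTop (1 : ℝ)] with T h1 h3 hT
        have hT0 : 0 < T := by linarith
        have hc : Continuous (fun α => FF α T - 1) := (FF_continuous hT0).sub continuous_const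
        have hcΨ : Continuous (fun y => ∫ α in (1 : ℝ)..y, (FF α T - 1)) :=
          intervalIntegral.continuous_primitive (fun a b => hc.intervalIntegrable a b) 1
        have h5 : ∫ y in (1 : ℝ)..A, (∫ α in (1 : ℝ)..y, (FF α T - 1)) ≤ (A - 1) * (1 / 24) := by
          calc ∫ y in (1 : ℝ)..A, (∫ α in (1 : ℝ)..y, (FF α T - 1)) ≤ ∫ _y in (1 : ℝ)..A, (1 / 24 : ℝ) := by
                refine intervalIntegral.integral_mono_on hA1.le (hcΨ.intervalIntegrable _ _) (by simp) fun y hy => ?_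
                have := h3 y hy
                rw [T1B_sub hT0]
                linarith
            _ = (A - 1) * (1 / 24) := by rw [intervalIntegral.integral_const, smul_eq_mul]
        have h6 : A * (A / 2 * (Nstar T / N0 T - 1)) ≤ A := by nlinarith
        have h7 : A / 2 * (Nstar T / N0 T - 1) ≤ 1 := by
          by_contra hcon
          push Not at hcon
          nlinarith
        by_contra hcon
        push Not at hcon
        have h8 : A / 2 * (η / 2) < A / 2 * (Nstar T / N0 T - 1) := mul_lt_mul_of_pos_left hcon (by positivity)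
        have h9 : A / 2 * (η / 2) = A * η / 4 := by ring
        linarith
      obtain ⟨N, hN⟩ := eventually_atTop.1 ((hlow (η / 2) (half_pos hη)).and hup)
      refine ⟨N, fun T hT => ?_⟩
      obtain ⟨h1, h2⟩ := hN T hT.le
      rw [Real.dist_eq, abs_lt]
      constructor <;> linarith
    have hq := hNs.div hcnt one_ne_zero
    rw [div_one] at hq
    refine hq.congr' ?_
    filter_upwards [eventually_gt_atTop (1 : ℝ)] with T hT
    have hN0 : N0 T ≠ 0 := (N0_pos hT).ne'
    simp only [Pi.div_apply]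
    rw [div_div_div_cancel_right₀ hN0]

end Pool.Agent.Lib.MP_00e05b_nt.Mont
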