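import Pool.Agent.Lib.MP_00e05b_nt.Mont.HvD
import Pool.Agent.Lib.MP_00e05b_nt.Mont.HvE
import Pool.Agent.Lib.MP_00e05b_nt.Mont.T1B
import Pool.Agent.Lib.MP_00e05b_nt.Mont.G4
import Pool.Agent.Lib.MP_00e05b_nt.Mont.G5
import Pool.Agent.Lib.MP_00e05b_nt.Mont.Quant

/-!
# Halves, file F: the forms in mean and in measure
-/

open Set Filter Topology MeasureTheory

namespace Pool.Agent.Lib.MP_00e05b_nt.Mont

theorem Nstar_of_NN (hRH : RiemannHypothesis) (h2 : Tendsto (fun T : ℝ => Nstar T / NN T) atTop (𝓝 1)) :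
    Tendsto (fun T : ℝ => Nstar T / N0 T) atTop (𝓝 1) := by
  have h3 := h2.mul (count_tendsto hRH)
  rw [mul_one] at h3
  refine h3.congr' ?_
  filter_upwards [eventually_gt_atTop 1,
    (count_tendsto hRH).eventually (eventually_gt_nhds (show (0 : ℝ) < 1 by norm_num))] with T hT h4
  have h0 := (N0_pos hT).ne'
  have hN : NN T ≠ 0 := by
    intro h
    rw [h, zero_div] at h4
    exact lt_irrefl _ h4
  field_simp

/-- The two-sided averaged form gives simple zeros and the counting form. -/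
theorem all_of_avg (hRH : RiemannHypothesis)
    (h : ∀ a b : ℝ, 1 ≤ a → a < b → Tendsto (fun T : ℝ => ∫ α in a..b, FF α T) atTop (𝓝 (b - a))) :
    Tendsto (fun T : ℝ => Nstar T / N0 T) atTop (𝓝 1) ∧
    (∀ β > 0, Tendsto (fun T : ℝ => NP T β / N0 T) atTop (𝓝 (gue β))) ∧
    ∀ ε > 0, ∃ b0 > 0, ∀ β, 0 < β → β ≤ b0 → ∀ᶠ T : ℝ in atTop, NP T β / N0 T ≤ ε * β := by
  have h2 : ∀ a b : ℝ, 1 ≤ a → a < b → ∀ ε > 0, ∀ᶠ T : ℝ in atTop, ∫ α in a..b, FF α T ≤ b - a + ε := by
    intro a b ha hb ε hε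
    filter_upwards [(h a b ha hb).eventually (eventually_lt_nhds (show b - a < b - a + ε by linarith))] with T hT
    exact hT.le
  have hN := Nstar_of_NN hRH (averaged hRH h2).2
  have hC := (counting hRH (count_lower_of_avg hRH h hN)).1
  refine ⟨hN, hC, weak_of_gue fun β hβ ε hε => ?_⟩
  filter_upwards [(hC β hβ).eventually (eventually_lt_nhds (show gue β < gue β + ε by linarith))] with T hT
  exact hT.le

private lemma hvF_max (x : ℝ) : |x - 1| = (x - 1) + 2 * max (1 - x) 0 := by
  rcases le_total x 1 with h | h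
  · rw [abs_of_nonpos (by linarith), max_eq_left (by linarith)]
    ring
  · rw [abs_of_nonneg (by linarith), max_eq_right (by linarith)]
    ring

private lemma hvF_abs {T A : ℝ} (hT : 0 < T) :
    ∫ α in (1 : ℝ)..A, |FF α T - 1| =
      (∫ α in (1 : ℝ)..A, (FF α T - 1)) + 2 * ∫ α in (1 : ℝ)..A, max (1 - FF α T) 0 := by
  have hc := FF_continuous hT
  rw [← intervalIntegral.integral_const_mul, ← intervalIntegral.integral_add]
  · exact intervalIntegral.integral_congr fun α _ => hvF_max _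
  · exact (hc.sub continuous_const).intervalIntegrable _ _
  · exact (((continuous_const.sub hc).max continuous_const).intervalIntegrable _ _).const_mul _

/-- If the deficit tends to `0` in mean and the averaged form holds, then `F → 1` in mean. -/
theorem abs_of_deficit
    (h : ∀ a b : ℝ, 1 ≤ a → a < b → Tendsto (fun T : ℝ => ∫ α in a..b, FF α T) atTop (𝓝 (b - a)))
    (hd : ∀ A : ℝ, 1 < A → Tendsto (fun T : ℝ => ∫ α in (1 : ℝ)..A, max (1 - FF α T) 0) atTop (𝓝 0)) :
    ∀ A : ℝ, 1 < A → Tendsto (fun T : ℝ => ∫ α in (1 : ℝ)..A, |FF α T - 1|) atTop (𝓝 0) := by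
  intro A hA
  have h1 := ((h 1 A le_rfl hA).sub_const (A - 1)).add ((hd A hA).const_mul 2)
  rw [sub_self, mul_zero, add_zero] at h1
  refine h1.congr' ?_
  filter_upwards [eventually_gt_atTop 1] with T hT
  have hT0 : 0 < T := by linarith
  rw [hvF_abs hT0, hvD_sub hT0]

/-- The lower half in mean gives the averaged lower half. -/
theorem lower_of_deficit
    (hd : ∀ A : ℝ, 1 < A → Tendsto (fun T : ℝ => ∫ α in (1 : ℝ)..A, max (1 - FF α T) 0) atTop (𝓝 0)) :
    ∀ a b : ℝ, 1 ≤ a → a < b → ∀ ε > 0, ∀ᶠ T : ℝ in atTop, b - a - ε ≤ ∫ α in a..b, FF α T := by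
  intro a b ha hab ε hε
  filter_upwards [(hd b (by linarith)).eventually (eventually_lt_nhds hε), eventually_gt_atTop 1] with T h1 hT
  have hT0 : 0 < T := by linarith
  have hc := FF_continuous hT0
  have hm : Continuous fun α => max (1 - FF α T) 0 := (continuous_const.sub hc).max continuous_const
  have h2 := intervalIntegral.integral_add_adjacent_intervals (hm.intervalIntegrable (μ := volume) 1 a)
    (hm.intervalIntegrable (μ := volume) a b)
  have h3 : 0 ≤ ∫ α in (1 : ℝ)..a, max (1 - FF α T) 0 :=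
    intervalIntegral.integral_nonneg ha fun α _ => le_max_right _ _
  have h4 : ∫ α in a..b, (1 - FF α T) ≤ ∫ α in a..b, max (1 - FF α T) 0 :=
    intervalIntegral.integral_mono_on hab.le ((continuous_const.sub hc).intervalIntegrable _ _)
      (hm.intervalIntegrable _ _) fun α _ => le_max_left _ _
  have h5 : ∫ α in a..b, (1 - FF α T) = (b - a) - ∫ α in a..b, FF α T := by
    rw [intervalIntegral.integral_sub (by simp) (hc.intervalIntegrable _ _), intervalIntegral.integral_const,
      smul_eq_mul, mul_one]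
  linarith

/-- The upper half in mean controls the lower half in mean. -/
theorem deficit_of_excess (hRH : RiemannHypothesis)
    (hd : ∀ A : ℝ, 1 < A → Tendsto (fun T : ℝ => ∫ α in (1 : ℝ)..A, max (FF α T - 1) 0) atTop (𝓝 0)) :
    ∀ A : ℝ, 1 < A → Tendsto (fun T : ℝ => ∫ α in (1 : ℝ)..A, max (1 - FF α T) 0) atTop (𝓝 0) := by
  intro b hb
  rw [Metric.tendsto_nhds]
  intro η hη
  obtain ⟨A, hA⟩ : ∃ A : ℝ, A = 2 * b + 2 / η := ⟨_, rfl⟩
  have p : 0 < 2 / η := by positivity
  have hA1 : 1 < A := by linarith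
  have hA0 : 0 < A := by linarith
  have hAη : 2 ≤ A * η := by
    have : 2 / η ≤ A := by linarith
    rwa [div_le_iff₀ hη] at this
  filter_upwards [quant hRH hA1 (η / 8) (by positivity), (hd A hA1).eventually (eventually_lt_nhds
    (show 0 < η / 8 by positivity)), (count_tendsto hRH).eventually (eventually_gt_nhds (show (0 : ℝ) < 1 by norm_num)),
    eventually_gt_atTop 1] with T h1 h2 h3 hT
  have hT0 : 0 < T := by linarith
  have hc := FF_continuous hT0
  have hN0 := N0_pos hT
  have hNN : 0 < NN T := by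
    by_contra hneg
    have : NN T / N0 T ≤ 0 := div_nonpos_of_nonpos_of_nonneg (not_lt.mp hneg) hN0.le
    linarith
  have h4 : 0 ≤ A / 2 * (Nstar T / NN T - 1) := by
    have : 1 ≤ Nstar T / NN T := by
      rw [le_div_iff₀ hNN, one_mul]
      exact NN_le_Nstar T
    have h5 : 0 ≤ Nstar T / NN T - 1 := by linarith
    positivity
  have hm : Continuous fun α => max (1 - FF α T) 0 := (continuous_const.sub hc).max continuous_const
  have hm' : Continuous fun α => max (FF α T - 1) 0 := (hc.sub continuous_const).max continuous_const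
  have hw : Continuous fun α : ℝ => 1 - α / A := by fun_prop
  -- the excess
  have h5 : ∫ α in (1 : ℝ)..A, max (FF α T - 1) 0 * (1 - α / A) ≤ ∫ α in (1 : ℝ)..A, max (FF α T - 1) 0 := by
    refine intervalIntegral.integral_mono_on hA1.le ((hm'.mul hw).intervalIntegrable _ _)
      (hm'.intervalIntegrable _ _) fun α hα => ?_
    refine mul_le_of_le_one_right (le_max_right _ _) ?_
    have : 0 ≤ α / A := div_nonneg (by linarith [hα.1]) hA0.le
    linarith
  -- the deficit
  have h6 : 1 / 2 * ∫ α in (1 : ℝ)..b, max (1 - FF α T) 0 ≤ ∫ α in (1 : ℝ)..A, max (1 - FF α T) 0 * (1 - α / A) := by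
    rw [← intervalIntegral.integral_const_mul]
    have h7 := intervalIntegral.integral_add_adjacent_intervals ((hm.mul hw).intervalIntegrable (μ := volume) 1 b)
      ((hm.mul hw).intervalIntegrable (μ := volume) b A)
    simp only [Pi.mul_apply] at h7
    have h8 : 0 ≤ ∫ α in b..A, max (1 - FF α T) 0 * (1 - α / A) := by
      refine intervalIntegral.integral_nonneg (by linarith) fun α hα => mul_nonneg (le_max_right _ _) ?_
      rw [sub_nonneg, div_le_one hA0]
      exact hα.2
    have h9 : ∫ α in (1 : ℝ)..b, 1 / 2 * max (1 - FF α T) 0 ≤ ∫ α in (1 : ℝ)..b, max (1 - FF α T) 0 * (1 - α / A) := by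
      refine intervalIntegral.integral_mono_on hb.le ((hm.const_mul _).intervalIntegrable _ _)
        ((hm.mul hw).intervalIntegrable _ _) fun α hα => ?_
      rw [mul_comm]
      refine mul_le_mul_of_nonneg_left ?_ (le_max_right _ _)
      have : α / A ≤ 1 / 2 := by
        rw [div_le_iff₀ hA0]
        linarith [hα.2]
      linarith
    linarith
  have h10 : 1 / (6 * A) ≤ η / 8 := by
    rw [div_le_iff₀ (by positivity)]
    nlinarith
  have h11 : 0 ≤ ∫ α in (1 : ℝ)..b, max (1 - FF α T) 0 :=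
    intervalIntegral.integral_nonneg hb.le fun α _ => le_max_right _ _
  rw [Real.dist_eq, sub_zero, abs_of_nonneg h11]
  linarith

/-- Markov's inequality for the deficit. -/
theorem measure_of_deficit
    (hd : ∀ A : ℝ, 1 < A → Tendsto (fun T : ℝ => ∫ α in (1 : ℝ)..A, max (1 - FF α T) 0) atTop (𝓝 0)) :
    ∀ A : ℝ, 1 < A → ∀ δ > 0, Tendsto (fun T : ℝ => volume.real {α : ℝ | α ∈ Icc 1 A ∧ FF α T < 1 - δ}) atTop (𝓝 0) := by
  intro A hA δ hδ
  have h1 := (hd A hA).const_mul δ⁻¹
  rw [mul_zero] at h1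
  refine squeeze_zero' (Eventually.of_forall fun T => measureReal_nonneg) ?_ h1
  filter_upwards [eventually_gt_atTop 1] with T hT
  have hc := FF_continuous (show 0 < T by linarith)
  have hm : Continuous fun α => max (1 - FF α T) 0 := (continuous_const.sub hc).max continuous_const
  have hS : MeasurableSet {α : ℝ | α ∈ Icc 1 A ∧ FF α T < 1 - δ} :=
    measurableSet_Icc.inter (measurableSet_lt hc.measurable measurable_const)
  have hfin : volume {α : ℝ | α ∈ Icc 1 A ∧ FF α T < 1 - δ} ≠ ⊤ := by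
    refine ne_top_of_le_ne_top ?_ (measure_mono (show {α : ℝ | α ∈ Icc 1 A ∧ FF α T < 1 - δ} ⊆ Icc 1 A from fun x hx => hx.1))
    rw [Real.volume_Icc]
    exact ENNReal.ofReal_ne_top
  rw [← div_eq_inv_mul, le_div_iff₀ hδ]
  have hint : IntegrableOn (fun α => max (1 - FF α T) 0) (Icc 1 A) := hm.continuousOn.integrableOn_Icc
  calc volume.real {α : ℝ | α ∈ Icc 1 A ∧ FF α T < 1 - δ} * δ
      = ∫ _α in {α : ℝ | α ∈ Icc 1 A ∧ FF α T < 1 - δ}, δ := by
        rw [setIntegral_const, smul_eq_mul]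
    _ ≤ ∫ α in {α : ℝ | α ∈ Icc 1 A ∧ FF α T < 1 - δ}, max (1 - FF α T) 0 := by
        refine setIntegral_mono_on (integrableOn_const hfin) (hint.mono_set fun x hx => hx.1) hS fun α hα => ?_
        exact le_max_of_le_left (by linarith [hα.2])
    _ ≤ ∫ α in Icc 1 A, max (1 - FF α T) 0 := by
        refine setIntegral_mono_set hint (Eventually.of_forall fun α => le_max_right _ _) ?_
        exact Eventually.of_forall fun x hx => hx.1
    _ = ∫ α in (1 : ℝ)..A, max (1 - FF α T) 0 := by
        rw [intervalIntegral.integral_of_le hA.le, integral_Icc_eq_integral_Ioc]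

/-- and back, because the deficit is at most `1`. -/
theorem deficit_of_measure
    (hm : ∀ A : ℝ, 1 < A → ∀ δ > 0,
      Tendsto (fun T : ℝ => volume.real {α : ℝ | α ∈ Icc 1 A ∧ FF α T < 1 - δ}) atTop (𝓝 0)) :
    ∀ A : ℝ, 1 < A → Tendsto (fun T : ℝ => ∫ α in (1 : ℝ)..A, max (1 - FF α T) 0) atTop (𝓝 0) := by
  intro A hA
  rw [Metric.tendsto_nhds]
  intro η hη
  obtain ⟨δ, hδd⟩ : ∃ δ : ℝ, δ = η / (2 * A) := ⟨_, rfl⟩
  have hδ : 0 < δ := by rw [hδd]; positivity
  filter_upwards [(hm A hA δ hδ).eventually (eventually_lt_nhds (show 0 < η / 2 by positivity)),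
    eventually_gt_atTop 1] with T h1 hT
  have hc := FF_continuous (show 0 < T by linarith)
  have hcm : Continuous fun α => max (1 - FF α T) 0 := (continuous_const.sub hc).max continuous_const
  have hS : MeasurableSet {α : ℝ | α ∈ Icc 1 A ∧ FF α T < 1 - δ} :=
    measurableSet_Icc.inter (measurableSet_lt hc.measurable measurable_const)
  have hfin : volume {α : ℝ | α ∈ Icc 1 A ∧ FF α T < 1 - δ} ≠ ⊤ := by
    refine ne_top_of_le_ne_top ?_ (measure_mono (show {α : ℝ | α ∈ Icc 1 A ∧ FF α T < 1 - δ} ⊆ Icc 1 A from fun x hx => hx.1))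
    rw [Real.volume_Icc]
    exact ENNReal.ofReal_ne_top
  have h11 : 0 ≤ ∫ α in (1 : ℝ)..A, max (1 - FF α T) 0 :=
    intervalIntegral.integral_nonneg hA.le fun α _ => le_max_right _ _
  rw [Real.dist_eq, sub_zero, abs_of_nonneg h11]
  have hint : IntegrableOn (fun α => max (1 - FF α T) 0) (Icc 1 A) := hcm.continuousOn.integrableOn_Icc
  have hind : IntegrableOn (fun α => {α : ℝ | α ∈ Icc 1 A ∧ FF α T < 1 - δ}.indicator (fun _ => (1 : ℝ)) α) (Icc 1 A) := by
    refine IntegrableOn.indicator ?_ hS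
    exact integrableOn_const (by rw [Real.volume_Icc]; exact ENNReal.ofReal_ne_top)
  have hdc : IntegrableOn (fun _ : ℝ => δ) (Icc 1 A) :=
    integrableOn_const (by rw [Real.volume_Icc]; exact ENNReal.ofReal_ne_top)
  have h2 : ∫ α in Icc 1 A, max (1 - FF α T) 0 ≤
      ∫ α in Icc 1 A, (δ + {α : ℝ | α ∈ Icc 1 A ∧ FF α T < 1 - δ}.indicator (fun _ => (1 : ℝ)) α) := by
    refine setIntegral_mono_on hint (hdc.add hind) measurableSet_Icc fun α hα => ?_
    by_cases h : FF α T < 1 - δ
    · rw [indicator_of_mem (show α ∈ {α : ℝ | α ∈ Icc 1 A ∧ FF α T < 1 - δ} from ⟨hα, h⟩)]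
      have := FF_nonneg hT α
      exact max_le (by linarith) (by linarith)
    · rw [indicator_of_notMem (show α ∉ {α : ℝ | α ∈ Icc 1 A ∧ FF α T < 1 - δ} from fun h' => h h'.2)]
      rw [not_lt] at h
      exact max_le (by linarith) (by linarith)
  rw [integral_add hdc hind, setIntegral_const, setIntegral_indicator hS, smul_eq_mul,
    inter_eq_self_of_subset_right (show {α : ℝ | α ∈ Icc 1 A ∧ FF α T < 1 - δ} ⊆ Icc 1 A from fun x hx => hx.1),
    setIntegral_const, smul_eq_mul, mul_one, Real.volume_real_Icc_of_le hA.le] at h2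
  have h3 : (A - 1) * δ ≤ η / 2 := by
    rw [hδd]
    have : (A - 1) * (η / (2 * A)) ≤ A * (η / (2 * A)) := by gcongr; linarith
    refine this.trans (le_of_eq ?_)
    field_simp
  rw [intervalIntegral.integral_of_le hA.le, ← integral_Icc_eq_integral_Ioc]
  linarith

end Pool.Agent.Lib.MP_00e05b_nt.Mont
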