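import Mathlib

/-!
# JOB K3: a monotone kernel with compactly supported Fourier transform

`phi3 α = 2 - 3|α|` for `|α| ≤ 1/2`, `(1 - |α|)²/|α|` for `1/2 ≤ |α| ≤ 1`, `0` for `|α| ≥ 1` (continuous, even, `≥ 0`).
Let `f3 x = ∫ phi3 α cos(2πxα) dα` and `g3 t = 8/π² * sin(πt/2)⁴/t³` for `t > 0`.
* `hasDeriv_f3`: `f3' x = - 2π ∫ phi3 α α sin(2πxα) dα` (differentiation under the integral sign). The odd function `α phi3 α` is, for
  `α ≥ 0`, `2α - 3α²` on `[0, 1/2]` and `(1 - α)²` on `[1/2, 1]`. Compute with explicit antiderivatives (or integrate by parts):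
  `f3' x = - 4π ∫_0^1 (α phi3 α) sin(2πxα) dα`, and with `s = 2πx`
  `∫_0^{1/2} (2α - 3α²) sin(sα) dα + ∫_{1/2}^1 (1 - α)² sin(sα) dα = (2 cos s - 8 cos(s/2) + 6)/s³ = 16 sin(s/4)⁴/s³`
  (`16 sin⁴(s/4) = 6 - 8 cos(s/2) + 2 cos s`). So `f3' x = - 4π * 16 sin(πx/2)⁴/(2πx)³ = - 8 sin(πx/2)⁴/(π² x³)`.
-/

open Set Filter Topology MeasureTheory

namespace Pool.Agent.Lib.MP_00e05b_nt.Mont

noncomputable def phi3 (α : ℝ) : ℝ :=
  if |α| ≤ 1 / 2 then 2 - 3 * |α| else if |α| ≤ 1 then (1 - |α|) ^ 2 / |α| else 0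

noncomputable def f3 (x : ℝ) : ℝ := ∫ α : ℝ, phi3 α * Real.cos (2 * Real.pi * x * α)

noncomputable def g3 (t : ℝ) : ℝ := 8 / Real.pi ^ 2 * Real.sin (Real.pi * t / 2) ^ 4 / t ^ 3

/-- A formula for `phi3` without case distinction. -/
private theorem phi3_eq (α : ℝ) :
    phi3 α = (1 - min (max |α| (1 / 2)) 1) ^ 2 / max |α| (1 / 2) + 3 * (1 / 2 - min |α| (1 / 2)) := by
  unfold phi3
  by_cases h1 : |α| ≤ 1 / 2
  · rw [if_pos h1, max_eq_right h1, min_eq_left h1, min_eq_left (by norm_num)]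
    ring
  · rw [if_neg h1]
    push Not at h1
    by_cases h2 : |α| ≤ 1
    · rw [if_pos h2, max_eq_left h1.le, min_eq_left h2, min_eq_right h1.le]
      ring
    · rw [if_neg h2]
      push Not at h2
      rw [max_eq_left h1.le, min_eq_right h2.le, min_eq_right h1.le]
      ring

theorem phi3_continuous : Continuous phi3 := by
  have h : phi3 = fun α => (1 - min (max |α| (1 / 2)) 1) ^ 2 / max |α| (1 / 2) + 3 * (1 / 2 - min |α| (1 / 2)) := funext phi3_eq
  rw [h]
  have h0 : ∀ α : ℝ, max |α| (1 / 2) ≠ 0 := fun α => (lt_of_lt_of_le (by norm_num) (le_max_right |α| (1 / 2))).ne'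
  fun_prop (disch := exact h0 _)

theorem phi3_zero (x : ℝ) (hx : 1 ≤ |x|) : phi3 x = 0 := by
  rw [phi3_eq, max_eq_left (by linarith), min_eq_right hx, min_eq_right (by linarith)]
  ring

theorem f3_even (x : ℝ) : f3 (-x) = f3 x := by
  unfold f3
  congr 1
  funext α
  rw [show 2 * Real.pi * -x * α = -(2 * Real.pi * x * α) by ring, Real.cos_neg]

private theorem phi3_abs (x : ℝ) : phi3 |x| = phi3 x := by
  unfold phi3
  rw [abs_abs]

private theorem phi3_compact : HasCompactSupport phi3 := by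
  refine HasCompactSupport.intro (isCompact_Icc (a := (-1 : ℝ)) (b := 1)) fun x hx => phi3_zero x ?_
  by_contra h
  push Not at h
  exact hx (abs_le.1 h.le)

private theorem k3_integrable (g : ℝ → ℝ) (hg : Continuous g) : Integrable (fun α => phi3 α * g α) :=
  (phi3_continuous.mul hg).integrable_of_hasCompactSupport (phi3_compact.mul_right)

private theorem k3_deriv (x : ℝ) :
    HasDerivAt f3 (∫ α : ℝ, phi3 α * (-Real.sin (2 * Real.pi * x * α) * (2 * Real.pi * α))) x := by
  refine (hasDerivAt_integral_of_dominated_loc_of_deriv_le (μ := volume) (s := univ)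
    (F := fun x α => phi3 α * Real.cos (2 * Real.pi * x * α))
    (F' := fun x α => phi3 α * (-Real.sin (2 * Real.pi * x * α) * (2 * Real.pi * α)))
    (bound := fun α => |phi3 α * (2 * Real.pi * α)|) univ_mem ?_ ?_ ?_ ?_ ?_ ?_).2
  · exact Filter.Eventually.of_forall fun y => (k3_integrable _ (by fun_prop)).aestronglyMeasurable
  · exact k3_integrable _ (by fun_prop)
  · exact (k3_integrable _ (by fun_prop)).aestronglyMeasurable
  · refine Filter.Eventually.of_forall fun α y _ => ?_
    change |phi3 α * (-Real.sin (2 * Real.pi * y * α) * (2 * Real.pi * α))| ≤ |phi3 α * (2 * Real.pi * α)|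
    have h1 : |-Real.sin (2 * Real.pi * y * α)| ≤ 1 := by
      rw [abs_neg]
      exact Real.abs_sin_le_one _
    calc |phi3 α * (-Real.sin (2 * Real.pi * y * α) * (2 * Real.pi * α))| =
        |-Real.sin (2 * Real.pi * y * α)| * |phi3 α * (2 * Real.pi * α)| := by
          rw [← abs_mul]
          congr 1
          ring
      _ ≤ 1 * |phi3 α * (2 * Real.pi * α)| := mul_le_mul_of_nonneg_right h1 (abs_nonneg _)
      _ = _ := one_mul _
  · exact (k3_integrable _ (by fun_prop)).abs
  · refine Filter.Eventually.of_forall fun α y _ => ?_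
    have h1 : HasDerivAt (fun y : ℝ => 2 * Real.pi * y * α) (2 * Real.pi * α) y := by
      have := ((hasDerivAt_id y).const_mul (2 * Real.pi)).mul_const α
      simpa using this
    exact (h1.cos).const_mul (phi3 α)

theorem f3_continuous : Continuous f3 :=
  continuous_iff_continuousAt.2 fun x => (k3_deriv x).continuousAt

/-- `∫ P(α) sin(sα)` for a quadratic polynomial. -/
private theorem k3_int (a b c s u v : ℝ) (hs : s ≠ 0) :
    ∫ α in u..v, (a + b * α + c * α ^ 2) * Real.sin (s * α) =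
      (-(a + b * v + c * v ^ 2) * Real.cos (s * v) / s + (b + 2 * c * v) * Real.sin (s * v) / s ^ 2 + 2 * c * Real.cos (s * v) / s ^ 3) -
      (-(a + b * u + c * u ^ 2) * Real.cos (s * u) / s + (b + 2 * c * u) * Real.sin (s * u) / s ^ 2 + 2 * c * Real.cos (s * u) / s ^ 3) := by
  refine intervalIntegral.integral_eq_sub_of_hasDerivAt (f := fun α => -(a + b * α + c * α ^ 2) * Real.cos (s * α) / s +
    (b + 2 * c * α) * Real.sin (s * α) / s ^ 2 + 2 * c * Real.cos (s * α) / s ^ 3) (fun α _ => ?_) ?_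
  · have hl : HasDerivAt (fun α : ℝ => s * α) s α := by simpa using (hasDerivAt_id α).const_mul s
    have hP : HasDerivAt (fun α : ℝ => a + b * α + c * α ^ 2) (b + 2 * c * α) α := by
      have h1 := ((hasDerivAt_id α).const_mul b).const_add a
      have h2 := ((hasDerivAt_pow 2 α).const_mul c)
      have h3 := h1.add h2
      refine (h3.congr_deriv ?_).congr_of_eventuallyEq (Filter.Eventually.of_forall fun y => ?_)
      · simp
        ring
      · simp
    have hQ : HasDerivAt (fun α : ℝ => b + 2 * c * α) (2 * c) α := by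
      have h1 := ((hasDerivAt_id α).const_mul (2 * c)).const_add b
      simpa using h1
    have h1 := ((hP.neg.mul hl.cos).div_const s).add ((hQ.mul hl.sin).div_const (s ^ 2))
    have h2 := h1.add ((hl.cos.const_mul (2 * c)).div_const (s ^ 3))
    refine h2.congr_deriv ?_
    have e : (-fun α : ℝ => a + b * α + c * α ^ 2) α = -(a + b * α + c * α ^ 2) := rfl
    rw [e]
    field_simp
    ring
  · exact (Continuous.intervalIntegrable (by fun_prop) _ _)

theorem hasDeriv_f3 (x : ℝ) (hx : 0 < x) : HasDerivAt f3 (-(g3 x)) x := by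
  refine (k3_deriv x).congr_deriv ?_
  have hpi : Real.pi ≠ 0 := Real.pi_ne_zero
  have e1 : (fun α : ℝ => phi3 α * (-Real.sin (2 * Real.pi * x * α) * (2 * Real.pi * α))) =
      fun α : ℝ => (fun β : ℝ => phi3 β * (-Real.sin (2 * Real.pi * x * β) * (2 * Real.pi * β))) |α| := by
    funext α
    simp only []
    rw [phi3_abs]
    rcases abs_cases α with ⟨h, _⟩ | ⟨h, _⟩
    · rw [h]
    · rw [h, show 2 * Real.pi * x * -α = -(2 * Real.pi * x * α) by ring, Real.sin_neg]
      ring
  rw [e1, integral_comp_abs (f := fun β : ℝ => phi3 β * (-Real.sin (2 * Real.pi * x * β) * (2 * Real.pi * β)))]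
  have e2 : ∫ β in Ioi (0 : ℝ), phi3 β * (-Real.sin (2 * Real.pi * x * β) * (2 * Real.pi * β)) =
      ∫ β in (0 : ℝ)..1, phi3 β * (-Real.sin (2 * Real.pi * x * β) * (2 * Real.pi * β)) := by
    rw [intervalIntegral.integral_of_le zero_le_one]
    refine setIntegral_eq_of_subset_of_forall_sdiff_eq_zero measurableSet_Ioi (fun y hy => hy.1) fun y hy => ?_
    have h1 : 1 ≤ |y| := by
      by_contra h
      push Not at h
      exact hy.2 ⟨hy.1, (abs_lt.1 h).2.le⟩
    rw [phi3_zero y h1, zero_mul]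
  have hint : ∀ u v : ℝ, IntervalIntegrable (fun β : ℝ => phi3 β * (-Real.sin (2 * Real.pi * x * β) * (2 * Real.pi * β))) volume u v :=
    fun u v => (Continuous.intervalIntegrable (phi3_continuous.mul (by fun_prop)) _ _)
  rw [e2, ← intervalIntegral.integral_add_adjacent_intervals (hint 0 (1 / 2)) (hint (1 / 2) 1)]
  have e3 : ∫ β in (0 : ℝ)..(1 / 2), phi3 β * (-Real.sin (2 * Real.pi * x * β) * (2 * Real.pi * β)) =
      ∫ β in (0 : ℝ)..(1 / 2), (0 + (-(4 * Real.pi)) * β + (6 * Real.pi) * β ^ 2) * Real.sin (2 * Real.pi * x * β) := by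
    refine intervalIntegral.integral_congr fun β hβ => ?_
    rw [uIcc_of_le (by norm_num)] at hβ
    have : phi3 β = 2 - 3 * β := by
      unfold phi3
      rw [abs_of_nonneg hβ.1, if_pos hβ.2]
    simp only [this]
    ring
  have e4 : ∫ β in (1 / 2 : ℝ)..1, phi3 β * (-Real.sin (2 * Real.pi * x * β) * (2 * Real.pi * β)) =
      ∫ β in (1 / 2 : ℝ)..1, ((-(2 * Real.pi)) + (4 * Real.pi) * β + (-(2 * Real.pi)) * β ^ 2) * Real.sin (2 * Real.pi * x * β) := by
    refine intervalIntegral.integral_congr fun β hβ => ?_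
    rw [uIcc_of_le (by norm_num)] at hβ
    have hβ0 : β ≠ 0 := by
      have := hβ.1
      intro h
      rw [h] at this
      norm_num at this
    have : phi3 β = (1 - β) ^ 2 / β := by
      unfold phi3
      rw [abs_of_nonneg (by linarith [hβ.1])]
      by_cases h : β ≤ 1 / 2
      · have : β = 1 / 2 := le_antisymm h hβ.1
        rw [if_pos h, this]
        norm_num
      · rw [if_neg h, if_pos hβ.2]
    simp only [this]
    field_simp
    ring
  have hs : 2 * Real.pi * x ≠ 0 := by positivity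
  rw [e3, e4, k3_int _ _ _ _ _ _ hs, k3_int _ _ _ _ _ _ hs]
  unfold g3
  set c := Real.cos (Real.pi * x) with hc
  have c1 : Real.cos (2 * Real.pi * x * (1 / 2)) = c := by rw [hc]; congr 1; ring
  have c2 : Real.cos (2 * Real.pi * x * 1) = 2 * c ^ 2 - 1 := by
    rw [hc, ← Real.cos_two_mul]
    congr 1
    ring
  have c3 : Real.sin (Real.pi * x / 2) ^ 4 = (1 - c) ^ 2 / 4 := by
    have h1 : Real.sin (Real.pi * x / 2) ^ 2 = (1 - c) / 2 := by
      have h := Real.sin_sq_eq_half_sub (Real.pi * x / 2)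
      rw [h, show 2 * (Real.pi * x / 2) = Real.pi * x by ring]
      ring
    rw [show Real.sin (Real.pi * x / 2) ^ 4 = (Real.sin (Real.pi * x / 2) ^ 2) ^ 2 by ring, h1]
    ring
  rw [c1, c2, c3, mul_zero (2 * Real.pi * x), Real.cos_zero, Real.sin_zero]
  generalize Real.sin (2 * Real.pi * x * (1 / 2)) = w1
  generalize Real.sin (2 * Real.pi * x * 1) = w2
  field_simp
  ring

end Pool.Agent.Lib.MP_00e05b_nt.Mont
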