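import Pool.Agent.Lib.MP_00e05b_nt.Mont.K3

/-!
# JOB K3T: size of the kernel `f3`

* `f3_tendsto`: Riemann-Lebesgue (`Real.tendsto_integral_exp_smul_cocompact` or
  `tendsto_integral_exp_inner_smul_cocompact`; real part), since `phi3` is continuous with compact support.
* `f3_nonneg`: `f3` is nonincreasing on `[0, ∞)` (`hasDeriv_f3`, `f3_continuous`, `g3 ≥ 0` for `t > 0`) and tends to `0`; for `x < 0` use
  `f3_even`.
* `f3_bound`: `f3 x - f3 y = ∫_x^y g3 ≤ (8/π²) ∫_x^y t⁻³ dt ≤ 4/(π² x²)` for `0 < x < y`; let `y → ∞`.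
* `f3_integrable`: continuous, even, and `f3_bound`.
* `f3_zero_pos`: `f3 0 = ∫ phi3 > 0` (`phi3` is continuous, `≥ 0`, and `≥ 1/2` on `[-1/2, 1/2]`).
-/

open Set Filter Topology MeasureTheory

namespace Pool.Agent.Lib.MP_00e05b_nt.Mont

private theorem k3t_compact : HasCompactSupport phi3 := by
  refine HasCompactSupport.intro (isCompact_Icc (a := (-1 : ℝ)) (b := 1)) ?_
  intro x hx
  apply phi3_zero
  by_contra h
  push Not at h
  exact hx ⟨(abs_lt.1 h).1.le, (abs_lt.1 h).2.le⟩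

private theorem k3t_nonneg (x : ℝ) : 0 ≤ phi3 x := by
  unfold phi3
  have h0 := abs_nonneg x
  split_ifs with h1 h2
  · linarith
  · positivity
  · exact le_rfl

private theorem k3t_g3_nonneg {t : ℝ} (ht : 0 < t) : 0 ≤ g3 t := by
  unfold g3
  have h := pow_nonneg (sq_nonneg (Real.sin (Real.pi * t / 2))) 2
  have h1 : 0 ≤ Real.sin (Real.pi * t / 2) ^ 4 := by
    have : Real.sin (Real.pi * t / 2) ^ 4 = (Real.sin (Real.pi * t / 2) ^ 2) ^ 2 := by ring
    rw [this]
    positivity
  positivity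

theorem f3_tendsto : Tendsto f3 atTop (𝓝 0) := by
  have hRL := Real.tendsto_integral_exp_smul_cocompact (fun α : ℝ => (phi3 α : ℂ))
  have h1 : Tendsto (fun w : ℝ => ∫ v : ℝ, Real.fourierChar (-(v * w)) • (phi3 v : ℂ)) atTop (𝓝 0) :=
    hRL.mono_left atTop_le_cocompact
  have h2 : Tendsto (fun w : ℝ => (∫ v : ℝ, Real.fourierChar (-(v * w)) • (phi3 v : ℂ)).re) atTop (𝓝 (0 : ℂ).re) :=
    (Complex.continuous_re.tendsto 0).comp h1
  rw [Complex.zero_re] at h2
  refine h2.congr fun x => ?_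
  have hcont : Continuous (fun v : ℝ => Real.fourierChar (-(v * x)) • (phi3 v : ℂ)) := by
    have hl : Continuous (fun v : ℝ => -(v * x)) := by fun_prop
    exact (Real.continuous_fourierChar.comp hl).smul (Complex.continuous_ofReal.comp phi3_continuous)
  have hcs : HasCompactSupport (fun v : ℝ => (phi3 v : ℂ)) :=
    k3t_compact.comp_left (g := fun t : ℝ => (t : ℂ)) (by simp)
  have hint : Integrable (fun v : ℝ => Real.fourierChar (-(v * x)) • (phi3 v : ℂ)) :=
    hcont.integrable_of_hasCompactSupport (hcs.smul_left (f := fun v : ℝ => Real.fourierChar (-(v * x))))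
  have h4 : (∫ v : ℝ, Real.fourierChar (-(v * x)) • (phi3 v : ℂ)).re =
      ∫ v : ℝ, (Real.fourierChar (-(v * x)) • (phi3 v : ℂ)).re := (integral_re hint).symm
  rw [h4]
  unfold f3
  refine integral_congr_ae (Eventually.of_forall fun v => ?_)
  simp only [Circle.smul_def, Real.fourierChar_apply, smul_eq_mul, Complex.mul_re, Complex.ofReal_re,
    Complex.ofReal_im, mul_zero, sub_zero]
  have h5 : (((2 * Real.pi * -(v * x) : ℝ) : ℂ) * Complex.I).re = 0 := by simp
  have h6 : (((2 * Real.pi * -(v * x) : ℝ) : ℂ) * Complex.I).im = -(2 * Real.pi * x * v) := by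
    simp
    ring
  rw [Complex.exp_re, h5, h6, Real.exp_zero, one_mul, Real.cos_neg]
  ring

private theorem k3t_antitone : AntitoneOn f3 (Ici 0) := by
  refine antitoneOn_of_deriv_nonpos (convex_Ici 0) f3_continuous.continuousOn ?_ ?_
  · intro x hx
    rw [interior_Ici] at hx
    exact (hasDeriv_f3 x hx).differentiableAt.differentiableWithinAt
  · intro x hx
    rw [interior_Ici] at hx
    rw [(hasDeriv_f3 x hx).deriv]
    linarith [k3t_g3_nonneg (show (0 : ℝ) < x from hx)]

private theorem k3t_nonneg_pos {x : ℝ} (hx : 0 ≤ x) : 0 ≤ f3 x := by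
  refine le_of_tendsto f3_tendsto ?_
  filter_upwards [eventually_ge_atTop x] with y hy
  exact k3t_antitone hx (hx.trans hy) hy

theorem f3_nonneg (x : ℝ) : 0 ≤ f3 x := by
  rcases le_total 0 x with h | h
  · exact k3t_nonneg_pos h
  · rw [← f3_even]
    exact k3t_nonneg_pos (by linarith)

theorem f3_bound (x : ℝ) (hx : 0 < x) : f3 x ≤ 4 / (Real.pi ^ 2 * x ^ 2) := by
  have hpi := Real.pi_pos
  have hder : ∀ t : ℝ, 0 < t → HasDerivAt (fun t => f3 t - 4 / Real.pi ^ 2 * (t ^ 2)⁻¹)
      (-(g3 t) - 4 / Real.pi ^ 2 * (-(2 * t) / (t ^ 2) ^ 2)) t := by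
    intro t ht
    have h1 : HasDerivAt (fun t : ℝ => t ^ 2) (2 * t) t := by
      simpa using hasDerivAt_pow 2 t
    have h2 := (h1.inv (by positivity)).const_mul (4 / Real.pi ^ 2)
    exact (hasDeriv_f3 t ht).sub h2
  have hmono : MonotoneOn (fun t => f3 t - 4 / Real.pi ^ 2 * (t ^ 2)⁻¹) (Ici x) := by
    refine monotoneOn_of_deriv_nonneg (convex_Ici x) ?_ ?_ ?_
    · intro t ht
      exact (hder t (hx.trans_le ht)).continuousAt.continuousWithinAt
    · intro t ht
      rw [interior_Ici] at ht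
      exact (hder t (hx.trans ht)).differentiableAt.differentiableWithinAt
    · intro t ht
      rw [interior_Ici] at ht
      have ht0 : 0 < t := hx.trans ht
      rw [(hder t ht0).deriv]
      unfold g3
      have hs : Real.sin (Real.pi * t / 2) ^ 4 ≤ 1 := by
        have h1 := Real.sin_sq_le_one (Real.pi * t / 2)
        have h2 := sq_nonneg (Real.sin (Real.pi * t / 2))
        nlinarith
      have e : -(8 / Real.pi ^ 2 * Real.sin (Real.pi * t / 2) ^ 4 / t ^ 3) - 4 / Real.pi ^ 2 * (-(2 * t) / (t ^ 2) ^ 2) =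
          8 / Real.pi ^ 2 * (1 - Real.sin (Real.pi * t / 2) ^ 4) / t ^ 3 := by
        field_simp
        ring
      rw [e]
      have h3 : 0 ≤ 1 - Real.sin (Real.pi * t / 2) ^ 4 := by linarith
      positivity
  have hlim : Tendsto (fun t : ℝ => f3 t - 4 / Real.pi ^ 2 * (t ^ 2)⁻¹) atTop (𝓝 0) := by
    have h1 : Tendsto (fun t : ℝ => (t ^ 2)⁻¹) atTop (𝓝 0) :=
      (tendsto_pow_atTop (by norm_num)).inv_tendsto_atTop
    have h2 := f3_tendsto.sub (h1.const_mul (4 / Real.pi ^ 2))
    simpa using h2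
  have hle : f3 x - 4 / Real.pi ^ 2 * (x ^ 2)⁻¹ ≤ 0 := by
    refine ge_of_tendsto hlim ?_
    filter_upwards [eventually_ge_atTop x] with y hy
    exact hmono (mem_Ici.2 le_rfl) hy hy
  have e : 4 / (Real.pi ^ 2 * x ^ 2) = 4 / Real.pi ^ 2 * (x ^ 2)⁻¹ := by
    field_simp
  rw [e]
  linarith

theorem f3_integrable : Integrable f3 := by
  have hpi := Real.pi_pos
  have h0 := f3_nonneg 0
  refine Integrable.mono' (integrable_inv_one_add_sq.const_mul (2 * f3 0 + 8 / Real.pi ^ 2))
    f3_continuous.aestronglyMeasurable (Eventually.of_forall ?_)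
  have hpos : ∀ x : ℝ, 0 ≤ x → f3 x ≤ (2 * f3 0 + 8 / Real.pi ^ 2) * (1 + x ^ 2)⁻¹ := by
    intro x hx
    have hq : (0 : ℝ) ≤ 8 / Real.pi ^ 2 := by positivity
    rw [← div_eq_mul_inv, le_div_iff₀ (by positivity)]
    rcases le_total x 1 with h1 | h1
    · have h2 := k3t_antitone (mem_Ici.2 le_rfl) (mem_Ici.2 hx) hx
      have h3 : x ^ 2 ≤ 1 := by nlinarith
      have h4 := f3_nonneg x
      nlinarith
    · have hx0 : 0 < x := by linarith
      have h2 := f3_bound x hx0
      have h3 : 1 + x ^ 2 ≤ 2 * x ^ 2 := by nlinarith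
      have h4 := f3_nonneg x
      calc f3 x * (1 + x ^ 2) ≤ f3 x * (2 * x ^ 2) := by gcongr
        _ ≤ 4 / (Real.pi ^ 2 * x ^ 2) * (2 * x ^ 2) := by gcongr
        _ = 8 / Real.pi ^ 2 := by field_simp; ring
        _ ≤ 2 * f3 0 + 8 / Real.pi ^ 2 := by linarith
  intro x
  rw [Real.norm_eq_abs, abs_of_nonneg (f3_nonneg x)]
  rcases le_total 0 x with h | h
  · exact hpos x h
  · have := hpos (-x) (by linarith)
    rw [f3_even] at this
    simpa using this

theorem f3_zero_pos : 0 < f3 0 := by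
  have h := phi3_continuous.integral_pos_of_hasCompactSupport_nonneg_nonzero (μ := volume) k3t_compact
    (fun x => k3t_nonneg x) (x := 0) (by unfold phi3; norm_num)
  unfold f3
  simpa using h

end Pool.Agent.Lib.MP_00e05b_nt.Mont
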