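import Pool.Agent.Lib.MP_00e05b_nt.Mont.ZC
import Pool.Agent.Lib.MP_00e05b_nt.Mont.ConvH

/-!
# JOB LC: local counting of the zeros

With `h`, `c` of `exists_posdef` and `zeros_density` (an `ES h (1/2)` is an `ES h (5/8)`):
`c * ∑_{|a.im - t| ≤ 1} mx a ≤ ∑' a, mx a * ck h (a.im - t) ≤ C log (2 + |t|)`. Then with
`n t = ∑' a, if |a.im - t| ≤ 1 then mx a else 0 ≤ C' log (2 + |t|)`:
`1/(1 + |x|)^2 ≤ ∑_{j ∈ ℤ} 4/(1 + |j|)^2 * (if |x - j| ≤ 1 then 1 else 0)`, so
`∑' a, mx a / (1 + |t - a.im|)^2 ≤ ∑_j 4 n(t + j)/(1 + |j|)^2 ≤ ∑_j 4 C' log (2 + |t| + |j|)/(1 + |j|)^2 ≤ C'' log (2 + |t|)`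
(`log (2 + |t| + |j|) ≤ log (2 + |t|) + log (1 + |j|)`, and `log 2 > 0` bounds constants by multiples of `log (2 + |t|)`).
-/

open Complex Set Filter Topology MeasureTheory
open scoped ContDiff

namespace Pool.Agent.Lib.MP_00e05b_nt.Mont

private noncomputable def lcg (j : ℤ) : ℝ :=
  4 / (1 + |(j : ℝ)|) ^ 2 * (1 + Real.log (1 + |(j : ℝ)|) / Real.log 2)

private theorem lc_log2 : 0 < Real.log 2 := Real.log_pos (by norm_num)

private theorem lcg_nonneg (j : ℤ) : 0 ≤ lcg j := by
  unfold lcg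
  have h1 : 0 ≤ Real.log (1 + |(j : ℝ)|) := Real.log_nonneg (by linarith [abs_nonneg (j : ℝ)])
  have h2 := lc_log2
  positivity

private theorem lcg_le (j : ℤ) :
    lcg j ≤ 4 * (1 + 2 / Real.log 2) * (1 + |(j : ℝ)|) ^ (-(3 / 2) : ℝ) := by
  unfold lcg
  have h2 := lc_log2
  set y : ℝ := 1 + |(j : ℝ)| with hy
  have hy1 : 1 ≤ y := by rw [hy]; linarith [abs_nonneg (j : ℝ)]
  have hy0 : 0 < y := by linarith
  have h3 : Real.log y ≤ 2 * y ^ ((1 : ℝ) / 2) := by
    have := Real.log_le_rpow_div hy0.le (ε := 1 / 2) (by norm_num)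
    linarith
  have h4 : 1 ≤ y ^ ((1 : ℝ) / 2) := Real.one_le_rpow hy1 (by norm_num)
  have h5 : 1 + Real.log y / Real.log 2 ≤ (1 + 2 / Real.log 2) * y ^ ((1 : ℝ) / 2) := by
    have h6 : Real.log y / Real.log 2 ≤ (2 * y ^ ((1 : ℝ) / 2)) / Real.log 2 :=
      div_le_div_of_nonneg_right h3 h2.le
    calc 1 + Real.log y / Real.log 2 ≤ y ^ ((1 : ℝ) / 2) + (2 * y ^ ((1 : ℝ) / 2)) / Real.log 2 := by linarith
      _ = _ := by ring
  have h7 : y ^ (-(3 / 2) : ℝ) = y ^ ((1 : ℝ) / 2) / y ^ 2 := by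
    rw [← Real.rpow_natCast y 2, ← Real.rpow_sub hy0]
    norm_num
  rw [h7]
  calc 4 / y ^ 2 * (1 + Real.log y / Real.log 2) ≤ 4 / y ^ 2 * ((1 + 2 / Real.log 2) * y ^ ((1 : ℝ) / 2)) :=
        mul_le_mul_of_nonneg_left h5 (by positivity)
    _ = _ := by ring

private theorem lcg_summable : Summable lcg := by
  have h2 := lc_log2
  have hn : Summable (fun n : ℕ => (1 + (n : ℝ)) ^ (-(3 / 2) : ℝ)) := by
    have h := (summable_nat_add_iff 1).2 (Real.summable_nat_rpow (p := -(3 / 2)).2 (by norm_num))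
    refine h.congr (fun n => ?_)
    push_cast
    rw [add_comm]
  have hn' := hn.mul_left (4 * (1 + 2 / Real.log 2))
  apply Summable.of_nat_of_neg
  · refine Summable.of_nonneg_of_le (fun n => lcg_nonneg _) (fun n => (lcg_le _).trans (le_of_eq ?_)) hn'
    push_cast
    rw [Nat.abs_cast]
  · refine Summable.of_nonneg_of_le (fun n => lcg_nonneg _) (fun n => (lcg_le _).trans (le_of_eq ?_)) hn'
    push_cast
    rw [abs_neg, Nat.abs_cast]

theorem local_count (hRH : RiemannHypothesis) :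
    ∃ C : ℝ, 0 ≤ C ∧ ∀ t : ℝ, Summable (fun a : ℂ => (mx a : ℝ) * (1 / (1 + |t - a.im|) ^ 2)) ∧
      ∑' a : ℂ, (mx a : ℝ) * (1 / (1 + |t - a.im|) ^ 2) ≤ C * Real.log (2 + |t|) := by
  classical
  obtain ⟨h, c, hh, hc, hpos, hlow⟩ := exists_posdef
  have hh' : ES h (5 / 8) := ⟨hh.smooth, hh.even, fun u hu => hh.supp u (by linarith)⟩
  obtain ⟨C0, hC0, z⟩ := zeros_density hRH hh'
  have h2 := lc_log2
  set C1 : ℝ := |h 0| + C0 / Real.log 2 with hC1
  have hC10 : 0 ≤ C1 := by positivity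
  have hl2 : ∀ t : ℝ, Real.log 2 ≤ Real.log (2 + |t|) := fun t =>
    Real.log_le_log (by norm_num) (by linarith [abs_nonneg t])
  have hS : ∀ t : ℝ, ∑' a : ℂ, (mx a : ℝ) * ck h (a.im - t) ≤ C1 * Real.log (2 + |t|) := by
    intro t
    have h3 := (abs_le.1 (z t).2).2
    have h4 := hl2 t
    have h5 : h 0 * Real.log (2 + |t|) ≤ |h 0| * Real.log (2 + |t|) :=
      mul_le_mul_of_nonneg_right (le_abs_self _) (by linarith)
    have h6 : C0 ≤ C0 / Real.log 2 * Real.log (2 + |t|) := by
      calc C0 = C0 / Real.log 2 * Real.log 2 := by field_simp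
        _ ≤ _ := mul_le_mul_of_nonneg_left h4 (by positivity)
    rw [hC1, add_mul]
    linarith
  have hG0 : 0 ≤ ∑' j, lcg j := tsum_nonneg lcg_nonneg
  refine ⟨C1 / c * ∑' j, lcg j, by positivity, fun t => ?_⟩
  have hfin : ∀ u : Finset ℂ, ∑ a ∈ u, (mx a : ℝ) * (1 / (1 + |t - a.im|) ^ 2) ≤
      C1 / c * (∑' j, lcg j) * Real.log (2 + |t|) := by
    intro u
    set J : ℂ → ℤ := fun a => ⌊a.im - t⌋ with hJ
    rw [← Finset.sum_fiberwise_of_maps_to (s := u) (t := u.image J) (g := J)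
      (fun a ha => Finset.mem_image_of_mem J ha)]
    have hj : ∀ j ∈ u.image J, ∑ a ∈ u.filter (fun a => J a = j), (mx a : ℝ) * (1 / (1 + |t - a.im|) ^ 2) ≤
        C1 / c * Real.log (2 + |t|) * lcg j := by
      intro j _
      set A : ℝ := 4 / (1 + |(j : ℝ)|) ^ 2 with hA
      have hA0 : 0 ≤ A := by positivity
      have hone : ∀ a ∈ u.filter (fun a => J a = j), (mx a : ℝ) * (1 / (1 + |t - a.im|) ^ 2) ≤
          A / c * ((mx a : ℝ) * ck h (a.im - (t + j))) := by
        intro a ha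
        have hja := (Finset.mem_filter.1 ha).2
        have f1 : (j : ℝ) ≤ a.im - t := by rw [← hja]; exact Int.floor_le _
        have f2 : a.im - t < j + 1 := by rw [← hja]; exact Int.lt_floor_add_one _
        have g1 : c ≤ ck h (a.im - (t + j)) := by
          apply hlow
          rw [abs_le]
          constructor <;> linarith
        have g2 : 1 + |(j : ℝ)| ≤ 2 * (1 + |t - a.im|) := by
          have : |(j : ℝ)| ≤ |t - a.im| + 1 := by
            rw [abs_le]
            have k1 := neg_abs_le (t - a.im)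
            have k2 := le_abs_self (t - a.im)
            constructor <;> linarith
          linarith [abs_nonneg (t - a.im)]
        have g3 : 1 / (1 + |t - a.im|) ^ 2 ≤ A := by
          rw [hA, div_le_div_iff₀ (by positivity) (by positivity)]
          have k0 : 0 ≤ 1 + |(j : ℝ)| := by positivity
          nlinarith [mul_le_mul g2 g2 k0 (by positivity)]
        calc (mx a : ℝ) * (1 / (1 + |t - a.im|) ^ 2) ≤ (mx a : ℝ) * A :=
              mul_le_mul_of_nonneg_left g3 (Nat.cast_nonneg _)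
          _ = A / c * ((mx a : ℝ) * c) := by field_simp
          _ ≤ _ := by
              apply mul_le_mul_of_nonneg_left _ (by positivity)
              exact mul_le_mul_of_nonneg_left g1 (Nat.cast_nonneg _)
      calc ∑ a ∈ u.filter (fun a => J a = j), (mx a : ℝ) * (1 / (1 + |t - a.im|) ^ 2)
          ≤ ∑ a ∈ u.filter (fun a => J a = j), A / c * ((mx a : ℝ) * ck h (a.im - (t + j))) :=
            Finset.sum_le_sum hone
        _ = A / c * ∑ a ∈ u.filter (fun a => J a = j), (mx a : ℝ) * ck h (a.im - (t + j)) := by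
            rw [Finset.mul_sum]
        _ ≤ A / c * (C1 * Real.log (2 + |t + j|)) := by
            apply mul_le_mul_of_nonneg_left _ (by positivity)
            refine le_trans ?_ (hS (t + j))
            exact (z (t + j)).1.sum_le_tsum _ (fun a _ => mul_nonneg (Nat.cast_nonneg _) (hpos _))
        _ ≤ A / c * (C1 * (Real.log (2 + |t|) * (1 + Real.log (1 + |(j : ℝ)|) / Real.log 2))) := by
            apply mul_le_mul_of_nonneg_left _ (by positivity)
            apply mul_le_mul_of_nonneg_left _ hC10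
            have k1 : 2 + |t + j| ≤ (2 + |t|) * (1 + |(j : ℝ)|) := by
              have := abs_add_le t (j : ℝ)
              nlinarith [abs_nonneg t, abs_nonneg (j : ℝ), mul_nonneg (abs_nonneg t) (abs_nonneg (j : ℝ))]
            have k2 : Real.log (2 + |t + j|) ≤ Real.log (2 + |t|) + Real.log (1 + |(j : ℝ)|) := by
              rw [← Real.log_mul (by positivity) (by positivity)]
              exact Real.log_le_log (by positivity) k1
            have k3 : 0 ≤ Real.log (1 + |(j : ℝ)|) := Real.log_nonneg (by linarith [abs_nonneg (j : ℝ)])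
            have k4 : Real.log (1 + |(j : ℝ)|) ≤ Real.log (2 + |t|) * (Real.log (1 + |(j : ℝ)|) / Real.log 2) := by
              rw [mul_div_assoc', le_div_iff₀ h2, mul_comm (Real.log (2 + |t|))]
              exact mul_le_mul_of_nonneg_left (hl2 t) k3
            rw [mul_add, mul_one]
            linarith
        _ = _ := by unfold lcg; rw [hA]; ring
    calc _ ≤ ∑ j ∈ u.image J, C1 / c * Real.log (2 + |t|) * lcg j := Finset.sum_le_sum hj
      _ = C1 / c * Real.log (2 + |t|) * ∑ j ∈ u.image J, lcg j := by rw [Finset.mul_sum]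
      _ ≤ C1 / c * Real.log (2 + |t|) * ∑' j, lcg j := by
          apply mul_le_mul_of_nonneg_left
          · exact lcg_summable.sum_le_tsum _ (fun j _ => lcg_nonneg j)
          · have := hl2 t
            have h0 : 0 ≤ Real.log (2 + |t|) := by linarith
            positivity
      _ = _ := by ring
  have hnn : ∀ a : ℂ, 0 ≤ (mx a : ℝ) * (1 / (1 + |t - a.im|) ^ 2) := fun a => by positivity
  have hsum := summable_of_sum_le hnn hfin
  exact ⟨hsum, hsum.tsum_le_of_sum_le hfin⟩

end Pool.Agent.Lib.MP_00e05b_nt.Mont
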