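import Pool.Agent.Lib.MP_00e05b_nt.Mont.BasA
import Pool.Agent.Lib.MP_00e05b_nt.PsiRH
import Pool.Agent.Lib.MP_00e05b_nt.Mont.Prime0

/-!
# JOB Prime: the diagonal prime sums

`psi_RH` (PsiRH.lean) with the function `V v = W v ^ 2 * exp (-v - 1)` (smooth, `0 ≤ V ≤ 1` on the support `|v| ≤ 3/4`, zero for
`3/4 ≤ |v|`) gives for `y ≥ 2`, after multiplying by `e · e^{-y/2}`:
`∑ Λ(n) e^{-y} e^{-(log n - y)} W(log n - y)^2 = ∑ Λ(n)/n W(log n - y)^2 = ∫ W^2 + O(e^{-y/2})`.
On the support `log n = y + O(1)`, so `∑ Λ(n) log n / n * W(log n - y)^2 = y ∫ W^2 + O(1)` for `y ≥ 2`; for `0 ≤ y ≤ 2` everything is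
`O(1)`. Finally replace `Λ(n) log n` by `Λ(n)^2`: the difference is at most `∑ (Λ(n) log n - Λ(n)^2)/n < ∞`
(`pp_nonneg`, `pp_summable`, `W² ≤ 1`).
-/

open Complex Set Filter Topology MeasureTheory
open scoped ContDiff

namespace Pool.Agent.Lib.MP_00e05b_nt.Mont

private lemma Prime_supp {W : ℝ → ℝ} {s : ℝ} (hW : EB W s) (hs : s ≤ 3 / 4) {y z : ℝ} (hyz : y ≤ z)
    {n : ℕ} (hn : n ∉ Finset.range (⌈Real.exp (z + 1)⌉₊ + 1)) : W (Real.log n - y) = 0 := by
  rw [Finset.mem_range, not_lt] at hn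
  have h1 : Real.exp (z + 1) ≤ n := by
    calc Real.exp (z + 1) ≤ (⌈Real.exp (z + 1)⌉₊ : ℝ) := Nat.le_ceil _
      _ ≤ n := by exact_mod_cast (Nat.le_succ _).trans hn
  have h2 : z + 1 ≤ Real.log n := (Real.le_log_iff_exp_le ((Real.exp_pos _).trans_le h1)).2 h1
  apply hW.supp
  rw [abs_of_nonneg (by linarith)]
  linarith

private lemma Prime_term (n : ℕ) (w : ℝ) :
    (ArithmeticFunction.vonMangoldt n * Real.exp (-(Real.log n / 2)) * w) ^ 2 =
      ArithmeticFunction.vonMangoldt n ^ 2 / n * w ^ 2 := by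
  rcases Nat.eq_zero_or_pos n with rfl | hn
  · simp
  · have hn' : (0 : ℝ) < n := by exact_mod_cast hn
    have h1 : Real.exp (-(Real.log n / 2)) ^ 2 = 1 / n := by
      rw [← Real.exp_nat_mul]
      have : ((2 : ℕ) : ℝ) * -(Real.log n / 2) = -Real.log n := by push_cast; ring
      rw [this, Real.exp_neg, Real.exp_log hn', one_div]
    rw [mul_pow, mul_pow, h1]
    ring

private lemma Prime_term2 (n : ℕ) (y w : ℝ) :
    ArithmeticFunction.vonMangoldt n *
        (Real.exp (-(y / 2)) * (w ^ 2 * Real.exp (-(Real.log n - y) - 1))) =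
      Real.exp (y / 2 - 1) * (ArithmeticFunction.vonMangoldt n / n * w ^ 2) := by
  rcases Nat.eq_zero_or_pos n with rfl | hn
  · simp
  · have hn' : (0 : ℝ) < n := by exact_mod_cast hn
    have h1 : Real.exp (-(y / 2)) * Real.exp (-(Real.log n - y) - 1) =
        Real.exp (y / 2 - 1) * (1 / n) := by
      have e1 : (1 : ℝ) / n = Real.exp (-Real.log n) := by
        rw [Real.exp_neg, Real.exp_log hn', one_div]
      rw [e1, ← Real.exp_add, ← Real.exp_add]
      congr 1
      ring
    calc _ = ArithmeticFunction.vonMangoldt n * w ^ 2 *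
          (Real.exp (-(y / 2)) * Real.exp (-(Real.log n - y) - 1)) := by ring
      _ = _ := by rw [h1]; ring

private lemma Prime_psi (hRH : RiemannHypothesis) {W : ℝ → ℝ} {s : ℝ} (hW : EB W s)
    (hs : s ≤ 3 / 4) : ∃ C : ℝ, 0 ≤ C ∧ ∀ y : ℝ, 2 ≤ y →
      |(∑ n ∈ Finset.range (⌈Real.exp (y + 1)⌉₊ + 1),
          ArithmeticFunction.vonMangoldt n / n * W (Real.log n - y) ^ 2) - ∫ u, W u ^ 2| ≤
        C * Real.exp (1 - y / 2) := by
  have hsupp : ∀ u, 3 / 4 ≤ |u| → W u = 0 := fun u hu => hW.supp u (hs.trans hu)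
  obtain ⟨C, hC, h⟩ := psi_RH hRH (W := fun v => W v ^ 2 * Real.exp (-v - 1))
    ((hW.smooth.pow 2).mul (Real.contDiff_exp.comp (contDiff_neg.sub contDiff_const)))
    (fun u => mul_nonneg (sq_nonneg _) (Real.exp_pos _).le)
    (fun u => by
      by_cases hu : 3 / 4 ≤ |u|
      · simp [hsupp u hu]
      · have hu' := abs_lt.1 (not_le.1 hu)
        have h1 : W u ^ 2 ≤ 1 := pow_le_one₀ (hW.nonneg u) (hW.le_one u)
        have h2 : Real.exp (-u - 1) ≤ 1 := Real.exp_le_one_iff.2 (by linarith [hu'.1])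
        exact mul_le_one₀ h1 (Real.exp_pos _).le h2)
    (fun u hu => by simp [hsupp u hu])
  refine ⟨C, hC, fun y hy => ?_⟩
  have h1 := h y hy
  have hint : (∫ v in (-1 : ℝ)..1, W v ^ 2 * Real.exp (-v - 1) * Real.exp v) =
      Real.exp (-1) * ∫ u, W u ^ 2 := by
    have e1 : (∫ v in (-1 : ℝ)..1, W v ^ 2 * Real.exp (-v - 1) * Real.exp v) =
        ∫ v in (-1 : ℝ)..1, Real.exp (-1) * W v ^ 2 := by
      apply intervalIntegral.integral_congr
      intro v _
      show W v ^ 2 * Real.exp (-v - 1) * Real.exp v = Real.exp (-1) * W v ^ 2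
      rw [mul_assoc, ← Real.exp_add]
      have : -v - 1 + v = -1 := by ring
      rw [this]
      ring
    rw [e1, intervalIntegral.integral_const_mul]
    congr 1
    rw [intervalIntegral.integral_of_le (by norm_num)]
    apply setIntegral_eq_integral_of_forall_compl_eq_zero
    intro u hu
    have : 3 / 4 ≤ |u| := by
      by_contra hcon
      have hu' := abs_lt.1 (not_le.1 hcon)
      exact hu ⟨by linarith [hu'.1], by linarith [hu'.2]⟩
    rw [hsupp u this]
    ring
  rw [hint] at h1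
  set N := ⌈Real.exp (y + 1)⌉₊ + 1 with hN
  have hsum : (∑' n : ℕ, ((ArithmeticFunction.vonMangoldt n : ℝ) : ℂ) *
        ((Real.exp (-(y / 2)) * ((fun v => W v ^ 2 * Real.exp (-v - 1)) (Real.log n - y)) : ℝ) : ℂ)) =
      ((Real.exp (y / 2 - 1) * ∑ n ∈ Finset.range N,
        ArithmeticFunction.vonMangoldt n / n * W (Real.log n - y) ^ 2 : ℝ) : ℂ) := by
    rw [tsum_eq_sum (s := Finset.range N)]
    · rw [Finset.mul_sum, Complex.ofReal_sum]
      apply Finset.sum_congr rfl
      intro n _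
      have := Prime_term2 n y (W (Real.log n - y))
      rw [← Complex.ofReal_mul]
      exact congrArg _ this
    · intro n hn
      have := Prime_supp hW hs (le_refl y) hn
      simp [this]
  rw [hsum] at h1
  set A := ∑ n ∈ Finset.range N, ArithmeticFunction.vonMangoldt n / n * W (Real.log n - y) ^ 2
    with hA
  set J := ∫ u, W u ^ 2 with hJ
  rw [← Complex.ofReal_sub, Complex.norm_real, Real.norm_eq_abs] at h1
  have h2 : Real.exp (y / 2 - 1) * A - Real.exp (y / 2) * (Real.exp (-1) * J) =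
      Real.exp (y / 2 - 1) * (A - J) := by
    rw [← mul_assoc, ← Real.exp_add]
    have : y / 2 + -1 = y / 2 - 1 := by ring
    rw [this]
    ring
  rw [h2, abs_mul, abs_of_pos (Real.exp_pos _)] at h1
  have h3 : Real.exp (1 - y / 2) * Real.exp (y / 2 - 1) = 1 := by
    rw [← Real.exp_add]
    have : 1 - y / 2 + (y / 2 - 1) = 0 := by ring
    rw [this, Real.exp_zero]
  calc |A - J| = Real.exp (1 - y / 2) * (Real.exp (y / 2 - 1) * |A - J|) := by
        rw [← mul_assoc, h3, one_mul]
    _ ≤ Real.exp (1 - y / 2) * C := mul_le_mul_of_nonneg_left h1 (Real.exp_pos _).le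
    _ = _ := by ring

theorem prime_sq (hRH : RiemannHypothesis) {W : ℝ → ℝ} {s : ℝ} (hW : EB W s) (hs : s ≤ 3 / 4) :
    ∃ C : ℝ, 0 ≤ C ∧ ∀ y : ℝ, 0 ≤ y →
      |(∑' n : ℕ, (ArithmeticFunction.vonMangoldt n * Real.exp (-(Real.log n / 2)) * W (Real.log n - y)) ^ 2) -
        y * ∫ u, W u ^ 2| ≤ C := by
  obtain ⟨C, hC, hpsi⟩ := Prime_psi hRH hW hs
  set J := ∫ u, W u ^ 2 with hJ
  have hJ0 : 0 ≤ J := integral_nonneg fun u => sq_nonneg _
  set D := ∑' n : ℕ, (ArithmeticFunction.vonMangoldt n * Real.log n -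
    ArithmeticFunction.vonMangoldt n ^ 2) / n with hD
  have hD0 : 0 ≤ D := tsum_nonneg fun n => div_nonneg (pp_nonneg n) (Nat.cast_nonneg n)
  set E := ∑ n ∈ Finset.range (⌈Real.exp (2 + 1)⌉₊ + 1), ArithmeticFunction.vonMangoldt n ^ 2 with hE
  have hE0 : 0 ≤ E := Finset.sum_nonneg fun n _ => sq_nonneg _
  have hw2 : ∀ u, W u ^ 2 ≤ 1 := fun u => pow_le_one₀ (hW.nonneg u) (hW.le_one u)
  refine ⟨D + 3 / 4 * (J + C) + 2 * C + E + 2 * J, by positivity, fun y hy => ?_⟩
  rcases le_or_gt 2 y with h2 | h2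
  · set N := ⌈Real.exp (y + 1)⌉₊ + 1 with hN
    have hS : (∑' n : ℕ, (ArithmeticFunction.vonMangoldt n * Real.exp (-(Real.log n / 2)) *
        W (Real.log n - y)) ^ 2) = ∑ n ∈ Finset.range N,
          ArithmeticFunction.vonMangoldt n ^ 2 / n * W (Real.log n - y) ^ 2 := by
      rw [tsum_eq_sum (s := Finset.range N)]
      · exact Finset.sum_congr rfl fun n _ => Prime_term n _
      · intro n hn
        have := Prime_supp hW hs (le_refl y) hn
        simp [this]
    rw [hS]
    set A := ∑ n ∈ Finset.range N, ArithmeticFunction.vonMangoldt n / n * W (Real.log n - y) ^ 2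
      with hA
    set B := ∑ n ∈ Finset.range N, ArithmeticFunction.vonMangoldt n * Real.log n / n *
      W (Real.log n - y) ^ 2 with hB
    set Q := ∑ n ∈ Finset.range N, ArithmeticFunction.vonMangoldt n ^ 2 / n *
      W (Real.log n - y) ^ 2 with hQ
    have hA1 : |A - J| ≤ C * Real.exp (1 - y / 2) := hpsi y h2
    have hexp : Real.exp (1 - y / 2) ≤ 1 := Real.exp_le_one_iff.2 (by linarith)
    have hA2 : A ≤ J + C := by
      have h3 := (abs_le.1 hA1).2
      have h4 : C * Real.exp (1 - y / 2) ≤ C * 1 := mul_le_mul_of_nonneg_left hexp hC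
      linarith
    have hyexp : y * Real.exp (1 - y / 2) ≤ 2 := by
      have h3 : y / 2 ≤ Real.exp (y / 2 - 1) := by
        have := Real.add_one_le_exp (y / 2 - 1)
        linarith
      have h4 : Real.exp (1 - y / 2) * Real.exp (y / 2 - 1) = 1 := by
        rw [← Real.exp_add]
        have : 1 - y / 2 + (y / 2 - 1) = 0 := by ring
        rw [this, Real.exp_zero]
      have h5 := mul_le_mul_of_nonneg_left h3 (Real.exp_pos (1 - y / 2)).le
      rw [h4] at h5
      linarith
    have hBA : |B - y * A| ≤ 3 / 4 * A := by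
      rw [hB, hA, Finset.mul_sum, Finset.mul_sum, ← Finset.sum_sub_distrib]
      refine (Finset.abs_sum_le_sum_abs _ _).trans (Finset.sum_le_sum fun n _ => ?_)
      have e1 : ArithmeticFunction.vonMangoldt n * Real.log n / n * W (Real.log n - y) ^ 2 -
          y * (ArithmeticFunction.vonMangoldt n / n * W (Real.log n - y) ^ 2) =
          (Real.log n - y) * (ArithmeticFunction.vonMangoldt n / n * W (Real.log n - y) ^ 2) := by
        ring
      have h0 : 0 ≤ ArithmeticFunction.vonMangoldt n / n * W (Real.log n - y) ^ 2 :=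
        mul_nonneg (div_nonneg ArithmeticFunction.vonMangoldt_nonneg (Nat.cast_nonneg n))
          (sq_nonneg _)
      rw [e1, abs_mul, abs_of_nonneg h0]
      by_cases hu : 3 / 4 ≤ |Real.log n - y|
      · have := hW.supp _ (hs.trans hu)
        simp [this]
      · exact mul_le_mul_of_nonneg_right (not_le.1 hu).le h0
    have hQB : |Q - B| ≤ D := by
      have e1 : B - Q = ∑ n ∈ Finset.range N, (ArithmeticFunction.vonMangoldt n * Real.log n -
          ArithmeticFunction.vonMangoldt n ^ 2) / n * W (Real.log n - y) ^ 2 := by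
        rw [hB, hQ, ← Finset.sum_sub_distrib]
        exact Finset.sum_congr rfl fun n _ => by ring
      have h3 : 0 ≤ B - Q := by
        rw [e1]
        exact Finset.sum_nonneg fun n _ =>
          mul_nonneg (div_nonneg (pp_nonneg n) (Nat.cast_nonneg n)) (sq_nonneg _)
      have h4 : B - Q ≤ D := by
        rw [e1]
        refine le_trans (Finset.sum_le_sum fun n _ => ?_)
          (pp_summable.sum_le_tsum (Finset.range N)
            (fun n _ => div_nonneg (pp_nonneg n) (Nat.cast_nonneg n)))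
        exact mul_le_of_le_one_right (div_nonneg (pp_nonneg n) (Nat.cast_nonneg n)) (hw2 _)
      rw [abs_sub_comm, abs_of_nonneg h3]
      exact h4
    have hyA : |y * A - y * J| ≤ 2 * C := by
      rw [← mul_sub, abs_mul, abs_of_nonneg hy]
      calc y * |A - J| ≤ y * (C * Real.exp (1 - y / 2)) := mul_le_mul_of_nonneg_left hA1 hy
        _ = C * (y * Real.exp (1 - y / 2)) := by ring
        _ ≤ C * 2 := mul_le_mul_of_nonneg_left hyexp hC
        _ = 2 * C := by ring
    have htri : |Q - y * J| ≤ |Q - B| + |B - y * A| + |y * A - y * J| := by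
      have : Q - y * J = (Q - B) + (B - y * A) + (y * A - y * J) := by ring
      rw [this]
      exact (abs_add_le _ _).trans (add_le_add_left (abs_add_le _ _) _)
    linarith
  · have hS : (∑' n : ℕ, (ArithmeticFunction.vonMangoldt n * Real.exp (-(Real.log n / 2)) *
        W (Real.log n - y)) ^ 2) = ∑ n ∈ Finset.range (⌈Real.exp (2 + 1)⌉₊ + 1),
          ArithmeticFunction.vonMangoldt n ^ 2 / n * W (Real.log n - y) ^ 2 := by
      rw [tsum_eq_sum (s := Finset.range (⌈Real.exp (2 + 1)⌉₊ + 1))]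
      · exact Finset.sum_congr rfl fun n _ => Prime_term n _
      · intro n hn
        have := Prime_supp hW hs h2.le hn
        simp [this]
    rw [hS]
    have h3 : (∑ n ∈ Finset.range (⌈Real.exp (2 + 1)⌉₊ + 1),
          ArithmeticFunction.vonMangoldt n ^ 2 / n * W (Real.log n - y) ^ 2) ≤ E := by
      refine Finset.sum_le_sum fun n _ => ?_
      have h4 : ArithmeticFunction.vonMangoldt n ^ 2 / (n : ℝ) ≤
          ArithmeticFunction.vonMangoldt n ^ 2 := by
        rcases Nat.eq_zero_or_pos n with rfl | hn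
        · simp
        · exact div_le_self (sq_nonneg _) (by exact_mod_cast hn)
      have h5 : 0 ≤ ArithmeticFunction.vonMangoldt n ^ 2 / (n : ℝ) :=
        div_nonneg (sq_nonneg _) (Nat.cast_nonneg n)
      exact (mul_le_of_le_one_right h5 (hw2 _)).trans h4
    have h4 : 0 ≤ ∑ n ∈ Finset.range (⌈Real.exp (2 + 1)⌉₊ + 1),
          ArithmeticFunction.vonMangoldt n ^ 2 / n * W (Real.log n - y) ^ 2 :=
      Finset.sum_nonneg fun n _ => mul_nonneg
        (div_nonneg (sq_nonneg _) (Nat.cast_nonneg n)) (sq_nonneg _)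
    have h5 : 0 ≤ y * J := mul_nonneg hy hJ0
    have h6 : y * J ≤ 2 * J := mul_le_mul_of_nonneg_right h2.le hJ0
    rw [abs_le]
    constructor <;> linarith

end Pool.Agent.Lib.MP_00e05b_nt.Mont
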