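import Pool.Agent.Lib.MP_00e05b_nt.Mont.Trunc0

/-!
# JOB Trunc: from the ordinates in `(0, T]` to all zeros and `t ∈ [0, T]`

* For `0 ≤ t ≤ T`: `‖AA‖ ≤ C log (2 + T)` (`AA_le`), `‖BB‖ ≤ C log (2 + T)` (`BB_out` with `d = 0`), `AB_diff`. Therefore
  `∫_0^T |‖BB‖² - ‖AA‖²| ≤ ∫_0^T ‖AA - BB‖ (‖AA‖ + ‖BB‖) ≤ C log² (2+T) ∫_0^T (1/(1+t) + 1/(1+T-t)) dt ≤ C log³ (2 + T)`.
* For `t > T` use `BB_out` with `d = t - T`, for `t < 0` with `d = -t`:
  `∫_{t ∉ [0,T]} ‖BB‖² ≤ 2 C ∫_0^∞ log² (2 + T + d)/(1 + d)² dd ≤ C' log² (2 + T)`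
  (`log (2 + T + d) ≤ log (2 + T) + log (1 + d) ≤ 2 log (2 + T) (1 + d)^{1/4}`-type bound).
* `∫_ℝ ‖BB‖² = ∫_0^T + ∫_{(-∞,0)} + ∫_{(T,∞)}` (integrability: `planch`); `log (2 + T) ≤ 2 log T + ...`: for `T ≥ 2`,
  `2 + T ≤ T^2` so `log (2 + T) ≤ 2 log T`.
-/

open Complex Set Filter Topology MeasureTheory
open scoped ContDiff

namespace Pool.Agent.Lib.MP_00e05b_nt.Mont

private noncomputable def TruncPhi : ℝ → ℝ := (Ici (1 : ℝ)).indicator (fun x => x ^ (-(3 / 2) : ℝ))

private theorem TruncPhi_int : Integrable TruncPhi := by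
  unfold TruncPhi
  rw [integrable_indicator_iff measurableSet_Ici, integrableOn_Ici_iff_integrableOn_Ioi]
  exact integrableOn_Ioi_rpow_of_lt (by norm_num) one_pos

private theorem TruncPhi_val : ∫ x, TruncPhi x = 2 := by
  unfold TruncPhi
  rw [integral_indicator measurableSet_Ici, integral_Ici_eq_integral_Ioi, integral_Ioi_rpow_of_lt (by norm_num) one_pos,
    Real.one_rpow]
  norm_num

private theorem TruncPhi_nonneg (x : ℝ) : 0 ≤ TruncPhi x := by
  unfold TruncPhi
  apply indicator_nonneg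
  intro x hx
  have h1 : (1 : ℝ) ≤ x := hx
  exact Real.rpow_nonneg (by linarith) _

private theorem Trunc_tail {l x : ℝ} (hl : 1 ≤ l) (hx : 1 ≤ x) : ((l + Real.log x) / x) ^ 2 ≤ 25 * l ^ 2 * TruncPhi x := by
  have hx0 : 0 < x := by linarith
  have h1 : Real.log x ≤ 4 * x ^ (1 / 4 : ℝ) := by
    have h2 := Real.log_le_rpow_div hx0.le (show (0 : ℝ) < 1 / 4 by norm_num)
    linarith
  have h3 : (1 : ℝ) ≤ x ^ (1 / 4 : ℝ) := Real.one_le_rpow hx (by norm_num)
  have h4 : 0 ≤ Real.log x := Real.log_nonneg hx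
  have h5 : l + Real.log x ≤ 5 * l * x ^ (1 / 4 : ℝ) := by nlinarith
  have h6 : (l + Real.log x) ^ 2 ≤ 25 * l ^ 2 * x ^ (1 / 2 : ℝ) := by
    have h7 : (x ^ (1 / 4 : ℝ)) ^ 2 = x ^ (1 / 2 : ℝ) := by
      rw [← Real.rpow_natCast, ← Real.rpow_mul hx0.le]
      norm_num
    calc (l + Real.log x) ^ 2 ≤ (5 * l * x ^ (1 / 4 : ℝ)) ^ 2 := pow_le_pow_left₀ (by linarith) h5 2
      _ = 25 * l ^ 2 * (x ^ (1 / 4 : ℝ)) ^ 2 := by ring
      _ = 25 * l ^ 2 * x ^ (1 / 2 : ℝ) := by rw [h7]
  have h8 : TruncPhi x = x ^ (-(3 / 2) : ℝ) := by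
    unfold TruncPhi
    rw [indicator_of_mem (show x ∈ Ici (1 : ℝ) from hx)]
  have h9 : x ^ (-(3 / 2) : ℝ) * x ^ 2 = x ^ (1 / 2 : ℝ) := by
    rw [← Real.rpow_natCast x 2, ← Real.rpow_add hx0]
    norm_num
  rw [div_pow, div_le_iff₀ (by positivity), h8, mul_assoc, h9]
  exact h6

private theorem Trunc_log {T d : ℝ} (hT : 2 ≤ T) (hd : 0 ≤ d) : Real.log (2 + (T + d)) ≤ Real.log (2 + T) + Real.log (1 + d) := by
  rw [← Real.log_mul (by linarith) (by linarith)]
  apply Real.log_le_log (by linarith)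
  nlinarith

private theorem Trunc_int1 {T : ℝ} (hT : 2 ≤ T) : ∫ t in (0 : ℝ)..T, 1 / (1 + t) = Real.log (1 + T) := by
  have h := intervalIntegral.integral_comp_add_left (a := 0) (b := T) (fun x : ℝ => 1 / x) 1
  rw [h, integral_one_div_of_pos (by norm_num) (by linarith)]
  norm_num

private theorem Trunc_int2 {T : ℝ} (hT : 2 ≤ T) : ∫ t in (0 : ℝ)..T, 1 / (1 + (T - t)) = Real.log (1 + T) := by
  have h := intervalIntegral.integral_comp_sub_left (a := 0) (b := T) (fun x : ℝ => 1 / (1 + x)) T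
  rw [h, sub_self, sub_zero]
  exact Trunc_int1 hT

private theorem Trunc_ii1 {T : ℝ} (hT : 2 ≤ T) : IntervalIntegrable (fun t : ℝ => 1 / (1 + t)) volume 0 T := by
  apply ContinuousOn.intervalIntegrable
  intro t ht
  rw [uIcc_of_le (by linarith)] at ht
  have h1 : 1 + t ≠ 0 := by
    have := ht.1
    linarith
  exact ((continuousAt_const.add continuousAt_id).inv₀ h1 |>.congr (Eventually.of_forall fun x => by simp)).continuousWithinAt

private theorem Trunc_ii2 {T : ℝ} (hT : 2 ≤ T) : IntervalIntegrable (fun t : ℝ => 1 / (1 + (T - t))) volume 0 T := by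
  apply ContinuousOn.intervalIntegrable
  intro t ht
  rw [uIcc_of_le (by linarith)] at ht
  have h1 : 1 + (T - t) ≠ 0 := by
    have := ht.2
    linarith
  exact ((continuousAt_const.add (continuousAt_const.sub continuousAt_id)).inv₀ h1 |>.congr
    (Eventually.of_forall fun x => by simp)).continuousWithinAt

theorem trunc (hRH : RiemannHypothesis) {W : ℝ → ℝ} {s : ℝ} (hW : ES W s) (hs : s ≤ 3 / 4) :
    ∃ C : ℝ, 0 ≤ C ∧ ∀ T y : ℝ, 2 ≤ T →
      |(∫ t : ℝ, ‖BB W T t y‖ ^ 2) - ∫ t in (0 : ℝ)..T, ‖AA W t y‖ ^ 2| ≤ C * Real.log T ^ 3 := by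
  obtain ⟨CA, hCA, hA⟩ := AA_le hRH hW hs
  obtain ⟨CB, hCB, hB⟩ := BB_out hRH hW hs
  obtain ⟨CD, hCD, hD⟩ := AB_diff hRH hW hs
  refine ⟨8 * (2 * (CD * (CA + CB)) + 4 * (25 * CB ^ 2)), by positivity, fun T y hT => ?_⟩
  set l := Real.log (2 + T) with hl
  have hl1 : 1 ≤ l := by
    rw [hl, Real.le_log_iff_exp_le (by linarith)]
    have := Real.exp_one_lt_d9
    linarith
  have hl2 : l ≤ 2 * Real.log T := by
    have h1 : Real.log (T ^ 2) = 2 * Real.log T := by
      rw [Real.log_pow]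
      norm_num
    rw [← h1, hl]
    apply Real.log_le_log (by linarith)
    nlinarith
  -- the dominating function
  set G : ℝ → ℝ := fun t => (Ioc 0 T).indicator (fun t => (CD * (CA + CB) * l ^ 2) * (1 / (1 + t) + 1 / (1 + (T - t)))) t +
    (25 * CB ^ 2 * l ^ 2) * (TruncPhi (t - (T - 1)) + TruncPhi (1 - t)) with hG
  have hG1 : Integrable ((Ioc 0 T).indicator (fun t => (CD * (CA + CB) * l ^ 2) * (1 / (1 + t) + 1 / (1 + (T - t))))) := by
    rw [integrable_indicator_iff measurableSet_Ioc]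
    have h1 := ((Trunc_ii1 hT).add (Trunc_ii2 hT)).const_mul (CD * (CA + CB) * l ^ 2)
    rw [intervalIntegrable_iff_integrableOn_Ioc_of_le (by linarith)] at h1
    exact h1
  have hG2 : Integrable (fun t => (25 * CB ^ 2 * l ^ 2) * (TruncPhi (t - (T - 1)) + TruncPhi (1 - t))) :=
    ((TruncPhi_int.comp_sub_right (T - 1)).add (TruncPhi_int.comp_sub_left 1)).const_mul _
  have hGint : Integrable G := hG1.add hG2
  have hGval : ∫ t, G t = (CD * (CA + CB) * l ^ 2) * (2 * Real.log (1 + T)) + (25 * CB ^ 2 * l ^ 2) * 4 := by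
    rw [hG, integral_add hG1 hG2, integral_indicator measurableSet_Ioc, ← intervalIntegral.integral_of_le (by linarith),
      intervalIntegral.integral_const_mul, intervalIntegral.integral_add (Trunc_ii1 hT) (Trunc_ii2 hT), Trunc_int1 hT,
      Trunc_int2 hT, integral_const_mul, integral_add (TruncPhi_int.comp_sub_right (T - 1)) (TruncPhi_int.comp_sub_left 1),
      integral_sub_right_eq_self, integral_sub_left_eq_self, TruncPhi_val]
    ring
  have hBint := (planch hW T y).1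
  have hAint : Integrable ((Ioc 0 T).indicator (fun t => ‖AA W t y‖ ^ 2)) := by
    rw [integrable_indicator_iff measurableSet_Ioc]
    have h1 : Continuous (fun t => ‖AA W t y‖ ^ 2) := (AA_continuous hW hs y).norm.pow 2
    exact (h1.integrableOn_Icc).mono_set Ioc_subset_Icc_self
  have hAval : ∫ t in (0 : ℝ)..T, ‖AA W t y‖ ^ 2 = ∫ t, (Ioc 0 T).indicator (fun t => ‖AA W t y‖ ^ 2) t := by
    rw [integral_indicator measurableSet_Ioc, intervalIntegral.integral_of_le (by linarith)]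
  have hB2 : ∀ (t x : ℝ), 1 ≤ x → Real.log (2 + |t|) ≤ l + Real.log x → (∀ z : ℝ, 0 < z → z ≤ T → x - 1 ≤ |t - z|) →
      ‖BB W T t y‖ ^ 2 ≤ (25 * CB ^ 2 * l ^ 2) * TruncPhi x := by
    intro t x hx hlog hz
    have h1 := hB T t y (x - 1) (by linarith) hz
    have e : 1 + (x - 1) = x := by ring
    rw [e] at h1
    have hx0 : 0 < x := by linarith
    have h2 : ‖BB W T t y‖ ≤ CB * ((l + Real.log x) / x) := by
      refine h1.trans ?_
      rw [mul_div_assoc]
      apply mul_le_mul_of_nonneg_left _ hCB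
      exact div_le_div_of_nonneg_right hlog hx0.le
    have h3 := Trunc_tail hl1 hx
    calc ‖BB W T t y‖ ^ 2 ≤ (CB * ((l + Real.log x) / x)) ^ 2 := pow_le_pow_left₀ (norm_nonneg _) h2 2
      _ = CB ^ 2 * ((l + Real.log x) / x) ^ 2 := by ring
      _ ≤ CB ^ 2 * (25 * l ^ 2 * TruncPhi x) := mul_le_mul_of_nonneg_left h3 (by positivity)
      _ = _ := by ring
  have hpt : ∀ t, ‖‖BB W T t y‖ ^ 2 - (Ioc 0 T).indicator (fun t => ‖AA W t y‖ ^ 2) t‖ ≤ G t := by
    intro t
    rw [Real.norm_eq_abs, hG]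
    dsimp only
    have hφ1 := TruncPhi_nonneg (t - (T - 1))
    have hφ2 := TruncPhi_nonneg (1 - t)
    have hK : 0 ≤ 25 * CB ^ 2 * l ^ 2 := by positivity
    by_cases ht : t ∈ Ioc 0 T
    · rw [indicator_of_mem ht, indicator_of_mem ht]
      have ht0 : 0 < t := ht.1
      have htT : t ≤ T := ht.2
      have habs : |t| = t := abs_of_pos ht0
      have hlogt : Real.log (2 + t) ≤ l := Real.log_le_log (by linarith) (by linarith)
      have hlogt0 : 0 ≤ Real.log (2 + t) := Real.log_nonneg (by linarith)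
      have h1 : ‖AA W t y‖ ≤ CA * l := by
        have h := hA t y
        rw [habs] at h
        exact h.trans (mul_le_mul_of_nonneg_left hlogt hCA)
      have h2 : ‖BB W T t y‖ ≤ CB * l := by
        have h := hB T t y 0 le_rfl (fun x _ _ => abs_nonneg _)
        rw [habs, add_zero, div_one] at h
        exact h.trans (mul_le_mul_of_nonneg_left hlogt hCB)
      have h3 : ‖AA W t y - BB W T t y‖ ≤ CD * l * (1 / (1 + t) + 1 / (1 + (T - t))) := by
        have h := hD T t y ht0.le htT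
        have hTt : 0 ≤ T - t := by linarith
        refine h.trans (mul_le_mul_of_nonneg_right (mul_le_mul_of_nonneg_left hlogt hCD) (by positivity))
      have h4 : |‖BB W T t y‖ ^ 2 - ‖AA W t y‖ ^ 2| ≤ ‖AA W t y - BB W T t y‖ * (‖AA W t y‖ + ‖BB W T t y‖) := by
        have e : ‖BB W T t y‖ ^ 2 - ‖AA W t y‖ ^ 2 = (‖BB W T t y‖ - ‖AA W t y‖) * (‖AA W t y‖ + ‖BB W T t y‖) := by ring
        rw [e, abs_mul, abs_of_nonneg (add_nonneg (norm_nonneg (AA W t y)) (norm_nonneg (BB W T t y)))]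
        apply mul_le_mul_of_nonneg_right _ (by positivity)
        rw [norm_sub_rev]
        exact abs_norm_sub_norm_le _ _
      have hTt : 0 ≤ T - t := by linarith
      have h5 : ‖AA W t y - BB W T t y‖ * (‖AA W t y‖ + ‖BB W T t y‖) ≤
          (CD * l * (1 / (1 + t) + 1 / (1 + (T - t)))) * (CA * l + CB * l) := by
        apply mul_le_mul h3 (add_le_add h1 h2) (by positivity)
        positivity
      calc |‖BB W T t y‖ ^ 2 - ‖AA W t y‖ ^ 2| ≤ (CD * l * (1 / (1 + t) + 1 / (1 + (T - t)))) * (CA * l + CB * l) := h4.trans h5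
        _ = (CD * (CA + CB) * l ^ 2) * (1 / (1 + t) + 1 / (1 + (T - t))) := by ring
        _ ≤ _ := le_add_of_nonneg_right (mul_nonneg hK (add_nonneg hφ1 hφ2))
    · rw [indicator_of_notMem ht, indicator_of_notMem ht, sub_zero, zero_add, abs_of_nonneg (by positivity)]
      rw [mem_Ioc, not_and_or, not_lt, not_le] at ht
      rcases ht with ht | ht
      · have h1 := hB2 t (1 - t) (by linarith) (by
          rw [abs_of_nonpos ht]
          have h2 := Trunc_log hT (show 0 ≤ -t by linarith)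
          have h3 : Real.log (2 + -t) ≤ Real.log (2 + (T + -t)) := Real.log_le_log (by linarith) (by linarith)
          have e : 1 - t = 1 + -t := by ring
          rw [e, hl]
          exact h3.trans h2) (fun z hz _ => by
          rw [abs_sub_comm]
          exact le_trans (by linarith) (le_abs_self _))
        refine h1.trans (mul_le_mul_of_nonneg_left (by linarith) hK)
      · have h1 := hB2 t (t - (T - 1)) (by linarith) (by
          rw [abs_of_pos (by linarith)]
          have h2 := Trunc_log hT (show 0 ≤ t - T by linarith)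
          have e : t - (T - 1) = 1 + (t - T) := by ring
          have e2 : T + (t - T) = t := by ring
          rw [e2] at h2
          rw [e, hl]
          exact h2) (fun z _ hz => le_trans (by linarith) (le_abs_self _))
        refine h1.trans (mul_le_mul_of_nonneg_left (by linarith) hK)
  have hmain := norm_integral_le_of_norm_le hGint (Eventually.of_forall hpt)
  rw [integral_sub hBint hAint, ← hAval, Real.norm_eq_abs, hGval] at hmain
  refine hmain.trans ?_
  have hlog1 : Real.log (1 + T) ≤ l := Real.log_le_log (by linarith) (by linarith)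
  have hlT : 0 ≤ Real.log T := Real.log_nonneg (by linarith)
  have hK1 : 0 ≤ CD * (CA + CB) := by positivity
  have hK2 : 0 ≤ 25 * CB ^ 2 := by positivity
  have hl3 : l ^ 3 ≤ 8 * Real.log T ^ 3 := by
    calc l ^ 3 ≤ (2 * Real.log T) ^ 3 := pow_le_pow_left₀ (by linarith) hl2 3
      _ = 8 * Real.log T ^ 3 := by ring
  have hl23 : l ^ 2 ≤ l ^ 3 := pow_le_pow_right₀ hl1 (by norm_num)
  calc (CD * (CA + CB) * l ^ 2) * (2 * Real.log (1 + T)) + (25 * CB ^ 2 * l ^ 2) * 4
      ≤ (CD * (CA + CB) * l ^ 2) * (2 * l) + (25 * CB ^ 2 * l ^ 3) * 4 := by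
        apply add_le_add
        · exact mul_le_mul_of_nonneg_left (by linarith) (by positivity)
        · exact mul_le_mul_of_nonneg_right (mul_le_mul_of_nonneg_left hl23 hK2) (by norm_num)
    _ = (2 * (CD * (CA + CB)) + 4 * (25 * CB ^ 2)) * l ^ 3 := by ring
    _ ≤ (2 * (CD * (CA + CB)) + 4 * (25 * CB ^ 2)) * (8 * Real.log T ^ 3) := mul_le_mul_of_nonneg_left hl3 (by positivity)
    _ = 8 * (2 * (CD * (CA + CB)) + 4 * (25 * CB ^ 2)) * Real.log T ^ 3 := by ring

end Pool.Agent.Lib.MP_00e05b_nt.Mont
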