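import Pool.Agent.Lib.MP_00e05b_nt.Mont.EF
import Pool.Agent.Lib.MP_00e05b_nt.Mont.Trunc
import Pool.Agent.Lib.MP_00e05b_nt.Mont.MV
import Pool.Agent.Lib.MP_00e05b_nt.Mont.Prime

/-!
# JOB Local: local averages of `‖SS T u‖²`

`PP W t y = ∑_{n ∈ S} a_n e^{-it log n}` (`PP_finite`) with `X = e^{y + s}`. Let `L = log T`, `Q = ∑ a_n² = y ∫ W² + O(1)`
(`prime_sq`).

Let `u0 ≤ y ≤ (1 - δ) L`. `mv1`: `∫_0^T ‖PP‖² = T Q + O(X (1 + log X) Q) = T y ∫ W² + O(T) + O(T^{1-δ} L²)`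
(uniformly in `y`). `ef`: `‖AA + e^{ity} PP‖²_{L²(0,T)} ≤ C e^y ≤ C T^{1-δ}`. By the triangle inequality in `L²(0,T)`
`|‖AA‖ - ‖PP‖| ≤ C T^{(1-δ)/2}` (norms in `L²(0,T)`; or pointwise `|‖a‖² - ‖p‖²| ≤ η ‖p‖² + (1 + 1/η) ‖a + e p‖²` with
`|e| = 1` and a small constant `η`), so `∫_0^T ‖AA‖² = T y ∫ W² + o(T L)` uniformly in `y`. `trunc` and `planch`:
`2π ∫ W(u-y)² ‖SS T u‖² du = ∫_0^T ‖AA‖² + O(L³)`. Divide by `2π N0 T = T L`.
-/

open Complex Set Filter Topology MeasureTheory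
open scoped ContDiff

namespace Pool.Agent.Lib.MP_00e05b_nt.Mont

private lemma local_pt (a p e : ℂ) (he : ‖e‖ = 1) {η : ℝ} (hη : 0 < η) :
    |‖a‖ ^ 2 - ‖p‖ ^ 2| ≤ η * ‖p‖ ^ 2 + (1 + 1 / η) * ‖a + e * p‖ ^ 2 := by
  set d := a + e * p with hd
  have hp : ‖e * p‖ = ‖p‖ := by rw [norm_mul, he, one_mul]
  have h1 : ‖a‖ ≤ ‖d‖ + ‖p‖ := by
    have h : a = d - e * p := by rw [hd]; ring
    calc ‖a‖ = ‖d - e * p‖ := by rw [← h]
      _ ≤ ‖d‖ + ‖e * p‖ := norm_sub_le _ _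
      _ = ‖d‖ + ‖p‖ := by rw [hp]
  have h2 : ‖p‖ ≤ ‖d‖ + ‖a‖ := by
    have h : e * p = d - a := by rw [hd]; ring
    calc ‖p‖ = ‖e * p‖ := hp.symm
      _ = ‖d - a‖ := by rw [h]
      _ ≤ ‖d‖ + ‖a‖ := norm_sub_le _ _
  have h3 : 0 ≤ ‖a‖ := norm_nonneg _
  have h4 : 0 ≤ ‖p‖ := norm_nonneg _
  have h5 : 0 ≤ ‖d‖ := norm_nonneg _
  have h6 : 2 * ‖d‖ * ‖p‖ ≤ η * ‖p‖ ^ 2 + 1 / η * ‖d‖ ^ 2 := by
    have h7 : 0 ≤ (η * ‖p‖ - ‖d‖) ^ 2 / η := by positivity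
    have h8 : (η * ‖p‖ - ‖d‖) ^ 2 / η = η * ‖p‖ ^ 2 + 1 / η * ‖d‖ ^ 2 - 2 * ‖d‖ * ‖p‖ := by
      field_simp
      ring
    linarith
  rw [abs_le]
  constructor
  · -- p² - a² ≤ ...
    have h9 : ‖p‖ ^ 2 - ‖a‖ ^ 2 ≤ 2 * ‖d‖ * ‖p‖ := by
      by_cases hc : ‖d‖ ≤ ‖p‖
      · have h10 : ‖p‖ - ‖d‖ ≤ ‖a‖ := by linarith
        have h11 : (‖p‖ - ‖d‖) ^ 2 ≤ ‖a‖ ^ 2 := by
          apply pow_le_pow_left₀ (by linarith) h10
        nlinarith [sq_nonneg ‖d‖]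
      · push Not at hc
        nlinarith [sq_nonneg ‖a‖]
    nlinarith [sq_nonneg ‖d‖]
  · have h9 : ‖a‖ ^ 2 ≤ (‖d‖ + ‖p‖) ^ 2 := pow_le_pow_left₀ h3 h1 2
    nlinarith [sq_nonneg ‖d‖]

private lemma local_int (A P : ℝ → ℂ) (e : ℝ → ℂ) (he : ∀ t, ‖e t‖ = 1) (hA : Continuous A) (hP : Continuous P)
    (hec : Continuous e) {T : ℝ} (hT : 0 ≤ T) {η : ℝ} (hη : 0 < η) :
    |(∫ t in (0 : ℝ)..T, ‖A t‖ ^ 2) - ∫ t in (0 : ℝ)..T, ‖P t‖ ^ 2| ≤
      η * (∫ t in (0 : ℝ)..T, ‖P t‖ ^ 2) + (1 + 1 / η) * ∫ t in (0 : ℝ)..T, ‖A t + e t * P t‖ ^ 2 := by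
  have i1 : IntervalIntegrable (fun t => ‖A t‖ ^ 2) volume 0 T :=
    (Continuous.pow hA.norm 2).intervalIntegrable _ _
  have i2 : IntervalIntegrable (fun t => ‖P t‖ ^ 2) volume 0 T :=
    (Continuous.pow hP.norm 2).intervalIntegrable _ _
  have i3 : IntervalIntegrable (fun t => ‖A t + e t * P t‖ ^ 2) volume 0 T :=
    (Continuous.pow (hA.add (hec.mul hP)).norm 2).intervalIntegrable _ _
  rw [← intervalIntegral.integral_sub i1 i2]
  have h1 : |∫ t in (0 : ℝ)..T, (‖A t‖ ^ 2 - ‖P t‖ ^ 2)| ≤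
      ∫ t in (0 : ℝ)..T, |‖A t‖ ^ 2 - ‖P t‖ ^ 2| := by
    have := intervalIntegral.norm_integral_le_integral_norm (f := fun t => ‖A t‖ ^ 2 - ‖P t‖ ^ 2) (μ := volume) hT
    simpa [Real.norm_eq_abs] using this
  have h2 : ∫ t in (0 : ℝ)..T, |‖A t‖ ^ 2 - ‖P t‖ ^ 2| ≤
      ∫ t in (0 : ℝ)..T, (η * ‖P t‖ ^ 2 + (1 + 1 / η) * ‖A t + e t * P t‖ ^ 2) := by
    apply intervalIntegral.integral_mono_on hT
    · exact (i1.sub i2).abs
    · exact (i2.const_mul η).add (i3.const_mul (1 + 1 / η))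
    · intro t _
      exact local_pt _ _ _ (he t) hη
  have h3 : ∫ t in (0 : ℝ)..T, (η * ‖P t‖ ^ 2 + (1 + 1 / η) * ‖A t + e t * P t‖ ^ 2) =
      η * (∫ t in (0 : ℝ)..T, ‖P t‖ ^ 2) + (1 + 1 / η) * ∫ t in (0 : ℝ)..T, ‖A t + e t * P t‖ ^ 2 := by
    rw [intervalIntegral.integral_add (i2.const_mul η) (i3.const_mul (1 + 1 / η)),
      intervalIntegral.integral_const_mul, intervalIntegral.integral_const_mul]
  linarith

private lemma local_tend (δ : ℝ) (hδ : 0 < δ) (K1 K2 : ℝ) :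
    Tendsto (fun L : ℝ => K1 * (L ^ 2 * Real.exp (-(δ * L))) + K2 / L) atTop (𝓝 0) := by
  have h1 : Tendsto (fun L : ℝ => L ^ 2 * Real.exp (-(δ * L))) atTop (𝓝 0) := by
    have h := Real.tendsto_pow_mul_exp_neg_atTop_nhds_zero 2
    have h2 : Tendsto (fun L : ℝ => δ * L) atTop atTop := tendsto_id.const_mul_atTop hδ
    have h3 := (h.comp h2).const_mul (1 / δ ^ 2)
    rw [mul_zero] at h3
    refine h3.congr (fun L => ?_)
    simp only [Function.comp_apply]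
    field_simp
  have h2 : Tendsto (fun L : ℝ => K2 / L) atTop (𝓝 0) := tendsto_const_nhds.div_atTop tendsto_id
  have h3 := (h1.const_mul K1).add h2
  simpa using h3

theorem local_avg (hRH : RiemannHypothesis) {W : ℝ → ℝ} {s : ℝ} (hW : EB W s) (hs0 : 0 < s) (hs : s ≤ 3 / 4)
    {u0 δ : ℝ} (hu0 : s < u0) (hδ : 0 < δ) (hδ1 : δ < 1) (ε : ℝ) (hε : 0 < ε) :
    ∀ᶠ T : ℝ in atTop, ∀ y : ℝ, u0 ≤ y → y ≤ (1 - δ) * Real.log T →
      |(N0 T)⁻¹ * (∫ u, W (u - y) ^ 2 * ‖SS T u‖ ^ 2) - y / Real.log T * ∫ u, W u ^ 2| ≤ ε := by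
  obtain ⟨Ce, hCe0, hCe⟩ := ef hRH hW hs0 hs hu0
  obtain ⟨Ct, hCt0, hCt⟩ := trunc hRH hW.es hs
  obtain ⟨Cp, hCp0, hCp⟩ := prime_sq hRH hW hs
  set w : ℝ := ∫ u, W u ^ 2 with hw
  have hw0 : 0 ≤ w := integral_nonneg (fun u => sq_nonneg _)
  set η : ℝ := ε / (2 * (w + 1)) with hη
  have hη0 : 0 < η := by positivity
  have hηw : η * w ≤ ε / 2 := by
    have h1 : η * (w + 1) = ε / 2 := by rw [hη]; field_simp
    nlinarith
  set K1 : ℝ := Ct + (1 + 1 / η) * Ce + 12 * (1 + η) * Real.exp s * (w + Cp) with hK1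
  set K2 : ℝ := (1 + η) * Cp with hK2
  have hlim := (local_tend δ hδ K1 K2).comp Real.tendsto_log_atTop
  have hev : ∀ᶠ T : ℝ in atTop, K1 * (Real.log T ^ 2 * Real.exp (-(δ * Real.log T))) + K2 / Real.log T ≤ ε / 2 := by
    have := hlim.eventually (ge_mem_nhds (show (0 : ℝ) < ε / 2 by positivity))
    simpa using this
  filter_upwards [hev, eventually_ge_atTop (Real.exp 1)] with T hT1 hT2 y hy1 hy2
  have hT0 : 0 < T := lt_of_lt_of_le (Real.exp_pos 1) hT2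
  have hTge2 : (2 : ℝ) ≤ T := by
    have := Real.add_one_le_exp (1 : ℝ)
    linarith
  set L := Real.log T with hL
  have hL1 : 1 ≤ L := by
    rw [hL, Real.le_log_iff_exp_le hT0]; exact hT2
  have hTL : Real.exp L = T := Real.exp_log hT0
  have hy0 : 0 ≤ y := by linarith
  have hyL : y ≤ L := by nlinarith
  -- the quantities
  obtain ⟨S, hS1, hS2, hS3⟩ := PP_finite hW.es y
  have hp := hCp y hy0
  rw [hS3] at hp
  set Q : ℝ := ∑ n ∈ S, (ArithmeticFunction.vonMangoldt n * Real.exp (-(Real.log n / 2)) * W (Real.log n - y)) ^ 2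
    with hQ
  have hQ0 : 0 ≤ Q := Finset.sum_nonneg (fun n _ => sq_nonneg _)
  have hmv := mv1 S (fun n => ArithmeticFunction.vonMangoldt n * Real.exp (-(Real.log n / 2)) * W (Real.log n - y))
    (Real.exp (y + s)) T (Real.one_le_exp (by linarith)) hT0.le hS1
  have hPPe : (fun t : ℝ => ‖PP W t y‖ ^ 2) = fun t : ℝ => ‖∑ n ∈ S, (((fun n : ℕ =>
      ArithmeticFunction.vonMangoldt n * Real.exp (-(Real.log n / 2)) * W (Real.log n - y)) n : ℝ) : ℂ) *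
      cexp (((-(t * Real.log n) : ℝ) : ℂ) * I)‖ ^ 2 := by
    funext t
    rw [hS2 t]
  rw [← hPPe, Real.log_exp] at hmv
  set IP : ℝ := ∫ t in (0 : ℝ)..T, ‖PP W t y‖ ^ 2 with hIP
  set IA : ℝ := ∫ t in (0 : ℝ)..T, ‖AA W t y‖ ^ 2 with hIA
  have hAP := local_int (fun t => AA W t y) (fun t => PP W t y)
    (fun t => cexp (((t * y : ℝ) : ℂ) * I)) (fun t => by rw [Complex.norm_exp_ofReal_mul_I])
    (AA_continuous hW.es hs y) (PP_continuous hW.es y) (by fun_prop) hT0.le hη0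
  have hD := hCe T y hT0.le hy1
  have hB := hCt T y hTge2
  rw [(planch hW.es T y).2] at hB
  set J : ℝ := ∫ u, W (u - y) ^ 2 * ‖SS T u‖ ^ 2 with hJ
  set ID : ℝ := ∫ t in (0 : ℝ)..T, ‖AA W t y + cexp (((t * y : ℝ) : ℂ) * I) * PP W t y‖ ^ 2 with hID
  -- collect
  -- exponential bounds
  set E : ℝ := Real.exp ((1 - δ) * L) with hE
  have hE0 : 0 < E := Real.exp_pos _
  have hey : Real.exp y ≤ E := Real.exp_le_exp.mpr hy2
  have hX : Real.exp (y + s) ≤ Real.exp s * E := by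
    rw [add_comm, Real.exp_add]
    exact mul_le_mul_of_nonneg_left hey (Real.exp_pos _).le
  have hQle : Q ≤ L * w + Cp := by
    have h1 := (abs_le.mp hp).2
    have h2 : y * w ≤ L * w := mul_le_mul_of_nonneg_right hyL hw0
    linarith
  have hQle2 : Q ≤ L * (w + Cp) := by nlinarith
  have hM : 4 * Real.exp (y + s) * (1 + (y + s)) * Q ≤ 12 * Real.exp s * (w + Cp) * (L ^ 2 * E) := by
    have h1 : 1 + (y + s) ≤ 3 * L := by linarith
    have h2 : 0 ≤ 1 + (y + s) := by linarith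
    have h3 : 4 * Real.exp (y + s) * (1 + (y + s)) ≤ 4 * (Real.exp s * E) * (3 * L) := by
      apply mul_le_mul _ h1 h2 (by positivity)
      linarith
    calc 4 * Real.exp (y + s) * (1 + (y + s)) * Q ≤ 4 * (Real.exp s * E) * (3 * L) * (L * (w + Cp)) := by
          apply mul_le_mul h3 hQle2 hQ0 (by positivity)
      _ = 12 * Real.exp s * (w + Cp) * (L ^ 2 * E) := by ring
  have hmain : |2 * Real.pi * J - T * y * w| ≤ Ct * L ^ 3 + η * IP + (1 + 1 / η) * (Ce * Real.exp y) +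
      4 * Real.exp (y + s) * (1 + (y + s)) * Q + T * Cp := by
    have e1 : 2 * Real.pi * J - T * y * w = (2 * Real.pi * J - IA) + (IA - IP) + (IP - T * Q) + T * (Q - y * w) := by
      ring
    rw [e1]
    have a1 : |T * (Q - y * w)| ≤ T * Cp := by
      rw [abs_mul, abs_of_pos hT0]
      exact mul_le_mul_of_nonneg_left hp hT0.le
    have a2 : |IA - IP| ≤ η * IP + (1 + 1 / η) * (Ce * Real.exp y) := by
      refine hAP.trans ?_
      have : (1 + 1 / η) * ID ≤ (1 + 1 / η) * (Ce * Real.exp y) := by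
        apply mul_le_mul_of_nonneg_left hD (by positivity)
      linarith
    calc |(2 * Real.pi * J - IA) + (IA - IP) + (IP - T * Q) + T * (Q - y * w)|
        ≤ |2 * Real.pi * J - IA| + |IA - IP| + |IP - T * Q| + |T * (Q - y * w)| := by
          refine (abs_add_le _ _).trans ?_
          gcongr
          refine (abs_add_le _ _).trans ?_
          gcongr
          exact abs_add_le _ _
      _ ≤ _ := by linarith
  have hIPle : IP ≤ T * (L * w + Cp) + 12 * Real.exp s * (w + Cp) * (L ^ 2 * E) := by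
    have h1 := (abs_le.mp hmv).2
    have h2 : T * Q ≤ T * (L * w + Cp) := mul_le_mul_of_nonneg_left hQle hT0.le
    linarith
  -- total bound
  have hEe : (Real.log T ^ 2 * Real.exp (-(δ * Real.log T))) * (T * L) = L ^ 3 * E := by
    rw [← hL, hE]
    have : Real.exp ((1 - δ) * L) = Real.exp (-(δ * L)) * T := by
      rw [← hTL, ← Real.exp_add]
      congr 1
      ring
    rw [this]
    ring
  have hE1 : 1 ≤ E := Real.one_le_exp (by nlinarith)
  have htot : |2 * Real.pi * J - T * y * w| ≤ (K1 * (L ^ 2 * Real.exp (-(δ * L))) + K2 / L + η * w) * (T * L) := by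
    have hr : (K1 * (L ^ 2 * Real.exp (-(δ * L))) + K2 / L + η * w) * (T * L) =
        K1 * (L ^ 3 * E) + K2 * T + η * w * (T * L) := by
      have h1 : (K1 * (L ^ 2 * Real.exp (-(δ * L))) + K2 / L + η * w) * (T * L) =
          K1 * ((L ^ 2 * Real.exp (-(δ * L))) * (T * L)) + K2 / L * (T * L) + η * w * (T * L) := by ring
      rw [h1, ← hL] at *
      rw [hEe]
      have : K2 / L * (T * L) = K2 * T := by
        field_simp
      rw [this]
    rw [hr]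
    refine hmain.trans ?_
    have hL3 : L ^ 3 ≤ L ^ 3 * E := le_mul_of_one_le_right (by positivity) hE1
    have hLE : L ^ 2 * E ≤ L ^ 3 * E := by
      apply mul_le_mul_of_nonneg_right _ hE0.le
      apply pow_le_pow_right₀ hL1 (by norm_num)
    have hLE1 : E ≤ L ^ 3 * E := le_mul_of_one_le_left hE0.le (one_le_pow₀ hL1)
    have b1 : Ct * L ^ 3 ≤ Ct * (L ^ 3 * E) := mul_le_mul_of_nonneg_left hL3 hCt0
    have b2 : (1 + 1 / η) * (Ce * Real.exp y) ≤ (1 + 1 / η) * Ce * (L ^ 3 * E) := by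
      rw [mul_assoc]
      apply mul_le_mul_of_nonneg_left _ (by positivity)
      exact mul_le_mul_of_nonneg_left (hey.trans hLE1) hCe0
    have b3 : 12 * Real.exp s * (w + Cp) * (L ^ 2 * E) ≤ 12 * Real.exp s * (w + Cp) * (L ^ 3 * E) :=
      mul_le_mul_of_nonneg_left hLE (by positivity)
    have b4 : η * IP ≤ η * (T * (L * w + Cp)) + η * (12 * Real.exp s * (w + Cp) * (L ^ 3 * E)) := by
      have := mul_le_mul_of_nonneg_left hIPle hη0.le
      have h2 := mul_le_mul_of_nonneg_left b3 hη0.le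
      linarith
    have e1 : K1 * (L ^ 3 * E) = Ct * (L ^ 3 * E) + (1 + 1 / η) * Ce * (L ^ 3 * E) +
        12 * Real.exp s * (w + Cp) * (L ^ 3 * E) + η * (12 * Real.exp s * (w + Cp) * (L ^ 3 * E)) := by
      rw [hK1]; ring
    have e2 : K2 * T + η * w * (T * L) = T * Cp + η * (T * (L * w + Cp)) := by
      rw [hK2]; ring
    rw [e1]
    linarith
  -- finish
  have hTLpos : 0 < T * L := by positivity
  have hfin : (N0 T)⁻¹ * J - y / L * w = (2 * Real.pi * J - T * y * w) / (T * L) := by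
    rw [N0, ← hL]
    have hpi := Real.pi_pos
    field_simp
  rw [hfin, abs_div, abs_of_pos hTLpos, div_le_iff₀ hTLpos]
  refine htot.trans ?_
  apply mul_le_mul_of_nonneg_right _ hTLpos.le
  linarith

end Pool.Agent.Lib.MP_00e05b_nt.Mont
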