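import Pool.Agent.Lib.MP_00e05b_nt.Mont.Planch

/-!
# JOB MV2: upper bound for mean values of Dirichlet polynomials without a logarithm

Let `W` be an `EB W (1/2)`; then for `|t| ≤ 1`, `ck W t ≥ cos(1/2) ∫ W ≥ 1/4`. Put `f u = ∑_{n ∈ S} a_n T W(T (u - log n))`,
a smooth compactly supported function. Then `∫ f(u) e^{-itu} du = ck W (t/T) ∑ a_n e^{-it log n}`, so by `plancherel_cs`
`(1/16) ∫_0^T ‖∑ a_n e^{-it log n}‖² dt ≤ ∫_ℝ ‖∫ f e^{-itu}‖² dt = 2π ∫ f²`. At a point `u` at most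
`1 + 2 X/T * 2 ≤ 1 + 4X/T` of the terms are nonzero, because `|u - log n| < 1/(2T)` and `|u - log m| < 1/(2T)` imply
`|log n - log m| < 1/T`, hence `|n - m| ≤ X (e^{1/T} - 1) ≤ 2X/T` (for `T ≥ 1`). By Cauchy-Schwarz
`∫ f² ≤ (1 + 4X/T + 1) ∑ a_n² T² ∫ W(T(u - log n))² du ≤ (2 + 4X/T) T ∑ a_n²` (`∫ W² ≤ 1`). The constant is generous.
-/

open Complex Set Filter Topology MeasureTheory
open scoped ContDiff

namespace Pool.Agent.Lib.MP_00e05b_nt.Mont

/-- `ck W τ ≥ 1/4` for `|τ| ≤ 1`. -/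
private lemma mv2_ck {W : ℝ → ℝ} (hW : EB W (1 / 2)) {τ : ℝ} (hτ : |τ| ≤ 1) : 1 / 4 ≤ ck W τ := by
  have hcos : ∀ u : ℝ, |u| ≤ 1 / 2 → 1 / 2 ≤ Real.cos (τ * u) := by
    intro u hu
    have h1 : |τ * u| ≤ 1 / 2 := by
      rw [abs_mul]
      calc |τ| * |u| ≤ 1 * (1 / 2) := mul_le_mul hτ hu (abs_nonneg _) (by norm_num)
        _ = 1 / 2 := by norm_num
    have h2 := Real.one_sub_sq_div_two_le_cos (x := τ * u)
    have h3 : (τ * u) ^ 2 ≤ (1 / 2) ^ 2 := by
      rw [← sq_abs]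
      exact pow_le_pow_left₀ (abs_nonneg _) h1 2
    nlinarith
  have hint : Integrable (fun u => W u * Real.cos (τ * u)) := by
    have hc : Continuous (fun u => W u * Real.cos (τ * u)) :=
      hW.es.continuous.mul (Real.continuous_cos.comp (continuous_const.mul continuous_id))
    exact hc.integrable_of_hasCompactSupport (hW.es.compact.mul_right)
  have hind : Integrable ((Icc (-(1 / 4) : ℝ) (1 / 4)).indicator (fun _ => (1 / 2 : ℝ))) :=
    (integrable_indicator_iff measurableSet_Icc).2 (by simp)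
  have hle : ∀ u, (Icc (-(1 / 4) : ℝ) (1 / 4)).indicator (fun _ => (1 / 2 : ℝ)) u ≤ W u * Real.cos (τ * u) := by
    intro u
    by_cases hu : u ∈ Icc (-(1 / 4) : ℝ) (1 / 4)
    · rw [indicator_of_mem hu]
      have h1 : |u| ≤ 1 / 4 := abs_le.2 hu
      rw [hW.one u (by linarith), one_mul]
      exact hcos u (by linarith)
    · rw [indicator_of_notMem hu]
      by_cases h2 : |u| ≤ 1 / 2
      · exact mul_nonneg (hW.nonneg u) (le_trans (by norm_num) (hcos u h2))
      · rw [hW.supp u (by linarith), zero_mul]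
  have h := integral_mono hind hint hle
  rw [integral_indicator measurableSet_Icc] at h
  simp only [integral_const, MeasurableSet.univ, measureReal_restrict_apply, univ_inter, Real.volume_real_Icc, smul_eq_mul] at h
  unfold ck
  norm_num at h
  linarith

/-- `∫ W² ≤ 1`. -/
private lemma mv2_sq {W : ℝ → ℝ} (hW : EB W (1 / 2)) : ∫ u, W u ^ 2 ≤ 1 := by
  have hind : Integrable ((Icc (-(1 / 2) : ℝ) (1 / 2)).indicator (fun _ => (1 : ℝ))) :=
    (integrable_indicator_iff measurableSet_Icc).2 (by simp)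
  have hle : ∀ u, W u ^ 2 ≤ (Icc (-(1 / 2) : ℝ) (1 / 2)).indicator (fun _ => (1 : ℝ)) u := by
    intro u
    by_cases hu : u ∈ Icc (-(1 / 2) : ℝ) (1 / 2)
    · rw [indicator_of_mem hu]
      exact pow_le_one₀ (hW.nonneg u) (hW.le_one u)
    · rw [indicator_of_notMem hu]
      have h1 : 1 / 2 ≤ |u| := by
        by_contra h
        exact hu (abs_le.1 (not_le.1 h).le)
      rw [hW.supp u h1]
      norm_num
  have h := integral_mono_of_nonneg (Eventually.of_forall fun u => sq_nonneg (W u)) hind (Eventually.of_forall hle)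
  rw [integral_indicator measurableSet_Icc] at h
  simp only [integral_const, MeasurableSet.univ, measureReal_restrict_apply, univ_inter, Real.volume_real_Icc, smul_eq_mul] at h
  norm_num at h
  exact h

/-- the number of nonzero terms -/
private lemma mv2_count (S : Finset ℕ) {X T : ℝ} (hX : 1 ≤ X) (hT : 1 ≤ T)
    (hS : ∀ n ∈ S, 1 ≤ n ∧ (n : ℝ) ≤ X) (u : ℝ) :
    ((S.filter (fun n : ℕ => |T * (u - Real.log n)| < 1 / 2)).card : ℝ) ≤ 1 + 2 * X / T := by
  classical
  set N := S.filter (fun n : ℕ => |T * (u - Real.log n)| < 1 / 2) with hN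
  have hT0 : 0 < T := by linarith
  rcases N.eq_empty_or_nonempty with he | hne
  · rw [he]
    simp only [Finset.card_empty, Nat.cast_zero]
    positivity
  set m := N.min' hne with hm
  have hmN : m ∈ N := N.min'_mem hne
  have hsub : N ⊆ Finset.Icc m (m + ⌊2 * X / T⌋₊) := by
    intro n hn
    have hmn : m ≤ n := N.min'_le n hn
    rw [Finset.mem_Icc]
    refine ⟨hmn, ?_⟩
    rw [hN, Finset.mem_filter] at hn hmN
    obtain ⟨hnS, hn2⟩ := hn
    obtain ⟨hmS, hm2⟩ := hmN
    obtain ⟨hn1, hnX⟩ := hS n hnS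
    obtain ⟨hm1, hmX⟩ := hS m hmS
    have hm0 : (0 : ℝ) < m := by exact_mod_cast hm1
    have hn0 : (0 : ℝ) < n := by exact_mod_cast hn1
    rw [abs_lt] at hn2 hm2
    have h1 : T * (Real.log n - Real.log m) ≤ 1 := by nlinarith
    have h2 : Real.log n ≤ Real.log m + 1 / T := by
      have : Real.log n - Real.log m ≤ 1 / T := by
        rw [le_div_iff₀ hT0]
        linarith
      linarith
    have h3 : (n : ℝ) ≤ m * Real.exp (1 / T) := by
      calc (n : ℝ) = Real.exp (Real.log n) := (Real.exp_log hn0).symm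
        _ ≤ Real.exp (Real.log m + 1 / T) := Real.exp_le_exp.2 h2
        _ = m * Real.exp (1 / T) := by rw [Real.exp_add, Real.exp_log hm0]
    have hinv : 0 ≤ 1 / T := by positivity
    have hinv1 : 1 / T ≤ 1 := by
      rw [div_le_one hT0]; exact hT
    have h4 : Real.exp (1 / T) ≤ 1 + 2 * (1 / T) := by
      have h5 := Real.abs_exp_sub_one_le (x := 1 / T) (by rw [abs_of_nonneg hinv]; exact hinv1)
      rw [abs_of_nonneg hinv] at h5
      have := le_abs_self (Real.exp (1 / T) - 1)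
      linarith
    have h5 : (n : ℝ) ≤ m + 2 * X / T := by
      have h6 : (m : ℝ) * Real.exp (1 / T) ≤ m * (1 + 2 * (1 / T)) := mul_le_mul_of_nonneg_left h4 hm0.le
      have h7 : (m : ℝ) * (1 / T) ≤ X * (1 / T) := mul_le_mul_of_nonneg_right hmX hinv
      have h8 : 2 * X / T = 2 * (X * (1 / T)) := by ring
      rw [h8]
      nlinarith
    have h6 : ((n - m : ℕ) : ℝ) ≤ 2 * X / T := by
      rw [Nat.cast_sub hmn]
      linarith
    have h7 : n - m ≤ ⌊2 * X / T⌋₊ := Nat.le_floor h6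
    omega
  have hcard := Finset.card_le_card hsub
  rw [Nat.card_Icc] at hcard
  have h1 : (N.card : ℝ) ≤ ((m + ⌊2 * X / T⌋₊ + 1 - m : ℕ) : ℝ) := by exact_mod_cast hcard
  have h2 : (m + ⌊2 * X / T⌋₊ + 1 - m : ℕ) = ⌊2 * X / T⌋₊ + 1 := by omega
  rw [h2] at h1
  have h3 : (⌊2 * X / T⌋₊ : ℝ) ≤ 2 * X / T := Nat.floor_le (by positivity)
  push_cast at h1
  linarith

/-- one term of the transform -/
private lemma mv2_term {W : ℝ → ℝ} (hW : EB W (1 / 2)) {T : ℝ} (hT : 0 < T) (L t : ℝ) :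
    ∫ u : ℝ, ((T * W (T * (u - L)) : ℝ) : ℂ) * cexp (((-(t * u) : ℝ) : ℂ) * I) =
      (ck W (t / T) : ℂ) * cexp (((-(t * L) : ℝ) : ℂ) * I) := by
  have h1 : ∀ u : ℝ, ((T * W (T * (u - L)) : ℝ) : ℂ) * cexp (((-(t * u) : ℝ) : ℂ) * I) =
      (fun v : ℝ => (T : ℂ) * cexp (((-(t * L) : ℝ) : ℂ) * I) * ((W v : ℂ) * cexp ((((-(t / T)) * v : ℝ) : ℂ) * I))) (T * (u - L)) := by
    intro u
    have h2 : cexp (((-(t * u) : ℝ) : ℂ) * I) = cexp (((-(t * L) : ℝ) : ℂ) * I) * cexp ((((-(t / T)) * (T * (u - L)) : ℝ) : ℂ) * I) := by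
      rw [← Complex.exp_add]
      congr 1
      rw [← add_mul, ← Complex.ofReal_add]
      congr 2
      field_simp
      ring
    simp only
    rw [h2]
    push_cast
    ring
  simp_rw [h1]
  rw [integral_sub_right_eq_self (fun u : ℝ => (fun v : ℝ => (T : ℂ) * cexp (((-(t * L) : ℝ) : ℂ) * I) * ((W v : ℂ) * cexp ((((-(t / T)) * v : ℝ) : ℂ) * I))) (T * u)) L]
  rw [Measure.integral_comp_mul_left (fun v : ℝ => (T : ℂ) * cexp (((-(t * L) : ℝ) : ℂ) * I) * ((W v : ℂ) * cexp ((((-(t / T)) * v : ℝ) : ℂ) * I))) T]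
  rw [integral_const_mul, ck_cexp hW.es, ck_even]
  rw [abs_of_pos (inv_pos.2 hT), Complex.real_smul]
  push_cast
  have hTc : (T : ℂ) ≠ 0 := by exact_mod_cast hT.ne'
  field_simp

theorem mv2 : ∃ C : ℝ, 0 ≤ C ∧ ∀ (S : Finset ℕ) (a : ℕ → ℝ) (X T : ℝ), 1 ≤ X → 1 ≤ T →
    (∀ n ∈ S, 1 ≤ n ∧ (n : ℝ) ≤ X) →
    ∫ t in (0 : ℝ)..T, ‖∑ n ∈ S, (a n : ℂ) * cexp (((-(t * Real.log n) : ℝ) : ℂ) * I)‖ ^ 2 ≤
      C * (T + X) * ∑ n ∈ S, a n ^ 2 := by
  classical
  obtain ⟨W, hW⟩ := exists_EB (1 / 2) (by norm_num)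
  refine ⟨64 * Real.pi, by positivity, fun S a X T hX hT hS => ?_⟩
  have hT0 : 0 < T := by linarith
  have hpi := Real.pi_pos
  have hWc : Continuous W := hW.es.continuous
  -- the function
  set g : ℕ → ℝ → ℝ := fun n u => T * W (T * (u - Real.log n)) with hg
  have hgc : ∀ n, Continuous (g n) := fun n => by
    simp only [hg]; fun_prop
  have hgs : ∀ n, HasCompactSupport (g n) := fun n => by
    refine HasCompactSupport.intro (isCompact_Icc (a := Real.log n - 1) (b := Real.log n + 1)) fun u hu => ?_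
    have h1 : 1 ≤ |u - Real.log n| := by
      by_contra h
      have := abs_lt.1 (not_le.1 h)
      exact hu ⟨by linarith, by linarith⟩
    have h2 : 1 / 2 ≤ |T * (u - Real.log n)| := by
      rw [abs_mul, abs_of_pos hT0]
      nlinarith
    simp only [hg]
    rw [hW.supp _ h2, mul_zero]
  set f : ℝ → ℂ := fun u => ((∑ n ∈ S, a n * g n u : ℝ) : ℂ) with hf
  have hfd : ContDiff ℝ ∞ f := by
    have h1 : ContDiff ℝ ∞ (fun u : ℝ => ∑ n ∈ S, a n * g n u) := by
      refine ContDiff.sum fun n _ => ?_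
      simp only [hg]
      exact contDiff_const.mul (contDiff_const.mul (hW.smooth.comp (contDiff_const.mul (contDiff_id.sub contDiff_const))))
    exact Complex.ofRealCLM.contDiff.comp h1
  have hfs : HasCompactSupport f := by
    refine HasCompactSupport.intro (isCompact_Icc (a := -1) (b := Real.log X + 1)) fun u hu => ?_
    simp only [hf]
    rw [Finset.sum_eq_zero, Complex.ofReal_zero]
    intro n hn
    obtain ⟨hn1, hnX⟩ := hS n hn
    have hn0 : (0 : ℝ) < n := by exact_mod_cast hn1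
    have hl0 : 0 ≤ Real.log n := Real.log_nonneg (by exact_mod_cast hn1)
    have hlX : Real.log n ≤ Real.log X := Real.log_le_log hn0 hnX
    have h1 : 1 ≤ |u - Real.log n| := by
      by_contra h
      have := abs_lt.1 (not_le.1 h)
      exact hu ⟨by linarith, by linarith⟩
    have h2 : 1 / 2 ≤ |T * (u - Real.log n)| := by
      rw [abs_mul, abs_of_pos hT0]
      nlinarith
    simp only [hg]
    rw [hW.supp _ h2, mul_zero, mul_zero]
  obtain ⟨hPi, hP⟩ := plancherel_cs hfd hfs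
  -- the transform
  have htr : ∀ t : ℝ, ∫ u, f u * cexp (((-(t * u) : ℝ) : ℂ) * I) =
      (ck W (t / T) : ℂ) * ∑ n ∈ S, (a n : ℂ) * cexp (((-(t * Real.log n) : ℝ) : ℂ) * I) := by
    intro t
    have h1 : ∀ u, f u * cexp (((-(t * u) : ℝ) : ℂ) * I) =
        ∑ n ∈ S, (a n : ℂ) * ((g n u : ℂ) * cexp (((-(t * u) : ℝ) : ℂ) * I)) := by
      intro u
      simp only [hf]
      push_cast
      rw [Finset.sum_mul]
      exact Finset.sum_congr rfl fun n _ => by ring
    simp_rw [h1]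
    rw [integral_finsetSum]
    · rw [Finset.mul_sum]
      refine Finset.sum_congr rfl fun n _ => ?_
      rw [integral_const_mul]
      have := mv2_term hW hT0 (Real.log n) t
      simp only [hg]
      rw [this]
      ring
    · intro n _
      have hc : Continuous (fun u : ℝ => (a n : ℂ) * ((g n u : ℂ) * cexp (((-(t * u) : ℝ) : ℂ) * I))) := by
        have := hgc n
        fun_prop
      refine hc.integrable_of_hasCompactSupport ?_
      refine HasCompactSupport.mul_left ?_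
      refine HasCompactSupport.mul_right ?_
      exact (hgs n).comp_left (g := fun x : ℝ => (x : ℂ)) Complex.ofReal_zero
  -- comparison on [0, T]
  have hstep : ∫ t in (0 : ℝ)..T, ‖∑ n ∈ S, (a n : ℂ) * cexp (((-(t * Real.log n) : ℝ) : ℂ) * I)‖ ^ 2 ≤
      16 * ∫ t : ℝ, ‖∫ u, f u * cexp (((-(t * u) : ℝ) : ℂ) * I)‖ ^ 2 := by
    rw [intervalIntegral.integral_of_le hT0.le, ← integral_const_mul]
    refine le_trans ?_ (setIntegral_le_integral (s := Ioc 0 T) (hPi.const_mul 16) (Eventually.of_forall fun t => by positivity))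
    refine setIntegral_mono_on ?_ (hPi.const_mul 16).integrableOn measurableSet_Ioc ?_
    · have hc : Continuous (fun t : ℝ => ‖∑ n ∈ S, (a n : ℂ) * cexp (((-(t * Real.log n) : ℝ) : ℂ) * I)‖ ^ 2) := by
        fun_prop
      exact (hc.integrableOn_Icc (a := 0) (b := T)).mono_set Ioc_subset_Icc_self
    · intro t ht
      rw [htr t, norm_mul, mul_pow, Complex.norm_real, Real.norm_eq_abs]
      have h1 : 1 / 4 ≤ ck W (t / T) := by
        refine mv2_ck hW ?_
        rw [abs_of_nonneg (div_nonneg ht.1.le hT0.le), div_le_one hT0]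
        exact ht.2
      have h2 : 1 ≤ 16 * |ck W (t / T)| ^ 2 := by
        rw [sq_abs]
        nlinarith
      have h3 : 0 ≤ ‖∑ n ∈ S, (a n : ℂ) * cexp (((-(t * Real.log n) : ℝ) : ℂ) * I)‖ ^ 2 := by positivity
      nlinarith
  -- the L² norm of f
  have hL2 : ∫ u, ‖f u‖ ^ 2 ≤ (1 + 2 * X / T) * (T * ∑ n ∈ S, a n ^ 2) := by
    have hpt : ∀ u, ‖f u‖ ^ 2 ≤ ∑ n ∈ S, (1 + 2 * X / T) * (a n ^ 2 * (g n u) ^ 2) := by
      intro u
      set N := S.filter (fun n : ℕ => |T * (u - Real.log n)| < 1 / 2) with hN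
      have hsum : ∑ n ∈ S, a n * g n u = ∑ n ∈ N, a n * g n u := by
        rw [hN, Finset.sum_filter_of_ne]
        intro n _ hne
        by_contra h
        apply hne
        simp only [hg]
        rw [hW.supp _ (not_lt.1 h), mul_zero, mul_zero]
      have h1 : ‖f u‖ ^ 2 = (∑ n ∈ N, a n * g n u) ^ 2 := by
        simp only [hf]
        rw [Complex.norm_real, Real.norm_eq_abs, sq_abs, hsum]
      rw [h1]
      have h2 : (∑ n ∈ N, a n * g n u) ^ 2 ≤ N.card * ∑ n ∈ N, (a n * g n u) ^ 2 := sq_sum_le_card_mul_sum_sq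
      have h3 := mv2_count S hX hT hS u
      rw [← hN] at h3
      calc (∑ n ∈ N, a n * g n u) ^ 2 ≤ N.card * ∑ n ∈ N, (a n * g n u) ^ 2 := h2
        _ ≤ (1 + 2 * X / T) * ∑ n ∈ N, (a n * g n u) ^ 2 :=
            mul_le_mul_of_nonneg_right h3 (Finset.sum_nonneg fun _ _ => sq_nonneg _)
        _ ≤ (1 + 2 * X / T) * ∑ n ∈ S, (a n * g n u) ^ 2 := by
            refine mul_le_mul_of_nonneg_left ?_ (by positivity)
            exact Finset.sum_le_sum_of_subset_of_nonneg (Finset.filter_subset _ _) (fun _ _ _ => sq_nonneg _)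
        _ = ∑ n ∈ S, (1 + 2 * X / T) * (a n ^ 2 * (g n u) ^ 2) := by
            rw [Finset.mul_sum]
            exact Finset.sum_congr rfl fun n _ => by ring
    have hgint : ∀ n, Integrable (fun u => (g n u) ^ 2) := fun n => by
      have hc : Continuous (fun u => (g n u) ^ 2) := (hgc n).pow 2
      refine hc.integrable_of_hasCompactSupport ?_
      have : (fun u => (g n u) ^ 2) = fun u => g n u * g n u := by ext u; ring
      rw [this]
      exact (hgs n).mul_right
    have hgval : ∀ n, ∫ u, (g n u) ^ 2 ≤ T := by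
      intro n
      have h1 : ∀ u : ℝ, (g n u) ^ 2 = (fun v : ℝ => T ^ 2 * W v ^ 2) (T * (u - Real.log n)) := by
        intro u
        simp only [hg]
        ring
      simp_rw [h1]
      rw [integral_sub_right_eq_self (fun u : ℝ => (fun v : ℝ => T ^ 2 * W v ^ 2) (T * u)) (Real.log n),
        Measure.integral_comp_mul_left (fun v : ℝ => T ^ 2 * W v ^ 2) T, integral_const_mul, abs_of_pos (inv_pos.2 hT0), smul_eq_mul]
      have h2 := mv2_sq hW
      calc T⁻¹ * (T ^ 2 * ∫ u, W u ^ 2) = T * ∫ u, W u ^ 2 := by field_simp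
        _ ≤ T * 1 := mul_le_mul_of_nonneg_left h2 hT0.le
        _ = T := mul_one T
    have hint : Integrable (fun u => ∑ n ∈ S, (1 + 2 * X / T) * (a n ^ 2 * (g n u) ^ 2)) :=
      integrable_finsetSum _ fun n _ => ((hgint n).const_mul _).const_mul _
    calc ∫ u, ‖f u‖ ^ 2 ≤ ∫ u, ∑ n ∈ S, (1 + 2 * X / T) * (a n ^ 2 * (g n u) ^ 2) :=
          integral_mono_of_nonneg (Eventually.of_forall fun u => by positivity) hint (Eventually.of_forall hpt)
      _ = ∑ n ∈ S, (1 + 2 * X / T) * (a n ^ 2 * ∫ u, (g n u) ^ 2) := by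
          rw [integral_finsetSum _ fun n _ => ((hgint n).const_mul _).const_mul _]
          exact Finset.sum_congr rfl fun n _ => by rw [integral_const_mul, integral_const_mul]
      _ ≤ ∑ n ∈ S, (1 + 2 * X / T) * (a n ^ 2 * T) := by
          refine Finset.sum_le_sum fun n _ => ?_
          refine mul_le_mul_of_nonneg_left ?_ (by positivity)
          exact mul_le_mul_of_nonneg_left (hgval n) (sq_nonneg _)
      _ = (1 + 2 * X / T) * (T * ∑ n ∈ S, a n ^ 2) := by
          rw [Finset.mul_sum, Finset.mul_sum]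
          exact Finset.sum_congr rfl fun n _ => by ring
  have hsum0 : 0 ≤ ∑ n ∈ S, a n ^ 2 := Finset.sum_nonneg fun _ _ => sq_nonneg _
  calc ∫ t in (0 : ℝ)..T, ‖∑ n ∈ S, (a n : ℂ) * cexp (((-(t * Real.log n) : ℝ) : ℂ) * I)‖ ^ 2
      ≤ 16 * ∫ t : ℝ, ‖∫ u, f u * cexp (((-(t * u) : ℝ) : ℂ) * I)‖ ^ 2 := hstep
    _ = 32 * Real.pi * ∫ u, ‖f u‖ ^ 2 := by rw [hP]; ring
    _ ≤ 32 * Real.pi * ((1 + 2 * X / T) * (T * ∑ n ∈ S, a n ^ 2)) := mul_le_mul_of_nonneg_left hL2 (by positivity)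
    _ = 32 * Real.pi * ((T + 2 * X) * ∑ n ∈ S, a n ^ 2) := by
        congr 1
        field_simp
    _ ≤ 32 * Real.pi * ((2 * (T + X)) * ∑ n ∈ S, a n ^ 2) := by
        refine mul_le_mul_of_nonneg_left ?_ (by positivity)
        refine mul_le_mul_of_nonneg_right ?_ hsum0
        linarith
    _ = 64 * Real.pi * (T + X) * ∑ n ∈ S, a n ^ 2 := by ring

end Pool.Agent.Lib.MP_00e05b_nt.Mont
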