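import Pool.Agent.Lib.MP_00e05b_nt.Mont.EF
import Pool.Agent.Lib.MP_00e05b_nt.Mont.Trunc
import Pool.Agent.Lib.MP_00e05b_nt.Mont.MV2
import Pool.Agent.Lib.MP_00e05b_nt.Mont.Prime

/-!
# JOB LocalU: upper bound for local averages of `‖SS T u‖²` beyond `u = log T`

`PP W t y = ∑_{n ∈ S} a_n e^{-it log n}` (`PP_finite`) with `X = e^{y + s}`. Let `L = log T`, `Q = ∑ a_n² = y ∫ W² + O(1)`
(`prime_sq`), so `Q ≤ C (1 + L)` for `u0 ≤ y ≤ 2L`. By `mv2` `∫_0^T ‖PP‖² ≤ C (T + X) Q ≤ C (T + e^y) (1 + L)`,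
`‖AA‖² ≤ 2 ‖PP‖² + 2 ‖AA + e^{ity} PP‖²`, `ef`; then `trunc` and `planch`:
`2π ∫ W(u-y)² ‖SS T u‖² du ≤ ∫_0^T ‖AA‖² + C L³`, and `L³ ≤ C T (1 + L)`.
-/

open Complex Set Filter Topology MeasureTheory
open scoped ContDiff

namespace Pool.Agent.Lib.MP_00e05b_nt.Mont

private lemma localU_pt (a p e : ℂ) (he : ‖e‖ = 1) :
    ‖a‖ ^ 2 ≤ 2 * ‖p‖ ^ 2 + 2 * ‖a + e * p‖ ^ 2 := by
  set d := a + e * p with hd
  have hp : ‖e * p‖ = ‖p‖ := by rw [norm_mul, he, one_mul]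
  have h1 : ‖a‖ ≤ ‖d‖ + ‖p‖ := by
    have h : a = d - e * p := by rw [hd]; ring
    calc ‖a‖ = ‖d - e * p‖ := by rw [← h]
      _ ≤ ‖d‖ + ‖e * p‖ := norm_sub_le _ _
      _ = ‖d‖ + ‖p‖ := by rw [hp]
  have h3 : 0 ≤ ‖a‖ := norm_nonneg _
  have h9 : ‖a‖ ^ 2 ≤ (‖d‖ + ‖p‖) ^ 2 := pow_le_pow_left₀ h3 h1 2
  nlinarith [sq_nonneg (‖d‖ - ‖p‖)]

private lemma localU_int (A P : ℝ → ℂ) (e : ℝ → ℂ) (he : ∀ t, ‖e t‖ = 1) (hA : Continuous A) (hP : Continuous P)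
    (hec : Continuous e) {T : ℝ} (hT : 0 ≤ T) :
    (∫ t in (0 : ℝ)..T, ‖A t‖ ^ 2) ≤
      2 * (∫ t in (0 : ℝ)..T, ‖P t‖ ^ 2) + 2 * ∫ t in (0 : ℝ)..T, ‖A t + e t * P t‖ ^ 2 := by
  have i1 : IntervalIntegrable (fun t => ‖A t‖ ^ 2) volume 0 T :=
    (Continuous.pow hA.norm 2).intervalIntegrable _ _
  have i2 : IntervalIntegrable (fun t => ‖P t‖ ^ 2) volume 0 T :=
    (Continuous.pow hP.norm 2).intervalIntegrable _ _
  have i3 : IntervalIntegrable (fun t => ‖A t + e t * P t‖ ^ 2) volume 0 T :=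
    (Continuous.pow (hA.add (hec.mul hP)).norm 2).intervalIntegrable _ _
  rw [← intervalIntegral.integral_const_mul, ← intervalIntegral.integral_const_mul,
    ← intervalIntegral.integral_add (i2.const_mul 2) (i3.const_mul 2)]
  apply intervalIntegral.integral_mono_on hT i1
  · exact (i2.const_mul 2).add (i3.const_mul 2)
  · intro t _
    exact localU_pt _ _ _ (he t)

private lemma localU_log {T : ℝ} (hT : 2 ≤ T) : Real.log T ^ 3 ≤ 4 * (T * (1 + Real.log T)) := by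
  have hT0 : 0 < T := by linarith
  have hL0 : 0 ≤ Real.log T := Real.log_nonneg (by linarith)
  have h1 : Real.log T ≤ 2 * Real.sqrt T := by
    have h2 : Real.log (Real.sqrt T) ≤ Real.sqrt T := by
      have := Real.log_le_sub_one_of_pos (Real.sqrt_pos.mpr hT0)
      linarith
    rw [Real.log_sqrt hT0.le] at h2
    linarith
  have h3 : Real.log T ^ 2 ≤ 4 * T := by
    have h4 : Real.log T ^ 2 ≤ (2 * Real.sqrt T) ^ 2 := pow_le_pow_left₀ hL0 h1 2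
    have h5 : (2 * Real.sqrt T) ^ 2 = 4 * T := by
      rw [mul_pow, Real.sq_sqrt hT0.le]; norm_num
    linarith
  calc Real.log T ^ 3 = Real.log T ^ 2 * Real.log T := by ring
    _ ≤ 4 * T * Real.log T := mul_le_mul_of_nonneg_right h3 hL0
    _ ≤ 4 * (T * (1 + Real.log T)) := by nlinarith

theorem local_upper (hRH : RiemannHypothesis) {W : ℝ → ℝ} {s : ℝ} (hW : EB W s) (hs0 : 0 < s) (hs : s ≤ 3 / 4)
    {u0 : ℝ} (hu0 : s < u0) :
    ∃ C : ℝ, 0 ≤ C ∧ ∀ T y : ℝ, 2 ≤ T → u0 ≤ y → y ≤ 2 * Real.log T →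
      ∫ u, W (u - y) ^ 2 * ‖SS T u‖ ^ 2 ≤ C * (T + Real.exp y) * (1 + Real.log T) := by
  obtain ⟨Ce, hCe0, hCe⟩ := ef hRH hW hs0 hs hu0
  obtain ⟨Ct, hCt0, hCt⟩ := trunc hRH hW.es hs
  obtain ⟨Cp, hCp0, hCp⟩ := prime_sq hRH hW hs
  obtain ⟨Cm, hCm0, hCm⟩ := mv2
  set w : ℝ := ∫ u, W u ^ 2 with hw
  have hw0 : 0 ≤ w := integral_nonneg (fun u => sq_nonneg _)
  refine ⟨2 * (Cm * Real.exp s * (2 * w + Cp)) + 2 * Ce + 4 * Ct, by positivity, ?_⟩
  intro T y hTge2 hy1 hy2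
  have hT0 : 0 < T := by linarith
  set L := Real.log T with hL
  have hL0 : 0 ≤ L := Real.log_nonneg (by linarith)
  have hy0 : 0 ≤ y := by linarith
  obtain ⟨S, hS1, hS2, hS3⟩ := PP_finite hW.es y
  have hp := hCp y hy0
  rw [hS3] at hp
  set Q : ℝ := ∑ n ∈ S, (ArithmeticFunction.vonMangoldt n * Real.exp (-(Real.log n / 2)) * W (Real.log n - y)) ^ 2
    with hQ
  have hQ0 : 0 ≤ Q := Finset.sum_nonneg (fun n _ => sq_nonneg _)
  have hmv := hCm S (fun n => ArithmeticFunction.vonMangoldt n * Real.exp (-(Real.log n / 2)) * W (Real.log n - y))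
    (Real.exp (y + s)) T (Real.one_le_exp (by linarith)) (by linarith) hS1
  have hPPe : (fun t : ℝ => ‖PP W t y‖ ^ 2) = fun t : ℝ => ‖∑ n ∈ S, (((fun n : ℕ =>
      ArithmeticFunction.vonMangoldt n * Real.exp (-(Real.log n / 2)) * W (Real.log n - y)) n : ℝ) : ℂ) *
      cexp (((-(t * Real.log n) : ℝ) : ℂ) * I)‖ ^ 2 := by
    funext t
    rw [hS2 t]
  rw [← hPPe] at hmv
  set IP : ℝ := ∫ t in (0 : ℝ)..T, ‖PP W t y‖ ^ 2 with hIP
  set IA : ℝ := ∫ t in (0 : ℝ)..T, ‖AA W t y‖ ^ 2 with hIA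
  have hAP := localU_int (fun t => AA W t y) (fun t => PP W t y)
    (fun t => cexp (((t * y : ℝ) : ℂ) * I)) (fun t => by rw [Complex.norm_exp_ofReal_mul_I])
    (AA_continuous hW.es hs y) (PP_continuous hW.es y) (by fun_prop) hT0.le
  have hD := hCe T y hT0.le hy1
  have hB := hCt T y hTge2
  rw [(planch hW.es T y).2] at hB
  set J : ℝ := ∫ u, W (u - y) ^ 2 * ‖SS T u‖ ^ 2 with hJ
  set ID : ℝ := ∫ t in (0 : ℝ)..T, ‖AA W t y + cexp (((t * y : ℝ) : ℂ) * I) * PP W t y‖ ^ 2 with hID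
  have hJ0 : 0 ≤ J := integral_nonneg (fun u => by positivity)
  have hQle : Q ≤ (2 * w + Cp) * (1 + L) := by
    have h1 := (abs_le.mp hp).2
    have h2 : y * w ≤ 2 * L * w := mul_le_mul_of_nonneg_right hy2 hw0
    nlinarith
  have hey : 0 < Real.exp y := Real.exp_pos y
  have hX : T + Real.exp (y + s) ≤ Real.exp s * (T + Real.exp y) := by
    have h1 : 1 ≤ Real.exp s := Real.one_le_exp hs0.le
    have h2 : T ≤ Real.exp s * T := le_mul_of_one_le_left hT0.le h1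
    rw [add_comm y s, Real.exp_add, mul_add]
    linarith
  have hMV : IP ≤ Cm * Real.exp s * (2 * w + Cp) * ((T + Real.exp y) * (1 + L)) := by
    refine hmv.trans ?_
    have h1 : Cm * (T + Real.exp (y + s)) ≤ Cm * (Real.exp s * (T + Real.exp y)) :=
      mul_le_mul_of_nonneg_left hX hCm0
    have h2 := mul_le_mul h1 hQle hQ0 (by positivity)
    refine h2.trans (le_of_eq ?_)
    ring
  have hlog := localU_log hTge2
  rw [← hL] at hlog
  have hB2 := (abs_le.mp hB).2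
  have hF0 : T * (1 + L) ≤ (T + Real.exp y) * (1 + L) := by
    apply mul_le_mul_of_nonneg_right _ (by linarith)
    linarith
  have hF1 : Real.exp y ≤ (T + Real.exp y) * (1 + L) := by
    have : Real.exp y * 1 ≤ (T + Real.exp y) * (1 + L) := by
      apply mul_le_mul _ _ zero_le_one (by positivity)
      · linarith
      · linarith
    linarith
  have hct : Ct * L ^ 3 ≤ 4 * Ct * ((T + Real.exp y) * (1 + L)) := by
    have h1 : L ^ 3 ≤ 4 * ((T + Real.exp y) * (1 + L)) := by linarith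
    have := mul_le_mul_of_nonneg_left h1 hCt0
    linarith
  have hce : Ce * Real.exp y ≤ Ce * ((T + Real.exp y) * (1 + L)) := mul_le_mul_of_nonneg_left hF1 hCe0
  have hpi : J ≤ 2 * Real.pi * J := by
    have : 1 ≤ 2 * Real.pi := by linarith [Real.pi_gt_three]
    exact le_mul_of_one_le_left hJ0 this
  have hrhs : (2 * (Cm * Real.exp s * (2 * w + Cp)) + 2 * Ce + 4 * Ct) * (T + Real.exp y) * (1 + L) =
      2 * (Cm * Real.exp s * (2 * w + Cp) * ((T + Real.exp y) * (1 + L))) + 2 * (Ce * ((T + Real.exp y) * (1 + L))) +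
      4 * Ct * ((T + Real.exp y) * (1 + L)) := by ring
  rw [hrhs]
  linarith

end Pool.Agent.Lib.MP_00e05b_nt.Mont
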