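import Pool.Agent.Lib.MP_00e05b_nt.Mont.Local
import Pool.Agent.Lib.MP_00e05b_nt.Mont.BasB
import Pool.Agent.Lib.MP_00e05b_nt.Mont.BasA

/-!
# JOB MassP: the mass function of `‖SS T u‖²` on `0 < u < L = log T`

Notation `m(I) = (N0 T * L)⁻¹ ∫_I ‖SS T u‖² du`.

* `kappa_lim`: `local_avg` with `u0 = y0` (`s < y0`) and `δ` such that `x + η < 1 - δ`, uniformly in `y ∈ [y0, y1 T]`:
  `(N0)⁻¹ ∫ W(u-y)² ‖SS‖² du = (y/L) I + o(1)`, `I = ∫ W²`. Integrate over `y ∈ [y0, y1 T]` and divide by `L`.
* `mass_pos`: for `0 < s ≤ 1/4`, `0 < x < 1`: `m([s, x L]) → x²/2`. Let `W` be an `EB W s'` with `s' = s/8`. With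
  `κ u = ∫_{y0}^{y1} W(u-y)² dy` (`= I` on `[y0 + s', y1 - s']`, `0 ≤ κ ≤ I`, `= 0` off `[y0 - s', y1 + s']`) Fubini gives
  `(N0 L)⁻¹ ∫ ‖SS u‖² κ u du = (N0 L)⁻¹ ∫_{y0}^{y1} ∫ W(u-y)² ‖SS u‖² → I x²/2` for `y1 = xL ± s'` (`kappa_lim`).
  Upper bound for `m([s, xL])`: `y0 = s - s'`, `y1 = xL + s'`; lower bound: `y0 = s + s'`, `y1 = xL - s'`.
-/

open Complex Set Filter Topology MeasureTheory
open scoped ContDiff

namespace Pool.Agent.Lib.MP_00e05b_nt.Mont

private theorem MassP_A_eq {W g : ℝ → ℝ} {s : ℝ} (hW : EB W s) (hs0 : 0 < s) (y : ℝ) :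
    ∫ u, W (u - y) ^ 2 * g u = ∫ v in (-s)..s, W v ^ 2 * g (v + y) := by
  have h1 : ∫ u, W (u - y) ^ 2 * g u = ∫ v, W v ^ 2 * g (v + y) := by
    rw [← integral_add_right_eq_self (fun u => W (u - y) ^ 2 * g u) y]
    simp
  rw [h1, intervalIntegral.integral_of_le (by linarith), ← integral_Icc_eq_integral_Ioc]
  rw [setIntegral_eq_integral_of_forall_compl_eq_zero]
  intro v hv
  have : s ≤ |v| := by
    simp only [mem_Icc, not_and_or, not_le] at hv
    rcases hv with hv | hv
    · rw [abs_of_nonpos (by linarith)]; linarith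
    · rw [abs_of_nonneg (by linarith)]; linarith
  simp [hW.supp v this]

private theorem MassP_I_eq {W : ℝ → ℝ} {s : ℝ} (hW : EB W s) (hs0 : 0 < s) :
    ∫ u, W u ^ 2 = ∫ v in (-s)..s, W v ^ 2 := by
  have := MassP_A_eq (g := fun _ => 1) hW hs0 0
  simpa using this

private theorem MassP_I_pos {W : ℝ → ℝ} {s : ℝ} (hW : EB W s) (hs0 : 0 < s) :
    0 < ∫ u, W u ^ 2 := by
  rw [MassP_I_eq hW hs0]
  have hc : Continuous (fun v => W v ^ 2) := (hW.smooth.continuous).pow 2
  apply intervalIntegral.integral_pos (by linarith) hc.continuousOn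
  · intro x _; positivity
  · refine ⟨0, ⟨by linarith, by linarith⟩, ?_⟩
    rw [hW.one 0 (by simp; linarith)]
    norm_num

private theorem MassP_A_cont {W g : ℝ → ℝ} {s : ℝ} (hW : EB W s) (hs0 : 0 < s) (hg : Continuous g) :
    Continuous (fun y => ∫ u, W (u - y) ^ 2 * g u) := by
  simp_rw [MassP_A_eq (g := g) hW hs0]
  apply intervalIntegral.continuous_parametric_intervalIntegral_of_continuous'
  have := hW.smooth.continuous
  fun_prop

private theorem MassP_swap {W g : ℝ → ℝ} {s : ℝ} (hW : EB W s) (hs0 : 0 < s) (hg : Continuous g) (a b : ℝ) :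
    ∫ y in a..b, ∫ u, W (u - y) ^ 2 * g u = ∫ v in (-s)..s, W v ^ 2 * ∫ y in (a + v)..(b + v), g y := by
  simp_rw [MassP_A_eq (g := g) hW hs0]
  have hWc := hW.smooth.continuous
  rw [intervalIntegral_intervalIntegral_swap]
  · apply intervalIntegral.integral_congr
    intro v _
    simp only
    rw [intervalIntegral.integral_const_mul]
    congr 1
    have : ∫ y in a..b, g (v + y) = ∫ y in a..b, g (y + v) := by
      simp_rw [add_comm v]
    rw [this, intervalIntegral.integral_comp_add_right]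
  · rw [Set.uIoc, Set.uIoc]
    have hc : Continuous (Function.uncurry fun (y v : ℝ) => W v ^ 2 * g (v + y)) := by
      simp only [Function.uncurry_def]
      fun_prop
    exact (hc.continuousOn.integrableOn_compact (isCompact_Icc.prod isCompact_Icc)).mono_set
      (Set.prod_mono Set.Ioc_subset_Icc_self Set.Ioc_subset_Icc_self)

private theorem MassP_bounds {W g : ℝ → ℝ} {s : ℝ} (hW : EB W s) (hs0 : 0 < s) (hg : Continuous g)
    (hg0 : ∀ u, 0 ≤ g u) {a b : ℝ} (hab : a + s ≤ b - s) :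
    (∫ u, W u ^ 2) * (∫ y in (a + s)..(b - s), g y) ≤ ∫ y in a..b, ∫ u, W (u - y) ^ 2 * g u ∧
    ∫ y in a..b, ∫ u, W (u - y) ^ 2 * g u ≤ (∫ u, W u ^ 2) * (∫ y in (a - s)..(b + s), g y) := by
  have hWc := hW.smooth.continuous
  rw [MassP_swap hW hs0 hg, MassP_I_eq hW hs0, ← intervalIntegral.integral_mul_const,
    ← intervalIntegral.integral_mul_const]
  have hGc : Continuous (fun v => ∫ y in (a + v)..(b + v), g y) := by
    have h1 : ∀ v, ∫ y in (a + v)..(b + v), g y = (∫ y in (0:ℝ)..(b + v), g y) - ∫ y in (0:ℝ)..(a + v), g y := by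
      intro v
      rw [← intervalIntegral.integral_interval_sub_left (hg.intervalIntegrable _ _) (hg.intervalIntegrable _ _)]
    simp_rw [h1]
    have h2 : Continuous (fun x => ∫ y in (0:ℝ)..x, g y) :=
      intervalIntegral.continuous_primitive (fun _ _ => hg.intervalIntegrable _ _) 0
    exact (h2.comp (by fun_prop)).sub (h2.comp (by fun_prop))
  have hI1 : IntervalIntegrable (fun v => W v ^ 2 * ∫ y in (a + v)..(b + v), g y) volume (-s) s :=
    ((hWc.pow 2).mul hGc).intervalIntegrable _ _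
  have hI2 : ∀ c : ℝ, IntervalIntegrable (fun v => W v ^ 2 * c) volume (-s) s := fun c =>
    ((hWc.pow 2).mul continuous_const).intervalIntegrable _ _
  have mono : ∀ {p q p' q' : ℝ}, p' ≤ p → p ≤ q → q ≤ q' → ∫ y in p..q, g y ≤ ∫ y in p'..q', g y := by
    intro p q p' q' h1 h2 h3
    apply intervalIntegral.integral_mono_interval h1 h2 h3
    · exact Filter.Eventually.of_forall hg0
    · exact hg.intervalIntegrable _ _
  constructor
  · apply intervalIntegral.integral_mono_on (by linarith) (hI2 _) hI1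
    intro v hv
    exact mul_le_mul_of_nonneg_left (mono (by linarith [hv.2]) hab (by linarith [hv.1])) (by positivity)
  · apply intervalIntegral.integral_mono_on (by linarith) hI1 (hI2 _)
    intro v hv
    exact mul_le_mul_of_nonneg_left (mono (by linarith [hv.1]) (by linarith) (by linarith [hv.2])) (by positivity)

theorem kappa_lim (hRH : RiemannHypothesis) {W : ℝ → ℝ} {s : ℝ} (hW : EB W s) (hs0 : 0 < s) (hs : s ≤ 3 / 4)
    {y0 x c : ℝ} (hy0 : s < y0) (hx0 : 0 < x) (hx1 : x < 1) :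
    Tendsto (fun T : ℝ => (N0 T * Real.log T)⁻¹ * ∫ y in y0..(x * Real.log T + c), ∫ u, W (u - y) ^ 2 * ‖SS T u‖ ^ 2)
      atTop (𝓝 (x ^ 2 / 2 * ∫ u, W u ^ 2)) := by
  set I := ∫ u, W u ^ 2 with hI
  have hL : Tendsto Real.log atTop atTop := Real.tendsto_log_atTop
  have hLi : Tendsto (fun T : ℝ => (Real.log T)⁻¹) atTop (𝓝 0) := tendsto_inv_atTop_zero.comp hL
  -- the main term
  have hmain : Tendsto (fun T : ℝ => I / 2 * ((x + c * (Real.log T)⁻¹) ^ 2 - (y0 * (Real.log T)⁻¹) ^ 2))
      atTop (𝓝 (x ^ 2 / 2 * I)) := by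
    have : x ^ 2 / 2 * I = I / 2 * ((x + c * 0) ^ 2 - (y0 * 0) ^ 2) := by ring
    rw [this]
    exact ((((hLi.const_mul c).const_add x).pow 2).sub ((hLi.const_mul y0).pow 2)).const_mul _
  -- the error term
  have herr : Tendsto (fun T : ℝ => ((N0 T * Real.log T)⁻¹ * ∫ y in y0..(x * Real.log T + c),
      ∫ u, W (u - y) ^ 2 * ‖SS T u‖ ^ 2) -
      I / 2 * ((x + c * (Real.log T)⁻¹) ^ 2 - (y0 * (Real.log T)⁻¹) ^ 2)) atTop (𝓝 0) := by
    rw [Metric.tendsto_nhds]
    intro ε hε
    set K : ℝ := x + |c| + |y0| + 1 with hK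
    have hKpos : 0 < K := by positivity
    have hε' : 0 < ε / (2 * K) := by positivity
    have hδ : 0 < (1 - x) / 2 := by linarith
    have hloc := local_avg hRH hW hs0 hs hy0 hδ (by linarith) (ε / (2 * K)) hε'
    filter_upwards [hloc, hL.eventually_ge_atTop 1, hL.eventually_ge_atTop (c / ((1 - x) / 2)),
      hL.eventually_ge_atTop ((y0 - c) / x), eventually_gt_atTop 1] with T hT hT1 hTc hTy hT2
    have hLpos : 0 < Real.log T := by linarith
    have hyy : y0 ≤ x * Real.log T + c := by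
      rw [div_le_iff₀ hx0] at hTy
      linarith
    have hyup : x * Real.log T + c ≤ (1 - (1 - x) / 2) * Real.log T := by
      rw [div_le_iff₀ hδ] at hTc
      nlinarith
    have hN := N0_pos hT2
    have hAc : Continuous (fun y => ∫ u, W (u - y) ^ 2 * ‖SS T u‖ ^ 2) :=
      MassP_A_cont (g := fun u => ‖SS T u‖ ^ 2) hW hs0 (by
        have := continuous_SS T
        fun_prop)
    have e1 : ∫ y in y0..(x * Real.log T + c), y / Real.log T * I =
        Real.log T * (I / 2 * ((x + c * (Real.log T)⁻¹) ^ 2 - (y0 * (Real.log T)⁻¹) ^ 2)) := by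
      have : ∀ y : ℝ, y / Real.log T * I = (I / Real.log T) * y := by intro y; ring
      simp_rw [this]
      rw [intervalIntegral.integral_const_mul, integral_id]
      field_simp
    have e2 : ((N0 T * Real.log T)⁻¹ * ∫ y in y0..(x * Real.log T + c),
        ∫ u, W (u - y) ^ 2 * ‖SS T u‖ ^ 2) -
        I / 2 * ((x + c * (Real.log T)⁻¹) ^ 2 - (y0 * (Real.log T)⁻¹) ^ 2) =
        (Real.log T)⁻¹ * ∫ y in y0..(x * Real.log T + c),
          ((N0 T)⁻¹ * (∫ u, W (u - y) ^ 2 * ‖SS T u‖ ^ 2) - y / Real.log T * I) := by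
      rw [intervalIntegral.integral_sub, e1, intervalIntegral.integral_const_mul]
      · field_simp
      · exact (continuous_const.mul hAc).intervalIntegrable _ _
      · apply Continuous.intervalIntegrable
        fun_prop
    rw [e2, Real.dist_eq, sub_zero, abs_mul, abs_of_pos (inv_pos.mpr hLpos)]
    have e3 : |∫ y in y0..(x * Real.log T + c),
          ((N0 T)⁻¹ * (∫ u, W (u - y) ^ 2 * ‖SS T u‖ ^ 2) - y / Real.log T * I)| ≤
        ε / (2 * K) * |x * Real.log T + c - y0| := by
      rw [← Real.norm_eq_abs]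
      apply intervalIntegral.norm_integral_le_of_norm_le_const
      intro y hy
      rw [uIoc_of_le hyy] at hy
      exact hT y hy.1.le (hy.2.trans hyup)
    have e4 : |x * Real.log T + c - y0| ≤ K * Real.log T := by
      have h1 : |x * Real.log T + c - y0| ≤ x * Real.log T + |c| + |y0| := by
        calc |x * Real.log T + c - y0| ≤ |x * Real.log T + c| + |y0| := abs_sub _ _
          _ ≤ |x * Real.log T| + |c| + |y0| := by gcongr; exact abs_add_le _ _
          _ = x * Real.log T + |c| + |y0| := by rw [abs_of_pos (by positivity)]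
      have h2 : |c| ≤ |c| * Real.log T := le_mul_of_one_le_right (abs_nonneg _) hT1
      have h3 : |y0| ≤ |y0| * Real.log T := le_mul_of_one_le_right (abs_nonneg _) hT1
      rw [hK]
      nlinarith
    calc (Real.log T)⁻¹ * _ ≤ (Real.log T)⁻¹ * (ε / (2 * K) * (K * Real.log T)) := by
          gcongr
          exact e3.trans (by gcongr)
      _ = ε / 2 := by field_simp
      _ < ε := by linarith
  have := hmain.add herr
  simpa using this

theorem mass_pos (hRH : RiemannHypothesis) {s x : ℝ} (hs0 : 0 < s) (hs : s ≤ 1 / 4) (hx0 : 0 < x) (hx1 : x < 1) :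
    Tendsto (fun T : ℝ => (N0 T * Real.log T)⁻¹ * ∫ u in s..(x * Real.log T), ‖SS T u‖ ^ 2)
      atTop (𝓝 (x ^ 2 / 2)) := by
  obtain ⟨W, hW⟩ := exists_EB (s / 8) (by positivity)
  have hs8 : 0 < s / 8 := by positivity
  have hIpos := MassP_I_pos hW hs8
  set I := ∫ u, W u ^ 2 with hI
  have hL : Tendsto Real.log atTop atTop := Real.tendsto_log_atTop
  have up := (kappa_lim hRH hW hs8 (by linarith) (y0 := s - s / 8) (x := x) (c := s / 8) (by linarith) hx0 hx1).const_mul I⁻¹
  have lo := (kappa_lim hRH hW hs8 (by linarith) (y0 := s + s / 8) (x := x) (c := -(s / 8)) (by linarith) hx0 hx1).const_mul I⁻¹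
  have e : I⁻¹ * (x ^ 2 / 2 * I) = x ^ 2 / 2 := by field_simp
  rw [e] at up lo
  refine tendsto_of_tendsto_of_tendsto_of_le_of_le' lo up ?_ ?_
  · filter_upwards [eventually_gt_atTop 1, hL.eventually_ge_atTop ((s + 4 * (s / 8)) / x)] with T hT hT2
    have hLpos : 0 < Real.log T := Real.log_pos hT
    have hNL : 0 < N0 T * Real.log T := mul_pos (N0_pos hT) hLpos
    rw [div_le_iff₀ hx0] at hT2
    have hg : Continuous (fun u => ‖SS T u‖ ^ 2) := by
      have := continuous_SS T
      fun_prop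
    have hb := (MassP_bounds hW hs8 hg (fun u => by positivity) (a := s + s / 8) (b := x * Real.log T + -(s / 8))
      (by linarith)).2
    have e1 : s + s / 8 - s / 8 = s := by ring
    have e2 : x * Real.log T + -(s / 8) + s / 8 = x * Real.log T := by ring
    rw [e1, e2] at hb
    rw [← mul_assoc, mul_comm I⁻¹, mul_assoc]
    apply mul_le_mul_of_nonneg_left _ (inv_nonneg.mpr hNL.le)
    rw [inv_mul_le_iff₀ hIpos]
    exact hb
  · filter_upwards [eventually_gt_atTop 1, hL.eventually_ge_atTop ((s + 4 * (s / 8)) / x)] with T hT hT2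
    have hLpos : 0 < Real.log T := Real.log_pos hT
    have hNL : 0 < N0 T * Real.log T := mul_pos (N0_pos hT) hLpos
    rw [div_le_iff₀ hx0] at hT2
    have hg : Continuous (fun u => ‖SS T u‖ ^ 2) := by
      have := continuous_SS T
      fun_prop
    have hb := (MassP_bounds hW hs8 hg (fun u => by positivity) (a := s - s / 8) (b := x * Real.log T + (s / 8))
      (by linarith)).1
    have e1 : s - s / 8 + s / 8 = s := by ring
    have e2 : x * Real.log T + (s / 8) - s / 8 = x * Real.log T := by ring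
    rw [e1, e2] at hb
    rw [← mul_assoc, mul_comm I⁻¹, mul_assoc]
    apply mul_le_mul_of_nonneg_left _ (inv_nonneg.mpr hNL.le)
    rw [le_inv_mul_iff₀ hIpos]
    exact hb

end Pool.Agent.Lib.MP_00e05b_nt.Mont
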