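import Pool.Agent.Lib.MP_00e05b_nt.Mont.Mass0
import Pool.Agent.Lib.MP_00e05b_nt.Mont.MassP

/-!
# JOB Mass: the mass function of `‖SS T u‖²` on `|u| < L = log T` (short)

With `s = 1/4` and `m(I) = (N0 T * L)⁻¹ ∫_I ‖SS T u‖² du`: `m([-xL, xL]) = m([-s,s]) + 2 m([s, xL])` (`SS_neg`) `→ 1 + x²`
(`mass_zero`, `mass_pos`).
-/

open Complex Set Filter Topology MeasureTheory
open scoped ContDiff

namespace Pool.Agent.Lib.MP_00e05b_nt.Mont

theorem mass_main (hRH : RiemannHypothesis) {x : ℝ} (hx0 : 0 < x) (hx1 : x < 1) :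
    Tendsto (fun T : ℝ => (N0 T * Real.log T)⁻¹ * ∫ u in (-(x * Real.log T))..(x * Real.log T), ‖SS T u‖ ^ 2)
      atTop (𝓝 (1 + x ^ 2)) := by
  have hs0 : (0 : ℝ) < 1 / 4 := by norm_num
  have h0 := mass_zero hRH hs0 le_rfl
  have h1 := mass_pos hRH hs0 le_rfl hx0 hx1
  have hcont : ∀ T : ℝ, Continuous (fun u : ℝ => ‖SS T u‖ ^ 2) := by
    intro T
    unfold SS
    fun_prop
  have heq : ∀ T : ℝ, (N0 T * Real.log T)⁻¹ * ∫ u in (-(x * Real.log T))..(x * Real.log T), ‖SS T u‖ ^ 2 =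
      (N0 T * Real.log T)⁻¹ * (∫ u in (-(1 / 4 : ℝ))..(1 / 4), ‖SS T u‖ ^ 2) +
      2 * ((N0 T * Real.log T)⁻¹ * ∫ u in (1 / 4 : ℝ)..(x * Real.log T), ‖SS T u‖ ^ 2) := by
    intro T
    have hint : ∀ a b : ℝ, IntervalIntegrable (fun u : ℝ => ‖SS T u‖ ^ 2) volume a b :=
      fun a b => (hcont T).intervalIntegrable a b
    have e1 : ∫ u in (-(x * Real.log T))..(x * Real.log T), ‖SS T u‖ ^ 2 =
        (∫ u in (-(x * Real.log T))..(-(1 / 4 : ℝ)), ‖SS T u‖ ^ 2) +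
        (∫ u in (-(1 / 4 : ℝ))..(1 / 4), ‖SS T u‖ ^ 2) +
        ∫ u in (1 / 4 : ℝ)..(x * Real.log T), ‖SS T u‖ ^ 2 := by
      rw [intervalIntegral.integral_add_adjacent_intervals (hint _ _) (hint _ _),
        intervalIntegral.integral_add_adjacent_intervals (hint _ _) (hint _ _)]
    have e2 : (∫ u in (-(x * Real.log T))..(-(1 / 4 : ℝ)), ‖SS T u‖ ^ 2) =
        ∫ u in (1 / 4 : ℝ)..(x * Real.log T), ‖SS T u‖ ^ 2 := by
      rw [← intervalIntegral.integral_comp_neg (fun u : ℝ => ‖SS T u‖ ^ 2)]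
      refine intervalIntegral.integral_congr fun u _ => ?_
      simp only [SS_neg]
    rw [e1, e2]
    ring
  have hlim : Tendsto (fun T : ℝ => (N0 T * Real.log T)⁻¹ * (∫ u in (-(1 / 4 : ℝ))..(1 / 4), ‖SS T u‖ ^ 2) +
      2 * ((N0 T * Real.log T)⁻¹ * ∫ u in (1 / 4 : ℝ)..(x * Real.log T), ‖SS T u‖ ^ 2))
      atTop (𝓝 (1 + 2 * (x ^ 2 / 2))) := h0.add (h1.const_mul 2)
  have he : (1 : ℝ) + 2 * (x ^ 2 / 2) = 1 + x ^ 2 := by ring
  rw [he] at hlim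
  exact hlim.congr fun T => (heq T).symm

end Pool.Agent.Lib.MP_00e05b_nt.Mont
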