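import Pool.Agent.Lib.MP_00e05b_nt.Mont.Spike
import Pool.Agent.Lib.MP_00e05b_nt.Mont.BasB

/-!
# JOB Mass0: the mass at the origin, sharp cutoff

`mass_zero`: for `0 < s ≤ 1/4`, `(N0 T * L)⁻¹ ∫_{-s}^s ‖SS T u‖² du → 1`. With `W` an `EB W s` (`exists_EB`): `W² ≤ 1_{[-s,s]}`, so
`liminf ≥ 1` by `spike`; with `W` an `EB W (2s)`: `1_{[-s,s]} ≤ W²`, so `limsup ≤ 1`.
-/

open Complex Set Filter Topology MeasureTheory
open scoped ContDiff

namespace Pool.Agent.Lib.MP_00e05b_nt.Mont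

lemma mz_int {W : ℝ → ℝ} {r : ℝ} (hW : EB W r) (T : ℝ) :
    Integrable (fun u => W u ^ 2 * ‖SS T u‖ ^ 2) := by
  have hc : Continuous W := ES.continuous hW.es
  have hcs : HasCompactSupport W := ES.compact hW.es
  refine Continuous.integrable_of_hasCompactSupport ?_ ?_
  · exact (hc.pow 2).mul ((continuous_SS T).norm.pow 2)
  · refine HasCompactSupport.mul_right ?_
    exact hcs.comp_left (g := fun x : ℝ => x ^ 2) (by simp)

lemma mz_indInt (s T : ℝ) :
    Integrable ((Ioc (-s) s).indicator (fun u => ‖SS T u‖ ^ 2)) := by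
  rw [integrable_indicator_iff measurableSet_Ioc]
  exact (((continuous_SS T).norm.pow 2).integrableOn_Icc (a := -s) (b := s)).mono_set Ioc_subset_Icc_self

lemma mz_eq {s : ℝ} (hs0 : 0 < s) (T : ℝ) :
    ∫ u in (-s)..s, ‖SS T u‖ ^ 2 = ∫ u, (Ioc (-s) s).indicator (fun u => ‖SS T u‖ ^ 2) u := by
  rw [intervalIntegral.integral_of_le (by linarith), integral_indicator measurableSet_Ioc]

lemma mz_lower {W : ℝ → ℝ} {s : ℝ} (hW : EB W s) (hs0 : 0 < s) (T : ℝ) :
    ∫ u, W u ^ 2 * ‖SS T u‖ ^ 2 ≤ ∫ u in (-s)..s, ‖SS T u‖ ^ 2 := by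
  rw [mz_eq hs0]
  refine integral_mono (mz_int hW T) (mz_indInt s T) ?_
  intro u
  by_cases hu : u ∈ Ioc (-s) s
  · simp only [indicator_of_mem hu]
    have h1 : W u ^ 2 ≤ 1 := pow_le_one₀ (hW.nonneg u) (hW.le_one u)
    nlinarith [sq_nonneg ‖SS T u‖]
  · simp only [indicator_of_notMem hu]
    have h2 : s ≤ |u| := by
      by_contra hlt
      push Not at hlt
      exact hu ⟨(abs_lt.mp hlt).1, (abs_lt.mp hlt).2.le⟩
    rw [hW.supp u h2]
    simp

lemma mz_upper {W : ℝ → ℝ} {s : ℝ} (hW : EB W (2 * s)) (hs0 : 0 < s) (T : ℝ) :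
    ∫ u in (-s)..s, ‖SS T u‖ ^ 2 ≤ ∫ u, W u ^ 2 * ‖SS T u‖ ^ 2 := by
  rw [mz_eq hs0]
  refine integral_mono (mz_indInt s T) (mz_int hW T) ?_
  intro u
  by_cases hu : u ∈ Ioc (-s) s
  · simp only [indicator_of_mem hu]
    have h2 : |u| ≤ 2 * s / 2 := by
      rw [abs_le]
      constructor
      · linarith [hu.1]
      · linarith [hu.2]
    rw [hW.one u h2]
    simp
  · simp only [indicator_of_notMem hu]
    positivity

theorem mass_zero (hRH : RiemannHypothesis) {s : ℝ} (hs0 : 0 < s) (hs : s ≤ 1 / 4) :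
    Tendsto (fun T : ℝ => (N0 T * Real.log T)⁻¹ * ∫ u in (-s)..s, ‖SS T u‖ ^ 2) atTop (𝓝 1) := by
  obtain ⟨W, hW⟩ := exists_EB s hs0
  obtain ⟨V, hV⟩ := exists_EB (2 * s) (by linarith)
  have h1 := spike hRH hW hs0 (by linarith)
  have h2 := spike hRH hV (by linarith) (by linarith)
  have hpos : ∀ᶠ T : ℝ in atTop, 0 ≤ (N0 T * Real.log T)⁻¹ := by
    filter_upwards [eventually_gt_atTop (1 : ℝ)] with T hT
    have := N0_pos hT
    have := Real.log_pos hT
    positivity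
  refine tendsto_of_tendsto_of_tendsto_of_le_of_le' h1 h2 ?_ ?_
  · filter_upwards [hpos] with T hT
    exact mul_le_mul_of_nonneg_left (mz_lower hW hs0 T) hT
  · filter_upwards [hpos] with T hT
    exact mul_le_mul_of_nonneg_left (mz_upper hV hs0 T) hT

end Pool.Agent.Lib.MP_00e05b_nt.Mont
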