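import Pool.Agent.Lib.MP_00e05b_nt.Mont.BasB

/-!
# JOB PD: `F` is positive definite

By `FF_cos` and `cos (θ (b - b')) = cos θb cos θb' + sin θb sin θb'`, for every pair `(γ, γ')` (with `θ = log T (γ - γ')`)
`∑_{i,j} c_i c_j ∫_{I_i} ∫_{I_j} cos (θ (b - b')) = (∑ c_i ∫_{I_i} cos θb)² + (∑ c_i ∫_{I_i} sin θb)² ≥ 0`, and
`weight ≥ 0`, multiplicities `≥ 0`, `N0 T > 0`.
-/

open Complex Set Filter Topology MeasureTheory

namespace Pool.Agent.Lib.MP_00e05b_nt.Mont

private lemma PD_int (θ p q p' q' : ℝ) :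
    ∫ b in p..q, ∫ b' in p'..q', Real.cos ((b - b') * θ) =
      (∫ b in p..q, Real.cos (b * θ)) * (∫ b in p'..q', Real.cos (b * θ)) +
      (∫ b in p..q, Real.sin (b * θ)) * (∫ b in p'..q', Real.sin (b * θ)) := by
  have h1 : ∀ b : ℝ, ∫ b' in p'..q', Real.cos ((b - b') * θ) =
      Real.cos (b * θ) * (∫ b in p'..q', Real.cos (b * θ)) +
      Real.sin (b * θ) * (∫ b in p'..q', Real.sin (b * θ)) := by
    intro b
    rw [← intervalIntegral.integral_const_mul, ← intervalIntegral.integral_const_mul,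
      ← intervalIntegral.integral_add]
    · refine intervalIntegral.integral_congr fun b' _ => ?_
      rw [sub_mul, Real.cos_sub]
    · apply Continuous.intervalIntegrable
      fun_prop
    · apply Continuous.intervalIntegrable
      fun_prop
  simp only [h1]
  rw [intervalIntegral.integral_add, intervalIntegral.integral_mul_const,
    intervalIntegral.integral_mul_const]
  · apply Continuous.intervalIntegrable
    fun_prop
  · apply Continuous.intervalIntegrable
    fun_prop

theorem posdef {T : ℝ} (hT : 1 < T) {n : ℕ} (c p q : Fin n → ℝ) :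
    0 ≤ ∑ i, ∑ j, c i * c j * ∫ b in (p i)..(q i), ∫ b' in (p j)..(q j), FF (b - b') T := by
  have hT0 : 0 < T := by linarith
  set S := ordinates T
  set L := Real.log T
  set A : Fin n → ℝ → ℝ := fun i θ => ∫ b in (p i)..(q i), Real.cos (b * θ) with hA
  set B : Fin n → ℝ → ℝ := fun i θ => ∫ b in (p i)..(q i), Real.sin (b * θ) with hB
  have h1 : ∀ i j, ∫ b in (p i)..(q i), ∫ b' in (p j)..(q j), FF (b - b') T =
      ∑ γ ∈ S, ∑ γ' ∈ S, (N0 T)⁻¹ * ((mult γ : ℝ) * (mult γ' : ℝ) * weight (γ - γ')) *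
        (A i (L * (γ - γ')) * A j (L * (γ - γ')) + B i (L * (γ - γ')) * B j (L * (γ - γ'))) := by
    intro i j
    have e1 : ∀ b b' : ℝ, FF (b - b') T = ∑ γ ∈ S, ∑ γ' ∈ S,
        (N0 T)⁻¹ * ((mult γ : ℝ) * (mult γ' : ℝ) * weight (γ - γ')) *
          Real.cos ((b - b') * (L * (γ - γ'))) := by
      intro b b'
      rw [FF_cos hT0, Finset.mul_sum]
      refine Finset.sum_congr rfl fun γ _ => ?_
      rw [Finset.mul_sum]
      refine Finset.sum_congr rfl fun γ' _ => ?_
      rw [mul_assoc (b - b')]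
      ring
    simp only [e1]
    have e2 : ∀ b : ℝ, ∫ b' in (p j)..(q j), ∑ γ ∈ S, ∑ γ' ∈ S,
        (N0 T)⁻¹ * ((mult γ : ℝ) * (mult γ' : ℝ) * weight (γ - γ')) *
          Real.cos ((b - b') * (L * (γ - γ'))) = ∑ γ ∈ S, ∑ γ' ∈ S,
        (N0 T)⁻¹ * ((mult γ : ℝ) * (mult γ' : ℝ) * weight (γ - γ')) *
          ∫ b' in (p j)..(q j), Real.cos ((b - b') * (L * (γ - γ'))) := by
      intro b
      rw [intervalIntegral.integral_finsetSum]
      · refine Finset.sum_congr rfl fun γ _ => ?_
        rw [intervalIntegral.integral_finsetSum]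
        · refine Finset.sum_congr rfl fun γ' _ => ?_
          rw [intervalIntegral.integral_const_mul]
        · intro γ' _
          apply Continuous.intervalIntegrable
          fun_prop
      · intro γ _
        apply Continuous.intervalIntegrable
        fun_prop
    simp only [e2]
    have hc : ∀ θ : ℝ, Continuous (fun b : ℝ => ∫ b' in (p j)..(q j), Real.cos ((b - b') * θ)) := by
      intro θ
      apply intervalIntegral.continuous_parametric_intervalIntegral_of_continuous'
      fun_prop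
    rw [intervalIntegral.integral_finsetSum]
    · refine Finset.sum_congr rfl fun γ _ => ?_
      rw [intervalIntegral.integral_finsetSum]
      · refine Finset.sum_congr rfl fun γ' _ => ?_
        rw [intervalIntegral.integral_const_mul, PD_int]
      · intro γ' _
        exact ((hc _).const_mul _).intervalIntegrable _ _
    · intro γ _
      exact (continuous_finsetSum _ fun γ' _ => (hc _).const_mul _).intervalIntegrable _ _
  simp only [h1]
  have h2 : ∑ i, ∑ j, c i * c j * ∑ γ ∈ S, ∑ γ' ∈ S,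
      (N0 T)⁻¹ * ((mult γ : ℝ) * (mult γ' : ℝ) * weight (γ - γ')) *
        (A i (L * (γ - γ')) * A j (L * (γ - γ')) + B i (L * (γ - γ')) * B j (L * (γ - γ'))) =
      ∑ γ ∈ S, ∑ γ' ∈ S, (N0 T)⁻¹ * ((mult γ : ℝ) * (mult γ' : ℝ) * weight (γ - γ')) *
        ((∑ i, c i * A i (L * (γ - γ'))) ^ 2 + (∑ i, c i * B i (L * (γ - γ'))) ^ 2) := by
    have e3 : ∀ γ γ' : ℝ, ((∑ i, c i * A i (L * (γ - γ'))) ^ 2 +
        (∑ i, c i * B i (L * (γ - γ'))) ^ 2) = ∑ i, ∑ j, c i * c j *
        (A i (L * (γ - γ')) * A j (L * (γ - γ')) + B i (L * (γ - γ')) * B j (L * (γ - γ'))) := by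
      intro γ γ'
      rw [sq, sq, Finset.sum_mul_sum, Finset.sum_mul_sum, ← Finset.sum_add_distrib]
      refine Finset.sum_congr rfl fun i _ => ?_
      rw [← Finset.sum_add_distrib]
      refine Finset.sum_congr rfl fun j _ => ?_
      ring
    simp only [e3, Finset.mul_sum]
    rw [Finset.sum_congr rfl fun i _ => Finset.sum_comm]
    rw [Finset.sum_comm]
    refine Finset.sum_congr rfl fun γ _ => ?_
    rw [Finset.sum_congr rfl fun i _ => Finset.sum_comm]
    rw [Finset.sum_comm]
    refine Finset.sum_congr rfl fun γ' _ => ?_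
    refine Finset.sum_congr rfl fun i _ => Finset.sum_congr rfl fun j _ => ?_
    ring
  rw [h2]
  refine Finset.sum_nonneg fun γ _ => Finset.sum_nonneg fun γ' _ => ?_
  have hw : 0 ≤ weight (γ - γ') := by
    unfold weight
    positivity
  have hN := N0_pos hT
  positivity

end Pool.Agent.Lib.MP_00e05b_nt.Mont
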