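import Pool.Agent.Lib.MP_00e05b_nt.Mont.BasA

/-!
# JOB Planch: Plancherel

* `plancherel_cs`: `f` is a Schwartz function (`HasCompactSupport.toSchwartzMap` or similar); Plancherel for the Fourier transform
  (`SchwartzMap.integral_norm_sq_fourier`, `MeasureTheory.integral_norm_sq_fourier...`; look for the current name) with
  `𝓕 f ξ = ∫ f(u) e^{-2πiuξ} du`, `t = 2π ξ`.
* `planch`: `BB W T t y = ∫ W(u - y) SS T u e^{-it(u-y)} du` (expand `SS`, `ck_cexp`; `W` is even), apply `plancherel_cs` to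
  `f u = W (u - y) * SS T u` (the factor `e^{ity}` has norm one).
-/

open Complex Set Filter Topology MeasureTheory
open scoped ContDiff

namespace Pool.Agent.Lib.MP_00e05b_nt.Mont

theorem plancherel_cs {f : ℝ → ℂ} (hf : ContDiff ℝ ∞ f) (hc : HasCompactSupport f) :
    Integrable (fun t : ℝ => ‖∫ u, f u * cexp (((-(t * u) : ℝ) : ℂ) * I)‖ ^ 2) ∧
    ∫ t : ℝ, ‖∫ u, f u * cexp (((-(t * u) : ℝ) : ℂ) * I)‖ ^ 2 = 2 * Real.pi * ∫ u, ‖f u‖ ^ 2 := by
  have hpi : (0 : ℝ) < 2 * Real.pi := by positivity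
  set g : SchwartzMap ℝ ℂ := hc.toSchwartzMap hf with hg
  have hgf : ∀ x, g x = f x := fun x => rfl
  have hΦ : ∀ t : ℝ, ‖∫ u, f u * cexp (((-(t * u) : ℝ) : ℂ) * I)‖ ^ 2 =
      ‖(FourierTransform.fourier g : SchwartzMap ℝ ℂ) (t / (2 * Real.pi))‖ ^ 2 := by
    intro t
    congr 2
    rw [SchwartzMap.fourier_coe, Real.fourier_real_eq_integral_exp_smul]
    apply integral_congr_ae
    refine Eventually.of_forall fun u => ?_
    show f u * cexp (((-(t * u) : ℝ) : ℂ) * I) = cexp (((-2 * Real.pi * u * (t / (2 * Real.pi)) : ℝ) : ℂ) * I) • g u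
    rw [smul_eq_mul, hgf, mul_comm]
    congr 4
    field_simp
  simp_rw [hΦ]
  have hint : Integrable (fun ξ : ℝ => ‖(FourierTransform.fourier g : SchwartzMap ℝ ℂ) ξ‖ ^ 2) := by
    have h2 := ((FourierTransform.fourier g : SchwartzMap ℝ ℂ).memLp 2 volume)
    exact (memLp_two_iff_integrable_sq_norm h2.1).1 h2
  refine ⟨hint.comp_div hpi.ne', ?_⟩
  rw [Measure.integral_comp_div (fun ξ : ℝ => ‖(FourierTransform.fourier g : SchwartzMap ℝ ℂ) ξ‖ ^ 2) (2 * Real.pi),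
    abs_of_pos hpi, smul_eq_mul, SchwartzMap.integral_norm_sq_fourier]
  rfl

private theorem planch_transform {W : ℝ → ℝ} {s : ℝ} (hW : ES W s) (T t y : ℝ) :
    ∫ u, ((W (u - y) : ℂ) * SS T u) * cexp (((-(t * u) : ℝ) : ℂ) * I) = cexp (((-(t * y) : ℝ) : ℂ) * I) * BB W T t y := by
  have hterm : ∀ γ : ℝ, Integrable (fun u : ℝ => (mult γ : ℂ) * ((W (u - y) : ℂ) * (cexp (((γ * u : ℝ) : ℂ) * I) * cexp (((-(t * u) : ℝ) : ℂ) * I)))) ∧
      ∫ u : ℝ, (mult γ : ℂ) * ((W (u - y) : ℂ) * (cexp (((γ * u : ℝ) : ℂ) * I) * cexp (((-(t * u) : ℝ) : ℂ) * I))) =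
      cexp (((-(t * y) : ℝ) : ℂ) * I) * ((mult γ : ℂ) * (cexp (((γ * y : ℝ) : ℂ) * I) * (ck W (t - γ) : ℂ))) := by
    intro γ
    have hrew : (fun u : ℝ => (mult γ : ℂ) * ((W (u - y) : ℂ) * (cexp (((γ * u : ℝ) : ℂ) * I) * cexp (((-(t * u) : ℝ) : ℂ) * I)))) =
        fun u : ℝ => (fun v : ℝ => (mult γ : ℂ) * (cexp ((((γ - t) * y : ℝ) : ℂ) * I) * ((W v : ℂ) * cexp ((((γ - t) * v : ℝ) : ℂ) * I)))) (u - y) := by
      funext u
      show (mult γ : ℂ) * ((W (u - y) : ℂ) * (cexp (((γ * u : ℝ) : ℂ) * I) * cexp (((-(t * u) : ℝ) : ℂ) * I))) =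
        (mult γ : ℂ) * (cexp ((((γ - t) * y : ℝ) : ℂ) * I) * ((W (u - y) : ℂ) * cexp ((((γ - t) * (u - y) : ℝ) : ℂ) * I)))
      have e1 : cexp (((γ * u : ℝ) : ℂ) * I) * cexp (((-(t * u) : ℝ) : ℂ) * I) =
          cexp ((((γ - t) * y : ℝ) : ℂ) * I) * cexp ((((γ - t) * (u - y) : ℝ) : ℂ) * I) := by
        rw [← Complex.exp_add, ← Complex.exp_add]
        congr 1
        push_cast
        ring
      rw [e1]
      ring
    have hi : Integrable (fun v : ℝ => (W v : ℂ) * cexp ((((γ - t) * v : ℝ) : ℂ) * I)) := by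
      have h1 : Integrable (fun v : ℝ => (W v : ℂ)) := hW.integrable.ofReal
      have h2 : Continuous (fun v : ℝ => cexp ((((γ - t) * v : ℝ) : ℂ) * I)) := by fun_prop
      refine h1.mul_bdd (c := 1) h2.aestronglyMeasurable (Eventually.of_forall fun v => ?_)
      rw [Complex.norm_exp_ofReal_mul_I]
    rw [hrew]
    refine ⟨((hi.const_mul _).const_mul _).comp_sub_right y, ?_⟩
    rw [integral_sub_right_eq_self (fun v : ℝ => (mult γ : ℂ) * (cexp ((((γ - t) * y : ℝ) : ℂ) * I) * ((W v : ℂ) * cexp ((((γ - t) * v : ℝ) : ℂ) * I)))) y,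
      integral_const_mul, integral_const_mul, ck_cexp hW (γ - t)]
    have e2 : ck W (γ - t) = ck W (t - γ) := by
      rw [← ck_even W (t - γ), neg_sub]
    have e3 : cexp ((((γ - t) * y : ℝ) : ℂ) * I) = cexp (((-(t * y) : ℝ) : ℂ) * I) * cexp (((γ * y : ℝ) : ℂ) * I) := by
      rw [← Complex.exp_add]
      congr 1
      push_cast
      ring
    rw [e2, e3]
    ring
  have hsum : ∀ u : ℝ, ((W (u - y) : ℂ) * SS T u) * cexp (((-(t * u) : ℝ) : ℂ) * I) =
      ∑ γ ∈ ordinates T, (mult γ : ℂ) * ((W (u - y) : ℂ) * (cexp (((γ * u : ℝ) : ℂ) * I) * cexp (((-(t * u) : ℝ) : ℂ) * I))) := by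
    intro u
    unfold SS
    rw [Finset.mul_sum, Finset.sum_mul]
    refine Finset.sum_congr rfl fun γ _ => ?_
    push_cast
    ring
  simp_rw [hsum]
  rw [integral_finsetSum _ (fun γ _ => (hterm γ).1)]
  unfold BB
  rw [Finset.mul_sum]
  exact Finset.sum_congr rfl fun γ _ => (hterm γ).2

theorem planch {W : ℝ → ℝ} {s : ℝ} (hW : ES W s) (T y : ℝ) :
    Integrable (fun t : ℝ => ‖BB W T t y‖ ^ 2) ∧
    ∫ t : ℝ, ‖BB W T t y‖ ^ 2 = 2 * Real.pi * ∫ u, W (u - y) ^ 2 * ‖SS T u‖ ^ 2 := by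
  have hf : ContDiff ℝ ∞ (fun u : ℝ => (W (u - y) : ℂ) * SS T u) := by
    have h1 : ContDiff ℝ ∞ (fun u : ℝ => (W (u - y) : ℂ)) :=
      Complex.ofRealCLM.contDiff.comp (hW.smooth.comp (contDiff_id.sub contDiff_const))
    have h2 : ContDiff ℝ ∞ (fun u : ℝ => SS T u) := by
      unfold SS
      refine ContDiff.sum fun γ _ => ?_
      refine contDiff_const.mul ?_
      have h3 : ContDiff ℝ ∞ (fun u : ℝ => ((γ : ℂ) * (u : ℂ)) * I) :=
        (contDiff_const.mul Complex.ofRealCLM.contDiff).mul contDiff_const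
      exact h3.cexp
    exact h1.mul h2
  have hc : HasCompactSupport (fun u : ℝ => (W (u - y) : ℂ) * SS T u) := by
    refine HasCompactSupport.intro (isCompact_Icc (a := y - s) (b := y + s)) ?_
    intro u hu
    have h1 : W (u - y) = 0 := by
      apply hW.supp
      rw [mem_Icc, not_and_or, not_le, not_le] at hu
      rcases hu with hu | hu
      · exact le_trans (by linarith) (neg_le_abs _)
      · exact le_trans (by linarith) (le_abs_self _)
    rw [h1]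
    simp
  obtain ⟨h1, h2⟩ := plancherel_cs hf hc
  have hn : ∀ t : ℝ, ‖∫ u, ((W (u - y) : ℂ) * SS T u) * cexp (((-(t * u) : ℝ) : ℂ) * I)‖ = ‖BB W T t y‖ := by
    intro t
    rw [planch_transform hW, norm_mul, Complex.norm_exp_ofReal_mul_I, one_mul]
  simp_rw [hn] at h1 h2
  refine ⟨h1, h2.trans ?_⟩
  congr 1
  apply integral_congr_ae
  refine Eventually.of_forall fun u => ?_
  show ‖(W (u - y) : ℂ) * SS T u‖ ^ 2 = W (u - y) ^ 2 * ‖SS T u‖ ^ 2
  rw [norm_mul, mul_pow, Complex.norm_real, Real.norm_eq_abs, sq_abs]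

end Pool.Agent.Lib.MP_00e05b_nt.Mont
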