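import Pool.Agent.Lib.MP_00e05b_nt.Mont.BaseF

/-!
# JOB QI: limits of double integrals of `F(b - b')` over intervals

Let `r t = max 0 (min q (q' + t) - max p (p' + t))`, the length of `[p, q] ∩ ([p', q'] + t)`: continuous, and `r t = 0` for `|t| ≥ 1`
because `q - p' ≤ 1` and `q' - p ≤ 1`. Substituting `t = b - b'` (Fubini) `∫_p^q ∫_{p'}^{q'} FF (b - b') = ∫ FF t * r t dt`,
and by `base_sym` it tends to `r 0 + ∫ |t| r t dt = r 0 + ∫_p^q ∫_{p'}^{q'} |b - b'|`.
-/

open Complex Set Filter Topology MeasureTheory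

namespace Pool.Agent.Lib.MP_00e05b_nt.Mont

/-- the length of `[p, q] ∩ ([p', q'] + t)` -/
noncomputable def QI_r (p q p' q' t : ℝ) : ℝ := max 0 (min q (q' + t) - max p (p' + t))

/-- Fubini and the substitution `t = b - b'` -/
theorem QI_conv {G : ℝ → ℝ} (hG : Continuous G) {p q p' q' : ℝ} (h : p ≤ q) (h' : p' ≤ q') :
    ∫ b in p..q, ∫ b' in p'..q', G (b - b') = ∫ t : ℝ, G t * QI_r p q p' q' t := by
  -- the set
  obtain ⟨K, hK⟩ : ∃ K : Set (ℝ × ℝ), K =
      {z : ℝ × ℝ | p ≤ z.1 ∧ z.1 ≤ q ∧ p' ≤ z.1 - z.2 ∧ z.1 - z.2 ≤ q'} := ⟨_, rfl⟩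
  have hKc : IsClosed K := by
    rw [hK]
    refine ((isClosed_le continuous_const continuous_fst).inter
      ((isClosed_le continuous_fst continuous_const).inter
      ((isClosed_le continuous_const (continuous_fst.sub continuous_snd)).inter
      (isClosed_le (continuous_fst.sub continuous_snd) continuous_const))))
  have hKK : IsCompact K := by
    refine IsCompact.of_isClosed_subset
      (isCompact_Icc.prod isCompact_Icc : IsCompact (Icc p q ×ˢ Icc (p - q') (q - p'))) hKc ?_
    intro z hz
    rw [hK] at hz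
    obtain ⟨h1, h2, h3, h4⟩ := hz
    exact ⟨⟨h1, h2⟩, ⟨by linarith, by linarith⟩⟩
  have hKm : MeasurableSet K := hKc.measurableSet
  have hint : Integrable (K.indicator (fun z : ℝ × ℝ => G z.2)) (volume.prod volume) := by
    rw [integrable_indicator_iff hKm]
    exact (hG.comp continuous_snd).continuousOn.integrableOn_compact hKK
  have hswap := MeasureTheory.integral_integral_swap
    (f := fun b t => K.indicator (fun z : ℝ × ℝ => G z.2) (b, t)) hint
  have hL : ∫ b in p..q, ∫ b' in p'..q', G (b - b') =
      ∫ b : ℝ, ∫ t : ℝ, K.indicator (fun z : ℝ × ℝ => G z.2) (b, t) := by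
    rw [intervalIntegral.integral_of_le h, ← integral_Icc_eq_integral_Ioc,
      ← integral_indicator measurableSet_Icc]
    congr 1
    ext b
    by_cases hb : b ∈ Icc p q
    · rw [indicator_of_mem hb, intervalIntegral.integral_comp_sub_left,
        intervalIntegral.integral_of_le (by linarith), ← integral_Icc_eq_integral_Ioc,
        ← integral_indicator measurableSet_Icc]
      congr 1
      ext t
      by_cases ht : t ∈ Icc (b - q') (b - p')
      · have hm : (b, t) ∈ K := by
          rw [hK]
          exact ⟨hb.1, hb.2, by simp only; linarith [ht.2], by simp only; linarith [ht.1]⟩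
        rw [indicator_of_mem ht, indicator_of_mem hm]
      · have hm : (b, t) ∉ K := by
          rw [hK]
          rintro ⟨-, -, h3, h4⟩
          simp only at h3 h4
          exact ht ⟨by linarith, by linarith⟩
        rw [indicator_of_notMem ht, indicator_of_notMem hm]
    · rw [indicator_of_notMem hb]
      symm
      have : (fun t => K.indicator (fun z : ℝ × ℝ => G z.2) (b, t)) = fun _ => 0 := by
        ext t
        have hm : (b, t) ∉ K := by
          rw [hK]
          rintro ⟨h1, h2, -, -⟩
          exact hb ⟨h1, h2⟩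
        rw [indicator_of_notMem hm]
      rw [this, integral_zero]
  rw [hL, hswap]
  congr 1
  ext t
  have hs : (fun b => K.indicator (fun z : ℝ × ℝ => G z.2) (b, t)) =
      (Icc (max p (p' + t)) (min q (q' + t))).indicator (fun _ => G t) := by
    ext b
    by_cases hb : b ∈ Icc (max p (p' + t)) (min q (q' + t))
    · have hm : (b, t) ∈ K := by
        rw [hK]
        obtain ⟨h1, h2⟩ := hb
        rw [max_le_iff] at h1
        rw [le_min_iff] at h2
        exact ⟨h1.1, h2.1, by simp only; linarith [h1.2], by simp only; linarith [h2.2]⟩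
      rw [indicator_of_mem hb, indicator_of_mem hm]
    · have hm : (b, t) ∉ K := by
        rw [hK]
        rintro ⟨h1, h2, h3, h4⟩
        simp only at h1 h2 h3 h4
        apply hb
        exact ⟨max_le h1 (by linarith), le_min h2 (by linarith)⟩
      rw [indicator_of_notMem hb, indicator_of_notMem hm]
  rw [hs, integral_indicator measurableSet_Icc, setIntegral_const, Real.volume_real_Icc,
    smul_eq_mul, mul_comm]
  unfold QI_r
  rw [max_comm]

theorem QI_r_cont (p q p' q' : ℝ) : Continuous (QI_r p q p' q') := by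
  unfold QI_r
  fun_prop

theorem QI_r_zero {p q p' q' : ℝ} (h1 : q - p' ≤ 1) (h2 : q' - p ≤ 1) (x : ℝ) (hx : 1 ≤ |x|) :
    QI_r p q p' q' x = 0 := by
  unfold QI_r
  apply max_eq_left
  rw [sub_nonpos]
  rcases le_total 0 x with h | h
  · rw [abs_of_nonneg h] at hx
    exact (min_le_left _ _).trans (le_trans (by linarith) (le_max_right _ _))
  · rw [abs_of_nonpos h] at hx
    exact (min_le_right _ _).trans (le_trans (by linarith) (le_max_left _ _))

theorem quad_lim (hRH : RiemannHypothesis) {p q p' q' : ℝ} (h : p ≤ q) (h' : p' ≤ q') (h1 : q - p' ≤ 1)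
    (h2 : q' - p ≤ 1) :
    Tendsto (fun T : ℝ => ∫ b in p..q, ∫ b' in p'..q', FF (b - b') T) atTop
      (𝓝 (max 0 (min q q' - max p p') + ∫ b in p..q, ∫ b' in p'..q', |b - b'|)) := by
  have hb := base_sym hRH (QI_r_cont p q p' q') (QI_r_zero h1 h2)
  have e1 : QI_r p q p' q' 0 = max 0 (min q q' - max p p') := by
    unfold QI_r
    rw [add_zero, add_zero]
  have e2 : ∫ b in p..q, ∫ b' in p'..q', |b - b'| = ∫ x : ℝ, |x| * QI_r p q p' q' x :=
    QI_conv continuous_abs h h'
  rw [e1, ← e2] at hb
  refine hb.congr' ?_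
  filter_upwards [eventually_gt_atTop 0] with T hT
  exact (QI_conv (FF_continuous hT) h h').symm

end Pool.Agent.Lib.MP_00e05b_nt.Mont
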