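import Pool.Agent.Lib.MP_00e05b_nt.Mont.Trunc

/-!
# JOB Spike: the mass at the origin

`planch` and `trunc` at `y = 0`: `2π ∫ W(u)² ‖SS T u‖² du = ∫_0^T ‖AA W t 0‖² dt + O(log³ T)`, and
`AA W t 0 = ∑' a, mx a * ck W (t - a.im) = W 0 * log (2 + |t|) + O(1)` by `zeros_density` (`ck_even`; `EB W s` with `s ≤ 1/2` is
`ES W (5/8)`; `W 0 = 1`). So `∫_0^T ‖AA‖² = T log² T + O(T log T)`. Divide by `2π N0(T) log T = T log² T`.
-/

open Complex Set Filter Topology MeasureTheory
open scoped ContDiff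

namespace Pool.Agent.Lib.MP_00e05b_nt.Mont

private theorem Spike_AA (W : ℝ → ℝ) (t : ℝ) :
    AA W t 0 = ((∑' a : ℂ, (mx a : ℝ) * ck W (a.im - t) : ℝ) : ℂ) := by
  unfold AA
  rw [Complex.ofReal_tsum]
  congr 1
  funext a
  have h1 : ck W (t - a.im) = ck W (a.im - t) := by
    rw [← ck_even]
    congr 1
    ring
  rw [h1]
  push_cast
  simp

theorem spike (hRH : RiemannHypothesis) {W : ℝ → ℝ} {s : ℝ} (hW : EB W s) (hs0 : 0 < s) (hs : s ≤ 1 / 2) :
    Tendsto (fun T : ℝ => (N0 T * Real.log T)⁻¹ * ∫ u, W u ^ 2 * ‖SS T u‖ ^ 2) atTop (𝓝 1) := by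
  obtain ⟨C1, hC1, h1⟩ := trunc hRH hW.es (by linarith)
  have hES : ES W (5 / 8) := ⟨hW.smooth, hW.even, fun u hu => hW.supp u (by linarith)⟩
  obtain ⟨C2, hC2, h2⟩ := zeros_density hRH hES
  have hW0 : W 0 = 1 := hW.one 0 (by rw [abs_zero]; positivity)
  have hcont : Continuous (fun t => AA W t 0) := AA_continuous hW.es (by linarith) 0
  have hcont2 : Continuous (fun t => ‖AA W t 0‖ ^ 2) := hcont.norm.pow 2
  -- pointwise
  have hpt : ∀ t : ℝ, 0 ≤ t → |(∑' a : ℂ, (mx a : ℝ) * ck W (a.im - t)) - Real.log (2 + t)| ≤ C2 := by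
    intro t ht
    have := (h2 t).2
    rwa [hW0, one_mul, abs_of_nonneg ht] at this
  have hnorm : ∀ t : ℝ, ‖AA W t 0‖ ^ 2 = (∑' a : ℂ, (mx a : ℝ) * ck W (a.im - t)) ^ 2 := by
    intro t
    rw [Spike_AA, Complex.norm_real, Real.norm_eq_abs, sq_abs]
  have hup : ∀ T : ℝ, 2 ≤ T → ∫ t in (0 : ℝ)..T, ‖AA W t 0‖ ^ 2 ≤ T * (Real.log T + (1 + C2)) ^ 2 := by
    intro T hT
    have hT0 : 0 < T := by linarith
    have hlog2 : Real.log (2 + T) ≤ Real.log T + 1 := by
      have h3 : Real.log (2 + T) ≤ Real.log (T * 2) := Real.log_le_log (by linarith) (by linarith)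
      rw [Real.log_mul hT0.ne' two_ne_zero] at h3
      have h4 := Real.log_two_lt_d9
      linarith
    have hlogT : 0 ≤ Real.log T := Real.log_nonneg (by linarith)
    calc ∫ t in (0 : ℝ)..T, ‖AA W t 0‖ ^ 2 ≤ ∫ _t in (0 : ℝ)..T, (Real.log T + (1 + C2)) ^ 2 := by
          refine intervalIntegral.integral_mono_on hT0.le (hcont2.intervalIntegrable _ _) (by simp) fun t ht => ?_
          rw [hnorm]
          have h3 := abs_le.1 (hpt t ht.1)
          have h4 : Real.log (2 + t) ≤ Real.log (2 + T) := Real.log_le_log (by linarith [ht.1]) (by linarith [ht.2])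
          have h5 : 0 ≤ Real.log (2 + t) := Real.log_nonneg (by linarith [ht.1])
          apply sq_le_sq'
          · linarith [h3.1]
          · linarith [h3.2]
      _ = T * (Real.log T + (1 + C2)) ^ 2 := by
          rw [intervalIntegral.integral_const, smul_eq_mul, sub_zero]
  have hlow : ∀ T : ℝ, 2 ≤ T → T * Real.log T ^ 2 - 2 * (1 + C2) * (T * Real.log T) ≤ ∫ t in (0 : ℝ)..T, ‖AA W t 0‖ ^ 2 := by
    intro T hT
    have hT0 : 0 < T := by linarith
    have hlogT : 0 ≤ Real.log T := Real.log_nonneg (by linarith)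
    have hil : IntervalIntegrable (fun t : ℝ => Real.log t) volume 0 T := intervalIntegral.intervalIntegrable_log'
    have hi : IntervalIntegrable (fun t : ℝ => 2 * Real.log T * Real.log t - (2 * Real.log T * C2 + Real.log T ^ 2)) volume 0 T :=
      (hil.const_mul _).sub (by simp)
    calc T * Real.log T ^ 2 - 2 * (1 + C2) * (T * Real.log T)
        = ∫ t in (0 : ℝ)..T, (2 * Real.log T * Real.log t - (2 * Real.log T * C2 + Real.log T ^ 2)) := by
          rw [intervalIntegral.integral_sub (hil.const_mul _) (by simp), intervalIntegral.integral_const_mul, integral_log,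
            intervalIntegral.integral_const, smul_eq_mul]
          simp
          ring
      _ ≤ ∫ t in (0 : ℝ)..T, ‖AA W t 0‖ ^ 2 := by
          refine intervalIntegral.integral_mono_on hT0.le hi (hcont2.intervalIntegrable _ _) fun t ht => ?_
          rw [hnorm]
          have h3 := abs_le.1 (hpt t ht.1)
          have h4 : Real.log t ≤ Real.log (2 + t) := by
            rcases eq_or_lt_of_le ht.1 with h | h
            · rw [← h, Real.log_zero]
              exact Real.log_nonneg (by norm_num)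
            · exact Real.log_le_log h (by linarith)
          have h5 : Real.log t - C2 ≤ ∑' a : ℂ, (mx a : ℝ) * ck W (a.im - t) := by linarith [h3.1]
          have h6 : Real.log T * (Real.log t - C2) ≤ Real.log T * ∑' a : ℂ, (mx a : ℝ) * ck W (a.im - t) :=
            mul_le_mul_of_nonneg_left h5 hlogT
          nlinarith [sq_nonneg ((∑' a : ℂ, (mx a : ℝ) * ck W (a.im - t)) - Real.log T)]
  -- the quantity as a quotient
  have hQ : ∀ T : ℝ, 3 ≤ T → (N0 T * Real.log T)⁻¹ * ∫ u, W u ^ 2 * ‖SS T u‖ ^ 2 =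
      (∫ t : ℝ, ‖BB W T t 0‖ ^ 2) / (T * Real.log T ^ 2) := by
    intro T hT
    have h3 := (planch hW.es T 0).2
    simp only [sub_zero] at h3
    rw [h3]
    unfold N0
    have hT0 : T ≠ 0 := by positivity
    have hlogT : Real.log T ≠ 0 := (Real.log_pos (by linarith)).ne'
    have hpi := Real.pi_ne_zero
    field_simp
  have hinv : Tendsto (fun T : ℝ => (Real.log T)⁻¹) atTop (𝓝 0) := Real.tendsto_log_atTop.inv_tendsto_atTop
  have hlT : Tendsto (fun T : ℝ => Real.log T / T) atTop (𝓝 0) := by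
    have := Real.isLittleO_log_id_atTop.tendsto_div_nhds_zero
    simpa using this
  have hL : Tendsto (fun T : ℝ => 1 - 2 * (1 + C2) * (Real.log T)⁻¹ - C1 * (Real.log T / T)) atTop (𝓝 1) := by
    have := ((tendsto_const_nhds (x := (1 : ℝ))).sub (hinv.const_mul (2 * (1 + C2)))).sub (hlT.const_mul C1)
    simpa using this
  have hU : Tendsto (fun T : ℝ => (1 + (1 + C2) * (Real.log T)⁻¹) ^ 2 + C1 * (Real.log T / T)) atTop (𝓝 1) := by
    have := (((tendsto_const_nhds (x := (1 : ℝ))).add (hinv.const_mul (1 + C2))).pow 2).add (hlT.const_mul C1)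
    simpa using this
  refine tendsto_of_tendsto_of_tendsto_of_le_of_le' hL hU ?_ ?_
  · filter_upwards [eventually_ge_atTop (3 : ℝ)] with T hT
    have hT0 : 0 < T := by linarith
    have hlogT : 0 < Real.log T := Real.log_pos (by linarith)
    rw [hQ T hT, le_div_iff₀ (by positivity)]
    have h3 := (abs_le.1 (h1 T 0 (by linarith))).1
    have h4 := hlow T (by linarith)
    have h5 : (1 - 2 * (1 + C2) * (Real.log T)⁻¹ - C1 * (Real.log T / T)) * (T * Real.log T ^ 2) =
        T * Real.log T ^ 2 - 2 * (1 + C2) * (T * Real.log T) - C1 * Real.log T ^ 3 := by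
      field_simp
    rw [h5]
    linarith
  · filter_upwards [eventually_ge_atTop (3 : ℝ)] with T hT
    have hT0 : 0 < T := by linarith
    have hlogT : 0 < Real.log T := Real.log_pos (by linarith)
    rw [hQ T hT, div_le_iff₀ (by positivity)]
    have h3 := (abs_le.1 (h1 T 0 (by linarith))).2
    have h4 := hup T (by linarith)
    have h5 : ((1 + (1 + C2) * (Real.log T)⁻¹) ^ 2 + C1 * (Real.log T / T)) * (T * Real.log T ^ 2) =
        T * (Real.log T + (1 + C2)) ^ 2 + C1 * Real.log T ^ 3 := by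
      field_simp
    rw [h5]
    linarith

end Pool.Agent.Lib.MP_00e05b_nt.Mont
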