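import Pool.Agent.Lib.MP_00e05b_nt.Mont.Defs

/-!
# JOB Symm: symmetry of the zeros, and sums over the ordinates

* `sum_symm`: the bijection `a ↦ 1 - a` (`Equiv.subLeft 1`, `Equiv.tsum_eq`); `mx (1 - a) = mx a` because `xi (1 - s) = xi s`
  (`xi_one_sub`; order of vanishing of a composition with an affine map), and `(1 - a).im = - a.im`.
* `ord_sum`: under RH the zeros with `0 < a.im ≤ T` are the points `1/2 + iγ`, `γ ∈ ordinates T`, `mx (1/2 + iγ) = mult γ`
  (`mx_half`, `re_of_RH`, `xi_half_iff`, `mem_ordinates`, `mx_eq_zero`); the sum on the left has finite support.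
* `ord_sum_le`: `∑' a, mx a * (if 0 < a.im ∧ a.im ≤ T then φ a.im else 0) ≤ ∑' a, mx a * φ a.im`.
-/

open Complex Set Filter Topology MeasureTheory
open scoped ContDiff

namespace Pool.Agent.Lib.MP_00e05b_nt.Mont

private lemma Symm_mx (a : ℂ) : mx (1 - a) = mx a := by
  have hg : AnalyticAt ℂ (fun s : ℂ => 1 - s) a := analyticAt_const.sub analyticAt_id
  have hg' : deriv (fun s : ℂ => 1 - s) a ≠ 0 := by
    have h : HasDerivAt (fun s : ℂ => 1 - s) (-1) a := by
      simpa using (hasDerivAt_id a).const_sub 1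
    rw [h.deriv]
    norm_num
  have h := analyticOrderAt_comp_of_deriv_ne_zero (f := xi) hg hg'
  have he : (xi ∘ fun s : ℂ => 1 - s) = xi := by
    funext s
    exact xi_one_sub s
  rw [he] at h
  unfold mx analyticOrderNatAt
  rw [h]

theorem sum_symm (φ : ℝ → ℝ) :
    ∑' a : ℂ, (mx a : ℝ) * φ a.im = ∑' a : ℂ, (mx a : ℝ) * φ (-a.im) := by
  rw [← (Equiv.subLeft (1 : ℂ)).tsum_eq (fun a : ℂ => (mx a : ℝ) * φ (-a.im))]
  refine tsum_congr fun a => ?_
  simp [Symm_mx]

theorem summable_symm (φ : ℝ → ℝ) (h : Summable (fun a : ℂ => (mx a : ℝ) * φ a.im)) :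
    Summable (fun a : ℂ => (mx a : ℝ) * φ (-a.im)) := by
  have h1 := (Equiv.subLeft (1 : ℂ)).summable_iff.2 h
  refine h1.congr fun a => ?_
  simp [Symm_mx]

theorem ord_sum (hRH : RiemannHypothesis) (T : ℝ) (φ : ℝ → ℂ) :
    ∑' a : ℂ, (mx a : ℂ) * (if 0 < a.im ∧ a.im ≤ T then φ a.im else 0) =
      ∑ γ ∈ ordinates T, (mult γ : ℂ) * φ γ := by
  classical
  have hinj : Function.Injective (fun γ : ℝ => (1 / 2 + γ * I : ℂ)) := by
    intro a b h
    have := congrArg Complex.im h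
    simpa using this
  set S : Finset ℂ := (ordinates T).image (fun γ : ℝ => (1 / 2 + γ * I : ℂ)) with hS
  rw [tsum_eq_sum (s := S)]
  · rw [hS, Finset.sum_image (fun _ _ _ _ h => hinj h)]
    refine Finset.sum_congr rfl fun γ hγ => ?_
    obtain ⟨h0, h1, _⟩ := mem_ordinates.1 hγ
    rw [mx_half, half_im, if_pos ⟨h0, h1⟩]
  · intro a ha
    by_cases hc : 0 < a.im ∧ a.im ≤ T
    · by_cases hxa : xi a = 0
      · exfalso
        apply ha
        have haeq := re_of_RH hRH hxa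
        rw [hS, Finset.mem_image]
        refine ⟨a.im, mem_ordinates.2 ⟨hc.1, hc.2, ?_⟩, haeq.symm⟩
        rw [← xi_half_iff, ← haeq]
        exact hxa
      · rw [mx_eq_zero hxa]
        simp
    · rw [if_neg hc, mul_zero]

/-- From `ord_sum` for nonnegative real functions. -/
theorem ord_sum_le (hRH : RiemannHypothesis) (T : ℝ) (φ : ℝ → ℝ) (h0 : ∀ x, 0 ≤ φ x)
    (hs : Summable (fun a : ℂ => (mx a : ℝ) * φ a.im)) :
    ∑ γ ∈ ordinates T, (mult γ : ℝ) * φ γ ≤ ∑' a : ℂ, (mx a : ℝ) * φ a.im := by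
  classical
  have hinj : Function.Injective (fun γ : ℝ => (1 / 2 + γ * I : ℂ)) := by
    intro a b h
    have := congrArg Complex.im h
    simpa using this
  have h1 : ∑ γ ∈ ordinates T, (mult γ : ℝ) * φ γ =
      ∑ a ∈ (ordinates T).image (fun γ : ℝ => (1 / 2 + γ * I : ℂ)), (mx a : ℝ) * φ a.im := by
    rw [Finset.sum_image (fun _ _ _ _ h => hinj h)]
    refine Finset.sum_congr rfl fun γ _ => ?_
    rw [mx_half, half_im]
  rw [h1]
  exact hs.sum_le_tsum _ (fun a _ => mul_nonneg (Nat.cast_nonneg _) (h0 _))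

end Pool.Agent.Lib.MP_00e05b_nt.Mont
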