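import Pool.Agent.Lib.MP_00e05b_nt.Mont.QI
import Pool.Agent.Lib.MP_00e05b_nt.Mont.PD

/-!
# JOB T2A: the mass of `F` near a point `a` of `[1, 2)` is less than one

Let `w = (2 - a - h)/2 > 0`, `y0 = (h - a)/2`, and the intervals `I1 = [0, h]`, `I2 = [-a, -a + h]`, `I3 = [y0 - w, y0] = [-1 + h, y0]`,
`I4 = [y0, y0 + w] = [y0, 1 - a]`. Write `Q i j = ∫_{Ii} ∫_{Ij} FF (b - b')`. `posdef` with the coefficients
`1/h, -1/h, -w, w` gives (`FF_even`: `Q i j = Q j i`)
`0 ≤ (Q11 + Q22)/h² - 2 Q12/h² - (2w/h)(Q13 - Q14 - Q23 + Q24) + w² (Q33 + Q44 - 2 Q34)`.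
All `Q i j` except `Q12 = win a h T` converge by `quad_lim` (all differences are at most one in absolute value):
* `Q11, Q22 → h + h³/3`;
* `Q13 - Q14 - Q23 + Q24 → ∫ ψ(y) h (h - a - 2y) dy = 2 h w²` where `ψ = 1` on `I3`, `-1` on `I4`
  (for `b ∈ I1`: `|b - y| = b - y`; for `b ∈ I2`: `|b - y| = y - b`; no overlaps);
* `Q33, Q44 → w + w³/3`, `Q34 → w³`, so `Q33 + Q44 - 2 Q34 → 2w - 4w³/3 ≤ 2w`.
So `2 Q12/h² ≤ 2/h + 2h/3 - 4 w³ + 2 w³ + o(1)`, i.e. `Q12 ≤ h + h³/3 - h² w³ + o(1)`.
-/

open Complex Set Filter Topology MeasureTheory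

namespace Pool.Agent.Lib.MP_00e05b_nt.Mont

/-- The mass of `F` near `a`, with the weight `h - |t|`. -/
noncomputable def win (a h T : ℝ) : ℝ := ∫ b in (0 : ℝ)..h, ∫ b' in (-a)..(-a + h), FF (b - b') T

/-- separated intervals -/
private lemma T2A_sep {p q p' q' : ℝ} (h : p ≤ q) (h' : p' ≤ q') (hs : q' ≤ p) :
    ∫ b in p..q, ∫ b' in p'..q', |b - b'| =
      (q - p) * (q' - p') * ((p + q) / 2 - (p' + q') / 2) := by
  have h1 : ∀ b ∈ uIcc p q, ∫ b' in p'..q', |b - b'| =
      b * (q' - p') - (q' ^ 2 - p' ^ 2) / 2 := by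
    intro b hb
    rw [uIcc_of_le h] at hb
    have h2 : ∫ b' in p'..q', |b - b'| = ∫ b' in p'..q', (b - b') := by
      apply intervalIntegral.integral_congr
      intro x hx
      rw [uIcc_of_le h'] at hx
      exact abs_of_nonneg (by linarith [hb.1, hx.2])
    rw [h2, intervalIntegral.integral_sub (by simp) (by simp), intervalIntegral.integral_const,
      integral_id, smul_eq_mul]
    ring
  rw [intervalIntegral.integral_congr h1, intervalIntegral.integral_sub
    (Continuous.intervalIntegrable (by fun_prop) _ _) (by simp),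
    intervalIntegral.integral_mul_const, integral_id, intervalIntegral.integral_const, smul_eq_mul]
  ring

/-- separated intervals, the other order -/
private lemma T2A_sep' {p q p' q' : ℝ} (h : p ≤ q) (h' : p' ≤ q') (hs : q ≤ p') :
    ∫ b in p..q, ∫ b' in p'..q', |b - b'| =
      (q - p) * (q' - p') * ((p' + q') / 2 - (p + q) / 2) := by
  have h1 : ∀ b ∈ uIcc p q, ∫ b' in p'..q', |b - b'| =
      (q' ^ 2 - p' ^ 2) / 2 - b * (q' - p') := by
    intro b hb
    rw [uIcc_of_le h] at hb
    have h2 : ∫ b' in p'..q', |b - b'| = ∫ b' in p'..q', (b' - b) := by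
      apply intervalIntegral.integral_congr
      intro x hx
      rw [uIcc_of_le h'] at hx
      simp only
      rw [abs_of_nonpos (by linarith [hb.2, hx.1])]
      ring
    rw [h2, intervalIntegral.integral_sub (by simp) (by simp), intervalIntegral.integral_const,
      integral_id, smul_eq_mul]
    ring
  rw [intervalIntegral.integral_congr h1, intervalIntegral.integral_sub (by simp)
    (Continuous.intervalIntegrable (by fun_prop) _ _),
    intervalIntegral.integral_mul_const, integral_id, intervalIntegral.integral_const, smul_eq_mul]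
  ring

/-- the same interval twice -/
private lemma T2A_same {p q : ℝ} (h : p ≤ q) :
    ∫ b in p..q, ∫ b' in p..q, |b - b'| = (q - p) ^ 3 / 3 := by
  have h1 : ∀ b ∈ uIcc p q, ∫ b' in p..q, |b - b'| =
      b ^ 2 - (p + q) * b + (p ^ 2 + q ^ 2) / 2 := by
    intro b hb
    rw [uIcc_of_le h] at hb
    have hc : Continuous fun b' : ℝ => |b - b'| := by fun_prop
    rw [← intervalIntegral.integral_add_adjacent_intervals (hc.intervalIntegrable p b)
      (hc.intervalIntegrable b q)]
    have h2 : ∫ b' in p..b, |b - b'| = ∫ b' in p..b, (b - b') := by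
      apply intervalIntegral.integral_congr
      intro x hx
      rw [uIcc_of_le hb.1] at hx
      exact abs_of_nonneg (by linarith [hx.2])
    have h3 : ∫ b' in b..q, |b - b'| = ∫ b' in b..q, (b' - b) := by
      apply intervalIntegral.integral_congr
      intro x hx
      rw [uIcc_of_le hb.2] at hx
      simp only
      rw [abs_of_nonpos (by linarith [hx.1])]
      ring
    rw [h2, h3, intervalIntegral.integral_sub (by simp) (by simp),
      intervalIntegral.integral_sub (by simp) (by simp), intervalIntegral.integral_const,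
      intervalIntegral.integral_const, integral_id, integral_id, smul_eq_mul, smul_eq_mul]
    ring
  rw [intervalIntegral.integral_congr h1, intervalIntegral.integral_add
    (Continuous.intervalIntegrable (by fun_prop) _ _) (by simp), intervalIntegral.integral_sub
    (Continuous.intervalIntegrable (by fun_prop) _ _)
    (Continuous.intervalIntegrable (by fun_prop) _ _),
    intervalIntegral.integral_const_mul, integral_id, integral_pow,
    intervalIntegral.integral_const, smul_eq_mul]
  norm_num
  ring

private lemma T2A_symm {T : ℝ} (hT : 0 < T) {p q p' q' : ℝ} (h : p ≤ q) (h' : p' ≤ q') :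
    ∫ b in p..q, ∫ b' in p'..q', FF (b - b') T = ∫ b in p'..q', ∫ b' in p..q, FF (b - b') T := by
  rw [QI_conv (FF_continuous hT) h h', QI_conv (FF_continuous hT) h' h]
  rw [← integral_neg_eq_self (fun t => FF t T * QI_r p' q' p q t)]
  congr 1
  ext t
  rw [FF_even hT]
  congr 1
  unfold QI_r
  rw [min_comm q', max_comm p']
  have e1 : min q (q' + t) = min (q + -t) q' + t := by
    rw [← min_add_add_right]
    congr 1
    ring
  have e2 : max p (p' + t) = max (p + -t) p' + t := by
    rw [← max_add_add_right]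
    congr 1
    ring
  rw [e1, e2]
  congr 1
  ring

theorem win_zero (hRH : RiemannHypothesis) {h : ℝ} (h0 : 0 < h) (h1 : h ≤ 1) :
    Tendsto (fun T : ℝ => win 0 h T) atTop (𝓝 (h + h ^ 3 / 3)) := by
  have hq := quad_lim hRH (p := 0) (q := h) (p' := 0) (q' := h) h0.le h0.le
    (by linarith) (by linarith)
  rw [T2A_same h0.le, min_self, max_self, sub_zero, max_eq_right h0.le] at hq
  unfold win
  simpa using hq

theorem win_bound (hRH : RiemannHypothesis) {a h : ℝ} (ha : 1 ≤ a) (h0 : 0 < h) (h1 : a + h < 2)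
    (ε : ℝ) (hε : 0 < ε) :
    ∀ᶠ T : ℝ in atTop, win a h T ≤ h + h ^ 3 / 3 - h ^ 2 * ((2 - a - h) / 2) ^ 3 + ε := by
  obtain ⟨w, hw⟩ : ∃ w : ℝ, w = (2 - a - h) / 2 := ⟨_, rfl⟩
  have hw0 : 0 < w := by rw [hw]; linarith
  rw [← hw]
  obtain ⟨y, hy⟩ : ∃ y : ℝ, y = (h - a) / 2 := ⟨_, rfl⟩
  -- diagonal terms
  have L11 := quad_lim hRH (p := 0) (q := h) (p' := 0) (q' := h) h0.le h0.le
    (by linarith) (by linarith)
  rw [T2A_same h0.le, min_self, max_self, sub_zero, max_eq_right h0.le] at L11
  have L22 := quad_lim hRH (p := -a) (q := -a + h) (p' := -a) (q' := -a + h) (by linarith)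
    (by linarith) (by linarith) (by linarith)
  rw [T2A_same (by linarith), min_self, max_self, max_eq_right (by linarith)] at L22
  have L33 := quad_lim hRH (p := -1 + h) (q := y) (p' := -1 + h) (q' := y) (by linarith)
    (by linarith) (by linarith) (by linarith)
  rw [T2A_same (by linarith), min_self, max_self, max_eq_right (by linarith)] at L33
  have L44 := quad_lim hRH (p := y) (q := 1 - a) (p' := y) (q' := 1 - a) (by linarith)
    (by linarith) (by linarith) (by linarith)
  rw [T2A_same (by linarith), min_self, max_self, max_eq_right (by linarith)] at L44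
  -- separated terms
  have z : ∀ {u v : ℝ}, u ≤ v → max 0 (u - v) = 0 := fun huv => max_eq_left (by linarith)
  have L34 := quad_lim hRH (p := -1 + h) (q := y) (p' := y) (q' := 1 - a) (by linarith)
    (by linarith) (by linarith) (by linarith)
  rw [T2A_sep' (by linarith) (by linarith) le_rfl,
    z ((min_le_left _ _).trans (le_max_right _ _)), zero_add] at L34
  have L43 := quad_lim hRH (p := y) (q := 1 - a) (p' := -1 + h) (q' := y) (by linarith)
    (by linarith) (by linarith) (by linarith)
  rw [T2A_sep (by linarith) (by linarith) le_rfl,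
    z ((min_le_right _ _).trans (le_max_left _ _)), zero_add] at L43
  have L13 := quad_lim hRH (p := 0) (q := h) (p' := -1 + h) (q' := y) (by linarith)
    (by linarith) (by linarith) (by linarith)
  rw [T2A_sep (by linarith) (by linarith) (by linarith),
    z ((min_le_right _ _).trans (le_trans (by linarith) (le_max_left _ _))), zero_add] at L13
  have L31 := quad_lim hRH (p := -1 + h) (q := y) (p' := 0) (q' := h) (by linarith)
    (by linarith) (by linarith) (by linarith)
  rw [T2A_sep' (by linarith) (by linarith) (by linarith),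
    z ((min_le_left _ _).trans (le_trans (by linarith) (le_max_right _ _))), zero_add] at L31
  have L14 := quad_lim hRH (p := 0) (q := h) (p' := y) (q' := 1 - a) (by linarith)
    (by linarith) (by linarith) (by linarith)
  rw [T2A_sep (by linarith) (by linarith) (by linarith),
    z ((min_le_right _ _).trans (le_trans (by linarith) (le_max_left _ _))), zero_add] at L14
  have L41 := quad_lim hRH (p := y) (q := 1 - a) (p' := 0) (q' := h) (by linarith)
    (by linarith) (by linarith) (by linarith)
  rw [T2A_sep' (by linarith) (by linarith) (by linarith),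
    z ((min_le_left _ _).trans (le_trans (by linarith) (le_max_right _ _))), zero_add] at L41
  have L23 := quad_lim hRH (p := -a) (q := -a + h) (p' := -1 + h) (q' := y) (by linarith)
    (by linarith) (by linarith) (by linarith)
  rw [T2A_sep' (by linarith) (by linarith) (by linarith),
    z ((min_le_left _ _).trans (le_trans (by linarith) (le_max_right _ _))), zero_add] at L23
  have L32 := quad_lim hRH (p := -1 + h) (q := y) (p' := -a) (q' := -a + h) (by linarith)
    (by linarith) (by linarith) (by linarith)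
  rw [T2A_sep (by linarith) (by linarith) (by linarith),
    z ((min_le_right _ _).trans (le_trans (by linarith) (le_max_left _ _))), zero_add] at L32
  have L24 := quad_lim hRH (p := -a) (q := -a + h) (p' := y) (q' := 1 - a) (by linarith)
    (by linarith) (by linarith) (by linarith)
  rw [T2A_sep' (by linarith) (by linarith) (by linarith),
    z ((min_le_left _ _).trans (le_trans (by linarith) (le_max_right _ _))), zero_add] at L24
  have L42 := quad_lim hRH (p := y) (q := 1 - a) (p' := -a) (q' := -a + h) (by linarith)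
    (by linarith) (by linarith) (by linarith)
  rw [T2A_sep (by linarith) (by linarith) (by linarith),
    z ((min_le_right _ _).trans (le_trans (by linarith) (le_max_left _ _))), zero_add] at L42
  -- the limit of the right-hand side
  have hlim := (((((L11.add L22).const_mul (1 / 2)).sub (((L13.add L31).add
    (L24.add L42)).const_mul (w * h / 2))).add (((L14.add L41).add
    (L23.add L32)).const_mul (w * h / 2))).add (((L33.add L44).sub
    (L34.add L43)).const_mul (w ^ 2 * h ^ 2 / 2)))
  have hval : 1 / 2 * (h + h ^ 3 / 3 + (-a + h - -a + (-a + h - -a) ^ 3 / 3)) -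
      w * h / 2 * ((h - 0) * (y - (-1 + h)) * ((0 + h) / 2 - (-1 + h + y) / 2) +
        (y - (-1 + h)) * (h - 0) * ((0 + h) / 2 - (-1 + h + y) / 2) +
        ((-a + h - -a) * (1 - a - y) * ((y + (1 - a)) / 2 - (-a + (-a + h)) / 2) +
        (1 - a - y) * (-a + h - -a) * ((y + (1 - a)) / 2 - (-a + (-a + h)) / 2))) +
      w * h / 2 * ((h - 0) * (1 - a - y) * ((0 + h) / 2 - (y + (1 - a)) / 2) +
        (1 - a - y) * (h - 0) * ((0 + h) / 2 - (y + (1 - a)) / 2) +
        ((-a + h - -a) * (y - (-1 + h)) * ((-1 + h + y) / 2 - (-a + (-a + h)) / 2) +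
        (y - (-1 + h)) * (-a + h - -a) * ((-1 + h + y) / 2 - (-a + (-a + h)) / 2))) +
      w ^ 2 * h ^ 2 / 2 * (y - (-1 + h) + (y - (-1 + h)) ^ 3 / 3 +
        (1 - a - y + (1 - a - y) ^ 3 / 3) -
        ((y - (-1 + h)) * (1 - a - y) * ((y + (1 - a)) / 2 - (-1 + h + y) / 2) +
        (1 - a - y) * (y - (-1 + h)) * ((y + (1 - a)) / 2 - (-1 + h + y) / 2))) =
      h + h ^ 3 / 3 - h ^ 2 * w ^ 3 - 2 / 3 * h ^ 2 * w ^ 5 := by
    have e1 : y = -1 + h + w := by rw [hy, hw]; ring
    have e2 : a = 2 - h - 2 * w := by rw [hw]; ring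
    rw [e1, e2]
    ring
  rw [hval] at hlim
  have hlt : h + h ^ 3 / 3 - h ^ 2 * w ^ 3 - 2 / 3 * h ^ 2 * w ^ 5 <
      h + h ^ 3 / 3 - h ^ 2 * w ^ 3 + ε := by
    have : 0 < h ^ 2 * w ^ 5 := by positivity
    linarith
  have hev := hlim.eventually (gt_mem_nhds hlt)
  filter_upwards [hev, eventually_gt_atTop 1] with T hT hT1
  have hT0 : 0 < T := by linarith
  have hpd := posdef hT1 (n := 4) ![1, -1, -(w * h), w * h] ![0, -a, -1 + h, y]
    ![h, -a + h, y, 1 - a]
  simp only [Fin.sum_univ_four, Matrix.cons_val_zero, Matrix.cons_val_one, Matrix.cons_val] at hpd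
  have hsym : ∫ b in (-a)..(-a + h), ∫ b' in (0 : ℝ)..h, FF (b - b') T = win a h T :=
    T2A_symm hT0 (by linarith) h0.le
  rw [hsym] at hpd
  have hwin : ∫ b in (0 : ℝ)..h, ∫ b' in (-a)..(-a + h), FF (b - b') T = win a h T := rfl
  rw [hwin] at hpd
  linarith

end Pool.Agent.Lib.MP_00e05b_nt.Mont
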