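import Pool.Agent.Lib.MP_00e05b_nt.Mont.T2A

/-!
# JOB T2B: from the window mass to pointwise bounds

* `peak_win`: `win a h T = ∫_{-h}^{h} (h - |t|) FF (a + t) dt`. On `|t - (α - a)| ≤ η` we have `h - |t| ≥ h - 2η`, and
  `FF (α + x) ≥ e^{-2L|x|} FF α` (`FF_peak`), `∫_{-η}^{η} e^{-2L|x|} dx = (1 - e^{-2Lη})/L`.
* `upper_triv`: `FF α T ≤ FF 0 T` (`FF_cos`, `cos ≤ 1`), and `peak_win` with `a = α = 0`, `win_zero`:
  `FF 0 T / L ≤ (h + h³/3 + o(1))/(h - 2η) / (1 - e^{-2Lη})`; choose `h` small and `η` much smaller.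
* `upper`: let `ε > 0`. For `2 - α ≤ δ0` with `δ0^6 ≤ ε` use `upper_triv`. For `1 ≤ α ≤ 2 - δ0`: fix a finite net of points
  `a ∈ [1, 2 - δ0]` with spacing `η` and for each `h = (2 - a)³/10`, so that `w = (2 - a - h)/2 ≥ (9/20)(2 - a)` and
  `h w³ - h²/3 ≥ (2-a)^6 (0.1 * 0.091 - 0.0034) ≥ (2 - a)^6/175`. By `win_bound` and `peak_win`, eventually for all `α` within
  `η` of `a`: `FF α T / L ≤ (1 - (2-a)^6/175 + small)/((1 - 2η/h)(1 - e^{-2Lη}))`, and `η` was chosen so small
  compared with `h ≥ δ0³/10` and `ε` that the right side is `≤ 1 - (2 - α)^6/175 + ε`.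
-/

open Complex Set Filter Topology MeasureTheory

namespace Pool.Agent.Lib.MP_00e05b_nt.Mont

private theorem t2b_int (L η α : ℝ) (hL : 0 < L) (hη : 0 < η) :
    ∫ x in (α - η)..(α + η), Real.exp (-(2 * |x - α| * L)) = (1 - Real.exp (-(2 * η * L))) / L := by
  have hcont : Continuous (fun x : ℝ => Real.exp (-(2 * |x - α| * L))) := by fun_prop
  rw [← intervalIntegral.integral_add_adjacent_intervals (b := α) (hcont.intervalIntegrable _ _)
    (hcont.intervalIntegrable _ _)]
  have h1 : ∫ x in (α - η)..α, Real.exp (-(2 * |x - α| * L)) = (1 - Real.exp (-(2 * η * L))) / (2 * L) := by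
    have e : ∫ x in (α - η)..α, Real.exp (-(2 * |x - α| * L)) =
        ∫ x in (α - η)..α, Real.exp (2 * (x - α) * L) := by
      apply intervalIntegral.integral_congr
      intro x hx
      rw [uIcc_of_le (by linarith)] at hx
      simp only
      rw [abs_of_nonpos (by linarith [hx.2])]
      congr 1
      ring
    rw [e, intervalIntegral.integral_eq_sub_of_hasDerivAt (f := fun x => Real.exp (2 * (x - α) * L) / (2 * L))]
    · simp only [sub_self, mul_zero, zero_mul, Real.exp_zero]
      rw [← sub_div]
      congr 3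
      ring
    · intro x _
      have hd : HasDerivAt (fun x : ℝ => 2 * (x - α) * L) (2 * L) x := by
        have := (((hasDerivAt_id x).sub_const α).const_mul 2).mul_const L
        simpa using this
      refine (hd.exp.div_const (2 * L)).congr_deriv ?_
      rw [mul_div_assoc, div_self (by positivity), mul_one]
    · apply Continuous.intervalIntegrable
      fun_prop
  have h2 : ∫ x in α..(α + η), Real.exp (-(2 * |x - α| * L)) = (1 - Real.exp (-(2 * η * L))) / (2 * L) := by
    have e : ∫ x in α..(α + η), Real.exp (-(2 * |x - α| * L)) =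
        ∫ x in α..(α + η), Real.exp (-(2 * (x - α) * L)) := by
      apply intervalIntegral.integral_congr
      intro x hx
      rw [uIcc_of_le (by linarith)] at hx
      simp only
      rw [abs_of_nonneg (by linarith [hx.1])]
    rw [e, intervalIntegral.integral_eq_sub_of_hasDerivAt
      (f := fun x => -(Real.exp (-(2 * (x - α) * L)) / (2 * L)))]
    · simp only [sub_self, mul_zero, zero_mul, neg_zero, Real.exp_zero, add_sub_cancel_left]
      ring
    · intro x _
      have hd1 : HasDerivAt (fun x : ℝ => 2 * (x - α) * L) (2 * L) x := by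
        have := (((hasDerivAt_id x).sub_const α).const_mul 2).mul_const L
        simpa using this
      have hd : HasDerivAt (fun x : ℝ => -(2 * (x - α) * L)) (-(2 * L)) x := hd1.fun_neg
      refine (hd.exp.div_const (2 * L)).fun_neg.congr_deriv ?_
      rw [mul_neg, neg_div, neg_neg, mul_div_assoc, div_self (by positivity), mul_one]
    · apply Continuous.intervalIntegrable
      fun_prop
  rw [h1, h2]
  field_simp
  ring

theorem peak_win {T a h η α : ℝ} (hT : 1 < T) (hη : 0 < η) (hh : 2 * η ≤ h) (hα : |α - a| ≤ η) :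
    (h - 2 * η) * ((1 - Real.exp (-(2 * η * Real.log T))) / Real.log T) * FF α T ≤ win a h T := by
  have hT0 : 0 < T := by linarith
  have hL : 0 < Real.log T := Real.log_pos hT
  have hc := FF_continuous hT0
  have hα' := abs_le.1 hα
  set K : ℝ := (1 - Real.exp (-(2 * η * Real.log T))) / Real.log T * FF α T with hK
  set G : ℝ → ℝ := fun b => ∫ b' in (-a)..(-a + h), FF (b - b') T with hG
  have hGc : Continuous G := by
    apply intervalIntegral.continuous_parametric_intervalIntegral_of_continuous'
    exact hc.comp (continuous_fst.sub continuous_snd)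
  have hGe : ∀ b, G b = ∫ x in (b + a - h)..(b + a), FF x T := by
    intro b
    simp only [hG]
    rw [intervalIntegral.integral_comp_sub_left (fun x => FF x T) b]
    congr 1
    · ring
    · ring
  have hG0 : ∀ b, 0 ≤ G b := by
    intro b
    rw [hGe]
    exact intervalIntegral.integral_nonneg (by linarith) (fun x _ => FF_nonneg hT x)
  have hpk : K ≤ ∫ x in (α - η)..(α + η), FF x T := by
    rw [hK, ← t2b_int (Real.log T) η α hL hη, ← intervalIntegral.integral_mul_const]
    apply intervalIntegral.integral_mono_on (by linarith)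
    · apply Continuous.intervalIntegrable
      fun_prop
    · exact hc.intervalIntegrable _ _
    · intro x _
      have := FF_peak hT α (x - α)
      rw [add_sub_cancel] at this
      exact this
  have hGK : ∀ b ∈ Icc (α - a + η) (h + (α - a) - η), K ≤ G b := by
    intro b hb
    rw [hGe]
    refine hpk.trans ?_
    apply intervalIntegral.integral_mono_interval (by linarith [hb.2]) (by linarith) (by linarith [hb.1])
    · exact Eventually.of_forall (fun x => FF_nonneg hT x)
    · exact hc.intervalIntegrable _ _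
  have hle : ∫ b in (α - a + η)..(h + (α - a) - η), G b ≤ ∫ b in (0 : ℝ)..h, G b := by
    apply intervalIntegral.integral_mono_interval (by linarith [hα'.1]) (by linarith) (by linarith [hα'.2])
    · exact Eventually.of_forall hG0
    · exact hGc.intervalIntegrable _ _
  have hK2 : ∫ b in (α - a + η)..(h + (α - a) - η), K ≤ ∫ b in (α - a + η)..(h + (α - a) - η), G b := by
    apply intervalIntegral.integral_mono_on (by linarith)
    · exact continuous_const.intervalIntegrable _ _
    · exact hGc.intervalIntegrable _ _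
    · exact hGK
  rw [intervalIntegral.integral_const, smul_eq_mul] at hK2
  have e : win a h T = ∫ b in (0 : ℝ)..h, G b := rfl
  rw [e]
  refine le_trans (le_of_eq ?_) (hK2.trans hle)
  rw [hK]
  ring

private theorem t2b_exp (η : ℝ) (hη : 0 < η) :
    Tendsto (fun T : ℝ => Real.exp (-(2 * η * Real.log T))) atTop (𝓝 0) := by
  apply Real.tendsto_exp_neg_atTop_nhds_zero.comp
  exact Real.tendsto_log_atTop.const_mul_atTop (by linarith)

theorem upper_triv (hRH : RiemannHypothesis) (ε : ℝ) (hε : 0 < ε) :
    ∀ᶠ T : ℝ in atTop, ∀ α : ℝ, FF α T ≤ (1 + ε) * Real.log T := by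
  -- reduce to small ε
  suffices hsmall : ∀ ε : ℝ, 0 < ε → ε ≤ 1 → ∀ᶠ T : ℝ in atTop, ∀ α : ℝ, FF α T ≤ (1 + ε) * Real.log T by
    have h1 := hsmall (min ε 1) (lt_min hε one_pos) (min_le_right _ _)
    filter_upwards [h1, eventually_gt_atTop 1] with T hT hT1 α
    refine (hT α).trans ?_
    apply mul_le_mul_of_nonneg_right _ (Real.log_pos hT1).le
    linarith [min_le_left ε 1]
  intro ε hε hε1
  set h : ℝ := ε / 2 with hh
  set η : ℝ := h * (ε / 16) with hη
  have hh0 : 0 < h := by positivity
  have hη0 : 0 < η := by positivity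
  have hh1 : h ≤ 1 := by linarith
  have h2η : 2 * η ≤ h := by rw [hη]; nlinarith
  have hw := win_zero hRH hh0 hh1
  have he := t2b_exp η hη0
  have hlim : Tendsto (fun T : ℝ => (h - 2 * η) * (1 - Real.exp (-(2 * η * Real.log T))) * (1 + ε)) atTop
      (𝓝 ((h - 2 * η) * (1 - 0) * (1 + ε))) :=
    ((tendsto_const_nhds.mul (tendsto_const_nhds.sub he))).mul tendsto_const_nhds
  have hlt : h + h ^ 3 / 3 < (h - 2 * η) * (1 - 0) * (1 + ε) := by
    rw [hη, sub_zero, mul_one]
    have e1 : (h - 2 * (h * (ε / 16))) * (1 + ε) = h * ((1 - ε / 8) * (1 + ε)) := by ring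
    have e2 : h + h ^ 3 / 3 = h * (1 + ε ^ 2 / 12) := by rw [hh]; ring
    rw [e1, e2]
    apply mul_lt_mul_of_pos_left _ hh0
    nlinarith
  have hev := hw.eventually_lt hlim hlt
  filter_upwards [hev, eventually_gt_atTop 1] with T hT hT1 α
  have hL : 0 < Real.log T := Real.log_pos hT1
  have hT0 : 0 < T := by linarith
  have h0 : FF α T ≤ FF 0 T := by
    rw [FF_cos hT0, FF_cos hT0]
    apply mul_le_mul_of_nonneg_left _ (inv_nonneg.2 (N0_pos hT1).le)
    apply Finset.sum_le_sum
    intro γ _
    apply Finset.sum_le_sum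
    intro γ' _
    have hwt : 0 ≤ weight (γ - γ') := by
      unfold weight
      positivity
    apply mul_le_mul_of_nonneg_right _ hwt
    apply mul_le_mul_of_nonneg_left _ (by positivity)
    rw [zero_mul, zero_mul, Real.cos_zero]
    exact Real.cos_le_one _
  have hp := peak_win (T := T) (a := 0) (h := h) (η := η) (α := 0) hT1 hη0 h2η (by simp [hη0.le])
  set E : ℝ := 1 - Real.exp (-(2 * η * Real.log T)) with hE
  have hE0 : 0 < E := by
    rw [hE, sub_pos, Real.exp_lt_one_iff]
    have : 0 < 2 * η * Real.log T := by positivity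
    linarith
  have h3 : 0 < h - 2 * η := by
    rw [hη]
    nlinarith
  have h4 : (h - 2 * η) * (E / Real.log T) * FF 0 T < (h - 2 * η) * E * (1 + ε) := lt_of_le_of_lt hp hT
  have h5 : (h - 2 * η) * (E / Real.log T) * FF 0 T = (h - 2 * η) * E * (FF 0 T / Real.log T) := by ring
  rw [h5] at h4
  have h6 : FF 0 T / Real.log T < 1 + ε := lt_of_mul_lt_mul_left h4 (by positivity)
  rw [div_lt_iff₀ hL] at h6
  linarith

theorem upper (hRH : RiemannHypothesis) (ε : ℝ) (hε : 0 < ε) :
    ∀ᶠ T : ℝ in atTop, ∀ α ∈ Icc (1 : ℝ) 2, FF α T ≤ (1 - (2 - α) ^ 6 / 175 + ε) * Real.log T := by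
  apply (isCompact_Icc (a := (1 : ℝ)) (b := 2)).induction_on
    (p := fun s => ∀ᶠ T : ℝ in atTop, ∀ α ∈ s, FF α T ≤ (1 - (2 - α) ^ 6 / 175 + ε) * Real.log T)
  · exact Eventually.of_forall (fun T α hα => absurd hα (notMem_empty α))
  · intro s t hst ht
    filter_upwards [ht] with T hT α hα
    exact hT α (hst hα)
  · intro s t hs ht
    filter_upwards [hs, ht] with T h1 h2 α hα
    rcases hα with hα | hα
    · exact h1 α hα
    · exact h2 α hα
  · intro a ha
    rcases eq_or_lt_of_le ha.2 with h2 | h2
    · -- the point 2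
      have hnb : {α : ℝ | (2 - α) ^ 6 / 175 < ε / 2} ∈ 𝓝 a := by
        have hc : ContinuousAt (fun α : ℝ => (2 - α) ^ 6 / 175) a := by fun_prop
        apply hc.eventually (gt_mem_nhds _)
        rw [h2]
        norm_num
        exact hε
      refine ⟨{α : ℝ | (2 - α) ^ 6 / 175 < ε / 2}, mem_nhdsWithin_of_mem_nhds hnb, ?_⟩
      filter_upwards [upper_triv hRH (ε / 2) (by linarith), eventually_gt_atTop 1] with T hT hT1 α hα
      refine (hT α).trans ?_
      apply mul_le_mul_of_nonneg_right _ (Real.log_pos hT1).le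
      have : (2 - α) ^ 6 / 175 < ε / 2 := hα
      linarith
    · -- interior points
      have ha1 : 1 ≤ a := ha.1
      set D : ℝ := 2 - a with hD
      have hD0 : 0 < D := by linarith
      have hD1 : D ≤ 1 := by linarith
      set h : ℝ := D ^ 3 / 10 with hh
      have hh0 : 0 < h := by positivity
      have hhD : h ≤ D / 10 := by
        rw [hh]
        have : D ^ 3 ≤ D := by
          calc D ^ 3 ≤ D ^ 1 := pow_le_pow_of_le_one hD0.le hD1 (by norm_num)
            _ = D := pow_one D
        linarith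
      have hah : a + h < 2 := by linarith
      have hwb := win_bound hRH ha1 hh0 hah (h * ε / 4) (by positivity)
      have hmain : h + h ^ 3 / 3 - h ^ 2 * ((2 - a - h) / 2) ^ 3 ≤ h * (1 - D ^ 6 / 175) := by
        have w1 : 9 / 20 * D ≤ (2 - a - h) / 2 := by linarith
        have w2 : (9 / 20 * D) ^ 3 ≤ ((2 - a - h) / 2) ^ 3 := pow_le_pow_left₀ (by positivity) w1 3
        have w3 : (9 / 20 * D) ^ 3 = 7290 / 8000 * h := by rw [hh]; ring
        rw [w3] at w2
        have w4 : h ^ 2 * (7290 / 8000 * h) ≤ h ^ 2 * ((2 - a - h) / 2) ^ 3 :=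
          mul_le_mul_of_nonneg_left w2 (by positivity)
        have w5 : D ^ 6 = 100 * h ^ 2 := by rw [hh]; ring
        rw [w5]
        have w6 : 0 < h ^ 3 := by positivity
        nlinarith
      -- the choice of η
      have hφ : ContinuousAt (fun η : ℝ => (h - 2 * η) * (1 - (D + η) ^ 6 / 175 + ε)) 0 := by fun_prop
      have hφ0 : h * (1 - D ^ 6 / 175) + h * ε / 2 <
          (fun η : ℝ => (h - 2 * η) * (1 - (D + η) ^ 6 / 175 + ε)) 0 := by
        simp only [mul_zero, sub_zero, add_zero]
        nlinarith [mul_pos hh0 hε]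
      have hev1 : ∀ᶠ η in 𝓝 (0 : ℝ), h * (1 - D ^ 6 / 175) + h * ε / 2 <
          (h - 2 * η) * (1 - (D + η) ^ 6 / 175 + ε) := hφ.eventually (lt_mem_nhds hφ0)
      have hev2 : ∀ᶠ η in 𝓝 (0 : ℝ), η < h / 4 := gt_mem_nhds (by positivity)
      have hev3 : ∀ᶠ η in 𝓝[>] (0 : ℝ), h * (1 - D ^ 6 / 175) + h * ε / 2 <
          (h - 2 * η) * (1 - (D + η) ^ 6 / 175 + ε) ∧ η < h / 4 := nhdsWithin_le_nhds (hev1.and hev2)
      have hev4 : ∀ᶠ η in 𝓝[>] (0 : ℝ), η ∈ Ioi (0 : ℝ) := self_mem_nhdsWithin
      obtain ⟨η, ⟨hη1, hη2⟩, hη0⟩ := (hev3.and hev4).exists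
      have hη0' : 0 < η := hη0
      refine ⟨{α : ℝ | |α - a| ≤ η} ∩ Icc 1 2, ?_, ?_⟩
      · apply inter_mem _ self_mem_nhdsWithin
        apply mem_nhdsWithin_of_mem_nhds
        have := Metric.closedBall_mem_nhds a hη0'
        filter_upwards [this] with x hx
        rw [Metric.mem_closedBall, Real.dist_eq] at hx
        exact hx
      · have he := t2b_exp η hη0'
        have hlim : Tendsto (fun T : ℝ => (h - 2 * η) * (1 - Real.exp (-(2 * η * Real.log T))) *
            (1 - (D + η) ^ 6 / 175 + ε)) atTop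
            (𝓝 ((h - 2 * η) * (1 - 0) * (1 - (D + η) ^ 6 / 175 + ε))) :=
          ((tendsto_const_nhds.mul (tendsto_const_nhds.sub he))).mul tendsto_const_nhds
        have hev := hlim.eventually (lt_mem_nhds (show h * (1 - D ^ 6 / 175) + h * ε / 2 <
          (h - 2 * η) * (1 - 0) * (1 - (D + η) ^ 6 / 175 + ε) by rw [sub_zero, mul_one]; exact hη1))
        filter_upwards [hev, hwb, eventually_gt_atTop 1] with T hT hTw hT1 α hα
        obtain ⟨hα1, hα2⟩ := hα
        have hL : 0 < Real.log T := Real.log_pos hT1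
        have hp := peak_win (T := T) (a := a) (h := h) (η := η) (α := α) hT1 hη0' (by linarith) hα1
        set E : ℝ := 1 - Real.exp (-(2 * η * Real.log T)) with hE
        have hE0 : 0 < E := by
          rw [hE, sub_pos, Real.exp_lt_one_iff]
          have : 0 < 2 * η * Real.log T := by positivity
          linarith
        have h3 : 0 < h - 2 * η := by linarith
        have hhε : 0 < h * ε := by positivity
        have h4 : (h - 2 * η) * (E / Real.log T) * FF α T <
            (h - 2 * η) * E * (1 - (D + η) ^ 6 / 175 + ε) := by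
          refine lt_of_le_of_lt (hp.trans hTw) (lt_of_le_of_lt ?_ hT)
          linarith
        have h5 : (h - 2 * η) * (E / Real.log T) * FF α T = (h - 2 * η) * E * (FF α T / Real.log T) := by ring
        rw [h5] at h4
        have h6 : FF α T / Real.log T < 1 - (D + η) ^ 6 / 175 + ε := lt_of_mul_lt_mul_left h4 (by positivity)
        rw [div_lt_iff₀ hL] at h6
        refine h6.le.trans ?_
        apply mul_le_mul_of_nonneg_right _ hL.le
        have h7 : (2 - α) ^ 6 ≤ (D + η) ^ 6 := by
          apply pow_le_pow_left₀ (by linarith [hα2.2])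
          have := (abs_le.1 (show |α - a| ≤ η from hα1)).1
          linarith
        linarith

end Pool.Agent.Lib.MP_00e05b_nt.Mont
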