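import Pool.Agent.Lib.MP_00e05b_nt.Mont.LC
import Pool.Agent.Lib.MP_00e05b_nt.Mont.Planch

/-!
# JOB Trunc0: the sum over all zeros

Let `|ck W x| ≤ C₁/(1 + |x|)^3` (`ck_bound`), `D t = ∑' a, mx a / (1 + |t - a.im|)^2 ≤ C₂ log (2 + |t|)` (`local_count`).
* `AA_summable`: the norm of the term is `mx a * |ck W (t - a.im)|`; `summable_cube`.
* `AA_continuous`: a locally uniformly convergent series (`continuous_tsum` on bounded intervals, or
  `continuousOn_tsum`); on `|t| ≤ M` the terms are bounded by `C (mx a)/(1 + |a.im|)^3`, as `1 + |a.im| ≤ (1 + M)(1 + |t - a.im|)`.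
* `AA_le`: `‖AA W t y‖ ≤ C₁ D t`.
* `AB_diff`: for `0 ≤ t ≤ T` the difference is the sum over the zeros with `a.im ≤ 0` or `a.im > T` (`ord_sum`), where
  `|t - a.im| ≥ min t (T - t)`, so `‖AA - BB‖ ≤ C₁ D t * (1/(1 + t) + 1/(1 + T - t))`.
* `BB_out`: for `d ≥ 0` with `|t - x| ≥ d` for all `x ∈ (0, T]`: `‖BB‖ ≤ C₁ ∑ mult γ/(1 + |t - γ|)^3 ≤ C₁ D t/(1 + d)`
  (`ord_sum_le`).
-/

open Complex Set Filter Topology MeasureTheory
open scoped ContDiff

namespace Pool.Agent.Lib.MP_00e05b_nt.Mont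

private theorem Trunc0_norm {W : ℝ → ℝ} (a : ℂ) (t y : ℝ) :
    ‖(mx a : ℂ) * (cexp (((a.im * y : ℝ) : ℂ) * I) * (ck W (t - a.im) : ℂ))‖ = (mx a : ℝ) * |ck W (t - a.im)| := by
  rw [norm_mul, norm_mul, Complex.norm_exp_ofReal_mul_I, one_mul, Complex.norm_natCast, Complex.norm_real, Real.norm_eq_abs]

theorem AA_summable {W : ℝ → ℝ} {s : ℝ} (hW : ES W s) (hs : s ≤ 3 / 4) (t y : ℝ) :
    Summable (fun a : ℂ => (mx a : ℂ) * (cexp (((a.im * y : ℝ) : ℂ) * I) * (ck W (t - a.im) : ℂ))) := by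
  obtain ⟨C, hC, hb⟩ := ck_bound hW hs
  refine Summable.of_norm_bounded ((summable_cube t).mul_left C) fun a => ?_
  rw [Trunc0_norm]
  have h1 := hb (t - a.im)
  rw [abs_sub_comm t a.im] at h1
  have h2 : (0 : ℝ) ≤ mx a := Nat.cast_nonneg _
  calc (mx a : ℝ) * |ck W (t - a.im)| ≤ (mx a : ℝ) * (C / (1 + |a.im - t|) ^ 3) := mul_le_mul_of_nonneg_left h1 h2
    _ = C * ((mx a : ℝ) / (1 + |a.im - t|) ^ 3) := by ring

theorem AA_continuous {W : ℝ → ℝ} {s : ℝ} (hW : ES W s) (hs : s ≤ 3 / 4) (y : ℝ) :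
    Continuous (fun t => AA W t y) := by
  obtain ⟨C, hC, hb⟩ := ck_bound hW hs
  have hcont : ∀ M : ℝ, 0 ≤ M → ContinuousOn (fun t => AA W t y) (Icc (-M) M) := by
    intro M hM
    unfold AA
    refine continuousOn_tsum (u := fun a : ℂ => (C * (1 + M) ^ 3) * ((mx a : ℝ) / (1 + |a.im - 0|) ^ 3)) (fun a => ?_)
      ((summable_cube 0).mul_left _) (fun a t ht => ?_)
    · refine Continuous.continuousOn ?_
      have h1 : Continuous (fun t : ℝ => (ck W (t - a.im) : ℂ)) :=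
        Complex.continuous_ofReal.comp ((ck_continuous hW).comp (continuous_id.sub continuous_const))
      exact continuous_const.mul (continuous_const.mul h1)
    · rw [Trunc0_norm]
      have h1 := hb (t - a.im)
      have h2 : (0 : ℝ) ≤ mx a := Nat.cast_nonneg _
      have h3 : |t| ≤ M := abs_le.2 ht
      have h4 : 1 + |a.im - 0| ≤ (1 + M) * (1 + |t - a.im|) := by
        have h5 : |a.im| ≤ |t| + |t - a.im| := by
          have h6 := abs_sub_abs_le_abs_sub a.im t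
          rw [abs_sub_comm a.im t] at h6
          linarith
        have h7 : 0 ≤ |t - a.im| := abs_nonneg _
        rw [sub_zero]
        nlinarith
      have hp1 : 0 < 1 + |a.im - 0| := by positivity
      have hp2 : 0 < 1 + |t - a.im| := by positivity
      have h5 : 1 / (1 + |t - a.im|) ^ 3 ≤ (1 + M) ^ 3 / (1 + |a.im - 0|) ^ 3 := by
        rw [div_le_div_iff₀ (by positivity) (by positivity), one_mul, ← mul_pow]
        exact pow_le_pow_left₀ hp1.le h4 3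
      calc (mx a : ℝ) * |ck W (t - a.im)| ≤ (mx a : ℝ) * (C / (1 + |t - a.im|) ^ 3) := mul_le_mul_of_nonneg_left h1 h2
        _ = (C * mx a) * (1 / (1 + |t - a.im|) ^ 3) := by ring
        _ ≤ (C * mx a) * ((1 + M) ^ 3 / (1 + |a.im - 0|) ^ 3) := mul_le_mul_of_nonneg_left h5 (mul_nonneg hC h2)
        _ = (C * (1 + M) ^ 3) * ((mx a : ℝ) / (1 + |a.im - 0|) ^ 3) := by ring
  rw [continuous_iff_continuousAt]
  intro t
  refine (hcont (|t| + 1) (by positivity)).continuousAt (Icc_mem_nhds ?_ ?_)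
  · have := neg_abs_le t
    linarith
  · have := le_abs_self t
    linarith

private theorem Trunc0_cube_le {x : ℝ} (hx : 0 ≤ x) : 1 / (1 + x) ^ 3 ≤ 1 / (1 + x) ^ 2 := by
  apply one_div_le_one_div_of_le (by positivity)
  exact pow_le_pow_right₀ (by linarith) (by norm_num)

theorem AA_le (hRH : RiemannHypothesis) {W : ℝ → ℝ} {s : ℝ} (hW : ES W s) (hs : s ≤ 3 / 4) :
    ∃ C : ℝ, 0 ≤ C ∧ ∀ t y : ℝ, ‖AA W t y‖ ≤ C * Real.log (2 + |t|) := by
  obtain ⟨C, hC, hb⟩ := ck_bound hW hs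
  obtain ⟨C₂, hC₂, hloc⟩ := local_count hRH
  refine ⟨C * C₂, mul_nonneg hC hC₂, fun t y => ?_⟩
  obtain ⟨hsum, hle⟩ := hloc t
  unfold AA
  have h1 : ‖∑' a : ℂ, (mx a : ℂ) * (cexp (((a.im * y : ℝ) : ℂ) * I) * (ck W (t - a.im) : ℂ))‖ ≤
      ∑' a : ℂ, C * ((mx a : ℝ) * (1 / (1 + |t - a.im|) ^ 2)) := by
    refine tsum_of_norm_bounded (hsum.mul_left C).hasSum fun a => ?_
    rw [Trunc0_norm]
    have h1 := hb (t - a.im)
    have h2 : (0 : ℝ) ≤ mx a := Nat.cast_nonneg _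
    have h3 := Trunc0_cube_le (abs_nonneg (t - a.im))
    calc (mx a : ℝ) * |ck W (t - a.im)| ≤ (mx a : ℝ) * (C / (1 + |t - a.im|) ^ 3) := mul_le_mul_of_nonneg_left h1 h2
      _ = (C * mx a) * (1 / (1 + |t - a.im|) ^ 3) := by ring
      _ ≤ (C * mx a) * (1 / (1 + |t - a.im|) ^ 2) := mul_le_mul_of_nonneg_left h3 (mul_nonneg hC h2)
      _ = C * ((mx a : ℝ) * (1 / (1 + |t - a.im|) ^ 2)) := by ring
  refine h1.trans ?_
  rw [tsum_mul_left, mul_assoc]
  exact mul_le_mul_of_nonneg_left hle hC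

theorem AB_diff (hRH : RiemannHypothesis) {W : ℝ → ℝ} {s : ℝ} (hW : ES W s) (hs : s ≤ 3 / 4) :
    ∃ C : ℝ, 0 ≤ C ∧ ∀ T t y : ℝ, 0 ≤ t → t ≤ T →
      ‖AA W t y - BB W T t y‖ ≤ C * Real.log (2 + t) * (1 / (1 + t) + 1 / (1 + (T - t))) := by
  obtain ⟨C, hC, hb⟩ := ck_bound hW hs
  obtain ⟨C₂, hC₂, hloc⟩ := local_count hRH
  refine ⟨C * C₂, mul_nonneg hC hC₂, fun T t y ht0 htT => ?_⟩
  obtain ⟨hsum, hle⟩ := hloc t
  rw [abs_of_nonneg ht0] at hle
  have hBB : BB W T t y = ∑' a : ℂ, (mx a : ℂ) * (if 0 < a.im ∧ a.im ≤ T then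
      (fun x : ℝ => cexp (((x * y : ℝ) : ℂ) * I) * (ck W (t - x) : ℂ)) a.im else 0) := by
    rw [ord_sum hRH T (fun x : ℝ => cexp (((x * y : ℝ) : ℂ) * I) * (ck W (t - x) : ℂ))]
    rfl
  have hAs := AA_summable hW hs t y
  have hBs : Summable (fun a : ℂ => (mx a : ℂ) * (if 0 < a.im ∧ a.im ≤ T then
      (fun x : ℝ => cexp (((x * y : ℝ) : ℂ) * I) * (ck W (t - x) : ℂ)) a.im else 0)) := by
    refine Summable.of_norm_bounded hAs.norm fun a => ?_
    split_ifs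
    · exact le_rfl
    · rw [mul_zero, norm_zero]
      exact norm_nonneg _
  rw [hBB]
  unfold AA
  rw [← hAs.tsum_sub hBs]
  have hK : 0 ≤ 1 / (1 + t) + 1 / (1 + (T - t)) := by
    have : 0 ≤ T - t := by linarith
    positivity
  have h1 : ‖∑' a : ℂ, ((mx a : ℂ) * (cexp (((a.im * y : ℝ) : ℂ) * I) * (ck W (t - a.im) : ℂ)) -
      (mx a : ℂ) * (if 0 < a.im ∧ a.im ≤ T then
        (fun x : ℝ => cexp (((x * y : ℝ) : ℂ) * I) * (ck W (t - x) : ℂ)) a.im else 0))‖ ≤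
      ∑' a : ℂ, (C * (1 / (1 + t) + 1 / (1 + (T - t)))) * ((mx a : ℝ) * (1 / (1 + |t - a.im|) ^ 2)) := by
    refine tsum_of_norm_bounded (hsum.mul_left _).hasSum fun a => ?_
    have h2 : (0 : ℝ) ≤ mx a := Nat.cast_nonneg _
    have h7 : 0 ≤ |t - a.im| := abs_nonneg _
    split_ifs with hif
    · have e : (mx a : ℂ) * (cexp (((a.im * y : ℝ) : ℂ) * I) * (ck W (t - a.im) : ℂ)) -
          (mx a : ℂ) * (fun x : ℝ => cexp (((x * y : ℝ) : ℂ) * I) * (ck W (t - x) : ℂ)) a.im = 0 := sub_self _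
      rw [e, norm_zero]
      exact mul_nonneg (mul_nonneg hC hK) (mul_nonneg h2 (by positivity))
    · rw [mul_zero, sub_zero, Trunc0_norm]
      have h1 := hb (t - a.im)
      have h3 : 1 / (1 + |t - a.im|) ≤ 1 / (1 + t) + 1 / (1 + (T - t)) := by
        have hTt : 0 ≤ T - t := by linarith
        rw [not_and_or, not_lt, not_le] at hif
        rcases hif with hif | hif
        · have h4 : t ≤ |t - a.im| := le_trans (by linarith) (le_abs_self _)
          have h5 : 1 / (1 + |t - a.im|) ≤ 1 / (1 + t) := one_div_le_one_div_of_le (by linarith) (by linarith)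
          have h6 : 0 ≤ 1 / (1 + (T - t)) := by positivity
          linarith
        · have h4 : T - t ≤ |t - a.im| := le_trans (by linarith) (neg_le_abs _)
          have h5 : 1 / (1 + |t - a.im|) ≤ 1 / (1 + (T - t)) := one_div_le_one_div_of_le (by linarith) (by linarith)
          have h6 : 0 ≤ 1 / (1 + t) := by positivity
          linarith
      have h8 : 0 ≤ C * mx a * (1 / (1 + |t - a.im|) ^ 2) := mul_nonneg (mul_nonneg hC h2) (by positivity)
      calc (mx a : ℝ) * |ck W (t - a.im)| ≤ (mx a : ℝ) * (C / (1 + |t - a.im|) ^ 3) := mul_le_mul_of_nonneg_left h1 h2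
        _ = (C * mx a * (1 / (1 + |t - a.im|) ^ 2)) * (1 / (1 + |t - a.im|)) := by
            have hne : 1 + |t - a.im| ≠ 0 := by positivity
            field_simp
        _ ≤ (C * mx a * (1 / (1 + |t - a.im|) ^ 2)) * (1 / (1 + t) + 1 / (1 + (T - t))) := mul_le_mul_of_nonneg_left h3 h8
        _ = (C * (1 / (1 + t) + 1 / (1 + (T - t)))) * ((mx a : ℝ) * (1 / (1 + |t - a.im|) ^ 2)) := by ring
  refine h1.trans ?_
  rw [tsum_mul_left]
  calc (C * (1 / (1 + t) + 1 / (1 + (T - t)))) * ∑' a : ℂ, (mx a : ℝ) * (1 / (1 + |t - a.im|) ^ 2)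
      ≤ (C * (1 / (1 + t) + 1 / (1 + (T - t)))) * (C₂ * Real.log (2 + t)) := mul_le_mul_of_nonneg_left hle (mul_nonneg hC hK)
    _ = C * C₂ * Real.log (2 + t) * (1 / (1 + t) + 1 / (1 + (T - t))) := by ring

theorem BB_out (hRH : RiemannHypothesis) {W : ℝ → ℝ} {s : ℝ} (hW : ES W s) (hs : s ≤ 3 / 4) :
    ∃ C : ℝ, 0 ≤ C ∧ ∀ T t y d : ℝ, 0 ≤ d → (∀ x : ℝ, 0 < x → x ≤ T → d ≤ |t - x|) →
      ‖BB W T t y‖ ≤ C * Real.log (2 + |t|) / (1 + d) := by
  obtain ⟨C, hC, hb⟩ := ck_bound hW hs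
  obtain ⟨C₂, hC₂, hloc⟩ := local_count hRH
  refine ⟨C * C₂, mul_nonneg hC hC₂, fun T t y d hd hx => ?_⟩
  obtain ⟨hsum, hle⟩ := hloc t
  have h0 := ord_sum_le hRH T (fun x => 1 / (1 + |t - x|) ^ 2) (fun x => by positivity) hsum
  have h1 : ‖BB W T t y‖ ≤ ∑ γ ∈ ordinates T, (C / (1 + d)) * ((mult γ : ℝ) * (1 / (1 + |t - γ|) ^ 2)) := by
    unfold BB
    refine (norm_sum_le _ _).trans (Finset.sum_le_sum fun γ hγ => ?_)
    obtain ⟨hγ0, hγT, _⟩ := mem_ordinates.1 hγ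
    have h2 : (0 : ℝ) ≤ mult γ := Nat.cast_nonneg _
    have h3 := hb (t - γ)
    have h7 : 0 ≤ |t - γ| := abs_nonneg _
    have h4 : 1 / (1 + |t - γ|) ≤ 1 / (1 + d) := one_div_le_one_div_of_le (by linarith) (by linarith [hx γ hγ0 hγT])
    have h8 : 0 ≤ C * mult γ * (1 / (1 + |t - γ|) ^ 2) := mul_nonneg (mul_nonneg hC h2) (by positivity)
    have hn : ‖(mult γ : ℂ) * (cexp (((γ * y : ℝ) : ℂ) * I) * (ck W (t - γ) : ℂ))‖ = (mult γ : ℝ) * |ck W (t - γ)| := by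
      rw [norm_mul, norm_mul, Complex.norm_exp_ofReal_mul_I, one_mul, Complex.norm_natCast, Complex.norm_real, Real.norm_eq_abs]
    rw [hn]
    calc (mult γ : ℝ) * |ck W (t - γ)| ≤ (mult γ : ℝ) * (C / (1 + |t - γ|) ^ 3) := mul_le_mul_of_nonneg_left h3 h2
      _ = (C * mult γ * (1 / (1 + |t - γ|) ^ 2)) * (1 / (1 + |t - γ|)) := by
          have hne : 1 + |t - γ| ≠ 0 := by positivity
          field_simp
      _ ≤ (C * mult γ * (1 / (1 + |t - γ|) ^ 2)) * (1 / (1 + d)) := mul_le_mul_of_nonneg_left h4 h8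
      _ = (C / (1 + d)) * ((mult γ : ℝ) * (1 / (1 + |t - γ|) ^ 2)) := by ring
  refine h1.trans ?_
  rw [← Finset.mul_sum]
  have hCd : 0 ≤ C / (1 + d) := div_nonneg hC (by linarith)
  calc (C / (1 + d)) * ∑ γ ∈ ordinates T, (mult γ : ℝ) * (1 / (1 + |t - γ|) ^ 2)
      ≤ (C / (1 + d)) * (C₂ * Real.log (2 + |t|)) := mul_le_mul_of_nonneg_left (h0.trans hle) hCd
    _ = C * C₂ * Real.log (2 + |t|) / (1 + d) := by ring

end Pool.Agent.Lib.MP_00e05b_nt.Mont
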