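import Pool.Agent.Lib.MP_00e05b_nt.Mont.ZA0

/-!
# JOB ZA: the sum over the zeros for test functions away from `0`

Let `f u = h u * (1 - Φ (R u))`: smooth, even, `= 0` for `|u| ≤ 1/(4R)` and for `|u| ≥ 5/8`. By `zexact`
`∑ mx a * ck f (a.im - t) = 2 ∫_0^1 f(u) cos(tu) (e^{u/2} - e^{-u/2} rt u) du`, and `e^{-u/2} rt u = 1/(2u) + O(1)` on
`(0, 1]` (`rt_approx`) where `rt u = e^{-2u}/(1 - e^{-2u})`. So the sum is `- ∫_0^1 f(u) cos(tu) du/u + O(sup |h|)`
(`0 ≤ 1 - Φ ≤ 1`).
`rt_approx`: `2u ≤ e^{2u} - 1 ≤ 2u + 2u² e^{2}`-type bounds, `rt u = 1/(e^{2u} - 1)`.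
-/

open Complex Set Filter Topology MeasureTheory
open scoped ContDiff

namespace Pool.Agent.Lib.MP_00e05b_nt.Mont

/-- `|e^{-u/2} rt u - 1/(2u)| ≤ 5` on `(0, 1]`. -/
theorem rt_approx (u : ℝ) (h0 : 0 < u) (h1 : u ≤ 1) :
    |Real.exp (-(u / 2)) * rt u - 1 / (2 * u)| ≤ 5 := by
  have he : 0 < 1 - Real.exp (-(2 * u)) := by
    have : Real.exp (-(2 * u)) < 1 := by
      rw [Real.exp_lt_one_iff]
      linarith
    linarith
  have h2u : (0 : ℝ) < 2 * u := by linarith
  -- upper bound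
  have hup : rt u ≤ 1 / (2 * u) := by
    unfold rt
    rw [div_le_div_iff₀ he h2u, one_mul]
    have h3 : 1 + 2 * u ≤ Real.exp (2 * u) := by
      have := Real.add_one_le_exp (2 * u)
      linarith
    have h4 : Real.exp (-(2 * u)) * Real.exp (2 * u) = 1 := by
      rw [← Real.exp_add]
      simp
    have h5 := Real.exp_pos (-(2 * u))
    nlinarith
  have hlow : Real.exp (-(2 * u)) / (2 * u) ≤ rt u := by
    unfold rt
    refine div_le_div_of_nonneg_left (Real.exp_pos _).le he ?_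
    have := Real.add_one_le_exp (-(2 * u))
    linarith
  have hrt0 : 0 ≤ rt u := le_trans (by positivity) hlow
  have hexp1 : Real.exp (-(u / 2)) ≤ 1 := by
    rw [Real.exp_le_one_iff]
    linarith
  rw [abs_le]
  constructor
  · have h6 : Real.exp (-(u / 2)) * (Real.exp (-(2 * u)) / (2 * u)) ≤ Real.exp (-(u / 2)) * rt u :=
      mul_le_mul_of_nonneg_left hlow (Real.exp_pos _).le
    have h7 : Real.exp (-(u / 2)) * (Real.exp (-(2 * u)) / (2 * u)) = Real.exp (-(5 / 2 * u)) / (2 * u) := by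
      rw [← mul_div_assoc, ← Real.exp_add]
      congr 2
      ring
    have h8 : 1 - 5 / 2 * u ≤ Real.exp (-(5 / 2 * u)) := by
      have := Real.add_one_le_exp (-(5 / 2 * u))
      linarith
    have h9 : (1 - 5 / 2 * u) / (2 * u) ≤ Real.exp (-(5 / 2 * u)) / (2 * u) :=
      div_le_div_of_nonneg_right h8 h2u.le
    have h10 : (1 - 5 / 2 * u) / (2 * u) = 1 / (2 * u) - 5 / 4 := by
      field_simp
      ring
    linarith
  · have h6 : Real.exp (-(u / 2)) * rt u ≤ 1 * rt u := mul_le_mul_of_nonneg_right hexp1 hrt0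
    linarith

private lemma intOn {f : ℝ → ℝ} (hf : Continuous f) {η : ℝ} (hη : 0 < η) (h0 : ∀ u, |u| ≤ η → f u = 0)
    {m : ℝ → ℝ} (hm : ContinuousOn m (Ioi 0)) : IntervalIntegrable (fun u => f u * m u) volume 0 1 := by
  rw [intervalIntegrable_iff_integrableOn_Ioc_of_le zero_le_one]
  have h1 : IntegrableOn (fun u => f u * m u) (Icc η 1) := by
    refine ContinuousOn.integrableOn_compact isCompact_Icc ?_
    exact hf.continuousOn.mul (hm.mono fun u hu => lt_of_lt_of_le hη hu.1)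
  refine IntegrableOn.of_forall_sdiff_eq_zero h1 measurableSet_Ioc ?_
  intro u hu
  have hpos : 0 < u := hu.1.1
  have : f u = 0 := by
    refine h0 u ?_
    rw [abs_of_pos hpos]
    by_contra h3
    push Not at h3
    exact hu.2 ⟨h3.le, hu.1.2⟩
  rw [this, zero_mul]

theorem zsum_away (hRH : RiemannHypothesis) {Φ : ℝ → ℝ} (hΦ : EB Φ (1 / 2)) {h : ℝ → ℝ}
    (hh : ES h (5 / 8)) :
    ∃ C : ℝ, 0 ≤ C ∧ ∀ t R : ℝ, 1 ≤ R →
      Summable (fun a : ℂ => (mx a : ℝ) * ck (fun u => h u * (1 - Φ (R * u))) (a.im - t)) ∧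
      |(∑' a : ℂ, (mx a : ℝ) * ck (fun u => h u * (1 - Φ (R * u))) (a.im - t)) +
        ∫ u in (0 : ℝ)..1, h u * (1 - Φ (R * u)) * Real.cos (t * u) / u| ≤ C := by
  obtain ⟨K, hK⟩ := hh.compact.exists_bound_of_continuous hh.continuous
  have hK0 : 0 ≤ K := (norm_nonneg _).trans (hK 0)
  refine ⟨14 * K, by positivity, fun t R hR => ?_⟩
  have hR0 : 0 < R := by linarith
  set f : ℝ → ℝ := fun u => h u * (1 - Φ (R * u)) with hfdef
  have hfES : ES f (5 / 8) := by
    refine ⟨?_, fun u => ?_, fun u hu => ?_⟩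
    · have h1 := hh.smooth
      have h2 := hΦ.smooth
      exact h1.mul (contDiff_const.sub (h2.comp (contDiff_const.mul contDiff_id)))
    · simp only [hfdef]
      rw [hh.even, mul_neg, hΦ.even]
    · simp only [hfdef]
      rw [hh.supp u hu, zero_mul]
  have hη : 0 < 1 / (4 * R) := by positivity
  have h0 : ∀ u, |u| ≤ 1 / (4 * R) → f u = 0 := by
    intro u hu
    simp only [hfdef]
    rw [hΦ.one (R * u) ?_, sub_self, mul_zero]
    rw [abs_mul, abs_of_pos hR0]
    have := mul_le_mul_of_nonneg_left hu hR0.le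
    have h2 : R * (1 / (4 * R)) = 1 / 2 / 2 := by
      field_simp
      norm_num
    linarith
  obtain ⟨hs, he⟩ := zexact hRH hfES hη h0 t
  refine ⟨hs, ?_⟩
  rw [he]
  have hfK : ∀ u, |f u| ≤ K := by
    intro u
    simp only [hfdef]
    rw [abs_mul]
    have h1 := hK u
    rw [Real.norm_eq_abs] at h1
    have h2 := hΦ.nonneg (R * u)
    have h3 := hΦ.le_one (R * u)
    have h4 : |1 - Φ (R * u)| ≤ 1 := by
      rw [abs_le]
      constructor <;> linarith
    calc |h u| * |1 - Φ (R * u)| ≤ K * 1 := mul_le_mul h1 h4 (abs_nonneg _) hK0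
      _ = K := mul_one K
  have hrtc : ContinuousOn rt (Ioi 0) := by
    unfold rt
    refine ContinuousOn.div (by fun_prop) (by fun_prop) (fun u hu => ?_)
    have : Real.exp (-(2 * u)) < 1 := by
      rw [Real.exp_lt_one_iff]
      have : (0 : ℝ) < u := hu
      linarith
    linarith
  have hi1 : IntervalIntegrable (fun u => f u * (Real.cos (t * u) * (Real.exp (u / 2) - Real.exp (-(u / 2)) * rt u))) volume 0 1 := by
    refine intOn hfES.continuous hη h0 ?_
    refine ContinuousOn.mul (by fun_prop) (ContinuousOn.sub (by fun_prop) (ContinuousOn.mul (by fun_prop) hrtc))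
  have hi2 : IntervalIntegrable (fun u => f u * (Real.cos (t * u) / u)) volume 0 1 := by
    refine intOn hfES.continuous hη h0 ?_
    exact ContinuousOn.div (by fun_prop) (by fun_prop) (fun u hu => ne_of_gt hu)
  have e1 : (∫ u in (0 : ℝ)..1, f u * Real.cos (t * u) * (Real.exp (u / 2) - Real.exp (-(u / 2)) * rt u))
      = ∫ u in (0 : ℝ)..1, f u * (Real.cos (t * u) * (Real.exp (u / 2) - Real.exp (-(u / 2)) * rt u)) := by
    congr 1
    funext u
    ring
  have e2 : (∫ u in (0 : ℝ)..1, h u * (1 - Φ (R * u)) * Real.cos (t * u) / u)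
      = ∫ u in (0 : ℝ)..1, f u * (Real.cos (t * u) / u) := by
    congr 1
    funext u
    simp only [hfdef]
    ring
  rw [e1, e2, ← intervalIntegral.integral_const_mul, ← intervalIntegral.integral_add (hi1.const_mul 2) hi2]
  have hb := intervalIntegral.norm_integral_le_of_norm_le_const (a := (0 : ℝ)) (b := 1) (C := 14 * K)
    (f := fun u => 2 * (f u * (Real.cos (t * u) * (Real.exp (u / 2) - Real.exp (-(u / 2)) * rt u))) + f u * (Real.cos (t * u) / u)) ?_
  · rw [Real.norm_eq_abs] at hb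
    simpa using hb
  · intro u hu
    rw [uIoc_of_le zero_le_one] at hu
    have hpos : 0 < u := hu.1
    have hle : u ≤ 1 := hu.2
    have h1 := rt_approx u hpos hle
    have h2 : 2 * (f u * (Real.cos (t * u) * (Real.exp (u / 2) - Real.exp (-(u / 2)) * rt u))) + f u * (Real.cos (t * u) / u)
        = f u * Real.cos (t * u) * (2 * Real.exp (u / 2) - 2 * (Real.exp (-(u / 2)) * rt u - 1 / (2 * u))) := by
      field_simp
      ring
    rw [h2, Real.norm_eq_abs, abs_mul, abs_mul]
    have h3 : |Real.cos (t * u)| ≤ 1 := Real.abs_cos_le_one _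
    have h4 : Real.exp (u / 2) ≤ 2 := by
      have h5 : Real.exp (u / 2) ≤ Real.exp (1 / 2) := Real.exp_le_exp.mpr (by linarith)
      have h6 : Real.exp (1 / 2) * Real.exp (1 / 2) = Real.exp 1 := by
        rw [← Real.exp_add]
        norm_num
      have h7 := Real.exp_one_lt_d9
      have h8 := Real.exp_pos (1 / 2)
      nlinarith
    have h9 : |2 * Real.exp (u / 2) - 2 * (Real.exp (-(u / 2)) * rt u - 1 / (2 * u))| ≤ 14 := by
      rw [abs_le] at h1 ⊢
      have := Real.exp_pos (u / 2)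
      constructor <;> linarith
    calc |f u| * |Real.cos (t * u)| * |2 * Real.exp (u / 2) - 2 * (Real.exp (-(u / 2)) * rt u - 1 / (2 * u))|
        ≤ K * 1 * 14 := by
          refine mul_le_mul (mul_le_mul (hfK u) h3 (abs_nonneg _) hK0) h9 (abs_nonneg _) (by linarith)
      _ = 14 * K := by ring

end Pool.Agent.Lib.MP_00e05b_nt.Mont
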