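import Pool.Agent.Lib.MP_00e05b_nt.Mont.BasA
import Pool.Agent.Lib.MP_00e05b_nt.Mont.Crude
import Pool.Agent.Lib.MP_00e05b_nt.Mont.Symm

/-!
# JOB ZA0: the explicit formula for even test functions vanishing near `0`

Apply `explicit_formula` (Explicit2.lean) to `g u = f u * exp (-u/2) * exp (-i t u)` for `u > 0`, `g u = 0` for `u ≤ 0` (a `Test`
function, because `f` vanishes near `0`). Under RH the zeros are `a = 1/2 + iγ` (`re_of_RH`; `mx a = 0` otherwise, `mx_eq_zero`), and
`∫ g(u) e^{au} du = ∫_0^∞ f(u) e^{i(γ-t)u} du`, with real part `(1/2) ck f (γ - t)` (evenness). No prime contributes, as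
`log 2 > 5/8` (and `Λ 1 = 0`, `log 1 = 0`). Take real parts (`Complex.reCLM.hasSum` or `Complex.hasSum_re`).
Summability: `ck_bound` with `summable_cube`, or from the formula itself.
-/

open Complex Set Filter Topology MeasureTheory
open scoped ContDiff

namespace Pool.Agent.Lib.MP_00e05b_nt.Mont

private noncomputable def gT (f : ℝ → ℝ) (t : ℝ) (u : ℝ) : ℂ :=
  if 0 < u then (f u : ℂ) * cexp (-((u / 2 : ℝ) : ℂ) - ((t * u : ℝ) : ℂ) * I) else 0

private lemma gT_test {f : ℝ → ℝ} (hf : ES f (5 / 8)) {η : ℝ} (hη : 0 < η)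
    (h0 : ∀ u, |u| ≤ η → f u = 0) (t : ℝ) : Test (gT f t) := by
  have hsupp : Function.support (gT f t) ⊆ Icc η (5 / 8) := by
    intro u hu
    rw [Function.mem_support] at hu
    unfold gT at hu
    split_ifs at hu with hpos
    · have hfu : f u ≠ 0 := by
        intro h
        apply hu
        rw [h]
        simp
      constructor
      · by_contra hlt
        push Not at hlt
        exact hfu (h0 u (by rw [abs_of_pos hpos]; exact hlt.le))
      · by_contra hlt
        push Not at hlt
        exact hfu (hf.supp u (by rw [abs_of_pos hpos]; exact hlt.le))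
    · exact absurd rfl hu
  have hts : tsupport (gT f t) ⊆ Icc η (5 / 8) := closure_minimal hsupp isClosed_Icc
  refine ⟨?_, ?_, ?_⟩
  · rw [contDiff_iff_contDiffAt]
    intro u
    by_cases hu : u < η
    · have : gT f t =ᶠ[𝓝 u] fun _ => (0 : ℂ) := by
        filter_upwards [Iio_mem_nhds hu] with v hv
        unfold gT
        split_ifs with hpos
        · rw [h0 v (by rw [abs_of_pos hpos]; exact hv.le)]
          simp
        · rfl
      exact contDiffAt_const.congr_of_eventuallyEq this
    · have hpos : 0 < u := lt_of_lt_of_le hη (not_lt.mp hu)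
      have : gT f t =ᶠ[𝓝 u] fun u => (f u : ℂ) * cexp (-((u / 2 : ℝ) : ℂ) - ((t * u : ℝ) : ℂ) * I) := by
        filter_upwards [Ioi_mem_nhds hpos] with v hv
        unfold gT
        rw [if_pos (show (0 : ℝ) < v from hv)]
      refine ContDiffAt.congr_of_eventuallyEq ?_ this
      have hfs := hf.smooth
      have h1 : ContDiff ℝ ∞ (fun u : ℝ => (f u : ℂ)) := Complex.ofRealCLM.contDiff.comp hfs
      have h2 : ContDiff ℝ ∞ (fun u : ℝ => (-((u / 2 : ℝ) : ℂ) - ((t * u : ℝ) : ℂ) * I)) := by
        have e1 : ContDiff ℝ ∞ (fun u : ℝ => ((u / 2 : ℝ) : ℂ)) :=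
          Complex.ofRealCLM.contDiff.comp (contDiff_id.div_const 2)
        have e2 : ContDiff ℝ ∞ (fun u : ℝ => ((t * u : ℝ) : ℂ)) :=
          Complex.ofRealCLM.contDiff.comp (contDiff_const.mul contDiff_id)
        exact e1.neg.sub (e2.mul contDiff_const)
      exact (h1.mul h2.cexp).contDiffAt
  · exact HasCompactSupport.of_support_subset_isCompact isCompact_Icc hsupp
  · exact hts.trans (fun u hu => lt_of_lt_of_le hη hu.1)

/-- real part of the integral against a multiplier -/
private lemma gT_re {f : ℝ → ℝ} (hf : ES f (5 / 8)) {η : ℝ} (hη : 0 < η)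
    (h0 : ∀ u, |u| ≤ η → f u = 0) (t : ℝ) {m : ℝ → ℂ} (hm : ContinuousOn m (Ioi 0)) {F : ℝ → ℝ}
    (hF : ∀ u, 0 < u → (cexp (-((u / 2 : ℝ) : ℂ) - ((t * u : ℝ) : ℂ) * I) * m u).re = F u) :
    Integrable (fun u => gT f t u * m u) ∧
    (∫ u, gT f t u * m u).re = ∫ u in Ioi (0 : ℝ), f u * F u := by
  have hT := gT_test hf hη h0 t
  have hint : Integrable (fun u => gT f t u * m u) := by
    have hcont : Continuous (fun u => gT f t u * m u) := by
      rw [continuous_iff_continuousAt]
      intro u
      by_cases hu : u < η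
      · have : (fun u => gT f t u * m u) =ᶠ[𝓝 u] fun _ => (0 : ℂ) := by
          filter_upwards [Iio_mem_nhds hu] with v hv
          have : gT f t v = 0 := by
            unfold gT
            split_ifs with hpos
            · rw [h0 v (by rw [abs_of_pos hpos]; exact hv.le)]
              simp
            · rfl
          rw [this, zero_mul]
        exact continuousAt_const.congr this.symm
      · have hpos : 0 < u := lt_of_lt_of_le hη (not_lt.mp hu)
        exact hT.smooth.continuous.continuousAt.mul (hm.continuousAt (Ioi_mem_nhds hpos))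
    exact hcont.integrable_of_hasCompactSupport hT.cpt.mul_right
  refine ⟨hint, ?_⟩
  have h1 : (∫ u, gT f t u * m u).re = ∫ u, (gT f t u * m u).re := by
    have := Complex.reCLM.integral_comp_comm hint
    simpa using this.symm
  rw [h1, ← integral_indicator measurableSet_Ioi]
  congr 1
  funext u
  by_cases hu : 0 < u
  · rw [Set.indicator_of_mem (show u ∈ Ioi (0 : ℝ) from hu)]
    unfold gT
    rw [if_pos hu, mul_assoc, Complex.re_ofReal_mul, hF u hu]
  · rw [Set.indicator_of_notMem (show u ∉ Ioi (0 : ℝ) from hu)]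
    unfold gT
    rw [if_neg hu, zero_mul, Complex.zero_re]

private lemma cexp_re_aux (x y : ℝ) : (cexp ((x : ℂ) + (y : ℂ) * I)).re = Real.exp x * Real.cos y := by
  rw [Complex.exp_re]
  simp

private lemma half_ck {f : ℝ → ℝ} (hf : ES f (5 / 8)) (s : ℝ) :
    ∫ u in Ioi (0 : ℝ), f u * Real.cos (s * u) = (1 / 2) * ck f s := by
  have h := integral_comp_abs (f := fun u => f u * Real.cos (s * u))
  have h2 : (fun u : ℝ => f |u| * Real.cos (s * |u|)) = fun u => f u * Real.cos (s * u) := by
    funext u
    rcases le_total 0 u with hu | hu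
    · rw [abs_of_nonneg hu]
    · rw [abs_of_nonpos hu, hf.even, mul_neg, Real.cos_neg]
  rw [h2] at h
  unfold ck
  linarith

theorem zexact (hRH : RiemannHypothesis) {f : ℝ → ℝ} (hf : ES f (5 / 8)) {η : ℝ} (hη : 0 < η)
    (h0 : ∀ u, |u| ≤ η → f u = 0) (t : ℝ) :
    Summable (fun a : ℂ => (mx a : ℝ) * ck f (a.im - t)) ∧
    ∑' a : ℂ, (mx a : ℝ) * ck f (a.im - t) =
      2 * ∫ u in (0 : ℝ)..1, f u * Real.cos (t * u) * (Real.exp (u / 2) - Real.exp (-(u / 2)) * rt u) := by
  have hT := gT_test hf hη h0 t
  have hE := Complex.hasSum_re (explicit_formula hT)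
  -- the zeros
  have hterm : ∀ a : ℂ, (((mx a : ℂ) * ∫ u, gT f t u * Complex.exp (a * u))).re = (1 / 2) * ((mx a : ℝ) * ck f (a.im - t)) := by
    intro a
    by_cases ha : xi a = 0
    · have hre := re_of_RH hRH ha
      have h1 := (gT_re hf hη h0 t (m := fun u : ℝ => Complex.exp (a * u)) (by fun_prop)
        (F := fun u => Real.cos ((a.im - t) * u)) (fun u _ => by
          rw [← Complex.exp_add]
          have : -((u / 2 : ℝ) : ℂ) - ((t * u : ℝ) : ℂ) * I + a * u = ((0 : ℝ) : ℂ) + (((a.im - t) * u : ℝ) : ℂ) * I := by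
            rw [hre]
            push_cast
            simp
            ring
          rw [this, cexp_re_aux]
          simp)).2
      have h2 : ((mx a : ℂ) * ∫ u, gT f t u * Complex.exp (a * u)).re = (mx a : ℝ) * (∫ u, gT f t u * Complex.exp (a * u)).re := by
        rw [show (mx a : ℂ) = (((mx a : ℕ) : ℝ) : ℂ) by push_cast; rfl, Complex.re_ofReal_mul]
      rw [h2, h1, half_ck hf]
      ring
    · rw [mx_eq_zero ha]
      simp
  -- the primes
  have hprime : ∑' n : ℕ, ((ArithmeticFunction.vonMangoldt n : ℝ) : ℂ) * gT f t (Real.log n) = 0 := by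
    have : ∀ n : ℕ, ((ArithmeticFunction.vonMangoldt n : ℝ) : ℂ) * gT f t (Real.log n) = 0 := by
      intro n
      rcases Nat.lt_or_ge n 2 with hn | hn
      · interval_cases n
        · simp
        · simp
      · have hlog : 5 / 8 ≤ Real.log n := by
          have h1 : Real.log 2 ≤ Real.log n := Real.log_le_log (by norm_num) (by exact_mod_cast hn)
          have h2 := Real.log_two_gt_d9
          linarith
        have hz : gT f t (Real.log n) = 0 := by
          unfold gT
          split_ifs with hpos
          · rw [hf.supp _ (by rw [abs_of_pos hpos]; exact hlog)]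
            simp
          · rfl
        rw [hz, mul_zero]
    rw [tsum_congr this, tsum_zero]
  rw [hprime, sub_zero] at hE
  -- the right-hand side
  have hexp := gT_re hf hη h0 t (m := fun u : ℝ => Complex.exp u) (by fun_prop)
        (F := fun u => Real.exp (u / 2) * Real.cos (t * u)) (fun u _ => by
          rw [← Complex.exp_add]
          have : -((u / 2 : ℝ) : ℂ) - ((t * u : ℝ) : ℂ) * I + u = ((u / 2 : ℝ) : ℂ) + ((-(t * u) : ℝ) : ℂ) * I := by
            push_cast
            ring
          rw [this, cexp_re_aux, Real.cos_neg])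
  have hrtc : ContinuousOn rt (Ioi 0) := by
    unfold rt
    refine ContinuousOn.div (by fun_prop) (by fun_prop) (fun u hu => ?_)
    have : Real.exp (-(2 * u)) < 1 := by
      rw [Real.exp_lt_one_iff]
      have : (0 : ℝ) < u := hu
      linarith
    linarith
  have hrt := gT_re hf hη h0 t (m := fun u : ℝ => (rt u : ℂ)) (Complex.continuous_ofReal.comp_continuousOn hrtc)
        (F := fun u => Real.exp (-(u / 2)) * Real.cos (t * u) * rt u) (fun u _ => by
          have : -((u / 2 : ℝ) : ℂ) - ((t * u : ℝ) : ℂ) * I = ((-(u / 2) : ℝ) : ℂ) + ((-(t * u) : ℝ) : ℂ) * I := by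
            push_cast
            ring
          rw [Complex.re_mul_ofReal, this, cexp_re_aux, Real.cos_neg])
  have hfi : ∀ {m : ℝ → ℝ}, ContinuousOn m (Ioi 0) → IntegrableOn (fun u => f u * m u) (Ioi 0) := by
    intro m hm
    have h1 : IntegrableOn (fun u => f u * m u) (Icc η (5 / 8)) := by
      refine ContinuousOn.integrableOn_compact isCompact_Icc ?_
      exact hf.smooth.continuous.continuousOn.mul (hm.mono fun u hu => lt_of_lt_of_le hη hu.1)
    have h2 := h1.indicator (measurableSet_Icc (a := η) (b := 5 / 8))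
    refine (IntegrableOn.of_forall_sdiff_eq_zero h1 measurableSet_Ioi ?_)
    intro u hu
    have hpos : 0 < u := hu.1
    have hnot : u ∉ Icc η (5 / 8) := hu.2
    have : f u = 0 := by
      by_cases h3 : u ≤ η
      · exact h0 u (by rw [abs_of_pos hpos]; exact h3)
      · refine hf.supp u ?_
        rw [abs_of_pos hpos]
        by_contra h4
        push Not at h3 h4
        exact hnot ⟨h3.le, h4.le⟩
    rw [this, zero_mul]
  have hrhs : ((∫ u, gT f t u * Complex.exp u) - (∫ u, gT f t u * (rt u : ℂ))).re =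
      ∫ u in (0 : ℝ)..1, f u * Real.cos (t * u) * (Real.exp (u / 2) - Real.exp (-(u / 2)) * rt u) := by
    rw [Complex.sub_re, hexp.2, hrt.2, ← integral_sub (hfi (by fun_prop)) (hfi ?_), intervalIntegral.integral_of_le zero_le_one]
    · have : ∀ u, f u * (Real.exp (u / 2) * Real.cos (t * u)) - f u * (Real.exp (-(u / 2)) * Real.cos (t * u) * rt u)
          = f u * Real.cos (t * u) * (Real.exp (u / 2) - Real.exp (-(u / 2)) * rt u) := fun u => by ring
      simp_rw [this]
      refine setIntegral_eq_of_subset_of_forall_sdiff_eq_zero measurableSet_Ioi (fun u hu => hu.1) (fun u hu => ?_)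
      have hpos : 0 < u := hu.1
      have : f u = 0 := by
        refine hf.supp u ?_
        rw [abs_of_pos hpos]
        by_contra h4
        push Not at h4
        exact hu.2 ⟨hpos, by linarith⟩
      rw [this, zero_mul, zero_mul]
    · exact ContinuousOn.mul (by fun_prop) hrtc
  rw [hrhs] at hE
  have hE2 : HasSum (fun a : ℂ => (1 / 2) * ((mx a : ℝ) * ck f (a.im - t)))
      (∫ u in (0 : ℝ)..1, f u * Real.cos (t * u) * (Real.exp (u / 2) - Real.exp (-(u / 2)) * rt u)) := by
    have : (fun a : ℂ => (1 / 2) * ((mx a : ℝ) * ck f (a.im - t))) =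
        fun a : ℂ => (((mx a : ℂ) * ∫ u, gT f t u * Complex.exp (a * u))).re := funext fun a => (hterm a).symm
    rw [this]
    exact hE
  have hE3 := hE2.mul_left 2
  have hE4 : HasSum (fun a : ℂ => (mx a : ℝ) * ck f (a.im - t))
      (2 * ∫ u in (0 : ℝ)..1, f u * Real.cos (t * u) * (Real.exp (u / 2) - Real.exp (-(u / 2)) * rt u)) := by
    have : (fun a : ℂ => (mx a : ℝ) * ck f (a.im - t)) = fun a : ℂ => 2 * ((1 / 2) * ((mx a : ℝ) * ck f (a.im - t))) := by
      funext a
      ring
    rw [this]
    exact hE3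
  exact ⟨hE4.summable, hE4.tsum_eq⟩

end Pool.Agent.Lib.MP_00e05b_nt.Mont
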