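import Pool.Agent.Lib.MP_00e05b_nt.Mont.BasA
import Pool.Agent.Lib.MP_00e05b_nt.Mont.Crude

/-!
# JOB ZS: contributions of the scale `1/R` that tend to zero

Let `R ≥ 1` and `F_R y = R^2 * Θ (y/R) * Φ y`. Since `Θ` is even with `Θ 0 = 0`, also `Θ' 0 = 0`, and
`|Θ x| ≤ C x^2`, `|Θ' x| ≤ C |x|`, `|Θ''|, |Θ'''| ≤ C` on `[-1, 1]`. Hence `F_R` and its first three derivatives are bounded by a
constant `K` not depending on `R ≥ 1` (`Bump F_R F_R' F_R'' F_R''' K`, support of `Φ` in `[-1/2, 1/2]`).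
Substituting `u = y/R`: `ck (fun u => Θ u * Φ (R u)) s = R^(-3) ck F_R (s/R)`, so by `ck_le_of_bump`
`|ck (..) s| ≤ 1000 K R^(-3) / (1 + |s|/R)^3`, and for `R ≥ 1 + |t|` the sum over the zeros is `≤ 1000 K R^(-3) * C R^2` by `crude`.
-/

open Complex Set Filter Topology MeasureTheory
open scoped ContDiff

namespace Pool.Agent.Lib.MP_00e05b_nt.Mont

/-- Product of a function with bounded derivatives on `[-1, 1]` and a bump. -/
private lemma bump_mul {A A1 A2 A3 Φ Φ1 Φ2 Φ3 : ℝ → ℝ} {C K : ℝ} (hΦ : Bump Φ Φ1 Φ2 Φ3 K)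
    (h3 : ∀ u, 1 ≤ |u| → Φ3 u = 0)
    (d0 : ∀ u, HasDerivAt A (A1 u) u) (d1 : ∀ u, HasDerivAt A1 (A2 u) u) (d2 : ∀ u, HasDerivAt A2 (A3 u) u)
    (hc : Continuous A3) (b0 : ∀ u, |u| ≤ 1 → |A u| ≤ C) (b1 : ∀ u, |u| ≤ 1 → |A1 u| ≤ C)
    (b2 : ∀ u, |u| ≤ 1 → |A2 u| ≤ C) (b3 : ∀ u, |u| ≤ 1 → |A3 u| ≤ C) :
    Bump (fun u => A u * Φ u) (fun u => A1 u * Φ u + A u * Φ1 u)
      (fun u => A2 u * Φ u + 2 * (A1 u * Φ1 u) + A u * Φ2 u)
      (fun u => A3 u * Φ u + 3 * (A2 u * Φ1 u) + 3 * (A1 u * Φ2 u) + A u * Φ3 u) (8 * (C * K)) := by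
  have hC : 0 ≤ C := (abs_nonneg _).trans (b0 0 (by simp))
  have hK : 0 ≤ K := (abs_nonneg _).trans (hΦ.b0 0)
  have hA : Continuous A := continuous_iff_continuousAt.2 fun u => (d0 u).continuousAt
  have hA1 : Continuous A1 := continuous_iff_continuousAt.2 fun u => (d1 u).continuousAt
  have hA2 : Continuous A2 := continuous_iff_continuousAt.2 fun u => (d2 u).continuousAt
  have hP0 : Continuous Φ := continuous_iff_continuousAt.2 fun u => (hΦ.d0 u).continuousAt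
  have hP1 : Continuous Φ1 := continuous_iff_continuousAt.2 fun u => (hΦ.d1 u).continuousAt
  have hP2 : Continuous Φ2 := continuous_iff_continuousAt.2 fun u => (hΦ.d2 u).continuousAt
  have hP3 : Continuous Φ3 := hΦ.cont
  have key : ∀ {x y : ℝ}, |x| ≤ C → |y| ≤ K → |x * y| ≤ C * K := by
    intro x y hx hy
    rw [abs_mul]
    exact mul_le_mul hx hy (abs_nonneg _) hC
  have hCK : 0 ≤ C * K := mul_nonneg hC hK
  have z : ∀ u, 1 ≤ |u| → Φ u = 0 ∧ Φ1 u = 0 ∧ Φ2 u = 0 ∧ Φ3 u = 0 := fun u hu =>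
    ⟨(hΦ.supp u hu).1, (hΦ.supp u hu).2.1, (hΦ.supp u hu).2.2, h3 u hu⟩
  refine ⟨?_, ?_, ?_, by fun_prop, ?_, ?_, ?_, ?_, ?_⟩
  · intro u
    exact (d0 u).mul (hΦ.d0 u)
  · intro u
    have := ((d1 u).mul (hΦ.d0 u)).add ((d0 u).mul (hΦ.d1 u))
    refine this.congr_deriv ?_
    ring
  · intro u
    have := (((d2 u).mul (hΦ.d0 u)).add (((d1 u).mul (hΦ.d1 u)).const_mul 2)).add ((d0 u).mul (hΦ.d2 u))
    refine this.congr_deriv ?_
    ring
  · intro u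
    rcases le_or_gt 1 |u| with hu | hu
    · simp only [(z u hu).1]; rw [mul_zero, abs_zero]; positivity
    · have := key (b0 u hu.le) (hΦ.b0 u)
      linarith
  · intro u
    rcases le_or_gt 1 |u| with hu | hu
    · simp only [(z u hu).1, (z u hu).2.1]; simp only [mul_zero, add_zero, abs_zero]; positivity
    · have k1 := key (b1 u hu.le) (hΦ.b0 u)
      have k2 := key (b0 u hu.le) (hΦ.b1 u)
      have := abs_add_le (A1 u * Φ u) (A u * Φ1 u)
      linarith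
  · intro u
    rcases le_or_gt 1 |u| with hu | hu
    · simp only [(z u hu).1, (z u hu).2.1, (z u hu).2.2.1]; simp only [mul_zero, add_zero, abs_zero]; positivity
    · have k1 := abs_le.1 (key (b2 u hu.le) (hΦ.b0 u))
      have k2 := abs_le.1 (key (b1 u hu.le) (hΦ.b1 u))
      have k3 := abs_le.1 (key (b0 u hu.le) (hΦ.b2 u))
      rw [abs_le]
      constructor <;> linarith
  · intro u
    rcases le_or_gt 1 |u| with hu | hu
    · simp only [(z u hu).1, (z u hu).2.1, (z u hu).2.2.1, (z u hu).2.2.2]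
      simp only [mul_zero, add_zero, abs_zero]; positivity
    · have k1 := abs_le.1 (key (b3 u hu.le) (hΦ.b0 u))
      have k2 := abs_le.1 (key (b2 u hu.le) (hΦ.b1 u))
      have k3 := abs_le.1 (key (b1 u hu.le) (hΦ.b2 u))
      have k4 := abs_le.1 (key (b0 u hu.le) (hΦ.b3 u))
      rw [abs_le]
      constructor <;> linarith
  · intro u hu
    simp only [(z u hu).1, (z u hu).2.1, (z u hu).2.2.1]
    simp

/-- Uniform bump data at scale `1 / R`. -/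
private lemma zs_bump {Φ : ℝ → ℝ} (hΦ : EB Φ (1 / 2)) {Θ : ℝ → ℝ} (hΘ : ContDiff ℝ ∞ Θ)
    (he : ∀ u, Θ (-u) = Θ u) (h0 : Θ 0 = 0) :
    ∃ K : ℝ, ∀ R : ℝ, 1 ≤ R → ∃ F1 F2 F3 : ℝ → ℝ,
      Bump (fun y => (R ^ 2 * Θ (y / R)) * Φ y) F1 F2 F3 K := by
  have h1 : ContDiff ℝ ∞ (deriv Θ) := (contDiff_infty_iff_deriv.1 hΘ).2
  have h2 : ContDiff ℝ ∞ (deriv (deriv Θ)) := (contDiff_infty_iff_deriv.1 h1).2
  have h3 : ContDiff ℝ ∞ (deriv (deriv (deriv Θ))) := (contDiff_infty_iff_deriv.1 h2).2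
  have D0 : ∀ u, HasDerivAt Θ (deriv Θ u) u := fun u =>
    ((contDiff_infty_iff_deriv.1 hΘ).1 u).hasDerivAt
  have D1 : ∀ u, HasDerivAt (deriv Θ) (deriv (deriv Θ) u) u := fun u =>
    ((contDiff_infty_iff_deriv.1 h1).1 u).hasDerivAt
  have D2 : ∀ u, HasDerivAt (deriv (deriv Θ)) (deriv (deriv (deriv Θ)) u) u := fun u =>
    ((contDiff_infty_iff_deriv.1 h2).1 u).hasDerivAt
  -- the derivative at 0 vanishes
  have hd0 : deriv Θ 0 = 0 := by
    have e1 : HasDerivAt (fun u : ℝ => Θ (-u)) (deriv Θ (-0) * (-1)) 0 :=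
      HasDerivAt.comp (0 : ℝ) (D0 (-0)) (hasDerivAt_neg 0)
    have e2 : (fun u : ℝ => Θ (-u)) = Θ := funext he
    rw [e2] at e1
    have e3 := e1.unique (D0 0)
    rw [neg_zero] at e3
    linarith
  -- bounds on [-1,1]
  obtain ⟨C2, hC2⟩ := (isCompact_Icc (a := (-1 : ℝ)) (b := 1)).exists_bound_of_continuousOn h2.continuous.continuousOn
  obtain ⟨C3, hC3⟩ := (isCompact_Icc (a := (-1 : ℝ)) (b := 1)).exists_bound_of_continuousOn h3.continuous.continuousOn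
  have hC20 : 0 ≤ C2 := (norm_nonneg _).trans (hC2 0 (by simp))
  have hC30 : 0 ≤ C3 := (norm_nonneg _).trans (hC3 0 (by simp))
  have B1 : ∀ x : ℝ, |x| ≤ 1 → |deriv Θ x| ≤ C2 * |x| := by
    intro x hx
    have := (convex_Icc (-1 : ℝ) 1).norm_image_sub_le_of_norm_hasDerivWithin_le
      (f := deriv Θ) (f' := deriv (deriv Θ)) (C := C2) (x := 0) (y := x)
      (fun y _ => (D1 y).hasDerivWithinAt) hC2 (by simp) (abs_le.1 hx)
    rw [hd0, sub_zero, sub_zero] at this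
    exact this
  have B0 : ∀ x : ℝ, |x| ≤ 1 → |Θ x| ≤ C2 * |x| ^ 2 := by
    intro x hx
    have hb : ∀ y ∈ Icc (-|x|) |x|, ‖deriv Θ y‖ ≤ C2 * |x| := by
      intro y hy
      have hy' : |y| ≤ |x| := abs_le.2 hy
      have := B1 y (hy'.trans hx)
      rw [Real.norm_eq_abs]
      exact this.trans (mul_le_mul_of_nonneg_left hy' hC20)
    have := (convex_Icc (-|x|) |x|).norm_image_sub_le_of_norm_hasDerivWithin_le
      (f := Θ) (f' := deriv Θ) (C := C2 * |x|) (x := 0) (y := x)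
      (fun y _ => (D0 y).hasDerivWithinAt) hb (by simp) (abs_le.1 le_rfl)
    rw [h0, sub_zero, sub_zero] at this
    rw [Real.norm_eq_abs, Real.norm_eq_abs] at this
    calc |Θ x| ≤ C2 * |x| * |x| := this
      _ = C2 * |x| ^ 2 := by ring
  -- bump data for Φ
  obtain ⟨K, hK⟩ := bump_of_smooth hΦ.smooth (fun u hu => hΦ.supp u (by linarith))
  have hP3 : ∀ u : ℝ, 1 ≤ |u| → deriv (deriv (deriv Φ)) u = 0 := by
    intro u hu
    have ho : IsOpen {x : ℝ | 3 / 4 < |x|} := isOpen_lt continuous_const continuous_abs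
    have e0 : Φ =ᶠ[𝓝 u] fun _ => 0 := by
      filter_upwards [ho.mem_nhds (show 3 / 4 < |u| by linarith)] with x hx
      have hx' : 3 / 4 < |x| := hx
      exact hΦ.supp x (by linarith)
    have e1 : deriv Φ =ᶠ[𝓝 u] fun _ => 0 := by
      have := e0.deriv
      simpa using this
    have e2 : deriv (deriv Φ) =ᶠ[𝓝 u] fun _ => 0 := by
      have := e1.deriv
      simpa using this
    have e3 : deriv (deriv (deriv Φ)) =ᶠ[𝓝 u] fun _ => 0 := by
      have := e2.deriv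
      simpa using this
    exact e3.self_of_nhds
  refine ⟨8 * ((C2 + C3) * K), fun R hR => ?_⟩
  have hR0 : 0 < R := by linarith
  have hdiv : ∀ u : ℝ, HasDerivAt (fun y : ℝ => y / R) (1 / R) u := fun u => (hasDerivAt_id u).div_const R
  have hxR : ∀ u : ℝ, |u| ≤ 1 → |u / R| ≤ 1 ∧ |u / R| = |u| / R := by
    intro u hu
    have e : |u / R| = |u| / R := by rw [abs_div, abs_of_pos hR0]
    refine ⟨?_, e⟩
    rw [e, div_le_one hR0]
    linarith
  refine ⟨_, _, _, bump_mul (A := fun y => R ^ 2 * Θ (y / R)) (A1 := fun y => R * deriv Θ (y / R))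
    (A2 := fun y => deriv (deriv Θ) (y / R)) (A3 := fun y => deriv (deriv (deriv Θ)) (y / R) * (1 / R))
    (C := C2 + C3) hK hP3 ?_ ?_ ?_ ?_ ?_ ?_ ?_ ?_⟩
  · intro u
    have := (HasDerivAt.comp u (D0 (u / R)) (hdiv u)).const_mul (R ^ 2)
    refine this.congr_deriv ?_
    field_simp
  · intro u
    have := (HasDerivAt.comp u (D1 (u / R)) (hdiv u)).const_mul R
    refine this.congr_deriv ?_
    field_simp
  · intro u
    exact HasDerivAt.comp u (D2 (u / R)) (hdiv u)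
  · have := h3.continuous
    fun_prop
  · intro u hu
    obtain ⟨k1, k2⟩ := hxR u hu
    have := B0 _ k1
    rw [abs_mul, abs_of_pos (by positivity : 0 < R ^ 2)]
    calc R ^ 2 * |Θ (u / R)| ≤ R ^ 2 * (C2 * |u / R| ^ 2) := by gcongr
      _ = C2 * |u| ^ 2 := by rw [k2]; field_simp
      _ ≤ C2 * 1 := by
          gcongr
          exact pow_le_one₀ (abs_nonneg _) hu
      _ ≤ C2 + C3 := by linarith
  · intro u hu
    obtain ⟨k1, k2⟩ := hxR u hu
    have := B1 _ k1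
    rw [abs_mul, abs_of_pos hR0]
    calc R * |deriv Θ (u / R)| ≤ R * (C2 * |u / R|) := by gcongr
      _ = C2 * |u| := by rw [k2]; field_simp
      _ ≤ C2 * 1 := by gcongr
      _ ≤ C2 + C3 := by linarith
  · intro u hu
    obtain ⟨k1, k2⟩ := hxR u hu
    have := hC2 (u / R) (abs_le.1 k1)
    rw [Real.norm_eq_abs] at this
    linarith
  · intro u hu
    obtain ⟨k1, k2⟩ := hxR u hu
    have := hC3 (u / R) (abs_le.1 k1)
    rw [Real.norm_eq_abs] at this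
    rw [abs_mul, abs_of_pos (by positivity : 0 < 1 / R)]
    have hle : 1 / R ≤ 1 := by rw [div_le_one hR0]; exact hR
    calc |deriv (deriv (deriv Θ)) (u / R)| * (1 / R) ≤ C3 * 1 := by gcongr
      _ ≤ C2 + C3 := by linarith

/-- The cosine transform at scale `1 / R`. -/
private lemma zs_ck {Φ : ℝ → ℝ} (hΦ : EB Φ (1 / 2)) {Θ : ℝ → ℝ} (hΘ : ContDiff ℝ ∞ Θ)
    (he : ∀ u, Θ (-u) = Θ u) (h0 : Θ 0 = 0) :
    ∃ K : ℝ, 0 ≤ K ∧ ∀ R : ℝ, 1 ≤ R → ∀ s : ℝ,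
      |ck (fun u => Θ u * Φ (R * u)) s| ≤ K * (R⁻¹ ^ 3 / (1 + |s| / R) ^ 3) := by
  obtain ⟨K, hK⟩ := zs_bump hΦ hΘ he h0
  have hK0 : 0 ≤ K := by
    obtain ⟨F1, F2, F3, hF⟩ := hK 1 le_rfl
    exact (abs_nonneg _).trans (hF.b0 0)
  refine ⟨1000 * K, by positivity, fun R hR s => ?_⟩
  have hR0 : 0 < R := by linarith
  obtain ⟨F1, F2, F3, hF⟩ := hK R hR
  have hev : ∀ u : ℝ, (fun y => (R ^ 2 * Θ (y / R)) * Φ y) (-u) = (fun y => (R ^ 2 * Θ (y / R)) * Φ y) u := by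
    intro u
    simp only
    rw [neg_div, he, hΦ.even]
  have hb := ck_le_of_bump hF hev (s / R)
  have hs : ck (fun u => Θ u * Φ (R * u)) s = R⁻¹ ^ 3 * ck (fun y => (R ^ 2 * Θ (y / R)) * Φ y) (s / R) := by
    unfold ck
    have := MeasureTheory.Measure.integral_comp_mul_left
      (fun y : ℝ => (R ^ 2 * Θ (y / R)) * Φ y * Real.cos (s / R * y)) R
    rw [abs_of_pos (inv_pos.2 hR0), smul_eq_mul] at this
    have e : (∫ y : ℝ, (R ^ 2 * Θ (y / R)) * Φ y * Real.cos (s / R * y)) =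
        R * ∫ x : ℝ, (R ^ 2 * Θ (R * x / R)) * Φ (R * x) * Real.cos (s / R * (R * x)) := by
      rw [this, ← mul_assoc, mul_inv_cancel₀ hR0.ne', one_mul]
    rw [e, ← mul_assoc, ← integral_const_mul]
    congr 1
    funext x
    rw [mul_div_cancel_left₀ x hR0.ne', show s / R * (R * x) = s * x by field_simp]
    field_simp
  rw [hs, abs_mul, abs_of_pos (by positivity : 0 < R⁻¹ ^ 3)]
  have e : |s / R| = |s| / R := by rw [abs_div, abs_of_pos hR0]
  rw [e] at hb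
  calc R⁻¹ ^ 3 * |ck (fun y => (R ^ 2 * Θ (y / R)) * Φ y) (s / R)|
      ≤ R⁻¹ ^ 3 * (1000 * K / (1 + |s| / R) ^ 3) := by gcongr
    _ = 1000 * K * (R⁻¹ ^ 3 / (1 + |s| / R) ^ 3) := by ring

theorem zsum_small {Φ : ℝ → ℝ} (hΦ : EB Φ (1 / 2)) {Θ : ℝ → ℝ} (hΘ : ContDiff ℝ ∞ Θ)
    (he : ∀ u, Θ (-u) = Θ u) (h0 : Θ 0 = 0) (t : ℝ) :
    (∀ R : ℝ, 1 ≤ R → Summable (fun a : ℂ => (mx a : ℝ) * |ck (fun u => Θ u * Φ (R * u)) (a.im - t)|)) ∧
    Tendsto (fun R : ℝ => ∑' a : ℂ, (mx a : ℝ) * |ck (fun u => Θ u * Φ (R * u)) (a.im - t)|)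
      atTop (𝓝 0) := by
  obtain ⟨K, hK0, hK⟩ := zs_ck hΦ hΘ he h0
  have hsum : ∀ R : ℝ, 1 ≤ R →
      Summable (fun a : ℂ => (mx a : ℝ) * |ck (fun u => Θ u * Φ (R * u)) (a.im - t)|) := by
    intro R hR
    have hR0 : 0 < R := by linarith
    refine Summable.of_nonneg_of_le (fun a => by positivity) (fun a => ?_) ((summable_cube t).mul_left K)
    have h1 := hK R hR (a.im - t)
    have h2 : R⁻¹ ^ 3 / (1 + |a.im - t| / R) ^ 3 ≤ 1 / (1 + |a.im - t|) ^ 3 := by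
      have e : R⁻¹ ^ 3 / (1 + |a.im - t| / R) ^ 3 = 1 / (R + |a.im - t|) ^ 3 := by
        rw [show (1 + |a.im - t| / R) = (R + |a.im - t|) / R by field_simp, div_pow, inv_pow]
        field_simp
      rw [e]
      gcongr
    calc (mx a : ℝ) * |ck (fun u => Θ u * Φ (R * u)) (a.im - t)|
        ≤ (mx a : ℝ) * (K * (1 / (1 + |a.im - t|) ^ 3)) := by
          gcongr
          exact h1.trans (mul_le_mul_of_nonneg_left h2 hK0)
      _ = K * ((mx a : ℝ) / (1 + |a.im - t|) ^ 3) := by ring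
  refine ⟨hsum, ?_⟩
  obtain ⟨C, hC0, hC⟩ := crude
  have hlim : Tendsto (fun R : ℝ => K * C * R⁻¹) atTop (𝓝 0) := by
    have := tendsto_inv_atTop_zero (𝕜 := ℝ)
    simpa using this.const_mul (K * C)
  refine squeeze_zero' (Eventually.of_forall fun R => tsum_nonneg fun a => by positivity) ?_ hlim
  filter_upwards [eventually_ge_atTop (1 : ℝ), eventually_ge_atTop |t|] with R hR hRt
  have hR0 : 0 < R := by linarith
  obtain ⟨hs, hb⟩ := hC R t hR hRt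
  calc ∑' a : ℂ, (mx a : ℝ) * |ck (fun u => Θ u * Φ (R * u)) (a.im - t)|
      ≤ ∑' a : ℂ, K * R⁻¹ ^ 3 * ((mx a : ℝ) / (1 + |a.im - t| / R) ^ 3) := by
        refine (hsum R hR).tsum_le_tsum (fun a => ?_) (hs.mul_left _)
        have h1 := hK R hR (a.im - t)
        calc (mx a : ℝ) * |ck (fun u => Θ u * Φ (R * u)) (a.im - t)|
            ≤ (mx a : ℝ) * (K * (R⁻¹ ^ 3 / (1 + |a.im - t| / R) ^ 3)) := by gcongr
          _ = K * R⁻¹ ^ 3 * ((mx a : ℝ) / (1 + |a.im - t| / R) ^ 3) := by ring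
    _ = K * R⁻¹ ^ 3 * ∑' a : ℂ, (mx a : ℝ) / (1 + |a.im - t| / R) ^ 3 := tsum_mul_left
    _ ≤ K * R⁻¹ ^ 3 * (C * R ^ 2) := by gcongr
    _ = K * C * R⁻¹ := by field_simp

end Pool.Agent.Lib.MP_00e05b_nt.Mont
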