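import Pool.Agent.Lib.MP_00e05b_nt.Mont.ZA
import Pool.Agent.Lib.MP_00e05b_nt.Mont.ZS
import Pool.Agent.Lib.MP_00e05b_nt.Mont.Frul

/-!
# JOB ZC: local density of the zeros (smooth form)

Fix `Φ` with `EB Φ (1/2)` (`exists_EB`), write `S(f, t) = ∑' a, mx a * ck f (a.im - t)` and `f_R u = f u * Φ (R u)`.
All sums converge absolutely (`ck_bound` with `summable_cube`, or the summability parts of the lemmas).

1. `S(h, t) = S(h - h_R, t) + S(h_R, t)` for every `R`, and by `zsum_away` and `frullani`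
   `S(h - h_R, t) = - h 0 * (log R - log (2 + |t|)) + O_h(1)` for `R ≥ 8 (2 + |t|)`.
2. `S(h_R, t) - h 0 * S(Φ_R, t) → 0` as `R → ∞` (fixed `t`): `zsum_small` with `Θ u = h u - h 0 * Φ u`.
3. `S(Φ_R, t) - S(Φ_R, 0) → 0` as `R → ∞`: by `sum_symm` (and `ck_even`)
   `S(Φ_R, t) = (1/2) ∑ mx a (ck Φ_R (a.im - t) + ck Φ_R (a.im + t))`, and
   `ck f (γ - t) + ck f (γ + t) - 2 ck f γ = ck (fun u => f u * (2 cos (t u) - 2)) γ`; apply `zsum_small` at `0` with
   `Θ u = Φ u * (2 cos (t u) - 2)`.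
4. `S(Φ_R, 0) = S(Φ, 0) - S(Φ - Φ_R, 0) = log R + O(1)` by `zsum_away`, `frullani` with `h = Φ`, `t = 0`
   (`S(Φ, 0)` is a constant). Here `Φ 0 = 1`, `EB Φ (1/2)` gives `ES Φ (5/8)`.
5. Add up and let `R → ∞`: `|S(h, t) - h 0 * log (2 + |t|)| ≤ C_h` with `C_h` independent of `t`.
-/

open Complex Set Filter Topology MeasureTheory
open scoped ContDiff

namespace Pool.Agent.Lib.MP_00e05b_nt.Mont

private theorem zc_int {f : ℝ → ℝ} {s : ℝ} (hf : ES f s) (t : ℝ) :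
    Integrable (fun u => f u * Real.cos (t * u)) :=
  (hf.continuous.mul (Real.continuous_cos.comp (continuous_const.mul continuous_id))).integrable_of_hasCompactSupport
    hf.compact.mul_right

private theorem zc_add {f g : ℝ → ℝ} {s s' : ℝ} (hf : ES f s) (hg : ES g s') (t : ℝ) :
    ck (fun u => f u + g u) t = ck f t + ck g t := by
  unfold ck
  rw [← integral_add (zc_int hf t) (zc_int hg t)]
  congr 1
  funext u
  ring

private theorem zc_sub {f g : ℝ → ℝ} {s s' : ℝ} (hf : ES f s) (hg : ES g s') (t : ℝ) :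
    ck (fun u => f u - g u) t = ck f t - ck g t := by
  unfold ck
  rw [← integral_sub (zc_int hf t) (zc_int hg t)]
  congr 1
  funext u
  ring

private theorem zc_smul (f : ℝ → ℝ) (c t : ℝ) : ck (fun u => c * f u) t = c * ck f t := by
  unfold ck
  rw [← integral_const_mul]
  congr 1
  funext u
  ring

private theorem zc_summable {f : ℝ → ℝ} (hf : ES f (5 / 8)) (t : ℝ) :
    Summable (fun a : ℂ => (mx a : ℝ) * ck f (a.im - t)) := by
  obtain ⟨C, hC0, hC⟩ := ck_bound hf (by norm_num)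
  have h1 : Summable (fun a : ℂ => C * ((mx a : ℝ) / (1 + |a.im - t|) ^ 3)) := (summable_cube t).mul_left C
  refine Summable.of_norm_bounded h1 (fun a => ?_)
  rw [Real.norm_eq_abs, abs_mul, Nat.abs_cast]
  calc (mx a : ℝ) * |ck f (a.im - t)| ≤ (mx a : ℝ) * (C / (1 + |a.im - t|) ^ 3) :=
        mul_le_mul_of_nonneg_left (hC _) (Nat.cast_nonneg _)
    _ = _ := by ring

private theorem zc_scale {Φ : ℝ → ℝ} (hΦ : EB Φ (1 / 2)) (R : ℝ) : ContDiff ℝ ∞ (fun u => Φ (R * u)) :=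
  hΦ.smooth.comp (contDiff_const.mul contDiff_id)

private theorem zc_evenR {Φ : ℝ → ℝ} (hΦ : EB Φ (1 / 2)) (R u : ℝ) : Φ (R * -u) = Φ (R * u) := by
  rw [mul_neg]
  exact hΦ.even _

private theorem zc_ES1 {Φ : ℝ → ℝ} (hΦ : EB Φ (1 / 2)) {h : ℝ → ℝ} (hh : ES h (5 / 8)) (R : ℝ) :
    ES (fun u => h u * Φ (R * u)) (5 / 8) := by
  refine ⟨hh.smooth.mul (zc_scale hΦ R), fun u => ?_, fun u hu => ?_⟩
  · show h (-u) * Φ (R * -u) = h u * Φ (R * u)
    rw [hh.even, zc_evenR hΦ]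
  · show h u * Φ (R * u) = 0
    rw [hh.supp u hu, zero_mul]

private theorem zc_ES2 {Φ : ℝ → ℝ} (hΦ : EB Φ (1 / 2)) {h : ℝ → ℝ} (hh : ES h (5 / 8)) (R : ℝ) :
    ES (fun u => h u * (1 - Φ (R * u))) (5 / 8) := by
  refine ⟨hh.smooth.mul (contDiff_const.sub (zc_scale hΦ R)), fun u => ?_, fun u hu => ?_⟩
  · show h (-u) * (1 - Φ (R * -u)) = h u * (1 - Φ (R * u))
    rw [hh.even, zc_evenR hΦ]
  · show h u * (1 - Φ (R * u)) = 0
    rw [hh.supp u hu, zero_mul]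

private theorem zc_ESΦ {Φ : ℝ → ℝ} (hΦ : EB Φ (1 / 2)) : ES Φ (5 / 8) :=
  ⟨hΦ.smooth, hΦ.even, fun u hu => hΦ.supp u (by linarith)⟩

private theorem zc_abs (φ : ℂ → ℝ) (hs : Summable (fun a : ℂ => (mx a : ℝ) * |φ a|)) :
    |∑' a : ℂ, (mx a : ℝ) * φ a| ≤ ∑' a : ℂ, (mx a : ℝ) * |φ a| := by
  have e : ∀ a : ℂ, ‖(mx a : ℝ) * φ a‖ = (mx a : ℝ) * |φ a| := by
    intro a
    rw [Real.norm_eq_abs, abs_mul, Nat.abs_cast]
  have h := norm_tsum_le_tsum_norm (f := fun a : ℂ => (mx a : ℝ) * φ a) (by simpa only [e] using hs)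
  rw [Real.norm_eq_abs] at h
  simpa only [e] using h

/-- the difference of the sums at `t` and at `0` (symmetry) -/
private theorem zc_symm {f : ℝ → ℝ} (hf : ES f (5 / 8)) (t : ℝ) :
    2 * ((∑' a : ℂ, (mx a : ℝ) * ck f (a.im - t)) - ∑' a : ℂ, (mx a : ℝ) * ck f (a.im - 0)) =
      ∑' a : ℂ, (mx a : ℝ) * ck (fun u => f u * (2 * Real.cos (t * u) - 2)) (a.im - 0) := by
  have e1 : ∑' a : ℂ, (mx a : ℝ) * ck f (a.im - t) = ∑' a : ℂ, (mx a : ℝ) * ck f (a.im + t) := by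
    rw [sum_symm (fun x => ck f (x - t))]
    congr 1
    funext a
    rw [← ck_even f (a.im + t)]
    congr 2
    ring
  have s1 := zc_summable hf t
  have s2 : Summable (fun a : ℂ => (mx a : ℝ) * ck f (a.im + t)) := by
    have := zc_summable hf (-t)
    simpa only [sub_neg_eq_add] using this
  have s0 := zc_summable hf 0
  have e2 : 2 * ((∑' a : ℂ, (mx a : ℝ) * ck f (a.im - t)) - ∑' a : ℂ, (mx a : ℝ) * ck f (a.im - 0)) =
      (∑' a : ℂ, (mx a : ℝ) * ck f (a.im - t)) + (∑' a : ℂ, (mx a : ℝ) * ck f (a.im + t)) -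
        2 * ∑' a : ℂ, (mx a : ℝ) * ck f (a.im - 0) := by
    rw [← e1]; ring
  rw [e2, ← s1.tsum_add s2, ← tsum_mul_left, ← (s1.add s2).tsum_sub (s0.mul_left 2)]
  congr 1
  funext a
  have h1 : ck f (a.im - t) + ck f (a.im + t) - 2 * ck f (a.im - 0) =
      ck (fun u => f u * (2 * Real.cos (t * u) - 2)) (a.im - 0) := by
    have i1 := zc_int hf (a.im - t)
    have i2 := zc_int hf (a.im + t)
    have i3 := zc_int hf (a.im - 0)
    have i12 : Integrable (fun u => f u * Real.cos ((a.im - t) * u) + f u * Real.cos ((a.im + t) * u)) :=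
      i1.add i2
    unfold ck
    rw [← integral_add i1 i2, ← integral_const_mul, ← integral_sub i12 (i3.const_mul 2)]
    congr 1
    funext u
    have : Real.cos ((a.im - t) * u) + Real.cos ((a.im + t) * u) =
        2 * Real.cos (a.im * u) * Real.cos (t * u) := by
      rw [sub_mul, add_mul, Real.cos_sub, Real.cos_add]; ring
    simp only [sub_zero]
    calc f u * Real.cos ((a.im - t) * u) + f u * Real.cos ((a.im + t) * u) - 2 * (f u * Real.cos (a.im * u))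
        = f u * (Real.cos ((a.im - t) * u) + Real.cos ((a.im + t) * u)) - 2 * (f u * Real.cos (a.im * u)) := by
          ring
      _ = _ := by rw [this]; ring
  rw [← h1]
  ring

theorem zeros_density (hRH : RiemannHypothesis) {h : ℝ → ℝ} (hh : ES h (5 / 8)) :
    ∃ C : ℝ, 0 ≤ C ∧ ∀ t : ℝ, Summable (fun a : ℂ => (mx a : ℝ) * ck h (a.im - t)) ∧
      |(∑' a : ℂ, (mx a : ℝ) * ck h (a.im - t)) - h 0 * Real.log (2 + |t|)| ≤ C := by
  obtain ⟨Φ, hΦ⟩ := exists_EB (1 / 2) (by norm_num)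
  have hΦ0 : Φ 0 = 1 := hΦ.one 0 (by norm_num)
  have hΦE := zc_ESΦ hΦ
  obtain ⟨C1, hC1, z1⟩ := zsum_away hRH hΦ hh
  obtain ⟨C2, hC2, z2⟩ := frullani hΦ hh
  obtain ⟨C3, hC3, z3⟩ := zsum_away hRH hΦ hΦE
  obtain ⟨C4, hC4, z4⟩ := frullani hΦ hΦE
  set S0 : ℝ := ∑' a : ℂ, (mx a : ℝ) * ck Φ (a.im - 0) with hS0
  have hlog2 : 0 ≤ Real.log 2 := Real.log_nonneg (by norm_num)
  set C5 : ℝ := C3 + C4 + Real.log 2 + |S0| with hC5
  have hC50 : 0 ≤ C5 := by positivity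
  refine ⟨C1 + C2 + 1 + |h 0| + |h 0| * C5, by positivity, fun t => ⟨zc_summable hh t, ?_⟩⟩
  -- the two small sums
  have q1 := (zsum_small hΦ (Θ := fun u => h u - h 0 * Φ u) (hh.smooth.sub (contDiff_const.mul hΦ.smooth))
    (fun u => by simp only [hh.even, hΦ.even]) (by simp only [hΦ0]; ring) t)
  have q2 := (zsum_small hΦ (Θ := fun u => Φ u * (2 * Real.cos (t * u) - 2))
    (hΦ.smooth.mul ((contDiff_const.mul (Real.contDiff_cos.comp (contDiff_const.mul contDiff_id))).sub contDiff_const))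
    (fun u => by simp only [hΦ.even, mul_neg, Real.cos_neg]) (by simp) 0)
  have ev1 : ∀ᶠ R : ℝ in atTop, (∑' a : ℂ, (mx a : ℝ) * |ck (fun u => (h u - h 0 * Φ u) * Φ (R * u)) (a.im - t)|) < 1 :=
    q1.2.eventually (gt_mem_nhds one_pos)
  have ev2 : ∀ᶠ R : ℝ in atTop, (∑' a : ℂ, (mx a : ℝ) *
      |ck (fun u => (Φ u * (2 * Real.cos (t * u) - 2)) * Φ (R * u)) (a.im - 0)|) < 1 :=
    q2.2.eventually (gt_mem_nhds one_pos)
  obtain ⟨R, ⟨⟨hR1, hR2⟩, hR3⟩, hR4⟩ := (((ev1.and ev2).and (eventually_ge_atTop (8 * (2 + |t|)))).and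
    (eventually_ge_atTop (16 : ℝ))).exists
  have hRone : (1 : ℝ) ≤ R := by linarith
  set f1 : ℝ → ℝ := fun u => h u * Φ (R * u) with hf1
  set f2 : ℝ → ℝ := fun u => h u * (1 - Φ (R * u)) with hf2
  set g1 : ℝ → ℝ := fun u => Φ u * Φ (R * u) with hg1
  set g2 : ℝ → ℝ := fun u => Φ u * (1 - Φ (R * u)) with hg2
  have E1 : ES f1 (5 / 8) := zc_ES1 hΦ hh R
  have E2 : ES f2 (5 / 8) := zc_ES2 hΦ hh R
  have G1 : ES g1 (5 / 8) := zc_ES1 hΦ hΦE R
  have G2 : ES g2 (5 / 8) := zc_ES2 hΦ hΦE R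
  -- splitting
  have sp1 : ∑' a : ℂ, (mx a : ℝ) * ck h (a.im - t) =
      (∑' a : ℂ, (mx a : ℝ) * ck f2 (a.im - t)) + ∑' a : ℂ, (mx a : ℝ) * ck f1 (a.im - t) := by
    rw [← (zc_summable E2 t).tsum_add (zc_summable E1 t)]
    congr 1
    funext a
    rw [← mul_add, ← zc_add E2 E1]
    congr 2
    funext u
    simp only [hf1, hf2]
    ring
  have sp2 : S0 = (∑' a : ℂ, (mx a : ℝ) * ck g2 (a.im - 0)) + ∑' a : ℂ, (mx a : ℝ) * ck g1 (a.im - 0) := by
    rw [hS0, ← (zc_summable G2 0).tsum_add (zc_summable G1 0)]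
    congr 1
    funext a
    rw [← mul_add, ← zc_add G2 G1]
    congr 2
    funext u
    simp only [hg1, hg2]
    ring
  have d1 : |(∑' a : ℂ, (mx a : ℝ) * ck f1 (a.im - t)) - h 0 * ∑' a : ℂ, (mx a : ℝ) * ck g1 (a.im - t)| < 1 := by
    have e : (∑' a : ℂ, (mx a : ℝ) * ck f1 (a.im - t)) - h 0 * ∑' a : ℂ, (mx a : ℝ) * ck g1 (a.im - t) =
        ∑' a : ℂ, (mx a : ℝ) * ck (fun u => (h u - h 0 * Φ u) * Φ (R * u)) (a.im - t) := by
      rw [← tsum_mul_left, ← (zc_summable E1 t).tsum_sub ((zc_summable G1 t).mul_left (h 0))]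
      congr 1
      funext a
      have e2 : ck (fun u => (h u - h 0 * Φ u) * Φ (R * u)) (a.im - t) =
          ck f1 (a.im - t) - h 0 * ck g1 (a.im - t) := by
        have G1' : ES (fun u => h 0 * g1 u) (5 / 8) :=
          ⟨contDiff_const.mul G1.smooth, fun u => by rw [G1.even], fun u hu => by rw [G1.supp u hu, mul_zero]⟩
        rw [← zc_smul, ← zc_sub E1 G1']
        congr 1
        funext u
        simp only [hf1, hg1]
        ring
      rw [e2]
      ring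
    rw [e]
    exact lt_of_le_of_lt (zc_abs _ (q1.1 R hRone)) hR1
  have d2 : |2 * ((∑' a : ℂ, (mx a : ℝ) * ck g1 (a.im - t)) - ∑' a : ℂ, (mx a : ℝ) * ck g1 (a.im - 0))| < 1 := by
    rw [zc_symm G1 t]
    have e : (fun u => g1 u * (2 * Real.cos (t * u) - 2)) =
        fun u => (Φ u * (2 * Real.cos (t * u) - 2)) * Φ (R * u) := by
      funext u
      simp only [hg1]
      ring
    rw [e]
    exact lt_of_le_of_lt (zc_abs _ (q2.1 R hRone)) hR2
  have a1 := (z1 t R hRone).2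
  have a2 := z2 t R hR3
  have a3 := (z3 0 R hRone).2
  have a4 := z4 0 R (by rw [abs_zero]; linarith)
  rw [hΦ0, abs_zero, add_zero, one_mul] at a4
  set A2 : ℝ := ∑' a : ℂ, (mx a : ℝ) * ck f2 (a.im - t) with hA2
  set A1 : ℝ := ∑' a : ℂ, (mx a : ℝ) * ck f1 (a.im - t) with hA1
  set B1t : ℝ := ∑' a : ℂ, (mx a : ℝ) * ck g1 (a.im - t) with hB1t
  set B1 : ℝ := ∑' a : ℂ, (mx a : ℝ) * ck g1 (a.im - 0) with hB1
  set B2 : ℝ := ∑' a : ℂ, (mx a : ℝ) * ck g2 (a.im - 0) with hB2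
  set I1 : ℝ := ∫ u in (0 : ℝ)..1, h u * (1 - Φ (R * u)) * Real.cos (t * u) / u with hI1
  set I2 : ℝ := ∫ u in (0 : ℝ)..1, Φ u * (1 - Φ (R * u)) * Real.cos (0 * u) / u with hI2
  have b5 : |B1 - Real.log R| ≤ C5 := by
    have e : B1 - Real.log R = S0 - (B2 + I2) + (I2 - (Real.log R - Real.log 2)) - Real.log 2 := by
      rw [sp2]; ring
    rw [e]
    have t1 := abs_sub (S0 - (B2 + I2) + (I2 - (Real.log R - Real.log 2))) (Real.log 2)
    have t2 := abs_add_le (S0 - (B2 + I2)) (I2 - (Real.log R - Real.log 2))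
    have t3 := abs_sub S0 (B2 + I2)
    rw [abs_of_nonneg hlog2] at t1
    linarith
  have hB : |h 0 * (B1t - B1)| ≤ |h 0| := by
    rw [abs_mul]
    have : |B1t - B1| ≤ 1 := by
      rw [abs_mul, abs_two] at d2
      linarith [abs_nonneg (B1t - B1)]
    nlinarith [abs_nonneg (h 0)]
  have hB' : |h 0 * (B1 - Real.log R)| ≤ |h 0| * C5 := by
    rw [abs_mul]
    exact mul_le_mul_of_nonneg_left b5 (abs_nonneg _)
  rw [sp1]
  have e : A2 + A1 - h 0 * Real.log (2 + |t|) =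
      (A2 + I1) - (I1 - h 0 * (Real.log R - Real.log (2 + |t|))) + (A1 - h 0 * B1t) + h 0 * (B1t - B1) +
        h 0 * (B1 - Real.log R) := by ring
  rw [e]
  have u1 := abs_add_le ((A2 + I1) - (I1 - h 0 * (Real.log R - Real.log (2 + |t|))) + (A1 - h 0 * B1t) +
    h 0 * (B1t - B1)) (h 0 * (B1 - Real.log R))
  have u2 := abs_add_le ((A2 + I1) - (I1 - h 0 * (Real.log R - Real.log (2 + |t|))) + (A1 - h 0 * B1t))
    (h 0 * (B1t - B1))
  have u3 := abs_add_le ((A2 + I1) - (I1 - h 0 * (Real.log R - Real.log (2 + |t|)))) (A1 - h 0 * B1t)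
  have u4 := abs_sub (A2 + I1) (I1 - h 0 * (Real.log R - Real.log (2 + |t|)))
  linarith

end Pool.Agent.Lib.MP_00e05b_nt.Mont
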